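import Pool.Agent.W882.Nip3.Loc
import Pool.Agent.N616.NH.Stm
import Mathlib.Algebra.Ring.SumsOfSquares
import Mathlib.Algebra.Order.Ring.Cone
import Mathlib.Algebra.Order.Ring.Ordering.Basic

set_option autoImplicit false

/-!
# Formally real fields
-/

namespace Pool.Agent.T9h39.Ne

open FirstOrder FirstOrder.Language FirstOrder.Ring Pool.Agent.W882.Nip3

theorem isSumSq_iff {R : Type} [CommRing R] {s : R} :
    IsSumSq s ↔ ∃ (n : ℕ) (x : Fin n → R), s = ∑ i, x i * x i := by
  constructor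
  · intro h
    induction h with
    | zero => exact ⟨0, Fin.elim0, by simp⟩
    | sq_add a hs ih =>
      obtain ⟨n, x, hx⟩ := ih
      refine ⟨n + 1, Fin.cons a x, ?_⟩
      rw [Fin.sum_univ_succ, hx]
      simp
  · rintro ⟨n, x, rfl⟩
    exact IsSumSq.sum_mul_self Finset.univ x

/-- Fields with a place with values in a formally real field are formally real. -/
theorem sumSq_place {K : Type} [Field K] (P : Place K) (h : ¬ IsSumSq (-1 : P.F)) :
    ¬ IsSumSq (-1 : K) := by
  intro hK
  obtain ⟨n, x, hx⟩ := isSumSq_iff.1 hK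
  set w : Fin (n + 1) → K := Fin.cons 1 x with hw
  have hsum : ∑ i, w i * w i = 0 := by
    rw [Fin.sum_univ_succ, hw]
    simp only [Fin.cons_zero, Fin.cons_succ, ← hx, mul_one, add_neg_cancel]
  have hw0 : w ≠ 0 := by
    intro h0
    have h1 := congrFun h0 0
    rw [hw, Fin.cons_zero, Pi.zero_apply] at h1
    exact one_ne_zero h1
  obtain ⟨a, w', ha, hww', i, hi⟩ := exists_scaling P.O w hw0
  have h1 : ∑ j, w' j * w' j = 0 := by
    apply Subtype.ext
    have h2 : a ^ 2 * ∑ j, (w' j : K) * (w' j : K) = 0 := by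
      rw [← hsum, Finset.mul_sum]
      refine Finset.sum_congr rfl fun j _ => ?_
      rw [hww']
      ring
    have h3 := (mul_eq_zero.1 h2).resolve_left (pow_ne_zero 2 ha)
    push_cast
    exact h3
  have h2 := congrArg P.res h1
  rw [map_sum, map_zero, ← Finset.add_sum_erase _ _ (Finset.mem_univ i), hi, mul_one, map_one] at h2
  apply h
  rw [← eq_neg_of_add_eq_zero_right h2]
  have h3 : ∀ j, P.res (w' j * w' j) = P.res (w' j) * P.res (w' j) := fun j => map_mul _ _ _
  simp only [h3]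
  exact IsSumSq.sum_mul_self _ _

/-- Elementarily equivalent fields. -/
theorem sumSq_transfer {K K' : Type} [Field K] [CompatibleRing K] [Field K'] [CompatibleRing K']
    (he : Language.ring.ElementarilyEquivalent K K') (h : ¬ IsSumSq (-1 : K')) :
    ¬ IsSumSq (-1 : K) := by
  intro hK
  apply h
  rw [isSumSq_iff] at hK ⊢
  obtain ⟨n, hn⟩ := hK
  refine ⟨n, ?_⟩
  let φ : Language.ring.Formula (Fin n) :=
    Term.equal (termOfFreeCommRing (-1 : FreeCommRing (Fin n)))
      (termOfFreeCommRing (∑ i, FreeCommRing.of i * FreeCommRing.of i))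
  let σ : Language.ring.Sentence := (φ.relabel (Sum.inr : Fin n → Empty ⊕ Fin n)).iExs (Fin n)
  have h2 : ∀ (E : Type) [Field E] [CompatibleRing E],
      E ⊨ σ ↔ ∃ x : Fin n → E, (-1 : E) = ∑ i, x i * x i := by
    intro E _ _
    show Formula.Realize ((φ.relabel (Sum.inr : Fin n → Empty ⊕ Fin n)).iExs (Fin n))
      (default : Empty → E) ↔ _
    rw [Formula.realize_iExs]
    refine exists_congr fun x => ?_
    rw [Formula.realize_relabel, Sum.elim_comp_inr, Formula.realize_equal,
      realize_termOfFreeCommRing, realize_termOfFreeCommRing]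
    simp
  rw [← h2 K', ← elementarilyEquivalent_iff.1 he σ]
  exact (h2 K).2 hn

/-- Formally real fields have orderings. -/
theorem exists_order (K : Type) [Field K] (h : ¬ IsSumSq (-1 : K)) :
    ∃ (_ : LinearOrder K), IsStrictOrderedRing K := by
  classical
  let S : Set (Set K) := {T | (∀ x ∈ T, ∀ y ∈ T, x + y ∈ T) ∧ (∀ x ∈ T, ∀ y ∈ T, x * y ∈ T) ∧
    (∀ x, x * x ∈ T) ∧ (-1 : K) ∉ T}
  have h0 : {x : K | IsSumSq x} ∈ S :=
    ⟨fun x hx y hy => IsSumSq.add hx hy, fun x hx y hy => IsSumSq.mul hx hy,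
      fun x => IsSumSq.mul_self x, h⟩
  obtain ⟨T, -, hT⟩ := zorn_subset_nonempty S (by
    intro c hc hchain hne
    refine ⟨⋃₀ c, ⟨?_, ?_, ?_, ?_⟩, fun s hs => Set.subset_sUnion_of_mem hs⟩
    · rintro x ⟨s, hs, hx⟩ y ⟨t, ht, hy⟩
      rcases hchain.total hs ht with hst | hst
      · exact ⟨t, ht, (hc ht).1 x (hst hx) y hy⟩
      · exact ⟨s, hs, (hc hs).1 x hx y (hst hy)⟩
    · rintro x ⟨s, hs, hx⟩ y ⟨t, ht, hy⟩
      rcases hchain.total hs ht with hst | hst
      · exact ⟨t, ht, (hc ht).2.1 x (hst hx) y hy⟩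
      · exact ⟨s, hs, (hc hs).2.1 x hx y (hst hy)⟩
    · intro x
      obtain ⟨s, hs⟩ := hne
      exact ⟨s, hs, (hc hs).2.2.1 x⟩
    · rintro ⟨s, hs, hx⟩
      exact (hc hs).2.2.2 hx) _ h0
  obtain ⟨⟨hadd, hmul, hsq, hneg⟩, hmax⟩ := hT
  have hzero : (0 : K) ∈ T := by simpa using hsq 0
  have hone : (1 : K) ∈ T := by simpa using hsq 1
  have hinv : ∀ x ∈ T, x⁻¹ ∈ T := by
    intro x hx
    by_cases hx0 : x = 0
    · rw [hx0, inv_zero]
      exact hzero
    · have := hmul _ hx _ (hsq x⁻¹)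
      rwa [mul_inv_cancel_left₀ hx0] at this
  have htot : ∀ x, x ∈ T ∨ -x ∈ T := by
    intro x
    by_contra hcon
    push Not at hcon
    obtain ⟨hx, hx'⟩ := hcon
    let T' : Set K := {z | ∃ a ∈ T, ∃ b ∈ T, z = a + b * (-x)}
    have hT' : T' ∈ S := by
      refine ⟨?_, ?_, ?_, ?_⟩
      · rintro _ ⟨a, ha, b, hb, rfl⟩ _ ⟨a', ha', b', hb', rfl⟩
        exact ⟨a + a', hadd _ ha _ ha', b + b', hadd _ hb _ hb', by ring⟩
      · rintro _ ⟨a, ha, b, hb, rfl⟩ _ ⟨a', ha', b', hb', rfl⟩
        refine ⟨a * a' + b * b' * (x * x), hadd _ (hmul _ ha _ ha') _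
          (hmul _ (hmul _ hb _ hb') _ (hsq x)), a * b' + b * a',
          hadd _ (hmul _ ha _ hb') _ (hmul _ hb _ ha'), by ring⟩
      · intro z
        exact ⟨z * z, hsq z, 0, hzero, by ring⟩
      · rintro ⟨a, ha, b, hb, hab⟩
        apply hx
        have h1 : b * x = 1 + a := by
          have : b * x = a - (a + b * (-x)) := by ring
          rw [this, ← hab]
          ring
        have hb0 : b ≠ 0 := by
          rintro rfl
          rw [zero_mul] at h1
          apply hneg
          have : a = -1 := by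
            rw [eq_neg_iff_add_eq_zero, add_comm]
            exact h1.symm
          rwa [← this]
        have h2 : x = b⁻¹ * (1 + a) := by
          rw [← h1, inv_mul_cancel_left₀ hb0]
        rw [h2]
        exact hmul _ (hinv b hb) _ (hadd _ hone _ ha)
    have hle : T ⊆ T' := fun z hz => ⟨z, hz, 0, hzero, by ring⟩
    exact hx' (hmax hT' hle ⟨0, hzero, 1, hone, by ring⟩)
  have hzz : ∀ x, x ∈ T → -x ∈ T → x = 0 := by
    intro x hx hx'
    by_contra hx0
    apply hneg
    have h1 := hmul _ hx' _ (hinv x hx)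
    rwa [neg_mul, mul_inv_cancel₀ hx0] at h1
  let C : RingCone K :=
    { carrier := T
      mul_mem' := fun {a b} ha hb => hmul a ha b hb
      one_mem' := hone
      add_mem' := fun {a b} ha hb => hadd a ha b hb
      zero_mem' := hzero
      eq_zero_of_mem_of_neg_mem' := fun {a} ha ha' => hzz a ha ha' }
  have hC : ∀ x, x ∈ C ∨ -x ∈ C := htot
  let PO : PartialOrder K := .mkOfAddGroupCone C
  have hord : IsOrderedRing K := IsOrderedRing.mkOfCone C
  have hle : ∀ x y : K, x ≤ y ↔ y - x ∈ C := fun x y => Iff.rfl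
  let LO : LinearOrder K :=
    { PO with
      le_total := fun a b => by
        rcases hC (b - a) with h1 | h1
        · exact Or.inl h1
        · right
          rw [hle]
          rwa [neg_sub] at h1
      toDecidableLE := Classical.decRel _ }
  exact ⟨LO, @IsOrderedRing.toIsStrictOrderedRing K _ PO hord _ _⟩

end Pool.Agent.T9h39.Ne
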