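import Pool.Agent.T9h39.Ne5
import Pool.Agent.T9h39.Ne9
import Mathlib.NumberTheory.Ostrowski
import Mathlib.Analysis.Normed.Algebra.GelfandMazur
import Mathlib.Analysis.Complex.Polynomial.Basic

set_option autoImplicit false

/-!
# Complete archimedean fields
-/

namespace Pool.Agent.T9h39.Ne

open Finset

section tri

variable {F : Type} [Field F] {N : F → ℝ} {C : ℝ} (hN : QN N C)
include hN

/-- The triangle inequality. -/
theorem QN.tri (hn : ∀ n : ℕ, N (n : F) ≤ n) (x y : F) : N (x + y) ≤ N x + N y := by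
  by_contra hcon
  rw [not_le] at hcon
  set M := N x + N y with hM
  have hx0 := hN.nonneg x
  have hy0 := hN.nonneg y
  have hM0 : 0 ≤ M := add_nonneg hx0 hy0
  rcases hM0.eq_or_lt with h0 | h0
  · have hx : x = 0 := (hN.eq_zero x).1 (by linarith)
    have hy : y = 0 := (hN.eq_zero y).1 (by linarith)
    rw [hx, hy, add_zero, hN.zero, ← h0] at hcon
    exact lt_irrefl _ hcon
  obtain ⟨s, hs⟩ := growth (N (x + y) / M) C 1 (by rwa [one_lt_div h0])
  have hs := hs.resolve_right (not_lt.2 (by linarith [hN.one_le]))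
  set n := 2 ^ s - 1 with hn'
  have h1 : N ((x + y) ^ n) ≤ C ^ s * M ^ n := by
    rw [add_pow]
    refine hN.sum_le s (n + 1) ?_ _ _ (pow_nonneg hM0 _) fun i hi => ?_
    · have : 1 ≤ 2 ^ s := Nat.one_le_two_pow
      omega
    · rw [hN.mul, hN.mul, hN.pow, hN.pow]
      calc N x ^ i * N y ^ (n - i) * N ((n.choose i : ℕ) : F) ≤
          N x ^ i * N y ^ (n - i) * (n.choose i : ℕ) :=
            mul_le_mul_of_nonneg_left (hn _) (by positivity)
        _ ≤ ∑ j ∈ range (n + 1), N x ^ j * N y ^ (n - j) * (n.choose j : ℕ) :=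
            Finset.single_le_sum (f := fun j => N x ^ j * N y ^ (n - j) * (n.choose j : ℕ))
              (fun j _ => by positivity) (by simpa using hi)
        _ = M ^ n := by rw [hM, add_pow]
  rw [hN.pow] at h1
  rw [div_pow, lt_div_iff₀ (by positivity), one_mul] at hs
  exact absurd h1 (not_le.2 hs)

end tri

/-- The Gelfand-Mazur theorem. -/
theorem gelfand (F : Type) [Field F] (N : F → ℝ) {C : ℝ} (hN : QN N C)
    (htri : ∀ x y, N (x + y) ≤ N x + N y) (g : ℝ →+* F) (hg : ∀ r, N (g r) = |r|) :
    IsAlgClosed F ∨ ¬ IsSumSq (-1 : F) := by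
  let nf : NormedField F :=
    { (inferInstance : Field F) with
      norm := N
      dist := fun x y => N (x - y)
      dist_self := fun x => by rw [sub_self]; exact hN.zero
      dist_comm := fun x y => by
        show N (x - y) = N (y - x)
        rw [← hN.neg, neg_sub]
      dist_triangle := fun x y z => by
        show N (x - z) ≤ N (x - y) + N (y - z)
        have h : x - z = (x - y) + (y - z) := by ring
        rw [h]
        exact htri _ _
      eq_of_dist_eq_zero := fun {x y} h => sub_eq_zero.1 ((hN.eq_zero _).1 h)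
      dist_eq := fun x y => by
        show N (x - y) = N (-x + y)
        rw [← hN.neg]
        congr 1
        ring
      norm_mul := hN.mul }
  let na : NormedAlgebra ℝ F :=
    { g.toAlgebra with
      norm_smul_le := fun r x => by
        show N (g r * x) ≤ ‖r‖ * N x
        rw [hN.mul, hg, Real.norm_eq_abs] }
  rcases NormedAlgebra.Real.nonempty_algEquiv_or F with ⟨⟨e⟩⟩ | ⟨⟨e⟩⟩
  · right
    intro h
    obtain ⟨n, x, hx⟩ := isSumSq_iff.1 h
    have h1 := congrArg e hx
    rw [map_neg, map_one, map_sum] at h1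
    have h2 : 0 ≤ ∑ i, e (x i * x i) := Finset.sum_nonneg fun i _ => by
      rw [map_mul]
      exact mul_self_nonneg _
    linarith
  · left
    exact IsAlgClosed.of_ringEquiv ℂ F e.symm.toRingEquiv

/-- Complete archimedean fields are algebraically closed or formally real. -/
theorem real_of_arch (F : Type) [NontriviallyNormedField F] [CompleteSpace F] (n : ℕ)
    (hn : 1 < ‖(n : F)‖) : IsAlgClosed F ∨ ¬ IsSumSq (-1 : F) := by
  have hQ : QN (fun x : F => ‖x‖) 2 :=
    { nonneg := norm_nonneg
      eq_zero := fun x => norm_eq_zero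
      one := norm_one
      mul := norm_mul
      one_le := by norm_num
      add := fun x y => (norm_add_le x y).trans (by
        show ‖x‖ + ‖y‖ ≤ 2 * max ‖x‖ ‖y‖
        linarith [le_max_left ‖x‖ ‖y‖, le_max_right ‖x‖ ‖y‖]) }
  have hchar : CharZero F := charZero_of_inj_zero fun m hm => by
    by_contra h0
    exact hQ.arch_ne hn (Nat.one_le_iff_ne_zero.2 h0) hm
  let v : AbsoluteValue ℚ ℝ :=
    { toFun := fun x => ‖(x : F)‖
      map_mul' := fun x y => by rw [Rat.cast_mul, norm_mul]
      nonneg' := fun x => norm_nonneg _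
      eq_zero' := fun x => by rw [norm_eq_zero, Rat.cast_eq_zero]
      add_le' := fun x y => by
        rw [Rat.cast_add]
        exact norm_add_le _ _ }
  have hv : v.IsEquiv Rat.AbsoluteValue.real := Rat.AbsoluteValue.equiv_real_of_unbounded (by
    intro h
    have h1 : ‖((n : ℚ) : F)‖ ≤ 1 := h n
    rw [Rat.cast_natCast] at h1
    exact absurd hn (not_lt.2 h1))
  obtain ⟨c, hc, hvc⟩ := AbsoluteValue.isEquiv_iff_exists_rpow_eq.1 hv
  have hvc' : ∀ x : ℚ, ‖(x : F)‖ ^ c = |(x : ℝ)| := by
    intro x
    have h1 : ‖(x : F)‖ ^ c = Rat.AbsoluteValue.real x := congrFun hvc x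
    rw [h1, Rat.AbsoluteValue.real_eq_abs, Rat.cast_abs]
  have hmono : ∀ {a b : ℝ}, 0 ≤ a → a ≤ b → a ^ c ≤ b ^ c := fun ha hab =>
    Real.rpow_le_rpow ha hab hc.le
  have hN : QN (fun x : F => ‖x‖ ^ c) (2 ^ c) :=
    { nonneg := fun x => Real.rpow_nonneg (norm_nonneg x) c
      eq_zero := fun x => by
        rw [Real.rpow_eq_zero (norm_nonneg x) hc.ne', norm_eq_zero]
      one := by rw [norm_one, Real.one_rpow]
      mul := fun x y => by
        rw [norm_mul, Real.mul_rpow (norm_nonneg x) (norm_nonneg y)]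
      one_le := Real.one_le_rpow (by norm_num) hc.le
      add := fun x y => by
        have h1 : ‖x + y‖ ≤ 2 * max ‖x‖ ‖y‖ := hQ.add x y
        refine (hmono (norm_nonneg _) h1).trans (le_of_eq ?_)
        rw [Real.mul_rpow (by norm_num) ((norm_nonneg x).trans (le_max_left _ _))]
        congr 1
        rcases le_total ‖x‖ ‖y‖ with h | h
        · rw [max_eq_right h, max_eq_right (hmono (norm_nonneg _) h)]
        · rw [max_eq_left h, max_eq_left (hmono (norm_nonneg _) h)] }
  have htri := hN.tri (fun m => by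
    have h1 := hvc' (m : ℚ)
    rw [Rat.cast_natCast, Rat.cast_natCast, Nat.abs_cast] at h1
    exact h1.le)
  have huc : UniformContinuous (Rat.castHom F) := by
    rw [Metric.uniformContinuous_iff]
    intro ε hε
    refine ⟨ε ^ c, Real.rpow_pos_of_pos hε c, fun {a b} hab => ?_⟩
    rw [Rat.dist_eq] at hab
    rw [dist_eq_norm, ← map_sub]
    have h1 := hvc' (a - b)
    have h2 : |((a - b : ℚ) : ℝ)| < ε ^ c := by
      rw [Rat.cast_sub]
      exact hab
    rw [← h1] at h2
    exact (Real.rpow_lt_rpow_iff (norm_nonneg _) hε.le hc).1 h2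
  have hui : IsUniformInducing (Rat.castHom ℝ) := Rat.isUniformEmbedding_coe_real.isUniformInducing
  have hdr : DenseRange (Rat.castHom ℝ) := Rat.isDenseEmbedding_coe_real.dense
  let g : ℝ →+* F := IsDenseInducing.extendRingHom hui hdr huc
  have hgc : Continuous g := (uniformContinuous_uniformly_extend hui hdr huc).continuous
  refine gelfand F (fun x => ‖x‖ ^ c) hN htri g fun r => ?_
  have hcl : IsClosed {r : ℝ | ‖g r‖ ^ c = |r|} :=
    isClosed_eq ((continuous_norm.comp hgc).rpow_const fun _ => Or.inr hc.le) continuous_abs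
  refine hdr.induction_on (p := fun r => ‖g r‖ ^ c = |r|) r hcl fun x => ?_
  have h1 : g ((Rat.castHom ℝ) x) = (x : F) := by
    rw [eq_ratCast (Rat.castHom ℝ) x, map_ratCast]
  rw [h1, hvc']
  rfl

end Pool.Agent.T9h39.Ne
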