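import Pool.Agent.T9h39.Ne8
import Pool.Agent.T9h39.Ne9
import Pool.Agent.T9h39.Ne11
import Pool.Agent.T9h43.TV.Rel2

set_option autoImplicit false

/-!
# Places with a definable topology of NIP fields
-/

namespace Pool.Agent.T9h39.Ne

open FirstOrder FirstOrder.Language FirstOrder.Ring Pool.Agent.W882.Nip3 Pool.Agent.N616.NH
open Pool.Agent.N616.NV Pool.Agent.N616.NH.DJ_ Pool.Agent.N616.NV.Pla_
open Pool.Agent.T9h39.Nd

/-- A field which is not separably closed has a finite separable extension of degree divisible by a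
prime number. -/
theorem exists_prime_degree (F : Type) [Field F] (h : ¬ IsSepClosed F) :
    ∃ (M : Type) (_ : Field M) (_ : Algebra F M) (_ : FiniteDimensional F M)
      (_ : Algebra.IsSeparable F M), ∃ q : ℕ, q.Prime ∧ q ∣ Module.finrank F M := by
  by_contra hcon
  push Not at hcon
  apply h
  refine IsSepClosed.of_exists_root F fun f hf hirr hsep => ?_
  obtain ⟨x, hx⟩ := IsAlgClosed.exists_aeval_eq_zero (AlgebraicClosure F) f hirr.degree_pos.ne'
  have hmin : minpoly F x = f := (minpoly.eq_of_irreducible_of_monic hirr hx hf).symm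
  have hint : IsIntegral F x := Algebra.IsIntegral.isIntegral x
  have hxs : IsSeparable F x := by
    show (minpoly F x).Separable
    rw [hmin]
    exact hsep
  have hfin : FiniteDimensional F (IntermediateField.adjoin F {x}) :=
    IntermediateField.adjoin.finiteDimensional hint
  have hsp : Algebra.IsSeparable F (IntermediateField.adjoin F {x}) :=
    (IntermediateField.isSeparable_adjoin_simple_iff_isSeparable F _).2 hxs
  have h1 := hcon (IntermediateField.adjoin F {x}) inferInstance inferInstance hfin hsp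
  have h2 : Module.finrank F (IntermediateField.adjoin F {x}) = 1 := by
    by_contra hne
    exact h1 _ (Nat.minFac_prime hne) (Nat.minFac_dvd _)
  rw [IntermediateField.adjoin.finrank hint, hmin] at h2
  have h3 : f.degree = 1 := by
    rw [Polynomial.degree_eq_natDegree hf.ne_zero, h2]
    rfl
  exact Polynomial.exists_root_of_degree_eq_one h3

/-- Separably closed fields have dimension at most one. -/
theorem dimLe_of_sepClosed (F : Type) [Field F] (h : IsSepClosed F) (N : ℕ) :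
    DimLeOneUpTo F N := by
  by_contra hcon
  obtain ⟨M, _, _, _, _, q, hq, hqM⟩ := Pool.Agent.T9h43.TV.exists_prime_degree hcon
  have h1 : Function.Bijective (algebraMap F M) :=
    ⟨(algebraMap F M).injective, IsSepClosed.algebraMap_surjective F M⟩
  have h2 : Module.finrank F M = 1 := by
    have := (LinearEquiv.ofBijective (Algebra.linearMap F M) h1).finrank_eq
    rw [← this, Module.finrank_self]
  rw [h2, Nat.dvd_one] at hqM
  exact hq.ne_one hqM

/-- A field `G` of characteristic zero which is not separably closed, and contains a square root of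
`-1`, has a finite extension which does not contain all `q`-th roots, for some prime number `q`, and
contains a `q`-th root of `-1`. -/
theorem exists_pow_ext₁ (G : Type) [Field G] [CharZero G] (h : ¬ IsSepClosed G) (j : G)
    (hj : j ^ 2 = -1) :
    ∃ q : ℕ, q.Prime ∧ ∃ (E : Type) (_ : Field E) (_ : Algebra G E) (_ : FiniteDimensional G E)
      (c : E) (i : E), i ^ q = -1 ∧ ∀ y : E, y ^ q ≠ c := by
  obtain ⟨M, _, _, _, _, q, hq, hqM⟩ := exists_prime_degree G h
  obtain ⟨E, i1, i2, i3, _, c, hc⟩ := Pool.Agent.T9h43.TV.exists_not_pow G hq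
    (Nat.cast_ne_zero.2 hq.ne_zero) M hqM
  refine ⟨q, hq, E, i1, i2, i3, c, ?_⟩
  rcases hq.eq_two_or_odd' with h2 | h2
  · subst h2
    exact ⟨algebraMap G E j, by rw [← map_pow, hj, map_neg, map_one], hc⟩
  · exact ⟨-1, h2.neg_one_pow, hc⟩

/-- A field of characteristic zero which is neither separably closed nor formally real has a finite
extension which does not contain all `q`-th roots, for some prime number `q`, and contains a `q`-th
root of `-1`. -/
theorem exists_pow_ext (F : Type) [Field F] [CharZero F] (h : ¬ IsSepClosed F) :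
    (∃ q : ℕ, q.Prime ∧ ∃ (E : Type) (_ : Field E) (_ : Algebra F E) (_ : FiniteDimensional F E)
      (c : E) (i : E), i ^ q = -1 ∧ ∀ y : E, y ^ q ≠ c) ∨ ¬ IsSumSq (-1 : F) := by
  classical
  by_cases hj : ∃ j : F, j ^ 2 = -1
  · obtain ⟨j, hj⟩ := hj
    exact Or.inl (exists_pow_ext₁ F h j hj)
  have hirr : Irreducible (Polynomial.X ^ 2 + 1 : Polynomial F) := by
    have h1 : (Polynomial.X ^ 2 + 1 : Polynomial F) = Polynomial.X ^ 2 - Polynomial.C (-1) := by
      simp
    rw [h1]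
    refine X_pow_sub_C_irreducible_of_prime Nat.prime_two fun b hb => hj ⟨b, hb⟩
  have hfact : Fact (Irreducible (Polynomial.X ^ 2 + 1 : Polynomial F)) := ⟨hirr⟩
  let G := AdjoinRoot (Polynomial.X ^ 2 + 1 : Polynomial F)
  let _ : Field G := AdjoinRoot.instField
  have hfin : FiniteDimensional F G := (AdjoinRoot.powerBasis hirr.ne_zero).finite
  let j : G := AdjoinRoot.root _
  have hj2 : j ^ 2 = -1 := by
    have h1 := AdjoinRoot.eval₂_root (Polynomial.X ^ 2 + 1 : Polynomial F)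
    rw [Polynomial.eval₂_add, Polynomial.eval₂_pow, Polynomial.eval₂_X, Polynomial.eval₂_one] at h1
    exact eq_neg_of_add_eq_zero_left h1
  have hchar : CharZero G := charZero_of_injective_algebraMap (algebraMap F G).injective
  by_cases hG : IsSepClosed G
  swap
  · left
    obtain ⟨q, hq, E, _, _, _, c, i, hi, hc⟩ := exists_pow_ext₁ G hG j hj2
    let _ : Algebra F E := ((algebraMap G E).comp (algebraMap F G)).toAlgebra
    have : IsScalarTower F G E := IsScalarTower.of_algebraMap_eq fun _ => rfl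
    exact ⟨q, hq, E, inferInstance, inferInstance, Module.Finite.trans G E, c, i, hi, hc⟩
  right
  -- coordinates
  have hco : ∀ w : G, ∃ u v : F, w = algebraMap F G u + algebraMap F G v * j := by
    intro w
    have hd : (AdjoinRoot.powerBasis hirr.ne_zero).dim = 2 := by
      rw [AdjoinRoot.powerBasis_dim]
      have h1 : (Polynomial.X ^ 2 + 1 : Polynomial F) = Polynomial.X ^ 2 - Polynomial.C (-1) := by
        simp
      rw [h1, Polynomial.natDegree_X_pow_sub_C]
    obtain ⟨f, hf, hfw⟩ := (AdjoinRoot.powerBasis hirr.ne_zero).exists_eq_aeval w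
    rw [hd] at hf
    have h2 : f = Polynomial.C (f.coeff 0) + Polynomial.C (f.coeff 1) * Polynomial.X := by
      rw [add_comm]
      exact Polynomial.eq_X_add_C_of_natDegree_le_one (by omega)
    refine ⟨f.coeff 0, f.coeff 1, ?_⟩
    rw [hfw, h2]
    simp [AdjoinRoot.powerBasis_gen]
    rfl
  have huniq : ∀ a b u v : F, algebraMap F G a + algebraMap F G b * j =
      algebraMap F G u + algebraMap F G v * j → a = u ∧ b = v := by
    intro a b u v huv
    have hbv : b = v := by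
      by_contra hne
      apply hj
      refine ⟨(u - a) / (b - v), (algebraMap F G).injective ?_⟩
      have hb : algebraMap F G b - algebraMap F G v ≠ 0 := by
        rw [← map_sub]
        exact (map_ne_zero _).2 (sub_ne_zero.2 hne)
      have h1 : j = (algebraMap F G u - algebraMap F G a) /
          (algebraMap F G b - algebraMap F G v) := by
        rw [eq_div_iff hb]
        linear_combination huv
      rw [map_pow, map_div₀, map_sub, map_sub, ← h1, hj2, map_neg, map_one]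
    subst hbv
    exact ⟨(algebraMap F G).injective (add_right_cancel huv), rfl⟩
  -- sums of squares
  have hsq : ∀ a b : F, ∃ c : F, a ^ 2 + b ^ 2 = c ^ 2 := by
    intro a b
    obtain ⟨w, hw⟩ : ∃ w : G, w ^ 2 = algebraMap F G a + algebraMap F G b * j :=
      IsSepClosed.exists_pow_nat_eq _ 2
    obtain ⟨u, v, rfl⟩ := hco w
    have h1 : algebraMap F G (u ^ 2 - v ^ 2) + algebraMap F G (2 * u * v) * j =
        algebraMap F G a + algebraMap F G b * j := by
      rw [← hw, map_sub, map_pow, map_pow, map_mul, map_mul, map_ofNat]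
      linear_combination (-(algebraMap F G v) ^ 2) * hj2
    obtain ⟨rfl, rfl⟩ := huniq _ _ _ _ h1
    exact ⟨u ^ 2 + v ^ 2, by ring⟩
  intro hs
  have h2 : ∀ s : F, IsSumSq s → ∃ c : F, s = c ^ 2 := by
    intro s hs
    induction hs with
    | zero => exact ⟨0, by ring⟩
    | sq_add a hs ih =>
      obtain ⟨c, hc⟩ := ih
      rw [hc, ← sq]
      exact hsq a c
  obtain ⟨c, hc⟩ := h2 _ hs
  exact hj ⟨c, hc.symm⟩



/-- A definable subgroup from a finite extension of the complete field of a place. -/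
theorem ext_E2 (K : Type) [Field K] [CompatibleRing K] (P : Place K) (U : Set K)
    (hU : D K (fun v : Fin 1 → K => v 0 ∈ U)) (ε : ℝ) (hε : 0 < ε)
    (hU1 : ∀ (x : K) (h : x ∈ P.O), ‖P.res ⟨x, h⟩‖ ≤ ε → x ∈ U)
    (hU2 : ∀ x ∈ U, ∃ h : x ∈ P.O, ‖P.res ⟨x, h⟩‖ ≤ 1 / ε) {q : ℕ} (hq : q ≠ 0)
    (hqn : ‖(q : P.F)‖ = 1)
    (E : Type) [NontriviallyNormedField E] [IsUltrametricDist E] [NormedAlgebra P.F E]
    [FiniteDimensional P.F E] [Algebra.IsSeparable P.F E] [CompleteSpace E]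
    (c0 : E) (hc0 : ∀ y : E, y ^ q ≠ c0) (hi : ∃ i : E, i ^ q = -1) :
    ∃ (L : Type) (_ : Field L) (_ : Algebra K L) (_ : FiniteDimensional K L) (T : Set L)
      (A : ValuationSubring L) (c : L), D K (fun v : Fin 1 → L => v 0 ∈ T) ∧
      (∀ x ∈ T, ∀ y ∈ T, x * y ∈ T) ∧ (∀ x ∈ T, x⁻¹ ∈ T) ∧ (∀ x : L, x ≠ 0 → x ^ q ∈ T) ∧
      c ≠ 0 ∧ c ∉ T ∧ A ≠ ⊤ ∧ (∀ x : L, A.valuation x < 1 → 1 + x ∈ T) ∧ (-1 : L) ∈ T := by
  obtain ⟨L, i1, i2, i3, -, -, T, A₀, c', hDT, -, hmul, hinv, hpow, hc0, hcT, hA₀, hcm, hm1, -⟩ :=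
    Pool.Agent.T9h43.TV.Rel.ext_E_rel2 P U hU ε hε hU1 hU2 hq hqn E c0 hc0
  exact ⟨L, i1, i2, i3, T, A₀, c', hDT, hmul, hinv, hpow, hc0, hcT, hA₀, hcm, hm1 hi⟩

/-- The residue characteristic of an extension of the ring of a place. -/
theorem val_p {K : Type} [Field K] (P : Place K) {r : ℕ} (hrn : ‖(r : P.F)‖ < 1) (L : Type)
    [Field L] [Algebra K L] (A : ValuationSubring L)
    (hA : ∀ x : K, algebraMap K L x ∈ A ↔ ∃ h : x ∈ P.O, ‖P.res ⟨x, h⟩‖ ≤ 1) :
    A.valuation (r : L) < 1 := by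
  rw [lt_one]
  by_contra hcon
  push Not at hcon
  obtain ⟨hr0, hri⟩ := hcon
  have hrK : (r : K) ≠ 0 := by
    intro h
    apply hr0
    rw [← map_natCast (algebraMap K L), h, map_zero]
  have hri' : algebraMap K L (r : K)⁻¹ ∈ A := by
    rw [map_inv₀, map_natCast]
    exact hri
  obtain ⟨h1, h2⟩ := (hA _).1 hri'
  have h3 : (⟨(r : K)⁻¹, h1⟩ : P.O) * (r : P.O) = 1 := by
    refine Subtype.ext ?_
    show (r : K)⁻¹ * ((r : P.O) : K) = 1
    have h7 : ((r : P.O) : K) = (r : K) := by simp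
    rw [h7]
    exact inv_mul_cancel₀ hrK
  have h4 : ‖P.res ⟨(r : K)⁻¹, h1⟩‖ * ‖(r : P.F)‖ = 1 := by
    rw [← map_natCast P.res, ← norm_mul, ← map_mul, h3, map_one, norm_one]
  have h5 : ‖P.res ⟨(r : K)⁻¹, h1⟩‖ * ‖(r : P.F)‖ < 1 := by
    calc ‖P.res ⟨(r : K)⁻¹, h1⟩‖ * ‖(r : P.F)‖ ≤ 1 * ‖(r : P.F)‖ :=
          mul_le_mul_of_nonneg_right h2 (norm_nonneg _)
      _ < 1 := by rwa [one_mul]
  rw [h4] at h5
  exact lt_irrefl _ h5

/-- A nonarchimedean place with a definable topology of a field which is `NIP_n` and not formally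
real gives a definable valuation ring, if the complete field is not separably closed. -/
theorem dfb_of_top (K : Type) [Field K] [CompatibleRing K] (n : ℕ) (hn : NIPnField n K)
    (P : Place K) (hult : ∀ a b : P.F, ‖a + b‖ ≤ max ‖a‖ ‖b‖) (U : Set K) (hU : DfS U)
    (ε : ℝ) (hε : 0 < ε) (hU1 : ∀ (x : K) (h : x ∈ P.O), ‖P.res ⟨x, h⟩‖ ≤ ε → x ∈ U)
    (hU2 : ∀ x ∈ U, ∃ h : x ∈ P.O, ‖P.res ⟨x, h⟩‖ ≤ 1 / ε) (hsc : ¬ IsSepClosed P.F) :
    (∃ A : ValuationSubring K, A ≠ ⊤ ∧ Dfb A) ∨ ¬ IsSumSq (-1 : K) := by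
  have hul : IsUltrametricDist P.F :=
    IsUltrametricDist.isUltrametricDist_of_forall_norm_add_le_max_norm hult
  -- the last step for positive residue characteristic
  have key : ∀ {p : ℕ} (_ : p.Prime) {q : ℕ} (_ : q.Prime) (_ : q ≠ p), ‖(p : P.F)‖ < 1 →
      (∃ (L : Type) (_ : Field L) (_ : Algebra K L) (_ : FiniteDimensional K L) (T : Set L)
      (A : ValuationSubring L) (c : L), D K (fun v : Fin 1 → L => v 0 ∈ T) ∧ (0 : L) ∉ T ∧
      (∀ x ∈ T, ∀ y ∈ T, x * y ∈ T) ∧ (∀ x ∈ T, x⁻¹ ∈ T) ∧ (∀ x : L, x ≠ 0 → x ^ q ∈ T) ∧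
      c ≠ 0 ∧ c ∉ T ∧ A ≠ ⊤ ∧ (∀ x : L, A.valuation x < 1 → 1 + x ∈ T) ∧
      ∀ x : K, algebraMap K L x ∈ A ↔ ∃ h : x ∈ P.O, ‖P.res ⟨x, h⟩‖ ≤ 1) →
      ∃ A : ValuationSubring K, A ≠ ⊤ ∧ Dfb A := by
    rintro p hp q hq hqp hpn ⟨L, _, _, _, T, A₀, c, hDT, -, hmul, hinv, hpow, hc0, hcT, hA₀, hcm, hAK⟩
    have : Fact p.Prime := ⟨hp⟩
    refine jkT K L (gr_of_T hmul hinv hpow) (D_of_T hDT) (q := q) ?_ p
      ((Nat.coprime_primes hp hq).2 (Ne.symm hqp)) (A₀ := A₀) (fun x hx => Or.inr (hcm x hx)) hA₀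
      (val_p P hpn L A₀ hAK) (c := c) ?_
    · intro x
      by_cases hx : x = 0
      · left
        rw [hx, zero_pow hq.ne_zero]
      · exact Or.inr (hpow x hx)
    · rintro (h | h)
      · exact hc0 h
      · exact hcT h
  have harch : ∀ m : ℕ, ‖(m : P.F)‖ ≤ 1 := fun m => Pool.Agent.T9h43.TV.norm_nat_le m
  by_cases hp : ∃ p : ℕ, p.Prime ∧ ‖(p : P.F)‖ < 1
  · obtain ⟨p, hp, hpn⟩ := hp
    left
    rcases Pool.Agent.T9h43.MC.main P.F hp hpn (fun E _ _ _ _ _ =>
      Pool.Agent.T9h43.MC.no_pat n hn P hult U hU ε hε hU1 hU2 hp E) with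
      h1 | ⟨-, ⟨π, hπ0, hπ1, hπ⟩, -⟩
    · obtain ⟨M, _, _, _, _, q, hq, hqM⟩ := exists_prime_degree P.F hsc
      have hqp : q ≠ p := by
        rintro rfl
        exact h1 M hqM
      exact key hp hq hqp hpn (Pool.Agent.T9h43.TV.ext_T P hult U hU ε hε hU1 hU2 hq
        (Pool.Agent.T9h43.TV.norm_prime hq hp hqp hpn) M hqM)
    · obtain ⟨q, hq, hqp⟩ : ∃ q : ℕ, q.Prime ∧ q ≠ p := by
        by_cases h : p = 2
        · exact ⟨3, Nat.prime_three, by omega⟩
        · exact ⟨2, Nat.prime_two, fun h' => h h'.symm⟩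
      refine key hp hq hqp hpn (Pool.Agent.T9h43.TV.ext_E P U hU ε hε hU1 hU2 hq.ne_zero
        (Pool.Agent.T9h43.TV.norm_prime hq hp hqp hpn) P.F π fun y hy => ?_)
      have h2 : ‖y‖ ^ q = ‖π‖ := by rw [← norm_pow, hy]
      have h3 : ‖y‖ < 1 := by
        by_contra h
        rw [not_lt] at h
        have := one_le_pow₀ h (n := q)
        rw [h2] at this
        exact absurd hπ1 (not_lt.2 this)
      have h4 := hπ y h3
      have hπp : 0 < ‖π‖ := norm_pos_iff.2 hπ0
      have h5 : ‖y‖ ^ q ≤ ‖π‖ ^ q := pow_le_pow_left₀ (norm_nonneg _) h4 q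
      have h6 : ‖π‖ ^ q < ‖π‖ := pow_lt_self_of_lt_one₀ hπp hπ1 hq.one_lt
      rw [h2] at h5
      exact absurd (h5.trans_lt h6) (lt_irrefl _)
  push Not at hp
  have hqn : ∀ q : ℕ, q.Prime → ‖(q : P.F)‖ = 1 := fun q hq => le_antisymm (harch q) (hp q hq)
  have hchar : CharZero P.F := by
    obtain ⟨p, hpc⟩ := CharP.exists P.F
    rcases CharP.char_is_prime_or_zero P.F p with h | h
    · have h1 := hqn p h
      rw [CharP.cast_eq_zero, norm_zero] at h1
      exact absurd h1 zero_ne_one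
    · subst h
      exact CharP.charP_to_charZero P.F
  rcases exists_pow_ext P.F hsc with ⟨q, hq, E, _, _, _, c, i, hi, hc⟩ | h
  swap
  · exact Or.inr (sumSq_place P h)
  left
  have hUD : D K (fun v : Fin 1 → K => v 0 ∈ U) := by
    have h1 : D K (fun v : Fin 1 → K => ∃ x ∈ U, algebraMap K K x = v 0) := VD_.dfl_subU hU
    refine D_congr (fun v => ?_) h1
    constructor
    · rintro ⟨x, hx, hxv⟩
      have : x = v 0 := hxv
      rwa [← this]
    · intro h
      exact ⟨v 0, h, rfl⟩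
  let _ : NontriviallyNormedField E := spectralNorm.nontriviallyNormedField P.F E
  let _ : NormedAlgebra P.F E := spectralNorm.normedAlgebra P.F E
  have : IsUltrametricDist E :=
    IsUltrametricDist.isUltrametricDist_of_isNonarchimedean_norm isNonarchimedean_spectralNorm
  have : CompleteSpace E := spectralNorm.completeSpace P.F E
  obtain ⟨L, _, _, _, T, A₀, c', hDT, hmul, hinv, hpow, hc0, hcT, hA₀, hcm, hm1⟩ :=
    ext_E2 K P U hUD ε hε hU1 hU2 hq.ne_zero (hqn q hq) E c hc ⟨i, hi⟩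
  refine jk2 K n hn L (gr_of_T hmul hinv hpow) (D_of_T hDT) hq ?_ (Or.inr hm1)
    (A₀ := A₀) (fun x hx => Or.inr (hcm x hx)) hA₀ (c := c') ?_
  · intro x
    by_cases hx : x = 0
    · left
      rw [hx, zero_pow hq.ne_zero]
    · exact Or.inr (hpow x hx)
  · rintro (h | h)
    · exact hc0 h
    · exact hcT h

/-- The topology of the place is definable: some definable set is a bounded neighbourhood of zero. -/
def DefTop {K : Type} [Field K] [CompatibleRing K] (P : Place K) : Prop :=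
  ∃ (U : Set K) (ε : ℝ), DfS U ∧ 0 < ε ∧
    (∀ (x : K) (h : x ∈ P.O), ‖P.res ⟨x, h⟩‖ ≤ ε → x ∈ U) ∧
    ∀ x ∈ U, ∃ h : x ∈ P.O, ‖P.res ⟨x, h⟩‖ ≤ 1 / ε

/-- Places of a field which is `NIP_n`, has no definable valuation rings and is not formally real. -/
theorem place_main (K : Type) [Field K] [CompatibleRing K] (n : ℕ) (hn : NIPnField n K)
    (hA : ¬ ∃ A : ValuationSubring K, A ≠ ⊤ ∧ Dfb A) (hr : IsSumSq (-1 : K)) (P : Place K) :
    (∀ N : ℕ, DimLeOneUpTo P.F N) ∧ (DefTop P → IsSepClosed P.F) := by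
  by_cases harch : ∃ m : ℕ, 1 < ‖(m : P.F)‖
  · obtain ⟨m, hm⟩ := harch
    rcases real_of_arch P.F m hm with h | h
    · have h1 : IsSepClosed P.F := inferInstance
      exact ⟨fun N => dimLe_of_sepClosed P.F h1 N, fun _ => h1⟩
    · exact absurd hr (sumSq_place P h)
  push Not at harch
  have hul : IsUltrametricDist P.F :=
    IsUltrametricDist.isUltrametricDist_of_forall_norm_natCast_le_one harch
  have hult : ∀ a b : P.F, ‖a + b‖ ≤ max ‖a‖ ‖b‖ := IsUltrametricDist.norm_add_le_max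
  have key : DefTop P → IsSepClosed P.F := by
    rintro ⟨U, ε, hU, hε, hU1, hU2⟩
    by_contra hsc
    rcases dfb_of_top K n hn P hult U hU ε hε hU1 hU2 hsc with h | h
    · exact hA h
    · exact h hr
  refine ⟨fun N => ?_, key⟩
  by_contra hN
  apply hN
  refine dimLe_of_sepClosed P.F (key ?_) N
  obtain ⟨U, ε, hU, hε, hU1, hU2⟩ :=
    (Pool.Agent.Results.MP_3554b5_lc.PlacesOfHigherDimension.result K
      (Or.inr (Or.inl ⟨n, hn⟩))).1 P N hult hN
  exact ⟨U, ε, hU, hε, hU1, hU2⟩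

end Pool.Agent.T9h39.Ne
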