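import Mathlib

/-!
# Abel-Jacobi maps of open varieties: definitions
-/

open TensorProduct

namespace Pool.Agent.T9h39.AJ

section scalars

variable (H : Type) [AddCommGroup H] [Module ℚ H]

/-- The complexification `ℂ ⊗ H` of a rational vector space. -/
def Cx : Type := ℂ ⊗[ℚ] H

noncomputable instance : AddCommGroup (Cx H) := inferInstanceAs (AddCommGroup (ℂ ⊗[ℚ] H))
noncomputable instance : Module ℂ (Cx H) := inferInstanceAs (Module ℂ (ℂ ⊗[ℚ] H))
noncomputable instance : Module ℚ (Cx H) := inferInstanceAs (Module ℚ (ℂ ⊗[ℚ] H))
instance : IsScalarTower ℚ ℂ (Cx H) := inferInstanceAs (IsScalarTower ℚ ℂ (ℂ ⊗[ℚ] H))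

/-- The real vector space `ℝ ⊗ H`. -/
def Re : Type := ℝ ⊗[ℚ] H

noncomputable instance : AddCommGroup (Re H) := inferInstanceAs (AddCommGroup (ℝ ⊗[ℚ] H))
noncomputable instance : Module ℝ (Re H) := inferInstanceAs (Module ℝ (ℝ ⊗[ℚ] H))

/-- The inclusion of the rational space in the complexification. -/
noncomputable def one : H →ₗ[ℚ] Cx H := TensorProduct.mk ℚ ℂ H 1

variable {H} {H' : Type} [AddCommGroup H'] [Module ℚ H']

/-- The complexification of a linear map. -/
noncomputable def cx (f : H →ₗ[ℚ] H') : Cx H →ₗ[ℂ] Cx H' := f.baseChange ℂ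

/-- The extension of a linear map to the real spaces. -/
noncomputable def re (f : H →ₗ[ℚ] H') : Re H →ₗ[ℝ] Re H' := f.baseChange ℝ

/-- The extension of a bilinear form to the real space. -/
noncomputable def reForm (ψ : LinearMap.BilinForm ℚ H) : LinearMap.BilinForm ℝ (Re H) :=
  ψ.baseChange ℝ

end scalars

/-- A finite-dimensional rational vector space with a subspace of its complexification. In the use
it is a mixed Hodge structure with weights at most zero, and the subspace is the step `F⁰` of the Hodge
filtration. -/
structure HS where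
  /-- the rational vector space -/
  H : Type
  [ab : AddCommGroup H]
  [mod : Module ℚ H]
  [fin : FiniteDimensional ℚ H]
  /-- the step `F⁰` -/
  F : Submodule ℂ (Cx H)

attribute [instance] HS.ab HS.mod HS.fin

/-- The subspace `F⁰ + M_ℚ` of the complexification. -/
noncomputable def sub (M : HS) : Submodule ℚ (Cx M.H) :=
  M.F.restrictScalars ℚ ⊔ LinearMap.range (one M.H)

/-- Carlson's description `M_ℂ / (F⁰ + M_ℚ)` of the group of the extensions of `ℚ(0)` by `M` in the
category of mixed Hodge structures; for `M = H^(2k-1)(X)(k)` the intermediate Jacobian with rational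
coefficients. -/
def Jac (M : HS) : Type := Cx M.H ⧸ sub M

noncomputable instance (M : HS) : AddCommGroup (Jac M) :=
  inferInstanceAs (AddCommGroup (Cx M.H ⧸ sub M))
noncomputable instance (M : HS) : Module ℚ (Jac M) :=
  inferInstanceAs (Module ℚ (Cx M.H ⧸ sub M))

/-- The class of an element of the complexification. -/
noncomputable def jmk (M : HS) : Cx M.H →ₗ[ℚ] Jac M := (sub M).mkQ

/-- The element `n` is a Hodge class (if the weight is zero). -/
def IsHodge (M : HS) (n : M.H) : Prop := one M.H n ∈ M.F

/-- The linear map `f` respects the Hodge filtrations. -/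
def Respects {M N : HS} (f : M.H →ₗ[ℚ] N.H) : Prop := ∀ x ∈ M.F, cx f x ∈ N.F

/-- A linear map which respects the Hodge filtration. -/
structure Mor (M N : HS) where
  /-- the linear map -/
  f : M.H →ₗ[ℚ] N.H
  resp : Respects f

lemma cx_one {H H' : Type} [AddCommGroup H] [Module ℚ H] [AddCommGroup H'] [Module ℚ H']
    (f : H →ₗ[ℚ] H') (n : H) : cx f (one H n) = one H' (f n) := by
  change f.baseChange ℂ ((1 : ℂ) ⊗ₜ[ℚ] n) = (1 : ℂ) ⊗ₜ[ℚ] f n
  rw [LinearMap.baseChange_tmul]

lemma Mor.sub {M N : HS} (f : Mor M N) :
    AJ.sub M ≤ (AJ.sub N).comap ((cx f.f).restrictScalars ℚ) := by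
  refine sup_le (fun x hx => ?_) ?_
  · exact Submodule.mem_sup_left (f.resp x hx)
  · rintro _ ⟨n, rfl⟩
    refine Submodule.mem_sup_right ⟨f.f n, ?_⟩
    exact (cx_one f.f n).symm

/-- The induced map of the groups of extensions. -/
noncomputable def Mor.jac {M N : HS} (f : Mor M N) : Jac M →ₗ[ℚ] Jac N :=
  Submodule.mapQ _ _ ((cx f.f).restrictScalars ℚ) f.sub

/-- The cycles of codimension `k` on a variety modulo rational equivalence (with rational
coefficients), the cycle class map to `N = H^(2k)(k)` and the Abel-Jacobi map to the extensions of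
`ℚ(0)` by `M = H^(2k-1)(k)`. (If `M` has positive weights, it has to be replaced by `W_0 M`, which does not
change the group of extensions, and similarly for `N`.) -/
structure Cyc where
  /-- the Chow group -/
  C : Type
  [ab : AddCommGroup C]
  [mod : Module ℚ C]
  /-- the cohomology of degree `2k` -/
  N : HS
  /-- the cohomology of degree `2k-1` -/
  M : HS
  /-- the cycle class map -/
  cl : C →ₗ[ℚ] N.H
  hodge : ∀ z, IsHodge N (cl z)
  /-- the Abel-Jacobi map -/
  Φ : LinearMap.ker cl →ₗ[ℚ] Jac M

attribute [instance] Cyc.ab Cyc.mod

/-- The cycle `z` is homologically trivial and `y` is its Abel-Jacobi class. -/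
def HasClass (A : Cyc) (z : A.C) (y : Jac A.M) : Prop := ∃ h : A.cl z = 0, A.Φ ⟨z, h⟩ = y

/-- The kernel of the Abel-Jacobi map. -/
noncomputable def Cyc.kernel (A : Cyc) : Submodule ℚ A.C :=
  (LinearMap.ker A.Φ).map (LinearMap.ker A.cl).subtype

/-- The statement of the problem for the variety: the Abel-Jacobi map is injective. -/
def Cyc.Injective (A : Cyc) : Prop := Function.Injective A.Φ

/-- Compatible maps of the Chow groups and of the cohomology groups (restriction to an open
subvariety, push-forward, or an algebraic correspondence). -/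
structure CMor (A B : Cyc) where
  /-- the map of the Chow groups -/
  c : A.C →ₗ[ℚ] B.C
  /-- the map in degree `2k` -/
  n : Mor A.N B.N
  /-- the map in degree `2k-1` -/
  m : Mor A.M B.M
  cl : ∀ z, B.cl (c z) = n.f (A.cl z)
  aj : ∀ z y, HasClass A z y → HasClass B (c z) (m.jac y)

/-- The sequence is exact in the middle. -/
def IsExact {U V W : Type} [AddCommGroup U] [Module ℚ U] [AddCommGroup V] [Module ℚ V]
    [AddCommGroup W] [Module ℚ W] (f : U →ₗ[ℚ] V) (g : V →ₗ[ℚ] W) : Prop :=
  LinearMap.ker g = LinearMap.range f

/-- The localization sequences for the cycles and the cohomology: `A` belongs to a smooth projective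
variety `X`, `B` to the open subvariety `V`, `D` to the resolutions of the components of the complement;
`i` is the push-forward and `j` the restriction. -/
structure IsLocalization {D A B : Cyc} (i : CMor D A) (j : CMor A B) : Prop where
  surj : Function.Surjective j.c
  exact : IsExact i.c j.c
  exactN : IsExact i.n.f j.n.f
  exactM : IsExact i.m.f j.m.f

/-- The residue map `b` from `H^(2k-1)(V)(k)` to the part `R` of weight zero of the cohomology
`H^(2k)(k)` of `X` with support in the complement of `V`, and the push-forward `π` from the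
cohomology of the resolutions of the components of the complement. -/
structure Residue (D B : Cyc) where
  /-- the cohomology with support -/
  R : HS
  /-- the residue -/
  b : Mor B.M R
  /-- the push-forward -/
  π : Mor D.N R

/-- A residue `b e` which is a Hodge class comes from a Hodge class on the resolutions of the
components of the complement whose push-forward to `X` is zero (since the category of polarizable
Hodge structures is semisimple). -/
def Residue.LiftsHodge {D A B : Cyc} (r : Residue D B) (i : CMor D A) : Prop :=
  ∀ e : B.M.H, IsHodge r.R (r.b.f e) → ∃ d : D.N.H, IsHodge D.N d ∧ r.π.f d = r.b.f e ∧ i.n.f d = 0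

/-- The restriction of `x` to `V` is the difference `e - f` of a rational class `e` and a class `f` in
`F⁰` with the same residue. -/
structure IsDifference {D A B : Cyc} (r : Residue D B) (j : CMor A B) (e : B.M.H)
    (f : Cx B.M.H) (x : Cx A.M.H) : Prop where
  mem : f ∈ B.M.F
  res : cx r.b.f f = one r.R.H (r.b.f e)
  eq : cx j.m.f x = one B.M.H e - f

/-- The Abel-Jacobi class of a homologically trivial cycle `i z` with support in the complement of
`V` is the extension given by the class of `z`: it is the class of `x` if the restriction of `x` to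
`V` is the difference `e - f` of a rational class `e` and a class `f` in `F⁰`, both with residue the
class of `z`, up to classes from the cohomology of `D`. -/
def Residue.IsBoundary {D A B : Cyc} (r : Residue D B) (i : CMor D A) (j : CMor A B) : Prop :=
  ∀ (z : D.C) (e : B.M.H) (f : Cx B.M.H) (x : Cx A.M.H), A.cl (i.c z) = 0 →
    r.b.f e = r.π.f (D.cl z) → IsDifference r j e f x →
    ∃ y : Jac D.M, HasClass A (i.c z) (jmk A.M x + i.m.jac y)

/-- A polarization of a Hodge structure of odd weight: a rational bilinear form `ψ` and the Weil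
operator `W` on the real vector space, such that `ψ (x, W x) > 0`. -/
structure Polarization (M : HS) where
  /-- the form -/
  ψ : LinearMap.BilinForm ℚ M.H
  /-- the Weil operator -/
  W : Re M.H →ₗ[ℝ] Re M.H
  pos : ∀ x, x ≠ 0 → 0 < reForm ψ x (W x)

/-- The map commutes with the Weil operators. -/
def Commutes {M N : HS} (P : Polarization M) (Q : Polarization N) (f : M.H →ₗ[ℚ] N.H) : Prop :=
  ∀ x, re f (P.W x) = Q.W (re f x)

/-- The map `t` is adjoint to `g` for the polarizations, and both commute with the Weil operators. -/
structure IsAdjoint {M N : HS} (P : Polarization M) (Q : Polarization N) (g : M.H →ₗ[ℚ] N.H)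
    (t : N.H →ₗ[ℚ] M.H) : Prop where
  adj : ∀ a b, Q.ψ (g a) b = P.ψ a (t b)
  commg : Commutes P Q g
  commt : Commutes Q P t

/-- The Hodge conjecture: all Hodge classes are classes of cycles with rational coefficients. -/
def HodgeConj (A : Cyc) : Prop := ∀ n : A.N.H, IsHodge A.N n → ∃ z : A.C, A.cl z = n

/-- A Hodge class in the image is the image of a Hodge class (this holds for morphisms of polarizable
pure Hodge structures). -/
def LiftsHodge {M N : HS} (f : Mor M N) : Prop :=
  ∀ a : M.H, IsHodge N (f.f a) → ∃ d : M.H, IsHodge M d ∧ f.f d = f.f a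

/-- The adjoint, for polarizations, of the push-forward `H^(2k-3)(D)(k-1) → H^(2k-1)(X)(k)` is given by
an algebraic correspondence. -/
def HasAlgebraicAdjoint {D A : Cyc} (i : CMor D A) : Prop :=
  ∃ (t : CMor A D) (P : Polarization D.M) (Q : Polarization A.M), IsAdjoint P Q i.m.f t.m.f

end Pool.Agent.T9h39.AJ
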