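import Pool.Agent.T9h39.AJMain

/-!
# Abel-Jacobi maps: reduction to critical dimensions
-/

namespace Pool.Agent.T9h39.AJ

/-- An isomorphism of Hodge structures: a bijective map for which the step `F⁰` is the inverse image of
the step `F⁰`. -/
structure Mor.IsIso {M N : HS} (f : Mor M N) : Prop where
  bij : Function.Bijective f.f
  strict : ∀ x, cx f.f x ∈ N.F → x ∈ M.F

/-- The cycles on all smooth projective varieties (not necessarily connected, of pure dimension), with
their class maps and Abel-Jacobi maps. -/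
structure Theory where
  /-- the varieties -/
  Var : Type
  /-- the dimension -/
  dim : Var → ℕ
  /-- the Chow group in codimension `k` with its class map and its Abel-Jacobi map -/
  cyc : Var → ℕ → Cyc
  /-- the embeddings of `Y` in `X` as a smooth ample divisor -/
  Divisor : Var → Var → Type
  /-- the push-forward -/
  push : ∀ {Y X : Var}, Divisor Y X → ∀ k, CMor (cyc Y k) (cyc X (k + 1))
  /-- the product `X × ℙ¹` -/
  line : Var → Var
  /-- the pull-back for the projection `X × ℙ¹ → X` -/
  pull : ∀ (X : Var) (k : ℕ), CMor (cyc X k) (cyc (line X) k)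
  /-- the push-forward for a section `X → X × ℙ¹` -/
  section_ : ∀ (X : Var) (k : ℕ), CMor (cyc X k) (cyc (line X) (k + 1))

/-- Elementary properties: dimensions; there are no cycles of negative dimension; the pull-back to
`X × ℙ¹` and the push-forward for a section are injective (they have left inverses). -/
structure Theory.IsElementary (T : Theory) : Prop where
  dim_divisor : ∀ {Y X : T.Var}, T.Divisor Y X → T.dim X = T.dim Y + 1
  dim_line : ∀ X, T.dim (T.line X) = T.dim X + 1
  vanish : ∀ (X : T.Var) (k : ℕ) (z : (T.cyc X k).C), T.dim X < k → z = 0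
  pull_inj : ∀ X k, Function.Injective (T.pull X k).c
  section_inj : ∀ X k, Function.Injective (T.section_ X k).c

/-- The Lefschetz theorem: the Gysin map `H^i(Y) → H^(i+2)(X)(1)` is an isomorphism for `i > dim Y`; for
`i = 2k` and `i = 2k-1`. -/
structure Theory.IsLefschetz (T : Theory) : Prop where
  even : ∀ {Y X : T.Var} (s : T.Divisor Y X) (k : ℕ), T.dim Y < 2 * k → (T.push s k).n.IsIso
  odd : ∀ {Y X : T.Var} (s : T.Divisor Y X) (k : ℕ), T.dim Y + 1 < 2 * k → (T.push s k).m.IsIso

/-- Cycles of small dimension `d` on `X` (here `2 d + 2 < dim X`) are rationally equivalent, with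
rational coefficients, to cycles with support in a smooth ample divisor. -/
def Theory.Moving (T : Theory) : Prop :=
  ∀ (X : T.Var) (k : ℕ) (z : (T.cyc X (k + 1)).C), k + 1 ≤ T.dim X → T.dim X + 2 < 2 * (k + 1) →
    ∃ (Y : T.Var) (s : T.Divisor Y X) (w : (T.cyc Y k).C), (T.push s k).c w = z

/-- The Abel-Jacobi map is injective for the cycles of codimension `m + 1` (dimension `m - 1`) on all
varieties of dimension `2 m`. -/
def Theory.Critical (T : Theory) (m : ℕ) : Prop :=
  ∀ X : T.Var, T.dim X = 2 * m → (T.cyc X (m + 1)).Injective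

/-- The Abel-Jacobi map is injective for the cycles of dimension less than `m` on all varieties. -/
def Theory.Small (T : Theory) (m : ℕ) : Prop :=
  ∀ (X : T.Var) (k : ℕ), T.dim X < k + m → (T.cyc X k).Injective

lemma injective_of {A : Cyc} (h : ∀ z, HasClass A z 0 → z = 0) : A.Injective := by
  rw [injective_iff, eq_bot_iff]
  intro z hz
  exact h z (mem_kernel.1 hz)

lemma Cyc.Injective.eq_zero {A : Cyc} (hA : A.Injective) {z : A.C} (h : HasClass A z 0) : z = 0 := by
  have h1 := mem_kernel.2 h
  rw [(injective_iff A).1 hA] at h1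
  exact h1

/-- Descent along a morphism which is injective on cycles. -/
lemma Cyc.Injective.of_inj {A B : Cyc} (f : CMor A B) (hf : Function.Injective f.c)
    (hB : B.Injective) : A.Injective := by
  refine injective_of fun z hz => ?_
  have h1 := f.aj z 0 hz
  rw [map_zero] at h1
  apply hf
  rw [map_zero]
  exact hB.eq_zero h1

lemma Mor.IsIso.jac_inj {M N : HS} {f : Mor M N} (hf : f.IsIso) {y : Jac M} (h : f.jac y = 0) :
    y = 0 := by
  obtain ⟨x, rfl⟩ := exists_rep _ y
  rw [jac_mk] at h
  have h1 : cx f.f x ∈ AJ.sub N := (Submodule.Quotient.mk_eq_zero _).1 h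
  rw [AJ.sub, Submodule.mem_sup] at h1
  obtain ⟨φ, hφ, _, ⟨n, rfl⟩, hx⟩ := h1
  obtain ⟨m, rfl⟩ := hf.bij.2 n
  have h2 : cx f.f (x - one M.H m) = φ := by
    rw [map_sub, cx_one, ← hx, add_sub_cancel_right]
  have h3 : x - one M.H m ∈ M.F := hf.strict _ (by rw [h2]; exact hφ)
  refine (Submodule.Quotient.mk_eq_zero _).2 ?_
  rw [AJ.sub, Submodule.mem_sup]
  exact ⟨_, h3, _, ⟨m, rfl⟩, sub_add_cancel _ _⟩

/-- The step with a smooth ample divisor. -/
lemma push_step {A B : Cyc} (f : CMor A B) (hn : f.n.IsIso) (hm : f.m.IsIso) (hA : A.Injective)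
    {w : A.C} (h : HasClass B (f.c w) 0) : w = 0 := by
  obtain ⟨h0, h1⟩ := h
  have h2 : A.cl w = 0 := by
    rw [f.cl] at h0
    apply hn.bij.1
    rw [map_zero]
    exact h0
  have h3 : HasClass A w (A.Φ ⟨w, h2⟩) := ⟨h2, rfl⟩
  have h4 := (f.aj w _ h3).unique ⟨h0, h1⟩
  rw [hm.jac_inj h4] at h3
  exact hA.eq_zero h3

variable {T : Theory}

lemma above (hE : T.IsElementary) (hL : T.IsLefschetz) (hM : T.Moving) {m : ℕ} (hm : 1 ≤ m)
    (hC : T.Critical m) (j : ℕ) : ∀ X : T.Var, T.dim X = 2 * m + j →
      (T.cyc X (m + 1 + j)).Injective := by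
  induction j with
  | zero => intro X hX; exact hC X hX
  | succ j ih =>
    intro X hX
    refine injective_of fun z hz => ?_
    obtain ⟨Y, s, w, rfl⟩ := hM X (m + 1 + j) z (by omega) (by omega)
    have hY : T.dim Y = 2 * m + j := by
      have := hE.dim_divisor s
      omega
    have h1 := push_step (T.push s (m + 1 + j)) (hL.even s _ (by omega)) (hL.odd s _ (by omega))
      (ih Y hY) hz
    rw [h1, map_zero]

lemma below (hE : T.IsElementary) {m : ℕ} (hC : T.Critical m) (j : ℕ) :
    ∀ (X : T.Var) (k : ℕ), k + j = m + 1 → T.dim X + j = 2 * m → (T.cyc X k).Injective := by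
  induction j with
  | zero =>
    intro X k hk hX
    obtain rfl : k = m + 1 := hk
    exact hC X hX
  | succ j ih =>
    intro X k hk hX
    have h1 := ih (T.line X) (k + 1) (by omega) (by rw [hE.dim_line]; omega)
    exact Cyc.Injective.of_inj (T.section_ X k) (hE.section_inj X k) h1

/-- Cycles of dimension `m - 1`. -/
lemma exact_dim (hE : T.IsElementary) (hL : T.IsLefschetz) (hM : T.Moving) {m : ℕ} (hm : 1 ≤ m)
    (hC : T.Critical m) (X : T.Var) (k : ℕ) (h : T.dim X + 1 = k + m) :
    (T.cyc X k).Injective := by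
  rcases le_total (2 * m) (T.dim X) with h1 | h1
  · obtain ⟨j, hj⟩ := Nat.exists_eq_add_of_le h1
    obtain rfl : k = m + 1 + j := by omega
    exact above hE hL hM hm hC j X hj
  · obtain ⟨j, hj⟩ := Nat.exists_eq_add_of_le h1
    exact below hE hC j X k (by omega) hj.symm

lemma small_of_critical (hE : T.IsElementary) (hL : T.IsLefschetz) (hM : T.Moving) {m : ℕ}
    (hC : T.Critical m) : T.Small m := by
  intro X k h
  rcases Nat.lt_or_ge (T.dim X) k with h1 | h1
  · exact injective_of fun z _ => hE.vanish X k z h1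
  · have hm : 1 ≤ m := by omega
    have key : ∀ j : ℕ, ∀ X : T.Var, T.dim X + 1 + j = k + m → (T.cyc X k).Injective := by
      intro j
      induction j with
      | zero => intro X hX; exact exact_dim hE hL hM hm hC X k (by omega)
      | succ j ih =>
        intro X hX
        have h2 := ih (T.line X) (by rw [hE.dim_line]; omega)
        exact Cyc.Injective.of_inj (T.pull X k) (hE.pull_inj X k) h2
    exact key (k + m - (T.dim X + 1)) X (by omega)

end Pool.Agent.T9h39.AJ
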