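import Pool.Agent.T9h39.AJMain

/-!
# Localization for the kernels of the Abel-Jacobi maps
-/

namespace Pool.Agent.T9h39.AJ

/-- The map is surjective, and the step `F⁰` of the target is the image of the one of the source. -/
structure Mor.IsQuotient {M N : HS} (f : Mor M N) : Prop where
  surj : Function.Surjective f.f
  strict : ∀ y ∈ N.F, ∃ x ∈ M.F, cx f.f x = y

/-- The correspondence `t` induces left inverses of the maps of cohomology of the push-forward `i`. -/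
structure IsRetraction {D A : Cyc} (i : CMor D A) (t : CMor A D) : Prop where
  n : ∀ x, t.n.f (i.n.f x) = x
  m : ∀ x, t.m.f (i.m.f x) = x

section exact

variable {U V W : Type} [AddCommGroup U] [Module ℚ U] [AddCommGroup V] [Module ℚ V]
  [AddCommGroup W] [Module ℚ W]

lemma exact_cx {f : U →ₗ[ℚ] V} {g : V →ₗ[ℚ] W} (h : IsExact f g) {x : Cx V} (hx : cx g x = 0) :
    ∃ u, cx f u = x := by
  have h1 : Function.Exact f g := LinearMap.exact_iff.2 h
  have h2 : Function.Exact (f.lTensor ℂ) (g.lTensor ℂ) := Module.Flat.lTensor_exact ℂ h1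
  exact (h2 x).1 hx

end exact

variable {D A B : Cyc}

lemma IsRetraction.jac {i : CMor D A} {t : CMor A D} (h : IsRetraction i t) (y : Jac D.M) :
    t.m.jac (i.m.jac y) = y := by
  obtain ⟨x, rfl⟩ := exists_rep _ y
  have e : t.m.f ∘ₗ i.m.f = LinearMap.id := LinearMap.ext h.m
  rw [jac_mk, jac_mk, ← cx_comp, e, cx_id]

/-- Surjectivity of the map of the kernels. -/
theorem kernel_surj {i : CMor D A} {j : CMor A B} (hloc : IsLocalization i j) {t : CMor A D}
    (ht : IsRetraction i t) (hq : j.m.IsQuotient) : B.kernel = A.kernel.map j.c := by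
  have hji : ∀ w, j.c (i.c w) = 0 := by
    intro w
    have h0 : LinearMap.ker j.c = LinearMap.range i.c := hloc.exact
    have : i.c w ∈ LinearMap.ker j.c := by rw [h0]; exact ⟨w, rfl⟩
    exact this
  apply le_antisymm
  · intro ξ hξ
    obtain ⟨hξ0, hΦ0⟩ := mem_kernel.1 hξ
    obtain ⟨ζ, rfl⟩ := hloc.surj ξ
    have h1 : A.cl ζ ∈ LinearMap.range i.n.f := by
      have : LinearMap.ker j.n.f = LinearMap.range i.n.f := hloc.exactN
      rw [← this, LinearMap.mem_ker, ← j.cl]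
      exact hξ0
    obtain ⟨a, ha⟩ := h1
    set ζ₁ := ζ - i.c (t.c ζ) with hζ₁
    have hcl1 : A.cl ζ₁ = 0 := by
      rw [hζ₁, map_sub, i.cl, t.cl, ← ha, ht.n, sub_self]
    have hj1 : j.c ζ₁ = j.c ζ := by rw [hζ₁, map_sub, hji, sub_zero]
    obtain ⟨x, hx⟩ := exists_rep _ (A.Φ ⟨ζ₁, hcl1⟩)
    have hx1 : HasClass A ζ₁ (jmk A.M x) := ⟨hcl1, hx⟩
    have h2 : jmk B.M (cx j.m.f x) = 0 := by
      have h3 := j.aj ζ₁ _ hx1
      rw [jac_mk, hj1] at h3
      exact h3.unique ⟨hξ0, hΦ0⟩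
    have h2' : cx j.m.f x ∈ AJ.sub B.M := (Submodule.Quotient.mk_eq_zero _).1 h2
    rw [AJ.sub, Submodule.mem_sup] at h2'
    obtain ⟨φ, hφ, _, ⟨e, rfl⟩, hfe⟩ := h2'
    obtain ⟨x₁, hx₁, rfl⟩ := hq.strict φ hφ
    obtain ⟨a', rfl⟩ := hq.surj e
    obtain ⟨u, hu⟩ := exact_cx hloc.exactM (x := x - x₁ - one A.M.H a') (by
      rw [map_sub, map_sub, ← hfe, cx_one]
      abel)
    have h4 : jmk A.M x = jmk A.M (cx i.m.f u) := by
      rw [hu]
      refine (Submodule.Quotient.eq _).2 ?_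
      rw [sub_sub, sub_sub_cancel, AJ.sub, Submodule.mem_sup]
      exact ⟨x₁, hx₁, _, ⟨a', rfl⟩, rfl⟩
    rw [h4, ← jac_mk] at hx1
    have h5 := i.aj _ _ (t.aj _ _ hx1)
    rw [ht.jac] at h5
    refine ⟨ζ₁ - i.c (t.c ζ₁), mem_kernel.2 ?_, ?_⟩
    · have h6 := hx1.sub h5
      rw [sub_self] at h6
      exact h6
    · rw [map_sub, hji, sub_zero, hj1]
  · rintro _ ⟨ζ, hζ, rfl⟩
    have h1 := j.aj ζ 0 (mem_kernel.1 hζ)
    rw [map_zero] at h1
    exact mem_kernel.2 h1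

/-- Exactness in the middle. -/
theorem kernel_exact {i : CMor D A} {j : CMor A B} (hloc : IsLocalization i j) {t : CMor A D}
    (ht : IsRetraction i t) : A.kernel ⊓ LinearMap.ker j.c = D.kernel.map i.c := by
  apply le_antisymm
  · rintro ζ ⟨hζ, hj⟩
    have h0 : LinearMap.ker j.c = LinearMap.range i.c := hloc.exact
    have h1 : ζ ∈ LinearMap.range i.c := h0 ▸ hj
    obtain ⟨w, rfl⟩ := h1
    have h1 := mem_kernel.1 hζ
    obtain ⟨h2, h3⟩ := h1
    have h4 : D.cl w = 0 := by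
      rw [i.cl] at h2
      rw [← ht.n (D.cl w), h2, map_zero]
    have h5 : HasClass D w (D.Φ ⟨w, h4⟩) := ⟨h4, rfl⟩
    have h6 := (i.aj w _ h5).unique ⟨h2, h3⟩
    refine ⟨w, mem_kernel.2 ⟨h4, ?_⟩, rfl⟩
    rw [← ht.jac (D.Φ ⟨w, h4⟩), h6, map_zero]
  · rintro _ ⟨w, hw, rfl⟩
    have h1 := i.aj w 0 (mem_kernel.1 hw)
    rw [map_zero] at h1
    refine ⟨mem_kernel.2 h1, ?_⟩
    have h0 : LinearMap.ker j.c = LinearMap.range i.c := hloc.exact
    have h2 : i.c w ∈ LinearMap.ker j.c := by rw [h0]; exact ⟨w, rfl⟩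
    exact h2

end Pool.Agent.T9h39.AJ
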