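import Pool.Agent.T9h39.AJDefs

/-!
# Abel-Jacobi maps of open varieties
-/

open TensorProduct Polynomial

namespace Pool.Agent.T9h39.AJ

section linalg

variable {H : Type} [AddCommGroup H] [Module ℚ H] [FiniteDimensional ℚ H]

omit [FiniteDimensional ℚ H] in
lemma aeval_mem (P : Module.End ℚ H) {U : Submodule ℚ H} (hU : ∀ u ∈ U, P u ∈ U) (q : ℚ[X])
    {u : H} (hu : u ∈ U) : aeval P q u ∈ U := by
  induction q using Polynomial.induction_on' with
  | add p q hp hq => rw [map_add, LinearMap.add_apply]; exact U.add_mem hp hq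
  | monomial n c =>
    rw [aeval_monomial, Module.algebraMap_end_eq_smul_id, smul_mul_assoc, LinearMap.smul_apply]
    refine U.smul_mem _ ?_
    change (P ^ n) u ∈ U
    induction n with
    | zero => exact hu
    | succ n ih => rw [pow_succ', Module.End.mul_apply]; exact hU _ ih

/-- The inverse of an operator on a stable subspace is a polynomial in the operator. -/
lemma exists_poly (P : Module.End ℚ H) {U : Submodule ℚ H} (hU : ∀ u ∈ U, P u ∈ U)
    (hinj : ∀ u ∈ U, P u = 0 → u = 0) : ∃ q : ℚ[X], ∀ u ∈ U, P (aeval P q u) = u := by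
  have hne : P.charpoly ≠ 0 := P.charpoly_monic.ne_zero
  obtain ⟨h, hh, hnd⟩ := P.charpoly.exists_eq_pow_rootMultiplicity_mul_and_not_dvd hne 0
  rw [map_zero, sub_zero] at hh hnd
  set r := P.charpoly.rootMultiplicity 0
  have h0 : h.coeff 0 ≠ 0 := fun h0 => hnd (X_dvd_iff.2 h0)
  -- `h (P)` kills `U`
  have hkill : ∀ u ∈ U, aeval P h u = 0 := by
    intro u hu
    have h1 : (P ^ r) (aeval P h u) = 0 := by
      have h2 : aeval P P.charpoly u = 0 := by rw [P.aeval_self_charpoly]; rfl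
      rw [hh, map_mul, map_pow, aeval_X] at h2
      exact h2
    have h3 : ∀ n : ℕ, ∀ w ∈ U, (P ^ n) w = 0 → w = 0 := by
      intro n
      induction n with
      | zero => intro w _ hw; exact hw
      | succ n ih =>
        intro w hw hw0
        rw [pow_succ, Module.End.mul_apply] at hw0
        exact hinj w hw (ih _ (hU w hw) hw0)
    exact h3 r _ (aeval_mem P hU h hu) h1
  refine ⟨C (-(h.coeff 0)⁻¹) * h.divX, fun u hu => ?_⟩
  have h4 : h = h.divX * X + C (h.coeff 0) := (divX_mul_X_add h).symm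
  have h5 := hkill u hu
  rw [h4, map_add, map_mul, aeval_X, aeval_C, Module.algebraMap_end_eq_smul_id,
    LinearMap.add_apply] at h5
  have hcomm : aeval P h.divX * P = P * aeval P h.divX := by
    have := Commute.all (X : ℚ[X]) h.divX
    have h6 := congrArg (aeval P) this.eq
    rw [map_mul, map_mul, aeval_X] at h6
    exact h6.symm
  rw [hcomm] at h5
  have h7 : P (aeval P h.divX u) = -(h.coeff 0 • u) := eq_neg_of_add_eq_zero_left h5
  rw [map_mul, aeval_C, Module.algebraMap_end_eq_smul_id, Module.End.mul_apply,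
    LinearMap.smul_apply, LinearMap.id_apply, map_smul, h7, smul_neg, smul_smul, neg_mul,
    inv_mul_cancel₀ h0, neg_smul, one_smul, neg_neg]

end linalg

section functor

variable {U V W : Type} [AddCommGroup U] [Module ℚ U] [AddCommGroup V] [Module ℚ V]
  [AddCommGroup W] [Module ℚ W]

/-- The inclusion of the rational space in the real space. -/
noncomputable def oneR (H : Type) [AddCommGroup H] [Module ℚ H] (x : H) : Re H :=
  (1 : ℝ) ⊗ₜ[ℚ] x

lemma real_zero {x : U} (h : oneR U x = 0) : x = 0 := by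
  have h1 : Function.Injective (TensorProduct.mk ℚ ℝ U 1) := by
    have h2 := Module.Flat.rTensor_preserves_injective_linearMap (M := U)
      (Algebra.linearMap ℚ ℝ) (algebraMap ℚ ℝ).injective
    have h3 : ∀ x : U, TensorProduct.mk ℚ ℝ U 1 x =
        (Algebra.linearMap ℚ ℝ).rTensor U ((TensorProduct.lid ℚ U).symm x) := by
      intro x
      simp
    intro x y hxy
    rw [h3, h3] at hxy
    exact (TensorProduct.lid ℚ U).symm.injective (h2 hxy)
  exact h1 (by rw [map_zero]; exact h)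

lemma re_oneR (f : U →ₗ[ℚ] V) (x : U) : re f (oneR U x) = oneR V (f x) := by
  change f.baseChange ℝ ((1 : ℝ) ⊗ₜ[ℚ] x) = (1 : ℝ) ⊗ₜ[ℚ] f x
  rw [LinearMap.baseChange_tmul]

lemma oneR_zero : oneR U 0 = 0 := by
  change (1 : ℝ) ⊗ₜ[ℚ] (0 : U) = 0
  rw [TensorProduct.tmul_zero]

lemma adj_real {ψ : LinearMap.BilinForm ℚ U} {φ : LinearMap.BilinForm ℚ V} {g : U →ₗ[ℚ] V}
    {t : V →ₗ[ℚ] U} (h : ∀ a b, φ (g a) b = ψ a (t b)) (a : Re U) (b : Re V) :
    reForm φ (re g a) b = reForm ψ a (re t b) := by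
  change φ.baseChange ℝ (g.baseChange ℝ a) b = ψ.baseChange ℝ a (t.baseChange ℝ b)
  induction a using TensorProduct.induction_on with
  | zero => simp
  | add x y hx hy => simp only [map_add, LinearMap.add_apply, hx, hy]
  | tmul r x =>
    induction b using TensorProduct.induction_on with
    | zero => simp
    | add x y hx hy => simp only [map_add, hx, hy]
    | tmul s y => simp [LinearMap.BilinForm.baseChange_tmul, h]

lemma cx_comp (g : V →ₗ[ℚ] W) (f : U →ₗ[ℚ] V) (x : Cx U) : cx (g ∘ₗ f) x = cx g (cx f x) := by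
  change (g ∘ₗ f).baseChange ℂ x = g.baseChange ℂ (f.baseChange ℂ x)
  rw [LinearMap.baseChange_comp]
  rfl

lemma cx_zero (x : Cx U) : cx (0 : U →ₗ[ℚ] V) x = 0 := by
  change (0 : U →ₗ[ℚ] V).baseChange ℂ x = 0
  rw [LinearMap.baseChange_zero]
  rfl

lemma cx_id (x : Cx U) : cx (LinearMap.id : U →ₗ[ℚ] U) x = x := by
  change (LinearMap.id : U →ₗ[ℚ] U).baseChange ℂ x = x
  rw [LinearMap.baseChange_id]
  rfl

lemma cx_add (f g : U →ₗ[ℚ] V) (x : Cx U) : cx (f + g) x = cx f x + cx g x := by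
  change (f + g).baseChange ℂ x = f.baseChange ℂ x + g.baseChange ℂ x
  rw [LinearMap.baseChange_add]
  rfl

lemma cx_smul (r : ℚ) (f : U →ₗ[ℚ] V) (x : Cx U) : cx (r • f) x = r • cx f x := by
  change (r • f).baseChange ℂ x = r • f.baseChange ℂ x
  rw [LinearMap.baseChange_smul]
  rfl

end functor

section adjoint

variable {M N : HS} {P : Polarization M} {Q : Polarization N} {g : M.H →ₗ[ℚ] N.H}
  {t : N.H →ₗ[ℚ] M.H}

lemma inj_gt (h : IsAdjoint P Q g t) {b : N.H} (hb : g (t b) = 0) : t b = 0 := by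
  by_contra hne
  have h1 : oneR _ (t b) ≠ 0 := fun h0 => hne (real_zero h0)
  have h2 := P.pos _ h1
  have e2 : P.W (oneR _ (t b)) = re t (Q.W (oneR _ b)) := by
    rw [← re_oneR]
    exact (h.commt _).symm
  rw [e2, ← adj_real h.adj, re_oneR, hb, oneR_zero, map_zero, LinearMap.zero_apply] at h2
  exact lt_irrefl _ h2

lemma inj_tg (h : IsAdjoint P Q g t) {a : M.H} (ha : t (g a) = 0) : g a = 0 := by
  by_contra hne
  have h1 : oneR _ (g a) ≠ 0 := fun h0 => hne (real_zero h0)
  have h2 := Q.pos _ h1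
  have e2 : re t (Q.W (oneR _ (g a))) = 0 := by
    rw [h.commt, re_oneR, ha, oneR_zero, map_zero]
  have e3 : reForm Q.ψ (oneR _ (g a)) (Q.W (oneR _ (g a))) =
      reForm P.ψ (oneR _ a) (re t (Q.W (oneR _ (g a)))) := by
    rw [← adj_real h.adj, re_oneR]
  rw [e3, e2, map_zero] at h2
  exact lt_irrefl _ h2

lemma inj_range (h : IsAdjoint P Q g t) {a : M.H} (ha : g (t (g a)) = 0) : g a = 0 :=
  inj_tg h (inj_gt h ha)

end adjoint

variable {D A B : Cyc}

lemma jac_mk {M N : HS} (f : Mor M N) (x : Cx M.H) : f.jac (jmk M x) = jmk N (cx f.f x) := rfl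

lemma HasClass.add {z z' : A.C} {y y' : Jac A.M} (h : HasClass A z y) (h' : HasClass A z' y') :
    HasClass A (z + z') (y + y') := by
  obtain ⟨h1, rfl⟩ := h
  obtain ⟨h2, rfl⟩ := h'
  exact ⟨by rw [map_add, h1, h2, add_zero], map_add A.Φ ⟨z, h1⟩ ⟨z', h2⟩⟩

lemma HasClass.smul {z : A.C} {y : Jac A.M} (r : ℚ) (h : HasClass A z y) :
    HasClass A (r • z) (r • y) := by
  obtain ⟨h1, rfl⟩ := h
  exact ⟨by rw [map_smul, h1, smul_zero], map_smul A.Φ r ⟨z, h1⟩⟩

lemma HasClass.sub {z z' : A.C} {y y' : Jac A.M} (h : HasClass A z y) (h' : HasClass A z' y') :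
    HasClass A (z - z') (y - y') := by
  obtain ⟨h1, rfl⟩ := h
  obtain ⟨h2, rfl⟩ := h'
  exact ⟨by rw [map_sub, h1, h2, sub_zero], map_sub A.Φ ⟨z, h1⟩ ⟨z', h2⟩⟩

lemma HasClass.unique {z : A.C} {y y' : Jac A.M} (h : HasClass A z y) (h' : HasClass A z y') :
    y = y' := by
  obtain ⟨h1, rfl⟩ := h
  obtain ⟨h2, rfl⟩ := h'
  rfl

lemma mem_kernel {z : A.C} : z ∈ A.kernel ↔ HasClass A z 0 := by
  constructor
  · rintro ⟨⟨z, hz⟩, h, rfl⟩
    exact ⟨hz, h⟩
  · rintro ⟨h, h0⟩
    exact ⟨⟨z, h⟩, h0, rfl⟩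

/-- Polynomials in a correspondence. -/
lemma poly_aj (c : A.C →ₗ[ℚ] A.C) (m : A.M.H →ₗ[ℚ] A.M.H)
    (haj : ∀ z x, HasClass A z (jmk A.M x) → HasClass A (c z) (jmk A.M (cx m x))) (q : ℚ[X]) :
    ∀ z x, HasClass A z (jmk A.M x) → HasClass A (aeval c q z) (jmk A.M (cx (aeval m q) x)) := by
  have hpow : ∀ k : ℕ, ∀ z x, HasClass A z (jmk A.M x) →
      HasClass A ((c ^ k) z) (jmk A.M (cx (m ^ k) x)) := by
    intro k
    induction k with
    | zero =>
      intro z x hx
      have e : cx (m ^ 0) x = x := cx_id x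
      rw [e]
      exact hx
    | succ k ih =>
      intro z x hx
      have h1 := haj _ _ (ih z x hx)
      have e : cx (m ^ (k + 1)) x = cx m (cx (m ^ k) x) := by
        rw [← cx_comp, pow_succ']
        rfl
      rw [e, pow_succ', Module.End.mul_apply]
      exact h1
  induction q using Polynomial.induction_on' with
  | add p q hp hq =>
    intro z x hx
    have h1 := (hp z x hx).add (hq z x hx)
    rw [map_add, map_add, LinearMap.add_apply, cx_add, map_add]
    exact h1
  | monomial k r =>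
    intro z x hx
    have h1 := (hpow k z x hx).smul r
    have e1 : aeval c (monomial k r) z = r • (c ^ k) z := by
      rw [aeval_monomial, Module.algebraMap_end_eq_smul_id, smul_mul_assoc]
      rfl
    have e2 : aeval m (monomial k r) = r • m ^ k := by
      rw [aeval_monomial, Module.algebraMap_end_eq_smul_id, smul_mul_assoc]
      rfl
    rw [e1, e2, cx_smul, map_smul]
    exact h1

/-- Every element of the group of extensions is represented. -/
lemma exists_rep (M : HS) (y : Jac M) : ∃ x, y = jmk M x := by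
  obtain ⟨x, rfl⟩ := Submodule.Quotient.mk_surjective _ y
  exact ⟨x, rfl⟩

/-- **The kernels of the Abel-Jacobi maps of an open variety and of a compactification.** -/
theorem kernel_eq {i : CMor D A} {j : CMor A B} (hloc : IsLocalization i j)
    {r : Residue D B} (hex : IsExact j.m.f r.b.f) (hb : r.IsBoundary i j) (hR : r.LiftsHodge i)
    (hHC : HodgeConj D) (hL : LiftsHodge i.n) (hadj : HasAlgebraicAdjoint i) :
    B.kernel = A.kernel.map j.c := by
  obtain ⟨t, P, Q, had⟩ := hadj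
  apply le_antisymm
  · -- an element of the kernel on `V`
    intro ξ hξ
    obtain ⟨hξ0, hΦ0⟩ := mem_kernel.1 hξ
    obtain ⟨ζ, rfl⟩ := hloc.surj ξ
    -- step 1: a homologically trivial lift
    have h1 : A.cl ζ ∈ LinearMap.range i.n.f := by
      have : LinearMap.ker j.n.f = LinearMap.range i.n.f := hloc.exactN
      rw [← this, LinearMap.mem_ker, ← j.cl]
      exact hξ0
    obtain ⟨a, ha⟩ := h1
    obtain ⟨d, hd, hda⟩ := hL a (by rw [ha]; exact A.hodge ζ)
    obtain ⟨z, hz⟩ := hHC d hd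
    have hji : ∀ w, j.c (i.c w) = 0 := by
      intro w
      have h0 : LinearMap.ker j.c = LinearMap.range i.c := hloc.exact
      have : i.c w ∈ LinearMap.ker j.c := by rw [h0]; exact ⟨w, rfl⟩
      exact this
    set ζ₁ := ζ - i.c z with hζ₁
    have hcl1 : A.cl ζ₁ = 0 := by
      rw [hζ₁, map_sub, i.cl, hz, hda, ha, sub_self]
    have hj1 : j.c ζ₁ = j.c ζ := by rw [hζ₁, map_sub, hji, sub_zero]
    obtain ⟨x, hx⟩ := exists_rep _ (A.Φ ⟨ζ₁, hcl1⟩)
    have hx1 : HasClass A ζ₁ (jmk A.M x) := ⟨hcl1, hx⟩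
    -- step 2: the image in the extension group of `V` vanishes
    have h2 : jmk B.M (cx j.m.f x) = 0 := by
      have h3 := j.aj ζ₁ _ hx1
      rw [jac_mk, hj1] at h3
      exact h3.unique ⟨hξ0, hΦ0⟩
    have h2' : cx j.m.f x ∈ sub B.M := (Submodule.Quotient.mk_eq_zero _).1 h2
    rw [sub, Submodule.mem_sup] at h2'
    obtain ⟨f₀, hf₀, _, ⟨e, rfl⟩, hfe⟩ := h2'
    have hf₀' : f₀ ∈ B.M.F := hf₀
    -- step 3: residues
    have hbj : ∀ w, r.b.f (j.m.f w) = 0 := by
      intro w
      have h0 : LinearMap.ker r.b.f = LinearMap.range j.m.f := hex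
      have : j.m.f w ∈ LinearMap.ker r.b.f := by rw [h0]; exact ⟨w, rfl⟩
      exact this
    have hbjC : ∀ w, cx r.b.f (cx j.m.f w) = 0 := by
      intro w
      have h3 : r.b.f ∘ₗ j.m.f = 0 := LinearMap.ext hbj
      rw [← cx_comp, h3, cx_zero]
    have hres : cx r.b.f f₀ + one r.R.H (r.b.f e) = 0 := by
      have h3 := hbjC x
      rw [← hfe, map_add, cx_one] at h3
      exact h3
    set f := -f₀ with hf
    have hfF : f ∈ B.M.F := B.M.F.neg_mem hf₀'
    have hfres : cx r.b.f f = one r.R.H (r.b.f e) := by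
      rw [hf, map_neg]
      exact neg_eq_of_add_eq_zero_right hres
    have hHod : IsHodge r.R (r.b.f e) := by
      rw [IsHodge, ← hfres]
      exact r.b.resp f hfF
    obtain ⟨d', hd', hde, hd0⟩ := hR e hHod
    obtain ⟨z', hz'⟩ := hHC d' hd'
    have hcl2 : A.cl (i.c z') = 0 := by rw [i.cl, hz', hd0]
    obtain ⟨y, hy⟩ := hb z' e f x hcl2 (by rw [hz', hde]) ⟨hfF, hfres,
      by rw [hf, sub_neg_eq_add, add_comm]; exact hfe.symm⟩
    set ζ₂ := ζ₁ - i.c z' with hζ₂
    have hj2 : j.c ζ₂ = j.c ζ := by rw [hζ₂, map_sub, hji, sub_zero, hj1]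
    obtain ⟨u, hu⟩ := exists_rep _ y
    have hΦ2 : HasClass A ζ₂ (jmk A.M (cx i.m.f (-u))) := by
      have h3 := hx1.sub hy
      rw [hu, jac_mk, sub_add_cancel_left, ← map_neg, ← map_neg] at h3
      exact h3
    -- step 4: the projector
    obtain ⟨q, hq⟩ := exists_poly (i.m.f ∘ₗ t.m.f) (U := LinearMap.range i.m.f)
      (fun u _ => ⟨t.m.f u, rfl⟩) (by
        rintro _ ⟨a, rfl⟩ h0
        exact inj_range had h0)
    have h6 := poly_aj (A := A) (i.c ∘ₗ t.c) (i.m.f ∘ₗ t.m.f)
      (fun w x' hx' => by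
        have h8 := i.aj _ _ (t.aj _ _ hx')
        rw [jac_mk, jac_mk, ← cx_comp] at h8
        exact h8) q ζ₂ _ hΦ2
    set ω := aeval (i.c ∘ₗ t.c) q ζ₂ with hω
    have h9 : HasClass A (i.c (t.c ω)) (jmk A.M (cx i.m.f (-u))) := by
      have h8 := i.aj _ _ (t.aj _ _ h6)
      rw [jac_mk, jac_mk, ← cx_comp, ← cx_comp, ← cx_comp] at h8
      have e1 : (i.m.f ∘ₗ t.m.f) ∘ₗ (aeval (i.m.f ∘ₗ t.m.f) q) ∘ₗ i.m.f = i.m.f := by
        apply LinearMap.ext
        intro a
        exact hq _ ⟨a, rfl⟩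
      rw [LinearMap.comp_assoc, e1] at h8
      exact h8
    refine ⟨ζ₂ - i.c (t.c ω), mem_kernel.2 ?_, ?_⟩
    · have h10 := hΦ2.sub h9
      rw [sub_self] at h10
      exact h10
    · rw [map_sub, hji, sub_zero, hj2]
  · rintro _ ⟨ζ, hζ, rfl⟩
    have h1 := j.aj ζ 0 (mem_kernel.1 hζ)
    rw [map_zero] at h1
    exact mem_kernel.2 h1

lemma injective_iff (A : Cyc) : A.Injective ↔ A.kernel = ⊥ := by
  rw [Cyc.Injective, ← LinearMap.ker_eq_bot, Cyc.kernel]
  constructor
  · intro h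
    rw [h, Submodule.map_bot]
  · intro h
    refine Submodule.map_injective_of_injective (Submodule.injective_subtype _) ?_
    rw [h, Submodule.map_bot]

end Pool.Agent.T9h39.AJ
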