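import Pool.Agent.T9h39.CtMain

/-!
# Families whose Tate classes of codimension two are products of pairings: stable Lie algebras
-/

set_option linter.unusedSectionVars false

namespace Pool.Agent.T9h39.Ct

open Module Finset Function Pool.Agent.T9h39.Rel Pool.Agent.V11219
open Pool.Agent.H204R3.SP (SS SS_apply SS_comm)

variable {K Γ : Type} [Field K] [CharZero K] [IsAlgClosed K] [Group Γ]
  {ι : Type} {V : ι → Type} [∀ i, AddCommGroup (V i)] [∀ i, Module K (V i)]
  {χ : Γ →* Kˣ} {wt : ι → ℕ} {ρ : ∀ i, Representation K Γ (V i)}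
  {B : ∀ i, V i →ₗ[K] V i →ₗ[K] K}

/-- Conjugation. -/
noncomputable def cj (ρ : ∀ i, Representation K Γ (V i)) (g : Γ) :
    (∀ i, Module.End K (V i)) →ₗ[K] (∀ i, Module.End K (V i)) where
  toFun X := fun i => ρ i g * X i * ρ i g⁻¹
  map_add' X Y := by
    funext i
    change ρ i g * (X i + Y i) * ρ i g⁻¹ = ρ i g * X i * ρ i g⁻¹ + ρ i g * Y i * ρ i g⁻¹
    rw [mul_add, add_mul]
  map_smul' c X := by
    funext i
    change ρ i g * (c • X i) * ρ i g⁻¹ = c • (ρ i g * X i * ρ i g⁻¹)
    rw [mul_smul_comm, smul_mul_assoc]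

theorem cj_apply (g : Γ) (X : ∀ i, Module.End K (V i)) (i : ι) :
    cj ρ g X i = ρ i g * X i * ρ i g⁻¹ := rfl

theorem rho_inv_mul (i : ι) (g : Γ) : ρ i g⁻¹ * ρ i g = 1 := by
  rw [← map_mul, inv_mul_cancel, map_one]

theorem rho_mul_inv (i : ι) (g : Γ) : ρ i g * ρ i g⁻¹ = 1 := by
  rw [← map_mul, mul_inv_cancel, map_one]

theorem rho_inv_apply (i : ι) (g : Γ) (x : V i) : ρ i g⁻¹ (ρ i g x) = x :=
  congrArg (fun f : Module.End K (V i) => f x) (rho_inv_mul i g)

theorem rho_apply_inv (i : ι) (g : Γ) (x : V i) : ρ i g (ρ i g⁻¹ x) = x :=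
  congrArg (fun f : Module.End K (V i) => f x) (rho_mul_inv i g)

theorem cj_cj_inv (g : Γ) (X : ∀ i, Module.End K (V i)) : cj ρ g (cj ρ g⁻¹ X) = X := by
  funext i
  ext x
  rw [cj_apply, cj_apply, inv_inv]
  simp only [Module.End.mul_apply, rho_apply_inv]

theorem cj_inv_cj (g : Γ) (X : ∀ i, Module.End K (V i)) : cj ρ g⁻¹ (cj ρ g X) = X := by
  have h := cj_cj_inv (ρ := ρ) g⁻¹ X
  rwa [inv_inv] at h

theorem cj_mul (g : Γ) (X Y : ∀ i, Module.End K (V i)) :
    cj ρ g (X * Y) = cj ρ g X * cj ρ g Y := by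
  funext i
  ext x
  rw [Pi.mul_apply, cj_apply, cj_apply, cj_apply, Pi.mul_apply]
  simp only [Module.End.mul_apply, rho_inv_apply]

/-- The hypotheses used in this file. -/
structure Base (χ : Γ →* Kˣ) (w : ι → ℕ) (ρ : ∀ i, Representation K Γ (V i))
    (B : ∀ i, V i →ₗ[K] V i →ₗ[K] K) : Prop where
  alt : ∀ i v, B i v v = 0
  nondeg : ∀ i v, (∀ u, B i v u = 0) → v = 0
  act : ∀ i g v u, B i (ρ i g v) (ρ i g u) = (χ g : K) ^ w i * B i v u
  irreducible : ∀ i, Irred (ρ i)
  quartic : QuarticTate χ w ρ B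

section T

variable [DecidableEq ι]

/-- Rank one operators. -/
noncomputable def ro (B : ∀ i, V i →ₗ[K] V i →ₗ[K] K) (k : ι) :
    (∀ i, V i) →ₗ[K] (∀ i, V i) →ₗ[K] (∀ i, Module.End K (V i)) :=
  LinearMap.mk₂ K (fun x y => Pi.single k ((B k (y k)).smulRight (x k)))
    (fun x x' y => by
      rw [← Pi.single_add]
      congr 1
      ext z
      simp)
    (fun c x y => by
      rw [← Pi.single_smul]
      congr 1
      ext z
      simp only [Pi.smul_apply, LinearMap.smulRight_apply, LinearMap.smul_apply]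
      rw [smul_comm])
    (fun x y y' => by
      rw [← Pi.single_add]
      congr 1
      ext z
      simp [add_smul])
    (fun c x y => by
      rw [← Pi.single_smul]
      congr 1
      ext z
      simp [mul_smul])

theorem ro_apply (k : ι) (x y : ∀ i, V i) :
    ro B k x y = Pi.single k ((B k (y k)).smulRight (x k)) := rfl

theorem ro_symm (k : ι) (a b : V k) :
    ro B k (Pi.single k a) (Pi.single k b) + ro B k (Pi.single k b) (Pi.single k a) =
      Pi.single k (SS (B k) a b) := by
  rw [ro_apply, ro_apply, ← Pi.single_add, Pi.single_eq_same, Pi.single_eq_same]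
  congr 1
  rw [SS, add_comm]

theorem ro_cj (hact : ∀ i g v u, B i (ρ i g v) (ρ i g u) = (χ g : K) ^ wt i * B i v u) (k : ι)
    (g : Γ) (x y : ∀ i, V i) :
    ro B k (fun i => ρ i g (x i)) (fun i => ρ i g (y i)) =
      (χ g : K) ^ wt k • cj ρ g (ro B k x y) := by
  rw [ro_apply, ro_apply]
  funext i
  rw [Pi.smul_apply, cj_apply]
  by_cases hi : i = k
  · subst hi
    rw [Pi.single_eq_same, Pi.single_eq_same]
    ext z
    simp only [LinearMap.smulRight_apply, LinearMap.smul_apply, Module.End.mul_apply, map_smul]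
    rw [smul_smul, ← hact i g (y i) (ρ i g⁻¹ z), rho_apply_inv]
  · rw [Pi.single_eq_of_ne hi, Pi.single_eq_of_ne hi, mul_zero, zero_mul, smul_zero]

/-- The four-linear map of an operator. -/
noncomputable def fT (B : ∀ i, V i →ₗ[K] V i →ₗ[K] K)
    (T : (∀ i, Module.End K (V i)) →ₗ[K] (∀ i, Module.End K (V i))) (i k : ι) :
    (∀ i, V i) →ₗ[K] (∀ i, V i) →ₗ[K] (∀ i, V i) →ₗ[K] (∀ i, V i) →ₗ[K] K :=
  LinearMap.compr₂ (LinearMap.compr₂ (ro B k) T)
    { toFun := fun X => (B i).compl₁₂ (X i ∘ₗ LinearMap.proj i) (LinearMap.proj i)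
      map_add' := fun X Y => by
        ext x y
        simp
      map_smul' := fun c X => by
        ext x y
        simp }

theorem fT_apply (T : (∀ i, Module.End K (V i)) →ₗ[K] (∀ i, Module.End K (V i))) (i k : ι)
    (x y z t : ∀ i, V i) : fT B T i k x y z t = B i (T (ro B k x y) i (z i)) (t i) := rfl

theorem fT_tate (hact : ∀ i g v u, B i (ρ i g v) (ρ i g u) = (χ g : K) ^ wt i * B i v u)
    {T : (∀ i, Module.End K (V i)) →ₗ[K] (∀ i, Module.End K (V i))}
    (hT : ∀ g X, T (cj ρ g X) = cj ρ g (T X)) (i k : ι) :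
    IsTateMap χ ρ (Representation.trivial K Γ K) ⊤ (wt k + wt i) (qm (fT B T i k)) := by
  intro g _ x
  rw [qm_apply, qm_apply, fT_apply, fT_apply, ro_cj hact, map_smul, hT, Pi.smul_apply, cj_apply,
    LinearMap.smul_apply, map_smul, LinearMap.smul_apply]
  simp only [Module.End.mul_apply, rho_inv_apply]
  rw [hact, pow_add, smul_eq_mul, smul_eq_mul, mul_assoc]
  rfl

variable (hb : Base χ wt ρ B) {T : (∀ i, Module.End K (V i)) →ₗ[K] (∀ i, Module.End K (V i))}
  (hT : ∀ g X, T (cj ρ g X) = cj ρ g (T X))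

include hb hT

/-- **Equivariant maps act through scalars on skew operators.** -/
theorem T_ne {i k : ι} (hik : i ≠ k) (a b : V k) : T (Pi.single k (SS (B k) a b)) i = 0 := by
  ext u
  refine hb.nondeg i _ fun v => ?_
  have h1 := symm_ne hb.alt (hb.quartic _ _ _ (fT_tate hb.act hT i k)) hik a b u v
  rw [qm_apply, qm_apply] at h1
  simp only [Matrix.cons_val, fT_apply, Pi.single_eq_same] at h1
  rw [← ro_symm, map_add, Pi.add_apply, LinearMap.add_apply, map_add, LinearMap.add_apply]
  exact h1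

theorem T_eq (i : ι) : ∃ l : K, ∀ a b : V i,
    T (Pi.single i (SS (B i) a b)) i = l • SS (B i) a b := by
  obtain ⟨l, hl⟩ := symm_eq hb.alt (hb.quartic _ _ _ (fT_tate hb.act hT i i)) i
  refine ⟨l, fun a b => ?_⟩
  ext u
  refine sub_eq_zero.1 (hb.nondeg i _ fun v => ?_)
  have h1 := hl a b u v
  rw [qm_apply, qm_apply] at h1
  simp only [Matrix.cons_val, fT_apply, Pi.single_eq_same] at h1
  rw [← ro_symm, map_add, Pi.add_apply, LinearMap.add_apply, map_sub, LinearMap.sub_apply,
    map_add, LinearMap.add_apply, h1, LinearMap.smul_apply, SS_apply, map_smul, map_add, map_smul,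
    map_smul, LinearMap.smul_apply, LinearMap.add_apply, LinearMap.smul_apply,
    LinearMap.smul_apply, smul_eq_mul, smul_eq_mul, smul_eq_mul]
  ring

variable [Fintype ι] [∀ i, FiniteDimensional K (V i)]

theorem scal : ∃ l : ι → K, ∀ X : ∀ i, Module.End K (V i), (∀ i, Gk.Sk (B i) (X i)) →
    ∀ i, T X i = l i • X i := by
  choose l hl using T_eq hb hT
  refine ⟨l, fun X hX i => ?_⟩
  have h1 : ∀ k, T (Pi.single k (X k)) i = if k = i then l i • X i else 0 := by
    intro k
    by_cases hk : k = i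
    · subst hk
      rw [if_pos rfl]
      let L : Submodule K (Module.End K (V k)) :=
        { carrier := {Y | T (Pi.single k Y) k = l k • Y}
          zero_mem' := by
            rw [Set.mem_ofPred_eq, Pi.single_zero, map_zero, smul_zero]
            rfl
          add_mem' := by
            intro Y Z hY hZ
            rw [Set.mem_ofPred_eq] at *
            rw [Pi.single_add, map_add, Pi.add_apply, hY, hZ, smul_add]
          smul_mem' := by
            intro c Y hY
            rw [Set.mem_ofPred_eq] at *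
            rw [Pi.single_smul, map_smul, Pi.smul_apply, hY, smul_comm] }
      exact Gk.sk_mem (hb.alt k) (hb.nondeg k) (L := L) (fun a b => hl k a b) (hX k)
    · rw [if_neg hk]
      let L : Submodule K (Module.End K (V k)) :=
        { carrier := {Y | T (Pi.single k Y) i = 0}
          zero_mem' := by
            rw [Set.mem_ofPred_eq, Pi.single_zero, map_zero]
            rfl
          add_mem' := by
            intro Y Z hY hZ
            rw [Set.mem_ofPred_eq] at *
            rw [Pi.single_add, map_add, Pi.add_apply, hY, hZ, add_zero]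
          smul_mem' := by
            intro c Y hY
            rw [Set.mem_ofPred_eq] at *
            rw [Pi.single_smul, map_smul, Pi.smul_apply, hY, smul_zero] }
      exact Gk.sk_mem (hb.alt k) (hb.nondeg k) (L := L)
        (fun a b => T_ne hb hT (Ne.symm hk) a b) (hX k)
  have h2 : X = ∑ k, Pi.single k (X k) := (Finset.univ_sum_single X).symm
  rw [h2, map_sum, Finset.sum_apply, Finset.sum_congr rfl fun k _ => h1 k,
    Finset.sum_ite_eq' Finset.univ i, if_pos (Finset.mem_univ _), ← h2]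

end T

section tau

variable [Fintype ι] [∀ i, FiniteDimensional K (V i)]

/-- The trace form. -/
noncomputable def tau : (∀ i, Module.End K (V i)) →ₗ[K] (∀ i, Module.End K (V i)) →ₗ[K] K :=
  LinearMap.mk₂ K (fun X Y => LinearMap.trace K (∀ i, V i) (dgl X * dgl Y))
    (fun X X' Y => by rw [map_add, add_mul, map_add])
    (fun c X Y => by rw [map_smul, smul_mul_assoc, map_smul])
    (fun X Y Y' => by rw [map_add, mul_add, map_add])
    (fun c X Y => by rw [map_smul, mul_smul_comm, map_smul])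

theorem tau_apply (X Y : ∀ i, Module.End K (V i)) :
    tau X Y = LinearMap.trace K (∀ i, V i) (dgl X * dgl Y) := rfl

theorem tau_symm (X Y : ∀ i, Module.End K (V i)) : tau X Y = tau Y X := by
  rw [tau_apply, tau_apply, LinearMap.trace_mul_comm]

theorem tau_mul (X Y Z : ∀ i, Module.End K (V i)) : tau (X * Y) Z = tau X (Y * Z) := by
  rw [tau_apply, tau_apply, dgl_mul, dgl_mul, mul_assoc]

theorem dgl_cj (g : Γ) (X : ∀ i, Module.End K (V i)) :
    dgl (cj ρ g X) = piRep ρ g * dgl X * piRep ρ g⁻¹ := rfl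

theorem tau_cj (g : Γ) (X Y : ∀ i, Module.End K (V i)) :
    tau (cj ρ g X) Y = tau X (cj ρ g⁻¹ Y) := by
  rw [tau_apply, tau_apply, dgl_cj, dgl_cj, inv_inv, mul_assoc, mul_assoc,
    LinearMap.trace_mul_comm, ← mul_assoc]
  simp only [mul_assoc]

end tau

section J

variable [Fintype ι] [∀ i, FiniteDimensional K (V i)] (hb : Base χ wt ρ B)

include hb

/-- **Stable subspaces on which the trace form is nondegenerate.** -/
theorem exists_J {N : Submodule K (∀ i, Module.End K (V i))}
    (hst : ∀ g, ∀ X ∈ N, cj ρ g X ∈ N) (hN : ∀ X ∈ N, (∀ Y ∈ N, tau X Y = 0) → X = 0) :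
    ∃ J : Set ι, (∀ X ∈ N, (∀ i, Gk.Sk (B i) (X i)) → ∀ i, i ∉ J → X i = 0) ∧
      ∀ X : ∀ i, Module.End K (V i), (∀ i, Gk.Sk (B i) (X i)) → (∀ i, i ∉ J → X i = 0) →
        X ∈ N := by
  classical
  obtain ⟨P, hP1, hP2⟩ := exists_proj tau N hN
  have heq : ∀ g X, P (cj ρ g X) = cj ρ g (P X) := by
    intro g X
    refine proj_unique hN (hP1 _) (hst g _ (hP1 X)) fun Z hZ => ?_
    rw [hP2 _ _ hZ, tau_cj, tau_cj, hP2 _ _ (hst _ _ hZ)]
  obtain ⟨l, hl⟩ := scal hb heq
  refine ⟨{i | l i = 1}, fun X hX hs i hi => ?_, fun X hs hX => ?_⟩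
  · have h1 : P X = X := proj_unique hN (hP1 X) hX fun Z hZ => hP2 _ _ hZ
    have h2 := hl X hs i
    rw [h1] at h2
    have h3 : (1 - l i) • X i = 0 := by rw [sub_smul, one_smul, ← h2, sub_self]
    exact (smul_eq_zero.1 h3).resolve_left fun h4 => hi (sub_eq_zero.1 h4).symm
  · have h1 : P X = X := by
      funext i
      rw [hl X hs i]
      by_cases hi : l i = 1
      · rw [hi, one_smul]
      · rw [hX i hi, smul_zero]
    rw [← h1]
    exact hP1 X

end J

end Pool.Agent.T9h39.Ct
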