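import Pool.Agent.T9h39.RelDefs

/-!
# Families whose Tate classes of codimension two are products of pairings
-/

namespace Pool.Agent.T9h39.Ct

open Module Pool.Agent.T9h39.Rel

/-- Every stable subspace is `0` or `V`. -/
def Irred {K V Γ : Type} [Field K] [AddCommGroup V] [Module K V] [Group Γ]
    (ρ : Representation K Γ V) : Prop :=
  ∀ U : Submodule K V, (∀ g, ∀ x ∈ U, ρ g x ∈ U) → U = ⊥ ∨ U = ⊤

variable {K Γ : Type} [Field K] [Group Γ] {ι : Type} {V : ι → Type} [∀ i, AddCommGroup (V i)]
  [∀ i, Module K (V i)] {H : Type} [AddCommGroup H] [Module K H]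

/-- All the four-linear Tate classes of the codimensions `w i + w k` (of codimension two, if all the
`w i` are equal to one) on the sum of the `V i`, for the whole group `Γ` and with values in the trivial
representation, are linear combinations of products of two pairings. -/
def QuarticTate (χ : Γ →* Kˣ) (w : ι → ℕ) (ρ : ∀ i, Representation K Γ (V i))
    (B : ∀ i, V i →ₗ[K] V i →ₗ[K] K) : Prop :=
  ∀ (i k : ι) (f : MultilinearMap K (fun _ : Fin 4 => ∀ i, V i) K),
    IsTateMap χ ρ (Representation.trivial K Γ K) ⊤ (w i + w k) f →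
      IsProductOfPairings χ w B (Representation.trivial K Γ K) ⊤ (w i + w k) f

/-- The `V i` are irreducible representations with nondegenerate alternating forms `B i` with values
in the twist by `χ ^ (w i)`, and for every `i` there is a local operator, relative to `H`, which is
not zero on `V i`. -/
structure PolarizedFamily (χ : Γ →* Kˣ) (w : ι → ℕ) (ρ : ∀ i, Representation K Γ (V i))
    (B : ∀ i, V i →ₗ[K] V i →ₗ[K] K) (σ : Representation K Γ H) : Prop where
  alt : ∀ i v, B i v v = 0
  nondeg : ∀ i v, (∀ u, B i v u = 0) → v = 0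
  act : ∀ i g v u, B i (ρ i g v) (ρ i g u) = (χ g : K) ^ w i * B i v u
  irreducible : ∀ i, Irred (ρ i)
  moves : ∀ i, ∃ X, IsLocal χ ρ σ X ∧ X i ≠ 0

end Pool.Agent.T9h39.Ct
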