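import Pool.Agent.T9h39.CtAlg

/-!
# Families whose Tate classes of codimension two are products of pairings: Larsen's alternative
-/

set_option linter.unusedSectionVars false

namespace Pool.Agent.T9h39.Ct

open Module Finset Function Pool.Agent.T9h39.Rel Pool.Agent.V11219
open Pool.Agent.H204R3.SP (SS SS_apply SS_comm)

variable {K Γ : Type} [Field K] [CharZero K] [IsAlgClosed K] [Group Γ]
  {ι : Type} {V : ι → Type} [∀ i, AddCommGroup (V i)] [∀ i, Module K (V i)]
  {χ : Γ →* Kˣ} {wt : ι → ℕ} {ρ : ∀ i, Representation K Γ (V i)}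
  {B : ∀ i, V i →ₗ[K] V i →ₗ[K] K} [Fintype ι] [∀ i, FiniteDimensional K (V i)]

theorem dgl_pow (X : ∀ i, Module.End K (V i)) (n : ℕ) (hn : n ≠ 0) : dgl (X ^ n) = dgl X ^ n := by
  obtain ⟨m, rfl⟩ := Nat.exists_eq_succ_of_ne_zero hn
  induction m with
  | zero => rw [pow_one, pow_one]
  | succ m ih => rw [pow_succ, dgl_mul, ih (Nat.succ_ne_zero m), ← pow_succ]

/-- The components of a nilpotent operator are nilpotent. -/
theorem nilp_comp {X : ∀ i, Module.End K (V i)} (h : IsNilpotent (dgl X)) (i : ι) :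
    IsNilpotent (X i) := by
  classical
  obtain ⟨n, hn⟩ := h
  refine ⟨n, ?_⟩
  have h1 : ∀ n : ℕ, ∀ x : V i, (dgl X ^ n) (Pi.single i x) i = (X i ^ n) x := by
    intro n
    induction n with
    | zero => intro x; rw [pow_zero, pow_zero, Module.End.one_apply, Pi.single_eq_same]; rfl
    | succ n ih =>
      intro x
      have h2 : dgl X (Pi.single i x) = Pi.single i (X i x) := by
        funext k
        rw [dgl_apply]
        by_cases hk : k = i
        · subst hk
          rw [Pi.single_eq_same, Pi.single_eq_same]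
        · rw [Pi.single_eq_of_ne hk, Pi.single_eq_of_ne hk, map_zero]
      rw [pow_succ, Module.End.mul_apply, pow_succ, Module.End.mul_apply, h2, ih]
  ext x
  rw [← h1, hn]
  rfl

/-- A stable space of operators which kill a nonzero vector. -/
theorem zero_of_kernel {i : ι} (hirr : Irred (ρ i)) (L : Set (Module.End K (V i)))
    (hst : ∀ g, ∀ x ∈ L, ρ i g * x * ρ i g⁻¹ ∈ L)
    (hk : Nontrivial (V i) → ∃ v : V i, v ≠ 0 ∧ ∀ x ∈ L, x v = 0) : ∀ x ∈ L, x = 0 := by
  rcases subsingleton_or_nontrivial (V i) with hV | hV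
  · intro x _
    ext v
    exact Subsingleton.elim _ _
  · obtain ⟨v, hv0, hv⟩ := hk hV
    let W : Submodule K (V i) :=
      { carrier := {v | ∀ x ∈ L, x v = 0}
        zero_mem' := fun x _ => map_zero x
        add_mem' := by
          intro a b ha hb x hx
          rw [map_add, ha x hx, hb x hx, add_zero]
        smul_mem' := by
          intro c a ha x hx
          rw [map_smul, ha x hx, smul_zero] }
    have hW : W = ⊤ := by
      refine (hirr W fun g u hu x hx => ?_).resolve_left ?_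
      · have h1 := hu _ (hst g⁻¹ x hx)
        rw [inv_inv, Module.End.mul_apply, Module.End.mul_apply] at h1
        have h2 := congrArg (ρ i g) h1
        rwa [rho_apply_inv, map_zero] at h2
      · intro hbot
        have h1 : v ∈ W := hv
        rw [hbot, Submodule.mem_bot] at h1
        exact hv0 h1
    intro x hx
    ext v
    have h1 : v ∈ W := hW ▸ Submodule.mem_top
    exact h1 x hx

section comm

variable (hb : Base χ wt ρ B)

include hb

/-- The symplectic Lie algebra is not commutative. -/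
theorem not_comm {i : ι} {X : Module.End K (V i)} (hX : X ≠ 0) :
    ∃ a b : V i, SS (B i) a a * SS (B i) b b ≠ SS (B i) b b * SS (B i) a a := by
  have h1 : ∃ u : V i, u ≠ 0 := by
    by_contra hcon
    push Not at hcon
    apply hX
    ext v
    rw [hcon v, map_zero, map_zero]
  obtain ⟨u, hu⟩ := h1
  obtain ⟨a, ha⟩ := Gk.exists_one (hb.alt i) (hb.nondeg i) hu
  refine ⟨a, u, fun h => ?_⟩
  have h2 := congrArg (fun f : Module.End K (V i) => f a) h
  have hua : B i u a = -1 := by rw [Gk.swap (hb.alt i), ha]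
  simp only [Module.End.mul_apply, SS_apply, map_add, map_smul, hb.alt, ha, hua] at h2
  have h3 : (-4 : K) • a = 0 := by
    have h4 : (-4 : K) • a = (-1 : K) • ((1 : K) • a + (1 : K) • a) +
        (-1 : K) • ((1 : K) • a + (1 : K) • a) := by module
    rw [h4, h2]
    simp
  have ha0 : a = 0 := (smul_eq_zero.1 h3).resolve_left (by norm_num)
  rw [ha0, map_zero, LinearMap.zero_apply] at ha
  exact zero_ne_one ha

/-- **Stable commutative spaces of skew operators are zero.** -/
theorem comm_zero {R : Submodule K (∀ i, Module.End K (V i))}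
    (hst : ∀ g, ∀ X ∈ R, cj ρ g X ∈ R) (hsk : ∀ X ∈ R, ∀ i, Gk.Sk (B i) (X i))
    (hcomm : ∀ X ∈ R, ∀ Y ∈ R, X * Y = Y * X) : ∀ X ∈ R, X = 0 := by
  classical
  -- the algebra generated by `R`
  let A := Algebra.adjoin K (R : Set (∀ i, Module.End K (V i)))
  have hAcomm : ∀ X ∈ A, ∀ Y ∈ A, X * Y = Y * X := by
    intro X hX Y hY
    have hA := Algebra.isMulCommutative_adjoin K (s := (R : Set (∀ i, Module.End K (V i)))) hcomm
    have h1 := hA.is_comm.comm (⟨X, hX⟩ : A) ⟨Y, hY⟩
    exact congrArg Subtype.val h1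
  have hAst : ∀ g, ∀ X ∈ A, cj ρ g X ∈ A := by
    intro g X hX
    induction hX using Algebra.adjoin_induction with
    | mem X hX => exact Algebra.subset_adjoin (hst g X hX)
    | algebraMap r =>
      have h1 : cj ρ g (algebraMap K (∀ i, Module.End K (V i)) r) =
          algebraMap K (∀ i, Module.End K (V i)) r := by
        funext i
        ext x
        rw [cj_apply]
        simp only [Module.End.mul_apply, Pi.algebraMap_apply, Module.algebraMap_end_apply,
          map_smul, rho_apply_inv]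
      rw [h1]
      exact Subalgebra.algebraMap_mem _ r
    | add X Y _ _ h1 h2 => rw [map_add]; exact add_mem h1 h2
    | mul X Y _ _ h1 h2 => rw [cj_mul]; exact mul_mem h1 h2
  -- the radical of the trace form
  let rad : Submodule K (∀ i, Module.End K (V i)) :=
    { carrier := {X | X ∈ A ∧ ∀ Y ∈ A, tau X Y = 0}
      zero_mem' := ⟨zero_mem _, fun Y _ => by rw [map_zero, LinearMap.zero_apply]⟩
      add_mem' := by
        rintro X Y ⟨hX, hX'⟩ ⟨hY, hY'⟩
        refine ⟨add_mem hX hY, fun Z hZ => ?_⟩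
        rw [map_add, LinearMap.add_apply, hX' Z hZ, hY' Z hZ, add_zero]
      smul_mem' := by
        rintro c X ⟨hX, hX'⟩
        refine ⟨A.smul_mem hX c, fun Z hZ => ?_⟩
        rw [map_smul, LinearMap.smul_apply, hX' Z hZ, smul_zero] }
  have hradst : ∀ g, ∀ X ∈ rad, cj ρ g X ∈ rad := by
    rintro g X ⟨hX, hX'⟩
    refine ⟨hAst g X hX, fun Y hY => ?_⟩
    rw [tau_cj]
    exact hX' _ (hAst _ _ hY)
  have hradnil : ∀ X ∈ rad, IsNilpotent (dgl X) := by
    rintro X ⟨hX, hX'⟩
    refine nilp_of_trace fun p => ?_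
    have h1 : ∀ p : Polynomial K, dgl (Polynomial.aeval X p) = Polynomial.aeval (dgl X) p := by
      intro p
      induction p using Polynomial.induction_on' with
      | add p q hp hq => rw [map_add, map_add, map_add, hp, hq]
      | monomial n a =>
        rw [Polynomial.aeval_monomial, Polynomial.aeval_monomial, dgl_mul]
        by_cases hn : n = 0
        · subst hn
          rw [pow_zero, pow_zero]
          apply LinearMap.ext
          intro x
          rfl
        · rw [dgl_pow _ _ hn]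
          rfl
    have h3 : Polynomial.aeval X p ∈ A :=
      Algebra.adjoin_le (Set.singleton_subset_iff.2 hX)
        (Polynomial.aeval_mem_adjoin_singleton K X)
    have h2 := hX' (X * Polynomial.aeval X p) (mul_mem hX h3)
    rw [tau_apply, dgl_mul, h1] at h2
    exact h2
  have hrad0 : ∀ X ∈ rad, X = 0 := by
    intro X hX
    funext i
    refine zero_of_kernel (hb.irreducible i) ((fun X : ∀ i, Module.End K (V i) => X i) '' rad)
      ?_ ?_ (X i) ⟨X, hX, rfl⟩
    · rintro g _ ⟨Y, hY, rfl⟩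
      exact ⟨_, hradst g Y hY, rfl⟩
    · intro hV
      obtain ⟨v, hv0, hv⟩ := common_kernel (rad.map (LinearMap.proj i : _ →ₗ[K] Module.End K (V i)))
        (by
          rintro _ ⟨Y, hY, rfl⟩ _ ⟨Z, hZ, rfl⟩
          have h1 : Y * Z = Z * Y := hAcomm Y hY.1 Z hZ.1
          have h2 : Y i * Z i = Z i * Y i := congrFun h1 i
          change Y i * Z i - Z i * Y i ∈ _
          rw [h2, sub_self]
          exact zero_mem _)
        (by
          rintro _ ⟨Y, hY, rfl⟩
          exact nilp_comp (hradnil Y hY) i)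
      refine ⟨v, hv0, ?_⟩
      rintro _ ⟨Y, hY, rfl⟩
      exact hv _ ⟨Y, hY, rfl⟩
  obtain ⟨J, hJ1, hJ2⟩ := exists_J hb (N := Subalgebra.toSubmodule A) hAst
    (fun X hX h => hrad0 X ⟨hX, h⟩)
  intro X hX
  by_contra hX0
  obtain ⟨i, hi⟩ : ∃ i, X i ≠ 0 := by
    by_contra hcon
    push Not at hcon
    exact hX0 (funext hcon)
  have hiJ : i ∈ J := by
    by_contra hiJ
    exact hi (hJ1 X (Algebra.subset_adjoin hX) (hsk X hX) i hiJ)
  have hmem : ∀ a : V i, (Pi.single i (SS (B i) a a) : ∀ i, Module.End K (V i)) ∈ A := by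
    intro a
    refine hJ2 _ (fun k => ?_) fun k hk => ?_
    · by_cases hk : k = i
      · subst hk
        rw [Pi.single_eq_same]
        exact Gk.SS_sk (hb.alt k) a a
      · rw [Pi.single_eq_of_ne hk]
        intro x y
        simp
    · rw [Pi.single_eq_of_ne]
      rintro rfl
      exact hk hiJ
  obtain ⟨a, b, hab⟩ := not_comm hb hi
  apply hab
  have h1 := congrFun (hAcomm _ (hmem a) _ (hmem b)) i
  rw [Pi.mul_apply, Pi.mul_apply, Pi.single_eq_same, Pi.single_eq_same] at h1
  exact h1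

/-- **Larsen's alternative.** A stable Lie algebra of skew operators which is not zero on any of the
`V i` contains all skew operators. -/
theorem lie_full {M : Submodule K (∀ i, Module.End K (V i))}
    (hbr : ∀ X ∈ M, ∀ Y ∈ M, X * Y - Y * X ∈ M) (hst : ∀ g, ∀ X ∈ M, cj ρ g X ∈ M)
    (hsk : ∀ X ∈ M, ∀ i, Gk.Sk (B i) (X i)) (hne : ∀ i, ∃ X ∈ M, X i ≠ 0)
    {X : ∀ i, Module.End K (V i)} (hX : ∀ i, Gk.Sk (B i) (X i)) : X ∈ M := by
  classical
  -- the radical of the trace form
  let rad : Submodule K (∀ i, Module.End K (V i)) :=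
    { carrier := {X | X ∈ M ∧ ∀ Y ∈ M, tau X Y = 0}
      zero_mem' := ⟨zero_mem _, fun Y _ => by rw [map_zero, LinearMap.zero_apply]⟩
      add_mem' := by
        rintro X Y ⟨hX, hX'⟩ ⟨hY, hY'⟩
        refine ⟨add_mem hX hY, fun Z hZ => ?_⟩
        rw [map_add, LinearMap.add_apply, hX' Z hZ, hY' Z hZ, add_zero]
      smul_mem' := by
        rintro c X ⟨hX, hX'⟩
        refine ⟨M.smul_mem c hX, fun Z hZ => ?_⟩
        rw [map_smul, LinearMap.smul_apply, hX' Z hZ, smul_zero] }
  have hradst : ∀ g, ∀ X ∈ rad, cj ρ g X ∈ rad := by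
    rintro g X ⟨hX, hX'⟩
    refine ⟨hst g X hX, fun Y hY => ?_⟩
    rw [tau_cj]
    exact hX' _ (hst _ _ hY)
  have hradbr : ∀ X ∈ rad, ∀ Y ∈ rad, X * Y - Y * X ∈ rad := by
    rintro X ⟨hX, hX'⟩ Y ⟨hY, hY'⟩
    refine ⟨hbr X hX Y hY, fun Z hZ => ?_⟩
    have h1 : tau (X * Y - Y * X) Z = tau X (Y * Z - Z * Y) := by
      have h2 : tau (Y * X) Z = tau X (Z * Y) := by
        rw [tau_mul, tau_symm, tau_mul]
      rw [map_sub, LinearMap.sub_apply, tau_mul, h2, map_sub]
    rw [h1]
    exact hX' _ (hbr Y hY Z hZ)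
  -- its commutators vanish
  have hcomm : ∀ X ∈ rad, ∀ Y ∈ rad, X * Y = Y * X := by
    intro X hX Y hY
    funext i
    have hnil : ∀ z ∈ Submodule.span K {z : ∀ i, Module.End K (V i) | ∃ x ∈ rad, ∃ y ∈ rad,
        z = x * y - y * x}, IsNilpotent (z i) := by
      intro z hz
      refine nilp_comp (nilp_of_form (rad.map dgl) ?_ ?_ (z := dgl z) ?_) i
      · rintro _ ⟨x, hx, rfl⟩ _ ⟨y, hy, rfl⟩
        exact ⟨x * y - y * x, hradbr x hx y hy, by rw [map_sub, dgl_mul, dgl_mul]⟩
      · rintro _ ⟨x, hx, rfl⟩ _ ⟨y, hy, rfl⟩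
        exact hx.2 y hy.1
      · have h1 : Submodule.span K {z : ∀ i, Module.End K (V i) | ∃ x ∈ rad, ∃ y ∈ rad,
            z = x * y - y * x} ≤ (Submodule.span K {z | ∃ x ∈ rad.map dgl, ∃ y ∈ rad.map dgl,
              z = x * y - y * x}).comap dgl := by
          rw [Submodule.span_le]
          rintro _ ⟨x, hx, y, hy, rfl⟩
          refine Submodule.subset_span ⟨dgl x, ⟨x, hx, rfl⟩, dgl y, ⟨y, hy, rfl⟩, ?_⟩
          rw [map_sub, dgl_mul, dgl_mul]
        exact h1 hz
    refine sub_eq_zero.1 (zero_of_kernel (hb.irreducible i)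
      {z : Module.End K (V i) | ∃ x ∈ rad, ∃ y ∈ rad, z = x i * y i - y i * x i}
      ?_ ?_ (X i * Y i - Y i * X i) ⟨X, hX, Y, hY, rfl⟩)
    · rintro g _ ⟨x, hx, y, hy, rfl⟩
      refine ⟨cj ρ g x, hradst g x hx, cj ρ g y, hradst g y hy, ?_⟩
      have h1 : ∀ x y : ∀ i, Module.End K (V i), ρ i g * (x i * y i) * ρ i g⁻¹ =
          cj ρ g x i * cj ρ g y i := fun x y => congrFun (cj_mul g x y) i
      rw [mul_sub, sub_mul, h1, h1]
    · intro hV
      obtain ⟨v, hv0, hv⟩ := common_kernel ((Submodule.span K {z : ∀ i, Module.End K (V i) |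
        ∃ x ∈ rad, ∃ y ∈ rad, z = x * y - y * x}).map
          (LinearMap.proj i : _ →ₗ[K] Module.End K (V i)))
        (by
          have hle : Submodule.span K {z : ∀ i, Module.End K (V i) |
              ∃ x ∈ rad, ∃ y ∈ rad, z = x * y - y * x} ≤ rad := by
            rw [Submodule.span_le]
            rintro _ ⟨x, hx, y, hy, rfl⟩
            exact hradbr x hx y hy
          rintro _ ⟨x, hx, rfl⟩ _ ⟨y, hy, rfl⟩
          exact ⟨x * y - y * x, Submodule.subset_span ⟨x, hle hx, y, hle hy, rfl⟩, rfl⟩)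
        (by
          rintro _ ⟨x, hx, rfl⟩
          exact hnil x hx)
      refine ⟨v, hv0, ?_⟩
      rintro _ ⟨x, hx, y, hy, rfl⟩
      exact hv _ ⟨x * y - y * x, Submodule.subset_span ⟨x, hx, y, hy, rfl⟩, rfl⟩
  have hrad0 : ∀ X ∈ rad, X = 0 :=
    comm_zero hb hradst (fun X hX => hsk X hX.1) hcomm
  obtain ⟨J, hJ1, hJ2⟩ := exists_J hb hst fun X hX h => hrad0 X ⟨hX, h⟩
  refine hJ2 X hX fun i hi => ?_
  obtain ⟨Y, hY, hYi⟩ := hne i
  exact absurd (hJ1 Y hY (hsk Y hY) i hi) hYi

end comm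

/-! ### Tate classes -/

variable {H : Type} [AddCommGroup H] [Module K H] [FiniteDimensional K H]
  {σ : Representation K Γ H} {j : ℕ} {S : Type} [Fintype S] [DecidableEq S]

/-- The symplectic Lie algebras kill the Tate classes. -/
theorem killAll [DecidableEq ι] (h : PolarizedFamily χ wt ρ B σ) (hQ : QuarticTate χ wt ρ B)
    {Δ : Subgroup Γ} (hΔ : Δ.FiniteIndex) {f : MultilinearMap K (fun _ : S => ∀ i, V i) H}
    (hf : IsTateMap χ ρ σ Δ j f) : Gk.KillAll B f := by
  intro i u v z
  have hb : Base χ wt ρ B := ⟨h.alt, h.nondeg, h.act, h.irreducible, hQ⟩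
  have h1 : (Pi.single i (SS (B i) u v) : ∀ i, Module.End K (V i)) ∈ LG S χ j ρ B σ := by
    refine lie_full hb (fun X hX Y hY => LG_bracket hX hY) (fun g X hX => LG_conj h.act hX g)
      (fun X hX i => hX.1 i) (fun i => ?_) fun k => ?_
    · obtain ⟨X, hX, hXi⟩ := h.moves i
      exact ⟨X, local_mem h.act hX, hXi⟩
    · by_cases hk : k = i
      · subst hk
        rw [Pi.single_eq_same]
        exact Gk.SS_sk (h.alt k) u v
      · rw [Pi.single_eq_of_ne hk]
        intro x y
        simp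
  have h2 := h1.2.2 f ⟨Δ, hΔ, fun g hg x => hf g hg x⟩ z
  refine Eq.trans (Finset.sum_congr rfl fun s _ => ?_) h2
  congr 2
  funext k
  rw [dgl_apply]
  by_cases hk : k = i
  · subst hk
    rw [Pi.single_eq_same, Pi.single_eq_same]
  · rw [Pi.single_eq_of_ne hk, Pi.single_eq_of_ne hk]
    rfl

theorem products [DecidableEq ι] {Δ : Subgroup Γ} (halt : ∀ i v, B i v v = 0)
    (hnd : ∀ i v, (∀ u, B i v u = 0) → v = 0)
    (hact : ∀ i g v u, B i (ρ i g v) (ρ i g u) = (χ g : K) ^ wt i * B i v u)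
    {f : MultilinearMap K (fun _ : S => ∀ i, V i) H} (hf : IsProductOfPairings χ wt B σ Δ j f) :
    IsTateMap χ ρ σ Δ j f := by
  have hB : Gk.Base (fun i => mul' χ (wt i)) ρ B :=
    ⟨halt, hnd, fun i g v u => by rw [mul'_apply]; exact hact i g v u⟩
  have hconv : Sm.ClassesSplit (fun i => mul' χ (wt i)) B (tw χ j σ) Δ f ↔
      IsProductOfPairings χ wt B σ Δ j f := by
    rw [Sm.ClassesSplit, IsProductOfPairings]
    simp only [mul'_apply, tw_apply]
  intro g hg x
  exact hB.eqv_of_split (hconv.2 hf) g hg x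

/-- **The structure of the Tate classes relative to a representation.** -/
theorem tate_iff (h : PolarizedFamily χ wt ρ B σ) (hQ : QuarticTate χ wt ρ B) {Δ : Subgroup Γ}
    (hΔ : Δ.FiniteIndex) (f : MultilinearMap K (fun _ : S => ∀ i, V i) H) :
    IsTateMap χ ρ σ Δ j f ↔ IsProductOfPairings χ wt B σ Δ j f := by
  classical
  have hB : Gk.Base (fun i => mul' χ (wt i)) ρ B :=
    ⟨h.alt, h.nondeg, fun i g v u => by rw [mul'_apply]; exact h.act i g v u⟩
  have hconv : Sm.ClassesSplit (fun i => mul' χ (wt i)) B (tw χ j σ) Δ f ↔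
      IsProductOfPairings χ wt B σ Δ j f := by
    rw [Sm.ClassesSplit, IsProductOfPairings]
    simp only [mul'_apply, tw_apply]
  exact ⟨fun hf => hconv.1 (hB.split (killAll h hQ hΔ hf) fun g hg x => hf g hg x),
    products h.alt h.nondeg h.act⟩

/-- Algebraic classes. -/
theorem algebraic_of (h : PolarizedFamily χ wt ρ B σ) (hQ : QuarticTate χ wt ρ B)
    {Δ : Subgroup Γ} (hΔ : Δ.FiniteIndex) {f : MultilinearMap K (fun _ : S => ∀ i, V i) H}
    {Alg : Submodule K H}
    (hAlg : ∀ (m : ℕ) (z : H), (∀ g ∈ Δ, (χ g : K) ^ j • σ g z = (χ g : K) ^ m • z) → z ∈ Alg)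
    (hf : IsTateMap χ ρ σ Δ j f) : f ∈ Submodule.span K {u | PairingTimes B Alg u} := by
  refine Submodule.span_mono ?_ ((tate_iff h hQ hΔ f).1 hf)
  rintro u ⟨m, e, c, z, hz, hx⟩
  refine ⟨m, e, c, z, hAlg (∑ l, wt (c l)) z fun g hg => ?_, hx⟩
  rw [hz g hg, Finset.prod_pow_eq_pow_sum]

/-- Local operators relative to a representation are local operators. -/
theorem IsLocal_trivial {X : ∀ i, Module.End K (V i)} (h : IsLocal χ ρ σ X) :
    IsLocal χ ρ (Representation.trivial K Γ K) X := by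
  induction h with
  | unip g hχ hσ h => exact .unip g hχ rfl h
  | slope F θ hθ hχ hσ X hX =>
    refine .slope F θ hθ hχ (fun b w hw h => ?_) X hX
    have h1 : w = b * w := h
    have h2 : b = 1 := by
      have h3 : (b - 1) * w = 0 := by rw [sub_mul, one_mul, ← h1, sub_self]
      exact sub_eq_zero.1 ((mul_eq_zero.1 h3).resolve_right hw)
    rw [h2, hθ.one]
  | add X Y _ _ h1 h2 => exact .add X Y h1 h2
  | smul c X _ h1 => exact .smul c X h1
  | bracket X Y _ _ h1 h2 => exact .bracket X Y h1 h2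
  | conj g X _ h1 => exact .conj g X h1

theorem PolarizedFamily.toTrivial (h : PolarizedFamily χ wt ρ B σ) :
    PolarizedFamily χ wt ρ B (Representation.trivial K Γ K) :=
  ⟨h.alt, h.nondeg, h.act, h.irreducible, fun i => by
    obtain ⟨X, hX, hXi⟩ := h.moves i
    exact ⟨X, IsLocal_trivial hX, hXi⟩⟩

/-- **Codimension two decides.** -/
theorem quartic_iff (h : PolarizedFamily χ wt ρ B σ) :
    QuarticTate χ wt ρ B ↔ ∀ (S : Type) [Fintype S] (Δ : Subgroup Γ), Δ.FiniteIndex →
      ∀ (j : ℕ) (f : MultilinearMap K (fun _ : S => ∀ i, V i) K),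
        IsTateMap χ ρ (Representation.trivial K Γ K) Δ j f →
          IsProductOfPairings χ wt B (Representation.trivial K Γ K) Δ j f := by
  classical
  exact ⟨fun hQ S _ Δ hΔ j f hf => (tate_iff h.toTrivial hQ hΔ f).1 hf,
    fun h i k f hf => h (Fin 4) ⊤ inferInstance _ f hf⟩

end Pool.Agent.T9h39.Ct
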