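import Mathlib

/-!
# Linear algebra: traces, projections, common null vectors
-/

set_option linter.unusedSectionVars false

namespace Pool.Agent.T9h39.Ct

open Module Polynomial

section nilp

variable {K E : Type} [Field K] [CharZero K] [IsAlgClosed K] [AddCommGroup E] [Module K E]
  [FiniteDimensional K E]

/-- An operator is nilpotent if the traces of its products with polynomials in it vanish. -/
theorem nilp_of_trace {a : Module.End K E}
    (h : ∀ p : K[X], LinearMap.trace K E (a * (a * aeval a p)) = 0) : IsNilpotent a := by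
  -- all eigenvalues are zero
  have h0 : ∀ μ : K, a.HasEigenvalue μ → μ = 0 := by
    intro μ hμ
    by_contra hμ0
    -- factor the characteristic polynomial
    set P := a.charpoly with hP
    have hP0 : P ≠ 0 := a.charpoly_monic.ne_zero
    obtain ⟨q, hq, hdvd⟩ := Polynomial.exists_eq_pow_rootMultiplicity_mul_and_not_dvd P hP0 μ
    set m := P.rootMultiplicity μ with hm
    have hcop : IsCoprime ((X - C μ) ^ m) q := by
      refine IsCoprime.pow_left ?_
      exact (Polynomial.irreducible_X_sub_C μ).coprime_iff_not_dvd.2 hdvd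
    obtain ⟨u, v, huv⟩ := hcop
    have hCH : aeval a P = 0 := LinearMap.aeval_self_charpoly a
    set e := aeval a (v * q) with he
    have he1 : e = 1 - aeval a (u * (X - C μ) ^ m) := by
      have h0 : v * q = 1 - u * (X - C μ) ^ m := by
        rw [← huv]
        ring
      rw [he, h0, map_sub, map_one]
    have hann : aeval a ((X - C μ) ^ m) * e = 0 := by
      rw [he, ← map_mul]
      have : (X - C μ) ^ m * (v * q) = v * P := by rw [hq]; ring
      rw [this, map_mul, hCH, mul_zero]
    have hidem : IsIdempotentElem e := by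
      have h1 : e * e = e - aeval a (u * (X - C μ) ^ m) * e := by
        conv_lhs => rw [he1]
        rw [sub_mul, one_mul]
        rw [← he1]
      rw [IsIdempotentElem, h1, map_mul, mul_assoc, hann, mul_zero, sub_zero]
    have hcomm : ∀ p q : K[X], aeval a p * aeval a q = aeval a q * aeval a p := by
      intro p q
      rw [← map_mul, ← map_mul, mul_comm]
    -- the trace of `a a e` is `μ ^ 2` times the trace of `e`
    have hnil : IsNilpotent ((a * a - μ ^ 2 • (1 : Module.End K E)) * e) := by
      refine ⟨m + 1, ?_⟩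
      have h2 : a * a - μ ^ 2 • (1 : Module.End K E) = aeval a ((X - C μ) * (X + C μ)) := by
        rw [map_mul, map_sub, map_add, aeval_X, aeval_C, sub_mul, mul_add, mul_add,
          Algebra.algebraMap_eq_smul_one]
        simp only [smul_mul_assoc, mul_smul_comm, one_mul, mul_one, smul_smul]
        rw [pow_two]
        abel
      rw [h2, he, ← map_mul, ← map_pow]
      have h3 : ((X - C μ) * (X + C μ) * (v * q)) ^ (m + 1) =
          ((X - C μ) ^ m * (v * q)) * ((X - C μ) * (X + C μ) ^ (m + 1) * (v * q) ^ m) := by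
        rw [mul_pow, mul_pow, pow_succ (X - C μ) m, pow_succ (v * q) m]
        ring
      rw [h3, map_mul, map_mul, ← he, hann, zero_mul]
    have htr : LinearMap.trace K E (a * (a * e)) = μ ^ 2 * LinearMap.trace K E e := by
      have h4 := (LinearMap.isNilpotent_trace_of_isNilpotent hnil).eq_zero
      rw [sub_mul, map_sub, smul_mul_assoc, one_mul, map_smul, smul_eq_mul, mul_assoc] at h4
      exact sub_eq_zero.1 h4
    have h5 := h (v * q)
    rw [← he, htr] at h5
    have h6 : LinearMap.trace K E e = 0 :=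
      (mul_eq_zero.1 h5).resolve_left (pow_ne_zero 2 hμ0)
    have he0 : e = 0 := (LinearMap.IsIdempotentElem.trace_eq_zero_iff hidem).1 h6
    rw [he0] at he1
    have h7 : aeval a (u * (X - C μ) ^ m) = 1 := (sub_eq_zero.1 he1.symm).symm
    obtain ⟨x, hx⟩ := hμ.exists_hasEigenvector
    have hm0 : m ≠ 0 := by
      intro h8
      have h9 : P.IsRoot μ := (Module.End.hasEigenvalue_iff_isRoot_charpoly a μ).1 hμ
      have := (Polynomial.rootMultiplicity_pos hP0).2 h9
      omega
    have h10 : aeval a (u * (X - C μ) ^ m) x = 0 := by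
      rw [map_mul, Module.End.mul_apply]
      have : aeval a ((X - C μ) ^ m) x = 0 := by
        obtain ⟨m', hm'⟩ := Nat.exists_eq_succ_of_ne_zero hm0
        rw [hm', pow_succ, map_mul, Module.End.mul_apply]
        have h11 : aeval a (X - C μ) x = 0 := by
          rw [map_sub, aeval_X, aeval_C, LinearMap.sub_apply, Module.algebraMap_end_apply,
            hx.apply_eq_smul, sub_self]
        rw [h11, map_zero]
      rw [this, map_zero]
    rw [h7] at h10
    exact hx.2 h10
  -- so the characteristic polynomial is a power of `X`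
  rw [LinearMap.isNilpotent_iff_charpoly]
  have hs := IsAlgClosed.splits a.charpoly
  have h12 : ∀ r ∈ a.charpoly.roots, r = 0 := fun r hr => h0 r
    ((Module.End.hasEigenvalue_iff_isRoot_charpoly a r).2 (Polynomial.isRoot_of_mem_roots hr))
  have h13 : a.charpoly.roots = Multiset.replicate (finrank K E) 0 := by
    refine Multiset.eq_replicate.2 ⟨?_, h12⟩
    rw [← a.charpoly_natDegree]
    exact (Polynomial.splits_iff_card_roots.1 hs)
  have h14 := Polynomial.Splits.eq_prod_roots_of_monic hs a.charpoly_monic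
  rw [h14, h13, Multiset.map_replicate, Multiset.prod_replicate, map_zero, sub_zero]

end nilp

section proj

variable {K E : Type} [Field K] [AddCommGroup E] [Module K E] [FiniteDimensional K E]

/-- The orthogonal projection to a nondegenerate subspace. -/
theorem exists_proj (b : E →ₗ[K] E →ₗ[K] K) (N : Submodule K E)
    (hN : ∀ x ∈ N, (∀ y ∈ N, b x y = 0) → x = 0) :
    ∃ P : E →ₗ[K] E, (∀ x, P x ∈ N) ∧ ∀ x, ∀ y ∈ N, b (P x) y = b x y := by
  let φ : E →ₗ[K] Module.Dual K N := (N.subtype.dualMap).comp b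
  have hφ : ∀ x (y : N), φ x y = b x y := fun x y => rfl
  let ψ : N →ₗ[K] Module.Dual K N := φ.comp N.subtype
  have hinj : Function.Injective ψ := by
    rw [← LinearMap.ker_eq_bot, Submodule.eq_bot_iff]
    intro x hx
    apply Subtype.ext
    refine hN x x.2 fun y hy => ?_
    have h1 := congrArg (fun f : Module.Dual K N => f ⟨y, hy⟩) (LinearMap.mem_ker.1 hx)
    exact h1
  let e : N ≃ₗ[K] Module.Dual K N :=
    LinearEquiv.ofInjectiveOfFinrankEq ψ hinj (Subspace.dual_finrank_eq).symm
  have he : ∀ x, e x = ψ x := fun x => rfl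
  refine ⟨N.subtype ∘ₗ e.symm.toLinearMap ∘ₗ φ, fun x => (e.symm (φ x)).2, fun x y hy => ?_⟩
  have h1 : ψ (e.symm (φ x)) = φ x := by rw [← he, LinearEquiv.apply_symm_apply]
  exact congrArg (fun f : Module.Dual K N => f ⟨y, hy⟩) h1

theorem proj_unique {b : E →ₗ[K] E →ₗ[K] K} {N : Submodule K E}
    (hN : ∀ x ∈ N, (∀ y ∈ N, b x y = 0) → x = 0) {x y : E} (hx : x ∈ N) (hy : y ∈ N)
    (h : ∀ z ∈ N, b x z = b y z) : x = y := by
  refine sub_eq_zero.1 (hN _ (N.sub_mem hx hy) fun z hz => ?_)
  rw [map_sub, LinearMap.sub_apply, h z hz, sub_self]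

end proj

section engel

variable {K V : Type} [Field K] [AddCommGroup V] [Module K V] [FiniteDimensional K V]

attribute [local instance 100] LieRing.ofAssociativeRing

/-- Engel's theorem. -/
theorem common_kernel [Nontrivial V] (L : Submodule K (Module.End K V))
    (hbr : ∀ x ∈ L, ∀ y ∈ L, x * y - y * x ∈ L) (hnil : ∀ x ∈ L, IsNilpotent x) :
    ∃ v : V, v ≠ 0 ∧ ∀ x ∈ L, x v = 0 := by
  let 𝔏 : LieSubalgebra K (Module.End K V) :=
    { L with lie_mem' := fun {x y} hx hy => hbr x hx y hy }
  have h1 : LieModule.IsNilpotent 𝔏 V := by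
    rw [LieModule.isNilpotent_iff_forall' (R := K)]
    intro x
    exact hnil x.1 x.2
  have hnt := LieModule.nontrivial_max_triv_of_isNilpotent K 𝔏 V
  obtain ⟨⟨v, hv⟩, hv0⟩ := exists_ne (0 : LieModule.maxTrivSubmodule K 𝔏 V)
  refine ⟨v, fun h => hv0 (Subtype.ext h), fun x hx => ?_⟩
  rw [LieModule.mem_maxTrivSubmodule] at hv
  exact hv ⟨x, hx⟩

/-- Cartan's criterion: combinations of commutators of a Lie algebra with zero trace form are
nilpotent. -/
theorem nilp_of_form [CharZero K] (L : Submodule K (Module.End K V))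
    (hbr : ∀ x ∈ L, ∀ y ∈ L, x * y - y * x ∈ L)
    (htr : ∀ x ∈ L, ∀ y ∈ L, LinearMap.trace K V (x * y) = 0) {z : Module.End K V}
    (hz : z ∈ Submodule.span K {z | ∃ x ∈ L, ∃ y ∈ L, z = x * y - y * x}) : IsNilpotent z := by
  let 𝔏 : LieSubalgebra K (Module.End K V) :=
    { L with lie_mem' := fun {x y} hx hy => hbr x hx y hy }
  have htf : LieModule.traceForm K 𝔏 V = 0 := by
    ext x y
    rw [LieModule.traceForm_apply_apply]
    exact htr x.1 x.2 y.1 y.2
  have hnil := LieModule.isNilpotent_derivedSeries_of_traceForm_eq_zero htf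
  rw [LieModule.isNilpotent_iff_forall' (R := K)] at hnil
  have h1 : ∃ w : 𝔏, w ∈ LieAlgebra.derivedSeries K 𝔏 1 ∧ (w : Module.End K V) = z := by
    induction hz using Submodule.span_induction with
    | mem z hz =>
      obtain ⟨x, hx, y, hy, rfl⟩ := hz
      refine ⟨⁅(⟨x, hx⟩ : 𝔏), (⟨y, hy⟩ : 𝔏)⁆, ?_, rfl⟩
      rw [LieAlgebra.derivedSeries_def, LieAlgebra.derivedSeriesOfIdeal_succ,
        LieAlgebra.derivedSeriesOfIdeal_zero]
      exact LieSubmodule.lie_mem_lie (LieSubmodule.mem_top _) (LieSubmodule.mem_top _)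
    | zero => exact ⟨0, (LieAlgebra.derivedSeries K 𝔏 1).zero_mem, rfl⟩
    | add x y _ _ h1 h2 =>
      obtain ⟨w, hw, rfl⟩ := h1
      obtain ⟨w', hw', rfl⟩ := h2
      exact ⟨w + w', (LieAlgebra.derivedSeries K 𝔏 1).add_mem hw hw', rfl⟩
    | smul c x _ h1 =>
      obtain ⟨w, hw, rfl⟩ := h1
      exact ⟨c • w, (LieAlgebra.derivedSeries K 𝔏 1).smul_mem c hw, rfl⟩
  obtain ⟨w, hw, rfl⟩ := h1
  exact hnil ⟨w, hw⟩

end engel

end Pool.Agent.T9h39.Ct
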