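import Pool.Agent.T9h39.RelDefs
import Pool.Agent.V11219.GkLie
import Pool.Agent.V11219.GkFft
import Pool.Agent.TH118.SG.Pair

/-!
# Local operators relative to a representation: the structure of the Tate classes
-/

set_option linter.unusedSectionVars false

namespace Pool.Agent.T9h39.Rel

open Module Finset Function Pool.Agent.TH125.Gal Pool.Agent.TH118.SG Pool.Agent.V11219
open Pool.Agent.H204R3.SP (SS)

section theta

variable {K : Type} [Field K]

/-- The homomorphism. -/
noncomputable def homOf {θ : K → K} (hθ : IsAdditive θ) : Additive Kˣ →+ K where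
  toFun a := θ (a.toMul : Kˣ)
  map_zero' := by
    have h := hθ.mul 1 1 one_ne_zero one_ne_zero
    rw [mul_one] at h
    have h1 : θ 1 = 0 := by linear_combination -h
    exact h1
  map_add' a b := hθ.mul _ _ (Units.ne_zero _) (Units.ne_zero _)

theorem ext0_homOf [CharZero K] [IsAlgClosed K] {θ : K → K} (hθ : IsAdditive θ) (a : K) : ext0 (homOf hθ) a = θ a := by
  by_cases h : a = 0
  · rw [h, ext0_zero, hθ.zero]
  · rw [ext0_ne _ h]
    rfl

theorem IsAdditive.one {θ : K → K} (hθ : IsAdditive θ) : θ 1 = 0 := by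
  have h := hθ.mul 1 1 one_ne_zero one_ne_zero
  rw [mul_one] at h
  linear_combination -h

theorem IsAdditive.pow {θ : K → K} (hθ : IsAdditive θ) {a : K} (ha : a ≠ 0) (n : ℕ) :
    θ (a ^ n) = n * θ a := by
  induction n with
  | zero => rw [pow_zero, hθ.one]; simp
  | succ n ih =>
    rw [pow_succ, hθ.mul _ _ (pow_ne_zero n ha) ha, ih]
    push_cast
    ring

end theta

variable {K Γ : Type} [Field K] [CharZero K] [IsAlgClosed K] [Group Γ]

section one

variable {V : Type} [AddCommGroup V] [Module K V] [FiniteDimensional K V]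

/-- Slope operators are skew. -/
theorem slope_skew {θ : K → K} (hθ : IsAdditive θ) {f : End K V} (hf : Injective f)
    {B : V →ₗ[K] V →ₗ[K] K} {c : K} (hc : θ c = 0) (hB : ∀ x y, B (f x) (f y) = c * B x y)
    {X : End K V} (hX : ∀ a, ∀ v ∈ f.maxGenEigenspace a, X v = θ a • v) : Gk.Sk B X := by
  intro x y
  have h1 := deriv_op (homOf hθ) f hf (c • (1 : End K K)) (Y := X)
    (fun β v hv => by rw [ext0_homOf]; exact hX β v hv)
    (Y' := (0 : End K K)) (fun β z hz => ?_) (h := bm B) (M := 1) one_pos (fun v => ?_) ![x, y]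
  · rw [Fin.sum_univ_two] at h1
    simpa [bm] using h1
  · rw [ext0_homOf, LinearMap.zero_apply]
    by_cases hz0 : z = 0
    · rw [hz0, smul_zero]
    · have h2 : c = β := by
        obtain ⟨n, hn⟩ := mem_gen.1 hz
        have h3 : ∀ n : ℕ, ((c • (1 : End K K) - algebraMap K (End K K) β) ^ n) z =
            (c - β) ^ n * z := by
          intro n
          induction n with
          | zero => simp
          | succ n ih =>
            rw [pow_succ', Module.End.mul_apply, ih, LinearMap.sub_apply, LinearMap.smul_apply,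
              Module.End.one_apply, Module.algebraMap_end_apply, smul_eq_mul, smul_eq_mul]
            ring
        rw [h3] at hn
        exact sub_eq_zero.1 (eq_zero_of_pow_eq_zero ((mul_eq_zero.1 hn).resolve_right hz0))
      rw [← h2, hc, zero_smul]
  · rw [pow_one, pow_one]
    change B (f (v 0)) (f (v 1)) = c • B (v 0) (v 1)
    rw [hB, smul_eq_mul]

theorem inj_of_rep (ρ : Representation K Γ V) (F : Γ) : Injective (ρ F) := by
  intro x y hxy
  have h1 := congrArg (ρ F⁻¹) hxy
  rw [← Module.End.mul_apply, ← Module.End.mul_apply, ← map_mul, inv_mul_cancel, map_one] at h1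
  exact h1

end one

/-- An eigenvector for a generalized eigenvalue. -/
theorem exists_eig {E : Type} [AddCommGroup E] [Module K E] {f : End K E} {β : K} {z : E}
    (hz : z ∈ f.maxGenEigenspace β) (hz0 : z ≠ 0) : ∃ w, w ≠ 0 ∧ f w = β • w := by
  obtain ⟨n, hn⟩ := mem_gen.1 hz
  induction n with
  | zero =>
    rw [pow_zero, Module.End.one_apply] at hn
    exact absurd hn hz0
  | succ n ih =>
    by_cases h : ((f - algebraMap K (End K E) β) ^ n) z = 0
    · exact ih h
    · refine ⟨_, h, ?_⟩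
      rw [pow_succ', Module.End.mul_apply, LinearMap.sub_apply, Module.algebraMap_end_apply,
        sub_eq_zero] at hn
      exact hn

variable {ι : Type} {V : ι → Type} [∀ i, AddCommGroup (V i)] [∀ i, Module K (V i)]
  {H : Type} [AddCommGroup H] [Module K H]

/-- The operator on the sum. -/
noncomputable def dgl : (∀ i, Module.End K (V i)) →ₗ[K] Module.End K (∀ i, V i) where
  toFun X := LinearMap.pi fun i => X i ∘ₗ LinearMap.proj i
  map_add' X Y := by
    ext x
    rfl
  map_smul' c X := by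
    ext x
    rfl

theorem dgl_apply (X : ∀ i, Module.End K (V i)) (x : ∀ i, V i) (i : ι) :
    dgl X x i = X i (x i) := rfl

theorem dgl_mul (X Y : ∀ i, Module.End K (V i)) : dgl (X * Y) = dgl X * dgl Y := by
  apply LinearMap.ext
  intro x
  rfl

/-- The action on the sum. -/
noncomputable def piRep (ρ : ∀ i, Representation K Γ (V i)) : Representation K Γ (∀ i, V i) where
  toFun g := dgl fun i => ρ i g
  map_one' := by
    apply LinearMap.ext
    intro x
    funext i
    rw [dgl_apply, map_one]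
    rfl
  map_mul' g g' := by
    apply LinearMap.ext
    intro x
    funext i
    rw [dgl_apply, map_mul]
    rfl

theorem piRep_apply (ρ : ∀ i, Representation K Γ (V i)) (g : Γ) (x : ∀ i, V i) (i : ι) :
    piRep ρ g x i = ρ i g (x i) := rfl

/-- The twisted action. -/
noncomputable def tw (χ : Γ →* Kˣ) (j : ℕ) (σ : Representation K Γ H) : Representation K Γ H where
  toFun g := (χ g : K) ^ j • σ g
  map_one' := by
    rw [map_one, map_one, Units.val_one, one_pow, one_smul]
  map_mul' g g' := by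
    rw [map_mul, map_mul, Units.val_mul, mul_pow, smul_mul_smul_comm]

theorem tw_apply (χ : Γ →* Kˣ) (j : ℕ) (σ : Representation K Γ H) (g : Γ) (x : H) :
    tw χ j σ g x = (χ g : K) ^ j • σ g x := rfl

variable [∀ i, FiniteDimensional K (V i)] [FiniteDimensional K H] [Fintype ι]
  {χ : Γ →* Kˣ} {wt : ι → ℕ} {ρ : ∀ i, Representation K Γ (V i)}
  {B : ∀ i, V i →ₗ[K] V i →ₗ[K] K} {σ : Representation K Γ H} {j : ℕ}
  {S : Type} [Fintype S] [DecidableEq S]

/-- The multipliers. -/
noncomputable def mul' (χ : Γ →* Kˣ) (n : ℕ) : Γ →* K := (Units.coeHom K).comp (χ ^ n)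

theorem mul'_apply (n : ℕ) (g : Γ) : mul' χ n g = (χ g : K) ^ n := by
  simp [mul']

/-- The Lie algebra. -/
noncomputable def LG (S : Type) [Fintype S] [DecidableEq S] (χ : Γ →* Kˣ) (j : ℕ)
    (ρ : ∀ i, Representation K Γ (V i)) (B : ∀ i, V i →ₗ[K] V i →ₗ[K] K)
    (σ : Representation K Γ H) : Submodule K (∀ i, Module.End K (V i)) where
  carrier := {X | (∀ i, Gk.Sk (B i) (X i)) ∧
    dgl X ∈ LL S (0 : (∀ i, V i) →ₗ[K] (∀ i, V i) →ₗ[K] K) (piRep ρ) (tw χ j σ)}
  zero_mem' := by
    refine ⟨fun i x y => ?_, ?_⟩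
    · change B i (0 : V i) y + B i x 0 = 0
      simp
    · rw [map_zero]
      exact Submodule.zero_mem _
  add_mem' := by
    rintro X Y ⟨h1, h3⟩ ⟨h1', h3'⟩
    refine ⟨fun i x y => ?_, ?_⟩
    · change B i (X i x + Y i x) y + B i x (X i y + Y i y) = 0
      rw [map_add, map_add, LinearMap.add_apply]
      linear_combination h1 i x y + h1' i x y
    · rw [map_add]
      exact Submodule.add_mem _ h3 h3'
  smul_mem' := by
    rintro c X ⟨h1, h3⟩
    refine ⟨fun i x y => ?_, ?_⟩
    · change B i (c • X i x) y + B i x (c • X i y) = 0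
      rw [map_smul, map_smul, LinearMap.smul_apply, smul_eq_mul, smul_eq_mul]
      linear_combination c * h1 i x y
    · rw [map_smul]
      exact Submodule.smul_mem _ _ h3

theorem mem_LG {X : ∀ i, Module.End K (V i)} : X ∈ LG S χ j ρ B σ ↔
    (∀ i, Gk.Sk (B i) (X i)) ∧
    dgl X ∈ LL S (0 : (∀ i, V i) →ₗ[K] (∀ i, V i) →ₗ[K] K) (piRep ρ) (tw χ j σ) := Iff.rfl

theorem LG_bracket {X Y : ∀ i, Module.End K (V i)} (hX : X ∈ LG S χ j ρ B σ)
    (hY : Y ∈ LG S χ j ρ B σ) : X * Y - Y * X ∈ LG S χ j ρ B σ := by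
  obtain ⟨h1, h3⟩ := hX
  obtain ⟨h1', h3'⟩ := hY
  refine ⟨fun i x y => ?_, ?_⟩
  · change B i (X i (Y i x) - Y i (X i x)) y + B i x (X i (Y i y) - Y i (X i y)) = 0
    rw [map_sub, map_sub, LinearMap.sub_apply]
    linear_combination h1 i (Y i x) y - h1' i (X i x) y + h1 i x (Y i y) - h1' i x (X i y)
  · rw [map_sub, dgl_mul, dgl_mul]
    exact LL_bracket h3 h3'

theorem LG_conj (hact : ∀ i g v u, B i (ρ i g v) (ρ i g u) = (χ g : K) ^ wt i * B i v u)
    {X : ∀ i, Module.End K (V i)} (hX : X ∈ LG S χ j ρ B σ) (g : Γ) :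
    (fun i => ρ i g * X i * ρ i g⁻¹) ∈ LG S χ j ρ B σ := by
  obtain ⟨h1, h3⟩ := hX
  refine ⟨fun i x y => ?_, ?_⟩
  · have hinv : ∀ x, ρ i g (ρ i g⁻¹ x) = x := fun x => rinv g x
    have h2 := hact i g (X i (ρ i g⁻¹ x)) (ρ i g⁻¹ y)
    have h4 := hact i g (ρ i g⁻¹ x) (X i (ρ i g⁻¹ y))
    rw [hinv] at h2 h4
    have h5 := h1 i (ρ i g⁻¹ x) (ρ i g⁻¹ y)
    change B i (ρ i g (X i (ρ i g⁻¹ x))) y + B i x (ρ i g (X i (ρ i g⁻¹ y))) = 0
    rw [h2, h4, ← mul_add, h5, mul_zero]
  · have h4 := LL_conj (μ := fun _ => 0) (fun g x y => by simp) h3 g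
    exact h4

/-- Unipotent operators. -/
theorem unip_mem_LG (hact : ∀ i g v u, B i (ρ i g v) (ρ i g u) = (χ g : K) ^ wt i * B i v u)
    {g : Γ} (hχ : χ g = 1) (hσ : σ g = 1) (h : ∀ i, (ρ i g - 1) * (ρ i g - 1) = 0) :
    (fun i => ρ i g - 1) ∈ LG S χ j ρ B σ := by
  refine ⟨fun i => ?_, ?_⟩
  · have hg : ∀ x, ρ i g x = x + (ρ i g - 1) x := by
      intro x
      rw [LinearMap.sub_apply, Module.End.one_apply]
      abel
    have hN : ∀ x, (ρ i g - 1) ((ρ i g - 1) x) = 0 := fun x =>
      congrArg (fun f : End K (V i) => f x) (h i)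
    have h0 : ∀ x y, B i ((ρ i g - 1) x) y + B i x ((ρ i g - 1) y) +
        B i ((ρ i g - 1) x) ((ρ i g - 1) y) = 0 := by
      intro x y
      have h1 := hact i g x y
      rw [hχ, Units.val_one, one_pow, one_mul, hg x, hg y] at h1
      simp only [map_add, LinearMap.add_apply] at h1
      linear_combination h1
    intro x y
    have h1 := h0 ((ρ i g - 1) x) y
    rw [hN, map_zero, LinearMap.zero_apply, LinearMap.zero_apply, zero_add, add_zero] at h1
    have h3 := h0 x y
    rwa [h1, add_zero] at h3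
  · refine Pool.Agent.TH118.SG.unip_mem (g := g) (fun x => ?_) (fun x => ?_) (fun x y => rfl) ?_
    · funext i
      rw [piRep_apply, Pi.add_apply, dgl_apply, LinearMap.sub_apply, Module.End.one_apply]
      abel
    · funext i
      exact congrArg (fun f : End K (V i) => f (x i)) (h i)
    · apply LinearMap.ext
      intro z
      rw [tw_apply, hχ, hσ, Units.val_one, one_pow, one_smul]

/-- Slope operators. -/
theorem slope_mem_LG (hact : ∀ i g v u, B i (ρ i g v) (ρ i g u) = (χ g : K) ^ wt i * B i v u)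
    {F : Γ} {θ : K → K} (hθ : IsAdditive θ) (hχ : θ (χ F) = 0)
    (hσ : ∀ (b : K) (w : H), w ≠ 0 → σ F w = b • w → θ b = 0) {X : ∀ i, Module.End K (V i)}
    (hX : ∀ i a, ∀ v ∈ Module.End.maxGenEigenspace (ρ i F) a, X i v = θ a • v) :
    X ∈ LG S χ j ρ B σ := by
  have hχ0 : (χ F : K) ≠ 0 := Units.ne_zero _
  refine ⟨fun i => slope_skew hθ (inj_of_rep (ρ i) F) (c := (χ F : K) ^ wt i) ?_
    (hact i F) (hX i), fun x y => ?_, fun h hh v => ?_⟩
  · rw [hθ.pow hχ0, hχ, mul_zero]
  · simp
  · obtain ⟨Δ, hΔ, h1⟩ := hh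
    obtain ⟨M, hM, hFM⟩ := exists_pow hΔ F
    have h2 := deriv_op (homOf hθ) (piRep ρ F) (inj_of_rep (piRep ρ) F) (tw χ j σ F)
      (Y := dgl X) (fun β x hx => ?_) (Y' := (0 : End K H)) (fun β z hz => ?_) (h := h) hM
      (fun v => ?_) v
    · rw [LinearMap.zero_apply] at h2
      exact h2
    · rw [ext0_homOf]
      funext i
      rw [dgl_apply, Pi.smul_apply]
      refine hX i β _ ?_
      obtain ⟨n, hn⟩ := mem_gen.1 hx
      refine mem_gen.2 ⟨n, ?_⟩
      have h4 : ∀ n : ℕ, ∀ x : ∀ i, V i,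
          (((piRep ρ F - algebraMap K (End K (∀ i, V i)) β) ^ n) x) i =
            ((ρ i F - algebraMap K (End K (V i)) β) ^ n) (x i) := by
        intro n
        induction n with
        | zero => intro x; rfl
        | succ n ih =>
          intro x
          rw [pow_succ, Module.End.mul_apply, ih, pow_succ, Module.End.mul_apply]
          rfl
      rw [← h4, hn]
      rfl
    · rw [ext0_homOf, LinearMap.zero_apply]
      by_cases hz0 : z = 0
      · rw [hz0, smul_zero]
      · obtain ⟨w, hw0, hw⟩ := exists_eig hz hz0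
        have hβ : β ≠ 0 := by
          rintro rfl
          rw [zero_smul] at hw
          exact hw0 (inj_of_rep (tw χ j σ) F (by rw [hw, map_zero]))
        rw [tw_apply] at hw
        have h5 : σ F w = (((χ F : K) ^ j)⁻¹ * β) • w := by
          rw [mul_smul, ← hw, smul_smul, inv_mul_cancel₀ (pow_ne_zero j hχ0), one_smul]
        have h6 := hσ _ w hw0 h5
        have h7 := hθ.mul ((χ F : K) ^ j) (((χ F : K) ^ j)⁻¹ * β) (pow_ne_zero j hχ0)
          (mul_ne_zero (inv_ne_zero (pow_ne_zero j hχ0)) hβ)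
        rw [h6, hθ.pow hχ0, hχ, mul_inv_cancel_left₀ (pow_ne_zero j hχ0), mul_zero, add_zero] at h7
        rw [h7, zero_smul]
    · have h3 := h1 _ hFM v
      rw [map_pow, map_pow] at h3
      exact h3

/-- Local operators are in the Lie algebra. -/
theorem local_mem (hact : ∀ i g v u, B i (ρ i g v) (ρ i g u) = (χ g : K) ^ wt i * B i v u)
    {X : ∀ i, Module.End K (V i)} (hX : IsLocal χ ρ σ X) : X ∈ LG S χ j ρ B σ := by
  induction hX with
  | unip g hχ hσ h => exact unip_mem_LG hact hχ hσ h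
  | slope F θ hθ hχ hσ X hX => exact slope_mem_LG hact hθ hχ hσ hX
  | add X Y _ _ h1 h2 => exact Submodule.add_mem _ h1 h2
  | smul c X _ h1 => exact Submodule.smul_mem _ c h1
  | bracket X Y _ _ h1 h2 => exact LG_bracket h1 h2
  | conj g X _ h1 => exact LG_conj hact h1 g

theorem fdefect (h : RelativeFamily χ wt ρ B σ) {i : ι} {N : ∀ i, Module.End K (V i)} {d : ℕ}
    (hd : IsDefect χ ρ σ i N d) : Gk.FDefect (LG S χ j ρ B σ) i N d := by
  rcases hd with hd | ⟨N', hN', hN2, a, ha, hd⟩
  · exact Or.inl hd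
  · exact Or.inr ⟨N', local_mem h.act hN', hN2, a, ha, hd⟩

theorem lieFam (h : RelativeFamily χ wt ρ B σ) :
    Gk.LieFam (fun i => mul' χ (wt i)) ρ B (LG S χ j ρ B σ) where
  alt := h.alt
  nondeg := h.nondeg
  act i g v u := by rw [mul'_apply]; exact h.act i g v u
  irreducible := h.irreducible
  distinct := h.distinct
  br _ hX _ hY := LG_bracket hX hY
  conj g _ hX := LG_conj h.act hX g
  sk _ hX i := hX.1 i
  small i := by
    rcases h.places i with ⟨N, hN, hN2, hd⟩ | ⟨⟨N, hN, hN2, hc⟩, hd⟩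
    · refine Or.inl ⟨N, local_mem h.act hN, hN2, ?_⟩
      rcases hd with hd | hd
      · left
        intro p hp
        obtain ⟨d, hd, hpd⟩ := hd p hp
        exact ⟨d, fdefect h hd, hpd⟩
      · exact Or.inr (fdefect h hd)
    · refine Or.inr ⟨N, local_mem h.act hN, hN2, hc, fun p hp => ?_⟩
      obtain ⟨N', hN', hN2', d, hd, hpd⟩ := hd p hp
      exact ⟨N', local_mem h.act hN', hN2', d, fdefect h hd, hpd⟩

/-- The symplectic Lie algebras kill the Tate classes. -/
theorem killAll [DecidableEq ι] (h : RelativeFamily χ wt ρ B σ) {Δ : Subgroup Γ}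
    (hΔ : Δ.FiniteIndex) {f : MultilinearMap K (fun _ : S => ∀ i, V i) H}
    (hf : IsTateMap χ ρ σ Δ j f) : Gk.KillAll B f := by
  intro i u v z
  have h1 := (lieFam (S := S) (j := j) h).single_mem i u v
  have h2 := h1.2.2 f ⟨Δ, hΔ, fun g hg x => hf g hg x⟩ z
  refine Eq.trans (Finset.sum_congr rfl fun s _ => ?_) h2
  congr 2
  funext k
  rw [dgl_apply]
  by_cases hk : k = i
  · subst hk
    rw [Pi.single_eq_same, Pi.single_eq_same]
  · rw [Pi.single_eq_of_ne hk, Pi.single_eq_of_ne hk]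
    rfl

/-- **The structure of the Tate classes relative to a representation.** -/
theorem tate_iff (h : RelativeFamily χ wt ρ B σ) {Δ : Subgroup Γ}
    (hΔ : Δ.FiniteIndex) (f : MultilinearMap K (fun _ : S => ∀ i, V i) H) :
    IsTateMap χ ρ σ Δ j f ↔ IsProductOfPairings χ wt B σ Δ j f := by
  classical
  have hB : Gk.Base (fun i => mul' χ (wt i)) ρ B :=
    ⟨h.alt, h.nondeg, fun i g v u => by rw [mul'_apply]; exact h.act i g v u⟩
  have hconv : Sm.ClassesSplit (fun i => mul' χ (wt i)) B (tw χ j σ) Δ f ↔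
      IsProductOfPairings χ wt B σ Δ j f := by
    rw [Sm.ClassesSplit, IsProductOfPairings]
    simp only [mul'_apply, tw_apply]
  constructor
  · intro hf
    exact hconv.1 (hB.split (killAll h hΔ hf) fun g hg x => hf g hg x)
  · intro hf g hg x
    exact hB.eqv_of_split (hconv.2 hf) g hg x

/-- Algebraic classes. -/
theorem algebraic_of (h : RelativeFamily χ wt ρ B σ) {Δ : Subgroup Γ}
    (hΔ : Δ.FiniteIndex) {f : MultilinearMap K (fun _ : S => ∀ i, V i) H} {Alg : Submodule K H}
    (hAlg : ∀ (m : ℕ) (z : H), (∀ g ∈ Δ, (χ g : K) ^ j • σ g z = (χ g : K) ^ m • z) → z ∈ Alg)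
    (hf : IsTateMap χ ρ σ Δ j f) : f ∈ Submodule.span K {u | PairingTimes B Alg u} := by
  refine Submodule.span_mono ?_ ((tate_iff h hΔ f).1 hf)
  rintro u ⟨m, e, c, z, hz, hx⟩
  refine ⟨m, e, c, z, hAlg (∑ l, wt (c l)) z fun g hg => ?_, hx⟩
  rw [hz g hg, Finset.prod_pow_eq_pow_sum]

end Pool.Agent.T9h39.Rel
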