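import Pool.Agent.T9h39.CtDefs
import Pool.Agent.T9h39.CtLin
import Pool.Agent.T9h39.RelMain

/-!
# Families whose Tate classes of codimension two are products of pairings: the Lie algebra
-/

set_option linter.unusedSectionVars false

namespace Pool.Agent.T9h39.Ct

open Module Finset Function Pool.Agent.T9h39.Rel Pool.Agent.V11219
open Pool.Agent.H204R3.SP (SS SS_apply SS_comm)

section four

variable {K E : Type} [Field K] [AddCommGroup E] [Module K E]

/-- The four-linear map. -/
noncomputable def qm (Q : E →ₗ[K] E →ₗ[K] E →ₗ[K] E →ₗ[K] K) :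
    MultilinearMap K (fun _ : Fin 4 => E) K where
  toFun x := Q (x 0) (x 1) (x 2) (x 3)
  map_update_add' := by
    intro inst x i a b
    have : inst = instDecidableEqFin 4 := Subsingleton.elim _ _
    subst this
    fin_cases i <;> simp [Function.update]
  map_update_smul' := by
    intro inst x i a b
    have : inst = instDecidableEqFin 4 := Subsingleton.elim _ _
    subst this
    fin_cases i <;> simp [Function.update]

theorem qm_apply (Q : E →ₗ[K] E →ₗ[K] E →ₗ[K] E →ₗ[K] K) (x : Fin 4 → E) :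
    qm Q x = Q (x 0) (x 1) (x 2) (x 3) := rfl

/-- The products of two pairings. -/
theorem six (β β' : E → E → K) (h : ∀ x y, β x y = - β y x) (h' : ∀ x y, β' x y = - β' y x)
    {p q r s : Fin 4} (h1 : p ≠ q) (h2 : p ≠ r) (h3 : p ≠ s) (h4 : q ≠ r) (h5 : q ≠ s)
    (h6 : r ≠ s) :
    ∃ ε : K, (∀ x : Fin 4 → E, β (x p) (x q) * β' (x r) (x s) = ε * (β (x 0) (x 1) * β' (x 2) (x 3)))
      ∨ (∀ x : Fin 4 → E, β (x p) (x q) * β' (x r) (x s) = ε * (β (x 2) (x 3) * β' (x 0) (x 1)))
      ∨ (∀ x : Fin 4 → E, β (x p) (x q) * β' (x r) (x s) = ε * (β (x 0) (x 2) * β' (x 1) (x 3)))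
      ∨ (∀ x : Fin 4 → E, β (x p) (x q) * β' (x r) (x s) = ε * (β (x 1) (x 3) * β' (x 0) (x 2)))
      ∨ (∀ x : Fin 4 → E, β (x p) (x q) * β' (x r) (x s) = ε * (β (x 0) (x 3) * β' (x 1) (x 2)))
      ∨ (∀ x : Fin 4 → E, β (x p) (x q) * β' (x r) (x s) =
          ε * (β (x 1) (x 2) * β' (x 0) (x 3))) := by
  have hβ : ∀ p q : Fin 4, ∃ a : K, ∀ x : Fin 4 → E, β (x p) (x q) =
      a * β (x (min p q)) (x (max p q)) := by
    intro p q
    rcases le_total p q with hpq | hpq
    · exact ⟨1, fun x => by rw [min_eq_left hpq, max_eq_right hpq, one_mul]⟩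
    · exact ⟨-1, fun x => by rw [min_eq_right hpq, max_eq_left hpq, h]; ring⟩
  have hβ' : ∀ p q : Fin 4, ∃ a : K, ∀ x : Fin 4 → E, β' (x p) (x q) =
      a * β' (x (min p q)) (x (max p q)) := by
    intro p q
    rcases le_total p q with hpq | hpq
    · exact ⟨1, fun x => by rw [min_eq_left hpq, max_eq_right hpq, one_mul]⟩
    · exact ⟨-1, fun x => by rw [min_eq_right hpq, max_eq_left hpq, h']; ring⟩
  obtain ⟨a, ha⟩ := hβ p q
  obtain ⟨b, hb⟩ := hβ' r s
  refine ⟨a * b, ?_⟩
  have hmul : ∀ x : Fin 4 → E, β (x p) (x q) * β' (x r) (x s) =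
      (a * b) * (β (x (min p q)) (x (max p q)) * β' (x (min r s)) (x (max r s))) := by
    intro x
    rw [ha, hb]
    ring
  have hcase : ∀ p q r s : Fin 4, p ≠ q → p ≠ r → p ≠ s → q ≠ r → q ≠ s → r ≠ s →
      (min p q = 0 ∧ max p q = 1 ∧ min r s = 2 ∧ max r s = 3) ∨
      (min p q = 2 ∧ max p q = 3 ∧ min r s = 0 ∧ max r s = 1) ∨
      (min p q = 0 ∧ max p q = 2 ∧ min r s = 1 ∧ max r s = 3) ∨
      (min p q = 1 ∧ max p q = 3 ∧ min r s = 0 ∧ max r s = 2) ∨
      (min p q = 0 ∧ max p q = 3 ∧ min r s = 1 ∧ max r s = 2) ∨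
      (min p q = 1 ∧ max p q = 2 ∧ min r s = 0 ∧ max r s = 3) := by decide
  rcases hcase p q r s h1 h2 h3 h4 h5 h6 with ⟨e1, e2, e3, e4⟩ | ⟨e1, e2, e3, e4⟩ |
    ⟨e1, e2, e3, e4⟩ | ⟨e1, e2, e3, e4⟩ | ⟨e1, e2, e3, e4⟩ | ⟨e1, e2, e3, e4⟩
  · rw [e1, e2, e3, e4] at hmul
    exact Or.inl hmul
  · rw [e1, e2, e3, e4] at hmul
    exact Or.inr (Or.inl hmul)
  · rw [e1, e2, e3, e4] at hmul
    exact Or.inr (Or.inr (Or.inl hmul))
  · rw [e1, e2, e3, e4] at hmul
    exact Or.inr (Or.inr (Or.inr (Or.inl hmul)))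
  · rw [e1, e2, e3, e4] at hmul
    exact Or.inr (Or.inr (Or.inr (Or.inr (Or.inl hmul))))
  · rw [e1, e2, e3, e4] at hmul
    exact Or.inr (Or.inr (Or.inr (Or.inr (Or.inr hmul))))

end four

variable {K Γ : Type} [Field K] [CharZero K] [IsAlgClosed K] [Group Γ]
  {ι : Type} {V : ι → Type} [∀ i, AddCommGroup (V i)] [∀ i, Module K (V i)]
  {χ : Γ →* Kˣ} {wt : ι → ℕ} {ρ : ∀ i, Representation K Γ (V i)}
  {B : ∀ i, V i →ₗ[K] V i →ₗ[K] K} {j : ℕ}

/-- The pairing on the sum. -/
noncomputable def be (B : ∀ i, V i →ₗ[K] V i →ₗ[K] K) (c : ι) (x y : ∀ i, V i) : K :=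
  B c (x c) (y c)

section single

variable [DecidableEq ι]

theorem be_single_ne {i k : ι} (hik : i ≠ k) (c : ι) (u : V i) (a : V k) :
    be B c (Pi.single i u) (Pi.single k a) = 0 := by
  rw [be]
  by_cases h : c = i
  · rw [Pi.single_eq_of_ne (i := k) (i' := c) (by rw [h]; exact hik), map_zero]
  · rw [Pi.single_eq_of_ne h, map_zero, LinearMap.zero_apply]

theorem be_single (i c : ι) (u v : V i) :
    be B c (Pi.single i u) (Pi.single i v) = (if c = i then 1 else 0) * B i u v := by
  rw [be]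
  by_cases h : c = i
  · subst h
    rw [Pi.single_eq_same, Pi.single_eq_same, if_pos rfl, one_mul]
  · rw [Pi.single_eq_of_ne h, Pi.single_eq_of_ne h, map_zero, if_neg h, zero_mul]

/-- The symmetrizations of the products of pairings. -/
theorem symm_ne (halt : ∀ i v, B i v v = 0) {f : MultilinearMap K (fun _ : Fin 4 => ∀ i, V i) K}
    (hf : IsProductOfPairings χ wt B (Representation.trivial K Γ K) ⊤ j f) {i k : ι}
    (hik : i ≠ k) (a b : V k) (u v : V i) :
    f ![Pi.single k a, Pi.single k b, Pi.single i u, Pi.single i v] +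
      f ![Pi.single k b, Pi.single k a, Pi.single i u, Pi.single i v] = 0 := by
  rw [IsProductOfPairings] at hf
  induction hf using Submodule.span_induction with
  | mem f hf =>
    obtain ⟨m, e, c, w, -, hx⟩ := hf
    have hm : m = 2 := by
      have h1 := Fintype.card_congr e
      simp only [Fintype.card_prod, Fintype.card_fin] at h1
      omega
    subst hm
    have hsk : ∀ c (x y : ∀ i, V i), be B c x y = - be B c y x := fun c x y =>
      Gk.swap (halt c) _ _
    have hne : ∀ {p q : Fin 2 × Fin 2}, p ≠ q → e p ≠ e q := fun h h' => h (e.injective h')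
    have h2 : ∀ x, f x = (be B (c 0) (x (e (0, 0))) (x (e (0, 1))) *
        be B (c 1) (x (e (1, 0))) (x (e (1, 1)))) * w := by
      intro x
      rw [hx, Fin.prod_univ_two]
      rfl
    obtain ⟨ε, h3⟩ := six (be B (c 0)) (be B (c 1)) (hsk _) (hsk _)
      (hne (p := (0, 0)) (q := (0, 1)) (by decide)) (hne (p := (0, 0)) (q := (1, 0)) (by decide))
      (hne (p := (0, 0)) (q := (1, 1)) (by decide)) (hne (p := (0, 1)) (q := (1, 0)) (by decide))
      (hne (p := (0, 1)) (q := (1, 1)) (by decide)) (hne (p := (1, 0)) (q := (1, 1)) (by decide))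
    have hz : ∀ (c : ι) (a : V k) (u : V i), be B c (Pi.single k a) (Pi.single i u) = 0 :=
      fun c a u => be_single_ne hik.symm c a u
    rw [h2, h2]
    rcases h3 with h3 | h3 | h3 | h3 | h3 | h3
    · rw [h3, h3]
      have h4 := hsk (c 0) (Pi.single k a) (Pi.single k b)
      simp only [Matrix.cons_val]
      rw [h4]
      ring
    · rw [h3, h3]
      have h4 := hsk (c 1) (Pi.single k a) (Pi.single k b)
      simp only [Matrix.cons_val]
      rw [h4]
      ring
    all_goals
      rw [h3, h3]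
      simp only [Matrix.cons_val, hz]
      ring
  | zero => rw [zero_apply, zero_apply, add_zero]
  | add f f' _ _ h1 h2 =>
    rw [add_apply, add_apply]
    linear_combination h1 + h2
  | smul c f _ h1 =>
    rw [smul_apply, smul_apply, smul_eq_mul, smul_eq_mul]
    linear_combination c * h1

theorem symm_eq (halt : ∀ i v, B i v v = 0) {f : MultilinearMap K (fun _ : Fin 4 => ∀ i, V i) K}
    (hf : IsProductOfPairings χ wt B (Representation.trivial K Γ K) ⊤ j f) (i : ι) :
    ∃ l : K, ∀ a b u v : V i,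
      f ![Pi.single i a, Pi.single i b, Pi.single i u, Pi.single i v] +
        f ![Pi.single i b, Pi.single i a, Pi.single i u, Pi.single i v] =
      l * (B i a u * B i b v + B i b u * B i a v) := by
  rw [IsProductOfPairings] at hf
  induction hf using Submodule.span_induction with
  | mem f hf =>
    obtain ⟨m, e, c, w, -, hx⟩ := hf
    have hm : m = 2 := by
      have h1 := Fintype.card_congr e
      simp only [Fintype.card_prod, Fintype.card_fin] at h1
      omega
    subst hm
    have hsk : ∀ c (x y : ∀ i, V i), be B c x y = - be B c y x := fun c x y =>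
      Gk.swap (halt c) _ _
    have hne : ∀ {p q : Fin 2 × Fin 2}, p ≠ q → e p ≠ e q := fun h h' => h (e.injective h')
    have h2 : ∀ x, f x = (be B (c 0) (x (e (0, 0))) (x (e (0, 1))) *
        be B (c 1) (x (e (1, 0))) (x (e (1, 1)))) * w := by
      intro x
      rw [hx, Fin.prod_univ_two]
      rfl
    obtain ⟨ε, h3⟩ := six (be B (c 0)) (be B (c 1)) (hsk _) (hsk _)
      (hne (p := (0, 0)) (q := (0, 1)) (by decide)) (hne (p := (0, 0)) (q := (1, 0)) (by decide))
      (hne (p := (0, 0)) (q := (1, 1)) (by decide)) (hne (p := (0, 1)) (q := (1, 0)) (by decide))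
      (hne (p := (0, 1)) (q := (1, 1)) (by decide)) (hne (p := (1, 0)) (q := (1, 1)) (by decide))
    have hs : ∀ a b : V i, B i a b = - B i b a := fun a b => Gk.swap (halt i) _ _
    rcases h3 with h3 | h3 | h3 | h3 | h3 | h3
    · refine ⟨0, fun a b u v => ?_⟩
      rw [h2, h2, h3, h3]
      simp only [Matrix.cons_val, be_single]
      rw [hs a b]
      ring
    · refine ⟨0, fun a b u v => ?_⟩
      rw [h2, h2, h3, h3]
      simp only [Matrix.cons_val, be_single]
      rw [hs a b]
      ring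
    all_goals
      refine ⟨ε * (if c 0 = i then 1 else 0) * (if c 1 = i then 1 else 0) * w,
        fun a b u v => ?_⟩
      rw [h2, h2, h3, h3]
      simp only [Matrix.cons_val, be_single]
      ring
  | zero => exact ⟨0, fun a b u v => by
      rw [zero_apply, zero_apply, add_zero, zero_mul]⟩
  | add f f' _ _ h1 h2 =>
    obtain ⟨l, h1⟩ := h1
    obtain ⟨l', h2⟩ := h2
    refine ⟨l + l', fun a b u v => ?_⟩
    rw [add_apply, add_apply]
    linear_combination h1 a b u v + h2 a b u v
  | smul c f _ h1 =>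
    obtain ⟨l, h1⟩ := h1
    refine ⟨c * l, fun a b u v => ?_⟩
    rw [smul_apply, smul_apply, smul_eq_mul, smul_eq_mul]
    linear_combination c * h1 a b u v

end single

end Pool.Agent.T9h39.Ct
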