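import Pool.Agent.R920.PL.Law

/-!
# Galois actions on the cohomology of all varieties, after finite extensions: definitions
-/

open CategoryTheory AlgebraicGeometry

universe u v w

namespace Pool.Agent.T9h39.GS

section Alg

variable {Γ : Type*} [Group Γ] {K : Type*} [Field K] {A : Type*} [Ring A] [Algebra K A]
  {B : Type*} [Ring B] [Algebra K B]

/-- An action of a subgroup of finite index of `Γ` on the algebra `A` (example: `Γ` is the Galois group
of a field `F`, and the cohomology `A` of a variety which is defined over a finite extension of `F`). -/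
structure PotAct (Γ : Type*) [Group Γ] (K : Type*) [Field K] (A : Type*) [Ring A]
    [Algebra K A] where
  /-- the subgroup -/
  dom : Subgroup Γ
  /-- the index is finite -/
  fin : dom.FiniteIndex
  /-- the action -/
  rho : dom →* (A ≃ₐ[K] A)

/-- The element `c` is multiplied by `χ g ^ j` by all `g` in a subgroup of finite index. -/
def PotSemi (χ : Γ →* Kˣ) (ρ : PotAct Γ K A) (j : ℕ) (c : A) : Prop :=
  ∃ Δ : Subgroup Γ, Δ.FiniteIndex ∧ ∃ h : Δ ≤ ρ.dom, ∀ g : Δ,
    ρ.rho ⟨g, h g.2⟩ c = (χ g : K) ^ j • c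

/-- The formal properties of the Galois action on the cohomology algebra `A` of a variety of
dimension `n`: it respects the subspaces `gr i`, an element `g` multiplies the orientation `tr` by
`χ g ^ n` (`χ` is the action on the Tate twists), and an element of `C j` (the class of a cycle of
codimension `j`) is multiplied by `χ g ^ j` by all `g` in a subgroup of finite index. -/
structure IsGaloisLike (χ : Γ →* Kˣ) (gr : ℕ → Submodule K A) (n : ℕ) (tr : A →ₗ[K] K)
    (C : ℕ → Set A) (ρ : PotAct Γ K A) : Prop where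
  gr_mem : ∀ g i, ∀ a ∈ gr i, ρ.rho g a ∈ gr i
  tr_act : ∀ g a, tr (ρ.rho g a) = (χ g : K) ^ n * tr a
  cl_fix : ∀ j, ∀ c ∈ C j, PotSemi χ ρ j c

/-- The homomorphism `f` commutes with all `g` in a subgroup of finite index. -/
def PotEquivariant (f : A →ₐ[K] B) (ρ : PotAct Γ K A) (σ : PotAct Γ K B) : Prop :=
  ∃ Δ : Subgroup Γ, Δ.FiniteIndex ∧ ∃ (h : Δ ≤ ρ.dom) (h' : Δ ≤ σ.dom), ∀ g : Δ, ∀ a,
    σ.rho ⟨g, h' g.2⟩ (f a) = f (ρ.rho ⟨g, h g.2⟩ a)

end Alg

open Pool.Agent.H914 Pool.Agent.H914.VarClass Pool.Agent.H914.VarClass.Obj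
  Pool.Agent.H914.WeilCohomology
open Pool.Agent.Y133.Half (dimOf)

variable {k : Type u} [Field k] {𝒱 : VarClass k} {ops : CycleOps 𝒱}

/-- The classes of the algebraic cycles of codimension `j` on `Y`. -/
def cycClasses (W : WeilCohomology.{u, v} ops) (Y : 𝒱.Obj) (j : ℕ) : Set (W.H Y) :=
  {c | ∃ z, Y.IsCyc j z ∧ W.cl Y z = c}

/-- Actions of subgroups of finite index of `Γ` on the cohomology of all varieties with the formal
properties of the action of the Galois group of a field over which all varieties, morphisms and cycles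
are defined after finite extensions; `χ` is the action on the Tate twists. -/
structure GaloisSystem (W : WeilCohomology.{u, v} ops) (Γ : Type w) [Group Γ]
    (χ : Γ →* W.Kˣ) where
  /-- the actions -/
  act : ∀ Y : 𝒱.Obj, PotAct Γ W.K (W.H Y)
  galois : ∀ Y, IsGaloisLike χ (W.gr Y) Y.dim (W.tr Y) (cycClasses W Y) (act Y)
  map : ∀ {X Y : 𝒱.Obj} (f : X ⟶ Y), PotEquivariant (W.map f) (act Y) (act X)

variable {W : WeilCohomology.{u, v} ops} {Γ : Type w} [Group Γ] {χ : Γ →* W.Kˣ}

/-- The class `c ∈ H^(2j)(Y)` is a Tate class: all `g` in a subgroup of finite index multiply it by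
`χ g ^ j`. -/
def IsTate (G : GaloisSystem W Γ χ) (Y : 𝒱.Obj) (j : ℕ) (c : W.H Y) : Prop :=
  c ∈ W.gr Y (2 * j) ∧ PotSemi χ (G.act Y) j c

/-- The Tate conjecture for `Y`: all Tate classes of degree `2 j` are combinations of classes of
algebraic cycles of codimension `j`, for all `j`. -/
def TateConj (G : GaloisSystem W Γ χ) (Y : 𝒱.Obj) : Prop :=
  ∀ j c, IsTate G Y j c → c ∈ Submodule.span W.K (cycClasses W Y j)

/-- The dimension of the space of the Tate classes of codimension `j` on `Y`. -/
noncomputable def tateRank (G : GaloisSystem W Γ χ) (Y : 𝒱.Obj) (j : ℕ) : ℕ :=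
  dimOf W {c | IsTate G Y j c}

/-- Some endomorphism of `X` acts on `H^i(X)` as multiplication by `(-1) ^ i`, for all `i` (for an
abelian variety the inversion has this property). -/
def HasInversion (W : WeilCohomology.{u, v} ops) (X : 𝒱.Obj) : Prop :=
  ∃ σ : X ⟶ X, ∀ i, ∀ c ∈ W.gr X i, W.map σ c = (-1 : W.K) ^ i • c

end Pool.Agent.T9h39.GS
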