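import Pool.Agent.T9h39.GalDefs
import Pool.Agent.W534.QOp

/-!
# Tate classes form a system of classes
-/

open CategoryTheory AlgebraicGeometry

universe u v w

namespace Pool.Agent.T9h39.GS

section Alg

variable {Γ : Type*} [Group Γ] {K : Type*} [Field K] {A : Type*} [Ring A] [Algebra K A]
  {B : Type*} [Ring B] [Algebra K B] {χ : Γ →* Kˣ}

lemma fi_inf {Δ Δ' : Subgroup Γ} (h : Δ.FiniteIndex) (h' : Δ'.FiniteIndex) :
    (Δ ⊓ Δ').FiniteIndex := by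
  have := h
  have := h'
  infer_instance

lemma PotSemi.add {ρ : PotAct Γ K A} {j : ℕ} {a b : A} (ha : PotSemi χ ρ j a)
    (hb : PotSemi χ ρ j b) : PotSemi χ ρ j (a + b) := by
  obtain ⟨Δ, hΔ, h, h1⟩ := ha
  obtain ⟨Δ', hΔ', h', h2⟩ := hb
  refine ⟨Δ ⊓ Δ', fi_inf hΔ hΔ', inf_le_left.trans h, fun g => ?_⟩
  rw [map_add, smul_add]
  exact congrArg₂ (· + ·) (h1 ⟨g, g.2.1⟩) (h2 ⟨g, g.2.2⟩)

lemma PotSemi.smul {ρ : PotAct Γ K A} {j : ℕ} (r : K) {a : A} (ha : PotSemi χ ρ j a) :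
    PotSemi χ ρ j (r • a) := by
  obtain ⟨Δ, hΔ, h, h1⟩ := ha
  refine ⟨Δ, hΔ, h, fun g => ?_⟩
  rw [map_smul, h1, smul_comm]

lemma PotSemi.zero {ρ : PotAct Γ K A} {j : ℕ} : PotSemi χ ρ j (0 : A) :=
  ⟨ρ.dom, ρ.fin, le_rfl, fun g => by rw [map_zero, smul_zero]⟩

lemma PotSemi.mul {ρ : PotAct Γ K A} {i j : ℕ} {a b : A} (ha : PotSemi χ ρ i a)
    (hb : PotSemi χ ρ j b) : PotSemi χ ρ (i + j) (a * b) := by
  obtain ⟨Δ, hΔ, h, h1⟩ := ha
  obtain ⟨Δ', hΔ', h', h2⟩ := hb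
  refine ⟨Δ ⊓ Δ', fi_inf hΔ hΔ', inf_le_left.trans h, fun g => ?_⟩
  have e1 : ρ.rho ⟨g, h g.2.1⟩ a = (χ g : K) ^ i • a := h1 ⟨g, g.2.1⟩
  have e2 : ρ.rho ⟨g, h g.2.1⟩ b = (χ g : K) ^ j • b := h2 ⟨g, g.2.2⟩
  have e3 : ρ.rho ⟨g, h g.2.1⟩ (a * b) = (χ g : K) ^ (i + j) • (a * b) := by
    rw [map_mul, e1, e2, smul_mul_smul_comm, pow_add]
  exact e3

lemma PotSemi.map {ρ : PotAct Γ K A} {σ : PotAct Γ K B} {f : A →ₐ[K] B}
    (hf : PotEquivariant f ρ σ) {j : ℕ} {a : A} (ha : PotSemi χ ρ j a) :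
    PotSemi χ σ j (f a) := by
  obtain ⟨Δ, hΔ, h, h1⟩ := ha
  obtain ⟨Δ', hΔ', h', h'', h2⟩ := hf
  refine ⟨Δ ⊓ Δ', fi_inf hΔ hΔ', inf_le_right.trans h'', fun g => ?_⟩
  have e1 : ρ.rho ⟨g, h g.2.1⟩ a = (χ g : K) ^ j • a := h1 ⟨g, g.2.1⟩
  have e2 : σ.rho ⟨g, h'' g.2.2⟩ (f a) = f (ρ.rho ⟨g, h g.2.1⟩ a) := h2 ⟨g, g.2.2⟩ a
  have e3 : σ.rho ⟨g, h'' g.2.2⟩ (f a) = (χ g : K) ^ j • f a := by
    rw [e2, e1, map_smul]
  exact e3

/-- Push-forwards. -/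
lemma PotSemi.push {ρ : PotAct Γ K A} {σ : PotAct Γ K B} {f : A →ₐ[K] B}
    (hf : PotEquivariant f ρ σ) {grA : ℕ → Submodule K A} {grB : ℕ → Submodule K B}
    {n m : ℕ} {trA : A →ₗ[K] K} {trB : B →ₗ[K] K} {CA : ℕ → Set A} {CB : ℕ → Set B}
    (hA : IsGaloisLike χ grA n trA CA ρ) (hB : IsGaloisLike χ grB m trB CB σ)
    (hnd : ∀ a : A, (∀ b, trA (a * b) = 0) → a = 0)
    {p : B →ₗ[K] A} (hp : ∀ b a, trA (p b * a) = trB (b * f a))
    {j l : ℕ} (hjl : l + m = j + n) {b : B} (hb : PotSemi χ σ j b) :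
    PotSemi χ ρ l (p b) := by
  obtain ⟨Δ, hΔ, h, h1⟩ := hb
  obtain ⟨Δ', hΔ', h', h'', h2⟩ := hf
  refine ⟨Δ ⊓ Δ', fi_inf hΔ hΔ', inf_le_right.trans h', fun g => ?_⟩
  have e1 : σ.rho ⟨g, h g.2.1⟩ b = (χ g : K) ^ j • b := h1 ⟨g, g.2.1⟩
  have e2 : ∀ a, σ.rho ⟨g, h g.2.1⟩ (f a) = f (ρ.rho ⟨g, h' g.2.2⟩ a) := fun a =>
    h2 ⟨g, g.2.2⟩ a
  have hχ : (χ g : K) ≠ 0 := Units.ne_zero _
  have e3 : ρ.rho ⟨g, h' g.2.2⟩ (p b) = (χ g : K) ^ l • p b := by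
    rw [← sub_eq_zero]
    apply hnd
    intro a
    obtain ⟨a', rfl⟩ := (ρ.rho ⟨(g : Γ), h' g.2.2⟩).surjective a
    rw [sub_mul, map_sub, ← map_mul, hA.tr_act, hp, smul_mul_assoc, map_smul, hp, ← e2]
    have e4 : trB (b * σ.rho ⟨g, h g.2.1⟩ (f a')) * (χ g : K) ^ j =
        (χ g : K) ^ m * trB (b * f a') := by
      have e8 := hB.tr_act ⟨g, h g.2.1⟩ (b * f a')
      rw [map_mul (σ.rho ⟨(g : Γ), h g.2.1⟩), e1, smul_mul_assoc, map_smul, smul_eq_mul] at e8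
      rw [mul_comm]
      exact e8
    have e5 : (χ g : K) ^ n * trB (b * f a') * (χ g : K) ^ j =
        (χ g : K) ^ l * trB (b * σ.rho ⟨g, h g.2.1⟩ (f a')) * (χ g : K) ^ j := by
      have e6 : (χ g : K) ^ l * trB (b * σ.rho ⟨g, h g.2.1⟩ (f a')) * (χ g : K) ^ j =
          (χ g : K) ^ l * ((χ g : K) ^ m * trB (b * f a')) := by
        rw [mul_assoc, e4]
      rw [e6, ← mul_assoc, ← pow_add, hjl, pow_add]
      ring
    have e7 := mul_right_cancel₀ (pow_ne_zero j hχ) e5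
    rw [smul_eq_mul, sub_eq_zero]
    exact e7
  exact e3

end Alg

open Pool.Agent.H914 Pool.Agent.H914.VarClass Pool.Agent.H914.VarClass.Obj
  Pool.Agent.H914.WeilCohomology Pool.Agent.H447 Pool.Agent.W534 Pool.Agent.Y163
open Pool.Agent.Y133.Half (dimOf ClassPred)

variable {k : Type u} [Field k] {𝒱 : VarClass k} {ops : CycleOps 𝒱}
  {W : WeilCohomology.{u, v} ops} {Γ : Type w} [Group Γ] {χ : Γ →* W.Kˣ}

/-- The Tate classes form a system of classes. -/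
noncomputable def tatePred (G : GaloisSystem W Γ χ) : ClassPred W where
  P Y j c := IsTate G Y j c
  gr h := h.1
  zero := ⟨Submodule.zero_mem _, PotSemi.zero⟩
  add h h' := ⟨Submodule.add_mem _ h.1 h'.1, h.2.add h'.2⟩
  smul r _ h := ⟨Submodule.smul_mem _ r h.1, h.2.smul r⟩
  cl {X j z} h := ⟨W.cl_mem h, (G.galois X).cl_fix j _ ⟨z, h, rfl⟩⟩
  mul {X i j a b} h h' := by
    refine ⟨?_, h.2.mul h'.2⟩
    rw [mul_add]
    exact W.mul_mem h.1 h'.1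
  map f _ _ h := ⟨W.map_mem f h.1, h.2.map (G.map f)⟩
  push {X Y} f {j l} hjl {a} h := by
    refine ⟨?_, PotSemi.push (G.map f) (G.galois Y) (G.galois X) W.nondeg (W.tr_push f) hjl h.2⟩
    have h1 := W.push_mem f h.1
    rwa [show (((2 * j : ℕ) : ℤ) + 2 * ((Y.dim : ℤ) - X.dim)) = ((2 * l : ℕ) : ℤ) by
      push_cast; omega, grZ_natCast] at h1

lemma tateRank_eq (G : GaloisSystem W Γ χ) (Y : 𝒱.Obj) (j : ℕ) :
    tateRank G Y j = Module.finrank W.K (Pool.Agent.R920.PL.deg (tatePred G) Y j) := by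
  have h1 : Submodule.span W.K {c | IsTate G Y j c} =
      Pool.Agent.R920.PL.deg (tatePred G) Y j :=
    Submodule.span_eq (Pool.Agent.R920.PL.deg (tatePred G) Y j)
  rw [tateRank, dimOf, Set.finrank, h1]

/-- Varieties with an inversion satisfy the sign conjecture. -/
theorem signStd_of_inversion {X : 𝒱.Obj} (h : HasInversion W X) : SignStd W X := by
  obtain ⟨σ, hσ⟩ := h
  obtain ⟨z, hz, hz1⟩ := (qop_pull (W := W) σ).exists_cyc (p := X.dim) (by simp)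
  obtain ⟨y, hy, hy1⟩ := (qop_pull (W := W) (𝟙 X)).exists_cyc (p := X.dim) (by simp)
  refine ⟨(1 / 2 : ℚ) • (y + z), (hy.add hz).smul _, fun j a ha => ?_⟩
  rw [cl_smul, corr_smul, map_add, corr_add, hz1, hy1, LinearMap.smul_apply,
    LinearMap.add_apply, AlgHom.toLinearMap_apply, AlgHom.toLinearMap_apply, W.map_id, hσ j a ha]
  by_cases hj : Even j
  · rw [if_pos hj, hj.neg_one_pow, one_smul, ← two_smul W.K a, smul_smul]
    norm_num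
  · rw [if_neg hj, (Nat.not_even_iff_odd.1 hj).neg_one_pow, neg_smul, one_smul, add_neg_cancel,
      smul_zero]

lemma spanCycles_eq (Y : 𝒱.Obj) (j : ℕ) :
    spanCycles W Y (j : ℤ) = Submodule.span W.K (cycClasses W Y j) := by
  apply le_antisymm
  · refine Submodule.span_le.2 ?_
    rintro _ ⟨p, hp, z, hz, rfl⟩
    obtain rfl : p = j := by exact_mod_cast hp
    exact Submodule.subset_span ⟨z, hz, rfl⟩
  · refine Submodule.span_le.2 ?_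
    rintro _ ⟨z, hz, rfl⟩
    exact Submodule.subset_span ⟨j, rfl, z, hz, rfl⟩

/-- **The effective index law for Tate classes.** -/
theorem effective_index (G : GaloisSystem W Γ χ) {X : 𝒱.Obj} (hX : HasInversion W X)
    {E : X.Cycles} (hE : X.IsCyc 1 E) (hbig : Big ops X E) (t r : ℕ → ℕ)
    (ht : ∀ n, t n = tateRank G (sq X n) ((n + 1) * X.dim))
    (hr : ∀ n, r n = numRank ops (sq X n) ((n + 1) * X.dim)) :
    (∀ n, 0 < r n ∧ r n ≤ t n ∧ t n ≤ (n + 2) ^ (Pool.Agent.R940.betti W X ^ 2) * r n) ∧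
    ∀ κ, (TateConj G (pw X κ) ∧ HomEqNum W (pw X κ)) ∨
      Pool.Agent.R940.NearlyTwice
        (Pool.Agent.R940.indexConst (Pool.Agent.R940.betti W X) κ) t r := by
  obtain rfl : t = fun n => tateRank G (sq X n) ((n + 1) * X.dim) := funext ht
  obtain rfl : r = fun n => numRank ops (sq X n) ((n + 1) * X.dim) := funext hr
  have h := Pool.Agent.R920.PL.pred_law (tatePred G) (signStd_of_inversion hX) hE hbig
  simp only [← tateRank_eq] at h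
  refine ⟨h.1, fun κ => ?_⟩
  rcases h.2 κ with h1 | h1
  · refine Or.inl ⟨fun j c hc => ?_, h1.2⟩
    rw [← spanCycles_eq]
    exact h1.1 j c hc
  · exact Or.inr h1

end Pool.Agent.T9h39.GS
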