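import Pool.Agent.T9h39.MtLie

/-!
# Decomposition of Tate tensors into eigenvectors of the operators which kill the four-linear ones
-/

set_option linter.unusedSectionVars false

namespace Pool.Agent.T9h39.Mt

open Module Finset Function Pool.Agent.TH125.Gal Pool.Agent.H204R3.GP Pool.Agent.T9h39.Ct

variable {K X Γ : Type} [Field K] [CharZero K] [IsAlgClosed K] [AddCommGroup X] [Module K X]
  [Group Γ] [FiniteDimensional K X]
  {R : Representation K Γ X} {χ : Γ →* K} {ω : X →ₗ[K] X →ₗ[K] K}

/-- The operator commutes with a subgroup of finite index, and with all operators which do so. -/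
def Good (R : Representation K Γ X) (y : Module.End K X) : Prop :=
  FI R y ∧ ∀ P, FI R P → y * P = P * y

section dec

variable (halt : ∀ v, ω v v = 0) (hnd : ∀ u, (∀ v, ω u v = 0) → u = 0)
  (hω : ∀ g u v, ω (R g u) (R g v) = χ g * ω u v) (hss : FiniteIndexSemisimple R)
  (hbig : ∀ P : Module.End K X, (∀ x ∈ LT R χ, P * x = x * P) → FI R P)

include halt hnd hω hss hbig

/-- **Operators which kill the four-linear Tate tensors** are sums of operators of the derived algebra
and of central operators. -/
theorem K4.dec {x : Module.End K X} (hx : K4 R χ x) :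
    ∃ x0 ∈ LT R χ, ∃ y, Good R y ∧ x = x0 + y := by
  have hN := LD_nondeg halt hnd hω hss (χ := χ)
  obtain ⟨P, hP1, hP2⟩ := exists_proj tau (LD R χ) hN
  have hPz : ∀ z ∈ LD R χ, P z = z := fun z hz =>
    proj_unique hN (hP1 z) hz fun w hw => hP2 _ _ hw
  have hPE : EqT R P := by
    refine ⟨⊤, inferInstance, fun g _ z => ?_⟩
    refine proj_unique hN (hP1 _) (LD_conj (hP1 z) g) fun w hw => ?_
    have h1 := LD_conj hw g⁻¹
    rw [inv_inv] at h1
    rw [hP2 _ _ hw, tau_conj, tau_conj, hP2 _ _ h1]
  have horth : ∀ x, ∀ z ∈ LD R χ, tau (x - P x) z = 0 := by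
    intro x z hz
    rw [map_sub, LinearMap.sub_apply, hP2 _ _ hz, sub_self]
  have hbrD : ∀ x, K4 R χ x → ∀ z ∈ LD R χ, x * z - z * x ∈ LD R χ := by
    intro x hx z hz
    have h1 := hx.comm halt hnd hω hPE z
    rw [hPz z hz] at h1
    rw [← h1]
    exact hP1 _
  have hc : ∀ x, K4 R χ x → ∀ z ∈ LD R χ, (x - P x) * z = z * (x - P x) := by
    intro x hx z hz
    refine sub_eq_zero.1 (hN _ ?_ fun w hw => ?_)
    · have h1 : (x - P x) * z - z * (x - P x) = (x * z - z * x) - (P x * z - z * P x) := by
        noncomm_ring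
      rw [h1]
      exact sub_mem (hbrD x hx z hz) (LD_bracket (LD_le (hP1 x)) (LD_le hz))
    · rw [tau_br]
      exact horth x _ (LD_bracket (LD_le hz) (LD_le hw))
  -- elements of `LT`
  have hw1 : ∀ w ∈ LT R χ, ∀ w' ∈ LT R χ, (w - P w) * w' = w' * (w - P w) := by
    intro w hw w' hw'
    have hw2 : w - P w ∈ LT R χ := sub_mem hw (LD_le (hP1 w))
    refine sub_eq_zero.1 (hN _ (LD_bracket hw2 hw') fun z hz => ?_)
    rw [tau_br]
    exact horth w _ (hbrD w' (LT_K4 hw') z hz)
  have hwFI : ∀ w ∈ LT R χ, FI R (w - P w) := fun w hw => hbig _ (hw1 w hw)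
  refine ⟨P x, LD_le (hP1 x), x - P x, ⟨hbig _ fun w hw => ?_, fun Q hQ => ?_⟩, by abel⟩
  · have e1 := hc x hx (P w) (hP1 w)
    have e2 := hx.comm_FI halt hnd hω (hwFI w hw)
    have e3 := hw1 w hw (P x) (LD_le (hP1 x))
    have h1 : (x - P x) * w - w * (x - P x) = ((x - P x) * P w - P w * (x - P x)) +
        (x * (w - P w) - (w - P w) * x) + ((w - P w) * P x - P x * (w - P w)) := by
      noncomm_ring
    refine sub_eq_zero.1 ?_
    rw [h1, e1, e2, e3, sub_self, sub_self, sub_self, add_zero, add_zero]
  · have e1 := hx.comm_FI halt hnd hω hQ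
    have e2 := (LT_K4 (LD_le (hP1 x))).comm_FI halt hnd hω hQ
    rw [sub_mul, mul_sub, e1, e2]

end dec

section ss

variable (hss : FiniteIndexSemisimple R)

include hss

/-- Good operators are diagonalizable. -/
theorem Good.semisimple {y : Module.End K X} (hy : Good R y) {c : K} {v : X}
    (h : (y - c • (1 : Module.End K X)) ((y - c • (1 : Module.End K X)) v) = 0) :
    (y - c • (1 : Module.End K X)) v = 0 := by
  obtain ⟨⟨Δ, hΔ, hyΔ⟩, hyc⟩ := hy
  have hU : ∀ s ∈ Δ, ∀ u ∈ LinearMap.ker (y - c • (1 : Module.End K X)),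
      R s u ∈ LinearMap.ker (y - c • (1 : Module.End K X)) := by
    intro s hs u hu
    rw [LinearMap.mem_ker] at hu ⊢
    have h1 : (y - c • (1 : Module.End K X)) * R s = R s * (y - c • (1 : Module.End K X)) := by
      rw [sub_mul, mul_sub, hyΔ s hs, smul_mul_assoc, mul_smul_comm, one_mul, mul_one]
    have h2 := congrArg (fun f : Module.End K X => f u) h1
    change (y - c • (1 : Module.End K X)) (R s u) = R s ((y - c • (1 : Module.End K X)) u) at h2
    rw [h2, hu, map_zero]
  obtain ⟨e, heF, heU, he⟩ := exists_e hss hΔ hU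
  have hye : (y - c • (1 : Module.End K X)) * e = e * (y - c • (1 : Module.End K X)) := by
    rw [sub_mul, mul_sub, hyc e heF, smul_mul_assoc, mul_smul_comm, one_mul, mul_one]
  have h1 : e ((y - c • (1 : Module.End K X)) v) = (y - c • (1 : Module.End K X)) v :=
    he _ (LinearMap.mem_ker.2 h)
  have h2 : (y - c • (1 : Module.End K X)) (e v) = e ((y - c • (1 : Module.End K X)) v) :=
    congrArg (fun f : Module.End K X => f v) hye
  rw [← h1, ← h2]
  exact LinearMap.mem_ker.1 (heU v)

/-- The spectral projections. -/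
theorem Good.spectral {y : Module.End K X} (hy : Good R y) :
    ∃ (s : Finset K) (p : K → Polynomial K), ∑ c ∈ s, Polynomial.aeval y (p c) = 1 ∧
      ∀ c ∈ s, y * Polynomial.aeval y (p c) = c • Polynomial.aeval y (p c) := by
  classical
  -- a finite set containing all eigenvalues
  have hfin : {c : K | y.HasEigenvalue c}.Finite := y.finite_hasEigenvalue
  let s : Finset K := insert 0 hfin.toFinset
  have hs0 : s.Nonempty := ⟨0, Finset.mem_insert_self _ _⟩
  let N : Polynomial K := ∏ c ∈ s, (Polynomial.X - Polynomial.C c)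
  have hN : Polynomial.aeval y N = 0 := by
    apply LinearMap.ext
    intro v
    have hv : v ∈ ⨆ μ, y.maxGenEigenspace μ := by
      rw [Module.End.iSup_maxGenEigenspace_eq_top]
      exact Submodule.mem_top
    induction hv using Submodule.iSup_induction' with
    | mem μ x hx =>
      obtain ⟨k, hk⟩ := (Module.End.mem_maxGenEigenspace _ _ _).1 hx
      have h1 : (y - μ • (1 : Module.End K X)) x = 0 := by
        induction k generalizing x with
        | zero =>
          rw [pow_zero, Module.End.one_apply] at hk
          rw [hk, map_zero]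
        | succ k ih =>
          rw [pow_succ, Module.End.mul_apply] at hk
          refine hy.semisimple hss ?_
          refine ih _ ?_ hk
          rw [Module.End.mem_maxGenEigenspace]
          exact ⟨k, hk⟩
      by_cases hx0 : x = 0
      · rw [hx0, map_zero, map_zero]
      · have hμ : y.HasEigenvalue μ := by
          refine Module.End.hasEigenvalue_of_hasEigenvector (x := x) ⟨?_, hx0⟩
          rw [Module.End.mem_eigenspace_iff]
          rw [LinearMap.sub_apply, LinearMap.smul_apply, Module.End.one_apply, sub_eq_zero] at h1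
          exact h1
        have hμs : μ ∈ s := Finset.mem_insert_of_mem (hfin.mem_toFinset.2 hμ)
        have h2 : N = (∏ c ∈ s.erase μ, (Polynomial.X - Polynomial.C c)) *
            (Polynomial.X - Polynomial.C μ) := (Finset.prod_erase_mul _ _ hμs).symm
        rw [h2, map_mul, Module.End.mul_apply, map_sub, Polynomial.aeval_X, Polynomial.aeval_C,
          Algebra.algebraMap_eq_smul_one, h1, map_zero, LinearMap.zero_apply]
    | zero => rw [map_zero, map_zero]
    | add x y _ _ h1 h2 => rw [map_add, h1, h2, map_add]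
  refine ⟨s, fun c => Lagrange.basis s id c, ?_, fun c hc => ?_⟩
  · rw [← map_sum, Lagrange.sum_basis (Set.injOn_id _) hs0, map_one]
  · have h1 : (Polynomial.X - Polynomial.C c) * Lagrange.basis s id c =
        Polynomial.C (∏ d ∈ s.erase c, (c - d)⁻¹) * N := by
      rw [Lagrange.basis]
      simp only [Lagrange.basisDivisor, id]
      rw [Finset.prod_mul_distrib, map_prod]
      rw [show N = (Polynomial.X - Polynomial.C c) *
        ∏ d ∈ s.erase c, (Polynomial.X - Polynomial.C d) from (Finset.mul_prod_erase _ _ hc).symm]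
      ring
    have h2 : (y - c • (1 : Module.End K X)) * Polynomial.aeval y (Lagrange.basis s id c) = 0 := by
      have h3 : y - c • (1 : Module.End K X) = Polynomial.aeval y
          (Polynomial.X - Polynomial.C c) := by
        rw [map_sub, Polynomial.aeval_X, Polynomial.aeval_C, Algebra.algebraMap_eq_smul_one]
      rw [h3, ← map_mul, h1, map_mul, hN, mul_zero]
    rw [sub_mul, smul_mul_assoc, one_mul, sub_eq_zero] at h2
    exact h2

/-- Derivation by an operator. -/
def der {m : ℕ} (x : Module.End K X) (φ : MultilinearMap K (fun _ : Fin m × Fin 2 => X) K)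
    (v : Fin m × Fin 2 → X) : K := ∑ k, φ (update v k (x (v k)))

/-- **Decomposition into eigenvectors.** -/
theorem eigen_dec (F : Finset (Module.End K X)) (hF : ∀ y ∈ F, Good R y) {m : ℕ}
    {φ : MultilinearMap K (fun _ : Fin m × Fin 2 => X) K} (hφ : IsTateTensor R χ m φ) :
    φ ∈ Submodule.span K {ψ : MultilinearMap K (fun _ : Fin m × Fin 2 => X) K |
      IsTateTensor R χ m ψ ∧ ∀ y ∈ F, ∃ a : K, ∀ v, der y ψ v = a * ψ v} := by
  classical
  induction F using Finset.induction_on with
  | empty =>
    exact Submodule.subset_span ⟨hφ, fun y hy => absurd hy (Finset.notMem_empty y)⟩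
  | insert y0 F hy0 ih =>
    have ih := ih fun y hy => hF y (Finset.mem_insert_of_mem hy)
    refine Submodule.span_le.2 ?_ ih
    rintro ψ ⟨hψ, hψF⟩
    have hg0 := hF y0 (Finset.mem_insert_self _ _)
    obtain ⟨s, p, hs1, hs2⟩ := hg0.spectral hss
    -- the components
    let comp : (Fin m × Fin 2 → K) → MultilinearMap K (fun _ : Fin m × Fin 2 => X) K :=
      fun c => ψ.compLinearMap fun k => Polynomial.aeval y0 (p (c k))
    have hsum : ψ = ∑ c ∈ Fintype.piFinset fun _ : Fin m × Fin 2 => s, comp c := by
      refine MultilinearMap.ext fun v => ?_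
      rw [_root_.sum_apply]
      have h1 : v = fun k => ∑ c ∈ s, Polynomial.aeval y0 (p c) (v k) := by
        funext k
        rw [← LinearMap.sum_apply, hs1, Module.End.one_apply]
      conv_lhs => rw [h1, MultilinearMap.map_sum_finset]
      rfl
    change ψ ∈ Submodule.span K _
    rw [hsum]
    refine Submodule.sum_mem _ fun c hc => Submodule.subset_span ?_
    rw [Fintype.mem_piFinset] at hc
    have hcomp : ∀ v, comp c v = ψ fun k => Polynomial.aeval y0 (p (c k)) (v k) := fun v => rfl
    refine ⟨?_, fun y hy => ?_⟩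
    · obtain ⟨Δ, hΔ, h⟩ := hψ
      obtain ⟨Δ', hΔ', h'⟩ := hg0.1
      have : (Δ ⊓ Δ').FiniteIndex := by
        have := hΔ
        have := hΔ'
        infer_instance
      refine ⟨Δ ⊓ Δ', this, fun g hg v => ?_⟩
      rw [hcomp, hcomp, ← h g hg.1]
      congr 1
      funext k
      have h1 : Commute y0 (R g) := h' g hg.2
      exact congrArg (fun f : Module.End K X => f (v k)) (aeval_comm h1 (p (c k)))
    · rcases Finset.mem_insert.1 hy with rfl | hy
      · refine ⟨∑ k, c k, fun v => ?_⟩
        rw [der, Finset.sum_mul]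
        refine Finset.sum_congr rfl fun k _ => ?_
        rw [hcomp, hcomp]
        have h1 : (fun l => Polynomial.aeval y (p (c l)) (update v k (y (v k)) l)) =
            update (fun l => Polynomial.aeval y (p (c l)) (v l)) k
              (c k • Polynomial.aeval y (p (c k)) (v k)) := by
          funext l
          by_cases hl : l = k
          · subst hl
            rw [update_self, update_self]
            have h2 := congrArg (fun f : Module.End K X => f (v l)) (hs2 (c l) (hc l))
            have h3 : Polynomial.aeval y (p (c l)) (y (v l)) =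
                y (Polynomial.aeval y (p (c l)) (v l)) :=
              congrArg (fun f : Module.End K X => f (v l)) (aeval_comm (Commute.refl y) (p (c l)))
            rw [h3]
            exact h2
          · rw [update_of_ne hl, update_of_ne hl]
        rw [h1, ψ.map_update_smul, smul_eq_mul]
        congr 2
        funext l
        by_cases hl : l = k
        · subst hl
          rw [update_self]
        · rw [update_of_ne hl]
      · obtain ⟨a, ha⟩ := hψF y hy
        refine ⟨a, fun v => ?_⟩
        rw [hcomp, ← ha, der, der]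
        refine Finset.sum_congr rfl fun k _ => ?_
        rw [hcomp]
        congr 1
        funext l
        by_cases hl : l = k
        · subst hl
          rw [update_self, update_self]
          have h1 : Commute y0 y := (hF y (Finset.mem_insert_of_mem hy)).2 y0 hg0.1 |>.symm
          exact congrArg (fun f : Module.End K X => f (v l)) (aeval_comm h1 (p (c l)))
        · rw [update_of_ne hl, update_of_ne hl]

end ss

/-- The operators which kill the four-linear Tate tensors. -/
def KM (R : Representation K Γ X) (χ : Γ →* K) : Submodule K (Module.End K X) where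
  carrier := {x | K4 R χ x}
  zero_mem' := by
    intro φ _ v
    refine Finset.sum_eq_zero fun j _ => ?_
    rw [LinearMap.zero_apply]
    exact φ.map_coord_zero j (update_self _ _ _)
  add_mem' := by
    intro x y hx hy φ hφ v
    simp only [LinearMap.add_apply, MultilinearMap.map_update_add, Finset.sum_add_distrib]
    rw [hx φ hφ v, hy φ hφ v, add_zero]
  smul_mem' := by
    intro c x hx φ hφ v
    simp only [LinearMap.smul_apply, MultilinearMap.map_update_smul]
    rw [← Finset.smul_sum, hx φ hφ v, smul_zero]

theorem der_add {m : ℕ} (x y : Module.End K X)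
    (φ : MultilinearMap K (fun _ : Fin m × Fin 2 => X) K) (v : Fin m × Fin 2 → X) :
    der (x + y) φ v = der x φ v + der y φ v := by
  rw [der, der, der]
  simp only [LinearMap.add_apply, MultilinearMap.map_update_add, Finset.sum_add_distrib]

theorem der_smul {m : ℕ} (c : K) (x : Module.End K X)
    (φ : MultilinearMap K (fun _ : Fin m × Fin 2 => X) K) (v : Fin m × Fin 2 → X) :
    der (c • x) φ v = c * der x φ v := by
  rw [der, der]
  simp only [LinearMap.smul_apply, MultilinearMap.map_update_smul]
  rw [← Finset.smul_sum, smul_eq_mul]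

/-- **Tate tensors are sums of Tate tensors which are eigenvectors of all the operators which kill the
four-linear Tate tensors.** -/
theorem main_dec (halt : ∀ v, ω v v = 0) (hnd : ∀ u, (∀ v, ω u v = 0) → u = 0)
    (hω : ∀ g u v, ω (R g u) (R g v) = χ g * ω u v) (hss : FiniteIndexSemisimple R)
    (hbig : ∀ P : Module.End K X, (∀ x ∈ LT R χ, P * x = x * P) → FI R P) {m : ℕ}
    {φ : MultilinearMap K (fun _ : Fin m × Fin 2 => X) K} (hφ : IsTateTensor R χ m φ) :
    φ ∈ Submodule.span K {ψ : MultilinearMap K (fun _ : Fin m × Fin 2 => X) K |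
      IsTateTensor R χ m ψ ∧ ∀ x, K4 R χ x → ∃ a : K, ∀ v, der x ψ v = a * ψ v} := by
  classical
  obtain ⟨t, ht⟩ := (IsNoetherian.noetherian (KM R χ))
  have hdec : ∀ x : Module.End K X, ∃ y, x ∈ t → Good R y ∧ x - y ∈ LT R χ := by
    intro x
    by_cases hx : x ∈ t
    · have h1 : K4 R χ x := by
        have h2 : x ∈ Submodule.span K (t : Set (Module.End K X)) := Submodule.subset_span hx
        rw [ht] at h2
        exact h2
      obtain ⟨x0, hx0, y, hy, hxy⟩ := h1.dec halt hnd hω hss hbig
      exact ⟨y, fun _ => ⟨hy, by rw [hxy, add_sub_cancel_right]; exact hx0⟩⟩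
    · exact ⟨0, fun h => absurd h hx⟩
  choose Y hY using hdec
  have h1 := eigen_dec hss (t.image Y) (fun y hy => by
    obtain ⟨x, hx, rfl⟩ := Finset.mem_image.1 hy
    exact (hY x hx).1) hφ
  refine Submodule.span_mono ?_ h1
  rintro ψ ⟨hψ, hψY⟩
  refine ⟨hψ, fun x hx => ?_⟩
  have hx' : x ∈ Submodule.span K (t : Set (Module.End K X)) := by rw [ht]; exact hx
  induction hx' using Submodule.span_induction with
  | mem x hxt =>
    obtain ⟨a, ha⟩ := hψY (Y x) (Finset.mem_image_of_mem _ hxt)
    refine ⟨a, fun v => ?_⟩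
    have h2 : x = (x - Y x) + Y x := by abel
    have h3 : der (x - Y x) ψ v = 0 := (hY x hxt).2 m ψ hψ v
    rw [h2, der_add, h3, zero_add, ha]
  | zero =>
    refine ⟨0, fun v => ?_⟩
    have h2 : (0 : Module.End K X) = (0 : K) • (0 : Module.End K X) := by rw [smul_zero]
    rw [h2, der_smul, zero_mul, zero_mul]
  | add x y hx1 hy1 h1 h2 =>
    rw [ht] at hx1 hy1
    obtain ⟨a, ha⟩ := h1 hx1
    obtain ⟨b, hb⟩ := h2 hy1
    exact ⟨a + b, fun v => by rw [der_add, ha, hb]; ring⟩
  | smul c x hx1 h1 =>
    rw [ht] at hx1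
    obtain ⟨a, ha⟩ := h1 hx1
    exact ⟨c * a, fun v => by rw [der_smul, ha]; ring⟩

end Pool.Agent.T9h39.Mt
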