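import Pool.Agent.TH118.MT.Defs
import Pool.Agent.TH125.Gal.Grp

/-!
# The Lie algebras of the operators which kill the Hodge tensors and the Tate tensors
-/

namespace Pool.Agent.T9h39.Mt

open Module Pool.Agent.H204R3.GP Pool.Agent.TH118.MT Pool.Agent.TH125.Gal

variable {K V Γ : Type} [Field K] [CharZero K] [AddCommGroup V] [Module K V] [Group Γ]
  {W T : Type} [AddCommGroup W] [Module ℚ W] [AddCommGroup T] [Module ℂ T]

/-- The operator `x` is in the Lie algebra of the Hodge group: it kills all the Hodge classes in the
tensor powers of `H¹`, acting as a derivation. -/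
def KillsHodge (per : W →+ T) (comp : W →+ V) (x : Module.End K V) : Prop :=
  ∀ (m : ℕ), ∀ φ ∈ HodgeSpan (k := K) per comp m, Kill x φ

/-- The operator `x` kills all the Tate classes in the tensor powers of `H¹`, acting as a
derivation. -/
def KillsTate (ρ : Representation K Γ V) (χ : Γ →* K) (x : Module.End K V) : Prop :=
  ∀ (m : ℕ) (φ : MultilinearMap K (fun _ : Fin m × Fin 2 => V) K), IsTateTensor ρ χ m φ → Kill x φ

/-- The operators which commute with all operators that kill the Tate classes commute with a
subgroup of finite index. -/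
def LieAlgebraLarge (ρ : Representation K Γ V) (χ : Γ →* K) : Prop :=
  ∀ P : Module.End K V, (∀ x, KillsTate ρ χ x → P * x = x * P) →
    ∃ Δ : Subgroup Γ, Δ.FiniteIndex ∧ ∀ g ∈ Δ, P * ρ g = ρ g * P

/-- The theorem on the centre (the centres of the `ℓ`-adic monodromy group and of the Mumford-Tate
group have the same identity component), in terms of Lie algebras: a Tate class that spans a line
which is stable under the Lie algebra of the Hodge group is a linear combination of Hodge classes. -/
def LieCentreTheorem (per : W →+ T) (comp : W →+ V) (ρ : Representation K Γ V) (χ : Γ →* K) :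
    Prop :=
  ∀ (m : ℕ) (φ : MultilinearMap K (fun _ : Fin m × Fin 2 => V) K), IsTateTensor ρ χ m φ →
    (∀ x : Module.End K V, KillsHodge per comp x →
      ∃ a : K, ∀ v, ∑ l, φ (Function.update v l (x (v l))) = a * φ v) →
    φ ∈ HodgeSpan (k := K) per comp m

/-- All Tate classes in `(H¹)^(⊗4)(2)` are linear combinations of Hodge classes. -/
def MumfordTateFour (per : W →+ T) (comp : W →+ V) (ρ : Representation K Γ V) (χ : Γ →* K) :
    Prop :=
  ∀ φ : MultilinearMap K (fun _ : Fin 2 × Fin 2 => V) K, IsTateTensor ρ χ 2 φ →
    φ ∈ HodgeSpan (k := K) per comp 2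

end Pool.Agent.T9h39.Mt
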