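import Pool.Agent.T9h39.MtDefs
import Pool.Agent.T9h39.MtDec

/-!
# The Mumford-Tate conjecture and the tensors of degree four
-/

set_option linter.unusedSectionVars false

namespace Pool.Agent.T9h39.Mt

open Module Finset Function Pool.Agent.TH125.Gal Pool.Agent.H204R3.GP Pool.Agent.TH118.MT

variable {K V Γ : Type} [Field K] [CharZero K] [IsAlgClosed K] [AddCommGroup V] [Module K V]
  [FiniteDimensional K V] [Group Γ]
  {W T : Type} [AddCommGroup W] [Module ℚ W] [AddCommGroup T] [Module ℂ T]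
  {per : W →+ T} {comp : W →+ V} {ρ : Representation K Γ V} {χ : Γ →* K}
  {ω : V →ₗ[K] V →ₗ[K] K}

theorem k4_of_hodge (h4 : MumfordTateFour per comp ρ χ) {x : Module.End K V}
    (hx : KillsHodge per comp x) : K4 ρ χ x := fun φ hφ => hx 2 φ (h4 φ hφ)

theorem derived (halt : ∀ v, ω v v = 0) (hnd : ∀ u, (∀ v, ω u v = 0) → u = 0)
    (hω : ∀ g u v, ω (ρ g u) (ρ g v) = χ g * ω u v) (hss : FiniteIndexSemisimple ρ)
    (hbig : LieAlgebraLarge ρ χ) (h4 : MumfordTateFour per comp ρ χ) {x y : Module.End K V}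
    (hx : KillsHodge per comp x) (hy : KillsHodge per comp y) :
    KillsTate ρ χ (x * y - y * x) := by
  obtain ⟨x0, hx0, x1, hx1, rfl⟩ := (k4_of_hodge h4 hx).dec halt hnd hω hss hbig
  obtain ⟨y0, hy0, y1, hy1, hyy⟩ := (k4_of_hodge h4 hy).dec halt hnd hω hss hbig
  have e1 : x1 * y = y * x1 :=
    ((k4_of_hodge h4 hy).comm_FI halt hnd hω hx1.1).symm
  have e2 : x0 * y1 = y1 * x0 := (LT_K4 hx0).comm_FI halt hnd hω hy1.1
  have h1 : (x0 + x1) * y - y * (x0 + x1) = x0 * y0 - y0 * x0 := by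
    have h2 : (x0 + x1) * y - y * (x0 + x1) = (x0 * y - y * x0) + (x1 * y - y * x1) := by
      noncomm_ring
    rw [h2, e1, sub_self, add_zero, hyy, mul_add, add_mul, e2]
    abel
  rw [h1]
  exact fun m φ hφ => LT_bracket hx0 hy0 m φ hφ

theorem mt_iff (halt : ∀ v, ω v v = 0) (hnd : ∀ u, (∀ v, ω u v = 0) → u = 0)
    (hω : ∀ g u v, ω (ρ g u) (ρ g v) = χ g * ω u v) (hss : FiniteIndexSemisimple ρ)
    (hbig : LieAlgebraLarge ρ χ) (hcen : LieCentreTheorem per comp ρ χ) :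
    MumfordTate per comp ρ χ ↔ MumfordTateFour per comp ρ χ := by
  refine ⟨fun h φ hφ => h 2 φ hφ, fun h4 m φ hφ => ?_⟩
  refine Submodule.span_le.2 ?_ (main_dec halt hnd hω hss hbig hφ)
  rintro ψ ⟨hψ, hx⟩
  exact hcen m ψ hψ fun x hxH => hx x (k4_of_hodge h4 hxH)

end Pool.Agent.T9h39.Mt
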