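import Pool.Agent.T9h39.CtLin
import Pool.Agent.TH118.MT.Defs
import Pool.Agent.TH125.Gal.Grp

/-!
# Operators which kill the four-linear Tate tensors
-/

set_option linter.unusedSectionVars false

namespace Pool.Agent.T9h39.Mt

open Module Finset Function Pool.Agent.TH125.Gal Pool.Agent.H204R3.GP

variable {K X Γ : Type} [Field K] [CharZero K] [AddCommGroup X] [Module K X] [Group Γ]

/-- The four-linear form. -/
noncomputable def qf (Q : X →ₗ[K] X →ₗ[K] X →ₗ[K] X →ₗ[K] K) :
    MultilinearMap K (fun _ : Fin 2 × Fin 2 => X) K where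
  toFun x := Q (x (0, 0)) (x (0, 1)) (x (1, 0)) (x (1, 1))
  map_update_add' := by
    intro inst x i a b
    have : inst = instDecidableEqProd := Subsingleton.elim _ _
    subst this
    fin_cases i <;> simp [Function.update]
  map_update_smul' := by
    intro inst x i a b
    have : inst = instDecidableEqProd := Subsingleton.elim _ _
    subst this
    fin_cases i <;> simp [Function.update]

theorem qf_apply (Q : X →ₗ[K] X →ₗ[K] X →ₗ[K] X →ₗ[K] K) (x : Fin 2 × Fin 2 → X) :
    qf Q x = Q (x (0, 0)) (x (0, 1)) (x (1, 0)) (x (1, 1)) := rfl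

/-- The variables. -/
def vars (a b c d : X) : Fin 2 × Fin 2 → X := fun k => ![![a, b], ![c, d]] k.1 k.2

theorem kill_qf {Q : X →ₗ[K] X →ₗ[K] X →ₗ[K] X →ₗ[K] K} {x : Module.End K X}
    (h : Kill x (qf Q)) (a b c d : X) :
    Q (x a) b c d + Q a (x b) c d + Q a b (x c) d + Q a b c (x d) = 0 := by
  have h1 := h (vars a b c d)
  rw [Fintype.sum_prod_type, Fin.sum_univ_two, Fin.sum_univ_two, Fin.sum_univ_two] at h1
  simp only [qf_apply, vars, Function.update, Matrix.cons_val_zero, Matrix.cons_val_one] at h1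
  simp at h1
  rw [← h1]
  ring

/-- The operator `x` kills the four-linear Tate tensors. -/
def K4 (R : Representation K Γ X) (χ : Γ →* K) (x : Module.End K X) : Prop :=
  ∀ φ : MultilinearMap K (fun _ : Fin 2 × Fin 2 => X) K, IsTateTensor R χ 2 φ → Kill x φ

/-- The map `T` is equivariant under a subgroup of finite index. -/
def EqT (R : Representation K Γ X) (T : Module.End K X →ₗ[K] Module.End K X) : Prop :=
  ∃ Δ : Subgroup Γ, Δ.FiniteIndex ∧ ∀ g ∈ Δ, ∀ Z, T (R g * Z * R g⁻¹) = R g * T Z * R g⁻¹

/-- The operator commutes with a subgroup of finite index. -/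
def FI (R : Representation K Γ X) (P : Module.End K X) : Prop :=
  ∃ Δ : Subgroup Γ, Δ.FiniteIndex ∧ ∀ g ∈ Δ, P * R g = R g * P

/-- Rank one operators. -/
noncomputable def ro (ω : X →ₗ[K] X →ₗ[K] K) : X →ₗ[K] X →ₗ[K] Module.End K X :=
  LinearMap.mk₂ K (fun x y => (ω y).smulRight x)
    (fun x x' y => by ext z; simp)
    (fun c x y => by ext z; simp only [LinearMap.smulRight_apply, LinearMap.smul_apply]; rw [smul_comm])
    (fun x y y' => by ext z; simp [add_smul])
    (fun c x y => by ext z; simp [mul_smul])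

theorem ro_apply (ω : X →ₗ[K] X →ₗ[K] K) (x y z : X) : ro ω x y z = ω y z • x := rfl

/-- The four-linear form of a map. -/
noncomputable def fT (ω : X →ₗ[K] X →ₗ[K] K) (T : Module.End K X →ₗ[K] Module.End K X) :
    X →ₗ[K] X →ₗ[K] X →ₗ[K] X →ₗ[K] K :=
  LinearMap.compr₂ (LinearMap.compr₂ (ro ω) T)
    { toFun := fun Z => ω ∘ₗ Z
      map_add' := fun Y Z => by ext x y; simp
      map_smul' := fun c Z => by ext x y; simp }

theorem fT_apply (ω : X →ₗ[K] X →ₗ[K] K) (T : Module.End K X →ₗ[K] Module.End K X)
    (a b c d : X) : fT ω T a b c d = ω (T (ro ω a b) c) d := rfl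

variable {R : Representation K Γ X} {χ : Γ →* K} {ω : X →ₗ[K] X →ₗ[K] K}

theorem R_inv (g : Γ) (x : X) : R g⁻¹ (R g x) = x := by
  rw [← Module.End.mul_apply, ← map_mul, inv_mul_cancel, map_one, Module.End.one_apply]

theorem R_inv' (g : Γ) (x : X) : R g (R g⁻¹ x) = x := by
  rw [← Module.End.mul_apply, ← map_mul, mul_inv_cancel, map_one, Module.End.one_apply]

variable (halt : ∀ v, ω v v = 0) (hnd : ∀ u, (∀ v, ω u v = 0) → u = 0)
  (hω : ∀ g u v, ω (R g u) (R g v) = χ g * ω u v)

include hω

theorem ro_conj (g : Γ) (x y : X) :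
    ro ω (R g x) (R g y) = χ g • (R g * ro ω x y * R g⁻¹) := by
  ext z
  simp only [LinearMap.smul_apply, Module.End.mul_apply, ro_apply, map_smul]
  rw [smul_smul, ← hω, R_inv']

/-- The product of the form with itself is a Tate tensor. -/
theorem tate_sq : IsTateTensor R χ 2
    (qf (ω.compr₂ (LinearMap.toSpanSingleton K (X →ₗ[K] X →ₗ[K] K) ω))) := by
  refine ⟨⊤, inferInstance, fun s _ v => ?_⟩
  simp only [qf_apply, LinearMap.compr₂_apply, LinearMap.toSpanSingleton_apply,
    LinearMap.smul_apply, smul_eq_mul]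
  rw [hω, hω]
  ring

theorem tate_fT {T : Module.End K X →ₗ[K] Module.End K X} (hT : EqT R T) :
    IsTateTensor R χ 2 (qf (fT ω T)) := by
  obtain ⟨Δ, hΔ, h⟩ := hT
  refine ⟨Δ, hΔ, fun s hs v => ?_⟩
  simp only [qf_apply, fT_apply]
  rw [ro_conj hω, map_smul, h s hs, LinearMap.smul_apply, map_smul, LinearMap.smul_apply,
    smul_eq_mul]
  simp only [Module.End.mul_apply, R_inv]
  rw [hω]
  ring

include hnd

/-- Operators which kill the four-linear Tate tensors are skew. -/
theorem K4.skew {x : Module.End K X} (hx : K4 R χ x) (u v : X) :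
    ω (x u) v + ω u (x v) = 0 := by
  have h1 := kill_qf (hx _ (tate_sq hω))
  simp only [LinearMap.compr₂_apply, LinearMap.toSpanSingleton_apply,
    LinearMap.smul_apply, smul_eq_mul] at h1
  by_cases h0 : ∃ c d, ω c d ≠ 0
  · obtain ⟨c, d, hcd⟩ := h0
    have h2 : ω (x c) d + ω c (x d) = 0 := by
      have h3 := h1 c d c d
      have h4 : (2 * ω c d) * (ω (x c) d + ω c (x d)) = 0 := by linear_combination h3
      exact (mul_eq_zero.1 h4).resolve_left (mul_ne_zero two_ne_zero hcd)
    have h3 := h1 u v c d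
    have h4 : (ω (x u) v + ω u (x v)) * ω c d = 0 := by
      linear_combination h3 - ω u v * h2
    exact (mul_eq_zero.1 h4).resolve_right hcd
  · push Not at h0
    rw [h0, h0, add_zero]

include halt

theorem span_ro [FiniteDimensional K X] (Z : Module.End K X) :
    Z ∈ Submodule.span K {Y | ∃ a b, Y = ro ω a b} := by
  classical
  have hsw : ∀ x y, ω x y = - ω y x := by
    intro x y
    have h1 := halt (x + y)
    rw [map_add, map_add, LinearMap.add_apply, LinearMap.add_apply, halt, halt, zero_add,
      add_zero] at h1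
    exact eq_neg_of_add_eq_zero_right h1
  have hnd' : LinearMap.BilinForm.Nondegenerate ω := by
    refine ⟨fun x hx => hnd x hx, fun x hx => hnd x fun y => ?_⟩
    rw [hsw, show ω y x = 0 from hx y, neg_zero]
  set e := Module.finBasis K X with he
  set f := LinearMap.BilinForm.dualBasis ω hnd' e with hf
  have h1 : ∀ k l, ω (f k) (e l) = if l = k then 1 else 0 := fun k l =>
    LinearMap.BilinForm.apply_dualBasis_left (B := ω) hnd' e k l
  have h2 : ∀ x, ∑ k, ω (f k) x • e k = x := by
    intro x
    have h3 : ∀ k, ω (f k) x = e.repr x k := by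
      intro k
      conv_lhs => rw [← e.sum_repr x]
      rw [map_sum, Finset.sum_eq_single k]
      · rw [map_smul, h1, if_pos rfl, smul_eq_mul, mul_one]
      · intro l _ hl
        rw [map_smul, h1, if_neg hl, smul_zero]
      · intro h
        exact absurd (Finset.mem_univ _) h
    rw [Finset.sum_congr rfl fun k _ => by rw [h3 k]]
    exact e.sum_repr x
  have h4 : Z = ∑ k, ro ω (Z (e k)) (f k) := by
    ext x
    rw [LinearMap.sum_apply]
    conv_lhs => rw [← h2 x, map_sum]
    exact Finset.sum_congr rfl fun k _ => by rw [map_smul, ro_apply]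
  rw [h4]
  exact Submodule.sum_mem _ fun k _ => Submodule.subset_span ⟨_, _, rfl⟩

/-- Operators which kill the four-linear Tate tensors commute with equivariant maps. -/
theorem K4.comm [FiniteDimensional K X] {x : Module.End K X} (hx : K4 R χ x)
    {T : Module.End K X →ₗ[K] Module.End K X} (hT : EqT R T) (Z : Module.End K X) :
    T (x * Z - Z * x) = x * T Z - T Z * x := by
  have hsk := hx.skew hnd hω
  have h0 : ∀ Z ∈ Submodule.span K {Y | ∃ a b, Y = ro ω a b},
      T (x * Z - Z * x) = x * T Z - T Z * x := by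
    intro Z hZ
    induction hZ using Submodule.span_induction with
    | mem Z hZ =>
      obtain ⟨a, b, rfl⟩ := hZ
      have h1 := kill_qf (hx _ (tate_fT hω hT)) a b
      simp only [fT_apply] at h1
      have h2 : x * ro ω a b - ro ω a b * x = ro ω (x a) b + ro ω a (x b) := by
        ext u
        simp only [LinearMap.sub_apply, LinearMap.add_apply, Module.End.mul_apply, ro_apply,
          map_smul]
        rw [eq_neg_of_add_eq_zero_left (hsk b u)]
        module
      rw [h2, map_add]
      ext u
      refine sub_eq_zero.1 (hnd _ fun v => ?_)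
      simp only [LinearMap.sub_apply, LinearMap.add_apply, Module.End.mul_apply, map_sub, map_add]
      linear_combination h1 u v - hsk (T (ro ω a b) u) v
    | zero => simp
    | add Y Z _ _ h1 h2 =>
      have h3 : x * (Y + Z) - (Y + Z) * x = (x * Y - Y * x) + (x * Z - Z * x) := by noncomm_ring
      rw [h3, map_add, h1, h2, map_add]
      noncomm_ring
    | smul c Z _ h1 =>
      have h3 : x * (c • Z) - (c • Z) * x = c • (x * Z - Z * x) := by
        rw [mul_smul_comm, smul_mul_assoc, smul_sub]
      rw [h3, map_smul, h1, map_smul, mul_smul_comm, smul_mul_assoc, smul_sub]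
  exact h0 Z (span_ro halt hnd hω Z)

/-- They commute with the operators which commute with a subgroup of finite index. -/
theorem K4.comm_FI [FiniteDimensional K X] {x : Module.End K X} (hx : K4 R χ x)
    {P : Module.End K X} (hP : FI R P) : x * P = P * x := by
  obtain ⟨Δ, hΔ, h⟩ := hP
  have hT : EqT R (LinearMap.mulRight K P) := by
    refine ⟨Δ, hΔ, fun g hg Z => ?_⟩
    rw [LinearMap.mulRight_apply, LinearMap.mulRight_apply]
    have h1 : R g⁻¹ * P = P * R g⁻¹ := by
      have h2 := h g⁻¹ (inv_mem hg)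
      exact h2.symm
    rw [mul_assoc, h1]
    simp only [mul_assoc]
  have h1 := hx.comm halt hnd hω hT 1
  rw [mul_one, one_mul, sub_self, map_zero, LinearMap.mulRight_apply, one_mul] at h1
  exact (sub_eq_zero.1 h1.symm)

end Pool.Agent.T9h39.Mt
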