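import Pool.Agent.T9h39.MtFour
import Pool.Agent.H204R3.GP.Defs

/-!
# The Lie algebra of the operators which kill all Tate tensors
-/

set_option linter.unusedSectionVars false

namespace Pool.Agent.T9h39.Mt

open Module Finset Function Pool.Agent.TH125.Gal Pool.Agent.H204R3.GP Pool.Agent.T9h39.Ct

variable {K X Γ : Type} [Field K] [CharZero K] [AddCommGroup X] [Module K X] [Group Γ]
  {R : Representation K Γ X} {χ : Γ →* K} {ω : X →ₗ[K] X →ₗ[K] K}

/-- The operators which kill all Tate tensors. -/
def LT (R : Representation K Γ X) (χ : Γ →* K) : Submodule K (Module.End K X) where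
  carrier := {x | ∀ (m : ℕ) (φ : MultilinearMap K (fun _ : Fin m × Fin 2 => X) K),
    IsTateTensor R χ m φ → Kill x φ}
  zero_mem' := by
    intro m φ _ v
    refine Finset.sum_eq_zero fun j _ => ?_
    rw [LinearMap.zero_apply]
    exact φ.map_coord_zero j (update_self _ _ _)
  add_mem' := by
    intro x y hx hy m φ hφ v
    simp only [LinearMap.add_apply, MultilinearMap.map_update_add, Finset.sum_add_distrib]
    rw [hx m φ hφ v, hy m φ hφ v, add_zero]
  smul_mem' := by
    intro c x hx m φ hφ v
    simp only [LinearMap.smul_apply, MultilinearMap.map_update_smul]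
    rw [← Finset.smul_sum, hx m φ hφ v, smul_zero]

theorem LT_K4 {x : Module.End K X} (hx : x ∈ LT R χ) : K4 R χ x := fun φ hφ => hx 2 φ hφ

theorem LT_bracket {x y : Module.End K X} (hx : x ∈ LT R χ) (hy : y ∈ LT R χ) :
    x * y - y * x ∈ LT R χ := fun m φ hφ => kill_bracket (hx m φ hφ) (hy m φ hφ)

theorem chi_inv (g : Γ) : χ g⁻¹ = (χ g)⁻¹ := by
  refine eq_inv_of_mul_eq_one_left ?_
  rw [← map_mul, inv_mul_cancel, map_one]

theorem chi_ne (g : Γ) : χ g ≠ 0 := by
  intro h
  have h1 : χ (g * g⁻¹) = 1 := by rw [mul_inv_cancel, map_one]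
  rw [map_mul, h, zero_mul] at h1
  exact zero_ne_one h1

theorem aeval_comm {z x : Module.End K X} (h : Commute z x) (p : Polynomial K) :
    Commute (Polynomial.aeval z p) x := by
  induction p using Polynomial.induction_on' with
  | add p q hp hq => rw [map_add]; exact hp.add_left hq
  | monomial n a =>
    rw [Polynomial.aeval_monomial]
    exact Commute.mul_left (Algebra.commutes a x) (h.pow_left n)

/-- Twisting. -/
theorem tate_twist {m : ℕ} {φ : MultilinearMap K (fun _ : Fin m × Fin 2 => X) K}
    (hφ : IsTateTensor R χ m φ) (g : Γ) :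
    IsTateTensor R χ m (φ.compLinearMap fun _ => R g) := by
  obtain ⟨Δ, hΔ, h⟩ := hφ
  refine ⟨Δ.comap (MulAut.conj g).toMonoidHom, ?_, fun s hs v => ?_⟩
  · exact ⟨by
      rw [Subgroup.index_comap_of_surjective]
      · exact hΔ.index_ne_zero
      · exact (MulAut.conj g).surjective⟩
  · have hs' : g * s * g⁻¹ ∈ Δ := hs
    have h2 := h _ hs' (fun j => R g (v j))
    change φ (fun j => R g (R s (v j))) = χ s ^ m * φ (fun j => R g (v j))
    have h3 : (fun j => R g (R s (v j))) = fun j => R (g * s * g⁻¹) (R g (v j)) := by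
      funext j
      rw [← Module.End.mul_apply, ← Module.End.mul_apply, ← map_mul, ← map_mul,
        inv_mul_cancel_right]
    rw [h3, h2]
    congr 2
    rw [map_mul, map_mul, chi_inv, mul_comm (χ g), mul_assoc,
      mul_inv_cancel₀ (chi_ne g), mul_one]

theorem LT_conj {x : Module.End K X} (hx : x ∈ LT R χ) (g : Γ) :
    R g * x * R g⁻¹ ∈ LT R χ := by
  intro m φ hφ v
  have h1 := hx m _ (tate_twist hφ g) (fun j => R g⁻¹ (v j))
  rw [← h1]
  refine Finset.sum_congr rfl fun j _ => ?_
  change _ = φ fun i => R g (update (fun j => R g⁻¹ (v j)) j (x (R g⁻¹ (v j))) i)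
  congr 1
  funext i
  by_cases hi : i = j
  · subst hi
    rw [update_self, update_self]
    rfl
  · rw [update_of_ne hi, update_of_ne hi, R_inv']

variable [FiniteDimensional K X] (halt : ∀ v, ω v v = 0) (hnd : ∀ u, (∀ v, ω u v = 0) → u = 0)
  (hω : ∀ g u v, ω (R g u) (R g v) = χ g * ω u v) (hss : FiniteIndexSemisimple R)

include hss

/-- Equivariant projections. -/
theorem exists_e {Δ : Subgroup Γ} (hΔ : Δ.FiniteIndex) {U : Submodule K X}
    (hU : ∀ s ∈ Δ, ∀ u ∈ U, R s u ∈ U) : ∃ e : Module.End K X, FI R e ∧ (∀ v, e v ∈ U) ∧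
      ∀ u ∈ U, e u = u := by
  obtain ⟨U', hU', hc⟩ := hss Δ hΔ U hU
  let e : Module.End K X := U.subtype ∘ₗ Submodule.projectionOnto U U' hc
  have he : ∀ u ∈ U, e u = u := fun u hu =>
    congrArg Subtype.val (Submodule.projectionOnto_apply_left hc ⟨u, hu⟩)
  have he' : ∀ u ∈ U', e u = 0 := fun u hu =>
    congrArg Subtype.val (Submodule.projectionOnto_apply_right hc ⟨u, hu⟩)
  refine ⟨e, ⟨Δ, hΔ, fun g hg => ?_⟩, fun v => Subtype.property _, he⟩
  ext v
  obtain ⟨u, hu, u', hu', rfl⟩ : ∃ u ∈ U, ∃ u' ∈ U', u + u' = v := by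
    have h1 : v ∈ U ⊔ U' := by rw [hc.sup_eq_top]; exact Submodule.mem_top
    exact Submodule.mem_sup.1 h1
  simp only [Module.End.mul_apply, map_add]
  rw [he _ (hU g hg u hu), he' _ (hU' g hg u' hu'), he u hu, he' u' hu', map_zero]

include halt hnd hω

/-- A stable Lie algebra of nilpotent operators in `LT` is zero. -/
theorem nil_zero {𝔫 : Submodule K (Module.End K X)} (hle : ∀ x ∈ 𝔫, x ∈ LT R χ)
    (hst : ∀ g, ∀ x ∈ 𝔫, R g * x * R g⁻¹ ∈ 𝔫) (hbr : ∀ x ∈ 𝔫, ∀ y ∈ 𝔫, x * y - y * x ∈ 𝔫)
    (hnil : ∀ x ∈ 𝔫, IsNilpotent x) : ∀ x ∈ 𝔫, x = 0 := by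
  let W : Submodule K X :=
    { carrier := {v | ∀ x ∈ 𝔫, x v = 0}
      zero_mem' := fun x _ => map_zero x
      add_mem' := by
        intro a b ha hb x hx
        rw [map_add, ha x hx, hb x hx, add_zero]
      smul_mem' := by
        intro c a ha x hx
        rw [map_smul, ha x hx, smul_zero] }
  have hWst : ∀ s ∈ (⊤ : Subgroup Γ), ∀ u ∈ W, R s u ∈ W := by
    intro g _ u hu x hx
    have h1 := hu _ (hst g⁻¹ x hx)
    rw [inv_inv, Module.End.mul_apply, Module.End.mul_apply] at h1
    have h2 := congrArg (R g) h1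
    rwa [R_inv', map_zero] at h2
  obtain ⟨e, heF, heW, he⟩ := exists_e hss (Δ := ⊤) inferInstance hWst
  -- the complement is the kernel of `e`
  let W' : Submodule K X := LinearMap.ker e
  have hW' : ∀ x ∈ 𝔫, ∀ v ∈ W', x v ∈ W' := by
    intro x hx v hv
    have h1 := (LT_K4 (hle x hx)).comm_FI halt hnd hω heF
    rw [LinearMap.mem_ker] at hv ⊢
    have h2 := congrArg (fun f : Module.End K X => f v) h1
    change x (e v) = e (x v) at h2
    rw [← h2, hv, map_zero]
  have hbot : W' = ⊥ := by
    by_contra hne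
    have hnt : Nontrivial W' := Submodule.nontrivial_iff_ne_bot.2 hne
    let L : Submodule K (Module.End K W') :=
      { carrier := {y | ∃ x ∈ 𝔫, ∀ w : W', ((y w : W') : X) = x w}
        zero_mem' := ⟨0, zero_mem _, fun w => rfl⟩
        add_mem' := by
          rintro y y' ⟨x, hx, h⟩ ⟨x', hx', h'⟩
          exact ⟨x + x', add_mem hx hx', fun w => by
            rw [LinearMap.add_apply, LinearMap.add_apply, ← h, ← h']; rfl⟩
        smul_mem' := by
          rintro c y ⟨x, hx, h⟩
          exact ⟨c • x, 𝔫.smul_mem c hx, fun w => by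
            rw [LinearMap.smul_apply, LinearMap.smul_apply, ← h]; rfl⟩ }
    obtain ⟨w, hw0, hw⟩ := common_kernel L
      (by
        rintro y ⟨x, hx, h⟩ y' ⟨x', hx', h'⟩
        refine ⟨x * x' - x' * x, hbr x hx x' hx', fun w => ?_⟩
        change ((y (y' w) : W') : X) - ((y' (y w) : W') : X) = x (x' w) - x' (x w)
        rw [h, h', h', h])
      (by
        rintro y ⟨x, hx, h⟩
        obtain ⟨k, hk⟩ := hnil x hx
        refine ⟨k, ?_⟩
        have h1 : ∀ k : ℕ, ∀ w : W', (((y ^ k) w : W') : X) = (x ^ k) w := by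
          intro k
          induction k with
          | zero => intro w; rfl
          | succ k ih =>
            intro w
            rw [pow_succ, Module.End.mul_apply, ih, pow_succ, Module.End.mul_apply, h]
        ext w
        rw [h1, hk]
        rfl)
    have h1 : (w : X) ∈ W := by
      intro x hx
      have h2 := hw (x.restrict (hW' x hx)) ⟨x, hx, fun w => rfl⟩
      exact congrArg Subtype.val h2
    have h2 : e w = w := he _ h1
    have h3 : e w = 0 := w.2
    exact hw0 (Subtype.ext (h2.symm.trans h3))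
  intro x hx
  ext v
  have h1 : v - e v ∈ W' := by
    rw [LinearMap.mem_ker, map_sub, he _ (heW v), sub_self]
  rw [hbot, Submodule.mem_bot, sub_eq_zero] at h1
  rw [h1]
  exact heW v x hx

/-- The derived algebra. -/
def LD (R : Representation K Γ X) (χ : Γ →* K) : Submodule K (Module.End K X) :=
  Submodule.span K {z | ∃ x ∈ LT R χ, ∃ y ∈ LT R χ, z = x * y - y * x}

omit halt hnd hω hss in
theorem LD_le {z : Module.End K X} (hz : z ∈ LD R χ) : z ∈ LT R χ := by
  refine Submodule.span_le.2 ?_ hz
  rintro _ ⟨x, hx, y, hy, rfl⟩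
  exact LT_bracket hx hy

omit halt hnd hω hss in
theorem LD_bracket {x y : Module.End K X} (hx : x ∈ LT R χ) (hy : y ∈ LT R χ) :
    x * y - y * x ∈ LD R χ := Submodule.subset_span ⟨x, hx, y, hy, rfl⟩

omit halt hnd hω hss in
theorem LD_conj {z : Module.End K X} (hz : z ∈ LD R χ) (g : Γ) :
    R g * z * R g⁻¹ ∈ LD R χ := by
  induction hz using Submodule.span_induction with
  | mem z hz =>
    obtain ⟨x, hx, y, hy, rfl⟩ := hz
    have h1 : R g * (x * y - y * x) * R g⁻¹ = (R g * x * R g⁻¹) * (R g * y * R g⁻¹) -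
        (R g * y * R g⁻¹) * (R g * x * R g⁻¹) := by
      ext v
      simp only [Module.End.mul_apply, LinearMap.sub_apply, R_inv, map_sub]
    rw [h1]
    exact LD_bracket (LT_conj hx g) (LT_conj hy g)
  | zero => rw [mul_zero, zero_mul]; exact zero_mem _
  | add x y _ _ h1 h2 => rw [mul_add, add_mul]; exact add_mem h1 h2
  | smul c x _ h1 =>
    rw [mul_smul_comm, smul_mul_assoc]
    exact Submodule.smul_mem _ _ h1

/-- The trace form. -/
noncomputable def tau : Module.End K X →ₗ[K] Module.End K X →ₗ[K] K :=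
  LinearMap.mk₂ K (fun x y => LinearMap.trace K X (x * y))
    (fun x x' y => by rw [add_mul, map_add])
    (fun c x y => by rw [smul_mul_assoc, map_smul])
    (fun x y y' => by rw [mul_add, map_add])
    (fun c x y => by rw [mul_smul_comm, map_smul])

omit [CharZero K] [FiniteDimensional K X] halt hnd hω hss in
theorem tau_apply (x y : Module.End K X) : tau x y = LinearMap.trace K X (x * y) := rfl

omit halt hnd hω hss in
theorem tau_symm (x y : Module.End K X) : tau x y = tau y x := by
  rw [tau_apply, tau_apply, LinearMap.trace_mul_comm]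

omit halt hnd hω hss in
/-- Invariance. -/
theorem tau_br (x y z : Module.End K X) : tau (x * y - y * x) z = tau x (y * z - z * y) := by
  have h1 : LinearMap.trace K X (y * x * z) = LinearMap.trace K X (x * z * y) := by
    rw [mul_assoc, LinearMap.trace_mul_comm]
  rw [tau_apply, tau_apply, sub_mul, mul_sub, map_sub, map_sub, h1, mul_assoc, mul_assoc]

omit halt hnd hω hss in
theorem tau_conj (g : Γ) (x y : Module.End K X) :
    tau (R g * x * R g⁻¹) y = tau x (R g⁻¹ * y * R g) := by
  rw [tau_apply, tau_apply, mul_assoc, mul_assoc, LinearMap.trace_mul_comm]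
  simp only [mul_assoc]

/-- **The trace form is nondegenerate on the derived algebra.** -/
theorem LD_nondeg [IsAlgClosed K] : ∀ x ∈ LD R χ, (∀ y ∈ LD R χ, tau x y = 0) → x = 0 := by
  -- the radical
  let rad : Submodule K (Module.End K X) :=
    { carrier := {x | x ∈ LD R χ ∧ ∀ y ∈ LD R χ, tau x y = 0}
      zero_mem' := ⟨zero_mem _, fun y _ => by rw [map_zero, LinearMap.zero_apply]⟩
      add_mem' := by
        rintro x y ⟨hx, hx'⟩ ⟨hy, hy'⟩
        refine ⟨add_mem hx hy, fun z hz => ?_⟩
        rw [map_add, LinearMap.add_apply, hx' z hz, hy' z hz, add_zero]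
      smul_mem' := by
        rintro c x ⟨hx, hx'⟩
        refine ⟨(LD R χ).smul_mem c hx, fun z hz => ?_⟩
        rw [map_smul, LinearMap.smul_apply, hx' z hz, smul_zero] }
  have hradst : ∀ g, ∀ x ∈ rad, R g * x * R g⁻¹ ∈ rad := by
    rintro g x ⟨hx, hx'⟩
    refine ⟨LD_conj hx g, fun y hy => ?_⟩
    rw [tau_conj]
    have h1 := LD_conj hy g⁻¹
    rw [inv_inv] at h1
    exact hx' _ h1
  -- it is an ideal of `LT`
  have hradid : ∀ y ∈ LT R χ, ∀ x ∈ rad, y * x - x * y ∈ rad := by
    rintro y hy x ⟨hx, hx'⟩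
    refine ⟨LD_bracket hy (LD_le hx), fun z hz => ?_⟩
    have h1 : y * x - x * y = -(x * y - y * x) := by abel
    rw [h1, map_neg, LinearMap.neg_apply, tau_br, hx' _ (LD_bracket hy (LD_le hz)), neg_zero]
  have hradle : ∀ x ∈ rad, x ∈ LT R χ := fun x hx => LD_le hx.1
  -- it is commutative
  have hcomm : ∀ x ∈ rad, ∀ y ∈ rad, x * y = y * x := by
    intro x hx y hy
    refine sub_eq_zero.1 (nil_zero halt hnd hω hss (𝔫 := Submodule.span K
      {z | ∃ x ∈ rad, ∃ y ∈ rad, z = x * y - y * x}) ?_ ?_ ?_ ?_ _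
        (Submodule.subset_span ⟨x, hx, y, hy, rfl⟩))
    · intro z hz
      refine Submodule.span_le.2 ?_ hz
      rintro _ ⟨x, hx, y, hy, rfl⟩
      exact LT_bracket (hradle x hx) (hradle y hy)
    · intro g z hz
      induction hz using Submodule.span_induction with
      | mem z hz =>
        obtain ⟨x, hx, y, hy, rfl⟩ := hz
        have h1 : R g * (x * y - y * x) * R g⁻¹ = (R g * x * R g⁻¹) * (R g * y * R g⁻¹) -
            (R g * y * R g⁻¹) * (R g * x * R g⁻¹) := by
          ext v
          simp only [Module.End.mul_apply, LinearMap.sub_apply, R_inv, map_sub]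
        rw [h1]
        exact Submodule.subset_span ⟨_, hradst g x hx, _, hradst g y hy, rfl⟩
      | zero => rw [mul_zero, zero_mul]; exact zero_mem _
      | add x y _ _ h1 h2 => rw [mul_add, add_mul]; exact add_mem h1 h2
      | smul c x _ h1 =>
        rw [mul_smul_comm, smul_mul_assoc]
        exact Submodule.smul_mem _ _ h1
    · intro z hz w hw
      have hle : Submodule.span K {z | ∃ x ∈ rad, ∃ y ∈ rad, z = x * y - y * x} ≤ rad := by
        rw [Submodule.span_le]
        rintro _ ⟨x, hx, y, hy, rfl⟩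
        exact hradid x (hradle x hx) y hy
      exact Submodule.subset_span ⟨z, hle hz, w, hle hw, rfl⟩
    · intro z hz
      exact nilp_of_form rad (fun x hx y hy => hradid x (hradle x hx) y hy)
        (fun x hx y hy => hx.2 y hy.1) hz
  -- it is central
  have hcent : ∀ y ∈ LT R χ, ∀ x ∈ rad, y * x = x * y := by
    intro y hy x hx
    refine sub_eq_zero.1 (nil_zero halt hnd hω hss (𝔫 := Submodule.span K
      {z | ∃ y ∈ LT R χ, ∃ x ∈ rad, z = y * x - x * y}) ?_ ?_ ?_ ?_ _
        (Submodule.subset_span ⟨y, hy, x, hx, rfl⟩))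
    · intro z hz
      refine Submodule.span_le.2 ?_ hz
      rintro _ ⟨x, hx, y, hy, rfl⟩
      exact LT_bracket hx (hradle y hy)
    · intro g z hz
      induction hz using Submodule.span_induction with
      | mem z hz =>
        obtain ⟨x, hx, y, hy, rfl⟩ := hz
        have h1 : R g * (x * y - y * x) * R g⁻¹ = (R g * x * R g⁻¹) * (R g * y * R g⁻¹) -
            (R g * y * R g⁻¹) * (R g * x * R g⁻¹) := by
          ext v
          simp only [Module.End.mul_apply, LinearMap.sub_apply, R_inv, map_sub]
        rw [h1]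
        exact Submodule.subset_span ⟨_, LT_conj hx g, _, hradst g y hy, rfl⟩
      | zero => rw [mul_zero, zero_mul]; exact zero_mem _
      | add x y _ _ h1 h2 => rw [mul_add, add_mul]; exact add_mem h1 h2
      | smul c x _ h1 =>
        rw [mul_smul_comm, smul_mul_assoc]
        exact Submodule.smul_mem _ _ h1
    · intro z hz w hw
      have hle : Submodule.span K {z | ∃ y ∈ LT R χ, ∃ x ∈ rad, z = y * x - x * y} ≤ rad := by
        rw [Submodule.span_le]
        rintro _ ⟨x, hx, y, hy, rfl⟩
        exact hradid x hx y hy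
      rw [hcomm z (hle hz) w (hle hw), sub_self]
      exact zero_mem _
    · intro z hz
      have hle : Submodule.span K {z | ∃ y ∈ LT R χ, ∃ x ∈ rad, z = y * x - x * y} ≤ rad := by
        rw [Submodule.span_le]
        rintro _ ⟨x, hx, y, hy, rfl⟩
        exact hradid x hx y hy
      -- traces of products with operators which commute with `rad`
      have htr : ∀ c : Module.End K X, (∀ x ∈ rad, c * x = x * c) →
          LinearMap.trace K X (z * c) = 0 := by
        intro c hc
        induction hz using Submodule.span_induction with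
        | mem z hz =>
          obtain ⟨y, hy, x, hx, rfl⟩ := hz
          have h1 : LinearMap.trace K X (y * x * c) = LinearMap.trace K X (x * y * c) := by
            rw [mul_assoc, ← hc x hx, ← mul_assoc, LinearMap.trace_mul_comm, ← mul_assoc]
          rw [sub_mul, map_sub, h1, sub_self]
        | zero => rw [zero_mul, map_zero]
        | add x y _ _ h1 h2 =>
          rw [add_mul, map_add, h1, h2, add_zero]
        | smul c' x _ h1 =>
          rw [smul_mul_assoc, map_smul, h1, smul_zero]
      refine nilp_of_trace fun p => htr _ fun x hx => ?_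
      have hzx : Commute z x := hcomm z (hle hz) x hx
      exact (hzx.mul_left (aeval_comm hzx p))
  intro x hx hx'
  refine nil_zero halt hnd hω hss (𝔫 := rad) hradle hradst (fun x hx y hy => ?_) (fun z hz => ?_)
    x ⟨hx, hx'⟩
  · rw [hcomm x hx y hy, sub_self]
    exact zero_mem _
  · have htr : ∀ z' ∈ LD R χ, ∀ c : Module.End K X, (∀ y ∈ LT R χ, y * c = c * y) →
        LinearMap.trace K X (z' * c) = 0 := by
      intro z' hz' c hc
      induction hz' using Submodule.span_induction with
      | mem z hz =>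
        obtain ⟨x, hx, y, hy, rfl⟩ := hz
        have h1 : LinearMap.trace K X (x * y * c) = LinearMap.trace K X (y * x * c) := by
          rw [mul_assoc, hc y hy, ← mul_assoc, LinearMap.trace_mul_comm, ← mul_assoc]
        rw [sub_mul, map_sub, h1, sub_self]
      | zero => rw [zero_mul, map_zero]
      | add x y _ _ h1 h2 =>
        rw [add_mul, map_add, h1, h2, add_zero]
      | smul c' x _ h1 =>
        rw [smul_mul_assoc, map_smul, h1, smul_zero]
    refine nilp_of_trace fun p => htr z hz.1 _ fun y hy => ?_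
    have hzy : Commute z y := (hcent y hy z hz).symm
    exact (hzy.mul_left (aeval_comm hzy p)).symm

end Pool.Agent.T9h39.Mt
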