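import Mathlib

set_option autoImplicit false

/-!
# Valuation rings compatible with the `q`-th powers

`Cmp q O`: all elements `1 + x`, `x` in the maximal ideal of `O`, are `q`-th powers.
-/

namespace Pool.Agent.T9h39.Nd

variable {L : Type} [Field L]

/-- `x` is a `q`-th power. -/
def Pw (q : ℕ) (x : L) : Prop := ∃ y : L, x = y ^ q

theorem Pw.mul {q : ℕ} {x y : L} (hx : Pw q x) (hy : Pw q y) : Pw q (x * y) := by
  obtain ⟨a, rfl⟩ := hx
  obtain ⟨b, rfl⟩ := hy
  exact ⟨a * b, (mul_pow a b q).symm⟩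

theorem Pw.inv {q : ℕ} {x : L} (hx : Pw q x) : Pw q x⁻¹ := by
  obtain ⟨a, rfl⟩ := hx
  exact ⟨a⁻¹, (inv_pow a q).symm⟩

theorem Pw.div {q : ℕ} {x y : L} (hx : Pw q x) (hy : Pw q y) : Pw q (x / y) := by
  rw [div_eq_mul_inv]
  exact hx.mul hy.inv

theorem Pw.one (q : ℕ) : Pw q (1 : L) := ⟨1, (one_pow q).symm⟩

theorem Pw.pow (q : ℕ) (x : L) : Pw q (x ^ q) := ⟨x, rfl⟩

theorem Pw.zero {q : ℕ} (hq : q ≠ 0) : Pw q (0 : L) := ⟨0, (zero_pow hq).symm⟩

theorem Pw.of_mul_left {q : ℕ} {x y : L} (hx : Pw q x) (hx0 : x ≠ 0) (h : Pw q (x * y)) :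
    Pw q y := by
  have := h.mul hx.inv
  rwa [mul_comm, ← mul_assoc, inv_mul_cancel₀ hx0, one_mul] at this

/-- The elements `1 + x` with `x` in the maximal ideal of `O` are `q`-th powers. -/
def Cmp (q : ℕ) (O : ValuationSubring L) : Prop := ∀ x : L, O.valuation x < 1 → Pw q (1 + x)

section basic

variable (O : ValuationSubring L)

theorem le_one {x : L} : O.valuation x ≤ 1 ↔ x ∈ O := O.valuation_le_one_iff x

theorem lt_one {x : L} : O.valuation x < 1 ↔ x = 0 ∨ x⁻¹ ∉ O := by
  by_cases hx : x = 0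
  · simp [hx]
  · rw [← le_one, map_inv₀]
    have h0 : 0 < O.valuation x := zero_lt_iff.2 ((map_ne_zero _).2 hx)
    rw [not_le, one_lt_inv₀ h0]
    simp [hx]

theorem val_one_add {x : L} (hx : O.valuation x < 1) : O.valuation (1 + x) = 1 := by
  rw [Valuation.map_add_eq_of_lt_left _ (by rwa [map_one]), map_one]

theorem ne_top_iff : O ≠ ⊤ ↔ ∃ x : L, x ∉ O := by
  constructor
  · intro h
    by_contra hcon
    push Not at hcon
    apply h
    rw [eq_top_iff]
    exact fun x _ => hcon x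
  · rintro ⟨x, hx⟩ rfl
    exact hx trivial

end basic

/-- A unit of the smaller ring is a unit of the larger one. -/
theorem val_eq_one_of_le {O O' : ValuationSubring L} (h : O' ≤ O) {x : L}
    (hx : O'.valuation x = 1) : O.valuation x = 1 := by
  have hx0 : x ≠ 0 := by
    rintro rfl
    rw [map_zero] at hx
    exact zero_ne_one hx
  have h1 : x ∈ O' := (le_one O').1 hx.le
  have h2 : x⁻¹ ∈ O' := (le_one O').1 (by rw [map_inv₀, hx, inv_one])
  refine le_antisymm ((le_one O).2 (h h1)) ?_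
  have h3 := (le_one O).2 (h h2)
  rw [map_inv₀] at h3
  exact (inv_le_one₀ (zero_lt_iff.2 ((map_ne_zero _).2 hx0))).1 h3

theorem val_lt_one_of_le {O O' : ValuationSubring L} (h : O' ≤ O) {x : L}
    (hx : O.valuation x < 1) : O'.valuation x < 1 := by
  rw [lt_one] at hx ⊢
  rcases hx with hx | hx
  · exact Or.inl hx
  · exact Or.inr fun h1 => hx (h h1)

/-! ### The join of two incomparable rings -/

/-- the join of two valuation rings -/
def jn (O₁ O₂ : ValuationSubring L) : ValuationSubring L where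
  carrier := {x | ∃ b ∈ O₂, b ≠ 0 ∧ x / b ∈ O₁}
  mul_mem' := by
    rintro x y ⟨b, hb, hb0, hx⟩ ⟨c, hc, hc0, hy⟩
    refine ⟨b * c, O₂.mul_mem _ _ hb hc, mul_ne_zero hb0 hc0, ?_⟩
    rw [mul_div_mul_comm]
    exact O₁.mul_mem _ _ hx hy
  one_mem' := ⟨1, O₂.one_mem, one_ne_zero, by rw [div_one]; exact O₁.one_mem⟩
  add_mem' := by
    rintro x y ⟨b, hb, hb0, hx⟩ ⟨c, hc, hc0, hy⟩
    rcases O₁.mem_or_inv_mem (b / c) with h | h
    · refine ⟨c, hc, hc0, ?_⟩
      have h1 : (x + y) / c = x / b * (b / c) + y / c := by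
        field_simp
      rw [h1]
      exact O₁.add_mem _ _ (O₁.mul_mem _ _ hx h) hy
    · refine ⟨b, hb, hb0, ?_⟩
      have h1 : (x + y) / b = x / b + y / c * (b / c)⁻¹ := by
        field_simp
      rw [h1]
      exact O₁.add_mem _ _ hx (O₁.mul_mem _ _ hy h)
  zero_mem' := ⟨1, O₂.one_mem, one_ne_zero, by rw [zero_div]; exact O₁.zero_mem⟩
  neg_mem' := by
    rintro x ⟨b, hb, hb0, hx⟩
    refine ⟨b, hb, hb0, ?_⟩
    rw [neg_div]
    exact O₁.neg_mem _ hx
  mem_or_inv_mem' := by
    intro x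
    rcases O₁.mem_or_inv_mem x with h | h
    · exact Or.inl ⟨1, O₂.one_mem, one_ne_zero, by rwa [div_one]⟩
    · exact Or.inr ⟨1, O₂.one_mem, one_ne_zero, by rwa [div_one]⟩

theorem mem_jn {O₁ O₂ : ValuationSubring L} {x : L} :
    x ∈ jn O₁ O₂ ↔ ∃ b ∈ O₂, b ≠ 0 ∧ x / b ∈ O₁ := Iff.rfl

theorem le_jn_left (O₁ O₂ : ValuationSubring L) : O₁ ≤ jn O₁ O₂ := fun x hx =>
  ⟨1, O₂.one_mem, one_ne_zero, by rwa [div_one]⟩

theorem le_jn_right (O₁ O₂ : ValuationSubring L) : O₂ ≤ jn O₁ O₂ := by
  intro x hx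
  by_cases hx0 : x = 0
  · rw [hx0]
    exact (jn O₁ O₂).zero_mem
  · exact ⟨x, hx, hx0, by rw [div_self hx0]; exact O₁.one_mem⟩

/-- The units of the join of two incomparable compatible rings are `q`-th powers. -/
theorem unit_jn {q : ℕ} {O₁ O₂ : ValuationSubring L} (h₁ : Cmp q O₁) (h₂ : Cmp q O₂)
    (h12 : ¬ O₁ ≤ O₂) (h21 : ¬ O₂ ≤ O₁) (x : L) (hx : (jn O₁ O₂).valuation x = 1) : Pw q x := by
  have hx0 : x ≠ 0 := by
    rintro rfl
    rw [map_zero] at hx
    exact zero_ne_one hx
  -- an element which is large for `O₁` and small for `O₂`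
  obtain ⟨s₀, hs1, hs2⟩ : ∃ s : L, 1 < O₁.valuation s ∧ O₂.valuation s < 1 := by
    obtain ⟨z, hz1, hz2⟩ := Set.not_subset.1 (show ¬ (O₁ : Set L) ⊆ O₂ from h12)
    obtain ⟨w, hw1, hw2⟩ := Set.not_subset.1 (show ¬ (O₂ : Set L) ⊆ O₁ from h21)
    have a1 : O₁.valuation z ≤ 1 := (le_one O₁).2 hz1
    have a2 : 1 < O₂.valuation z := not_le.1 fun h => hz2 ((le_one O₂).1 h)
    have b1 : O₂.valuation w ≤ 1 := (le_one O₂).2 hw1
    have b2 : 1 < O₁.valuation w := not_le.1 fun h => hw2 ((le_one O₁).1 h)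
    have hz0 : z ≠ 0 := by
      rintro rfl
      rw [map_zero] at a2
      exact absurd a2 (not_lt.2 zero_le_one)
    have p1 : 0 < O₁.valuation z := zero_lt_iff.2 ((map_ne_zero _).2 hz0)
    have p2 : 0 < O₂.valuation z := zero_lt_iff.2 ((map_ne_zero _).2 hz0)
    refine ⟨w / z, ?_, ?_⟩
    · rw [map_div₀, one_lt_div₀ p1]
      exact lt_of_le_of_lt a1 b2
    · rw [map_div₀, div_lt_one₀ p2]
      exact lt_of_le_of_lt b1 a2
  -- elements close to `x`
  have hxm : x ∈ jn O₁ O₂ := (le_one _).1 hx.le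
  have hxi : x⁻¹ ∈ jn O₁ O₂ := (le_one _).1 (by rw [map_inv₀, hx, inv_one])
  obtain ⟨b, hb, hb1, hbx⟩ : ∃ b : L, O₂.valuation b ≤ 1 ∧ 1 ≤ O₁.valuation b ∧
      O₁.valuation x⁻¹ ≤ O₁.valuation b := by
    obtain ⟨b, hb, hb0, hbx⟩ := hxi
    have p1 : 0 < O₁.valuation b := zero_lt_iff.2 ((map_ne_zero _).2 hb0)
    have h1 : O₁.valuation x⁻¹ ≤ O₁.valuation b := by
      have := (le_one O₁).2 hbx
      rwa [map_div₀, div_le_one₀ p1] at this
    by_cases h2 : 1 ≤ O₁.valuation b
    · exact ⟨b, (le_one O₂).2 hb, h2, h1⟩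
    · exact ⟨1, by rw [map_one], by rw [map_one], by
        rw [map_one]
        exact h1.trans (not_le.1 h2).le⟩
  obtain ⟨e, he, he1, hex⟩ : ∃ e : L, O₂.valuation e ≤ 1 ∧ 1 ≤ O₁.valuation e ∧
      O₂.valuation e ≤ O₂.valuation x⁻¹ := by
    obtain ⟨b, hb, hb0, hbx⟩ := hxm
    -- `x = a b`
    by_cases h2 : O₂.valuation x ≤ 1
    · refine ⟨1, by rw [map_one], by rw [map_one], ?_⟩
      rw [map_one, map_inv₀]
      exact (one_le_inv₀ (zero_lt_iff.2 ((map_ne_zero _).2 hx0))).2 h2
    · refine ⟨b / x, ?_, ?_, ?_⟩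
      · rw [map_div₀, div_le_one₀ (zero_lt_iff.2 ((map_ne_zero _).2 hx0))]
        exact ((le_one O₂).2 hb).trans (not_le.1 h2).le
      · have := (le_one O₁).2 hbx
        rw [map_div₀, div_le_one₀ (zero_lt_iff.2 ((map_ne_zero _).2 hb0))] at this
        rw [map_div₀, one_le_div₀ (zero_lt_iff.2 ((map_ne_zero _).2 hx0))]
        exact this
      · rw [map_div₀, map_inv₀, div_eq_mul_inv]
        exact mul_le_of_le_one_left' ((le_one O₂).2 hb)
  set s := b * e * s₀ with hs
  have hv1 : 1 < O₁.valuation s ∧ O₁.valuation x⁻¹ < O₁.valuation s := by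
    rw [hs, map_mul, map_mul]
    have h1 : O₁.valuation b ≤ O₁.valuation b * O₁.valuation e := le_mul_of_one_le_right' he1
    have h2 : O₁.valuation b * O₁.valuation e <
        O₁.valuation b * O₁.valuation e * O₁.valuation s₀ := by
      have h3 : 0 < O₁.valuation b * O₁.valuation e :=
        lt_of_lt_of_le zero_lt_one (hb1.trans h1)
      exact lt_mul_of_one_lt_right h3 hs1
    exact ⟨lt_of_le_of_lt (hb1.trans h1) h2, lt_of_le_of_lt (hbx.trans h1) h2⟩
  have hv2 : O₂.valuation s < 1 ∧ O₂.valuation s < O₂.valuation x⁻¹ := by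
    rw [hs, map_mul, map_mul]
    have h1 : O₂.valuation b * O₂.valuation e ≤ O₂.valuation e := mul_le_of_le_one_left' hb
    have he0 : 0 < O₂.valuation e := by
      refine zero_lt_iff.2 ((map_ne_zero _).2 ?_)
      rintro rfl
      rw [map_zero] at he1
      exact absurd he1 (not_le.2 zero_lt_one)
    have h3 : O₂.valuation b * O₂.valuation e * O₂.valuation s₀ <
        O₂.valuation e := by
      calc O₂.valuation b * O₂.valuation e * O₂.valuation s₀ ≤
          O₂.valuation e * O₂.valuation s₀ := mul_le_mul_left h1 _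
        _ < O₂.valuation e * 1 := mul_lt_mul_of_pos_left hs2 he0
        _ = _ := mul_one _
    exact ⟨lt_of_lt_of_le h3 he, lt_of_lt_of_le h3 hex⟩
  obtain ⟨hv1, hv1'⟩ := hv1
  obtain ⟨hv2, hv2'⟩ := hv2
  generalize hx' : x⁻¹ = x' at *
  have hx'0 : x' ≠ 0 := by rw [← hx']; exact inv_ne_zero hx0
  have ht1 : O₁.valuation (1 + s) = O₁.valuation s := by
    rw [add_comm, Valuation.map_add_eq_of_lt_left _ (by rwa [map_one])]
  have ht2 : O₂.valuation (1 + s) = 1 := val_one_add O₂ hv2
  have ht0 : 1 + s ≠ 0 := by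
    intro h
    rw [h, map_zero] at ht2
    exact zero_ne_one ht2
  have k1 : Pw q ((s + x') / (1 + s)) := by
    have h1 : (s + x') / (1 + s) = 1 + (x' - 1) / (1 + s) := by
      field_simp
      ring
    rw [h1]
    refine h₁ _ ?_
    rw [map_div₀, ht1, div_lt_one₀ (lt_trans zero_lt_one hv1)]
    refine lt_of_le_of_lt (Valuation.map_sub _ _ _) (max_lt hv1' ?_)
    rwa [map_one]
  have k2 : Pw q ((s + x') / (1 + s) / x') := by
    have h1 : (s + x') / (1 + s) / x' = 1 + (s / x' - s) / (1 + s) := by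
      field_simp
      ring
    rw [h1]
    refine h₂ _ ?_
    rw [map_div₀, ht2, div_one]
    refine lt_of_le_of_lt (Valuation.map_sub _ _ _) (max_lt ?_ hv2)
    rwa [map_div₀, div_lt_one₀ (zero_lt_iff.2 ((map_ne_zero _).2 hx'0))]
  have hn0 : s + x' ≠ 0 := by
    intro h
    have h1 : s = -x' := eq_neg_of_add_eq_zero_left h
    rw [h1, Valuation.map_neg] at hv2'
    exact lt_irrefl _ hv2'
  have k3 : Pw q x' := by
    have h1 : x' = (s + x') / (1 + s) / ((s + x') / (1 + s) / x') := by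
      field_simp
    rw [h1]
    exact k1.div k2
  rw [← inv_inv x, hx']
  exact k3.inv

/-- Compatible rings are comparable, if no valuation ring other than `L` has units which are all
`q`-th powers. -/
theorem comparable {q : ℕ} (hL : ∀ O : ValuationSubring L,
    (∀ x : L, O.valuation x = 1 → Pw q x) → ∀ x : L, Pw q x) {a : L} (ha : ¬ Pw q a) {O₁ O₂ : ValuationSubring L} (h₁ : Cmp q O₁)
    (h₂ : Cmp q O₂) : O₁ ≤ O₂ ∨ O₂ ≤ O₁ := by
  by_contra hcon
  push Not at hcon
  exact ha (hL (jn O₁ O₂) (unit_jn h₁ h₂ hcon.1 hcon.2) a)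

/-- The intersection of all compatible rings. -/
def fin {q : ℕ} (hc : ∀ O₁ O₂ : ValuationSubring L, Cmp q O₁ → Cmp q O₂ → O₁ ≤ O₂ ∨ O₂ ≤ O₁) :
    ValuationSubring L where
  carrier := {x | ∀ O : ValuationSubring L, Cmp q O → x ∈ O}
  mul_mem' hx hy O hO := O.mul_mem _ _ (hx O hO) (hy O hO)
  one_mem' O _ := O.one_mem
  add_mem' hx hy O hO := O.add_mem _ _ (hx O hO) (hy O hO)
  zero_mem' O _ := O.zero_mem
  neg_mem' hx O hO := O.neg_mem _ (hx O hO)
  mem_or_inv_mem' := by
    intro x
    by_contra hcon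
    push Not at hcon
    obtain ⟨h1, h2⟩ := hcon
    simp only [Set.mem_ofPred_eq, not_forall] at h1 h2
    obtain ⟨O₁, hO₁, h1⟩ := h1
    obtain ⟨O₂, hO₂, h2⟩ := h2
    rcases hc O₁ O₂ hO₁ hO₂ with h | h
    · rcases O₁.mem_or_inv_mem x with h3 | h3
      · exact h1 h3
      · exact h2 (h h3)
    · rcases O₂.mem_or_inv_mem x with h3 | h3
      · exact h1 (h h3)
      · exact h2 h3

theorem fin_le {q : ℕ}
    (hc : ∀ O₁ O₂ : ValuationSubring L, Cmp q O₁ → Cmp q O₂ → O₁ ≤ O₂ ∨ O₂ ≤ O₁)
    {O : ValuationSubring L} (hO : Cmp q O) : fin hc ≤ O := fun x hx => hx O hO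

theorem fin_cmp {q : ℕ}
    (hc : ∀ O₁ O₂ : ValuationSubring L, Cmp q O₁ → Cmp q O₂ → O₁ ≤ O₂ ∨ O₂ ≤ O₁) :
    Cmp q (fin hc) := by
  intro x hx
  rw [lt_one] at hx
  rcases hx with rfl | hx
  · rw [add_zero]
    exact Pw.one q
  · have h1 : ¬ ∀ O : ValuationSubring L, Cmp q O → x⁻¹ ∈ O := hx
    push Not at h1
    obtain ⟨O, hO, h1⟩ := h1
    exact hO x ((lt_one O).2 (Or.inr h1))

/-! ### The explicit ring -/

/-- The elements `x` which are not `q`-th powers, but `1 + x` is one. -/
def X1 (q : ℕ) (x : L) : Prop := ¬ Pw q x ∧ Pw q (1 + x)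

/-- The explicit definition of a valuation ring. -/
def XA (q : ℕ) (x : L) : Prop :=
  x = 0 ∨ X1 q x ∨ (Pw q x ∧ ∀ z : L, X1 q z → X1 q (x * z))

theorem x1_iff {q : ℕ} (hq : q ≠ 0) {O : ValuationSubring L}
    (hO : ∀ x, O.valuation x = 1 → Pw q x) (x : L) :
    X1 q x ↔ ¬ Pw q x ∧ O.valuation x < 1 := by
  unfold X1
  constructor
  · rintro ⟨h1, h2⟩
    refine ⟨h1, ?_⟩
    by_contra h3
    rcases (not_lt.1 h3).eq_or_lt with h4 | h4
    · exact h1 (hO x h4.symm)
    · have hx0 : x ≠ 0 := by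
        rintro rfl
        exact h1 (Pw.zero hq)
      have h5 : O.valuation x⁻¹ < 1 := by
        rw [map_inv₀]
        exact inv_lt_one_of_one_lt₀ h4
      have h6 : Pw q (1 + x⁻¹) := hO _ (val_one_add O h5)
      have h60 : 1 + x⁻¹ ≠ 0 := by
        intro h
        have := val_one_add O h5
        rw [h, map_zero] at this
        exact zero_ne_one this
      apply h1
      refine Pw.of_mul_left h6 h60 ?_
      have h7 : (1 + x⁻¹) * x = 1 + x := by
        field_simp
        ring
      rwa [h7]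
  · rintro ⟨h1, h2⟩
    exact ⟨h1, hO _ (val_one_add O h2)⟩

/-- If all units of some valuation ring are `q`-th powers, but not all elements, then the explicit
definition gives a valuation ring which is not `L`. -/
theorem explicit {q : ℕ} (hq : q ≠ 0) {O : ValuationSubring L}
    (hO : ∀ x, O.valuation x = 1 → Pw q x) {a : L} (ha : ¬ Pw q a) :
    ∃ A : ValuationSubring L, A ≠ ⊤ ∧ ∀ x, x ∈ A ↔ XA q x := by
  have hn0 : ∀ {z : L}, ¬ Pw q z → z ≠ 0 := by
    rintro z hz rfl
    exact hz (Pw.zero hq)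
  have hpos : ∀ {z : L}, z ≠ 0 → 0 < O.valuation z := fun h => zero_lt_iff.2 ((map_ne_zero _).2 h)
  have hinv : ∀ {z : L}, ¬ Pw q z → ¬ Pw q z⁻¹ := fun h h1 => h (by simpa using h1.inv)
  -- elements of the ring which are not powers
  have hsmall : ∀ x : L, (∀ z, ¬ Pw q z → O.valuation z < 1 → O.valuation (x * z) < 1) →
      ¬ Pw q x → O.valuation x < 1 := by
    intro x hx h1
    by_contra h3
    rcases (not_lt.1 h3).eq_or_lt with h4 | h4
    · exact h1 (hO x h4.symm)
    · have h5 := hx x⁻¹ (hinv h1) (by rw [map_inv₀]; exact inv_lt_one_of_one_lt₀ h4)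
      rw [mul_inv_cancel₀ (hn0 h1), map_one] at h5
      exact lt_irrefl _ h5
  let A : ValuationSubring L :=
    { carrier := {x | ∀ z, ¬ Pw q z → O.valuation z < 1 → O.valuation (x * z) < 1}
      mul_mem' := by
        intro x y hx hy z hz hz1
        have h1 : O.valuation (y * z) < 1 := hy z hz hz1
        have h2 : O.valuation (x * z) < 1 := hx z hz hz1
        by_cases hx0 : x = 0
        · rw [hx0, zero_mul, zero_mul, map_zero]
          exact zero_lt_one
        by_cases h3 : Pw q (y * z)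
        · by_cases h4 : Pw q (x * z)
          · -- `x` is not a power
            have hx1 : ¬ Pw q x := fun h => hz (Pw.of_mul_left h hx0 h4)
            have h5 := hsmall x hx hx1
            rw [mul_assoc, map_mul]
            exact mul_lt_one_of_nonneg_of_lt_one_left zero_le h5 h1.le
          · have h5 := hy (x * z) h4 h2
            have h6 : y * (x * z) = x * y * z := by ring
            rwa [h6] at h5
        · have h5 := hx (y * z) h3 h1
          rwa [← mul_assoc] at h5
      one_mem' := by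
        intro z _ hz
        rwa [one_mul]
      add_mem' := by
        intro x y hx hy z hz hz1
        rw [add_mul]
        exact lt_of_le_of_lt (Valuation.map_add _ _ _) (max_lt (hx z hz hz1) (hy z hz hz1))
      zero_mem' := by
        intro z _ _
        rw [zero_mul, map_zero]
        exact zero_lt_one
      neg_mem' := by
        intro x hx z hz hz1
        rw [neg_mul, Valuation.map_neg]
        exact hx z hz hz1
      mem_or_inv_mem' := by
        intro x
        by_contra hcon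
        push Not at hcon
        obtain ⟨h1, h2⟩ := hcon
        simp only [Set.mem_ofPred_eq, not_forall, not_lt] at h1 h2
        obtain ⟨z, hz, hz1, h1⟩ := h1
        obtain ⟨t, ht, ht1, h2⟩ := h2
        have h3 : O.valuation (x * z) * O.valuation (x⁻¹ * t) < 1 := by
          rw [← map_mul]
          have h4 : x * z * (x⁻¹ * t) = z * t := by
            have hx0 : x ≠ 0 := by
              rintro rfl
              rw [zero_mul, map_zero] at h1
              exact absurd h1 (not_le.2 zero_lt_one)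
            field_simp
          rw [h4, map_mul]
          exact mul_lt_one_of_nonneg_of_lt_one_left zero_le hz1 ht1.le
        exact absurd h3 (not_lt.2 (one_le_mul h1 h2)) }
  have hA : ∀ x : L, x ∈ A ↔ ∀ z, ¬ Pw q z → O.valuation z < 1 → O.valuation (x * z) < 1 :=
    fun x => Iff.rfl
  refine ⟨A, ?_, fun x => ?_⟩
  · obtain ⟨b, hb, hb1⟩ : ∃ b : L, ¬ Pw q b ∧ 1 < O.valuation b := by
      rcases lt_trichotomy (O.valuation a) 1 with h | h | h
      · refine ⟨a⁻¹, hinv ha, ?_⟩
        rw [map_inv₀]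
        exact (one_lt_inv₀ (hpos (hn0 ha))).2 h
      · exact absurd (hO a h) ha
      · exact ⟨a, ha, h⟩
    rw [ne_top_iff]
    refine ⟨b, fun h => ?_⟩
    exact absurd (hsmall b ((hA b).1 h) hb) (not_lt.2 hb1.le)
  · rw [hA]
    unfold XA
    by_cases hx0 : x = 0
    · simp [hx0]
    by_cases hx : Pw q x
    · have h1 : ¬ X1 q x := fun h => h.1 hx
      simp only [hx0, h1, hx, true_and, false_or]
      constructor
      · intro h z hz
        rw [x1_iff hq hO] at hz ⊢
        exact ⟨fun h2 => hz.1 (Pw.of_mul_left hx hx0 h2), h z hz.1 hz.2⟩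
      · intro h z hz hz1
        exact ((x1_iff hq hO _).1 (h z ((x1_iff hq hO z).2 ⟨hz, hz1⟩))).2
    · simp only [hx0, hx, false_and, or_false, false_or]
      rw [x1_iff hq hO]
      constructor
      · intro h
        exact ⟨hx, hsmall x h hx⟩
      · rintro ⟨-, h⟩ z _ hz1
        rw [map_mul]
        exact mul_lt_one_of_nonneg_of_lt_one_left zero_le h hz1.le

/-! ### The property of rings which have a compatible refinement -/

/-- The set `B` of the elements `x` of `O` such that `1 + x` and `1 + x / u` are units and `q`-th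
powers. -/
def BB (q : ℕ) (O : ValuationSubring L) (u x : L) : Prop :=
  O.valuation x ≤ 1 ∧ O.valuation (1 + x) = 1 ∧ Pw q (1 + x) ∧ O.valuation (u + x) = 1 ∧
    Pw q ((u + x) * u⁻¹)

/-- The property `S`. -/
def Sg (q : ℕ) (O : ValuationSubring L) : Prop :=
  ∃ u c : L, O.valuation u = 1 ∧ O.valuation c = 1 ∧ BB q O u c ∧
    (∀ x y : L, BB q O u x → BB q O u y → BB q O u (c * (x - y)) ∧ BB q O u (c * (x * y))) ∧
    (∀ x : L, O.valuation x ≤ 1 → ¬ BB q O u x → BB q O u (c * x⁻¹)) ∧
    ∀ x : L, BB q O u x → O.valuation (1 + c * x) = 1 ∧ Pw q (1 + c * x)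

theorem sg_of_lt {q : ℕ} {O O' : ValuationSubring L} (h : O' ≤ O) (hne : O' ≠ O) (hO' : Cmp q O')
    {u : L} (hu : O.valuation u = 1) (hu1 : ¬ Pw q u) : Sg q O := by
  -- we may suppose that `u` lies in the smaller ring
  wlog huO : O'.valuation u ≤ 1 with H
  · have hu0 : u ≠ 0 := by
      rintro rfl
      rw [map_zero] at hu
      exact zero_ne_one hu
    refine H h hne hO' (u := u⁻¹) (by rw [map_inv₀, hu, inv_one])
      (fun h1 => hu1 (by simpa using h1.inv)) ?_
    rw [map_inv₀]
    exact inv_le_one_of_one_le₀ (not_le.1 huO).le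
  have hu0 : u ≠ 0 := by
    rintro rfl
    rw [map_zero] at hu
    exact zero_ne_one hu
  have hup : 0 < O'.valuation u := zero_lt_iff.2 ((map_ne_zero _).2 hu0)
  -- a unit of `O` in the maximal ideal of `O'`
  obtain ⟨c₁, hc1, hc1'⟩ : ∃ c : L, O.valuation c = 1 ∧ O'.valuation c < 1 := by
    obtain ⟨z, hz1, hz2⟩ : ∃ z : L, z ∈ O ∧ z ∉ O' := by
      by_contra hcon
      push Not at hcon
      exact hne (le_antisymm h hcon)
    have h1 : O'.valuation z⁻¹ < 1 := by
      rw [lt_one, inv_inv]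
      exact Or.inr hz2
    refine ⟨z⁻¹, ?_, h1⟩
    have h2 : O.valuation z⁻¹ ≤ 1 := (le_one O).2 (h ((le_one O').1 h1.le))
    have h3 : O.valuation z ≤ 1 := (le_one O).2 hz1
    refine le_antisymm h2 ?_
    by_contra h4
    have h5 : O.valuation z * O.valuation z⁻¹ = 1 := by
      rw [← map_mul, mul_inv_cancel₀, map_one]
      rintro rfl
      exact hz2 O'.zero_mem
    have h6 := mul_lt_one_of_nonneg_of_lt_one_right h3 zero_le (not_le.1 h4)
    rw [h5] at h6
    exact lt_irrefl _ h6
  set c : L := c₁ * u ^ 2 with hc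
  have hcO : O.valuation c = 1 := by rw [hc, map_mul, map_pow, hc1, hu, one_pow, one_mul]
  have hcv : O'.valuation c < O'.valuation u := by
    rw [hc, map_mul, map_pow]
    calc O'.valuation c₁ * O'.valuation u ^ 2 < 1 * O'.valuation u ^ 2 :=
          mul_lt_mul_of_pos_right hc1' (pow_pos hup 2)
      _ = O'.valuation u * O'.valuation u := by rw [one_mul, sq]
      _ ≤ O'.valuation u * 1 := mul_le_mul_right huO _
      _ = _ := mul_one _
  have hc1v : O'.valuation c < 1 := lt_of_lt_of_le hcv huO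
  -- small elements
  have hB1 : ∀ x : L, O.valuation x ≤ 1 → O'.valuation x < O'.valuation u → BB q O u x := by
    intro x hx hxu
    have h1 : O'.valuation x < 1 := lt_of_lt_of_le hxu huO
    have h2 : O'.valuation (x / u) < 1 := by
      rwa [map_div₀, div_lt_one₀ hup]
    have h3 : (u + x) * u⁻¹ = 1 + x / u := by
      field_simp
    have h4 : u + x = u * (1 + x / u) := by
      field_simp
    refine ⟨hx, val_eq_one_of_le h (val_one_add O' h1), hO' x h1, ?_, ?_⟩
    · rw [h4, map_mul, hu, one_mul]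
      exact val_eq_one_of_le h (val_one_add O' h2)
    · rw [h3]
      exact hO' _ h2
  -- the set lies in `O'`
  have hB2 : ∀ x : L, BB q O u x → O'.valuation x ≤ 1 := by
    rintro x ⟨-, -, h3, -, h5⟩
    by_contra hcon
    rw [not_le] at hcon
    have hx0 : x ≠ 0 := by
      rintro rfl
      rw [map_zero] at hcon
      exact absurd hcon (not_lt.2 zero_le_one)
    have h6 : O'.valuation x⁻¹ < 1 := by
      rw [map_inv₀]
      exact inv_lt_one_of_one_lt₀ hcon
    have h7 : O'.valuation (u / x) < 1 := by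
      rw [map_div₀, div_lt_one₀ (lt_trans zero_lt_one hcon)]
      exact lt_of_le_of_lt huO hcon
    have h8 : Pw q x := by
      have h9 : 1 + x = (1 + x⁻¹) * x := by
        field_simp
        ring
      rw [h9] at h3
      refine Pw.of_mul_left (hO' _ h6) ?_ h3
      intro h
      have := val_one_add O' h6
      rw [h, map_zero] at this
      exact zero_ne_one this
    apply hu1
    have h9 : (u + x) * u⁻¹ = ((1 + u / x) * x) * u⁻¹ := by
      field_simp
      ring
    rw [h9] at h5
    have h10 : Pw q ((1 + u / x) * x) := (hO' _ h7).mul h8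
    have h11 : (1 + u / x) * x ≠ 0 := by
      refine mul_ne_zero ?_ hx0
      intro h
      have := val_one_add O' h7
      rw [h, map_zero] at this
      exact zero_ne_one this
    simpa using (Pw.of_mul_left h10 h11 h5).inv
  refine ⟨u, c, hu, hcO, hB1 c hcO.le hcv, fun x y hx hy => ⟨?_, ?_⟩, fun x hx hxB => ?_,
    fun x hx => ?_⟩
  · apply hB1
    · rw [map_mul, hcO, one_mul]
      exact (Valuation.map_sub _ _ _).trans (max_le hx.1 hy.1)
    · rw [map_mul]
      refine lt_of_le_of_lt (mul_le_of_le_one_right' ?_) hcv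
      exact (Valuation.map_sub _ _ _).trans (max_le (hB2 x hx) (hB2 y hy))
  · apply hB1
    · rw [map_mul, hcO, one_mul, map_mul]
      exact mul_le_one' hx.1 hy.1
    · rw [map_mul, map_mul O'.valuation x y]
      exact lt_of_le_of_lt (mul_le_of_le_one_right' (mul_le_one' (hB2 x hx) (hB2 y hy))) hcv
  · have h1 : O'.valuation u ≤ O'.valuation x := by
      by_contra h2
      exact hxB (hB1 x hx (not_le.1 h2))
    have hxp : 0 < O'.valuation x := lt_of_lt_of_le hup h1
    have hx1 : O.valuation x = 1 := by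
      refine le_antisymm hx ?_
      by_contra h2
      rw [not_le] at h2
      have h3 : O.valuation (x / u) < 1 := by rwa [map_div₀, hu, div_one]
      have h4 := val_lt_one_of_le h h3
      rw [map_div₀, div_lt_one₀ hup] at h4
      exact absurd h4 (not_lt.2 h1)
    apply hB1
    · rw [map_mul, map_inv₀, hx1, hcO, inv_one, one_mul]
    · rw [map_mul, map_inv₀, hc, map_mul, map_pow]
      calc O'.valuation c₁ * O'.valuation u ^ 2 * (O'.valuation x)⁻¹ ≤
          O'.valuation c₁ * O'.valuation u ^ 2 * (O'.valuation u)⁻¹ := by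
            refine mul_le_mul_right ?_ _
            exact inv_anti₀ hup h1
        _ = O'.valuation c₁ * O'.valuation u := by
            rw [sq, mul_assoc, mul_assoc, mul_inv_cancel₀ hup.ne', mul_one]
        _ < 1 * O'.valuation u := mul_lt_mul_of_pos_right hc1' hup
        _ = _ := one_mul _
  · have h1 : O'.valuation (c * x) < 1 := by
      rw [map_mul]
      exact mul_lt_one_of_nonneg_of_lt_one_left zero_le hc1v (hB2 x hx)
    exact ⟨val_eq_one_of_le h (val_one_add O' h1), hO' _ h1⟩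

end Pool.Agent.T9h39.Nd
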