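import Pool.Agent.T9h39.Nd9

set_option autoImplicit false

/-!
# Residue fields of dimension greater than one
-/

namespace Pool.Agent.T9h39.Nd

open FirstOrder FirstOrder.Language FirstOrder.Ring Pool.Agent.W882.Nip3 Pool.Agent.R492.DV
open Pool.Agent.N616.NH Pool.Agent.N616.NV Pool.Agent.N616.NV.PB_ Pool.Agent.N616.NV.Pla_

/-- Primitive elements. -/
theorem prim (F : Type) [Field F] (M : Type) [Field M] [Algebra F M] [FiniteDimensional F M]
    [Algebra.IsSeparable F M] (d : ℕ) (hd : Module.finrank F M = d) :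
    ∃ (c : Fin d → F) (T : M), ev d T c = 0 ∧
      LinearIndependent F (fun k : Fin d => T ^ (k : ℕ)) := by
  obtain ⟨θ, hθ⟩ := Field.exists_primitive_element F M
  have hint : IsIntegral F θ := Algebra.IsIntegral.isIntegral θ
  have hdeg : (minpoly F θ).natDegree = d := by
    rw [← hd]
    rw [Field.primitive_element_iff_minpoly_natDegree_eq] at hθ
    exact hθ
  have hmon : (minpoly F θ).Monic := minpoly.monic hint
  have h0 : ev d θ (lowCoeff d (minpoly F θ)) = 0 := by
    rw [ev_lowCoeff hmon hdeg, minpoly.aeval]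
  have hli : LinearIndependent F (fun k : Fin d => θ ^ (k : ℕ)) := by
    have := linearIndependent_pow (K := F) θ
    subst hdeg
    exact this
  exact ⟨_, θ, h0, hli⟩

/-- Valuation rings with a residue field of dimension greater than one are bad, at every scale. -/
theorem bad_of_res (K : Type) [Field K] (O : ValuationSubring K) (D : ℕ)
    (hD : ¬ DimLeOneUpTo (IsLocalRing.ResidueField O) D) (δ : K) (hδ0 : δ ≠ 0)
    (hδ : O.valuation δ < 1) : ∃ e d : ℕ, BadAt O δ e d ∧ 0 < d := by
  classical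
  obtain ⟨e', d', M, _, _, hfin, hsep, hrank, L, _, _, hfinL, hsepL, hrankL, ξ₀, hξ0, hξ⟩ :=
    exists_bad' hD
  set e : ℕ := (e' : ℕ) with he
  set d : ℕ := (d' : ℕ) with hd
  have hdpos : 0 < d := by
    rw [← hrankL]
    exact Module.finrank_pos
  let ψ : O →+* IsLocalRing.ResidueField O := IsLocalRing.residue O
  have hψs : Function.Surjective ψ := IsLocalRing.residue_surjective
  have hψ : ∀ x : O, ψ x ≠ 0 → IsUnit x := fun x hx => (IsLocalRing.residue_ne_zero_iff_isUnit x).1 hx
  obtain ⟨c₀, T, hT, hTli⟩ := prim (IsLocalRing.ResidueField O) M (e+1) hrank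
  choose gS hgS using fun k => hψs (c₀ k)
  set gK : Fin (e+1) → K := fun k => (gS k : K) with hgK
  have hg : ∀ k, gK k ∈ O := fun k => (gS k).2
  have hT0 : ev (e+1) T (fun k => ψ (gO O gK hg k)) = 0 := by
    have h1 : (fun k => ψ (gO O gK hg k)) = c₀ := funext hgS
    rw [h1]
    exact hT
  -- surjectivity
  have hsurj : ∀ y : M, ∃ w : Fin (e+1) → O, phi O ψ gK hg T hT0 (elt (gO O gK hg) w) = y := by
    intro y
    have hspan := hTli.span_eq_top_of_card_eq_finrank' (by simp [hrank])
    have : y ∈ Submodule.span (IsLocalRing.ResidueField O)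
        (Set.range (fun k : Fin (e+1) => T ^ (k : ℕ))) := by
      rw [hspan]; trivial
    rw [← Fintype.range_linearCombination] at this
    obtain ⟨u, hu⟩ := this
    choose w hw using fun k => hψs (u k)
    refine ⟨w, ?_⟩
    rw [phi_elt, ← hu, Fintype.linearCombination_apply]
    refine Finset.sum_congr rfl fun k _ => ?_
    rw [hw]
  -- the generator of `L`
  obtain ⟨c₁, T2, hT2', hli2⟩ := prim M L d hrankL
  choose hS hhS using fun j => hsurj (c₁ j)
  set hO' : Fin d → Alg (e+1) (gO O gK hg) := fun j => elt (gO O gK hg) (hS j) with hhO'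
  have hT2 : ev d T2 (fun j => phi O ψ gK hg T hT0 (hO' j)) = 0 := by
    have h1 : (fun j => phi O ψ gK hg T hT0 (hO' j)) = c₁ := funext hhS
    rw [h1]
    exact hT2'
  obtain ⟨ξS, hξS⟩ := hsurj ξ₀
  -- discriminants
  have hN1 : ψ (disc1 (e+1) (gO O gK hg)) ≠ 0 :=
    map_disc1_ne ψ hrank (gO O gK hg) T hT0 hTli
  have hN2 : ψ (Algebra.norm O (disc1 d hO')) ≠ 0 := by
    rw [← (norm_tau O ψ gK hg hrank T hT0 hTli (disc1 d hO')).2]
    refine Algebra.norm_ne_zero_iff.mpr ?_
    exact map_disc1_ne (phi O ψ gK hg T hT0) hrankL hO' T2 hT2 hli2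
  have hun : ∀ x : O, ψ x ≠ 0 → O.valuation δ ≤ O.valuation (x : K) := by
    intro x hx
    rw [(ValuationSubring.valuation_eq_one_iff O x).1 (hψ x hx)]
    exact hδ.le
  refine ⟨e, d, ⟨hδ0, hδ, gK, fun j k => (hS j k : K), fun k => (ξS k : K), hg,
    fun j k => (hS j k).2, fun k => (ξS k).2, ?_, ?_, ?_⟩, hdpos⟩
  · have h1 : disc1 (e+1) gK = ((disc1 (e+1) (gO O gK hg) : O) : K) :=
      (map_disc1 O.subtype (e+1) (gO O gK hg)).symm
    rw [h1]
    exact hun _ hN1
  · have h1 : (fun j => elt gK (fun k => (hS j k : K))) = fun j => tau O gK hg (hO' j) := by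
      funext j
      exact (tau_elt O gK hg (hS j)).symm
    have h2 : Algebra.norm K (disc1 d fun j => elt gK (fun k => (hS j k : K))) =
        ((Algebra.norm O (disc1 d hO') : O) : K) := by
      rw [h1, ← map_disc1 (tau O gK hg) d hO']
      exact (norm_tau O ψ gK hg hrank T hT0 hTli (disc1 d hO')).1
    rw [h2]
    exact hun _ hN2
  · intro z
    by_contra hcon
    push Not at hcon
    have h1 : (fun j => elt gK (fun k => (hS j k : K))) = fun j => tau O gK hg (hO' j) := by
      funext j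
      exact (tau_elt O gK hg (hS j)).symm
    rw [h1] at hcon
    set zz : Alg d (fun j => tau O gK hg (hO' j)) :=
      ∑ j, (elt gK (z j)) • algBasis d (fun j => tau O gK hg (hO' j)) j with hzz
    have hnz : nrmElt d (fun j => tau O gK hg (hO' j)) (fun j => elt gK (z j)) =
        Algebra.norm (Alg (e+1) gK) zz := rfl
    rw [hnz] at hcon
    have hk : ∀ k, ∃ y : O, (y : K) = (algBasis (e+1) gK).repr (Algebra.norm (Alg (e+1) gK) zz) k ∧
        ψ y = ψ (ξS k) := by
      intro k
      have h3 : O.valuation ((algBasis (e+1) gK).repr (Algebra.norm (Alg (e+1) gK) zz) k - ξS k) < 1 :=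
        (hcon k).trans_lt hδ
      have h4 := (O.valuation_le_one_iff _).1 h3.le
      have h5 : (⟨_, h4⟩ : O) ∈ IsLocalRing.maximalIdeal O :=
        (ValuationSubring.valuation_lt_one_iff O _).2 h3
      refine ⟨⟨_, h4⟩ + ξS k, ?_, ?_⟩
      · show _ - (ξS k : K) + (ξS k : K) = _
        rw [sub_add_cancel]
      · rw [map_add, (IsLocalRing.residue_eq_zero_iff _).2 h5, zero_add]
    choose y hy1 hy2 using hk
    have hzy : Algebra.norm (Alg (e+1) gK) zz = tau O gK hg (elt (gO O gK hg) y) := by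
      rw [tau_elt]
      apply (algBasis (e+1) gK).repr.injective
      ext k
      rw [repr_elt, hy1]
    have hyphi : phi O ψ gK hg T hT0 (elt (gO O gK hg) y) = ξ₀ := by
      rw [← hξS, phi_elt, phi_elt]
      refine Finset.sum_congr rfl fun k _ => ?_
      rw [hy2]
    obtain ⟨z', hz'⟩ := bad_local O ψ gK hg hψ hrank T hT0 hTli L hrankL hO' T2 hT2 hli2 zz _ hzy
      (by rw [hyphi]; exact hξ0)
    exact hξ ⟨z', by rw [hz', hyphi]⟩

/-- Valuation rings with a residue field of dimension greater than one give places of dimension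
greater than one. -/
theorem place_of_res (K : Type) [Field K] (O : ValuationSubring K) (hO : O ≠ ⊤) (D : ℕ)
    (hD : ¬ DimLeOneUpTo (IsLocalRing.ResidueField O) D) :
    ∃ (P : Place K) (D' : ℕ), ¬ DimLeOneUpTo P.F D' := by
  obtain ⟨δ, hδ0, hδ⟩ : ∃ δ : K, δ ≠ 0 ∧ O.valuation δ < 1 := by
    obtain ⟨x, hx⟩ := (ne_top_iff O).1 hO
    have hx0 : x ≠ 0 := by
      rintro rfl
      exact hx (O.zero_mem)
    refine ⟨x⁻¹, inv_ne_zero hx0, ?_⟩
    rw [map_inv₀]
    have h1 : 1 < O.valuation x := by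
      rw [← not_le, O.valuation_le_one_iff]
      exact hx
    exact inv_lt_one_of_one_lt₀ h1
  obtain ⟨e, d, hbad, hd⟩ := bad_of_res K O D hD δ hδ0 hδ
  obtain ⟨P, -, hP⟩ := BP ET K O δ e d hd hbad
  exact ⟨P, _, hP _ (le_max_left _ _) (le_max_right _ _)⟩

end Pool.Agent.T9h39.Nd
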