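import Pool.Agent.T9h39.Nd10
import Pool.Agent.Results.MP_3554b5_lc.NonTameHenselian

set_option autoImplicit false

/-!
# Definable henselian valuation rings from elementarily equivalent fields
-/

namespace Pool.Agent.T9h39.Nd

open FirstOrder FirstOrder.Language FirstOrder.Ring Pool.Agent.W882.Nip3 Pool.Agent.R492.DV
open Pool.Agent.N616.NH Pool.Agent.N616.NV Pool.Agent.N616.NV.Pla_

/-- A field of characteristic `p` which is `NIP_n`, with a nontrivial henselian valuation ring (in
the sense of `HEN_.Hyp`) and with a finite extension which is not separably closed has a nontrivial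
definable valuation ring. -/
theorem dfb_of_hyp (K : Type) [Field K] [CompatibleRing K] (p : ℕ) (hp : p.Prime) [CharP K p]
    (n : ℕ) (hn : NIPnField n K) (O : ValuationSubring K) (hO : O ≠ ⊤) (H : HEN_.Hyp O)
    (D : ℕ) (hD : ¬ DimLeOneUpTo K D) : ∃ A : ValuationSubring K, A ≠ ⊤ ∧ Dfb A := by
  have : Fact p.Prime := ⟨hp⟩
  have hinf : Infinite K := infinite_of_ne_top hO
  obtain ⟨M, i1, i2, i3, L, i4, i5, i6, i7, hL⟩ := ext_of_dim K D hD
  have hAS : ∀ (F : Type) [Field F] [Algebra K F] [FiniteDimensional K F] (a : F),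
      ∃ x : F, x ^ p - x = a := by
    intro F _ _ _ a
    exact NP_.as_closed_n DFA DFB K p hinf n hn F a
  obtain ⟨F, j1, j2, j3, q, a, hq, hqp, ha⟩ := exists_npw K p hAS M L hL
  have hcharF : CharP F p := charP_of_injective_algebraMap (algebraMap K F).injective p
  let _ : CompatibleRing F := compatibleRingOfRing F
  have hco : p.Coprime q := (Nat.coprime_primes hp hq).2 (Ne.symm hqp)
  have hens := ext_hens F H
  obtain ⟨A, hA1, hA2⟩ := jk F p hq.ne_zero hco (ext_ne_top F H hO)
    (cmp_of_hens p hq.ne_zero hco (ext F H)) ha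
  exact ⟨A.comap (algebraMap K F), comap_ne_top K F hA1, dfb_comap K F hA2⟩

/-- The property `NIP_n` for elementarily equivalent fields. -/
theorem nipn_transfer {K K' : Type} [Field K] [CompatibleRing K] [Field K'] [CompatibleRing K']
    (he : Language.ring.ElementarilyEquivalent K K') {n : ℕ} (hn : NIPnField n K) :
    NIPnField n K' := by
  intro a b φ h
  exact hn a b φ fun m => (patN_congr he φ m).2 (h m)

/-- The characteristic of elementarily equivalent fields. -/
theorem char_transfer {K K' : Type} [Field K] [CompatibleRing K] [Field K'] [CompatibleRing K']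
    (he : Language.ring.ElementarilyEquivalent K K') (p : ℕ) [CharP K p] : CharP K' p := by
  have h1 : ∀ m : ℕ, (m : K) = 0 ↔ (m : K') = 0 := by
    intro m
    let σ : Language.ring.Sentence :=
      Term.equal (termOfFreeCommRing (m : FreeCommRing Empty)) (termOfFreeCommRing 0)
    have h2 : ∀ (E : Type) [Field E] [CompatibleRing E], E ⊨ σ ↔ (m : E) = 0 := by
      intro E _ _
      show (Term.equal (termOfFreeCommRing (m : FreeCommRing Empty))
        (termOfFreeCommRing 0)).Realize (default : Empty → E) ↔ _
      rw [Formula.realize_equal, realize_termOfFreeCommRing, realize_termOfFreeCommRing,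
        map_natCast, map_zero]
    rw [← h2 K, ← h2 K']
    exact elementarilyEquivalent_iff.1 he σ
  constructor
  intro m
  rw [← h1]
  exact CharP.cast_eq_zero_iff K p m

/-- A field of characteristic `p` which is `NIP_n` and has a place of dimension greater than one has
a nontrivial definable valuation ring. -/
theorem dfb_of_place (K : Type) [Field K] [CompatibleRing K] (p : ℕ) (hp : p.Prime) [CharP K p]
    (n : ℕ) (hn : NIPnField n K) (P : Place K) (D : ℕ) (hD : ¬ DimLeOneUpTo P.F D) :
    ∃ A : ValuationSubring K, A ≠ ⊤ ∧ Dfb A := by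
  obtain ⟨O, hO, hO1, H⟩ := hyp_of_place K p hp n hn P D hD
  have : Fact p.Prime := ⟨hp⟩
  obtain ⟨δ, e, d, hbad, hd, -⟩ := PB K P O D hO (fun a b => ultrametric hp P a b) hD
  exact dfb_of_hyp K p hp n hn O hO1 H _ (dim_of_bad K O δ e d hd hbad)

end Pool.Agent.T9h39.Nd
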