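import Pool.Agent.T9h39.Nd1

set_option autoImplicit false

/-!
# Compatible refinements in positive characteristic
-/

namespace Pool.Agent.T9h39.Nd

section absV

variable {F : Type} [Field F]

theorem Pw.of_pow {q P : ℕ} (h : P.Coprime q) {z : F} (hz : z ≠ 0) (hp : Pw q (z ^ P)) :
    Pw q z := by
  obtain ⟨y, hy⟩ := hp
  have hb : (1 : ℤ) = (P : ℤ) * P.gcdA q + (q : ℤ) * P.gcdB q := by
    have := Nat.gcd_eq_gcd_ab P q
    rw [h] at this
    exact_mod_cast this
  refine ⟨y ^ (P.gcdA q) * z ^ (P.gcdB q), ?_⟩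
  calc z = z ^ (1 : ℤ) := (zpow_one z).symm
    _ = z ^ ((P : ℤ) * P.gcdA q + (q : ℤ) * P.gcdB q) := by rw [← hb]
    _ = (z ^ P) ^ (P.gcdA q) * (z ^ (P.gcdB q)) ^ q := by
        rw [zpow_add₀ hz, zpow_mul, zpow_natCast, mul_comm (q : ℤ), zpow_mul, zpow_natCast]
    _ = (y ^ q) ^ (P.gcdA q) * (z ^ (P.gcdB q)) ^ q := by rw [hy]
    _ = _ := by
        rw [mul_pow]
        congr 1
        rw [← zpow_natCast, ← zpow_natCast, ← zpow_mul, ← zpow_mul, mul_comm]

/-- A set `B` which is a bounded neighbourhood of zero for some valuation, and a small element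
`c`. -/
structure Rough (q : ℕ) (B : Set F) (c : F) : Prop where
  ne : c ≠ 0
  mem : c ∈ B
  sub : ∀ x ∈ B, ∀ y ∈ B, c * (x - y) ∈ B
  mul : ∀ x ∈ B, ∀ y ∈ B, c * (x * y) ∈ B
  inv : ∀ x, x ∉ B → c * x⁻¹ ∈ B
  pw : ∀ x ∈ B, 1 + c * x ≠ 0 ∧ Pw q (1 + c * x)

namespace Rough

variable {q : ℕ} {B : Set F} {c : F} (h : Rough q B c)
include h

theorem zero : (0 : F) ∈ B := by
  have := h.sub c h.mem c h.mem
  rwa [sub_self, mul_zero] at this

theorem cmul {x : F} (hx : x ∈ B) : c * x ∈ B := by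
  have := h.sub x hx 0 h.zero
  rwa [sub_zero] at this

theorem cneg {x : F} (hx : x ∈ B) : -(c * x) ∈ B := by
  have := h.sub 0 h.zero x hx
  rwa [zero_sub, mul_neg] at this

theorem cpow {x : F} (hx : x ∈ B) (n : ℕ) : c ^ n * x ∈ B := by
  induction n with
  | zero => rwa [pow_zero, one_mul]
  | succ n ih =>
    rw [pow_succ', mul_assoc]
    exact h.cmul ih

theorem mono {x : F} {n m : ℕ} (hnm : n ≤ m) (hx : c ^ n * x ∈ B) : c ^ m * x ∈ B := by
  obtain ⟨k, rfl⟩ := Nat.exists_eq_add_of_le hnm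
  rw [add_comm, pow_add, mul_assoc]
  exact h.cpow hx k

theorem add {x y : F} (hx : x ∈ B) (hy : y ∈ B) : c ^ 2 * (x + y) ∈ B := by
  have := h.sub _ (h.cmul hx) _ (h.cneg hy)
  have e : c * (c * x - -(c * y)) = c ^ 2 * (x + y) := by ring
  rwa [e] at this

theorem not_sq : (c ^ 2)⁻¹ ∉ B := by
  intro h1
  have h2 := (h.pw _ (h.cneg h1)).1
  apply h2
  have hc := h.ne
  field_simp
  ring

/-- The ring of all `x` with `c ^ n x ∈ B` for some `n`. -/
def R1 : ValuationSubring F where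
  carrier := {x | ∃ n : ℕ, c ^ n * x ∈ B}
  mul_mem' := by
    rintro x y ⟨n, hx⟩ ⟨m, hy⟩
    refine ⟨n + m + 1, ?_⟩
    have := h.mul _ hx _ hy
    have e : c * (c ^ n * x * (c ^ m * y)) = c ^ (n + m + 1) * (x * y) := by ring
    rwa [e] at this
  one_mem' := ⟨1, by rw [pow_one, mul_one]; exact h.mem⟩
  add_mem' := by
    rintro x y ⟨n, hx⟩ ⟨m, hy⟩
    refine ⟨n + m + 2, ?_⟩
    have := h.add (h.mono (Nat.le_add_right n m) hx) (h.mono (Nat.le_add_left m n) hy)
    have e : c ^ 2 * (c ^ (n + m) * x + c ^ (n + m) * y) = c ^ (n + m + 2) * (x + y) := by ring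
    rwa [e] at this
  zero_mem' := ⟨0, by rw [mul_zero]; exact h.zero⟩
  neg_mem' := by
    rintro x ⟨n, hx⟩
    refine ⟨n + 1, ?_⟩
    have := h.cneg hx
    have e : -(c * (c ^ n * x)) = c ^ (n + 1) * -x := by ring
    rwa [e] at this
  mem_or_inv_mem' := by
    intro x
    by_cases hx : x ∈ B
    · exact Or.inl ⟨0, by rwa [pow_zero, one_mul]⟩
    · exact Or.inr ⟨1, by rw [pow_one]; exact h.inv x hx⟩

theorem exists_ring_one {x₀ : F} (hx₀ : ∀ n : ℕ, c ^ n * x₀ ∉ B) :
    ∃ A : ValuationSubring F, A ≠ ⊤ ∧ Cmp q A := by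
  refine ⟨h.R1, ?_, ?_⟩
  · rw [ne_top_iff]
    exact ⟨x₀, fun ⟨n, hn⟩ => hx₀ n hn⟩
  · intro x hx
    rw [lt_one] at hx
    rcases hx with rfl | hx
    · rw [add_zero]
      exact Pw.one q
    · have h1 : c ^ 2 * x⁻¹ ∉ B := fun h2 => hx ⟨2, h2⟩
      have h2 := h.inv _ h1
      have e : c * (c ^ 2 * x⁻¹)⁻¹ = c⁻¹ * x := by
        have := h.ne
        rw [mul_inv, inv_inv]
        field_simp
      rw [e] at h2
      have h3 := (h.pw _ h2).2
      rwa [← mul_assoc, mul_inv_cancel₀ h.ne, one_mul] at h3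

/-- In the other case: the ring of all `x` whose `p ^ j`-th powers are bounded. -/
def R2 (p : ℕ) [Fact p.Prime] [CharP F p] (hx : ∀ x : F, ∃ n : ℕ, c ^ n * x ∈ B) :
    ValuationSubring F where
  carrier := {x | ∃ n : ℕ, ∀ j : ℕ, c ^ n * x ^ p ^ j ∈ B}
  mul_mem' := by
    rintro x y ⟨n, hx⟩ ⟨m, hy⟩
    refine ⟨n + m + 1, fun j => ?_⟩
    have := h.mul _ (hx j) _ (hy j)
    have e : c * (c ^ n * x ^ p ^ j * (c ^ m * y ^ p ^ j)) = c ^ (n + m + 1) * (x * y) ^ p ^ j := by
      rw [mul_pow]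
      ring
    rwa [e] at this
  one_mem' := ⟨1, fun j => by rw [one_pow, pow_one, mul_one]; exact h.mem⟩
  add_mem' := by
    rintro x y ⟨n, hx⟩ ⟨m, hy⟩
    refine ⟨n + m + 2, fun j => ?_⟩
    have := h.add (h.mono (Nat.le_add_right n m) (hx j)) (h.mono (Nat.le_add_left m n) (hy j))
    have e : c ^ 2 * (c ^ (n + m) * x ^ p ^ j + c ^ (n + m) * y ^ p ^ j) =
        c ^ (n + m + 2) * (x + y) ^ p ^ j := by
      rw [add_pow_char_pow]
      ring
    rwa [e] at this
  zero_mem' := ⟨0, fun j => by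
    rw [zero_pow (pow_ne_zero _ (Fact.out : p.Prime).ne_zero), mul_zero]
    exact h.zero⟩
  neg_mem' := by
    rintro x ⟨n, hx⟩
    refine ⟨n + 1, fun j => ?_⟩
    rcases neg_one_pow_eq_or F (p ^ j) with h1 | h1
    · have := h.cmul (hx j)
      have e : c * (c ^ n * x ^ p ^ j) = c ^ (n + 1) * (-x) ^ p ^ j := by
        rw [neg_pow x, h1]
        ring
      rwa [e] at this
    · have := h.cneg (hx j)
      have e : -(c * (c ^ n * x ^ p ^ j)) = c ^ (n + 1) * (-x) ^ p ^ j := by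
        rw [neg_pow x, h1]
        ring
      rwa [e] at this
  mem_or_inv_mem' := by
    intro x
    by_contra hcon
    push Not at hcon
    obtain ⟨hx1, hx2⟩ := hcon
    simp only [Set.mem_ofPred_eq, not_exists, not_forall] at hx1 hx2
    -- the powers of the inverse are small
    obtain ⟨j₀, hj₀⟩ := hx1 3
    have hx0 : x ≠ 0 := by
      rintro rfl
      apply hj₀
      rw [zero_pow (pow_ne_zero _ (Fact.out : p.Prime).ne_zero), mul_zero]
      exact h.zero
    have hc := h.ne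
    set y := x⁻¹ with hy
    set P := p ^ j₀ with hP
    obtain ⟨z, hz, hyz⟩ : ∃ z ∈ B, y ^ P = c ^ 2 * z := by
      refine ⟨c * (c ^ 3 * x ^ P)⁻¹, h.inv _ hj₀, ?_⟩
      rw [hy, inv_pow]
      field_simp
    have hm : ∀ m : ℕ, ∃ w ∈ B, (y ^ P) ^ (m + 1) = c ^ 2 * w := by
      intro m
      induction m with
      | zero => exact ⟨z, hz, by rw [zero_add, pow_one, hyz]⟩
      | succ m ih =>
        obtain ⟨w, hw, hw1⟩ := ih
        refine ⟨c * (c * (z * w)), h.cmul (h.mul z hz w hw), ?_⟩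
        rw [pow_succ, hw1, hyz]
        ring
    choose f hf using hx
    let n : ℕ := ∑ j ∈ Finset.range j₀, f (y ^ p ^ j)
    obtain ⟨j, hj⟩ := hx2 n
    apply hj
    by_cases hj1 : j < j₀
    · refine h.mono ?_ (hf (y ^ p ^ j))
      exact Finset.single_le_sum (f := fun j => f (y ^ p ^ j)) (fun _ _ => Nat.zero_le _)
        (Finset.mem_range.2 hj1)
    · obtain ⟨k, rfl⟩ := Nat.exists_eq_add_of_le (not_lt.1 hj1)
      obtain ⟨m, hm1⟩ : ∃ m, p ^ k = m + 1 :=
        ⟨p ^ k - 1, (Nat.sub_add_cancel (Nat.one_le_pow _ _ (Fact.out : p.Prime).pos)).symm⟩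
      obtain ⟨w, hw, hw1⟩ := hm m
      have e : y ^ p ^ (j₀ + k) = c ^ 2 * w := by
        rw [pow_add, pow_mul, ← hP, hm1, hw1]
      rw [e]
      exact h.cpow (h.cpow hw 2) n

theorem exists_ring (p : ℕ) [Fact p.Prime] [CharP F p] (hpq : p.Coprime q) :
    ∃ A : ValuationSubring F, A ≠ ⊤ ∧ Cmp q A := by
  by_cases hx : ∀ x : F, ∃ n : ℕ, c ^ n * x ∈ B
  swap
  · push Not at hx
    obtain ⟨x₀, hx₀⟩ := hx
    exact h.exists_ring_one hx₀
  have hc := h.ne
  have hpp : p.Prime := Fact.out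
  refine ⟨h.R2 p hx, ?_, ?_⟩
  · rw [ne_top_iff]
    refine ⟨c⁻¹, fun ⟨n, hn⟩ => ?_⟩
    obtain ⟨j, hj⟩ : ∃ j, n + 2 ≤ p ^ j := ⟨n + 2, (Nat.lt_pow_self hpp.one_lt).le⟩
    obtain ⟨k, hk⟩ := Nat.exists_eq_add_of_le hj
    apply h.not_sq
    have h1 := h.cpow (hn j) k
    have e : c ^ k * (c ^ n * c⁻¹ ^ p ^ j) = (c ^ 2)⁻¹ := by
      rw [hk, inv_pow, pow_add, pow_add]
      field_simp
    rwa [e] at h1
  · intro x hx1
    rw [lt_one] at hx1
    rcases hx1 with rfl | hx1
    · rw [add_zero]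
      exact Pw.one q
    · have hx2 : ¬ ∃ n : ℕ, ∀ j : ℕ, c ^ n * x⁻¹ ^ p ^ j ∈ B := hx1
      push Not at hx2
      obtain ⟨j, hj⟩ := hx2 2
      have h2 := h.inv _ hj
      have e : c * (c ^ 2 * x⁻¹ ^ p ^ j)⁻¹ = c⁻¹ * x ^ p ^ j := by
        rw [mul_inv, inv_pow, inv_inv]
        field_simp
      rw [e] at h2
      obtain ⟨h3, h4⟩ := h.pw _ h2
      rw [← mul_assoc, mul_inv_cancel₀ h.ne, one_mul] at h3 h4
      have e2 : 1 + x ^ p ^ j = (1 + x) ^ p ^ j := by
        rw [add_pow_char_pow, one_pow]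
      rw [e2] at h3 h4
      refine Pw.of_pow (Nat.Coprime.pow_left j hpq) ?_ h4
      intro h5
      rw [h5, zero_pow (pow_ne_zero _ hpp.ne_zero)] at h3
      exact h3 rfl

end Rough

end absV

variable {L : Type} [Field L]

/-- The composite of `O` and a valuation ring of its residue field. -/
def cps (O : ValuationSubring L) (A : ValuationSubring (IsLocalRing.ResidueField O)) :
    ValuationSubring L where
  carrier := {x | ∃ h : x ∈ O, IsLocalRing.residue O ⟨x, h⟩ ∈ A}
  mul_mem' := by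
    rintro x y ⟨hx, h1⟩ ⟨hy, h2⟩
    refine ⟨O.mul_mem _ _ hx hy, ?_⟩
    have : (⟨x * y, O.mul_mem _ _ hx hy⟩ : O) = ⟨x, hx⟩ * ⟨y, hy⟩ := rfl
    rw [this, map_mul]
    exact A.mul_mem _ _ h1 h2
  one_mem' := ⟨O.one_mem, by
    have : (⟨1, O.one_mem⟩ : O) = 1 := rfl
    rw [this, map_one]
    exact A.one_mem⟩
  add_mem' := by
    rintro x y ⟨hx, h1⟩ ⟨hy, h2⟩
    refine ⟨O.add_mem _ _ hx hy, ?_⟩
    have : (⟨x + y, O.add_mem _ _ hx hy⟩ : O) = ⟨x, hx⟩ + ⟨y, hy⟩ := rfl
    rw [this, map_add]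
    exact A.add_mem _ _ h1 h2
  zero_mem' := ⟨O.zero_mem, by
    have : (⟨0, O.zero_mem⟩ : O) = 0 := rfl
    rw [this, map_zero]
    exact A.zero_mem⟩
  neg_mem' := by
    rintro x ⟨hx, h1⟩
    refine ⟨O.neg_mem _ hx, ?_⟩
    have : (⟨-x, O.neg_mem _ hx⟩ : O) = -⟨x, hx⟩ := rfl
    rw [this, map_neg]
    exact A.neg_mem _ h1
  mem_or_inv_mem' := by
    intro x
    by_cases hx : x ∈ O
    · by_cases h1 : IsLocalRing.residue O ⟨x, hx⟩ ∈ A
      · exact Or.inl ⟨hx, h1⟩
      · right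
        have h2 : IsLocalRing.residue O ⟨x, hx⟩ ≠ 0 := fun h => h1 (by rw [h]; exact A.zero_mem)
        have hu : IsUnit (⟨x, hx⟩ : O) := by
          by_contra h3
          exact h2 (Ideal.Quotient.eq_zero_iff_mem.2 ((IsLocalRing.mem_maximalIdeal _).2 h3))
        obtain ⟨u, hu⟩ := hu
        have hinv : x⁻¹ = (((u⁻¹ : Oˣ) : O) : L) := by
          symm
          apply eq_inv_of_mul_eq_one_left
          have h3 := congrArg Subtype.val (Units.inv_mul u)
          rw [hu] at h3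
          exact h3
        refine ⟨by rw [hinv]; exact ((u⁻¹ : Oˣ) : O).2, ?_⟩
        have h4 : (⟨x⁻¹, by rw [hinv]; exact ((u⁻¹ : Oˣ) : O).2⟩ : O) = ((u⁻¹ : Oˣ) : O) :=
          Subtype.ext hinv
        rw [h4]
        have h5 : IsLocalRing.residue O ((u⁻¹ : Oˣ) : O) * IsLocalRing.residue O ⟨x, hx⟩ = 1 := by
          rw [← hu, ← map_mul, Units.inv_mul, map_one]
        rw [eq_inv_of_mul_eq_one_left h5]
        exact (A.mem_or_inv_mem _).resolve_left h1
    · right
      have hxi : x⁻¹ ∈ O := (O.mem_or_inv_mem x).resolve_left hx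
      refine ⟨hxi, ?_⟩
      have h1 : IsLocalRing.residue O ⟨x⁻¹, hxi⟩ = 0 := by
        refine Ideal.Quotient.eq_zero_iff_mem.2 ((IsLocalRing.mem_maximalIdeal _).2 ?_)
        intro h2
        obtain ⟨u, hu⟩ := h2
        apply hx
        have hinv : x = (((u⁻¹ : Oˣ) : O) : L) := by
          rw [← inv_inv x]
          symm
          apply eq_inv_of_mul_eq_one_left
          have h3 := congrArg Subtype.val (Units.inv_mul u)
          rw [hu] at h3
          exact h3
        rw [hinv]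
        exact ((u⁻¹ : Oˣ) : O).2
      rw [h1]
      exact A.zero_mem

theorem cps_le (O : ValuationSubring L) (A : ValuationSubring (IsLocalRing.ResidueField O)) :
    cps O A ≤ O := fun _ hx => hx.1

theorem cps_ne (O : ValuationSubring L) (A : ValuationSubring (IsLocalRing.ResidueField O))
    (hA : A ≠ ⊤) : cps O A ≠ O := by
  obtain ⟨z, hz⟩ := (ne_top_iff A).1 hA
  obtain ⟨x, rfl⟩ := IsLocalRing.residue_surjective z
  intro h
  have h1 : (x : L) ∈ cps O A := by
    rw [h]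
    exact x.2
  obtain ⟨h2, h3⟩ := h1
  exact hz h3

theorem cps_cmp {q : ℕ} {O : ValuationSubring L}
    {A : ValuationSubring (IsLocalRing.ResidueField O)} (hq : q ≠ 0) (hO : Cmp q O)
    (hA : Cmp q A) : Cmp q (cps O A) := by
  intro x hx
  by_cases hxO : O.valuation x < 1
  · exact hO x hxO
  have hx1 : O.valuation x = 1 := by
    refine le_antisymm ((le_one O).2 (cps_le O A ((le_one _).1 hx.le))) (not_lt.1 hxO)
  have hx0 : x ≠ 0 := by
    rintro rfl
    rw [map_zero] at hx1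
    exact zero_ne_one hx1
  rw [lt_one] at hx
  have hx2 := hx.resolve_left hx0
  have hxm : x ∈ O := (le_one O).1 hx1.le
  have hxi : x⁻¹ ∈ O := (le_one O).1 (by rw [map_inv₀, hx1, inv_one])
  have hmul : IsLocalRing.residue O ⟨x, hxm⟩ * IsLocalRing.residue O ⟨x⁻¹, hxi⟩ = 1 := by
    rw [← map_mul]
    have : (⟨x, hxm⟩ * ⟨x⁻¹, hxi⟩ : O) = 1 := Subtype.ext (mul_inv_cancel₀ hx0)
    rw [this, map_one]
  have h1 : A.valuation (IsLocalRing.residue O ⟨x, hxm⟩) < 1 := by
    rw [lt_one]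
    right
    rw [← eq_inv_of_mul_eq_one_right hmul]
    exact fun h => hx2 ⟨hxi, h⟩
  obtain ⟨y', hy⟩ := hA _ h1
  obtain ⟨y, rfl⟩ := IsLocalRing.residue_surjective y'
  have hy0 : IsLocalRing.residue O y ≠ 0 := by
    intro h
    rw [h, zero_pow hq] at hy
    have h2 := val_one_add A h1
    rw [hy, map_zero] at h2
    exact zero_ne_one h2
  have hyu : IsUnit y := by
    by_contra h3
    exact hy0 (Ideal.Quotient.eq_zero_iff_mem.2 ((IsLocalRing.mem_maximalIdeal _).2 h3))
  have hyv : O.valuation (y : L) = 1 := (ValuationSubring.valuation_eq_one_iff O y).1 hyu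
  have h2 : (1 + ⟨x, hxm⟩ - y ^ q : O) ∈ IsLocalRing.maximalIdeal O := by
    refine Ideal.Quotient.eq_zero_iff_mem.1 ?_
    have h3 : IsLocalRing.residue O (1 + ⟨x, hxm⟩ - y ^ q) = 0 := by
      rw [map_sub, map_add, map_one, map_pow, hy, sub_self]
    exact h3
  have h3 : O.valuation (1 + x - (y : L) ^ q) < 1 :=
    (ValuationSubring.valuation_lt_one_iff O _).1 h2
  have hyn : (y : L) ^ q ≠ 0 := by
    intro h
    have := congrArg O.valuation h
    rw [map_pow, hyv, one_pow, map_zero] at this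
    exact one_ne_zero this
  have h4 : Pw q (1 + (1 + x - (y : L) ^ q) / (y : L) ^ q) := by
    refine hO _ ?_
    rw [map_div₀, map_pow, hyv, one_pow, div_one]
    exact h3
  have h5 : 1 + x = (y : L) ^ q * (1 + (1 + x - (y : L) ^ q) / (y : L) ^ q) := by
    field_simp
    ring
  rw [h5]
  exact (Pw.pow q _).mul h4

/-- In characteristic `p` the property `S` implies that there is a compatible refinement, if `q` is
prime to `p`. -/
theorem exists_lt_of_sg {q : ℕ} (hq : q ≠ 0) (p : ℕ) [Fact p.Prime] [CharP L p]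
    (hpq : p.Coprime q) {O : ValuationSubring L} (hO : Cmp q O) (h : Sg q O) :
    ∃ O' : ValuationSubring L, O' ≤ O ∧ O' ≠ O ∧ Cmp q O' := by
  obtain ⟨u, c, hu, hc, hcB, hB1, hB2, hB3⟩ := h
  have hchar : CharP (IsLocalRing.ResidueField O) p := by
    have h1 : CharP O p := O.subtype.charP Subtype.val_injective p
    have h2 : (p : IsLocalRing.ResidueField O) = 0 := by
      have := congrArg (IsLocalRing.residue O) (CharP.cast_eq_zero O p)
      rwa [map_natCast, map_zero] at this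
    exact (CharP.charP_iff_prime_eq_zero (Fact.out : p.Prime)).2 h2
  have hu0 : u ≠ 0 := by
    rintro rfl
    rw [map_zero] at hu
    exact zero_ne_one hu
  have hc0 : c ≠ 0 := by
    rintro rfl
    rw [map_zero] at hc
    exact zero_ne_one hc
  set c' : O := ⟨c, (le_one O).1 hc.le⟩ with hc'
  have hc'0 : IsLocalRing.residue O c' ≠ 0 := by
    intro h
    have h1 : c' ∈ IsLocalRing.maximalIdeal O := Ideal.Quotient.eq_zero_iff_mem.1 h
    have h2 := (ValuationSubring.valuation_lt_one_iff O _).1 h1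
    rw [hc', hc] at h2
    exact lt_irrefl _ h2
  have h0B : BB q O u 0 := by
    refine ⟨by rw [map_zero]; exact zero_le_one, by rw [add_zero, map_one], by
      rw [add_zero]; exact Pw.one q, by rw [add_zero, hu], ?_⟩
    rw [add_zero, mul_inv_cancel₀ hu0]
    exact Pw.one q
  set B : Set (IsLocalRing.ResidueField O) :=
    {z | ∃ x : O, BB q O u (x : L) ∧ IsLocalRing.residue O x = z} with hB
  have hR : Rough q B (IsLocalRing.residue O c') :=
    { ne := hc'0
      mem := ⟨c', hcB, rfl⟩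
      sub := by
        rintro _ ⟨x, hx, rfl⟩ _ ⟨y, hy, rfl⟩
        exact ⟨c' * (x - y), (hB1 x y hx hy).1, by rw [map_mul, map_sub]⟩
      mul := by
        rintro _ ⟨x, hx, rfl⟩ _ ⟨y, hy, rfl⟩
        exact ⟨c' * (x * y), (hB1 x y hx hy).2, by rw [map_mul, map_mul]⟩
      inv := by
        intro z hz
        obtain ⟨x, rfl⟩ := IsLocalRing.residue_surjective z
        have hx0 : IsLocalRing.residue O x ≠ 0 := by
          intro h
          exact hz ⟨0, h0B, by rw [map_zero, h]⟩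
        have hxu : IsUnit x := by
          by_contra h3
          exact hx0 (Ideal.Quotient.eq_zero_iff_mem.2 ((IsLocalRing.mem_maximalIdeal _).2 h3))
        obtain ⟨w, hw⟩ := hxu
        have h1 : (x : L)⁻¹ = (((w⁻¹ : Oˣ) : O) : L) := by
          symm
          apply eq_inv_of_mul_eq_one_left
          have h3 := congrArg Subtype.val (Units.inv_mul w)
          rw [hw] at h3
          exact h3
        have h2 := hB2 (x : L) ((le_one O).2 x.2) (fun h => hz ⟨x, h, rfl⟩)
        refine ⟨c' * ((w⁻¹ : Oˣ) : O), ?_, ?_⟩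
        · rw [h1] at h2
          exact h2
        · rw [map_mul]
          congr 1
          apply eq_inv_of_mul_eq_one_left
          rw [← map_mul, ← hw, Units.inv_mul, map_one]
      pw := by
        rintro _ ⟨x, hx, rfl⟩
        obtain ⟨h1, y, hy⟩ := hB3 x hx
        have hxo : (1 + c' * x : O) = (⟨1 + c * x, (le_one O).1 h1.le⟩ : O) := rfl
        have hyo : O.valuation y ≤ 1 := by
          rw [hy, map_pow] at h1
          by_contra hcon
          exact absurd h1 (one_lt_pow' (not_le.1 hcon) hq).ne'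
        constructor
        · intro h
          have h2 : IsLocalRing.residue O (1 + c' * x) = 0 := by
            rw [map_add, map_one, map_mul, h]
          have h3 := (ValuationSubring.valuation_lt_one_iff O _).1
            (Ideal.Quotient.eq_zero_iff_mem.1 h2)
          exact absurd h1 h3.ne
        · refine ⟨IsLocalRing.residue O ⟨y, (le_one O).1 hyo⟩, ?_⟩
          rw [← map_pow, ← map_mul, ← map_one (IsLocalRing.residue O), ← map_add]
          congr 1
          exact Subtype.ext hy }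
  obtain ⟨A, hA, hA'⟩ := hR.exists_ring p hpq
  exact ⟨cps O A, cps_le O A, cps_ne O A hA, cps_cmp hq hO hA'⟩

end Pool.Agent.T9h39.Nd
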