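import Pool.Agent.T9h39.Nd2
import Pool.Agent.N616.NV.FO

set_option autoImplicit false

/-!
# The first-order property of the finest compatible ring
-/

namespace Pool.Agent.T9h39.Nd

open FirstOrder FirstOrder.Language FirstOrder.Ring
open Pool.Agent.R492.DV Pool.Agent.N616.NV.FO_
open Pool.Agent.R492.DV.F1 (LL)

/-! ### A calculus with countably many variables -/

/-- Terms. -/
def IsT {α : Type} (t : ∀ (K : Type) [Field K], (α → K) → K) : Prop :=
  ∃ q : FreeCommRing α, ∀ (K : Type) [Field K] (v : α → K), FreeCommRing.lift v q = t K v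

section terms

variable {α : Type} {t s : ∀ (K : Type) [Field K], (α → K) → K}

theorem IsT.var (i : α) : IsT (fun (K : Type) [Field K] (v : α → K) => v i) :=
  ⟨FreeCommRing.of i, fun K _ v => FreeCommRing.lift_of v i⟩

theorem IsT.one : IsT (fun (K : Type) [Field K] (_ : α → K) => (1 : K)) :=
  ⟨1, fun K _ v => map_one _⟩

theorem IsT.zero : IsT (fun (K : Type) [Field K] (_ : α → K) => (0 : K)) :=
  ⟨0, fun K _ v => map_zero _⟩

theorem IsT.add (ht : IsT t) (hs : IsT s) :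
    IsT (fun (K : Type) [Field K] (v : α → K) => t K v + s K v) := by
  obtain ⟨a, ha⟩ := ht
  obtain ⟨b, hb⟩ := hs
  exact ⟨a + b, fun K _ v => by rw [map_add, ha, hb]⟩

theorem IsT.sub (ht : IsT t) (hs : IsT s) :
    IsT (fun (K : Type) [Field K] (v : α → K) => t K v - s K v) := by
  obtain ⟨a, ha⟩ := ht
  obtain ⟨b, hb⟩ := hs
  exact ⟨a - b, fun K _ v => by rw [map_sub, ha, hb]⟩

theorem IsT.mul (ht : IsT t) (hs : IsT s) :
    IsT (fun (K : Type) [Field K] (v : α → K) => t K v * s K v) := by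
  obtain ⟨a, ha⟩ := ht
  obtain ⟨b, hb⟩ := hs
  exact ⟨a * b, fun K _ v => by rw [map_mul, ha, hb]⟩

theorem IsT.neg (ht : IsT t) : IsT (fun (K : Type) [Field K] (v : α → K) => -t K v) := by
  obtain ⟨a, ha⟩ := ht
  exact ⟨-a, fun K _ v => by rw [map_neg, ha]⟩

theorem IsT.pow (ht : IsT t) (n : ℕ) :
    IsT (fun (K : Type) [Field K] (v : α → K) => t K v ^ n) := by
  obtain ⟨a, ha⟩ := ht
  exact ⟨a ^ n, fun K _ v => by rw [map_pow, ha]⟩

theorem fop_mem (ht : IsT t) : FOP fun K _ Q v => t K v ∈ Q := by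
  obtain ⟨a, ha⟩ := ht
  exact FOP.mem a t ha

theorem fop_eq (ht : IsT t) (hs : IsT s) : FOP fun K _ (_ : Set K) v => t K v = s K v := by
  obtain ⟨a, ha⟩ := ht
  obtain ⟨b, hb⟩ := hs
  exact FOP.eq a b t s ha hb

end terms

theorem fop_subst {α β : Type} {Θ : ∀ (K : Type) [Field K], Set K → (α → K) → Prop}
    (h : FOP Θ) (t : α → ∀ (K : Type) [Field K], (β → K) → K) (ht : ∀ a, IsT (t a)) :
    FOP fun K _ Q (v : β → K) => Θ K Q (fun a => t a K v) := by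
  obtain ⟨φ, hφ⟩ := h
  choose q hq using ht
  refine ⟨BoundedFormula.subst φ fun a => (LHom.sumInl (L := Language.ring) (L' := UL 1)).onTerm
    (termOfFreeCommRing (q a)),
    fun K _ _ Q v => ?_⟩
  let _ := ul (fun _ : Fin 1 => Q)
  refine Iff.trans ?_ (hφ K Q _)
  show BoundedFormula.Realize _ v default ↔ BoundedFormula.Realize _ _ default
  rw [BoundedFormula.realize_subst]
  have e : (fun a => Term.realize v ((LHom.sumInl (L := Language.ring) (L' := UL 1)).onTerm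
      (termOfFreeCommRing (q a)))) = fun a => t a K v := by
    funext a
    rw [LHom.realize_onTerm, realize_termOfFreeCommRing, hq]
  rw [e]

/-- Add a variable. -/
def cons {K : Type} (x : K) (v : ℕ → K) : ℕ → K
  | 0 => x
  | (n + 1) => v n

theorem fop_ex {Θ : ∀ (K : Type) [Field K], Set K → (ℕ → K) → Prop} (h : FOP Θ) :
    FOP fun K _ Q (v : ℕ → K) => ∃ x : K, Θ K Q (cons x v) := by
  have h1 := fop_subst (β := ℕ ⊕ Fin 1) h
    (fun a => match a with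
      | 0 => fun K _ v => v (Sum.inr 0)
      | (n + 1) => fun K _ v => v (Sum.inl n))
    (fun a => match a with
      | 0 => IsT.var (Sum.inr 0)
      | (n + 1) => IsT.var (Sum.inl n))
  refine (FOP.exs (α := ℕ) (β := Fin 1) h1).congr fun K _ Q v => ?_
  have e : ∀ w : Fin 1 → K, (fun a => (match a with
      | 0 => fun K _ v => v (Sum.inr 0)
      | (n + 1) => fun K _ v => v (Sum.inl n) : ∀ (K : Type) [Field K], (ℕ ⊕ Fin 1 → K) → K)
      K (Sum.elim v w)) = cons (w 0) v := by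
    intro w
    funext a
    cases a with
    | zero => rfl
    | succ n => rfl
  constructor
  · rintro ⟨w, hw⟩
    refine ⟨w 0, ?_⟩
    rw [← e w]
    exact hw
  · rintro ⟨x, hx⟩
    refine ⟨fun _ => x, ?_⟩
    rw [← e (fun _ => x)] at hx
    exact hx

theorem fop_all {Θ : ∀ (K : Type) [Field K], Set K → (ℕ → K) → Prop} (h : FOP Θ) :
    FOP fun K _ Q (v : ℕ → K) => ∀ x : K, Θ K Q (cons x v) := by
  refine (fop_ex h.not).not.congr fun K _ Q v => ?_
  push Not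
  exact Iff.rfl

theorem FOP.of {α : Type} {Φ Ψ : ∀ (K : Type) [Field K], Set K → (α → K) → Prop} (h : FOP Φ)
    (e : @Φ = @Ψ) : FOP Ψ := e ▸ h

/-- first-order predicates in one variable -/
def F1 (P : ∀ (K : Type) [Field K], Set K → K → Prop) : Prop :=
  FOP (α := ℕ) fun K _ Q v => P K Q (v 0)

/-- first-order predicates in two variables -/
def F2 (P : ∀ (K : Type) [Field K], Set K → K → K → Prop) : Prop :=
  FOP (α := ℕ) fun K _ Q v => P K Q (v 0) (v 1)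

theorem F1.app {P : ∀ (K : Type) [Field K], Set K → K → Prop} (h : F1 P)
    {t : ∀ (K : Type) [Field K], (ℕ → K) → K} (ht : IsT t) :
    FOP (α := ℕ) fun K _ Q v => P K Q (t K v) :=
  fop_subst h (fun _ => t) (fun _ => ht)

theorem F2.app {P : ∀ (K : Type) [Field K], Set K → K → K → Prop} (h : F2 P)
    {t s : ∀ (K : Type) [Field K], (ℕ → K) → K} (ht : IsT t) (hs : IsT s) :
    FOP (α := ℕ) fun K _ Q v => P K Q (t K v) (s K v) :=
  fop_subst h (fun a => match a with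
    | 0 => t
    | _ => s) (fun a => match a with
    | 0 => ht
    | (_ + 1) => hs)

/-! ### The property -/

/-- `x` is a unit of `Q`. -/
def UN (K : Type) [Field K] (Q : Set K) (x : K) : Prop := x ∈ Q ∧ ∃ z : K, z ∈ Q ∧ x * z = 1

/-- `x` is a `q`-th power. -/
def PW (q : ℕ) (K : Type) [Field K] (_ : Set K) (x : K) : Prop := ∃ y : K, x = y ^ q

/-- The set `B`. -/
def BQ (q : ℕ) (K : Type) [Field K] (Q : Set K) (u x : K) : Prop :=
  x ∈ Q ∧ UN K Q (1 + x) ∧ PW q K Q (1 + x) ∧ UN K Q (u + x) ∧ ∃ y : K, u + x = u * y ^ q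

theorem f_UN : F1 UN :=
  FOP.of ((fop_mem (IsT.var 0)).and (fop_ex ((fop_mem (IsT.var 0)).and
    (fop_eq ((IsT.var 1).mul (IsT.var 0)) IsT.one)))) rfl

theorem f_PW (q : ℕ) : F1 (PW q) :=
  FOP.of (fop_ex (fop_eq (IsT.var 1) ((IsT.var 0).pow q))) rfl

theorem f_BQ (q : ℕ) : F2 (BQ q) :=
  FOP.of ((fop_mem (IsT.var 1)).and ((f_UN.app (IsT.one.add (IsT.var 1))).and
    (((f_PW q).app (IsT.one.add (IsT.var 1))).and ((f_UN.app ((IsT.var 0).add (IsT.var 1))).and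
      (fop_ex (fop_eq ((IsT.var 1).add (IsT.var 2)) ((IsT.var 1).mul ((IsT.var 0).pow q)))))))) rfl

/-- The property `S`, for given `u` and `c`. -/
def SQ (q : ℕ) (K : Type) [Field K] (Q : Set K) (u c : K) : Prop :=
  UN K Q u ∧ UN K Q c ∧ BQ q K Q u c ∧
    (∀ x y : K, BQ q K Q u x → BQ q K Q u y →
      BQ q K Q u (c * (x - y)) ∧ BQ q K Q u (c * (x * y))) ∧
    (∀ x : K, x ∈ Q → ¬ BQ q K Q u x → ∃ z : K, x * z = 1 ∧ BQ q K Q u (c * z)) ∧
    ∀ x : K, BQ q K Q u x → UN K Q (1 + c * x) ∧ PW q K Q (1 + c * x)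

theorem f_SQ (q : ℕ) : F2 (SQ q) := by
  have h1 := f_UN.app (IsT.var 0)
  have h2 := f_UN.app (IsT.var 1)
  have h3 := (f_BQ q).app (IsT.var 0) (IsT.var 1)
  have h4 := fop_all (fop_all (((f_BQ q).app (IsT.var 2) (IsT.var 1)).imp
      (((f_BQ q).app (IsT.var 2) (IsT.var 0)).imp
        (((f_BQ q).app (IsT.var 2) ((IsT.var 3).mul ((IsT.var 1).sub (IsT.var 0)))).and
          ((f_BQ q).app (IsT.var 2) ((IsT.var 3).mul ((IsT.var 1).mul (IsT.var 0))))))))
  have h5 := fop_all ((fop_mem (IsT.var 0)).imp (((f_BQ q).app (IsT.var 1) (IsT.var 0)).not.imp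
      (fop_ex ((fop_eq ((IsT.var 1).mul (IsT.var 0)) IsT.one).and
        ((f_BQ q).app (IsT.var 2) ((IsT.var 3).mul (IsT.var 0)))))))
  have h6 := fop_all (((f_BQ q).app (IsT.var 1) (IsT.var 0)).imp
      ((f_UN.app (IsT.one.add ((IsT.var 2).mul (IsT.var 0)))).and
        ((f_PW q).app (IsT.one.add ((IsT.var 2).mul (IsT.var 0))))))
  exact FOP.of (h1.and (h2.and (h3.and (h4.and (h5.and h6))))) rfl

/-- `Q` is a compatible valuation ring without the property `S`. -/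
structure PQ (q : ℕ) (K : Type) [Field K] (Q : Set K) : Prop where
  one : (1 : K) ∈ Q
  add : ∀ x y : K, x ∈ Q → y ∈ Q → x + y ∈ Q
  neg : ∀ x : K, x ∈ Q → -x ∈ Q
  mul : ∀ x y : K, x ∈ Q → y ∈ Q → x * y ∈ Q
  total : ∀ x y : K, x * y = 1 → x ∈ Q ∨ y ∈ Q
  cmp : ∀ x : K, x ∈ Q → ¬ UN K Q x → PW q K Q (1 + x)
  npw : ∃ a : K, ¬ PW q K Q a
  nsg : ¬ ∃ c u : K, SQ q K Q u c

theorem f_PQ (q : ℕ) : FOP (α := ℕ) fun K _ Q _ => PQ q K Q := by
  have h1 : FOP (α := ℕ) fun K _ Q _ => (1 : K) ∈ Q := fop_mem IsT.one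
  have h2 : FOP (α := ℕ) fun K _ Q _ => ∀ x y : K, x ∈ Q → y ∈ Q → x + y ∈ Q :=
    FOP.of (fop_all (fop_all ((fop_mem (IsT.var 1)).imp ((fop_mem (IsT.var 0)).imp
      (fop_mem ((IsT.var 1).add (IsT.var 0))))))) rfl
  have h3 : FOP (α := ℕ) fun K _ Q _ => ∀ x : K, x ∈ Q → -x ∈ Q :=
    FOP.of (fop_all ((fop_mem (IsT.var 0)).imp (fop_mem ((IsT.var 0).neg)))) rfl
  have h4 : FOP (α := ℕ) fun K _ Q _ => ∀ x y : K, x ∈ Q → y ∈ Q → x * y ∈ Q :=
    FOP.of (fop_all (fop_all ((fop_mem (IsT.var 1)).imp ((fop_mem (IsT.var 0)).imp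
      (fop_mem ((IsT.var 1).mul (IsT.var 0))))))) rfl
  have h5 : FOP (α := ℕ) fun K _ Q _ => ∀ x y : K, x * y = 1 → x ∈ Q ∨ y ∈ Q :=
    FOP.of (fop_all (fop_all ((fop_eq ((IsT.var 1).mul (IsT.var 0)) IsT.one).imp
      ((fop_mem (IsT.var 1)).or (fop_mem (IsT.var 0)))))) rfl
  have h6 : FOP (α := ℕ) fun K _ Q _ => ∀ x : K, x ∈ Q → ¬ UN K Q x → PW q K Q (1 + x) :=
    FOP.of (fop_all ((fop_mem (IsT.var 0)).imp ((f_UN.app (IsT.var 0)).not.imp
      ((f_PW q).app (IsT.one.add (IsT.var 0)))))) rfl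
  have h7 : FOP (α := ℕ) fun K _ Q _ => ∃ a : K, ¬ PW q K Q a :=
    FOP.of (fop_ex ((f_PW q).app (IsT.var 0)).not) rfl
  have h8 : FOP (α := ℕ) fun K _ Q _ => ¬ ∃ c u : K, SQ q K Q u c :=
    FOP.of (fop_ex (fop_ex ((f_SQ q).app (IsT.var 0) (IsT.var 1)))).not rfl
  refine (h1.and (h2.and (h3.and (h4.and (h5.and (h6.and (h7.and h8))))))).congr
    fun K _ Q v => ⟨fun h => ⟨h.1, h.2.1, h.2.2.1, h.2.2.2.1, h.2.2.2.2.1, h.2.2.2.2.2.1,
      h.2.2.2.2.2.2.1, h.2.2.2.2.2.2.2⟩, fun h => ⟨h.1, h.2, h.3, h.4, h.5, h.6, h.7, h.8⟩⟩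

theorem pq_transfer {q : ℕ} {K K' : Type} [Field K] [CompatibleRing K] [Field K']
    [CompatibleRing K'] {P : Set K} {Q : Set K'}
    (hS : Same FirstOrder.Language.ring (fun _ : Fin 1 => P) (fun _ : Fin 1 => Q))
    (hP : PQ q K P) : PQ q K' Q :=
  FOP.transfer (fop_subst (β := Empty) (f_PQ q) (fun _ K _ _ => (0 : K)) fun _ => IsT.zero) hS hP

end Pool.Agent.T9h39.Nd
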