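import Pool.Agent.T9h39.Nd3

set_option autoImplicit false

/-!
# Transfer of definable valuation rings to elementarily equivalent fields
-/

namespace Pool.Agent.T9h39.Nd

open FirstOrder FirstOrder.Language FirstOrder.Ring Pool.Agent.N616.NH

section calculus

variable {p : ℕ}

/-- predicates given by ring formulas, with parameters -/
def RF (Φ : ∀ (K : Type) [Field K] [CompatibleRing K], (ℕ → K) → (Fin p → K) → Prop) : Prop :=
  ∃ φ : Language.ring.Formula (ℕ ⊕ Fin p), ∀ (K : Type) [Field K] [CompatibleRing K] (v : ℕ → K)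
    (c : Fin p → K), φ.Realize (Sum.elim v c) ↔ Φ K v c

variable {Φ Ψ : ∀ (K : Type) [Field K] [CompatibleRing K], (ℕ → K) → (Fin p → K) → Prop}
  {t s : ∀ (K : Type) [Field K], (ℕ → K) → K}

theorem RF.mem (ψ : Language.ring.Formula (Fin 1 ⊕ Fin p)) (ht : IsT t) :
    RF fun K _ _ v (c : Fin p → K) => ψ.Realize (Sum.elim (fun _ => t K v) c) := by
  obtain ⟨q, hq⟩ := ht
  refine ⟨BoundedFormula.subst ψ (Sum.elim
    (fun _ => (termOfFreeCommRing q).relabel Sum.inl) (fun j => Term.var (Sum.inr j))),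
    fun K _ _ v c => ?_⟩
  unfold Formula.Realize
  rw [BoundedFormula.realize_subst]
  have e : (fun a => Term.realize (Sum.elim v c) ((Sum.elim
      (fun _ => (termOfFreeCommRing q).relabel Sum.inl) (fun j => Term.var (Sum.inr j)) :
        Fin 1 ⊕ Fin p → Language.ring.Term (ℕ ⊕ Fin p)) a)) =
      Sum.elim (fun _ => t K v) c := by
    funext a
    rcases a with a | a
    · show Term.realize (Sum.elim v c) ((termOfFreeCommRing q).relabel Sum.inl) = t K v
      rw [Term.realize_relabel, Sum.elim_comp_inl, realize_termOfFreeCommRing, hq]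
    · rfl
  rw [e]

theorem RF.eq (ht : IsT t) (hs : IsT s) :
    RF fun K _ _ v (_ : Fin p → K) => t K v = s K v := by
  obtain ⟨a, ha⟩ := ht
  obtain ⟨b, hb⟩ := hs
  refine ⟨Term.equal ((termOfFreeCommRing a).relabel Sum.inl)
    ((termOfFreeCommRing b).relabel Sum.inl), fun K _ _ v c => ?_⟩
  rw [Formula.realize_equal, Term.realize_relabel, Term.realize_relabel, Sum.elim_comp_inl,
    realize_termOfFreeCommRing, realize_termOfFreeCommRing, ha, hb]

theorem RF.not (h : RF Φ) : RF fun K _ _ v c => ¬ Φ K v c := by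
  obtain ⟨φ, hφ⟩ := h
  refine ⟨φ.not, fun K _ _ v c => ?_⟩
  rw [Formula.realize_not, hφ]

theorem RF.and (h : RF Φ) (h' : RF Ψ) : RF fun K _ _ v c => Φ K v c ∧ Ψ K v c := by
  obtain ⟨φ, hφ⟩ := h
  obtain ⟨ψ, hψ⟩ := h'
  refine ⟨φ ⊓ ψ, fun K _ _ v c => ?_⟩
  rw [Formula.realize_inf, hφ, hψ]

theorem RF.or (h : RF Φ) (h' : RF Ψ) : RF fun K _ _ v c => Φ K v c ∨ Ψ K v c := by
  obtain ⟨φ, hφ⟩ := h
  obtain ⟨ψ, hψ⟩ := h'
  refine ⟨φ ⊔ ψ, fun K _ _ v c => ?_⟩
  rw [Formula.realize_sup, hφ, hψ]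

theorem RF.imp (h : RF Φ) (h' : RF Ψ) : RF fun K _ _ v c => Φ K v c → Ψ K v c := by
  obtain ⟨φ, hφ⟩ := h
  obtain ⟨ψ, hψ⟩ := h'
  refine ⟨φ.imp ψ, fun K _ _ v c => ?_⟩
  rw [Formula.realize_imp, hφ, hψ]

theorem RF.ex (h : RF Φ) : RF fun K _ _ v c => ∃ x : K, Φ K (cons x v) c := by
  obtain ⟨φ, hφ⟩ := h
  let g : ℕ ⊕ Fin p → (ℕ ⊕ Fin p) ⊕ Fin 1 := Sum.elim
    (fun n => match n with
      | 0 => Sum.inr 0
      | (n + 1) => Sum.inl (Sum.inl n)) (fun j => Sum.inl (Sum.inr j))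
  refine ⟨(φ.relabel g).iExs (Fin 1), fun K _ _ v c => ?_⟩
  rw [Formula.realize_iExs]
  have e : ∀ w : Fin 1 → K, (Sum.elim (Sum.elim v c) w) ∘ g = Sum.elim (cons (w 0) v) c := by
    intro w
    funext a
    rcases a with a | a
    · cases a with
      | zero => rfl
      | succ n => rfl
    · rfl
  constructor
  · rintro ⟨w, hw⟩
    rw [Formula.realize_relabel, e, hφ] at hw
    exact ⟨w 0, hw⟩
  · rintro ⟨x, hx⟩
    refine ⟨fun _ => x, ?_⟩
    rw [Formula.realize_relabel, e, hφ]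
    exact hx

theorem RF.all (h : RF Φ) : RF fun K _ _ v c => ∀ x : K, Φ K (cons x v) c := by
  obtain ⟨φ, hφ⟩ := h.not.ex.not
  refine ⟨φ, fun K _ _ v c => ?_⟩
  rw [hφ]
  push Not
  exact Iff.rfl

theorem RF.of (h : RF Φ) (e : @Φ = @Ψ) : RF Ψ := e ▸ h

end calculus

/-- The formula `ψ` with the parameters `c` defines a valuation ring different from `K`. -/
structure IsVR {K : Type} [Field K] (Q : Set K) : Prop where
  one : (1 : K) ∈ Q
  add : ∀ x y : K, x ∈ Q → y ∈ Q → x + y ∈ Q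
  neg : ∀ x : K, x ∈ Q → -x ∈ Q
  mul : ∀ x y : K, x ∈ Q → y ∈ Q → x * y ∈ Q
  total : ∀ x y : K, x * y = 1 → x ∈ Q ∨ y ∈ Q

/-- the valuation ring -/
def IsVR.ring {K : Type} [Field K] {Q : Set K} (h : IsVR Q) : ValuationSubring K where
  carrier := Q
  mul_mem' hx hy := h.mul _ _ hx hy
  one_mem' := h.one
  add_mem' hx hy := h.add _ _ hx hy
  zero_mem' := by
    have := h.add 1 (-1) h.one (h.neg 1 h.one)
    rwa [add_neg_cancel] at this
  neg_mem' hx := h.neg _ hx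
  mem_or_inv_mem' x := by
    by_cases hx0 : x = 0
    · left
      rw [hx0]
      have := h.add 1 (-1) h.one (h.neg 1 h.one)
      rwa [add_neg_cancel] at this
    · exact h.total x x⁻¹ (mul_inv_cancel₀ hx0)

theorem IsVR.mem_ring {K : Type} [Field K] {Q : Set K} (h : IsVR Q) {x : K} : x ∈ h.ring ↔ x ∈ Q :=
  Iff.rfl

theorem isVR_of {K : Type} [Field K] (O : ValuationSubring K) : IsVR (O : Set K) :=
  ⟨O.one_mem, fun _ _ => O.add_mem _ _, fun _ => O.neg_mem _, fun _ _ => O.mul_mem _ _,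
    fun x y hxy => by
      have hy : y = x⁻¹ := eq_inv_of_mul_eq_one_right hxy
      rw [hy]
      exact O.mem_or_inv_mem x⟩

/-- Definable valuation rings can be transferred to elementarily equivalent fields. -/
theorem transfer_dfb {K K' : Type} [Field K] [CompatibleRing K] [Field K'] [CompatibleRing K']
    (he : Language.ring.ElementarilyEquivalent K K')
    (h : ∃ O : ValuationSubring K', O ≠ ⊤ ∧ Dfb O) : ∃ O : ValuationSubring K, O ≠ ⊤ ∧ Dfb O := by
  obtain ⟨O, hO, p, ψ, c, hψ⟩ := h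
  have m : ∀ {t : ∀ (K : Type) [Field K], (ℕ → K) → K}, IsT t →
      RF fun K _ _ v (c : Fin p → K) => ψ.Realize (Sum.elim (fun _ => t K v) c) :=
    fun ht => RF.mem ψ ht
  have h1 : RF (p := p) fun K _ _ v c => ψ.Realize (Sum.elim (fun _ => (1 : K)) c) := m IsT.one
  have h2 := RF.of ((m (IsT.var 1)).imp ((m (IsT.var 0)).imp
    (m ((IsT.var 1).add (IsT.var 0))))).all.all (Ψ := fun K _ _ v c => ∀ x y : K,
      ψ.Realize (Sum.elim (fun _ => x) c) → ψ.Realize (Sum.elim (fun _ => y) c) →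
        ψ.Realize (Sum.elim (fun _ => x + y) c)) rfl
  have h3 := RF.of ((m (IsT.var 0)).imp (m (IsT.var 0).neg)).all (Ψ := fun K _ _ v c => ∀ x : K,
      ψ.Realize (Sum.elim (fun _ => x) c) → ψ.Realize (Sum.elim (fun _ => -x) c)) rfl
  have h4 := RF.of ((m (IsT.var 1)).imp ((m (IsT.var 0)).imp
    (m ((IsT.var 1).mul (IsT.var 0))))).all.all (Ψ := fun K _ _ v c => ∀ x y : K,
      ψ.Realize (Sum.elim (fun _ => x) c) → ψ.Realize (Sum.elim (fun _ => y) c) →
        ψ.Realize (Sum.elim (fun _ => x * y) c)) rfl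
  have h5 := RF.of ((RF.eq ((IsT.var 1).mul (IsT.var 0)) IsT.one).imp
    ((m (IsT.var 1)).or (m (IsT.var 0)))).all.all (Ψ := fun K _ _ v c => ∀ x y : K, x * y = 1 →
      ψ.Realize (Sum.elim (fun _ => x) c) ∨ ψ.Realize (Sum.elim (fun _ => y) c)) rfl
  have h6 := RF.of (m (IsT.var 0)).not.ex (Ψ := fun K _ _ v c => ∃ x : K,
      ¬ ψ.Realize (Sum.elim (fun _ => x) c)) rfl
  obtain ⟨φ, hφ⟩ := h1.and (h2.and (h3.and (h4.and (h5.and h6))))
  -- the sentence
  let θ : Language.ring.Formula (ℕ ⊕ Fin p) := φ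
  let θ' : Language.ring.Formula (Empty ⊕ Fin p) := BoundedFormula.subst θ
    (Sum.elim (fun _ => 0) (fun j => Term.var (Sum.inr j)) :
      ℕ ⊕ Fin p → Language.ring.Term (Empty ⊕ Fin p))
  let χ : Language.ring.Sentence := Formula.iExs (Fin p) θ'
  have hχ : ∀ (K : Type) [Field K] [CompatibleRing K], χ.Realize K ↔
      ∃ c : Fin p → K, θ.Realize (Sum.elim (fun _ => 0) c) := by
    intro K _ _
    show Formula.Realize (Formula.iExs (Fin p) θ') default ↔ _
    rw [Formula.realize_iExs]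
    refine exists_congr fun c => ?_
    show BoundedFormula.Realize _ _ _ ↔ BoundedFormula.Realize _ _ _
    rw [BoundedFormula.realize_subst]
    have e : (fun a => Term.realize (Sum.elim default c) ((Sum.elim (fun _ => 0)
        (fun j => Term.var (Sum.inr j)) : ℕ ⊕ Fin p → Language.ring.Term (Empty ⊕ Fin p)) a)) =
        Sum.elim (fun _ => (0 : K)) c := by
      funext a
      rcases a with a | a
      · exact realize_zero _
      · rfl
    rw [e]
  have hK' : χ.Realize K' := by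
    rw [hχ]
    refine ⟨c, (hφ K' _ _).2 ?_⟩
    have hv := isVR_of O
    obtain ⟨x, hx⟩ := (ne_top_iff O).1 hO
    simp only [← hψ]
    exact ⟨hv.one, hv.add, hv.neg, hv.mul, hv.total, x, hx⟩
  have hK : χ.Realize K := (elementarilyEquivalent_iff.1 he χ).2 hK'
  rw [hχ] at hK
  obtain ⟨d, hd⟩ := hK
  obtain ⟨a1, a2, a3, a4, a5, x, hx⟩ := (hφ K _ _).1 hd
  let Q : Set K := {x | ψ.Realize (Sum.elim (fun _ => x) d)}
  have hQ : IsVR Q := ⟨a1, a2, a3, a4, a5⟩
  refine ⟨hQ.ring, ?_, p, ψ, d, fun x => Iff.rfl⟩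
  rw [ne_top_iff]
  exact ⟨x, hx⟩

end Pool.Agent.T9h39.Nd
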