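import Pool.Agent.T9h39.Nd4
import Pool.Agent.R492.DV.Kueker
import Pool.Agent.N616.NH.DFA
import Pool.Agent.N616.NH.DFB
import Pool.Agent.N616.NH.DJ
import Pool.Agent.N616.NH.DEF1

set_option autoImplicit false

/-!
# Definability of a nontrivial valuation ring, and interpretation in a finite extension
-/

namespace Pool.Agent.T9h39.Nd

open FirstOrder FirstOrder.Language FirstOrder.Ring Pool.Agent.N616.NH
open Pool.Agent.N616.NH.DJ_ Pool.Agent.N616.NH.DFA_ Pool.Agent.N616.NH.DFB_
open Pool.Agent.R492.DV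

section interp

variable (K : Type) [Field K] [CompatibleRing K] (L : Type) [Field L] [CompatibleRing L]
  [Algebra K L] [FiniteDimensional K L]

omit [CompatibleRing K] [Algebra K L] [FiniteDimensional K L] in
theorem term_poly {ι : Type} (t : Language.ring.Term ι) :
    ∃ P : MvPolynomial ι L, ∀ v : ι → L, t.realize v = MvPolynomial.eval v P := by
  induction t with
  | var i => exact ⟨MvPolynomial.X i, fun v => (MvPolynomial.eval_X i).symm⟩
  | func f ts ih =>
    choose P hP using ih
    cases f with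
    | add =>
      refine ⟨P 0 + P 1, fun v => ?_⟩
      rw [map_add, ← hP, ← hP]
      exact CompatibleRing.funMap_add _
    | mul =>
      refine ⟨P 0 * P 1, fun v => ?_⟩
      rw [map_mul, ← hP, ← hP]
      exact CompatibleRing.funMap_mul _
    | neg =>
      refine ⟨-P 0, fun v => ?_⟩
      rw [map_neg, ← hP]
      exact CompatibleRing.funMap_neg _
    | zero =>
      refine ⟨0, fun v => ?_⟩
      rw [map_zero]
      exact CompatibleRing.funMap_zero _
    | one =>
      refine ⟨1, fun v => ?_⟩
      rw [map_one]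
      exact CompatibleRing.funMap_one _

/-- Formulas of the finite extension are definable relations. -/
theorem realize_D {α : Type} [Finite α] {n : ℕ} (φ : Language.ring.BoundedFormula α n) :
    D K (fun v : α ⊕ Fin n → L => φ.Realize (fun a => v (Sum.inl a)) (fun i => v (Sum.inr i))) := by
  induction φ with
  | falsum =>
    refine D_congr (fun v => ?_) (D_not DFA (D_true DFB))
    simp [BoundedFormula.Realize]
  | @equal n t₁ t₂ =>
    obtain ⟨P, hP⟩ := term_poly L t₁
    obtain ⟨Q, hQ⟩ := term_poly L t₂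
    refine D_congr (fun v => ?_) (D_poly DFB (P - Q))
    have e : (Sum.elim (fun a => v (Sum.inl a)) (fun i => v (Sum.inr i)) : α ⊕ Fin n → L) = v := by
      funext x
      rcases x with x | x <;> rfl
    show _ ↔ t₁.realize _ = t₂.realize _
    rw [e, hP, hQ, map_sub, sub_eq_zero]
  | rel R ts => exact R.elim
  | imp _ _ ih1 ih2 => exact D_imp DFA ih1 ih2
  | @all n φ ih =>
    let f : α ⊕ Fin (n + 1) → (α ⊕ Fin n) ⊕ Fin 1 := Sum.elim (fun a => Sum.inl (Sum.inl a))
      (Fin.snoc (α := fun _ => (α ⊕ Fin n) ⊕ Fin 1) (fun i => Sum.inl (Sum.inr i)) (Sum.inr 0))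
    refine D_congr (fun v => ?_) (D_all1 DFA (D_re DFA f ih))
    show _ ↔ ∀ x : L, φ.Realize _ (Fin.snoc _ x)
    refine forall_congr' fun x => ?_
    have e : (fun i : Fin (n + 1) => (Sum.elim v (fun _ : Fin 1 => x) : (α ⊕ Fin n) ⊕ Fin 1 → L)
        (f (Sum.inr i))) = Fin.snoc (α := fun _ => L) (fun i => v (Sum.inr i)) x := by
      funext i
      refine Fin.lastCases ?_ (fun i => ?_) i
      · simp [f]
      · simp [f]
    rw [e]
    exact Iff.rfl

/-- Fix the parameters. -/
theorem D_of_dfb {O : ValuationSubring L} (hO : Dfb O) : D K (fun v : Fin 1 → L => v 0 ∈ O) := by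
  obtain ⟨p, ψ, c, hψ⟩ := hO
  have h1 := realize_D K L ψ
  let f : (Fin 1 ⊕ Fin p) ⊕ Fin 0 → Fin 1 ⊕ Fin p := Sum.elim id (fun i => i.elim0)
  have h2 : D K (fun v : Fin 1 ⊕ Fin p → L => ψ.Realize v) := by
    refine D_congr (fun v => ?_) (D_re DFA f h1)
    show _ ↔ BoundedFormula.Realize ψ v default
    have e : (fun i : Fin 0 => v (f (Sum.inr i))) = default := Subsingleton.elim _ _
    rw [← e]
    exact Iff.rfl
  have h3 : D K (fun v : Fin 1 ⊕ Fin p → L => ∀ j : Fin p, MvPolynomial.eval v
      (MvPolynomial.X (Sum.inr j) - MvPolynomial.C (c j)) = 0) :=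
    D_forall DFA DFB fun j => D_poly DFB _
  refine D_congr (fun v => ?_) (D_ex DFA (D_and DFA h2 h3))
  rw [hψ]
  have e0 : (fun _ : Fin 1 => v 0) = v := by
    funext i
    rw [Subsingleton.elim i 0]
  rw [e0]
  constructor
  · rintro ⟨w, hw1, hw2⟩
    have : w = c := by
      funext j
      have := hw2 j
      rwa [map_sub, MvPolynomial.eval_X, MvPolynomial.eval_C, Sum.elim_inr, sub_eq_zero] at this
    rwa [← this]
  · intro h
    refine ⟨c, h, fun j => ?_⟩
    rw [map_sub, MvPolynomial.eval_X, MvPolynomial.eval_C, Sum.elim_inr, sub_self]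

omit [CompatibleRing L] in
/-- Restrict to the base field. -/
theorem dfb_of_D {O : ValuationSubring L} (hO : D K (fun v : Fin 1 → L => v 0 ∈ O)) :
    Dfb (O.comap (algebraMap K L)) := by
  have h1 : DfK {u : Fin 1 × Fin (Module.finrank K L) → K |
      (co K L fun j => u (0, j)) ∈ O} := hO
  let r : Fin (Module.finrank K L) → K := fun j => (Module.finBasis K L).repr 1 j
  have hr : ∀ x : K, co K L (fun j => r j * x) = algebraMap K L x := by
    intro x
    have h2 : co K L (fun j => r j) = 1 := co_surj K L 1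
    have h3 : co K L (fun j => r j * x) = algebraMap K L x * co K L (fun j => r j) := by
      unfold co
      rw [Finset.mul_sum]
      refine Finset.sum_congr rfl fun j _ => ?_
      rw [Algebra.smul_def, Algebra.smul_def, map_mul]
      ring
    rw [h3, h2, mul_one]
  have h2 : DfK {s : Fin 1 ⊕ (Fin 1 × Fin (Module.finrank K L)) → K |
      (fun x => s (Sum.inr x)) ∈ {u : Fin 1 × Fin (Module.finrank K L) → K |
      (co K L fun j => u (0, j)) ∈ O}} := dfK_pre Sum.inr h1
  have h3 : DfK {s : Fin 1 ⊕ (Fin 1 × Fin (Module.finrank K L)) → K |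
      ∀ j ∈ (Finset.univ : Finset (Fin (Module.finrank K L))),
        s ∈ {s : Fin 1 ⊕ (Fin 1 × Fin (Module.finrank K L)) → K |
          s (Sum.inr (0, j)) = r j * s (Sum.inl 0)}} :=
    dfk_all _ fun j => dfk_eq (Tm.var _) ((Tm.const _).mul (Tm.var _))
  have h4 := dfK_proj (dfK_inter h2 h3)
  obtain ⟨p, ψ, c, hψ⟩ := h4
  refine ⟨p, ψ, c, fun x => ?_⟩
  rw [← hψ (fun _ => x)]
  show algebraMap K L x ∈ O ↔ ∃ w : Fin 1 × Fin (Module.finrank K L) → K,
    (co K L fun j => w (0, j)) ∈ O ∧ ∀ j ∈ (Finset.univ : Finset (Fin (Module.finrank K L))),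
      w (0, j) = r j * x
  constructor
  · intro h
    refine ⟨fun a => r a.2 * x, ?_, fun j _ => rfl⟩
    rw [hr]
    exact h
  · rintro ⟨w, hw1, hw2⟩
    have e : (fun j => w (0, j)) = fun j => r j * x := funext fun j => hw2 j (Finset.mem_univ j)
    rw [e, hr] at hw1
    exact hw1

/-- Definable valuation rings of finite extensions. -/
theorem dfb_comap {O : ValuationSubring L} (hO : Dfb O) : Dfb (O.comap (algebraMap K L)) :=
  dfb_of_D K L (D_of_dfb K L hO)

omit [CompatibleRing K] [CompatibleRing L] in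
theorem comap_ne_top {O : ValuationSubring L} (hO : O ≠ ⊤) : O.comap (algebraMap K L) ≠ ⊤ := by
  intro h
  apply hO
  rw [eq_top_iff]
  intro x _
  have hint : IsIntegral K x := Algebra.IsIntegral.isIntegral x
  have hle : ∀ y : K, algebraMap K L y ∈ O := fun y => by
    have : y ∈ O.comap (algebraMap K L) := by
      rw [h]
      trivial
    exact this
  -- `O` is integrally closed
  by_contra hx
  have hv : 1 < O.valuation x := not_le.1 fun h1 => hx ((le_one O).1 h1)
  obtain ⟨f, hf, hfx⟩ := hint
  have h2 : O.valuation (x ^ f.natDegree) ≤ O.valuation (x ^ f.natDegree) := le_rfl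
  rw [Polynomial.eval₂_eq_sum_range, Finset.sum_range_succ, Polynomial.coeff_natDegree,
    hf.leadingCoeff, map_one, one_mul] at hfx
  have h3 : x ^ f.natDegree =
      -∑ i ∈ Finset.range f.natDegree, algebraMap K L (f.coeff i) * x ^ i := by
    linear_combination hfx
  have h4 : O.valuation (x ^ f.natDegree) < O.valuation (x ^ f.natDegree) := by
    nth_rewrite 1 [h3]
    rw [Valuation.map_neg]
    refine Valuation.map_sum_lt _ ?_ fun i hi => ?_
    · exact (pow_pos (lt_trans zero_lt_one hv) _).ne' ∘ fun h => by rw [map_pow] at h; exact h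
    · rw [map_mul, map_pow, map_pow]
      calc O.valuation (algebraMap K L (f.coeff i)) * O.valuation x ^ i ≤
          1 * O.valuation x ^ i := mul_le_mul_left ((le_one O).2 (hle _)) _
        _ = O.valuation x ^ i := one_mul _
        _ < _ := pow_lt_pow_right₀ hv (Finset.mem_range.1 hi)
  exact lt_irrefl _ h4

end interp

end Pool.Agent.T9h39.Nd
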