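import Pool.Agent.T9h39.Nd5

set_option autoImplicit false

/-!
# Fields of characteristic `p` with a compatible valuation ring have a definable valuation ring
-/

namespace Pool.Agent.T9h39.Nd

open FirstOrder FirstOrder.Language FirstOrder.Ring Pool.Agent.N616.NH
open Pool.Agent.N616.NH.DJ_ Pool.Agent.R492.DV

section expl

variable {L : Type} [Field L] [CompatibleRing L]

theorem D_pw (q : ℕ) {ι : Type} [Finite ι] (P : MvPolynomial ι L) :
    D L (fun v : ι → L => Pw q (MvPolynomial.eval v P)) := by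
  have h1 : D L (fun v : ι ⊕ Fin 1 → L => MvPolynomial.eval v
      (MvPolynomial.rename Sum.inl P - MvPolynomial.X (Sum.inr 0) ^ q) = 0) := D_poly DFB _
  refine D_congr (fun v => ?_) (D_ex1 DFA h1)
  refine exists_congr fun y => ?_
  rw [map_sub, map_pow, MvPolynomial.eval_X, MvPolynomial.eval_rename, Sum.elim_comp_inl,
    Sum.elim_inr, sub_eq_zero]

theorem D_x1 (q : ℕ) {ι : Type} [Finite ι] (P : MvPolynomial ι L) :
    D L (fun v : ι → L => X1 q (MvPolynomial.eval v P)) := by
  refine D_congr (fun v => ?_) (D_and DFA (D_not DFA (D_pw q P)) (D_pw q (1 + P)))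
  unfold X1
  rw [map_add, map_one]

theorem D_xa (q : ℕ) : D L (fun v : Fin 1 → L => XA q (v 0)) := by
  have h0 : D L (fun v : Fin 1 → L => ¬ MvPolynomial.eval v (MvPolynomial.X 0) = 0) :=
    D_not DFA (D_poly DFB _)
  have h1 : D L (fun v : Fin 1 → L => ¬ X1 q (MvPolynomial.eval v (MvPolynomial.X 0))) :=
    D_not DFA (D_x1 q _)
  have h2 : D L (fun v : Fin 1 ⊕ Fin 1 → L => X1 q (MvPolynomial.eval v
      (MvPolynomial.X (Sum.inr 0))) → X1 q (MvPolynomial.eval v
      (MvPolynomial.X (Sum.inl 0) * MvPolynomial.X (Sum.inr 0)))) :=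
    D_imp DFA (D_x1 q _) (D_x1 q _)
  have h3 : D L (fun v : Fin 1 → L => Pw q (MvPolynomial.eval v (MvPolynomial.X 0)) ∧
      ∀ z : L, X1 q z → X1 q (v 0 * z)) := by
    refine D_and DFA (D_pw q _) (D_congr (fun v => ?_) (D_all1 DFA h2))
    simp only [MvPolynomial.eval_X, map_mul, Sum.elim_inr, Sum.elim_inl]
  refine D_congr (fun v => ?_) (D_not DFA (D_and DFA h0 (D_and DFA h1 (D_not DFA h3))))
  unfold XA
  simp only [MvPolynomial.eval_X]
  tauto

/-- The explicit case. -/
theorem explicit_dfb {q : ℕ} (hq : q ≠ 0) {O : ValuationSubring L}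
    (hO : ∀ x, O.valuation x = 1 → Pw q x) {a : L} (ha : ¬ Pw q a) :
    ∃ A : ValuationSubring L, A ≠ ⊤ ∧ Dfb A := by
  obtain ⟨A, hA, hA'⟩ := explicit hq hO ha
  refine ⟨A, hA, ?_⟩
  have h1 : Dfb (A.comap (algebraMap L L)) :=
    dfb_of_D L L (D_congr (fun v => (hA' (v 0)).symm) (D_xa q))
  exact h1

end expl

/-! ### The first-order property and the valuation rings -/

section prop

variable {K : Type} [Field K]

theorem un_iff (O : ValuationSubring K) (x : K) : UN K (O : Set K) x ↔ O.valuation x = 1 := by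
  unfold UN
  constructor
  · rintro ⟨h1, z, h2, h3⟩
    have hx0 : x ≠ 0 := left_ne_zero_of_mul_eq_one h3
    have h4 := (le_one O).2 h1
    have h5 : O.valuation z ≤ 1 := (le_one O).2 h2
    have h6 : z = x⁻¹ := eq_inv_of_mul_eq_one_right h3
    rw [h6, map_inv₀] at h5
    exact le_antisymm h4 ((inv_le_one₀ (zero_lt_iff.2 ((map_ne_zero _).2 hx0))).1 h5)
  · intro h
    have hx0 : x ≠ 0 := by
      rintro rfl
      rw [map_zero] at h
      exact zero_ne_one h
    exact ⟨(le_one O).1 h.le, x⁻¹, (le_one O).1 (by rw [map_inv₀, h, inv_one]),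
      mul_inv_cancel₀ hx0⟩

theorem bq_iff (q : ℕ) (O : ValuationSubring K) {u : K} (hu : O.valuation u = 1) (x : K) :
    BQ q K (O : Set K) u x ↔ BB q O u x := by
  have hu0 : u ≠ 0 := by
    rintro rfl
    rw [map_zero] at hu
    exact zero_ne_one hu
  unfold BQ BB
  rw [un_iff, un_iff, le_one]
  refine and_congr_right fun _ => and_congr_right fun _ => and_congr_right fun _ =>
    and_congr_right fun _ => exists_congr fun y => ?_
  rw [← div_eq_mul_inv, div_eq_iff hu0, mul_comm u]

theorem bb_zero (q : ℕ) (O : ValuationSubring K) {u : K} (hu : O.valuation u = 1) :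
    BB q O u 0 := by
  have hu0 : u ≠ 0 := by
    rintro rfl
    rw [map_zero] at hu
    exact zero_ne_one hu
  refine ⟨by rw [map_zero]; exact zero_le_one, by rw [add_zero, map_one], by
    rw [add_zero]; exact Pw.one q, by rw [add_zero, hu], ?_⟩
  rw [add_zero, mul_inv_cancel₀ hu0]
  exact Pw.one q

theorem sq_iff (q : ℕ) (O : ValuationSubring K) :
    (∃ c u : K, SQ q K (O : Set K) u c) ↔ Sg q O := by
  unfold SQ Sg
  rw [exists_comm]
  refine exists_congr fun u => exists_congr fun c => ?_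
  rw [un_iff, un_iff]
  refine and_congr_right fun hu => and_congr_right fun hc => ?_
  simp only [bq_iff q O hu, un_iff]
  refine and_congr_right fun _ => and_congr_right fun _ => and_congr ?_ Iff.rfl
  refine forall_congr' fun x => ?_
  rw [le_one]
  refine imp_congr_right fun _ => imp_congr_right fun hx => ?_
  have hx0 : x ≠ 0 := by
    rintro rfl
    exact hx (bb_zero q O hu)
  constructor
  · rintro ⟨z, hz, h⟩
    rwa [eq_inv_of_mul_eq_one_right hz] at h
  · intro h
    exact ⟨x⁻¹, mul_inv_cancel₀ hx0, h⟩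

theorem cmp_of_pq {q : ℕ} {O : ValuationSubring K} (h : PQ q K (O : Set K)) : Cmp q O := by
  intro x hx
  refine h.cmp x ((le_one O).1 hx.le) fun h1 => ?_
  rw [un_iff] at h1
  exact absurd h1 hx.ne

theorem pq_of {q : ℕ} {O : ValuationSubring K} (h : Cmp q O) {a : K} (ha : ¬ Pw q a)
    (hs : ¬ Sg q O) : PQ q K (O : Set K) := by
  have hv := isVR_of O
  refine ⟨hv.one, hv.add, hv.neg, hv.mul, hv.total, fun x hx hx1 => ?_, ⟨a, ha⟩, ?_⟩
  · rw [un_iff] at hx1
    exact h x (lt_of_le_of_ne ((le_one O).2 hx) hx1)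
  · rw [sq_iff]
    exact hs

end prop

/-- **Definable valuation rings.** Let `L` be a field of characteristic `p` and `q` prime to `p`. If
`L` has a valuation ring `O ≠ L` such that all elements `1 + x`, `x` in the maximal ideal of `O`, are
`q`-th powers, but not all elements of `L` are `q`-th powers, then `L` has a valuation ring
different from `L` which is definable in the language of rings. -/
theorem jk (L : Type) [Field L] [CompatibleRing L] (p : ℕ) [Fact p.Prime] [CharP L p] {q : ℕ}
    (hq : q ≠ 0) (hpq : p.Coprime q) {O₀ : ValuationSubring L} (hO₀ : O₀ ≠ ⊤) (hc₀ : Cmp q O₀)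
    {a : L} (ha : ¬ Pw q a) : ∃ A : ValuationSubring L, A ≠ ⊤ ∧ Dfb A := by
  by_cases hI : ∃ (L' : Type) (_ : Field L') (_ : CompatibleRing L'),
      Language.ring.ElementarilyEquivalent L L' ∧
      ∃ O' : ValuationSubring L', (∀ x : L', O'.valuation x = 1 → Pw q x) ∧ ∃ b : L', ¬ Pw q b
  · obtain ⟨L', _, _, he, O', hO', b, hb⟩ := hI
    exact transfer_dfb he (explicit_dfb hq hO' hb)
  push Not at hI
  have hLL : Language.ring.ElementarilyEquivalent L L := by
    rw [elementarilyEquivalent_iff]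
    intro φ
    exact Iff.rfl
  have hcomp : ∀ O₁ O₂ : ValuationSubring L, Cmp q O₁ → Cmp q O₂ → O₁ ≤ O₂ ∨ O₂ ≤ O₁ :=
    fun O₁ O₂ h₁ h₂ => comparable (fun O hO => hI L _ _ hLL O hO) ha h₁ h₂
  set A := fin hcomp with hA
  have hAc : Cmp q A := fin_cmp hcomp
  have hAt : A ≠ ⊤ := by
    intro h
    apply hO₀
    rw [eq_top_iff, ← h]
    exact fin_le hcomp hc₀
  have hAs : ¬ Sg q A := by
    intro h
    obtain ⟨O', h1, h2, h3⟩ := exists_lt_of_sg hq p hpq hAc h
    exact h2 (le_antisymm h1 (fin_le hcomp h3))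
  have hP : PQ q L (A : Set L) := pq_of hAc ha hAs
  refine ⟨A, hAt, ?_⟩
  refine kueker Language.ring L (A : Set L) 2 ?_
  intro M' _ _ Q hQ hinj
  have he := DEF1_.eqv_of_same' (hQ 0)
  have : FirstOrder.Language.Theory.field.Model M' := by
    have h1 : FirstOrder.Language.Theory.field.Model L := inferInstance
    exact he.theory_model_iff.1 h1
  let _ := FirstOrder.Field.fieldOfModelField M'
  let _ := FirstOrder.Field.compatibleRingOfModelField M'
  have hPQ : ∀ i, PQ q M' (Q i) := fun i => pq_transfer (hQ i) hP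
  have hV : ∀ i, IsVR (Q i) := fun i => ⟨(hPQ i).one, (hPQ i).add, (hPQ i).neg, (hPQ i).mul,
    (hPQ i).total⟩
  have hR : ∀ i, PQ q M' ((hV i).ring : Set M') := hPQ
  obtain ⟨b, hb⟩ := (hPQ 0).npw
  have hI' : ∀ O' : ValuationSubring M', (∀ x : M', O'.valuation x = 1 → Pw q x) →
      ∀ b : M', Pw q b := fun O' h => hI M' _ _ he O' h
  have key : ∀ i j, (hV i).ring ≤ (hV j).ring → (hV i).ring = (hV j).ring := by
    intro i j hij
    by_contra hne
    obtain ⟨u, hu, hu1⟩ : ∃ u : M', (hV j).ring.valuation u = 1 ∧ ¬ Pw q u := by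
      by_contra hcon
      push Not at hcon
      exact hb (hI' _ hcon b)
    exact (hR j).nsg ((sq_iff q _).2 (sg_of_lt hij hne (cmp_of_pq (hR i)) hu hu1))
  have heq : (hV 0).ring = (hV 1).ring := by
    rcases comparable hI' hb (cmp_of_pq (hR 0)) (cmp_of_pq (hR 1)) with h | h
    · exact key 0 1 h
    · exact (key 1 0 h).symm
  have h01 : Q 0 = Q 1 := congrArg (fun A : ValuationSubring M' => (A : Set M')) heq
  exact absurd (hinj h01) (by decide)

end Pool.Agent.T9h39.Nd
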