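import Pool.Agent.T9h39.Nd1
import Pool.Agent.N616.NH.HEN
import Pool.Agent.N616.NH.FIN

set_option autoImplicit false

/-!
# Finite extensions of henselian valuation rings
-/

namespace Pool.Agent.T9h39.Nd

open Pool.Agent.N616.NH Polynomial

/-- The integral closures have no nontrivial idempotents modulo their Jacobson radicals, hence they
are local rings. -/
theorem loc {K : Type} [Field K] {O : ValuationSubring K} (H : HEN_.Hyp O) (L : Type) [Field L]
    [Algebra K L] [FiniteDimensional K L] : IsLocalRing (RI O L) := by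
  classical
  have hfin : Finite (MaximalSpectrum (RI O L)) := FIN K O L
  obtain ⟨M₀, hM₀⟩ := Ideal.exists_maximal (RI O L)
  refine IsLocalRing.of_unique_max_ideal ⟨M₀, hM₀, fun M hM => ?_⟩
  by_contra hne
  have hco : Pairwise (Function.onFun IsCoprime
      (fun m : MaximalSpectrum (RI O L) => m.asIdeal)) := by
    intro m m' hmm
    exact Ideal.isCoprime_of_isMaximal (fun h => hmm (MaximalSpectrum.ext h))
  obtain ⟨e, he⟩ := Ideal.exists_forall_sub_mem_ideal hco
    (fun m => if m.asIdeal = M then (1 : RI O L) else 0)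
  have hmem : ∀ x : RI O L, x ∈ Jac (RI O L) ↔ ∀ I : Ideal (RI O L), I.IsMaximal → x ∈ I := by
    intro x
    show x ∈ sInf {J : Ideal (RI O L) | ⊥ ≤ J ∧ J.IsMaximal} ↔ _
    rw [Ideal.mem_sInf]
    exact ⟨fun h I hI => h ⟨bot_le, hI⟩, fun h I hI => h I hI.2⟩
  have h1 : e - 1 ∈ M := by
    have := he ⟨M, hM⟩
    simpa using this
  have h2 : ∀ I : Ideal (RI O L), I.IsMaximal → I ≠ M → e ∈ I := by
    intro I hI hIM
    have := he ⟨I, hI⟩
    simpa [hIM] using this
  have h3 : e ^ 2 - e ∈ Jac (RI O L) := by
    rw [hmem]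
    intro I hI
    have e1 : e ^ 2 - e = e * (e - 1) := by ring
    rw [e1]
    by_cases hIM : I = M
    · rw [hIM]
      exact Ideal.mul_mem_left _ _ h1
    · exact Ideal.mul_mem_right _ _ (h2 I hI hIM)
  rcases H L e h3 with h4 | h4
  · rw [hmem] at h4
    have h5 : (1 : RI O L) ∈ M := by
      have := M.sub_mem (h4 M hM) h1
      rwa [sub_sub_cancel] at this
    exact hM.ne_top ((Ideal.eq_top_iff_one _).2 h5)
  · rw [hmem] at h4
    have h5 : (1 : RI O L) ∈ M₀ := by
      have := M₀.add_mem (h4 M₀ hM₀) (h2 M₀ hM₀ (Ne.symm hne))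
      rwa [sub_add_cancel] at this
    exact hM₀.ne_top ((Ideal.eq_top_iff_one _).2 h5)

/-- The `u`, `u⁻¹` lemma. -/
theorem u_inv {L : Type} [Field L] (R : Subring L) [IsLocalRing R]
    (hR : ∀ x : L, IsIntegral R x → x ∈ R) (z : L) : ∀ (n : ℕ) (f : R[X]), f.natDegree ≤ n →
    aeval z f = 0 → (∃ j, IsUnit (f.coeff j)) → z ∈ R ∨ ∃ w ∈ R, w * z = 1 := by
  intro n
  induction n with
  | zero =>
    intro f hf hz ⟨j, hj⟩
    exfalso
    rw [Polynomial.eq_C_of_natDegree_le_zero hf] at hz hj
    rw [aeval_C] at hz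
    have h1 : f.coeff 0 = 0 := Subtype.ext hz
    rw [h1, map_zero, coeff_zero] at hj
    exact not_isUnit_zero hj
  | succ n ih =>
    intro f hf hz ⟨j, hj⟩
    by_cases hd : f.natDegree ≤ n
    · exact ih f hd hz ⟨j, hj⟩
    have hdeg : f.natDegree = n + 1 := by omega
    have hint := isIntegral_leadingCoeff_smul f z hz
    have hb : ((f.leadingCoeff : R) : L) * z ∈ R := hR _ hint
    by_cases hlc : IsUnit f.leadingCoeff
    · left
      obtain ⟨w, hw⟩ := hlc.exists_left_inv
      have h1 : z = (w : L) * (((f.leadingCoeff : R) : L) * z) := by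
        have h2 := congrArg (Subtype.val) hw
        rw [Subring.coe_mul, Subring.coe_one] at h2
        rw [← mul_assoc, h2, one_mul]
      rw [h1]
      exact R.mul_mem w.2 hb
    set b : R := ⟨_, hb⟩ with hbdef
    by_cases hbu : IsUnit b
    · right
      obtain ⟨w, hw⟩ := hbu.exists_left_inv
      refine ⟨(w : L) * ((f.leadingCoeff : R) : L), R.mul_mem w.2 (Subtype.property _), ?_⟩
      have h2 := congrArg (Subtype.val) hw
      rw [Subring.coe_mul, Subring.coe_one] at h2
      rw [mul_assoc]
      exact h2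
    -- the new polynomial
    have hjn : j ≠ n + 1 := by
      rintro rfl
      apply hlc
      rw [leadingCoeff, hdeg]
      exact hj
    refine ih (f.eraseLead + C b * X ^ n) ?_ ?_ ⟨j, ?_⟩
    · refine (natDegree_add_le _ _).trans (max_le ?_ (natDegree_C_mul_X_pow_le _ _))
      have := eraseLead_natDegree_le f
      omega
    · have h1 : aeval z f = aeval z f.eraseLead + ((f.leadingCoeff : R) : L) * z ^ (n + 1) := by
        conv_lhs => rw [← eraseLead_add_C_mul_X_pow f]
        rw [map_add, map_mul, aeval_C, map_pow, aeval_X, hdeg]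
        rfl
      rw [map_add, map_mul, aeval_C, map_pow, aeval_X]
      rw [hz] at h1
      show aeval z f.eraseLead + (((f.leadingCoeff : R) : L) * z) * z ^ n = 0
      rw [h1]
      ring
    · rw [coeff_add, eraseLead_coeff, hdeg, if_neg hjn, coeff_C_mul_X_pow]
      split_ifs with hjn'
      · by_contra hcon
        exact hcon (by
          rcases IsLocalRing.isUnit_or_isUnit_of_isUnit_add
            (show IsUnit ((f.coeff j + b) + (-b)) by rwa [add_neg_cancel_right]) with h | h
          · exact h
          · exact absurd (by simpa using h) hbu)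
      · rwa [add_zero]

section ext

variable {K : Type} [Field K] (O : ValuationSubring K) (L : Type) [Field L] [Algebra K L]

theorem RI_closed (x : L) (hx : IsIntegral (RI O L) x) : x ∈ RI O L := by
  have h1 : (algebraMap (RI O L) L).IsIntegralElem x := hx
  -- transitivity of integrality
  let _ : Algebra O (RI O L) := (HEN_.bas O L).toAlgebra
  let _ : Algebra O L := ((algebraMap K L).comp O.subtype).toAlgebra
  have : IsScalarTower O (RI O L) L := IsScalarTower.of_algebraMap_eq fun x => rfl
  have : Algebra.IsIntegral O (RI O L) := ⟨fun z => HEN_.bas_integral O L z⟩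
  exact isIntegral_trans (R := O) x hx

theorem RI_poly [FiniteDimensional K L] (z : L) :
    ∃ f : (RI O L)[X], aeval z f = 0 ∧ ∃ j, IsUnit (f.coeff j) := by
  classical
  obtain ⟨g, hg, hgz⟩ : ∃ g : K[X], g ≠ 0 ∧ aeval z g = 0 :=
    ⟨minpoly K z, minpoly.ne_zero (Algebra.IsIntegral.isIntegral z), minpoly.aeval K z⟩
  obtain ⟨j, hj, hmax⟩ := Finset.exists_max_image g.support (fun i => O.valuation (g.coeff i))
    (support_nonempty.2 hg)
  have hj0 : g.coeff j ≠ 0 := mem_support_iff.1 hj
  have hv0 : 0 < O.valuation (g.coeff j) := zero_lt_iff.2 ((_root_.map_ne_zero _).2 hj0)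
  have hmem : ∀ i, (g.coeff j)⁻¹ * g.coeff i ∈ O := by
    intro i
    rw [← le_one, map_mul, map_inv₀, inv_mul_le_iff₀ hv0, mul_one]
    by_cases hi : i ∈ g.support
    · exact hmax i hi
    · rw [notMem_support_iff.1 hi, map_zero]
      exact zero_le
  let c : ℕ → RI O L := fun i => HEN_.bas O L ⟨_, hmem i⟩
  let f : (RI O L)[X] := ∑ i ∈ g.support, C (c i) * X ^ i
  have hcoe : ∀ i, f.coeff i = if i ∈ g.support then c i else 0 := by
    intro i
    simp only [f, finset_sum_coeff, coeff_C_mul_X_pow]
    simp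
  refine ⟨f, ?_, j, ?_⟩
  · simp only [f, map_sum, map_mul, aeval_C, map_pow, aeval_X]
    have h1 : ∀ i, (algebraMap (RI O L) L (c i)) * z ^ i =
        algebraMap K L (g.coeff j)⁻¹ * (algebraMap K L (g.coeff i) * z ^ i) := by
      intro i
      show algebraMap K L ((g.coeff j)⁻¹ * g.coeff i) * z ^ i = _
      rw [map_mul]
      ring
    rw [Finset.sum_congr rfl fun i _ => h1 i, ← Finset.mul_sum]
    have h2 : aeval z g = ∑ i ∈ g.support, algebraMap K L (g.coeff i) * z ^ i := by
      rw [aeval_def, eval₂_eq_sum]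
      rfl
    rw [← h2, hgz, mul_zero]
  · rw [hcoe, if_pos hj]
    have h1 : (⟨_, hmem j⟩ : O) = 1 := Subtype.ext (inv_mul_cancel₀ hj0)
    show IsUnit (HEN_.bas O L ⟨_, hmem j⟩)
    rw [h1, map_one]
    exact isUnit_one

variable {O}

/-- The integral closure in a finite extension is a valuation ring. -/
def ext (H : HEN_.Hyp O) [FiniteDimensional K L] : ValuationSubring L :=
  { RI O L with
    mem_or_inv_mem' := by
      intro z
      have := loc H L
      obtain ⟨f, hf, hj⟩ := RI_poly O L z
      rcases u_inv (RI O L) (RI_closed O L) z _ f le_rfl hf hj with h | ⟨w, hw, hwz⟩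
      · exact Or.inl h
      · right
        rw [← eq_inv_of_mul_eq_one_left hwz]
        exact hw }

theorem mem_ext (H : HEN_.Hyp O) [FiniteDimensional K L] (z : L) :
    z ∈ ext L H ↔ z ∈ RI O L := Iff.rfl

theorem ext_ne_top (H : HEN_.Hyp O) [FiniteDimensional K L] (hO : O ≠ ⊤) : ext L H ≠ ⊤ := by
  obtain ⟨x, hx⟩ := (ne_top_iff O).1 hO
  rw [ne_top_iff]
  refine ⟨algebraMap K L x, fun h => hx ?_⟩
  let _ : Algebra O L := ((algebraMap K L).comp O.subtype).toAlgebra
  have : IsScalarTower O K L := IsScalarTower.of_algebraMap_eq fun x => rfl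
  have h1 : IsIntegral O (algebraMap K L x) := h
  have h2 : IsIntegral O x :=
    (isIntegral_algebraMap_iff (algebraMap K L).injective).1 h1
  obtain ⟨y, hy⟩ := IsIntegrallyClosed.isIntegral_iff.1 h2
  rw [← hy]
  exact y.2

/-- Integral closures in towers. -/
theorem RI_tower (H : HEN_.Hyp O) [FiniteDimensional K L] (E : Type) [Field E] [Algebra K E]
    [Algebra L E] [IsScalarTower K L E] : RI (ext L H) E = RI O E := by
  let _ : Algebra O L := ((algebraMap K L).comp O.subtype).toAlgebra
  let _ : Algebra O E := ((algebraMap K E).comp O.subtype).toAlgebra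
  let _ : Algebra O (ext L H) := (HEN_.bas O L).toAlgebra
  have i1 : IsScalarTower O (ext L H) E := IsScalarTower.of_algebraMap_eq fun x => by
    show algebraMap K E x = algebraMap L E (algebraMap K L x)
    exact IsScalarTower.algebraMap_apply K L E _
  have i2 : Algebra.IsIntegral O (ext L H) := ⟨fun z => HEN_.bas_integral O L z⟩
  ext z
  constructor
  · intro h
    have h1 : IsIntegral (ext L H) z := h
    exact isIntegral_trans (R := O) z h1
  · intro h
    have h1 : IsIntegral O z := h
    exact h1.tower_top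

/-- The integral closure in a finite extension is henselian. -/
theorem ext_hens (H : HEN_.Hyp O) [FiniteDimensional K L] : HenselianLocalRing (ext L H) := by
  refine HEN L (ext L H) ?_
  intro E _ _ _
  let _ : Algebra K E := ((algebraMap L E).comp (algebraMap K L)).toAlgebra
  have : IsScalarTower K L E := IsScalarTower.of_algebraMap_eq fun x => rfl
  have : FiniteDimensional K E := FiniteDimensional.trans K L E
  have h1 := RI_tower L H E
  have h2 := H E
  rw [← h1] at h2
  exact h2

end ext

/-- Henselian valuation rings are compatible with the `q`-th powers if `q` is prime to the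
characteristic. -/
theorem cmp_of_hens {L : Type} [Field L] (p : ℕ) [Fact p.Prime] [CharP L p] {q : ℕ}
    (hq : q ≠ 0) (hpq : p.Coprime q) (O : ValuationSubring L) [HenselianLocalRing O] : Cmp q O := by
  intro x hx
  have hxO : x ∈ O := (le_one O).1 hx.le
  have hxm : (⟨x, hxO⟩ : O) ∈ IsLocalRing.maximalIdeal O :=
    (ValuationSubring.valuation_lt_one_iff O _).2 hx
  let f : O[X] := X ^ q - C (1 + ⟨x, hxO⟩)
  have hqu : IsUnit (q : O) := by
    have h1 : IsUnit ((q : ℕ) : ZMod p) := (ZMod.isUnit_iff_coprime q p).2 hpq.symm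
    have hch : CharP O p := O.subtype.charP Subtype.val_injective p
    have h2 := h1.map (ZMod.castHom (dvd_refl p) O)
    rwa [map_natCast] at h2
  have hf : f.Monic := monic_X_pow_sub_C _ hq
  obtain ⟨a, ha, -⟩ := HenselianLocalRing.is_henselian f hf 1 (by
    simp only [f, eval_sub, eval_pow, eval_X, one_pow, eval_C]
    have : (1 : O) - (1 + ⟨x, hxO⟩) = -⟨x, hxO⟩ := by ring
    rw [this]
    exact (IsLocalRing.maximalIdeal O).neg_mem hxm) (by
    simp only [f, derivative_sub, derivative_X_pow, derivative_C, sub_zero, eval_mul, eval_C,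
      eval_pow, eval_X, one_pow, mul_one]
    exact hqu)
  refine ⟨(a : L), ?_⟩
  have h1 : a ^ q - (1 + ⟨x, hxO⟩) = 0 := by
    have := ha.eq_zero
    simpa only [f, eval_sub, eval_pow, eval_X, eval_C] using this
  have h2 := congrArg Subtype.val h1
  have h3 : (a : L) ^ q - (1 + x) = 0 := h2
  exact (sub_eq_zero.1 h3).symm

end Pool.Agent.T9h39.Nd
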