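import Pool.Agent.T9h39.Nd1

set_option autoImplicit false

/-!
# Fields which are closed under all roots and Artin-Schreier extensions are separably closed
-/

namespace Pool.Agent.T9h39.Nd

open Module IntermediateField

/-- The elements fixed by the Frobenius. -/
theorem eq_cast_of_pow {E : Type} [Field E] (p : ℕ) [Fact p.Prime] [CharP E p] {g : E}
    (hg : g ^ p = g) : ∃ a : ZMod p, ZMod.castHom (dvd_refl p) E a = g := by
  have hp : p.Prime := Fact.out
  have h1 : (Polynomial.X ^ Fintype.card (ZMod p) - Polynomial.X : Polynomial (ZMod p)).roots =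
      Finset.univ.val := FiniteField.roots_X_pow_card_sub_X (ZMod p)
  rw [ZMod.card] at h1
  have hn : (Polynomial.X ^ p - Polynomial.X : Polynomial (ZMod p)).natDegree = p :=
    FiniteField.X_pow_card_sub_X_natDegree_eq (ZMod p) hp.one_lt
  have h2 := Polynomial.roots_map_of_injective_of_card_eq_natDegree
    (p := (Polynomial.X ^ p - Polynomial.X : Polynomial (ZMod p)))
    (f := ZMod.castHom (dvd_refl p) E) (RingHom.injective _) (by
      rw [h1, hn]
      show (Finset.univ : Finset (ZMod p)).card = p
      rw [Finset.card_univ, ZMod.card])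
  have h3 : g ∈ ((Polynomial.X ^ p - Polynomial.X : Polynomial (ZMod p)).map
      (ZMod.castHom (dvd_refl p) E)).roots := by
    rw [Polynomial.mem_roots']
    constructor
    · rw [Polynomial.map_sub, Polynomial.map_pow, Polynomial.map_X]
      exact FiniteField.X_pow_card_sub_X_ne_zero E hp.one_lt
    · rw [Polynomial.map_sub, Polynomial.map_pow, Polynomial.map_X, Polynomial.IsRoot.def,
        Polynomial.eval_sub, Polynomial.eval_pow, Polynomial.eval_X, hg, sub_self]
  rw [← h2, Multiset.mem_map] at h3
  obtain ⟨a, -, ha⟩ := h3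
  exact ⟨a, ha⟩

/-- Artin-Schreier: there is no cyclic extension of degree `p`. -/
theorem as_step (F E : Type) [Field F] [Field E] [Algebra F E] [FiniteDimensional F E]
    [IsGalois F E] (p : ℕ) [Fact p.Prime] [CharP F p] (has : ∀ a : F, ∃ x : F, x ^ p - x = a) :
    finrank F E ≠ p := by
  intro hfin
  classical
  have hp : p.Prime := Fact.out
  have hcharE : CharP E p := charP_of_injective_algebraMap (algebraMap F E).injective p
  have hcard : Nat.card Gal(E/F) = p := by rw [IsGalois.card_aut_eq_finrank, hfin]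
  have hcyc : IsCyclic Gal(E/F) := isCyclic_of_prime_card hcard
  obtain ⟨σ, hσ⟩ := hcyc.exists_generator
  have hord : orderOf σ = p := by rw [orderOf_eq_card_of_forall_mem_zpowers hσ, hcard]
  obtain ⟨θ, hθ⟩ := Algebra.trace_surjective F E 1
  -- the trace as a sum over the powers of `σ`
  have hsum : ∑ i ∈ Finset.range p, (σ ^ i) θ = 1 := by
    have h1 := trace_eq_sum_automorphisms (K := F) (L := E) θ
    rw [hθ, map_one] at h1
    rw [h1]
    have h2 : (Finset.univ : Finset Gal(E/F)) = Finset.image (fun i => σ ^ i) (Finset.range p) := by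
      symm
      apply Finset.eq_univ_of_card
      rw [Finset.card_image_of_injOn, Finset.card_range, ← Nat.card_eq_fintype_card, hcard]
      intro i hi j hj hij
      rw [Finset.coe_range, Set.mem_Iio, ← hord] at hi hj
      exact pow_injOn_Iio_orderOf hi hj hij
    rw [h2, Finset.sum_image]
    intro i hi j hj hij
    rw [Finset.coe_range, Set.mem_Iio, ← hord] at hi hj
    exact pow_injOn_Iio_orderOf hi hj hij
  let s : ℕ → E := fun i => (σ ^ i) θ
  have hsp : s p = s 0 := by
    show (σ ^ p) θ = (σ ^ 0) θ
    rw [← hord, pow_orderOf_eq_one, pow_zero]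
  have hs1 : ∀ i, σ (s i) = s (i + 1) := by
    intro i
    show σ ((σ ^ i) θ) = (σ ^ (i + 1)) θ
    rw [pow_succ', AlgEquiv.mul_apply]
  set α : E := ∑ i ∈ Finset.range p, (i : E) * s i with hα
  have hσα : σ α = α - 1 := by
    have h1 : σ α = ∑ i ∈ Finset.range p, (i : E) * s (i + 1) := by
      rw [hα, map_sum]
      refine Finset.sum_congr rfl fun i _ => ?_
      rw [map_mul, map_natCast, hs1]
    have h2 : ∑ j ∈ Finset.range (p + 1), ((j : E) - 1) * s j =
        ∑ j ∈ Finset.range p, ((j : E) - 1) * s j + ((p : E) - 1) * s p :=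
      Finset.sum_range_succ _ _
    have h3 : ∑ j ∈ Finset.range (p + 1), ((j : E) - 1) * s j =
        ∑ j ∈ Finset.range p, (((j + 1 : ℕ) : E) - 1) * s (j + 1) + (((0 : ℕ) : E) - 1) * s 0 :=
      Finset.sum_range_succ' _ _
    have h4 : ∑ j ∈ Finset.range p, ((j : E) - 1) * s j = α - 1 := by
      have h6 : ∑ i ∈ Finset.range p, s i = 1 := hsum
      have h7 : ∑ j ∈ Finset.range p, ((j : E) - 1) * s j = α - ∑ i ∈ Finset.range p, s i := by
        rw [hα, ← Finset.sum_sub_distrib]
        refine Finset.sum_congr rfl fun i _ => ?_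
        ring
      rw [h7, h6]
    have h5 : ∑ j ∈ Finset.range p, (((j + 1 : ℕ) : E) - 1) * s (j + 1) = σ α := by
      rw [h1]
      refine Finset.sum_congr rfl fun i _ => ?_
      rw [Nat.cast_add, Nat.cast_one, add_sub_cancel_right]
    rw [h2, h4, h5, hsp, CharP.cast_eq_zero E p, Nat.cast_zero] at h3
    linear_combination -h3
  have hβ : σ (α ^ p - α) = α ^ p - α := by
    rw [map_sub, map_pow, hσα, sub_pow_char, one_pow]
    ring
  have hfix : ∀ g : Gal(E/F), g (α ^ p - α) = α ^ p - α := by
    intro g
    have h1 : g ∈ MulAction.stabilizer Gal(E/F) (α ^ p - α) := by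
      have h2 : Subgroup.zpowers σ ≤ MulAction.stabilizer Gal(E/F) (α ^ p - α) := by
        rw [Subgroup.zpowers_le]
        exact hβ
      exact h2 (hσ g)
    exact h1
  obtain ⟨b, hb⟩ := (IsGalois.mem_range_algebraMap_iff_fixed (F := F) (α ^ p - α)).2 hfix
  obtain ⟨x, hx⟩ := has b
  have hg : (α - algebraMap F E x) ^ p = α - algebraMap F E x := by
    rw [sub_pow_char, ← map_pow]
    have h1 := congrArg (algebraMap F E) hx
    rw [map_sub, hb] at h1
    linear_combination -h1
  obtain ⟨m, hm⟩ := eq_cast_of_pow p hg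
  have h1 : σ (α - algebraMap F E x) = α - algebraMap F E x := by
    rw [← hm]
    exact congrFun (congrArg DFunLike.coe (Subsingleton.elim
      ((σ : E →+* E).comp (ZMod.castHom (dvd_refl p) E)) (ZMod.castHom (dvd_refl p) E))) m
  rw [map_sub, AlgEquiv.commutes, hσα] at h1
  have h2 : (1 : E) = 0 := by linear_combination -h1
  exact one_ne_zero h2

/-- The fixed field of an element of prime order. -/
theorem exists_fixed (K F E : Type) [Field K] [Field F] [Field E] [Algebra K F]
    [FiniteDimensional K F] [Algebra F E] [FiniteDimensional F E] [IsGalois F E] {r : ℕ}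
    (hr : r.Prime) (hrd : r ∣ finrank F E) :
    ∃ (F' : Type) (_ : Field F') (_ : Algebra K F') (_ : FiniteDimensional K F')
      (_ : Algebra F' E) (_ : FiniteDimensional F' E), IsGalois F' E ∧ finrank F' E = r := by
  have : Fact r.Prime := ⟨hr⟩
  have h4 : r ∣ Nat.card Gal(E/F) := by rwa [IsGalois.card_aut_eq_finrank]
  obtain ⟨τ, hτ⟩ := exists_prime_orderOf_dvd_card' r h4
  let F' := fixedField (Subgroup.zpowers τ)
  let i1 : Algebra K F' := ((algebraMap F F').comp (algebraMap K F)).toAlgebra
  have i2 : IsScalarTower K F F' := IsScalarTower.of_algebraMap_eq fun x => rfl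
  have i3 : FiniteDimensional K F' := FiniteDimensional.trans K F F'
  refine ⟨F', inferInstance, i1, i3, inferInstance, inferInstance, inferInstance, ?_⟩
  rw [finrank_fixedField_eq_card, Nat.card_zpowers, hτ]

section tower

variable (K : Type) [Field K] (p : ℕ) [Fact p.Prime] [CharP K p]
  (hAS : ∀ (F : Type) [Field F] [Algebra K F] [FiniteDimensional K F] (a : F),
    ∃ x : F, x ^ p - x = a)
  (hP : ∀ (F : Type) [Field F] [Algebra K F] [FiniteDimensional K F] (q : ℕ), q.Prime → q ≠ p →
    ∀ a : F, Pw q a)
include hAS hP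

theorem no_prime : ∀ q : ℕ, q.Prime → ∀ (F : Type) [Field F] [Algebra K F]
    [FiniteDimensional K F] (E : Type) [Field E] [Algebra F E] [FiniteDimensional F E]
    [IsGalois F E], finrank F E ≠ q := by
  intro q
  induction q using Nat.strong_induction_on with
  | _ q ih =>
  intro hq F _ _ _ E _ _ _ _ hfin
  have hcharF : CharP F p := charP_of_injective_algebraMap (algebraMap K F).injective p
  by_cases hqp : q = p
  · subst hqp
    exact as_step F E q (hAS F) hfin
  have hp : p.Prime := Fact.out
  have hqF : NeZero (q : F) := by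
    refine ⟨fun h => hqp ?_⟩
    rw [CharP.cast_eq_zero_iff F p] at h
    exact ((Nat.prime_dvd_prime_iff_eq hp hq).1 h).symm
  have : NeZero q := ⟨hq.ne_zero⟩
  -- roots of unity
  have hroot : ∃ ζ : F, IsPrimitiveRoot ζ q := by
    let Z := CyclotomicField q F
    have hgal : IsGalois F Z := IsCyclotomicExtension.isGalois {q} F Z
    have hfd : FiniteDimensional F Z := IsCyclotomicExtension.finiteDimensional {q} F Z
    have hζ := IsCyclotomicExtension.zeta_spec q F Z
    have hcardle : finrank F Z ≤ q - 1 := by
      rw [← IsGalois.card_aut_eq_finrank, ← Nat.totient_prime hq, ← ZMod.card_units_eq_totient,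
        ← Nat.card_eq_fintype_card]
      exact Nat.card_le_card_of_injective _ (hζ.autToPow_injective F)
    by_cases h1 : finrank F Z = 1
    · have h2 := Subalgebra.bot_eq_top_of_finrank_eq_one h1
      have h3 : IsCyclotomicExtension.zeta q F Z ∈ (⊥ : Subalgebra F Z) := by
        rw [h2]
        exact Algebra.mem_top
      obtain ⟨ζ, hζ'⟩ := Algebra.mem_bot.1 h3
      refine ⟨ζ, IsPrimitiveRoot.of_map_of_injective (f := algebraMap F Z) ?_
        (algebraMap F Z).injective⟩
      rw [hζ']
      exact hζ
    · exfalso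
      obtain ⟨r, hr, hrd⟩ := Nat.exists_prime_and_dvd h1
      have hrq : r < q := by
        have h3 := Nat.le_of_dvd finrank_pos hrd
        have := hq.two_le
        omega
      obtain ⟨F', i1, i2, i3, i4, i5, i6, h5⟩ := exists_fixed K F Z hr hrd
      exact ih r hrq hr F' Z h5
  obtain ⟨ζ, hζ⟩ := hroot
  -- Kummer theory
  have hcard : Nat.card Gal(E/F) = q := by rw [IsGalois.card_aut_eq_finrank, hfin]
  have : Fact q.Prime := ⟨hq⟩
  have hcyc : IsCyclic Gal(E/F) := isCyclic_of_prime_card hcard
  obtain ⟨α, ⟨a, ha⟩, hα⟩ := exists_root_adjoin_eq_top_of_isCyclic F E (by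
    rw [hfin]
    exact ⟨ζ, (mem_primitiveRoots hq.pos).2 hζ⟩)
  rw [hfin] at ha
  obtain ⟨b, hb⟩ := hP F q hq hqp a
  have hαF : α ∈ Set.range (algebraMap F E) := by
    by_cases hb0 : b = 0
    · rw [hb0, zero_pow hq.ne_zero] at hb
      rw [hb, map_zero] at ha
      have : α = 0 := eq_zero_of_pow_eq_zero ha.symm
      exact ⟨0, by rw [map_zero, this]⟩
    · have hb1 : algebraMap F E b ≠ 0 := by
        rwa [Ne, map_eq_zero]
      have h1 : (α / algebraMap F E b) ^ q = 1 := by
        rw [div_pow, ← ha, hb, map_pow, div_self (pow_ne_zero _ hb1)]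
      have hζE : IsPrimitiveRoot (algebraMap F E ζ) q :=
        hζ.map_of_injective (algebraMap F E).injective
      obtain ⟨i, -, hi⟩ := hζE.eq_pow_of_pow_eq_one h1
      refine ⟨ζ ^ i * b, ?_⟩
      rw [map_mul, map_pow, hi, div_mul_cancel₀ _ hb1]
  obtain ⟨c, rfl⟩ := hαF
  have h1 : F⟮algebraMap F E c⟯ = (⊥ : IntermediateField F E) := by
    rw [IntermediateField.adjoin_simple_eq_bot_iff]
    exact IntermediateField.algebraMap_mem _ c
  rw [h1] at hα
  have h2 : finrank F E = 1 := by
    rw [← IntermediateField.finrank_top', ← hα, IntermediateField.finrank_bot]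
  rw [hfin] at h2
  exact hq.one_lt.ne' h2

end tower

/-- A field with a nontrivial separable extension all whose finite extensions are closed under
Artin-Schreier extensions has a finite extension with an element which is not a `q`-th power. -/
theorem exists_npw (K : Type) [Field K] (p : ℕ) [Fact p.Prime] [CharP K p]
    (hAS : ∀ (F : Type) [Field F] [Algebra K F] [FiniteDimensional K F] (a : F),
      ∃ x : F, x ^ p - x = a)
    (M : Type) [Field M] [Algebra K M] [FiniteDimensional K M]
    (L : Type) [Field L] [Algebra M L] [FiniteDimensional M L] [Algebra.IsSeparable M L]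
    (hL : finrank M L ≠ 1) :
    ∃ (F : Type) (_ : Field F) (_ : Algebra K F) (_ : FiniteDimensional K F) (q : ℕ) (a : F),
      q.Prime ∧ q ≠ p ∧ ¬ Pw q a := by
  by_contra hcon
  push Not at hcon
  have hP : ∀ (F : Type) [Field F] [Algebra K F] [FiniteDimensional K F] (q : ℕ), q.Prime →
      q ≠ p → ∀ a : F, Pw q a := fun F i1 i2 i3 q hq hqp a => hcon F i1 i2 i3 q a hq hqp
  let φ : L →ₐ[M] SeparableClosure M := IsSepClosed.lift
  let N := normalClosure M L (SeparableClosure M)
  have hgal : IsGalois M N := IsGalois.normalClosure M L (SeparableClosure M)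
  have hfd : FiniteDimensional M N := inferInstance
  have hne : finrank M N ≠ 1 := by
    intro h
    have hle : φ.fieldRange ≤ N := φ.fieldRange_le_normalClosure
    have h1 : finrank M φ.fieldRange = finrank M L := (AlgEquiv.ofInjectiveField φ).toLinearEquiv.finrank_eq.symm
    have h2 : finrank M φ.fieldRange ≤ finrank M N := IntermediateField.finrank_le_of_le_right hle
    have h3 : 0 < finrank M L := finrank_pos
    omega
  obtain ⟨r, hr, hrd⟩ := Nat.exists_prime_and_dvd hne
  obtain ⟨F', i1, i2, i3, i4, i5, i6, h5⟩ := exists_fixed K M N hr hrd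
  exact no_prime K p hAS hP r hr F' N h5

end Pool.Agent.T9h39.Nd
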