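import Pool.Agent.T9h39.Nd6
import Pool.Agent.T9h39.Nd7
import Pool.Agent.T9h39.Nd8
import Pool.Agent.N616.NV.Abs
import Pool.Agent.N616.NV.TK1
import Pool.Agent.N616.NV.TK
import Pool.Agent.N616.NV.FO
import Pool.Agent.N616.NV.ET
import Pool.Agent.N616.NV.BP
import Pool.Agent.N616.NV.PO
import Pool.Agent.N616.NV.PB
import Pool.Agent.N616.NV.PAT
import Pool.Agent.N616.NV.IDE
import Pool.Agent.N616.NV.VD
import Pool.Agent.N616.NV.JM
import Pool.Agent.N616.NV.HT
import Pool.Agent.W882.Nip3.Elem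

set_option autoImplicit false

/-!
# Rings of places of higher dimension: the hypothesis of the criterion for henselian rings
-/

namespace Pool.Agent.T9h39.Nd

open FirstOrder FirstOrder.Language FirstOrder.Ring Pool.Agent.W882.Nip3 Pool.Agent.R492.DV
open Pool.Agent.N616.NH Pool.Agent.N616.NV Pool.Agent.N616.NV.Pla_
open Pool.Agent.N616.NH.DJ_ Pool.Agent.N616.NH.HEN_ Pool.Agent.N616.NH.NP_ Pool.Agent.N616.NV.HT_

theorem hyp_of_nbhd (h1 : S_PAT) (h2 : S_IDE) (h3 : S_VD) (h4 : S_JM) (K : Type) [Field K]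
    [FirstOrder.Ring.CompatibleRing K] (p : ℕ) [hpp : Fact p.Prime] [CharP K p]
    (hinf : Infinite K) (n : ℕ) (hK : NIPnField n K) (O : ValuationSubring K) (δ : K) (U : Set K)
    (hδ : δ ≠ 0) (hδ1 : O.valuation δ < 1) (hU : DfS U)
    (hU1 : ∀ x, O.valuation x ≤ O.valuation δ → x ∈ U)
    (hU2 : ∀ x ∈ U, O.valuation x * O.valuation δ ≤ 1)
    (hδ2 : ∀ c : K, O.valuation c < 1 → ∃ m : ℕ, O.valuation (c ^ m) ≤ O.valuation δ) :
    HEN_.Hyp O := by
  classical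
  intro L _ _ _ e he
  by_contra hcon
  push Not at hcon
  have hchar : CharP L p := charP_of_injective_algebraMap (algebraMap K L).injective p
  have hfin := FIN K O L
  have hch : CharP (RI O L) p := ((RI O L).subtype).charP (RI O L).subtype_injective p
  have hAS := as_closed_n DFA DFB K p hinf n hK L
  have hs : ∀ x : RI O L, ∃ y : RI O L, y ^ p - y = x := by
    intro r
    obtain ⟨x, hx⟩ := hAS (r : L)
    refine ⟨⟨x, int_closed O L p hpp.out.two_le x (by rw [hx]; exact r.2)⟩, ?_⟩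
    apply Subtype.ext
    exact hx
  have hδO : δ ∈ O := (O.valuation_le_one_iff δ).1 hδ1.le
  set d : O := ⟨δ, hδO⟩ with hd
  have hdm : d ∈ IsLocalRing.maximalIdeal O := (ValuationSubring.valuation_lt_one_iff O d).2 hδ1
  set a : RI O L := (bas O L d) ^ 3 with ha
  have haJ : a ∈ Jac (RI O L) := by
    have := mem_jac O L hdm ((bas O L d) ^ 2)
    rw [ha, pow_succ', ]
    exact this
  have hpow : ∀ x ∈ Jac (RI O L), ∃ m : ℕ, a ∣ x ^ m := by
    intro x hx
    obtain ⟨m, t, ht⟩ := h4 K O δ hδ2 L x hx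
    have h5 : x ^ m = bas O L d * t := by
      apply Subtype.ext
      rw [Subring.coe_pow, Subring.coe_mul, bas_coe]
      exact ht
    refine ⟨m * 3, t ^ 3, ?_⟩
    rw [pow_mul, h5, mul_pow]
  obtain ⟨X, hXa, hX⟩ := h1 (RI O L) p hs a haJ (h2 (RI O L) p e a he hcon.1 hcon.2 hpow)
  obtain ⟨V, hV, hV1, hV2⟩ := h3 K O δ U hδ hδ1 hU hU1 hU2 L
  have hKEY := key O L p hpp.out.two_le d hdm V hV1 hV2
  set c : L := algebraMap K L ((d : K) ^ 3) with hc
  -- the relation is definable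
  have hq : D K (fun v : Fin 1 ⊕ Fin n → L => ∃ u ∈ X, ∃ y ∈ V,
      (c * y) ^ p - c * y = (∏ k, v (Sum.inr k)) * v (Sum.inl 0) - (u : L)) := by
    have g1 : ∀ u : RI O L, D K (fun v : Fin 1 ⊕ Fin n → L => ∃ y ∈ V,
        (c * y) ^ p - c * y = (∏ k, v (Sum.inr k)) * v (Sum.inl 0) - (u : L)) := by
      intro u
      have g2 : D K (fun v : (Fin 1 ⊕ Fin n) ⊕ Fin 1 → L => MvPolynomial.eval v
          ((MvPolynomial.C c * MvPolynomial.X (Sum.inr 0)) ^ p -
            MvPolynomial.C c * MvPolynomial.X (Sum.inr 0) -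
            ((∏ k : Fin n, MvPolynomial.X (Sum.inl (Sum.inr k))) *
            MvPolynomial.X (Sum.inl (Sum.inl 0)) - MvPolynomial.C (u : L)) :
            MvPolynomial ((Fin 1 ⊕ Fin n) ⊕ Fin 1) L) = 0) := D_poly DFB _
      have g3 : D K (fun v : (Fin 1 ⊕ Fin n) ⊕ Fin 1 → L => v (Sum.inr 0) ∈ V) :=
        D_re DFA (fun _ : Fin 1 => (Sum.inr 0 : (Fin 1 ⊕ Fin n) ⊕ Fin 1))
          (p := fun v : Fin 1 → L => v 0 ∈ V) hV
      refine D_congr (fun v => ?_) (D_ex1 DFA (D_and DFA g3 g2))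
      simp only [map_sub, map_mul, map_pow, map_prod, MvPolynomial.eval_X, MvPolynomial.eval_C,
        Sum.elim_inr, Sum.elim_inl, sub_eq_zero]
    have g7 : D K (fun v : Fin 1 ⊕ Fin n → L => ∀ u : X, ¬ ∃ y ∈ V,
        (c * y) ^ p - c * y = (∏ k, v (Sum.inr k)) * v (Sum.inl 0) - ((u : RI O L) : L)) :=
      D_forall DFA DFB fun u => D_not DFA (g1 u)
    refine D_congr (fun v => ?_) (D_not DFA g7)
    constructor
    · intro h
      by_contra h5
      apply h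
      rintro ⟨u, hu⟩ h6
      exact h5 ⟨u, hu, h6⟩
    · rintro ⟨u, hu, hv⟩ h
      exact h ⟨u, hu⟩ hv
  refine nipnL K n hK L _ hq fun m => ?_
  obtain ⟨r, hr⟩ := hX (m ^ n)
  let E : (Fin n → Fin m) → Fin (m ^ n) := fun i => ⟨ex n m i, ex_lt n m i⟩
  have hE : Function.Injective E := fun i j h => ex_inj n m (congrArg Fin.val h)
  refine ⟨fun k i => ((r ^ ((i : ℕ) * m ^ (k : ℕ)) : RI O L) : L), fun T => ?_⟩
  let W : Finset (Fin (m ^ n)) := Finset.univ.filter fun e => ∃ i, i ∈ T ∧ E i = e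
  obtain ⟨t, ht⟩ := hr W
  refine ⟨((a * t : RI O L) : L), fun i => ?_⟩
  have hW : E i ∈ W ↔ i ∈ T := by
    simp only [W, Finset.mem_filter, Finset.mem_univ, true_and]
    constructor
    · rintro ⟨j, hj, hij⟩
      rwa [← hE hij]
    · intro h
      exact ⟨i, h, rfl⟩
  have hprod : ∏ k : Fin n, ((r ^ (((i k : Fin m) : ℕ) * m ^ (k : ℕ)) : RI O L) : L) =
      ((r ^ ((E i : Fin (m ^ n)) : ℕ) : RI O L) : L) := by
    have h9 := map_prod (RI O L).subtype
      (fun k : Fin n => r ^ (((i k : Fin m) : ℕ) * m ^ (k : ℕ))) Finset.univ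
    rw [Finset.prod_pow_eq_pow_sum] at h9
    exact h9.symm
  simp only [Sum.elim_inl, Sum.elim_inr]
  rw [hprod, ← hW, ← ht (E i)]
  have h8 : ∀ u : RI O L, ((r ^ ((E i : Fin (m ^ n)) : ℕ) : RI O L) : L) * ((a * t : RI O L) : L) -
      (u : L) = ((r ^ ((E i : Fin (m ^ n)) : ℕ) * (a * t) - u : RI O L) : L) :=
    fun u => by push_cast; rfl
  constructor
  · rintro ⟨u, hu, y, hy, hyu⟩
    obtain ⟨u', hu'⟩ := hXa u hu
    refine ⟨u, hu, (hKEY _ (r ^ ((E i : Fin (m ^ n)) : ℕ) * t - u') ?_).2 ⟨y, hy, ?_⟩⟩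
    · rw [hu', ha]
      ring
    · rw [hyu, h8]
  · rintro ⟨u, hu, y, hy, hyu⟩
    obtain ⟨u', hu'⟩ := hXa u hu
    obtain ⟨y', hy', hyu'⟩ := (hKEY _ (r ^ ((E i : Fin (m ^ n)) : ℕ) * t - u') (by
      rw [hu', ha]
      ring)).1 ⟨y, hy, hyu⟩
    refine ⟨u, hu, y', hy', ?_⟩
    rw [hyu', h8]


/-- The rings of places of dimension greater than one satisfy the hypothesis. -/
theorem hyp_of_place (K : Type) [Field K] [CompatibleRing K] (p : ℕ) (hp : p.Prime) [CharP K p]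
    (n : ℕ) (hK : NIPnField n K) (P : Place K) (D : ℕ) (hD : ¬ DimLeOneUpTo P.F D) :
    ∃ O : ValuationSubring K, IsRingOf P O ∧ O ≠ ⊤ ∧ HEN_.Hyp O := by
  have hTK : S_TK := TK TK1
  have hBP : S_BP := BP ET
  have hP : ∀ a b : P.F, ‖a + b‖ ≤ max ‖a‖ ‖b‖ := fun a b => ultrametric hp P a b
  have : Fact p.Prime := ⟨hp⟩
  obtain ⟨O, hO, hO1, hO2⟩ := PO K P hP
  obtain ⟨δ, U, hδ0, hδ1, h1, ⟨hδ, hδ2⟩, h2, h3⟩ := place_nbhd hTK FO hBP PB K
    (Or.inr (Or.inl ⟨n, hK⟩)) P hP O hO D hD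
  exact ⟨O, hO, hO1, hyp_of_nbhd PAT IDE VD JM K p (infinite_of_ne_top hO1) n hK O δ U hδ0 hδ1 h1 h2
    (fun x hx => (h3 x hx).le) (hO2 δ hδ hδ2)⟩

/-- Bad valuation rings: the field has dimension greater than one. -/
theorem dim_of_bad (K : Type) [Field K] (O : ValuationSubring K) (δ : K) (e d : ℕ) (hd : 0 < d)
    (hbad : BadAt O δ e d) : ¬ DimLeOneUpTo K (max (e + 1) d) := by
  intro hdim
  obtain ⟨g, h, ξ, hg, hh, hξ, hdg, hdh, hno⟩ := hbad.ex
  have hv : O.valuation δ ≠ 0 := (Valuation.ne_zero_iff _).2 hbad.ne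
  have h1 : disc1 (e+1) g ≠ 0 := by
    intro h0
    rw [h0, map_zero] at hdg
    exact hv (le_antisymm hdg zero_le)
  have h2 : Algebra.norm K (disc1 d fun j => elt g (h j)) ≠ 0 := by
    intro h0
    rw [h0, map_zero] at hdh
    exact hv (le_antisymm hdh zero_le)
  obtain ⟨z, hz⟩ := ET K _ e d hdim (le_max_left _ _) (le_max_right _ _) hd g
    (fun j => elt g (h j)) h1 h2 (elt g ξ)
  choose u hu using fun j : Fin d => exists_elt g ((algBasis d (fun j => elt g (h j))).repr z j)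
  have hu2 : nrmElt d (fun j => elt g (h j)) (fun j => elt g (u j)) = elt g ξ := by
    rw [nrmElt]
    simp only [hu]
    rw [(algBasis d (fun j => elt g (h j))).sum_repr, hz]
  obtain ⟨k, hk⟩ := hno u
  rw [hu2, repr_elt, sub_self, map_zero] at hk
  exact absurd hk not_lt_zero

/-- Fields of dimension greater than one have separable extensions. -/
theorem ext_of_dim (K : Type) [Field K] (D : ℕ) (hD : ¬ DimLeOneUpTo K D) :
    ∃ (M : Type) (_ : Field M) (_ : Algebra K M) (_ : FiniteDimensional K M) (L : Type)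
      (_ : Field L) (_ : Algebra M L) (_ : FiniteDimensional M L) (_ : Algebra.IsSeparable M L),
      Module.finrank M L ≠ 1 := by
  unfold DimLeOneUpTo at hD
  push Not at hD
  obtain ⟨M, i1, i2, h1, h2, h3, L, i3, i4, h4, h5, h6, h7⟩ := hD
  refine ⟨M, i1, i2, h1, L, i3, i4, h4, h5, fun h => h7 fun x => ⟨algebraMap M L x, ?_⟩⟩
  rw [Algebra.norm_algebraMap, h, pow_one]

end Pool.Agent.T9h39.Nd
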