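import Pool.Agent.T9h39.Nd1

set_option autoImplicit false

/-!
# Valuation rings compatible with a subgroup of the multiplicative group

`P` is the union of zero and a subgroup of the multiplicative group of the field `L`, and `Cm P A`
means that all elements `1 + x`, `x` in the maximal ideal of `A`, satisfy `P`. The proofs generalise
`T9h39/Nd1.lean`, where `P` is the set of the `q`-th powers.
-/

namespace Pool.Agent.T9h39.Ne

open Pool.Agent.T9h39.Nd (le_one lt_one val_one_add ne_top_iff val_eq_one_of_le val_lt_one_of_le jn mem_jn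
  le_jn_left le_jn_right)

variable {L : Type} [Field L] {P : L → Prop}

/-- `P` is the union of zero and a subgroup. -/
structure Gr (P : L → Prop) : Prop where
  zero : P 0
  one : P 1
  mul : ∀ {x y : L}, P x → P y → P (x * y)
  inv : ∀ {x : L}, P x → P x⁻¹

theorem Gr.div (hP : Gr P) {x y : L} (hx : P x) (hy : P y) : P (x / y) := by
  rw [div_eq_mul_inv]
  exact hP.mul hx (hP.inv hy)

theorem Gr.of_mul_left (hP : Gr P) {x y : L} (hx : P x) (hx0 : x ≠ 0) (h : P (x * y)) : P y := by
  have := hP.mul h (hP.inv hx)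
  rwa [mul_comm, ← mul_assoc, inv_mul_cancel₀ hx0, one_mul] at this

theorem Gr.pow (hP : Gr P) {x : L} (hx : P x) (n : ℕ) : P (x ^ n) := by
  induction n with
  | zero => rw [pow_zero]; exact hP.one
  | succ n ih => rw [pow_succ]; exact hP.mul ih hx

theorem Gr.zpow (hP : Gr P) {x : L} (hx : P x) (n : ℤ) : P (x ^ n) := by
  cases n with
  | ofNat n => rw [Int.ofNat_eq_natCast, zpow_natCast]; exact hP.pow hx n
  | negSucc n => rw [zpow_negSucc]; exact hP.inv (hP.pow hx _)

/-- The elements `1 + x` with `x` in the maximal ideal of `O` satisfy `P`. -/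
def Cm (P : L → Prop) (O : ValuationSubring L) : Prop := ∀ x : L, O.valuation x < 1 → P (1 + x)

/-- The units of the join of two incomparable compatible rings are `q`-th powers. -/
theorem unit_jn (hP : Gr P) {O₁ O₂ : ValuationSubring L} (h₁ : Cm P O₁) (h₂ : Cm P O₂)
    (h12 : ¬ O₁ ≤ O₂) (h21 : ¬ O₂ ≤ O₁) (x : L) (hx : (jn O₁ O₂).valuation x = 1) : P x := by
  have hx0 : x ≠ 0 := by
    rintro rfl
    rw [map_zero] at hx
    exact zero_ne_one hx
  -- an element which is large for `O₁` and small for `O₂`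
  obtain ⟨s₀, hs1, hs2⟩ : ∃ s : L, 1 < O₁.valuation s ∧ O₂.valuation s < 1 := by
    obtain ⟨z, hz1, hz2⟩ := Set.not_subset.1 (show ¬ (O₁ : Set L) ⊆ O₂ from h12)
    obtain ⟨w, hw1, hw2⟩ := Set.not_subset.1 (show ¬ (O₂ : Set L) ⊆ O₁ from h21)
    have a1 : O₁.valuation z ≤ 1 := (le_one O₁).2 hz1
    have a2 : 1 < O₂.valuation z := not_le.1 fun h => hz2 ((le_one O₂).1 h)
    have b1 : O₂.valuation w ≤ 1 := (le_one O₂).2 hw1
    have b2 : 1 < O₁.valuation w := not_le.1 fun h => hw2 ((le_one O₁).1 h)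
    have hz0 : z ≠ 0 := by
      rintro rfl
      rw [map_zero] at a2
      exact absurd a2 (not_lt.2 zero_le_one)
    have p1 : 0 < O₁.valuation z := zero_lt_iff.2 ((map_ne_zero _).2 hz0)
    have p2 : 0 < O₂.valuation z := zero_lt_iff.2 ((map_ne_zero _).2 hz0)
    refine ⟨w / z, ?_, ?_⟩
    · rw [map_div₀, one_lt_div₀ p1]
      exact lt_of_le_of_lt a1 b2
    · rw [map_div₀, div_lt_one₀ p2]
      exact lt_of_le_of_lt b1 a2
  -- elements close to `x`
  have hxm : x ∈ jn O₁ O₂ := (le_one _).1 hx.le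
  have hxi : x⁻¹ ∈ jn O₁ O₂ := (le_one _).1 (by rw [map_inv₀, hx, inv_one])
  obtain ⟨b, hb, hb1, hbx⟩ : ∃ b : L, O₂.valuation b ≤ 1 ∧ 1 ≤ O₁.valuation b ∧
      O₁.valuation x⁻¹ ≤ O₁.valuation b := by
    obtain ⟨b, hb, hb0, hbx⟩ := hxi
    have p1 : 0 < O₁.valuation b := zero_lt_iff.2 ((map_ne_zero _).2 hb0)
    have h1 : O₁.valuation x⁻¹ ≤ O₁.valuation b := by
      have := (le_one O₁).2 hbx
      rwa [map_div₀, div_le_one₀ p1] at this
    by_cases h2 : 1 ≤ O₁.valuation b
    · exact ⟨b, (le_one O₂).2 hb, h2, h1⟩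
    · exact ⟨1, by rw [map_one], by rw [map_one], by
        rw [map_one]
        exact h1.trans (not_le.1 h2).le⟩
  obtain ⟨e, he, he1, hex⟩ : ∃ e : L, O₂.valuation e ≤ 1 ∧ 1 ≤ O₁.valuation e ∧
      O₂.valuation e ≤ O₂.valuation x⁻¹ := by
    obtain ⟨b, hb, hb0, hbx⟩ := hxm
    -- `x = a b`
    by_cases h2 : O₂.valuation x ≤ 1
    · refine ⟨1, by rw [map_one], by rw [map_one], ?_⟩
      rw [map_one, map_inv₀]
      exact (one_le_inv₀ (zero_lt_iff.2 ((map_ne_zero _).2 hx0))).2 h2
    · refine ⟨b / x, ?_, ?_, ?_⟩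
      · rw [map_div₀, div_le_one₀ (zero_lt_iff.2 ((map_ne_zero _).2 hx0))]
        exact ((le_one O₂).2 hb).trans (not_le.1 h2).le
      · have := (le_one O₁).2 hbx
        rw [map_div₀, div_le_one₀ (zero_lt_iff.2 ((map_ne_zero _).2 hb0))] at this
        rw [map_div₀, one_le_div₀ (zero_lt_iff.2 ((map_ne_zero _).2 hx0))]
        exact this
      · rw [map_div₀, map_inv₀, div_eq_mul_inv]
        exact mul_le_of_le_one_left' ((le_one O₂).2 hb)
  set s := b * e * s₀ with hs
  have hv1 : 1 < O₁.valuation s ∧ O₁.valuation x⁻¹ < O₁.valuation s := by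
    rw [hs, map_mul, map_mul]
    have h1 : O₁.valuation b ≤ O₁.valuation b * O₁.valuation e := le_mul_of_one_le_right' he1
    have h2 : O₁.valuation b * O₁.valuation e <
        O₁.valuation b * O₁.valuation e * O₁.valuation s₀ := by
      have h3 : 0 < O₁.valuation b * O₁.valuation e :=
        lt_of_lt_of_le zero_lt_one (hb1.trans h1)
      exact lt_mul_of_one_lt_right h3 hs1
    exact ⟨lt_of_le_of_lt (hb1.trans h1) h2, lt_of_le_of_lt (hbx.trans h1) h2⟩
  have hv2 : O₂.valuation s < 1 ∧ O₂.valuation s < O₂.valuation x⁻¹ := by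
    rw [hs, map_mul, map_mul]
    have h1 : O₂.valuation b * O₂.valuation e ≤ O₂.valuation e := mul_le_of_le_one_left' hb
    have he0 : 0 < O₂.valuation e := by
      refine zero_lt_iff.2 ((map_ne_zero _).2 ?_)
      rintro rfl
      rw [map_zero] at he1
      exact absurd he1 (not_le.2 zero_lt_one)
    have h3 : O₂.valuation b * O₂.valuation e * O₂.valuation s₀ <
        O₂.valuation e := by
      calc O₂.valuation b * O₂.valuation e * O₂.valuation s₀ ≤
          O₂.valuation e * O₂.valuation s₀ := mul_le_mul_left h1 _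
        _ < O₂.valuation e * 1 := mul_lt_mul_of_pos_left hs2 he0
        _ = _ := mul_one _
    exact ⟨lt_of_lt_of_le h3 he, lt_of_lt_of_le h3 hex⟩
  obtain ⟨hv1, hv1'⟩ := hv1
  obtain ⟨hv2, hv2'⟩ := hv2
  generalize hx' : x⁻¹ = x' at *
  have hx'0 : x' ≠ 0 := by rw [← hx']; exact inv_ne_zero hx0
  have ht1 : O₁.valuation (1 + s) = O₁.valuation s := by
    rw [add_comm, Valuation.map_add_eq_of_lt_left _ (by rwa [map_one])]
  have ht2 : O₂.valuation (1 + s) = 1 := val_one_add O₂ hv2
  have ht0 : 1 + s ≠ 0 := by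
    intro h
    rw [h, map_zero] at ht2
    exact zero_ne_one ht2
  have k1 : P ((s + x') / (1 + s)) := by
    have h1 : (s + x') / (1 + s) = 1 + (x' - 1) / (1 + s) := by
      field_simp
      ring
    rw [h1]
    refine h₁ _ ?_
    rw [map_div₀, ht1, div_lt_one₀ (lt_trans zero_lt_one hv1)]
    refine lt_of_le_of_lt (Valuation.map_sub _ _ _) (max_lt hv1' ?_)
    rwa [map_one]
  have k2 : P ((s + x') / (1 + s) / x') := by
    have h1 : (s + x') / (1 + s) / x' = 1 + (s / x' - s) / (1 + s) := by
      field_simp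
      ring
    rw [h1]
    refine h₂ _ ?_
    rw [map_div₀, ht2, div_one]
    refine lt_of_le_of_lt (Valuation.map_sub _ _ _) (max_lt ?_ hv2)
    rwa [map_div₀, div_lt_one₀ (zero_lt_iff.2 ((map_ne_zero _).2 hx'0))]
  have hn0 : s + x' ≠ 0 := by
    intro h
    have h1 : s = -x' := eq_neg_of_add_eq_zero_left h
    rw [h1, Valuation.map_neg] at hv2'
    exact lt_irrefl _ hv2'
  have k3 : P x' := by
    have h1 : x' = (s + x') / (1 + s) / ((s + x') / (1 + s) / x') := by
      field_simp
    rw [h1]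
    exact hP.div k1 k2
  rw [← inv_inv x, hx']
  exact hP.inv k3

/-- Compatible rings are comparable, if no valuation ring other than `L` has units which are all
`q`-th powers. -/
theorem comparable (hP : Gr P) (hL : ∀ O : ValuationSubring L,
    (∀ x : L, O.valuation x = 1 → P x) → ∀ x : L, P x) {a : L} (ha : ¬ P a) {O₁ O₂ : ValuationSubring L} (h₁ : Cm P O₁)
    (h₂ : Cm P O₂) : O₁ ≤ O₂ ∨ O₂ ≤ O₁ := by
  by_contra hcon
  push Not at hcon
  exact ha (hL (jn O₁ O₂) (unit_jn hP h₁ h₂ hcon.1 hcon.2) a)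

/-- The intersection of all compatible rings. -/
def fin (hc : ∀ O₁ O₂ : ValuationSubring L, Cm P O₁ → Cm P O₂ → O₁ ≤ O₂ ∨ O₂ ≤ O₁) :
    ValuationSubring L where
  carrier := {x | ∀ O : ValuationSubring L, Cm P O → x ∈ O}
  mul_mem' hx hy O hO := O.mul_mem _ _ (hx O hO) (hy O hO)
  one_mem' O _ := O.one_mem
  add_mem' hx hy O hO := O.add_mem _ _ (hx O hO) (hy O hO)
  zero_mem' O _ := O.zero_mem
  neg_mem' hx O hO := O.neg_mem _ (hx O hO)
  mem_or_inv_mem' := by
    intro x
    by_contra hcon
    push Not at hcon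
    obtain ⟨h1, h2⟩ := hcon
    simp only [Set.mem_ofPred_eq, not_forall] at h1 h2
    obtain ⟨O₁, hO₁, h1⟩ := h1
    obtain ⟨O₂, hO₂, h2⟩ := h2
    rcases hc O₁ O₂ hO₁ hO₂ with h | h
    · rcases O₁.mem_or_inv_mem x with h3 | h3
      · exact h1 h3
      · exact h2 (h h3)
    · rcases O₂.mem_or_inv_mem x with h3 | h3
      · exact h1 (h h3)
      · exact h2 h3

theorem fin_le
    (hc : ∀ O₁ O₂ : ValuationSubring L, Cm P O₁ → Cm P O₂ → O₁ ≤ O₂ ∨ O₂ ≤ O₁)
    {O : ValuationSubring L} (hO : Cm P O) : fin hc ≤ O := fun x hx => hx O hO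

theorem fin_cmp (hP : Gr P)
    (hc : ∀ O₁ O₂ : ValuationSubring L, Cm P O₁ → Cm P O₂ → O₁ ≤ O₂ ∨ O₂ ≤ O₁) :
    Cm P (fin hc) := by
  intro x hx
  rw [lt_one] at hx
  rcases hx with rfl | hx
  · rw [add_zero]
    exact hP.one
  · have h1 : ¬ ∀ O : ValuationSubring L, Cm P O → x⁻¹ ∈ O := hx
    push Not at h1
    obtain ⟨O, hO, h1⟩ := h1
    exact hO x ((lt_one O).2 (Or.inr h1))

/-! ### The explicit ring -/

/-- The elements `x` which are not `q`-th powers, but `1 + x` is one. -/
def X1 (P : L → Prop) (x : L) : Prop := ¬ P x ∧ P (1 + x)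

/-- The explicit definition of a valuation ring. -/
def XA (P : L → Prop) (x : L) : Prop :=
  x = 0 ∨ X1 P x ∨ (P x ∧ ∀ z : L, X1 P z → X1 P (x * z))

theorem x1_iff (hP : Gr P) {O : ValuationSubring L}
    (hO : ∀ x, O.valuation x = 1 → P x) (x : L) :
    X1 P x ↔ ¬ P x ∧ O.valuation x < 1 := by
  unfold X1
  constructor
  · rintro ⟨h1, h2⟩
    refine ⟨h1, ?_⟩
    by_contra h3
    rcases (not_lt.1 h3).eq_or_lt with h4 | h4
    · exact h1 (hO x h4.symm)
    · have hx0 : x ≠ 0 := by
        rintro rfl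
        exact h1 hP.zero
      have h5 : O.valuation x⁻¹ < 1 := by
        rw [map_inv₀]
        exact inv_lt_one_of_one_lt₀ h4
      have h6 : P (1 + x⁻¹) := hO _ (val_one_add O h5)
      have h60 : 1 + x⁻¹ ≠ 0 := by
        intro h
        have := val_one_add O h5
        rw [h, map_zero] at this
        exact zero_ne_one this
      apply h1
      refine hP.of_mul_left h6 h60 ?_
      have h7 : (1 + x⁻¹) * x = 1 + x := by
        field_simp
        ring
      rwa [h7]
  · rintro ⟨h1, h2⟩
    exact ⟨h1, hO _ (val_one_add O h2)⟩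

/-- If all units of some valuation ring are `q`-th powers, but not all elements, then the explicit
definition gives a valuation ring which is not `L`. -/
theorem explicit (hP : Gr P) {O : ValuationSubring L}
    (hO : ∀ x, O.valuation x = 1 → P x) {a : L} (ha : ¬ P a) :
    ∃ A : ValuationSubring L, A ≠ ⊤ ∧ ∀ x, x ∈ A ↔ XA P x := by
  have hn0 : ∀ {z : L}, ¬ P z → z ≠ 0 := by
    rintro z hz rfl
    exact hz hP.zero
  have hpos : ∀ {z : L}, z ≠ 0 → 0 < O.valuation z := fun h => zero_lt_iff.2 ((map_ne_zero _).2 h)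
  have hinv : ∀ {z : L}, ¬ P z → ¬ P z⁻¹ := fun h h1 => h (by simpa using hP.inv h1)
  -- elements of the ring which are not powers
  have hsmall : ∀ x : L, (∀ z, ¬ P z → O.valuation z < 1 → O.valuation (x * z) < 1) →
      ¬ P x → O.valuation x < 1 := by
    intro x hx h1
    by_contra h3
    rcases (not_lt.1 h3).eq_or_lt with h4 | h4
    · exact h1 (hO x h4.symm)
    · have h5 := hx x⁻¹ (hinv h1) (by rw [map_inv₀]; exact inv_lt_one_of_one_lt₀ h4)
      rw [mul_inv_cancel₀ (hn0 h1), map_one] at h5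
      exact lt_irrefl _ h5
  let A : ValuationSubring L :=
    { carrier := {x | ∀ z, ¬ P z → O.valuation z < 1 → O.valuation (x * z) < 1}
      mul_mem' := by
        intro x y hx hy z hz hz1
        have h1 : O.valuation (y * z) < 1 := hy z hz hz1
        have h2 : O.valuation (x * z) < 1 := hx z hz hz1
        by_cases hx0 : x = 0
        · rw [hx0, zero_mul, zero_mul, map_zero]
          exact zero_lt_one
        by_cases h3 : P (y * z)
        · by_cases h4 : P (x * z)
          · -- `x` is not a power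
            have hx1 : ¬ P x := fun h => hz (hP.of_mul_left h hx0 h4)
            have h5 := hsmall x hx hx1
            rw [mul_assoc, map_mul]
            exact mul_lt_one_of_nonneg_of_lt_one_left zero_le h5 h1.le
          · have h5 := hy (x * z) h4 h2
            have h6 : y * (x * z) = x * y * z := by ring
            rwa [h6] at h5
        · have h5 := hx (y * z) h3 h1
          rwa [← mul_assoc] at h5
      one_mem' := by
        intro z _ hz
        rwa [one_mul]
      add_mem' := by
        intro x y hx hy z hz hz1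
        rw [add_mul]
        exact lt_of_le_of_lt (Valuation.map_add _ _ _) (max_lt (hx z hz hz1) (hy z hz hz1))
      zero_mem' := by
        intro z _ _
        rw [zero_mul, map_zero]
        exact zero_lt_one
      neg_mem' := by
        intro x hx z hz hz1
        rw [neg_mul, Valuation.map_neg]
        exact hx z hz hz1
      mem_or_inv_mem' := by
        intro x
        by_contra hcon
        push Not at hcon
        obtain ⟨h1, h2⟩ := hcon
        simp only [Set.mem_ofPred_eq, not_forall, not_lt] at h1 h2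
        obtain ⟨z, hz, hz1, h1⟩ := h1
        obtain ⟨t, ht, ht1, h2⟩ := h2
        have h3 : O.valuation (x * z) * O.valuation (x⁻¹ * t) < 1 := by
          rw [← map_mul]
          have h4 : x * z * (x⁻¹ * t) = z * t := by
            have hx0 : x ≠ 0 := by
              rintro rfl
              rw [zero_mul, map_zero] at h1
              exact absurd h1 (not_le.2 zero_lt_one)
            field_simp
          rw [h4, map_mul]
          exact mul_lt_one_of_nonneg_of_lt_one_left zero_le hz1 ht1.le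
        exact absurd h3 (not_lt.2 (one_le_mul h1 h2)) }
  have hA : ∀ x : L, x ∈ A ↔ ∀ z, ¬ P z → O.valuation z < 1 → O.valuation (x * z) < 1 :=
    fun x => Iff.rfl
  refine ⟨A, ?_, fun x => ?_⟩
  · obtain ⟨b, hb, hb1⟩ : ∃ b : L, ¬ P b ∧ 1 < O.valuation b := by
      rcases lt_trichotomy (O.valuation a) 1 with h | h | h
      · refine ⟨a⁻¹, hinv ha, ?_⟩
        rw [map_inv₀]
        exact (one_lt_inv₀ (hpos (hn0 ha))).2 h
      · exact absurd (hO a h) ha
      · exact ⟨a, ha, h⟩
    rw [ne_top_iff]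
    refine ⟨b, fun h => ?_⟩
    exact absurd (hsmall b ((hA b).1 h) hb) (not_lt.2 hb1.le)
  · rw [hA]
    unfold XA
    by_cases hx0 : x = 0
    · simp [hx0]
    by_cases hx : P x
    · have h1 : ¬ X1 P x := fun h => h.1 hx
      simp only [hx0, h1, hx, true_and, false_or]
      constructor
      · intro h z hz
        rw [x1_iff hP hO] at hz ⊢
        exact ⟨fun h2 => hz.1 (hP.of_mul_left hx hx0 h2), h z hz.1 hz.2⟩
      · intro h z hz hz1
        exact ((x1_iff hP hO _).1 (h z ((x1_iff hP hO z).2 ⟨hz, hz1⟩))).2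
    · simp only [hx0, hx, false_and, or_false, false_or]
      rw [x1_iff hP hO]
      constructor
      · intro h
        exact ⟨hx, hsmall x h hx⟩
      · rintro ⟨-, h⟩ z _ hz1
        rw [map_mul]
        exact mul_lt_one_of_nonneg_of_lt_one_left zero_le h hz1.le


end Pool.Agent.T9h39.Ne
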