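import Pool.Agent.T9h39.Ne1
import Pool.Agent.T9h39.Nd2

set_option autoImplicit false

/-!
# Compatible refinements, and the explicit definition of the finest compatible ring
-/

namespace Pool.Agent.T9h39.Ne

open Pool.Agent.T9h39.Nd (le_one lt_one val_one_add ne_top_iff cps cps_le cps_ne)

section absV

variable {F : Type} [Field F]

theorem Gr.of_pow {P : F → Prop} (hP : Gr P) {q n : ℕ} (hPq : ∀ x : F, P (x ^ q))
    (h : n.Coprime q) {z : F} (hz : z ≠ 0) (hp : P (z ^ n)) : P z := by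
  have hb : (1 : ℤ) = (n : ℤ) * n.gcdA q + (q : ℤ) * n.gcdB q := by
    have := Nat.gcd_eq_gcd_ab n q
    rw [h] at this
    exact_mod_cast this
  have e : z = (z ^ n) ^ (n.gcdA q) * (z ^ q) ^ (n.gcdB q) := by
    calc z = z ^ (1 : ℤ) := (zpow_one z).symm
      _ = z ^ ((n : ℤ) * n.gcdA q + (q : ℤ) * n.gcdB q) := by rw [← hb]
      _ = _ := by rw [zpow_add₀ hz, zpow_mul, zpow_natCast, zpow_mul, zpow_natCast]
  rw [e]
  exact hP.mul (hP.zpow hp _) (hP.zpow (hPq z) _)

/-- A set `B` which is a bounded neighbourhood of zero for some valuation, and a small element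
`c`. -/
structure Rough (P : F → Prop) (B : Set F) (c : F) : Prop where
  ne : c ≠ 0
  mem : c ∈ B
  sub : ∀ x ∈ B, ∀ y ∈ B, c * (x - y) ∈ B
  mul : ∀ x ∈ B, ∀ y ∈ B, c * (x * y) ∈ B
  inv : ∀ x, x ∉ B → c * x⁻¹ ∈ B
  pw : ∀ x ∈ B, 1 + c * x ≠ 0 ∧ P (1 + c * x)

namespace Rough

variable {P : F → Prop} {B : Set F} {c : F} (h : Rough P B c)
include h

theorem zero : (0 : F) ∈ B := by
  have := h.sub c h.mem c h.mem
  rwa [sub_self, mul_zero] at this

theorem cmul {x : F} (hx : x ∈ B) : c * x ∈ B := by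
  have := h.sub x hx 0 h.zero
  rwa [sub_zero] at this

theorem cneg {x : F} (hx : x ∈ B) : -(c * x) ∈ B := by
  have := h.sub 0 h.zero x hx
  rwa [zero_sub, mul_neg] at this

theorem cpow {x : F} (hx : x ∈ B) (n : ℕ) : c ^ n * x ∈ B := by
  induction n with
  | zero => rwa [pow_zero, one_mul]
  | succ n ih =>
    rw [pow_succ', mul_assoc]
    exact h.cmul ih

theorem mono {x : F} {n m : ℕ} (hnm : n ≤ m) (hx : c ^ n * x ∈ B) : c ^ m * x ∈ B := by
  obtain ⟨k, rfl⟩ := Nat.exists_eq_add_of_le hnm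
  rw [add_comm, pow_add, mul_assoc]
  exact h.cpow hx k

theorem add {x y : F} (hx : x ∈ B) (hy : y ∈ B) : c ^ 2 * (x + y) ∈ B := by
  have := h.sub _ (h.cmul hx) _ (h.cneg hy)
  have e : c * (c * x - -(c * y)) = c ^ 2 * (x + y) := by ring
  rwa [e] at this

theorem not_sq : (c ^ 2)⁻¹ ∉ B := by
  intro h1
  have h2 := (h.pw _ (h.cneg h1)).1
  apply h2
  have hc := h.ne
  field_simp
  ring

/-- The ring of all `x` with `c ^ n x ∈ B` for some `n`. -/
def R1 : ValuationSubring F where
  carrier := {x | ∃ n : ℕ, c ^ n * x ∈ B}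
  mul_mem' := by
    rintro x y ⟨n, hx⟩ ⟨m, hy⟩
    refine ⟨n + m + 1, ?_⟩
    have := h.mul _ hx _ hy
    have e : c * (c ^ n * x * (c ^ m * y)) = c ^ (n + m + 1) * (x * y) := by ring
    rwa [e] at this
  one_mem' := ⟨1, by rw [pow_one, mul_one]; exact h.mem⟩
  add_mem' := by
    rintro x y ⟨n, hx⟩ ⟨m, hy⟩
    refine ⟨n + m + 2, ?_⟩
    have := h.add (h.mono (Nat.le_add_right n m) hx) (h.mono (Nat.le_add_left m n) hy)
    have e : c ^ 2 * (c ^ (n + m) * x + c ^ (n + m) * y) = c ^ (n + m + 2) * (x + y) := by ring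
    rwa [e] at this
  zero_mem' := ⟨0, by rw [mul_zero]; exact h.zero⟩
  neg_mem' := by
    rintro x ⟨n, hx⟩
    refine ⟨n + 1, ?_⟩
    have := h.cneg hx
    have e : -(c * (c ^ n * x)) = c ^ (n + 1) * -x := by ring
    rwa [e] at this
  mem_or_inv_mem' := by
    intro x
    by_cases hx : x ∈ B
    · exact Or.inl ⟨0, by rwa [pow_zero, one_mul]⟩
    · exact Or.inr ⟨1, by rw [pow_one]; exact h.inv x hx⟩

theorem exists_ring_one (hP : Gr P) {x₀ : F} (hx₀ : ∀ n : ℕ, c ^ n * x₀ ∉ B) :
    ∃ A : ValuationSubring F, A ≠ ⊤ ∧ Cm P A := by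
  refine ⟨h.R1, ?_, ?_⟩
  · rw [ne_top_iff]
    exact ⟨x₀, fun ⟨n, hn⟩ => hx₀ n hn⟩
  · intro x hx
    rw [lt_one] at hx
    rcases hx with rfl | hx
    · rw [add_zero]
      exact hP.one
    · have h1 : c ^ 2 * x⁻¹ ∉ B := fun h2 => hx ⟨2, h2⟩
      have h2 := h.inv _ h1
      have e : c * (c ^ 2 * x⁻¹)⁻¹ = c⁻¹ * x := by
        have := h.ne
        rw [mul_inv, inv_inv]
        field_simp
      rw [e] at h2
      have h3 := (h.pw _ h2).2
      rwa [← mul_assoc, mul_inv_cancel₀ h.ne, one_mul] at h3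

/-- In the other case: the ring of all `x` whose `p ^ j`-th powers are bounded. -/
def R2 (p : ℕ) [Fact p.Prime] [CharP F p] (hx : ∀ x : F, ∃ n : ℕ, c ^ n * x ∈ B) :
    ValuationSubring F where
  carrier := {x | ∃ n : ℕ, ∀ j : ℕ, c ^ n * x ^ p ^ j ∈ B}
  mul_mem' := by
    rintro x y ⟨n, hx⟩ ⟨m, hy⟩
    refine ⟨n + m + 1, fun j => ?_⟩
    have := h.mul _ (hx j) _ (hy j)
    have e : c * (c ^ n * x ^ p ^ j * (c ^ m * y ^ p ^ j)) = c ^ (n + m + 1) * (x * y) ^ p ^ j := by
      rw [mul_pow]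
      ring
    rwa [e] at this
  one_mem' := ⟨1, fun j => by rw [one_pow, pow_one, mul_one]; exact h.mem⟩
  add_mem' := by
    rintro x y ⟨n, hx⟩ ⟨m, hy⟩
    refine ⟨n + m + 2, fun j => ?_⟩
    have := h.add (h.mono (Nat.le_add_right n m) (hx j)) (h.mono (Nat.le_add_left m n) (hy j))
    have e : c ^ 2 * (c ^ (n + m) * x ^ p ^ j + c ^ (n + m) * y ^ p ^ j) =
        c ^ (n + m + 2) * (x + y) ^ p ^ j := by
      rw [add_pow_char_pow]
      ring
    rwa [e] at this
  zero_mem' := ⟨0, fun j => by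
    rw [zero_pow (pow_ne_zero _ (Fact.out : p.Prime).ne_zero), mul_zero]
    exact h.zero⟩
  neg_mem' := by
    rintro x ⟨n, hx⟩
    refine ⟨n + 1, fun j => ?_⟩
    rcases neg_one_pow_eq_or F (p ^ j) with h1 | h1
    · have := h.cmul (hx j)
      have e : c * (c ^ n * x ^ p ^ j) = c ^ (n + 1) * (-x) ^ p ^ j := by
        rw [neg_pow x, h1]
        ring
      rwa [e] at this
    · have := h.cneg (hx j)
      have e : -(c * (c ^ n * x ^ p ^ j)) = c ^ (n + 1) * (-x) ^ p ^ j := by
        rw [neg_pow x, h1]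
        ring
      rwa [e] at this
  mem_or_inv_mem' := by
    intro x
    by_contra hcon
    push Not at hcon
    obtain ⟨hx1, hx2⟩ := hcon
    simp only [Set.mem_ofPred_eq, not_exists, not_forall] at hx1 hx2
    -- the powers of the inverse are small
    obtain ⟨j₀, hj₀⟩ := hx1 3
    have hx0 : x ≠ 0 := by
      rintro rfl
      apply hj₀
      rw [zero_pow (pow_ne_zero _ (Fact.out : p.Prime).ne_zero), mul_zero]
      exact h.zero
    have hc := h.ne
    set y := x⁻¹ with hy
    set P' := p ^ j₀ with hP'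
    obtain ⟨z, hz, hyz⟩ : ∃ z ∈ B, y ^ P' = c ^ 2 * z := by
      refine ⟨c * (c ^ 3 * x ^ P')⁻¹, h.inv _ hj₀, ?_⟩
      rw [hy, inv_pow]
      field_simp
    have hm : ∀ m : ℕ, ∃ w ∈ B, (y ^ P') ^ (m + 1) = c ^ 2 * w := by
      intro m
      induction m with
      | zero => exact ⟨z, hz, by rw [zero_add, pow_one, hyz]⟩
      | succ m ih =>
        obtain ⟨w, hw, hw1⟩ := ih
        refine ⟨c * (c * (z * w)), h.cmul (h.mul z hz w hw), ?_⟩
        rw [pow_succ, hw1, hyz]
        ring
    choose f hf using hx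
    let n : ℕ := ∑ j ∈ Finset.range j₀, f (y ^ p ^ j)
    obtain ⟨j, hj⟩ := hx2 n
    apply hj
    by_cases hj1 : j < j₀
    · refine h.mono ?_ (hf (y ^ p ^ j))
      exact Finset.single_le_sum (f := fun j => f (y ^ p ^ j)) (fun _ _ => Nat.zero_le _)
        (Finset.mem_range.2 hj1)
    · obtain ⟨k, rfl⟩ := Nat.exists_eq_add_of_le (not_lt.1 hj1)
      obtain ⟨m, hm1⟩ : ∃ m, p ^ k = m + 1 :=
        ⟨p ^ k - 1, (Nat.sub_add_cancel (Nat.one_le_pow _ _ (Fact.out : p.Prime).pos)).symm⟩
      obtain ⟨w, hw, hw1⟩ := hm m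
      have e : y ^ p ^ (j₀ + k) = c ^ 2 * w := by
        rw [pow_add, pow_mul, ← hP', hm1, hw1]
      rw [e]
      exact h.cpow (h.cpow hw 2) n

theorem exists_ring (hP : Gr P) {q : ℕ} (hPq : ∀ x : F, P (x ^ q)) (p : ℕ) [Fact p.Prime] [CharP F p] (hpq : p.Coprime q) :
    ∃ A : ValuationSubring F, A ≠ ⊤ ∧ Cm P A := by
  by_cases hx : ∀ x : F, ∃ n : ℕ, c ^ n * x ∈ B
  swap
  · push Not at hx
    obtain ⟨x₀, hx₀⟩ := hx
    exact h.exists_ring_one hP hx₀
  have hc := h.ne
  have hpp : p.Prime := Fact.out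
  refine ⟨h.R2 p hx, ?_, ?_⟩
  · rw [ne_top_iff]
    refine ⟨c⁻¹, fun ⟨n, hn⟩ => ?_⟩
    obtain ⟨j, hj⟩ : ∃ j, n + 2 ≤ p ^ j := ⟨n + 2, (Nat.lt_pow_self hpp.one_lt).le⟩
    obtain ⟨k, hk⟩ := Nat.exists_eq_add_of_le hj
    apply h.not_sq
    have h1 := h.cpow (hn j) k
    have e : c ^ k * (c ^ n * c⁻¹ ^ p ^ j) = (c ^ 2)⁻¹ := by
      rw [hk, inv_pow, pow_add, pow_add]
      field_simp
    rwa [e] at h1
  · intro x hx1
    rw [lt_one] at hx1
    rcases hx1 with rfl | hx1
    · rw [add_zero]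
      exact hP.one
    · have hx2 : ¬ ∃ n : ℕ, ∀ j : ℕ, c ^ n * x⁻¹ ^ p ^ j ∈ B := hx1
      push Not at hx2
      obtain ⟨j, hj⟩ := hx2 2
      have h2 := h.inv _ hj
      have e : c * (c ^ 2 * x⁻¹ ^ p ^ j)⁻¹ = c⁻¹ * x ^ p ^ j := by
        rw [mul_inv, inv_pow, inv_inv]
        field_simp
      rw [e] at h2
      obtain ⟨h3, h4⟩ := h.pw _ h2
      rw [← mul_assoc, mul_inv_cancel₀ h.ne, one_mul] at h3 h4
      have e2 : 1 + x ^ p ^ j = (1 + x) ^ p ^ j := by
        rw [add_pow_char_pow, one_pow]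
      rw [e2] at h3 h4
      refine hP.of_pow hPq (Nat.Coprime.pow_left j hpq) ?_ h4
      intro h5
      rw [h5, zero_pow (pow_ne_zero _ hpp.ne_zero)] at h3
      exact h3 rfl

end Rough

end absV

/-! ### The residue field -/

section res

variable {L : Type} [Field L] {P : L → Prop}

/-- The image in the residue field. -/
def rs (O : ValuationSubring L) (P : L → Prop) (z : IsLocalRing.ResidueField O) : Prop :=
  z = 0 ∨ ∃ y : O, IsLocalRing.residue O y = z ∧ P (y : L)

theorem residue_ne {O : ValuationSubring L} {y : O} (h : IsLocalRing.residue O y ≠ 0) :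
    O.valuation (y : L) = 1 := by
  have hu : IsUnit y := by
    by_contra h3
    exact h (Ideal.Quotient.eq_zero_iff_mem.2 ((IsLocalRing.mem_maximalIdeal _).2 h3))
  exact (ValuationSubring.valuation_eq_one_iff O y).1 hu

theorem residue_zero_iff {O : ValuationSubring L} {y : O} :
    IsLocalRing.residue O y = 0 ↔ O.valuation (y : L) < 1 := by
  rw [IsLocalRing.residue_eq_zero_iff, ValuationSubring.valuation_lt_one_iff]

theorem residue_inv {O : ValuationSubring L} {y : O} (h : IsLocalRing.residue O y ≠ 0) :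
    ∃ h' : (y : L)⁻¹ ∈ O, IsLocalRing.residue O ⟨(y : L)⁻¹, h'⟩ = (IsLocalRing.residue O y)⁻¹ := by
  have h1 := residue_ne h
  have h2 : (y : L)⁻¹ ∈ O := (le_one O).1 (by rw [map_inv₀, h1, inv_one])
  refine ⟨h2, ?_⟩
  apply eq_inv_of_mul_eq_one_left
  rw [← map_mul]
  have h3 : (⟨(y : L)⁻¹, h2⟩ * y : O) = 1 := by
    apply Subtype.ext
    show (y : L)⁻¹ * y = 1
    refine inv_mul_cancel₀ ?_
    intro h0
    rw [h0, map_zero] at h1
    exact zero_ne_one h1
  rw [h3, map_one]

theorem rs_gr (hP : Gr P) (O : ValuationSubring L) : Gr (rs O P) where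
  zero := Or.inl rfl
  one := Or.inr ⟨1, map_one _, hP.one⟩
  mul := by
    rintro x y (rfl | ⟨a, rfl, ha⟩) hy
    · rw [zero_mul]
      exact Or.inl rfl
    rcases hy with rfl | ⟨b, rfl, hb⟩
    · rw [mul_zero]
      exact Or.inl rfl
    · exact Or.inr ⟨a * b, map_mul _ _ _, hP.mul ha hb⟩
  inv := by
    rintro x (rfl | ⟨a, rfl, ha⟩)
    · rw [inv_zero]
      exact Or.inl rfl
    by_cases h : IsLocalRing.residue O a = 0
    · rw [h, inv_zero]
      exact Or.inl rfl
    · obtain ⟨h1, h2⟩ := residue_inv h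
      exact Or.inr ⟨_, h2, hP.inv ha⟩

theorem cps_cm (hP : Gr P) {O : ValuationSubring L}
    {A : ValuationSubring (IsLocalRing.ResidueField O)} (hO : Cm P O) (hA : Cm (rs O P) A) :
    Cm P (cps O A) := by
  intro x hx
  by_cases hxO : O.valuation x < 1
  · exact hO x hxO
  have hx1 : O.valuation x = 1 := by
    refine le_antisymm ((le_one O).2 (cps_le O A ((le_one _).1 hx.le))) (not_lt.1 hxO)
  have hx0 : x ≠ 0 := by
    rintro rfl
    rw [map_zero] at hx1
    exact zero_ne_one hx1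
  rw [lt_one] at hx
  have hx2 := hx.resolve_left hx0
  have hxm : x ∈ O := (le_one O).1 hx1.le
  have hxi : x⁻¹ ∈ O := (le_one O).1 (by rw [map_inv₀, hx1, inv_one])
  have hmul : IsLocalRing.residue O ⟨x, hxm⟩ * IsLocalRing.residue O ⟨x⁻¹, hxi⟩ = 1 := by
    rw [← map_mul]
    have : (⟨x, hxm⟩ * ⟨x⁻¹, hxi⟩ : O) = 1 := Subtype.ext (mul_inv_cancel₀ hx0)
    rw [this, map_one]
  have h1 : A.valuation (IsLocalRing.residue O ⟨x, hxm⟩) < 1 := by
    rw [lt_one]
    right
    rw [← eq_inv_of_mul_eq_one_right hmul]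
    exact fun h => hx2 ⟨hxi, h⟩
  have h10 : 1 + IsLocalRing.residue O ⟨x, hxm⟩ ≠ 0 := by
    intro h
    have := val_one_add A h1
    rw [h, map_zero] at this
    exact zero_ne_one this
  obtain ⟨y, hy, hyP⟩ := (hA _ h1).resolve_left h10
  have hyv := residue_ne (by rw [hy]; exact h10)
  have hy0 : (y : L) ≠ 0 := by
    intro h
    rw [h, map_zero] at hyv
    exact zero_ne_one hyv
  have h2 : IsLocalRing.residue O (1 + ⟨x, hxm⟩ - y) = 0 := by
    rw [map_sub, map_add, map_one, hy, sub_self]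
  rw [residue_zero_iff] at h2
  have h3 : O.valuation (1 + x - (y : L)) < 1 := h2
  have h4 : P (1 + (1 + x - (y : L)) / (y : L)) := by
    refine hO _ ?_
    rw [map_div₀, hyv, div_one]
    exact h3
  have h5 : 1 + x = (y : L) * (1 + (1 + x - (y : L)) / (y : L)) := by
    field_simp
    ring
  rw [h5]
  exact hP.mul hyP h4

end res

/-! ### The explicit definition of the maximal ideal -/

section expl2

variable {L : Type} [Field L] {P : L → Prop}

/-- The set `U`. -/
def UU (P : L → Prop) (c x : L) : Prop :=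
  1 + x ≠ 0 ∧ P (1 + x) ∧ c + x ≠ 0 ∧ P ((c + x) * c⁻¹)

/-- The set `S`. -/
def SS (P : L → Prop) (c a : L) : Prop :=
  UU P c a ∧ (∀ z, z * a = 1 → ¬ UU P c z) ∧
    (∀ x y, UU P c x → UU P c y → UU P c (a * (x - y)) ∧ UU P c (a * (x * y))) ∧
    ∀ x y u, UU P c u → x * y = a * u → UU P c x ∨ UU P c y

theorem ss_iff (hP : Gr P) {q : ℕ} (hPq : ∀ x : L, P (x ^ q)) (p : ℕ) [Fact p.Prime]
    (hpq : p.Coprime q) {A : ValuationSubring L} (hA : Cm P A) (hp : A.valuation (p : L) < 1)
    (hmin : ∀ A' : ValuationSubring L, A' ≤ A → Cm P A' → A' = A) {c : L}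
    (hc : A.valuation c = 1) (hcP : ¬ P c) (a : L) : SS P c a ↔ A.valuation a < 1 := by
  have hc0 : c ≠ 0 := by
    rintro rfl
    exact hcP hP.zero
  -- the maximal ideal is contained in `U`
  have hmU : ∀ x, A.valuation x < 1 → UU P c x := by
    intro x hx
    have h1 : ∀ y, A.valuation y < 1 → 1 + y ≠ 0 := by
      intro y hy h
      have := val_one_add A hy
      rw [h, map_zero] at this
      exact zero_ne_one this
    have h2 : A.valuation (x / c) < 1 := by
      rw [map_div₀, hc, div_one]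
      exact hx
    have h3 : c + x = c * (1 + x / c) := by field_simp
    have h4 : (c + x) * c⁻¹ = 1 + x / c := by field_simp
    refine ⟨h1 x hx, hA x hx, ?_, ?_⟩
    · rw [h3]
      exact mul_ne_zero hc0 (h1 _ h2)
    · rw [h4]
      exact hA _ h2
  have hUA : ∀ x, UU P c x → A.valuation x ≤ 1 := by
    rintro x ⟨h1, h2, h3, h4⟩
    by_contra hcon
    rw [not_le] at hcon
    have hx0 : x ≠ 0 := by
      rintro rfl
      rw [map_zero] at hcon
      exact absurd hcon (not_lt.2 zero_le_one)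
    have h5 : A.valuation x⁻¹ < 1 := by
      rw [map_inv₀]
      exact inv_lt_one_of_one_lt₀ hcon
    have h6 : A.valuation (c * x⁻¹) < 1 := by
      rw [map_mul, hc, one_mul]
      exact h5
    have hn : ∀ y, A.valuation y < 1 → 1 + y ≠ 0 := by
      intro y hy h
      have := val_one_add A hy
      rw [h, map_zero] at this
      exact zero_ne_one this
    have h7 : P x := by
      have e : 1 + x = (1 + x⁻¹) * x := by
        field_simp
        ring
      rw [e] at h2
      exact hP.of_mul_left (hA _ h5) (hn _ h5) h2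
    have h8 : P c⁻¹ := by
      have e : (c + x) * c⁻¹ = ((1 + c * x⁻¹) * x) * c⁻¹ := by
        field_simp
        ring
      rw [e] at h4
      exact hP.of_mul_left (hP.mul (hA _ h6) h7) (mul_ne_zero (hn _ h6) hx0) h4
    apply hcP
    rw [← inv_inv c]
    exact hP.inv h8
  have hvm : ∀ {x y : L}, A.valuation x < 1 → A.valuation y ≤ 1 → A.valuation (x * y) < 1 := by
    intro x y hx hy
    rw [map_mul]
    exact mul_lt_one_of_nonneg_of_lt_one_left zero_le hx hy
  have hvs : ∀ {x y : L}, A.valuation x ≤ 1 → A.valuation y ≤ 1 → A.valuation (x - y) ≤ 1 :=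
    fun hx hy => (Valuation.map_sub _ _ _).trans (max_le hx hy)
  constructor
  swap
  · intro ha
    refine ⟨hmU a ha, fun z hz hzU => ?_, fun x y hx hy => ⟨hmU _ (hvm ha (hvs (hUA x hx) (hUA y hy))),
      hmU _ (hvm ha ?_)⟩, fun x y u hu hxy => ?_⟩
    · have h1 := congrArg A.valuation hz
      rw [map_one] at h1
      have h2 := hvm ha (hUA z hzU)
      rw [mul_comm, h1] at h2
      exact lt_irrefl _ h2
    · rw [map_mul]
      exact mul_le_one' (hUA x hx) (hUA y hy)
    · by_contra hcon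
      rw [not_or] at hcon
      have h1 : 1 ≤ A.valuation x := not_lt.1 fun h => hcon.1 (hmU x h)
      have h2 : 1 ≤ A.valuation y := not_lt.1 fun h => hcon.2 (hmU y h)
      have h3 := hvm ha (hUA u hu)
      rw [← hxy, map_mul] at h3
      exact absurd h3 (not_lt.2 (one_le_mul h1 h2))
  · rintro ⟨h1, h2, h3, h4⟩
    by_contra hcon
    have ha1 : A.valuation a = 1 := le_antisymm (hUA a h1) (not_lt.1 hcon)
    have ha0 : a ≠ 0 := by
      rintro rfl
      rw [map_zero] at ha1
      exact zero_ne_one ha1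
    have h0U : UU P c 0 := hmU 0 (by rw [map_zero]; exact zero_lt_one)
    have haU : ∀ x, UU P c x → UU P c (a * x) := by
      intro x hx
      have := (h3 x 0 hx h0U).1
      rwa [sub_zero] at this
    have hainv : ¬ UU P c a⁻¹ := h2 _ (inv_mul_cancel₀ ha0)
    have hunit : ∀ x, UU P c x → A.valuation (1 + a ^ 2 * x) = 1 := by
      intro x hx
      refine le_antisymm ?_ (not_lt.1 fun hlt => hainv ?_)
      · refine (Valuation.map_add _ _ _).trans (max_le (by rw [map_one]) ?_)
        rw [map_mul, map_pow, ha1, one_pow, one_mul]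
        exact hUA x hx
      · have e : a⁻¹ = a * (a⁻¹ ^ 2 * (1 + a ^ 2 * x) - x) := by
          field_simp
          ring
        rw [e]
        refine (h3 _ _ (hmU _ ?_) hx).1
        rw [map_mul, map_pow, map_inv₀, ha1, inv_one, one_pow, one_mul]
        exact hlt
    -- the residue field
    have hchar : CharP (IsLocalRing.ResidueField A) p := by
      refine (CharP.charP_iff_prime_eq_zero (Fact.out : p.Prime)).2 ?_
      have h5 : IsLocalRing.residue A (p : A) = 0 := by
        rw [residue_zero_iff]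
        exact_mod_cast hp
      rwa [map_natCast] at h5
    set a' : A := ⟨a, (le_one A).1 ha1.le⟩ with ha'
    have ha'0 : IsLocalRing.residue A a' ≠ 0 := by
      intro h
      rw [residue_zero_iff] at h
      exact absurd h (not_lt.2 ha1.ge)
    set B : Set (IsLocalRing.ResidueField A) :=
      {z | ∃ x : A, UU P c (x : L) ∧ IsLocalRing.residue A x = z} with hB
    have hR : Rough (rs A P) B (IsLocalRing.residue A (a' ^ 2)) :=
      { ne := by
          rw [map_pow]
          exact pow_ne_zero _ ha'0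
        mem := ⟨a' ^ 2, by
          show UU P c (a ^ 2)
          rw [sq]
          exact haU a h1, rfl⟩
        sub := by
          rintro _ ⟨x, hx, rfl⟩ _ ⟨y, hy, rfl⟩
          refine ⟨a' ^ 2 * (x - y), ?_, by rw [map_mul, map_sub]⟩
          have := haU _ (h3 _ _ hx hy).1
          rwa [← mul_assoc, ← sq] at this
        mul := by
          rintro _ ⟨x, hx, rfl⟩ _ ⟨y, hy, rfl⟩
          refine ⟨a' ^ 2 * (x * y), ?_, by rw [map_mul, map_mul]⟩
          have := haU _ (h3 _ _ hx hy).2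
          rwa [← mul_assoc, ← sq] at this
        inv := by
          intro z hz
          obtain ⟨x, rfl⟩ := IsLocalRing.residue_surjective z
          have hx0 : IsLocalRing.residue A x ≠ 0 := by
            intro h
            exact hz ⟨0, h0U, by rw [map_zero, h]⟩
          have hxU : ¬ UU P c (x : L) := fun h => hz ⟨x, h, rfl⟩
          obtain ⟨h5, h6⟩ := residue_inv hx0
          have hxL : (x : L) ≠ 0 := by
            intro h
            have := residue_ne hx0
            rw [h, map_zero] at this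
            exact zero_ne_one this
          refine ⟨a' ^ 2 * ⟨(x : L)⁻¹, h5⟩, ?_, by rw [map_mul, h6]⟩
          refine (h4 (x : L) (a ^ 2 * (x : L)⁻¹) a h1 ?_).resolve_left hxU
          field_simp
        pw := by
          rintro _ ⟨x, hx, rfl⟩
          have h5 := hunit _ hx
          have h6 : IsLocalRing.residue A (1 + a' ^ 2 * x) = 1 + IsLocalRing.residue A (a' ^ 2) *
              IsLocalRing.residue A x := by
            rw [map_add, map_one, map_mul]
          constructor
          · intro h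
            rw [← h6, residue_zero_iff] at h
            exact absurd h (not_lt.2 h5.ge)
          · right
            refine ⟨_, h6, ?_⟩
            have := (haU _ (haU _ hx)).2.1
            rw [← mul_assoc, ← sq] at this
            exact this }
    have hPq' : ∀ z : IsLocalRing.ResidueField A, rs A P (z ^ q) := by
      intro z
      obtain ⟨x, rfl⟩ := IsLocalRing.residue_surjective z
      exact Or.inr ⟨x ^ q, map_pow _ _ _, hPq _⟩
    obtain ⟨B', hB', hB''⟩ := hR.exists_ring (rs_gr hP A) hPq' p hpq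
    exact cps_ne A B' hB' (hmin _ (cps_le A B') (cps_cm hP hA hB''))

end expl2

end Pool.Agent.T9h39.Ne
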