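import Pool.Agent.T9h39.Ne2
import Pool.Agent.T9h39.Nd5

set_option autoImplicit false

/-!
# Definable valuation rings from definable subgroups of the multiplicative group
-/

namespace Pool.Agent.T9h39.Ne

open FirstOrder FirstOrder.Language FirstOrder.Ring Pool.Agent.N616.NH
open Pool.Agent.N616.NH.DJ_
open Pool.Agent.T9h39.Nd (dfb_of_D comap_ne_top ne_top_iff le_one lt_one
  val_lt_one_of_le)

section calc_

variable {K : Type} [Field K] [CompatibleRing K] {L : Type} [Field L] [Algebra K L]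
  [FiniteDimensional K L]

/-- `Φ (eval v Q)` for a definable `Φ` and a polynomial `Q`. -/
theorem D_app {Φ : L → Prop} (h : D K (fun v : Fin 1 → L => Φ (v 0))) {ι : Type} [Finite ι]
    (Q : MvPolynomial ι L) : D K (fun v : ι → L => Φ (MvPolynomial.eval v Q)) := by
  have h1 : D K (fun v : ι ⊕ Fin 1 → L => Φ (v (Sum.inr 0))) := D_re DFA (fun _ : Fin 1 => Sum.inr 0) h
  have h2 : D K (fun v : ι ⊕ Fin 1 → L => MvPolynomial.eval v
      (MvPolynomial.rename Sum.inl Q - MvPolynomial.X (Sum.inr 0)) = 0) := D_poly DFB _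
  refine D_congr (fun v => ?_) (D_ex1 DFA (D_and DFA h1 h2))
  simp only [map_sub, MvPolynomial.eval_X, MvPolynomial.eval_rename, Sum.elim_comp_inl,
    Sum.elim_inr, sub_eq_zero]
  constructor
  · rintro ⟨w, hw1, hw2⟩
    rw [hw2]
    exact hw1
  · intro h
    exact ⟨_, h, rfl⟩

theorem D_or {ι : Type} {p q : (ι → L) → Prop} (hp : D K p) (hq : D K q) :
    D K (fun v => p v ∨ q v) := by
  refine D_congr (fun v => ?_) (D_not DFA (D_and DFA (D_not DFA hp) (D_not DFA hq)))
  tauto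

variable {P : L → Prop} (hD : D K (fun v : Fin 1 → L => P (v 0)))
include hD

theorem D_X1 : D K (fun v : Fin 1 → L => X1 P (v 0)) := by
  refine D_congr (fun v => ?_) (D_and DFA (D_not DFA hD) (D_app hD (1 + MvPolynomial.X 0)))
  unfold X1
  rw [map_add, map_one, MvPolynomial.eval_X]

theorem D_XA : D K (fun v : Fin 1 → L => XA P (v 0)) := by
  have h0 : D K (fun v : Fin 1 → L => MvPolynomial.eval v (MvPolynomial.X 0) = 0) := D_poly DFB _
  have h2 : D K (fun v : Fin 1 ⊕ Fin 1 → L => X1 P (MvPolynomial.eval v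
      (MvPolynomial.X (Sum.inr 0))) → X1 P (MvPolynomial.eval v
      (MvPolynomial.X (Sum.inl 0) * MvPolynomial.X (Sum.inr 0)))) :=
    D_imp DFA (D_app (D_X1 hD) _) (D_app (D_X1 hD) _)
  have h3 : D K (fun v : Fin 1 → L => P (v 0) ∧ ∀ z : L, X1 P z → X1 P (v 0 * z)) := by
    refine D_and DFA hD (D_congr (fun v => ?_) (D_all1 DFA h2))
    simp only [MvPolynomial.eval_X, map_mul, Sum.elim_inr, Sum.elim_inl]
  refine D_congr (fun v => ?_) (D_or h0 (D_or (D_X1 hD) h3))
  unfold XA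
  simp only [MvPolynomial.eval_X]

theorem D_UU (c : L) : D K (fun v : Fin 1 → L => UU P c (v 0)) := by
  have h1 : D K (fun v : Fin 1 → L => MvPolynomial.eval v (1 + MvPolynomial.X 0) = 0) :=
    D_poly DFB _
  have h2 : D K (fun v : Fin 1 → L => MvPolynomial.eval v
      (MvPolynomial.C c + MvPolynomial.X 0) = 0) := D_poly DFB _
  refine D_congr (fun v => ?_) (D_and DFA (D_not DFA h1) (D_and DFA
    (D_app hD (1 + MvPolynomial.X 0)) (D_and DFA (D_not DFA h2) (D_app hD
      ((MvPolynomial.C c + MvPolynomial.X 0) * MvPolynomial.C c⁻¹)))))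
  unfold UU
  simp only [map_add, map_mul, map_one, MvPolynomial.eval_X, MvPolynomial.eval_C, ne_eq]

theorem D_SS (c : L) : D K (fun v : Fin 1 → L => SS P c (v 0)) := by
  have hU := D_UU hD c
  have h2 : D K (fun v : Fin 1 → L => ∀ z : L, z * v 0 = 1 → ¬ UU P c z) := by
    have e1 : D K (fun v : Fin 1 ⊕ Fin 1 → L => MvPolynomial.eval v
      (MvPolynomial.X (Sum.inr 0) * MvPolynomial.X (Sum.inl 0) - 1) = 0) := D_poly DFB _
    have e2 : D K (fun v : Fin 1 ⊕ Fin 1 → L => ¬ UU P c (MvPolynomial.eval v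
      (MvPolynomial.X (Sum.inr 0)))) := D_not DFA (D_app hU _)
    refine D_congr (fun v => ?_) (D_all1 DFA (D_imp DFA e1 e2))
    simp only [MvPolynomial.eval_X, map_mul, map_sub, map_one, Sum.elim_inr, Sum.elim_inl,
      sub_eq_zero]
  have h3 : D K (fun v : Fin 1 → L => ∀ x y, UU P c x → UU P c y →
      UU P c (v 0 * (x - y)) ∧ UU P c (v 0 * (x * y))) := by
    have e1 : D K (fun v : (Fin 1 ⊕ Fin 1) ⊕ Fin 1 → L => UU P c (MvPolynomial.eval v
      (MvPolynomial.X (Sum.inl (Sum.inr 0)))) → UU P c (MvPolynomial.eval v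
      (MvPolynomial.X (Sum.inr 0))) →
      UU P c (MvPolynomial.eval v (MvPolynomial.X (Sum.inl (Sum.inl 0)) *
        (MvPolynomial.X (Sum.inl (Sum.inr 0)) - MvPolynomial.X (Sum.inr 0)))) ∧
      UU P c (MvPolynomial.eval v (MvPolynomial.X (Sum.inl (Sum.inl 0)) *
        (MvPolynomial.X (Sum.inl (Sum.inr 0)) * MvPolynomial.X (Sum.inr 0))))) :=
      D_imp DFA (D_app hU _) (D_imp DFA (D_app hU _) (D_and DFA (D_app hU _) (D_app hU _)))
    refine D_congr (fun v => ?_) (D_all1 DFA (D_all1 DFA e1))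
    simp only [MvPolynomial.eval_X, map_mul, map_sub, Sum.elim_inr, Sum.elim_inl]
  have h4 : D K (fun v : Fin 1 → L => ∀ x y u, UU P c u → x * y = v 0 * u →
      UU P c x ∨ UU P c y) := by
    have e1 : D K (fun v : ((Fin 1 ⊕ Fin 1) ⊕ Fin 1) ⊕ Fin 1 → L => MvPolynomial.eval v
      (MvPolynomial.X (Sum.inl (Sum.inl (Sum.inr 0))) * MvPolynomial.X (Sum.inl (Sum.inr 0)) -
        MvPolynomial.X (Sum.inl (Sum.inl (Sum.inl 0))) * MvPolynomial.X (Sum.inr 0)) = 0) :=
      D_poly DFB _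
    have e2 : D K (fun v : ((Fin 1 ⊕ Fin 1) ⊕ Fin 1) ⊕ Fin 1 → L => UU P c (MvPolynomial.eval v
      (MvPolynomial.X (Sum.inr 0))) → MvPolynomial.eval v
      (MvPolynomial.X (Sum.inl (Sum.inl (Sum.inr 0))) * MvPolynomial.X (Sum.inl (Sum.inr 0)) -
        MvPolynomial.X (Sum.inl (Sum.inl (Sum.inl 0))) * MvPolynomial.X (Sum.inr 0)) = 0 →
      UU P c (MvPolynomial.eval v (MvPolynomial.X (Sum.inl (Sum.inl (Sum.inr 0))))) ∨
      UU P c (MvPolynomial.eval v (MvPolynomial.X (Sum.inl (Sum.inr 0))))) :=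
      D_imp DFA (D_app hU _) (D_imp DFA e1 (D_or (D_app hU _) (D_app hU _)))
    refine D_congr (fun v => ?_) (D_all1 DFA (D_all1 DFA (D_all1 DFA e2)))
    simp only [MvPolynomial.eval_X, map_mul, map_sub, Sum.elim_inr, Sum.elim_inl, sub_eq_zero]
  exact D_and DFA hU (D_and DFA h2 (D_and DFA h3 h4))

end calc_

/-- **Definable valuation rings from definable subgroups.** Let `L` be a finite extension of `K`, `P`
a subset of `L`, definable over `K`, the union of zero and a subgroup which contains all `q`-th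
powers, and not `L`. If all `1 + x`, `x` in the maximal ideal of a valuation ring `A₀ ≠ L` with
residue characteristic prime to `q` and not zero, are in `P`, then `K` has a definable valuation ring
different from `K`. -/
theorem jkT (K : Type) [Field K] [CompatibleRing K] (L : Type) [Field L] [Algebra K L]
    [FiniteDimensional K L] {P : L → Prop} (hP : Gr P)
    (hD : D K (fun v : Fin 1 → L => P (v 0))) {q : ℕ} (hPq : ∀ x : L, P (x ^ q)) (p : ℕ)
    [Fact p.Prime] (hpq : p.Coprime q) {A₀ : ValuationSubring L} (hA₀ : Cm P A₀) (hA₀' : A₀ ≠ ⊤)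
    (hp : A₀.valuation (p : L) < 1) {c : L} (hc : ¬ P c) :
    ∃ A : ValuationSubring K, A ≠ ⊤ ∧ Dfb A := by
  by_cases hI : ∃ O : ValuationSubring L, ∀ x : L, O.valuation x = 1 → P x
  · obtain ⟨O, hO⟩ := hI
    obtain ⟨A, hA, hA'⟩ := explicit hP hO hc
    exact ⟨A.comap (algebraMap K L), comap_ne_top K L hA,
      dfb_of_D K L (D_congr (fun v => (hA' (v 0)).symm) (D_XA hD))⟩
  push Not at hI
  have hcomp : ∀ O₁ O₂ : ValuationSubring L, Cm P O₁ → Cm P O₂ → O₁ ≤ O₂ ∨ O₂ ≤ O₁ :=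
    fun O₁ O₂ h₁ h₂ => comparable hP (fun O hO => by
      obtain ⟨x, hx1, hx2⟩ := hI O
      exact absurd (hO x hx1) hx2) hc h₁ h₂
  set A := fin hcomp with hA
  have hAc : Cm P A := fin_cmp hP hcomp
  have hle : A ≤ A₀ := fin_le hcomp hA₀
  have hAt : A ≠ ⊤ := by
    intro h
    apply hA₀'
    rw [eq_top_iff, ← h]
    exact hle
  obtain ⟨d, hd1, hd2⟩ := hI A
  have hss := ss_iff hP hPq p hpq hAc (val_lt_one_of_le hle hp)
    (fun A' h1 h2 => le_antisymm h1 (fin_le hcomp h2)) hd1 hd2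
  refine ⟨A.comap (algebraMap K L), comap_ne_top K L hAt, dfb_of_D K L ?_⟩
  have h1 : D K (fun v : Fin 1 → L => ∀ z : L, z * v 0 = 1 → ¬ SS P d z) := by
    have e1 : D K (fun v : Fin 1 ⊕ Fin 1 → L => MvPolynomial.eval v
      (MvPolynomial.X (Sum.inr 0) * MvPolynomial.X (Sum.inl 0) - 1) = 0) := D_poly DFB _
    have e2 : D K (fun v : Fin 1 ⊕ Fin 1 → L => ¬ SS P d (MvPolynomial.eval v
      (MvPolynomial.X (Sum.inr 0)))) := D_not DFA (D_app (D_SS hD d) _)
    refine D_congr (fun v => ?_) (D_all1 DFA (D_imp DFA e1 e2))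
    simp only [MvPolynomial.eval_X, map_mul, map_sub, map_one, Sum.elim_inr, Sum.elim_inl,
      sub_eq_zero]
  refine D_congr (fun v => ?_) h1
  by_cases hv : v 0 = 0
  · rw [hv]
    simp only [mul_zero, zero_ne_one, false_imp_iff, implies_true, true_iff]
    exact A.zero_mem
  · constructor
    · intro h
      by_contra hcon
      refine h (v 0)⁻¹ (inv_mul_cancel₀ hv) ((hss _).2 ?_)
      rw [lt_one, inv_inv]
      exact Or.inr hcon
    · intro h z hz hzS
      rw [hss, eq_inv_of_mul_eq_one_left hz, lt_one, inv_inv] at hzS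
      rcases hzS with h1 | h1
      · exact inv_ne_zero hv h1
      · exact h1 h

end Pool.Agent.T9h39.Ne
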