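import Pool.Agent.T9h39.Ne2

set_option autoImplicit false

/-!
# The quasi-norm of a bounded neighbourhood of zero
-/

namespace Pool.Agent.T9h39.Ne

open Filter Topology

/-- A multiplicative quasi-norm. -/
structure QN {F : Type} [Field F] (N : F → ℝ) (C : ℝ) : Prop where
  nonneg : ∀ x, 0 ≤ N x
  eq_zero : ∀ x, N x = 0 ↔ x = 0
  one : N 1 = 1
  mul : ∀ x y, N (x * y) = N x * N y
  one_le : 1 ≤ C
  add : ∀ x y, N (x + y) ≤ C * max (N x) (N y)

section absV

variable {F : Type} [Field F]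

namespace Rough

variable {P : F → Prop} {B : Set F} {c : F} (h : Rough P B c)
include h

theorem zmono {x : F} {k l : ℤ} (hkl : k ≤ l) (hk : c ^ k * x ∈ B) : c ^ l * x ∈ B := by
  obtain ⟨n, rfl⟩ := Int.le.dest hkl
  have := h.cpow hk n
  rwa [← mul_assoc, ← zpow_natCast, ← zpow_add₀ h.ne, add_comm] at this

theorem exists_f (hx : ∀ x : F, ∃ n : ℕ, c ^ n * x ∈ B) :
    ∃ f : F → ℤ, ∀ x, x ≠ 0 → ∀ k : ℤ, c ^ k * x ∈ B ↔ f x ≤ k := by
  have key : ∀ x : F, ∃ m : ℤ, x ≠ 0 → ∀ k : ℤ, c ^ k * x ∈ B ↔ m ≤ k := by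
    intro x
    by_cases hx0 : x = 0
    · exact ⟨0, fun h => absurd hx0 h⟩
    obtain ⟨n, hn⟩ := hx x
    obtain ⟨n0, hn0⟩ := hx x⁻¹
    obtain ⟨m, hm1, hm2⟩ := Int.exists_least_of_bdd (P := fun k : ℤ => c ^ k * x ∈ B)
      ⟨-n0 - 2, fun k hk => by
        by_contra hcon
        rw [not_le] at hcon
        have h1 := h.mul _ hn0 _ hk
        have e : c * (c ^ n0 * x⁻¹ * (c ^ k * x)) = c ^ ((n0 : ℤ) + k + 1) * 1 := by
          rw [zpow_add₀ h.ne, zpow_add₀ h.ne, zpow_one, zpow_natCast]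
          field_simp
        rw [e] at h1
        have h2 := h.zmono (show ((n0 : ℤ) + k + 1) ≤ -2 by omega) h1
        apply h.not_sq
        rw [mul_one, zpow_neg] at h2
        exact_mod_cast h2⟩ ⟨n, by rw [zpow_natCast]; exact hn⟩
    exact ⟨m, fun _ k => ⟨fun hk => hm2 k hk, fun hk => h.zmono hk hm1⟩⟩
  choose f hf using key
  exact ⟨f, hf⟩

/-- The quasi-norm. -/
theorem exists_norm (hx : ∀ x : F, ∃ n : ℕ, c ^ n * x ∈ B) :
    ∃ (N : F → ℝ) (C : ℝ), QN N C ∧ N c < 1 ∧ (∀ x ∈ B, N x ≤ C) ∧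
      ∀ x, N x ≤ C⁻¹ → x ∈ B ∧ 1 + x ≠ 0 ∧ P (1 + x) := by
  classical
  obtain ⟨f, hf⟩ := h.exists_f hx
  have hc := h.ne
  have self : ∀ x, x ≠ 0 → c ^ f x * x ∈ B := fun x hx => (hf x hx _).2 le_rfl
  have fmul : ∀ x y, x ≠ 0 → y ≠ 0 → f (x * y) ≤ f x + f y + 1 := by
    intro x y hx0 hy0
    rw [← hf _ (mul_ne_zero hx0 hy0)]
    have h1 := h.mul _ (self x hx0) _ (self y hy0)
    have e : c * (c ^ f x * x * (c ^ f y * y)) = c ^ (f x + f y + 1) * (x * y) := by
      rw [zpow_add₀ hc, zpow_add₀ hc, zpow_one]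
      ring
    rwa [e] at h1
  have finv : ∀ x, x ≠ 0 → f x⁻¹ ≤ 2 - f x := by
    intro x hx0
    rw [← hf _ (inv_ne_zero hx0)]
    have h1 : c ^ (f x - 1) * x ∉ B := by
      rw [hf x hx0]
      omega
    have h2 := h.inv _ h1
    have e : c * (c ^ (f x - 1) * x)⁻¹ = c ^ (2 - f x) * x⁻¹ := by
      have e1 : (2 - f x) = 1 + (-(f x - 1)) := by ring
      rw [e1, zpow_add₀ hc, zpow_one, zpow_neg, mul_inv]
      ring
    rwa [e] at h2
  have fadd : ∀ x y, x ≠ 0 → y ≠ 0 → x + y ≠ 0 → f (x + y) ≤ max (f x) (f y) + 2 := by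
    intro x y hx0 hy0 hxy
    rw [← hf _ hxy]
    have h1 := h.add ((hf x hx0 (max (f x) (f y))).2 (le_max_left _ _))
      ((hf y hy0 (max (f x) (f y))).2 (le_max_right _ _))
    have e : c ^ 2 * (c ^ max (f x) (f y) * x + c ^ max (f x) (f y) * y) =
        c ^ (max (f x) (f y) + 2) * (x + y) := by
      rw [zpow_add₀ hc]
      norm_cast
      ring
    rwa [e] at h1
  have f1 : -1 ≤ f 1 := by
    by_contra hcon
    rw [not_le] at hcon
    have h1 := (hf 1 one_ne_zero (-2)).2 (by omega)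
    apply h.not_sq
    rw [mul_one, zpow_neg] at h1
    exact_mod_cast h1
  -- the real function
  let g : F → ℝ := fun x => (f x : ℝ) + 1
  have gmul : ∀ x y, x ≠ 0 → y ≠ 0 → g (x * y) ≤ g x + g y := by
    intro x y hx0 hy0
    have : (f (x * y) : ℝ) ≤ f x + f y + 1 := by exact_mod_cast fmul x y hx0 hy0
    simp only [g]
    linarith
  have ginv : ∀ x, x ≠ 0 → g x⁻¹ ≤ 4 - g x := by
    intro x hx0
    have : (f x⁻¹ : ℝ) ≤ 2 - f x := by exact_mod_cast finv x hx0
    simp only [g]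
    linarith
  have g1 : 0 ≤ g 1 := by
    have : (-1 : ℝ) ≤ f 1 := by exact_mod_cast f1
    simp only [g]
    linarith
  have ginv' : ∀ x, x ≠ 0 → 0 ≤ g x + g x⁻¹ := by
    intro x hx0
    have := gmul x x⁻¹ hx0 (inv_ne_zero hx0)
    rw [mul_inv_cancel₀ hx0] at this
    linarith
  have hsub : ∀ x, x ≠ 0 → Subadditive (fun n => g (x ^ n)) := by
    intro x hx0 m n
    show g (x ^ (m + n)) ≤ _
    rw [pow_add]
    exact gmul _ _ (pow_ne_zero _ hx0) (pow_ne_zero _ hx0)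
  have gpow : ∀ x, x ≠ 0 → ∀ n : ℕ, g (x ^ (n + 1)) ≤ (n + 1 : ℕ) * g x := by
    intro x hx0 n
    induction n with
    | zero => simp
    | succ n ih =>
      have := gmul (x ^ (n + 1)) x (pow_ne_zero _ hx0) hx0
      rw [← pow_succ] at this
      push_cast at ih ⊢
      linarith
  have hbdd : ∀ x, x ≠ 0 → BddBelow (Set.range fun n : ℕ => g (x ^ n) / n) := by
    intro x hx0
    refine ⟨min 0 (-g x⁻¹), ?_⟩
    rintro _ ⟨n, rfl⟩
    show _ ≤ g (x ^ n) / n
    rcases n with _ | n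
    · simp
    · refine (min_le_right _ _).trans ?_
      rw [le_div_iff₀ (by positivity)]
      have h1 := gpow x⁻¹ (inv_ne_zero hx0) n
      have h2 := ginv' (x ^ (n + 1)) (pow_ne_zero _ hx0)
      rw [← inv_pow] at h2
      push_cast at h1 ⊢
      linarith
  choose φ hφ using fun x : F => (show ∃ φ : ℝ, x ≠ 0 →
      Tendsto (fun n : ℕ => g (x ^ n) / n) atTop (𝓝 φ) ∧ φ ≤ g x by
    by_cases hx0 : x = 0
    · exact ⟨0, fun h => absurd hx0 h⟩
    · refine ⟨(hsub x hx0).lim, fun _ => ⟨(hsub x hx0).tendsto_lim (hbdd x hx0), ?_⟩⟩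
      have := (hsub x hx0).lim_le_div (hbdd x hx0) one_ne_zero
      simpa using this)
  have φmul' : ∀ x y, x ≠ 0 → y ≠ 0 → φ (x * y) ≤ φ x + φ y := by
    intro x y hx0 hy0
    refine le_of_tendsto_of_tendsto' (hφ _ (mul_ne_zero hx0 hy0)).1
      ((hφ x hx0).1.add (hφ y hy0).1) fun n => ?_
    rw [← add_div, mul_pow]
    exact div_le_div_of_nonneg_right (gmul _ _ (pow_ne_zero _ hx0) (pow_ne_zero _ hy0))
      (Nat.cast_nonneg n)
  have φinv : ∀ x, x ≠ 0 → φ x⁻¹ = -φ x := by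
    intro x hx0
    have hx1 := inv_ne_zero hx0
    have h1 := (hφ x hx0).1.add (hφ x⁻¹ hx1).1
    have h2 : Tendsto (fun n : ℕ => (4 : ℝ) / n) atTop (𝓝 0) :=
      tendsto_const_div_atTop_nhds_zero_nat 4
    have h3 : φ x + φ x⁻¹ ≤ 0 := by
      refine le_of_tendsto_of_tendsto' h1 h2 fun n => ?_
      rw [← add_div]
      refine div_le_div_of_nonneg_right ?_ (Nat.cast_nonneg n)
      have := ginv (x ^ n) (pow_ne_zero _ hx0)
      rw [← inv_pow] at this
      linarith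
    have h4 : 0 ≤ φ x + φ x⁻¹ := by
      refine ge_of_tendsto' h1 fun n => ?_
      rw [← add_div]
      refine div_nonneg ?_ (Nat.cast_nonneg n)
      have := ginv' (x ^ n) (pow_ne_zero _ hx0)
      rwa [← inv_pow] at this
    linarith
  have φmul : ∀ x y, x ≠ 0 → y ≠ 0 → φ (x * y) = φ x + φ y := by
    intro x y hx0 hy0
    refine le_antisymm (φmul' x y hx0 hy0) ?_
    have h1 := φmul' (x * y) y⁻¹ (mul_ne_zero hx0 hy0) (inv_ne_zero hy0)
    rw [mul_assoc, mul_inv_cancel₀ hy0, mul_one, φinv y hy0] at h1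
    linarith
  have φone : φ 1 = 0 := by
    have := φmul 1 1 one_ne_zero one_ne_zero
    rw [mul_one] at this
    linarith
  have φle : ∀ x, x ≠ 0 → φ x ≤ g x := fun x hx0 => (hφ x hx0).2
  have φge : ∀ x, x ≠ 0 → g x - 4 ≤ φ x := by
    intro x hx0
    have h1 := φle x⁻¹ (inv_ne_zero hx0)
    have h2 := ginv x hx0
    rw [φinv x hx0] at h1
    linarith
  have φc : φ c < 0 := by
    have h1 : f (c ^ 3) ≤ -2 := by
      rw [← hf _ (pow_ne_zero _ hc)]
      have e : c ^ (-2 : ℤ) * c ^ 3 = c := by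
        rw [← zpow_natCast, ← zpow_add₀ hc]
        norm_num
      rw [e]
      exact h.mem
    have h2 : (f (c ^ 3) : ℝ) ≤ -2 := by exact_mod_cast h1
    have h3 := φle (c ^ 3) (pow_ne_zero _ hc)
    have h4 : φ (c ^ 3) = 3 * φ c := by
      have e : c ^ 3 = c * (c * c) := by ring
      rw [e, φmul _ _ hc (mul_ne_zero hc hc), φmul _ _ hc hc]
      ring
    simp only [g] at h3
    linarith
  let N : F → ℝ := fun x => if x = 0 then 0 else Real.exp (φ x)
  have N0 : N 0 = 0 := if_pos rfl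
  have Nx : ∀ x, x ≠ 0 → N x = Real.exp (φ x) := fun x hx0 => if_neg hx0
  have Nnn : ∀ x, 0 ≤ N x := by
    intro x
    by_cases hx0 : x = 0
    · rw [hx0, N0]
    · rw [Nx x hx0]
      exact (Real.exp_pos _).le
  refine ⟨N, Real.exp 6, ⟨Nnn, fun x => ?_, ?_, fun x y => ?_, Real.one_le_exp (by norm_num),
    fun x y => ?_⟩, ?_, fun x hxB => ?_, fun x hxN => ?_⟩
  · by_cases hx0 : x = 0
    · simp [hx0, N0]
    · rw [Nx x hx0]
      simp [hx0, (Real.exp_pos _).ne']
  · rw [Nx 1 one_ne_zero, φone, Real.exp_zero]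
  · by_cases hx0 : x = 0
    · rw [hx0, zero_mul, N0, zero_mul]
    by_cases hy0 : y = 0
    · rw [hy0, mul_zero, N0, mul_zero]
    rw [Nx _ (mul_ne_zero hx0 hy0), Nx x hx0, Nx y hy0, φmul x y hx0 hy0, Real.exp_add]
  · have hC : (1 : ℝ) ≤ Real.exp 6 := Real.one_le_exp (by norm_num)
    have hmx : 0 ≤ max (N x) (N y) := (Nnn x).trans (le_max_left _ _)
    by_cases hx0 : x = 0
    · rw [hx0, zero_add]
      refine (le_max_right (N 0) (N y)).trans ?_
      rw [hx0] at hmx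
      nlinarith
    by_cases hy0 : y = 0
    · rw [hy0, add_zero]
      refine (le_max_left (N x) (N 0)).trans ?_
      rw [hy0] at hmx
      nlinarith
    by_cases hxy : x + y = 0
    · rw [hxy, N0]
      positivity
    rw [Nx _ hxy, Nx x hx0, Nx y hy0]
    have h1 : φ (x + y) ≤ 6 + max (φ x) (φ y) := by
      have h2 := φle _ hxy
      have h3 : (f (x + y) : ℝ) ≤ max (f x : ℝ) (f y) + 2 := by
        exact_mod_cast fadd x y hx0 hy0 hxy
      have h4 : max (f x : ℝ) (f y) ≤ max (φ x) (φ y) + 3 := by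
        have h5 := φge x hx0
        have h6 := φge y hy0
        simp only [g] at h5 h6
        refine max_le ?_ ?_
        · linarith [le_max_left (φ x) (φ y)]
        · linarith [le_max_right (φ x) (φ y)]
      simp only [g] at h2
      linarith
    calc Real.exp (φ (x + y)) ≤ Real.exp (6 + max (φ x) (φ y)) := Real.exp_le_exp.2 h1
      _ = Real.exp 6 * max (Real.exp (φ x)) (Real.exp (φ y)) := by
        rw [Real.exp_add, Real.exp_monotone.map_max]
  · rw [Nx c hc]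
    exact (Real.exp_lt_exp.2 φc).trans_eq Real.exp_zero
  · by_cases hx0 : x = 0
    · rw [hx0, N0]
      exact (Real.exp_pos _).le
    rw [Nx x hx0]
    refine Real.exp_le_exp.2 ?_
    have h1 : f x ≤ 0 := by
      rw [← hf x hx0, zpow_zero, one_mul]
      exact hxB
    have h2 : (f x : ℝ) ≤ 0 := by exact_mod_cast h1
    have h3 := φle x hx0
    simp only [g] at h3
    linarith
  · by_cases hx0 : x = 0
    · rw [hx0, add_zero]
      have h1 := h.pw 0 h.zero
      rw [mul_zero, add_zero] at h1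
      exact ⟨h.zero, h1⟩
    rw [Nx x hx0, ← Real.exp_neg, Real.exp_le_exp] at hxN
    have h1 := φge x hx0
    simp only [g] at h1
    have h2 : (f x : ℝ) ≤ -1 := by linarith
    have h3 : f x ≤ -1 := by exact_mod_cast h2
    refine ⟨?_, ?_⟩
    · have := (hf x hx0 0).2 (by omega)
      rwa [zpow_zero, one_mul] at this
    · have h4 := h.pw _ ((hf x hx0 (-1)).2 h3)
      have e : c * (c ^ (-1 : ℤ) * x) = x := by
        rw [zpow_neg_one, ← mul_assoc, mul_inv_cancel₀ hc, one_mul]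
      rwa [e] at h4

end Rough

end absV

end Pool.Agent.T9h39.Ne
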