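import Pool.Agent.T9h39.Ne4

set_option autoImplicit false

/-!
# Open subgroups of quasi-normed fields
-/

namespace Pool.Agent.T9h39.Ne

open Finset

theorem growth (ρ C D : ℝ) (hρ : 1 < ρ) : ∃ s : ℕ, D * C ^ s < ρ ^ (2 ^ s - 1) ∨ C < 0 := by
  by_cases hC : C < 0
  · exact ⟨0, Or.inr hC⟩
  rw [not_lt] at hC
  obtain ⟨m, hm⟩ := pow_unbounded_of_one_lt (max (max C D) 1) hρ
  have hm1 : C ≤ ρ ^ m := (le_max_left C D).trans ((le_max_left _ _).trans hm.le)
  have hm2 : D < ρ ^ m := lt_of_le_of_lt ((le_max_right C D).trans (le_max_left _ _)) hm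
  have h0 : 0 < ρ := by linarith
  refine ⟨2 * (2 * m + 1), Or.inl ?_⟩
  set s := 2 * (2 * m + 1) with hs
  have h1 : D * C ^ s < ρ ^ m * (ρ ^ m) ^ s ∨ D * C ^ s ≤ 0 := by
    by_cases hD : D ≤ 0
    · exact Or.inr (mul_nonpos_of_nonpos_of_nonneg hD (pow_nonneg hC _))
    · left
      rw [not_le] at hD
      calc D * C ^ s ≤ D * (ρ ^ m) ^ s :=
            mul_le_mul_of_nonneg_left (pow_le_pow_left₀ hC hm1 _) hD.le
        _ < _ := mul_lt_mul_of_pos_right hm2 (by positivity)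
  have h2 : m * (s + 1) ≤ 2 ^ s - 1 := by
    have h3 : 2 * m + 1 < 2 ^ (2 * m + 1) := Nat.lt_two_pow_self
    have h4 : 2 ^ s = 2 ^ (2 * m + 1) * 2 ^ (2 * m + 1) := by rw [hs, two_mul, pow_add]
    have h5 : (2 * m + 2) * (2 * m + 2) ≤ 2 ^ s := by
      rw [h4]
      exact Nat.mul_le_mul h3 h3
    have h6 : m * (s + 1) + 1 ≤ (2 * m + 2) * (2 * m + 2) := by
      rw [hs]
      nlinarith
    omega
  have h3 : ρ ^ m * (ρ ^ m) ^ s ≤ ρ ^ (2 ^ s - 1) := by
    rw [← pow_mul, ← pow_add]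
    refine pow_le_pow_right₀ hρ.le (le_trans (le_of_eq ?_) h2)
    ring
  rcases h1 with h1 | h1
  · exact lt_of_lt_of_le h1 h3
  · exact lt_of_le_of_lt h1 (by positivity)

section qn

variable {F : Type} [Field F] {N : F → ℝ} {C : ℝ} (hN : QN N C)
include hN

theorem QN.zero : N 0 = 0 := (hN.eq_zero 0).2 rfl

theorem QN.pos {x : F} (hx : x ≠ 0) : 0 < N x :=
  lt_of_le_of_ne (hN.nonneg x) fun h => hx ((hN.eq_zero x).1 h.symm)

theorem QN.pow (x : F) (n : ℕ) : N (x ^ n) = N x ^ n := by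
  induction n with
  | zero => rw [pow_zero, pow_zero, hN.one]
  | succ n ih => rw [pow_succ, hN.mul, ih, pow_succ]

theorem QN.inv (x : F) : N x⁻¹ = (N x)⁻¹ := by
  by_cases hx : x = 0
  · rw [hx, inv_zero, hN.zero, inv_zero]
  · apply eq_inv_of_mul_eq_one_left
    rw [← hN.mul, inv_mul_cancel₀ hx, hN.one]

theorem QN.div (x y : F) : N (x / y) = N x / N y := by
  rw [div_eq_mul_inv, hN.mul, hN.inv, ← div_eq_mul_inv]

theorem QN.neg_one : N (-1) = 1 := by
  have h1 : N (-1) * N (-1) = 1 := by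
    rw [← hN.mul]
    norm_num
    exact hN.one
  nlinarith [hN.nonneg (-1)]

theorem QN.neg (x : F) : N (-x) = N x := by
  rw [← neg_one_mul, hN.mul, hN.neg_one, one_mul]

theorem QN.sum_le : ∀ (s n : ℕ), n ≤ 2 ^ s → ∀ (f : ℕ → F) (M : ℝ), 0 ≤ M →
    (∀ i < n, N (f i) ≤ M) → N (∑ i ∈ range n, f i) ≤ C ^ s * M := by
  intro s
  induction s with
  | zero =>
    intro n hn f M hM hf
    rw [pow_zero] at hn
    rw [pow_zero, one_mul]
    interval_cases n
    · rw [sum_range_zero, hN.zero]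
      exact hM
    · rw [sum_range_one]
      exact hf 0 (by norm_num)
  | succ s ih =>
    intro n hn f M hM hf
    obtain ⟨a, b, hab, ha, hb⟩ : ∃ a b : ℕ, n = a + b ∧ a ≤ 2 ^ s ∧ b ≤ 2 ^ s := by
      refine ⟨min n (2 ^ s), n - min n (2 ^ s), by omega, min_le_right _ _, ?_⟩
      rw [pow_succ] at hn
      omega
    rw [hab, sum_range_add, pow_succ, mul_comm (C ^ s), mul_assoc]
    refine (hN.add _ _).trans (mul_le_mul_of_nonneg_left (max_le ?_ ?_) (by linarith [hN.one_le]))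
    · exact ih a ha f M hM fun i hi => hf i (by omega)
    · exact ih b hb (fun i => f (a + i)) M hM fun i hi => hf (a + i) (by omega)

/-- If the integers are bounded then the quasi-norm is ultrametric. -/
theorem QN.ultra (hn : ∀ n : ℕ, N (n : F) ≤ 1) (x y : F) : N (x + y) ≤ max (N x) (N y) := by
  by_contra hcon
  rw [not_le] at hcon
  set M := max (N x) (N y) with hM
  have hM0 : 0 ≤ M := (hN.nonneg x).trans (le_max_left _ _)
  rcases hM0.eq_or_lt with h0 | h0
  · have hx : x = 0 := (hN.eq_zero x).1 (le_antisymm (by rw [h0]; exact le_max_left _ _)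
      (hN.nonneg x))
    have hy : y = 0 := (hN.eq_zero y).1 (le_antisymm (by rw [h0]; exact le_max_right _ _)
      (hN.nonneg y))
    rw [hx, hy, add_zero, hN.zero, ← h0] at hcon
    exact lt_irrefl _ hcon
  obtain ⟨s, hs⟩ := growth (N (x + y) / M) C 1 (by rwa [one_lt_div h0])
  have hs := hs.resolve_right (not_lt.2 (by linarith [hN.one_le]))
  set n := 2 ^ s - 1 with hn'
  have h1 : N ((x + y) ^ n) ≤ C ^ s * M ^ n := by
    rw [add_pow]
    refine hN.sum_le s (n + 1) ?_ _ _ (pow_nonneg hM0 _) fun i hi => ?_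
    · have : 1 ≤ 2 ^ s := Nat.one_le_two_pow
      omega
    · rw [hN.mul, hN.mul, hN.pow, hN.pow]
      have e : M ^ n = M ^ i * M ^ (n - i) * 1 := by
        rw [mul_one, ← pow_add]
        congr 1
        omega
      rw [e]
      refine mul_le_mul (mul_le_mul (pow_le_pow_left₀ (hN.nonneg _) (le_max_left _ _) _)
        (pow_le_pow_left₀ (hN.nonneg _) (le_max_right _ _) _) (pow_nonneg (hN.nonneg _) _)
        (pow_nonneg hM0 _)) (hn _) (hN.nonneg _) (by positivity)
  rw [hN.pow] at h1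
  rw [div_pow, lt_div_iff₀ (by positivity), one_mul] at hs
  exact absurd h1 (not_le.2 hs)

/-! ### The archimedean case -/

theorem QN.base (n : ℕ) (D : ℝ) (hD0 : 0 ≤ D) (hD : ∀ d < n, N (d : F) ≤ D) :
    ∀ (s a : ℕ), a < n ^ 2 ^ s → N (a : F) ≤ C ^ s * D * (max 1 (N (n : F))) ^ 2 ^ s := by
  intro s
  have hM : (1 : ℝ) ≤ max 1 (N (n : F)) := le_max_left _ _
  induction s with
  | zero =>
    intro a ha
    rw [pow_zero, pow_one] at ha
    rw [pow_zero, pow_zero, pow_one, one_mul]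
    calc N (a : F) ≤ D := hD a ha
      _ = D * 1 := (mul_one D).symm
      _ ≤ _ := mul_le_mul_of_nonneg_left hM hD0
  | succ s ih =>
    intro a ha
    set b := n ^ 2 ^ s with hb
    have hbb : n ^ 2 ^ (s + 1) = b * b := by rw [hb, ← pow_add, pow_succ]; ring_nf
    rw [hbb] at ha
    have hb0 : 0 < b := Nat.pos_of_ne_zero (by
      rintro h
      rw [h, zero_mul] at ha
      exact absurd ha (Nat.not_lt_zero _))
    have h1 : a / b < b := Nat.div_lt_of_lt_mul ha
    have h2 : a % b < b := Nat.mod_lt _ hb0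
    have h3 : (a : F) = ((a / b : ℕ) : F) * (n : F) ^ 2 ^ s + ((a % b : ℕ) : F) := by
      have : a = (a / b) * n ^ 2 ^ s + a % b := by
        rw [← hb, mul_comm]
        exact (Nat.div_add_mod a b).symm
      exact_mod_cast congrArg (fun k : ℕ => (k : F)) this
    set M := max 1 (N (n : F)) with hMdef
    have hC0 : 0 ≤ C := by linarith [hN.one_le]
    have hX : 0 ≤ C ^ s * D * M ^ 2 ^ s := by positivity
    have hM1 : (1 : ℝ) ≤ M ^ 2 ^ s := one_le_pow₀ hM
    rw [h3]
    calc N (((a / b : ℕ) : F) * (n : F) ^ 2 ^ s + ((a % b : ℕ) : F))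
        ≤ C * max (N (((a / b : ℕ) : F) * (n : F) ^ 2 ^ s)) (N ((a % b : ℕ) : F)) := hN.add _ _
      _ ≤ C * (C ^ s * D * M ^ 2 ^ s * M ^ 2 ^ s) := by
          refine mul_le_mul_of_nonneg_left (max_le ?_ ?_) hC0
          · rw [hN.mul, hN.pow]
            exact mul_le_mul (ih _ h1) (pow_le_pow_left₀ (hN.nonneg _) (le_max_right _ _) _)
              (pow_nonneg (hN.nonneg _) _) hX
          · calc N ((a % b : ℕ) : F) ≤ C ^ s * D * M ^ 2 ^ s := ih _ h2
              _ = C ^ s * D * M ^ 2 ^ s * 1 := (mul_one _).symm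
              _ ≤ _ := mul_le_mul_of_nonneg_left hM1 hX
      _ = C ^ (s + 1) * D * M ^ 2 ^ (s + 1) := by
          rw [pow_succ C, pow_succ 2, pow_mul]
          ring

theorem QN.mono_nat {m n : ℕ} (hmn : m ≤ n) : N (m : F) ≤ max 1 (N (n : F)) := by
  rcases hmn.eq_or_lt with rfl | hlt
  · exact le_max_right _ _
  by_contra hcon
  rw [not_le] at hcon
  set M := max 1 (N (n : F)) with hM
  have hM1 : (1 : ℝ) ≤ M := le_max_left _ _
  have hM0 : 0 < M := by linarith
  set D := ∑ d ∈ range n, N (d : F) with hD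
  have hD0 : 0 ≤ D := Finset.sum_nonneg fun d _ => hN.nonneg _
  have hDd : ∀ d < n, N (d : F) ≤ D := fun d hd =>
    Finset.single_le_sum (f := fun d : ℕ => N (d : F)) (fun d _ => hN.nonneg _) (mem_range.2 hd)
  obtain ⟨s, hs⟩ := growth (N (m : F) / M) C D (by rwa [one_lt_div hM0])
  have hs := hs.resolve_right (not_lt.2 (by linarith [hN.one_le]))
  have h1 := hN.base n D hD0 hDd s (m ^ 2 ^ s) (Nat.pow_lt_pow_left hlt (by positivity))
  rw [Nat.cast_pow, hN.pow] at h1
  have h2 : (N (m : F) / M) ^ (2 ^ s - 1) ≤ (N (m : F) / M) ^ 2 ^ s :=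
    pow_le_pow_right₀ (by rw [one_le_div hM0]; exact hcon.le) (Nat.sub_le _ _)
  have h3 : (N (m : F) / M) ^ 2 ^ s ≤ D * C ^ s := by
    rw [div_pow, div_le_iff₀ (by positivity), mul_comm D]
    exact h1
  linarith

variable {n0 : ℕ} (hn0 : 1 < N (n0 : F))
include hn0

theorem QN.arch_mono {m n : ℕ} (hn : 1 ≤ n) (hmn : m ≤ n) : N (m : F) ≤ N (n : F) := by
  have key : ∀ n, n0 ≤ n → 1 < N (n : F) := by
    intro n hn
    have := hN.mono_nat hn
    rcases le_max_iff.1 this with h | h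
    · linarith
    · linarith
  have h1 := hN.mono_nat (Nat.mul_le_mul_right n0 hmn)
  have h2 : 1 < N ((n * n0 : ℕ) : F) := key _ (Nat.le_mul_of_pos_left _ hn)
  rw [max_eq_right h2.le, Nat.cast_mul, Nat.cast_mul, hN.mul, hN.mul] at h1
  exact le_of_mul_le_mul_right h1 (by linarith)

theorem QN.arch_pos {n : ℕ} (hn : 1 ≤ n) : 0 < N (n : F) := by
  have h1 := hN.arch_mono hn0 hn (m := 1) hn
  rw [Nat.cast_one, hN.one] at h1
  linarith

theorem QN.arch_ne {n : ℕ} (hn : 1 ≤ n) : (n : F) ≠ 0 := by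
  intro h
  have := hN.arch_pos hn0 hn
  rw [h, hN.zero] at this
  exact lt_irrefl _ this

theorem QN.arch_large (R : ℝ) : ∃ n : ℕ, 1 ≤ n ∧ R ≤ N (n : F) := by
  obtain ⟨j, hj⟩ := pow_unbounded_of_one_lt R hn0
  refine ⟨n0 ^ j, Nat.one_le_pow _ _ (Nat.pos_of_ne_zero ?_), ?_⟩
  · rintro rfl
    rw [Nat.cast_zero, hN.zero] at hn0
    linarith
  · rw [Nat.cast_pow, hN.pow]
    exact hj.le

variable {P : F → Prop} (hP : Gr P) {ε : ℝ} (hε : 0 < ε) (hop : ∀ x, N x ≤ ε → P (1 + x))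
include hP hε hop

theorem QN.path {z : F} {δ : ℝ} (hδ : 0 < δ)
    (h : ∀ n : ℕ, 1 ≤ n → ∀ j ≤ n, δ ≤ N (1 + (j : F) / n * (z - 1))) : P z := by
  obtain ⟨n, hn, hR⟩ := hN.arch_large hn0 (N (z - 1) / (ε * δ))
  have hn0' := hN.arch_ne hn0 hn
  have hnp := hN.arch_pos hn0 hn
  rw [div_le_iff₀ (by positivity)] at hR
  have key : ∀ j ≤ n, P (1 + (j : F) / n * (z - 1)) := by
    intro j
    induction j with
    | zero =>
      intro _
      rw [Nat.cast_zero, zero_div, zero_mul, add_zero]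
      exact hP.one
    | succ j ih =>
      intro hj
      have h1 := ih (by omega)
      have h2 := h n hn j (by omega)
      have h3 : 1 + (j : F) / n * (z - 1) ≠ 0 := by
        intro h0
        rw [h0, hN.zero] at h2
        linarith
      have e : 1 + ((j + 1 : ℕ) : F) / n * (z - 1) = (1 + (j : F) / n * (z - 1)) *
          (1 + (z - 1) / n / (1 + (j : F) / n * (z - 1))) := by
        push_cast
        rw [mul_add, mul_one, mul_div_cancel₀ _ h3]
        field_simp
        ring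
      rw [e]
      refine hP.mul h1 (hop _ ?_)
      rw [hN.div, hN.div, div_div, div_le_iff₀ (mul_pos hnp (lt_of_lt_of_le hδ h2))]
      calc N (z - 1) ≤ N (n : F) * (ε * δ) := hR
        _ = ε * (N (n : F) * δ) := by ring
        _ ≤ ε * (N (n : F) * N (1 + (j : F) / n * (z - 1))) :=
          mul_le_mul_of_nonneg_left (mul_le_mul_of_nonneg_left h2 hnp.le) hε.le
  have := key n le_rfl
  rw [div_self hn0', one_mul, add_sub_cancel] at this
  exact this

theorem QN.arch_nat {a : ℕ} (ha : 1 ≤ a) : P (a : F) := by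
  refine hN.path hn0 hP hε hop one_pos fun n hn j hj => ?_
  have hnp := hN.arch_pos hn0 hn
  have hn0' := hN.arch_ne hn0 hn
  have e : 1 + (j : F) / n * ((a : F) - 1) = ((n + j * (a - 1) : ℕ) : F) / n := by
    rw [Nat.cast_add, Nat.cast_mul, Nat.cast_sub ha, Nat.cast_one]
    field_simp
  rw [e, hN.div, one_le_div hnp]
  exact hN.arch_mono hn0 (by omega) (by omega)

/-- In the archimedean case an open subgroup which contains `-1` is everything. -/
theorem QN.arch_all (hm : P (-1)) (z : F) : P z := by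
  by_cases hz : z = 0
  · rw [hz]
    exact hP.zero
  by_cases hz1 : z = 1
  · rw [hz1]
    exact hP.one
  by_cases hcase : ∃ δ : ℝ, 0 < δ ∧ ∀ n : ℕ, 1 ≤ n → ∀ j ≤ n, δ ≤ N (1 + (j : F) / n * (z - 1))
  · obtain ⟨δ, hδ, h⟩ := hcase
    exact hN.path hn0 hP hε hop hδ h
  push Not at hcase
  have hC := hN.one_le
  have hC0 : 0 < C := by linarith
  have hzp := hN.pos hz
  have hK : 0 < N (z - 1) := hN.pos (sub_ne_zero.2 hz1)
  set K1 := N (z - 1) with hK1
  set η := min (1 / (2 * C)) (min (N z / (2 * C ^ 2 * K1)) (ε * N z / (C ^ 2 * K1))) with hη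
  have hη0 : 0 < η := lt_min (by positivity) (lt_min (by positivity) (by positivity))
  have hη1 : η ≤ 1 / (2 * C) := min_le_left _ _
  have hη2 : η ≤ N z / (2 * C ^ 2 * K1) := (min_le_right _ _).trans (min_le_left _ _)
  have hη3 : η ≤ ε * N z / (C ^ 2 * K1) := (min_le_right _ _).trans (min_le_right _ _)
  rw [le_div_iff₀ (by positivity)] at hη1 hη2 hη3
  obtain ⟨n, hn, j, hj, hw⟩ := hcase η hη0
  have hnF := hN.arch_ne hn0 hn
  set t : F := (j : F) / n with ht
  set w : F := 1 + t * (z - 1) with hwdef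
  have h1 : 1 ≤ C * (N t * K1) := by
    have h2 := hN.add w (-(t * (z - 1)))
    have e : w + -(t * (z - 1)) = 1 := by rw [hwdef]; ring
    rw [e, hN.one, hN.neg, hN.mul] at h2
    rcases le_max_iff.1 (le_refl (max (N w) (N t * N (z - 1)))) with h3 | h3
    · exfalso
      have h4 : C * max (N w) (N t * N (z - 1)) ≤ C * η :=
        mul_le_mul_of_nonneg_left (h3.trans hw.le) hC0.le
      nlinarith
    · exact h2.trans (mul_le_mul_of_nonneg_left h3 hC0.le)
  have htp : 0 < N t := by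
    by_contra hcon
    have : N t = 0 := le_antisymm (not_lt.1 hcon) (hN.nonneg _)
    rw [this, zero_mul, mul_zero] at h1
    linarith
  have ht0 : t ≠ 0 := by
    intro h
    rw [h, hN.zero] at htp
    exact lt_irrefl _ htp
  have hj0 : j ≠ 0 := by
    rintro rfl
    apply ht0
    rw [ht, Nat.cast_zero, zero_div]
  have hjF := hN.arch_ne hn0 (Nat.one_le_iff_ne_zero.2 hj0)
  -- the rational number
  set ρ : F := ((n - j : ℕ) : F) / j with hρ
  have eρ : z + ρ = w / t := by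
    rw [hwdef, hρ, ht, Nat.cast_sub hj]
    field_simp
    ring
  have h2 : N (z + ρ) ≤ η * (C * K1) := by
    rw [eρ, hN.div, div_le_iff₀ htp]
    calc N w ≤ η * 1 := by rw [mul_one]; exact hw.le
      _ ≤ η * (C * (N t * K1)) := mul_le_mul_of_nonneg_left h1 hη0.le
      _ = _ := by ring
  have h3 : N z ≤ C * N ρ := by
    have h4 := hN.add (z + ρ) (-ρ)
    rw [add_neg_cancel_right, hN.neg] at h4
    rcases le_max_iff.1 (le_refl (max (N (z + ρ)) (N ρ))) with h5 | h5
    · exfalso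
      have h6 : C * max (N (z + ρ)) (N ρ) ≤ C * (η * (C * K1)) :=
        mul_le_mul_of_nonneg_left (h5.trans h2) hC0.le
      nlinarith
    · exact h4.trans (mul_le_mul_of_nonneg_left h5 hC0.le)
  have hρp : 0 < N ρ := by
    by_contra hcon
    have : N ρ = 0 := le_antisymm (not_lt.1 hcon) (hN.nonneg _)
    rw [this, mul_zero] at h3
    linarith
  have hρ0 : ρ ≠ 0 := by
    intro h
    rw [h, hN.zero] at hρp
    exact lt_irrefl _ hρp
  have hnj : 1 ≤ n - j := by
    by_contra hcon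
    apply hρ0
    have : n - j = 0 := by omega
    rw [hρ, this, Nat.cast_zero, zero_div]
  have hPρ : P ρ := hP.div (hN.arch_nat hn0 hP hε hop hnj)
    (hN.arch_nat hn0 hP hε hop (Nat.one_le_iff_ne_zero.2 hj0))
  have e2 : z = (-1) * ρ * (1 + (-((z + ρ) / ρ))) := by
    field_simp
    ring
  rw [e2]
  refine hP.mul (hP.mul hm hPρ) (hop _ ?_)
  rw [hN.neg, hN.div, div_le_iff₀ hρp]
  have h5 : η * (C * K1) * C ≤ ε * N z := by
    calc η * (C * K1) * C = η * (C ^ 2 * K1) := by ring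
      _ ≤ _ := hη3
  have h6 : N (z + ρ) * C ≤ ε * (C * N ρ) :=
    (mul_le_mul_of_nonneg_right h2 hC0.le).trans (h5.trans (mul_le_mul_of_nonneg_left h3 hε.le))
  have h7 : N (z + ρ) * C ≤ (ε * N ρ) * C := by
    calc N (z + ρ) * C ≤ ε * (C * N ρ) := h6
      _ = _ := by ring
  exact le_of_mul_le_mul_right h7 hC0

end qn

end Pool.Agent.T9h39.Ne
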