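import Pool.Agent.T9h39.Ne5

set_option autoImplicit false

/-!
# The finest compatible ring: the trichotomy
-/

namespace Pool.Agent.T9h39.Ne

open Pool.Agent.T9h39.Nd (le_one lt_one val_one_add ne_top_iff cps cps_le cps_ne)

section qn

variable {F : Type} [Field F] {N : F → ℝ} {C : ℝ} (hN : QN N C)
include hN

/-- The valuation ring of an ultrametric norm. -/
def QN.vr (hu : ∀ x y, N (x + y) ≤ max (N x) (N y)) : ValuationSubring F where
  carrier := {x | N x ≤ 1}
  mul_mem' := by
    intro x y hx hy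
    show N (x * y) ≤ 1
    rw [hN.mul]
    exact mul_le_one₀ hx (hN.nonneg _) hy
  one_mem' := hN.one.le
  add_mem' := fun hx hy => (hu _ _).trans (max_le hx hy)
  zero_mem' := by
    show N 0 ≤ 1
    rw [hN.zero]
    exact zero_le_one
  neg_mem' := by
    intro x hx
    show N (-x) ≤ 1
    rw [hN.neg]
    exact hx
  mem_or_inv_mem' := by
    intro x
    by_cases h : N x ≤ 1
    · exact Or.inl h
    · right
      show N x⁻¹ ≤ 1
      rw [hN.inv]
      exact inv_le_one_of_one_le₀ (not_le.1 h).le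

theorem QN.mem_vr (hu : ∀ x y, N (x + y) ≤ max (N x) (N y)) (x : F) :
    x ∈ hN.vr hu ↔ N x ≤ 1 := Iff.rfl

theorem QN.vr_lt (hu : ∀ x y, N (x + y) ≤ max (N x) (N y)) (x : F) :
    (hN.vr hu).valuation x < 1 ↔ N x < 1 := by
  rw [lt_one, hN.mem_vr, hN.inv]
  by_cases hx : x = 0
  · simp [hx, hN.zero]
  · have hp := hN.pos hx
    simp only [hx, false_or, not_le]
    exact one_lt_inv₀ hp

/-- Newton's method. -/
theorem QN.newton (hu : ∀ x y, N (x + y) ≤ max (N x) (N y)) {P : F → Prop} (hP : Gr P) {q : ℕ}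
    (hPq : ∀ x : F, P (x ^ q)) (hq : N (q : F) = 1) {ε : ℝ} (hε : 0 < ε)
    (hop : ∀ x, N x ≤ ε → P (1 + x)) {x : F} (hx : N x < 1) : P (1 + x) := by
  have hsub : ∀ a b, N (a - b) ≤ max (N a) (N b) := by
    intro a b
    rw [sub_eq_add_neg, ← hN.neg b]
    exact hu _ _
  have key : ∀ n : ℕ, ∃ y : F, N y = 1 ∧ N (y ^ q - (1 + x)) ≤ N x ^ (n + 1) := by
    intro n
    induction n with
    | zero =>
      refine ⟨1, hN.one, ?_⟩
      have e : (1 : F) ^ q - (1 + x) = -x := by rw [one_pow]; ring
      rw [e, hN.neg, pow_one]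
    | succ n ih =>
      obtain ⟨y, hy, hyx⟩ := ih
      set e := y ^ q - (1 + x) with he
      have hq0 : (q : F) ≠ 0 := by
        intro h
        rw [h, hN.zero] at hq
        exact zero_ne_one hq
      have hy0 : y ≠ 0 := by
        intro h
        rw [h, hN.zero] at hy
        exact zero_ne_one hy
      have he1 : N e ≤ 1 := hyx.trans (pow_le_one₀ (hN.nonneg _) hx.le)
      have helt : N e < 1 := lt_of_le_of_lt hyx (pow_lt_one₀ (hN.nonneg _) hx (by omega))
      set u := -e / (q * y ^ (q - 1)) with hu'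
      have hNu : N u = N e := by
        rw [hu', hN.div, hN.neg, hN.mul, hN.pow, hq, hy, one_pow, one_mul, div_one]
      let R := hN.vr hu
      obtain ⟨k, hk⟩ := Polynomial.powAddExpansion (⟨y, hy.le⟩ : R) ⟨u, by
        show N u ≤ 1
        rw [hNu]
        exact he1⟩ q
      have hk' : (y + u) ^ q = y ^ q + q * y ^ (q - 1) * u + (k : F) * u ^ 2 := by
        have := congrArg (Subtype.val) hk
        push_cast at this
        exact this
      have hkR : N (k : F) ≤ 1 := k.2
      refine ⟨y + u, ?_, ?_⟩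
      · refine le_antisymm ((hu _ _).trans (max_le hy.le (by rw [hNu]; exact he1))) ?_
        by_contra hcon
        rw [not_le] at hcon
        have h1 := hsub (y + u) u
        rw [add_sub_cancel_right, hy] at h1
        exact absurd h1 (not_le.2 (max_lt hcon (by rw [hNu]; exact helt)))
      · have e2 : (y + u) ^ q - (1 + x) = (k : F) * u ^ 2 := by
          rw [hk', hu']
          have : (q : F) * y ^ (q - 1) * (-e / (q * y ^ (q - 1))) = -e := by
            field_simp
          rw [this, he]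
          ring
        rw [e2, hN.mul, hN.pow, hNu]
        calc N (k : F) * N e ^ 2 ≤ 1 * N e ^ 2 :=
              mul_le_mul_of_nonneg_right hkR (pow_nonneg (hN.nonneg _) _)
          _ = N e ^ 2 := one_mul _
          _ ≤ (N x ^ (n + 1)) ^ 2 := pow_le_pow_left₀ (hN.nonneg _) hyx _
          _ = N x ^ (2 * (n + 1)) := by rw [← pow_mul, mul_comm]
          _ ≤ N x ^ (n + 1 + 1) := pow_le_pow_of_le_one (hN.nonneg _) hx.le (by omega)
  obtain ⟨n, hn⟩ := exists_pow_lt_of_lt_one hε hx
  obtain ⟨y, hy, hyx⟩ := key n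
  have hy0 : y ≠ 0 := by
    intro h
    rw [h, hN.zero] at hy
    exact zero_ne_one hy
  have e : 1 + x = y ^ q * (1 + -(y ^ q - (1 + x)) / y ^ q) := by
    field_simp
    ring
  rw [e]
  refine hP.mul (hPq y) (hop _ ?_)
  rw [hN.div, hN.neg, hN.pow, hy, one_pow, div_one]
  refine hyx.trans (le_trans ?_ hn.le)
  exact pow_le_pow_of_le_one (hN.nonneg _) hx.le (by omega)

end qn

section tri

variable {L : Type} [Field L] {P : L → Prop}

theorem lift_rs (hP : Gr P) {A : ValuationSubring L} (hA : Cm P A) {z : A}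
    (hz : IsLocalRing.residue A z ≠ 0) (h : rs A P (IsLocalRing.residue A z)) : P (z : L) := by
  obtain ⟨y, hy, hyP⟩ := h.resolve_left hz
  have hyv := residue_ne (by rw [hy]; exact hz)
  have hy0 : (y : L) ≠ 0 := by
    intro h
    rw [h, map_zero] at hyv
    exact zero_ne_one hyv
  have h2 : IsLocalRing.residue A (z - y) = 0 := by
    rw [map_sub, hy, sub_self]
  rw [residue_zero_iff] at h2
  have h3 : A.valuation ((z : L) - (y : L)) < 1 := h2
  have h4 : P (1 + ((z : L) - (y : L)) / (y : L)) := by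
    refine hA _ ?_
    rw [map_div₀, hyv, div_one]
    exact h3
  have h5 : (z : L) = (y : L) * (1 + ((z : L) - (y : L)) / (y : L)) := by
    field_simp
    ring
  rw [h5]
  exact hP.mul hyP h4

/-- Either the maximal ideal of the finest compatible ring `A` is given by the explicit definition
`SS`, or the residue field of `A` has an ultrametric norm with `N q < 1` such that `UU` is a bounded
neighbourhood of zero. -/
theorem trichotomy (hP : Gr P) (hm : P (-1)) {q : ℕ} (hPq : ∀ x : L, P (x ^ q))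
    {A : ValuationSubring L} (hA : Cm P A)
    (hmin : ∀ A' : ValuationSubring L, A' ≤ A → Cm P A' → A' = A) {c : L}
    (hc : A.valuation c = 1) (hcP : ¬ P c) :
    (∀ a, SS P c a ↔ A.valuation a < 1) ∨
    ∃ (N : IsLocalRing.ResidueField A → ℝ) (C : ℝ), QN N C ∧
      (∀ x y, N (x + y) ≤ max (N x) (N y)) ∧ N (q : IsLocalRing.ResidueField A) < 1 ∧
      (∃ z, z ≠ 0 ∧ N z < 1) ∧
      ∃ ε : ℝ, 0 < ε ∧ (∀ x : A, N (IsLocalRing.residue A x) ≤ ε → UU P c (x : L)) ∧
        ∀ x : L, UU P c x → ∃ h : x ∈ A, N (IsLocalRing.residue A ⟨x, h⟩) ≤ 1 / ε := by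
  have hc0 : c ≠ 0 := by
    rintro rfl
    exact hcP hP.zero
  -- the maximal ideal is contained in `U`
  have hmU : ∀ x, A.valuation x < 1 → UU P c x := by
    intro x hx
    have h1 : ∀ y, A.valuation y < 1 → 1 + y ≠ 0 := by
      intro y hy h
      have := val_one_add A hy
      rw [h, map_zero] at this
      exact zero_ne_one this
    have h2 : A.valuation (x / c) < 1 := by
      rw [map_div₀, hc, div_one]
      exact hx
    have h3 : c + x = c * (1 + x / c) := by field_simp
    have h4 : (c + x) * c⁻¹ = 1 + x / c := by field_simp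
    refine ⟨h1 x hx, hA x hx, ?_, ?_⟩
    · rw [h3]
      exact mul_ne_zero hc0 (h1 _ h2)
    · rw [h4]
      exact hA _ h2
  have hUA : ∀ x, UU P c x → A.valuation x ≤ 1 := by
    rintro x ⟨h1, h2, h3, h4⟩
    by_contra hcon
    rw [not_le] at hcon
    have hx0 : x ≠ 0 := by
      rintro rfl
      rw [map_zero] at hcon
      exact absurd hcon (not_lt.2 zero_le_one)
    have h5 : A.valuation x⁻¹ < 1 := by
      rw [map_inv₀]
      exact inv_lt_one_of_one_lt₀ hcon
    have h6 : A.valuation (c * x⁻¹) < 1 := by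
      rw [map_mul, hc, one_mul]
      exact h5
    have hn : ∀ y, A.valuation y < 1 → 1 + y ≠ 0 := by
      intro y hy h
      have := val_one_add A hy
      rw [h, map_zero] at this
      exact zero_ne_one this
    have h7 : P x := by
      have e : 1 + x = (1 + x⁻¹) * x := by
        field_simp
        ring
      rw [e] at h2
      exact hP.of_mul_left (hA _ h5) (hn _ h5) h2
    have h8 : P c⁻¹ := by
      have e : (c + x) * c⁻¹ = ((1 + c * x⁻¹) * x) * c⁻¹ := by
        field_simp
        ring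
      rw [e] at h4
      exact hP.of_mul_left (hP.mul (hA _ h6) h7) (mul_ne_zero (hn _ h6) hx0) h4
    apply hcP
    rw [← inv_inv c]
    exact hP.inv h8
  have hvm : ∀ {x y : L}, A.valuation x < 1 → A.valuation y ≤ 1 → A.valuation (x * y) < 1 := by
    intro x y hx hy
    rw [map_mul]
    exact mul_lt_one_of_nonneg_of_lt_one_left zero_le hx hy
  have hvs : ∀ {x y : L}, A.valuation x ≤ 1 → A.valuation y ≤ 1 → A.valuation (x - y) ≤ 1 :=
    fun hx hy => (Valuation.map_sub _ _ _).trans (max_le hx hy)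
  by_cases hS : ∀ a, SS P c a → A.valuation a < 1
  · left
    refine fun a => ⟨hS a, fun ha => ?_⟩
    refine ⟨hmU a ha, fun z hz hzU => ?_, fun x y hx hy => ⟨hmU _ (hvm ha (hvs (hUA x hx) (hUA y hy))),
      hmU _ (hvm ha ?_)⟩, fun x y u hu hxy => ?_⟩
    · have h1 := congrArg A.valuation hz
      rw [map_one] at h1
      have h2 := hvm ha (hUA z hzU)
      rw [mul_comm, h1] at h2
      exact lt_irrefl _ h2
    · rw [map_mul]
      exact mul_le_one' (hUA x hx) (hUA y hy)
    · by_contra hcon
      rw [not_or] at hcon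
      have h1 : 1 ≤ A.valuation x := not_lt.1 fun h => hcon.1 (hmU x h)
      have h2 : 1 ≤ A.valuation y := not_lt.1 fun h => hcon.2 (hmU y h)
      have h3 := hvm ha (hUA u hu)
      rw [← hxy, map_mul] at h3
      exact absurd h3 (not_lt.2 (one_le_mul h1 h2))
  right
  push Not at hS
  obtain ⟨a, ⟨h1, h2, h3, h4⟩, hcon⟩ := hS
  have ha1 : A.valuation a = 1 := le_antisymm (hUA a h1) hcon
  have ha0 : a ≠ 0 := by
    rintro rfl
    rw [map_zero] at ha1
    exact zero_ne_one ha1
  have h0U : UU P c 0 := hmU 0 (by rw [map_zero]; exact zero_lt_one)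
  have haU : ∀ x, UU P c x → UU P c (a * x) := by
    intro x hx
    have := (h3 x 0 hx h0U).1
    rwa [sub_zero] at this
  have hainv : ¬ UU P c a⁻¹ := h2 _ (inv_mul_cancel₀ ha0)
  have hunit : ∀ x, UU P c x → A.valuation (1 + a ^ 2 * x) = 1 := by
    intro x hx
    refine le_antisymm ?_ (not_lt.1 fun hlt => hainv ?_)
    · refine (Valuation.map_add _ _ _).trans (max_le (by rw [map_one]) ?_)
      rw [map_mul, map_pow, ha1, one_pow, one_mul]
      exact hUA x hx
    · have e : a⁻¹ = a * (a⁻¹ ^ 2 * (1 + a ^ 2 * x) - x) := by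
        field_simp
        ring
      rw [e]
      refine (h3 _ _ (hmU _ ?_) hx).1
      rw [map_mul, map_pow, map_inv₀, ha1, inv_one, one_pow, one_mul]
      exact hlt
  -- the residue field
  set a' : A := ⟨a, (le_one A).1 ha1.le⟩ with ha'
  have ha'0 : IsLocalRing.residue A a' ≠ 0 := by
    intro h
    rw [residue_zero_iff] at h
    exact absurd h (not_lt.2 ha1.ge)
  set B : Set (IsLocalRing.ResidueField A) :=
    {z | ∃ x : A, UU P c (x : L) ∧ IsLocalRing.residue A x = z} with hB
  have hR : Rough (rs A P) B (IsLocalRing.residue A (a' ^ 2)) :=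
    { ne := by
        rw [map_pow]
        exact pow_ne_zero _ ha'0
      mem := ⟨a' ^ 2, by
        show UU P c (a ^ 2)
        rw [sq]
        exact haU a h1, rfl⟩
      sub := by
        rintro _ ⟨x, hx, rfl⟩ _ ⟨y, hy, rfl⟩
        refine ⟨a' ^ 2 * (x - y), ?_, by rw [map_mul, map_sub]⟩
        have := haU _ (h3 _ _ hx hy).1
        rwa [← mul_assoc, ← sq] at this
      mul := by
        rintro _ ⟨x, hx, rfl⟩ _ ⟨y, hy, rfl⟩
        refine ⟨a' ^ 2 * (x * y), ?_, by rw [map_mul, map_mul]⟩
        have := haU _ (h3 _ _ hx hy).2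
        rwa [← mul_assoc, ← sq] at this
      inv := by
        intro z hz
        obtain ⟨x, rfl⟩ := IsLocalRing.residue_surjective z
        have hx0 : IsLocalRing.residue A x ≠ 0 := by
          intro h
          exact hz ⟨0, h0U, by rw [map_zero, h]⟩
        have hxU : ¬ UU P c (x : L) := fun h => hz ⟨x, h, rfl⟩
        obtain ⟨h5, h6⟩ := residue_inv hx0
        have hxL : (x : L) ≠ 0 := by
          intro h
          have := residue_ne hx0
          rw [h, map_zero] at this
          exact zero_ne_one this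
        refine ⟨a' ^ 2 * ⟨(x : L)⁻¹, h5⟩, ?_, by rw [map_mul, h6]⟩
        refine (h4 (x : L) (a ^ 2 * (x : L)⁻¹) a h1 ?_).resolve_left hxU
        field_simp
      pw := by
        rintro _ ⟨x, hx, rfl⟩
        have h5 := hunit _ hx
        have h6 : IsLocalRing.residue A (1 + a' ^ 2 * x) = 1 + IsLocalRing.residue A (a' ^ 2) *
            IsLocalRing.residue A x := by
          rw [map_add, map_one, map_mul]
        constructor
        · intro h
          rw [← h6, residue_zero_iff] at h
          exact absurd h (not_lt.2 h5.ge)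
        · right
          refine ⟨_, h6, ?_⟩
          have := (haU _ (haU _ hx)).2.1
          rw [← mul_assoc, ← sq] at this
          exact this }
  have hgr := rs_gr hP A
  have hPq' : ∀ z : IsLocalRing.ResidueField A, rs A P (z ^ q) := by
    intro z
    obtain ⟨x, rfl⟩ := IsLocalRing.residue_surjective z
    exact Or.inr ⟨x ^ q, map_pow _ _ _, hPq _⟩
  have hno : ∀ B' : ValuationSubring (IsLocalRing.ResidueField A), B' ≠ ⊤ → ¬ Cm (rs A P) B' :=
    fun B' hB' hB'' => cps_ne A B' hB' (hmin _ (cps_le A B') (cps_cm hP hA hB''))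
  by_cases hx : ∀ x, ∃ n : ℕ, (IsLocalRing.residue A (a' ^ 2)) ^ n * x ∈ B
  swap
  · exfalso
    push Not at hx
    obtain ⟨x₀, hx₀⟩ := hx
    obtain ⟨B', hB', hB''⟩ := hR.exists_ring_one hgr hx₀
    exact hno B' hB' hB''
  obtain ⟨N, C, hN, hNa, hNB, hNs⟩ := hR.exists_norm hx
  have hC0 : 0 < C := by linarith [hN.one_le]
  have hop : ∀ x, N x ≤ C⁻¹ → rs A P (1 + x) := fun x hx => (hNs x hx).2.2
  have hCi : 0 < C⁻¹ := inv_pos.2 hC0
  -- the unit `c`
  set c' : A := ⟨c, (le_one A).1 hc.le⟩ with hc'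
  have hc'0 : IsLocalRing.residue A c' ≠ 0 := by
    intro h
    rw [residue_zero_iff] at h
    exact absurd h (not_lt.2 hc.ge)
  have hcr : ¬ rs A P (IsLocalRing.residue A c') := fun h => hcP (lift_rs hP hA hc'0 h)
  have hm' : rs A P (-1) := Or.inr ⟨-1, by rw [map_neg, map_one], hm⟩
  have hint : ∀ n : ℕ, N (n : IsLocalRing.ResidueField A) ≤ 1 := by
    by_contra hcon
    push Not at hcon
    obtain ⟨n0, hn0⟩ := hcon
    exact hcr (hN.arch_all hn0 hgr hCi hop hm' _)
  have hu := hN.ultra hint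
  have hane : IsLocalRing.residue A (a' ^ 2) ≠ 0 := hR.ne
  have hvt : hN.vr hu ≠ ⊤ := by
    rw [ne_top_iff]
    refine ⟨(IsLocalRing.residue A (a' ^ 2))⁻¹, fun h => ?_⟩
    rw [hN.mem_vr, hN.inv] at h
    exact absurd h (not_le.2 ((one_lt_inv₀ (hN.pos hane)).2 hNa))
  have hq1 : N (q : IsLocalRing.ResidueField A) < 1 := by
    rcases (hint q).eq_or_lt with h | h
    · exfalso
      refine hno _ hvt fun x hx => ?_
      rw [hN.vr_lt] at hx
      exact hN.newton hu hgr hPq' h hCi hop hx
    · exact h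
  refine ⟨N, C, hN, hu, hq1, ⟨_, hane, hNa⟩, ?_⟩
  have hNc := hN.pos hc'0
  refine ⟨min C⁻¹ (C⁻¹ * N (IsLocalRing.residue A c')), lt_min hCi (by positivity),
    fun x hxN => ?_, fun x hxU => ?_⟩
  · obtain ⟨-, b1, b2⟩ := hNs _ (hxN.trans (min_le_left _ _))
    obtain ⟨-, b3, b4⟩ := hNs (IsLocalRing.residue A x / IsLocalRing.residue A c') (by
      rw [hN.div, div_le_iff₀ hNc]
      exact hxN.trans (min_le_right _ _))
    have e1 : IsLocalRing.residue A (1 + x) = 1 + IsLocalRing.residue A x := by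
      rw [map_add, map_one]
    obtain ⟨hci, hci'⟩ := residue_inv hc'0
    have e2 : IsLocalRing.residue A ((c' + x) * ⟨(c' : L)⁻¹, hci⟩) =
        1 + IsLocalRing.residue A x / IsLocalRing.residue A c' := by
      rw [map_mul, map_add, hci']
      field_simp
    have g1 : P ((1 + x : A) : L) := lift_rs hP hA (by rw [e1]; exact b1) (by rw [e1]; exact b2)
    have g2 : P (((c' + x) * ⟨(c' : L)⁻¹, hci⟩ : A) : L) :=
      lift_rs hP hA (by rw [e2]; exact b3) (by rw [e2]; exact b4)
    refine ⟨?_, g1, ?_, g2⟩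
    · intro h
      apply b1
      rw [← e1]
      have : (1 + x : A) = 0 := Subtype.ext h
      rw [this, map_zero]
    · intro h
      apply b3
      rw [← e2]
      have : (c' + x : A) = 0 := Subtype.ext h
      rw [this, zero_mul, map_zero]
  · have hxA : x ∈ A := (le_one A).1 (hUA x hxU)
    refine ⟨hxA, ?_⟩
    have h5 : N (IsLocalRing.residue A ⟨x, hxA⟩) ≤ C := hNB _ ⟨⟨x, hxA⟩, hxU, rfl⟩
    refine h5.trans ?_
    rw [le_div_iff₀ (lt_min hCi (by positivity))]
    calc C * min C⁻¹ (C⁻¹ * N (IsLocalRing.residue A c')) ≤ C * C⁻¹ :=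
          mul_le_mul_of_nonneg_left (min_le_left _ _) hC0.le
      _ = 1 := mul_inv_cancel₀ hC0.ne'

end tri

end Pool.Agent.T9h39.Ne
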