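import Pool.Agent.T9h39.Ne3
import Pool.Agent.T9h39.Nd11
import Pool.Agent.T9h43.TV.Nip

set_option autoImplicit false

/-!
# Residue characteristic `p`
-/

namespace Pool.Agent.T9h39.Ne

open FirstOrder FirstOrder.Language FirstOrder.Ring Pool.Agent.W882.Nip3 Pool.Agent.N616.NH
open Pool.Agent.N616.NV Pool.Agent.N616.NH.DJ_ Pool.Agent.N616.NV.Pla_
open Pool.Agent.T9h39.Nd

/-- The union of zero and a subgroup. -/
theorem gr_of_T {L : Type} [Field L] {T : Set L} {q : ℕ} (hmul : ∀ x ∈ T, ∀ y ∈ T, x * y ∈ T)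
    (hinv : ∀ x ∈ T, x⁻¹ ∈ T) (hpow : ∀ x : L, x ≠ 0 → x ^ q ∈ T) :
    Gr (fun x => x = 0 ∨ x ∈ T) :=
  { zero := Or.inl rfl
    one := Or.inr (by simpa using hpow 1 one_ne_zero)
    mul := by
      rintro x y (rfl | hx) (rfl | hy)
      · exact Or.inl (zero_mul _)
      · exact Or.inl (zero_mul _)
      · exact Or.inl (mul_zero _)
      · exact Or.inr (hmul _ hx _ hy)
    inv := by
      rintro x (rfl | hx)
      · exact Or.inl inv_zero
      · exact Or.inr (hinv _ hx) }

theorem D_of_T {K : Type} [Field K] [CompatibleRing K] {L : Type} [Field L] [Algebra K L]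
    [FiniteDimensional K L] {T : Set L} (h : D K (fun v : Fin 1 → L => v 0 ∈ T)) :
    D K (fun v : Fin 1 → L => v 0 = 0 ∨ v 0 ∈ T) := by
  have h0 : D K (fun v : Fin 1 → L => MvPolynomial.eval v (MvPolynomial.X 0) = 0) := D_poly DFB _
  refine D_congr (fun v => ?_) (D_or h0 h)
  rw [MvPolynomial.eval_X]

/-- Nonarchimedean places of dimension greater than one and residue characteristic `p` of fields
which are `NIP_n` give definable valuation rings. -/
theorem dfb_of_place_p (K : Type) [Field K] [CompatibleRing K] (n : ℕ) (hn : NIPnField n K)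
    (P : Place K) (hult : ∀ a b : P.F, ‖a + b‖ ≤ max ‖a‖ ‖b‖) (D : ℕ)
    (hD : ¬ DimLeOneUpTo P.F D) (p : ℕ) (hp : p.Prime) (hpn : ‖(p : P.F)‖ < 1) :
    ∃ A : ValuationSubring K, A ≠ ⊤ ∧ Dfb A := by
  obtain ⟨q, hq, hqp, L, _, _, _, T, A₀, c, hDT, h0, hmul, hinv, hpow, hc0, hcT, hA₀, hcm, -, hA₀p⟩ :=
    Pool.Agent.T9h43.TV.ext_nip K n hn P hult D hD p hp hpn
  have : Fact p.Prime := ⟨hp⟩
  refine jkT K L (gr_of_T hmul hinv hpow) (D_of_T hDT) (q := q) ?_ p
    ((Nat.coprime_primes hp hq).2 (Ne.symm hqp)) (A₀ := A₀) (fun x hx => Or.inr (hcm x hx)) hA₀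
    hA₀p (c := c) ?_
  · intro x
    by_cases hx : x = 0
    · left
      rw [hx, zero_pow hq.ne_zero]
    · exact Or.inr (hpow x hx)
  · rintro (h | h)
    · exact hc0 h
    · exact hcT h

/-- An absolute value which is less than one at a prime number is nonarchimedean. -/
theorem ult_of_norm {F : Type} [NormedField F] {p : ℕ} (hp : p.Prime) (hpn : ‖(p : F)‖ < 1)
    (a b : F) : ‖a + b‖ ≤ max ‖a‖ ‖b‖ := by
  have h1 : 0 < 1 - ‖(p : F)‖ := by linarith
  have hsmall : ∀ n : ℕ, ‖(n : F)‖ ≤ n := fun n => by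
    simpa using Nat.norm_cast_le (α := F) n
  have key : ∀ m : ℕ, ‖(m : F)‖ ≤ p / (1 - ‖(p : F)‖) := by
    intro m
    induction m using Nat.strong_induction_on with
    | _ m ih =>
      by_cases hm : m = 0
      · rw [hm, Nat.cast_zero, norm_zero]
        positivity
      · have h2 : (m : F) = p * ((m / p : ℕ) : F) + ((m % p : ℕ) : F) := by
          rw [← Nat.cast_mul, ← Nat.cast_add, Nat.div_add_mod]
        have h3 := ih (m / p) (Nat.div_lt_self (Nat.pos_of_ne_zero hm) hp.one_lt)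
        have h4 : ‖((m % p : ℕ) : F)‖ ≤ p :=
          (hsmall _).trans (by exact_mod_cast (Nat.mod_lt m hp.pos).le)
        calc ‖(m : F)‖ ≤ ‖(p : F)‖ * ‖((m / p : ℕ) : F)‖ + ‖((m % p : ℕ) : F)‖ := by
              rw [h2]
              exact (norm_add_le _ _).trans (by rw [norm_mul])
          _ ≤ ‖(p : F)‖ * (p / (1 - ‖(p : F)‖)) + p := by
              have := mul_le_mul_of_nonneg_left h3 (norm_nonneg (p : F))
              linarith
          _ = p / (1 - ‖(p : F)‖) := by
              field_simp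
              ring
  have hnat : ∀ n : ℕ, ‖(n : F)‖ ≤ 1 := by
    intro n
    by_contra hcon
    rw [not_le] at hcon
    obtain ⟨k, hk⟩ := pow_unbounded_of_one_lt (p / (1 - ‖(p : F)‖)) hcon
    have h2 := key (n ^ k)
    rw [Nat.cast_pow, norm_pow] at h2
    exact absurd hk (not_lt.2 h2)
  have := IsUltrametricDist.isUltrametricDist_of_forall_norm_natCast_le_one hnat
  exact IsUltrametricDist.norm_add_le_max a b

/-- The residue characteristic of the place of a bad valuation ring. -/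
theorem dfb_of_res_p (K : Type) [Field K] [CompatibleRing K] (n : ℕ) (hn : NIPnField n K)
    (O : ValuationSubring K) (hO : O ≠ ⊤) (p : ℕ) (hp : p.Prime)
    [CharP (IsLocalRing.ResidueField O) p] (D : ℕ)
    (hD : ¬ DimLeOneUpTo (IsLocalRing.ResidueField O) D) :
    ∃ A : ValuationSubring K, A ≠ ⊤ ∧ Dfb A := by
  have hvp : O.valuation (p : K) < 1 := by
    have h1 : IsLocalRing.residue O (p : O) = 0 := by
      rw [map_natCast]
      exact CharP.cast_eq_zero _ _
    have h2 := (IsLocalRing.residue_eq_zero_iff _).1 h1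
    have h3 := (ValuationSubring.valuation_lt_one_iff O (p : O)).1 h2
    simpa using h3
  obtain ⟨δ, hδ0, hδ, hpδ⟩ : ∃ δ : K, δ ≠ 0 ∧ O.valuation δ < 1 ∧
      O.valuation (p : K) ≤ O.valuation δ := by
    by_cases hp0 : (p : K) = 0
    · obtain ⟨x, hx⟩ := (ne_top_iff O).1 hO
      have hx0 : x ≠ 0 := by
        rintro rfl
        exact hx (O.zero_mem)
      refine ⟨x⁻¹, inv_ne_zero hx0, ?_, by rw [hp0, map_zero]; exact zero_le⟩
      rw [map_inv₀]
      have h1 : 1 < O.valuation x := by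
        rw [← not_le, O.valuation_le_one_iff]
        exact hx
      exact inv_lt_one_of_one_lt₀ h1
    · exact ⟨p, hp0, hvp, le_rfl⟩
  obtain ⟨e, d, hbad, hd⟩ := bad_of_res K O D hD δ hδ0 hδ
  obtain ⟨P, hsm, hP⟩ := BP ET K O δ e d hd hbad
  obtain ⟨hpO, hpn⟩ := hsm (p : K) hpδ
  have hpn' : ‖(p : P.F)‖ < 1 := by
    have h1 : (⟨(p : K), hpO⟩ : P.O) = (p : P.O) := Subtype.ext (by simp)
    rw [h1, map_natCast] at hpn
    exact hpn
  exact dfb_of_place_p K n hn P (ult_of_norm hp hpn') _ (hP _ (le_max_left _ _) (le_max_right _ _)) p hp hpn'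

end Pool.Agent.T9h39.Ne
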