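import Pool.Agent.T9h39.Ne6
import Pool.Agent.T9h39.Ne7
import Pool.Agent.N616.NV.Abs
import Pool.Agent.T9h43.TV.Rel

set_option autoImplicit false

/-!
# The place of a norm on the residue field
-/

namespace Pool.Agent.T9h39.Ne

open FirstOrder FirstOrder.Language FirstOrder.Ring Pool.Agent.W882.Nip3 Pool.Agent.N616.NH
open Pool.Agent.N616.NV Pool.Agent.N616.NH.DJ_ Pool.Agent.N616.NV.Pla_
open Pool.Agent.T9h39.Nd (dfb_of_D comap_ne_top ne_top_iff le_one lt_one
  val_lt_one_of_le)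

section place

variable {L : Type} [Field L] (A : ValuationSubring L)
  {N : IsLocalRing.ResidueField A → ℝ} {C : ℝ} (hN : QN N C)
  (hu : ∀ x y, N (x + y) ≤ max (N x) (N y))

/-- The absolute value. -/
def QN.abs {F : Type} [Field F] {N : F → ℝ} {C : ℝ} (hN : QN N C)
    (hu : ∀ x y, N (x + y) ≤ max (N x) (N y)) : AbsoluteValue F ℝ where
  toFun := N
  map_mul' := hN.mul
  nonneg' := hN.nonneg
  eq_zero' := hN.eq_zero
  add_le' x y := (hu x y).trans (max_le_add_of_nonneg (hN.nonneg x) (hN.nonneg y))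

/-- The place of a norm on the residue field of a valuation ring. -/
noncomputable def plA (hv : (hN.abs hu).IsNontrivial) : Place L where
  O := A
  F := (hN.abs hu).Completion
  normedField := nnf (hN.abs hu) hv
  complete := inferInstanceAs (CompleteSpace (hN.abs hu).Completion)
  res := (algebraMap (IsLocalRing.ResidueField A) (hN.abs hu).Completion).comp
    (IsLocalRing.residue A)
  isUnit_of_res_ne_zero x hx := by
    rw [← IsLocalRing.residue_ne_zero_iff_isUnit]
    intro h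
    apply hx
    rw [RingHom.comp_apply, h, map_zero]
  denseRange := (denseRange_algebraMap_completion (hN.abs hu)).mono (by
    rintro _ ⟨a, rfl⟩
    obtain ⟨x, rfl⟩ := IsLocalRing.residue_surjective a
    exact ⟨x, rfl⟩)

theorem norm_plA (hv : (hN.abs hu).IsNontrivial) (x : L) (h : x ∈ (plA A hN hu hv).O) :
    ‖(plA A hN hu hv).res ⟨x, h⟩‖ = N (IsLocalRing.residue A ⟨x, h⟩) :=
  norm_algebraMap_completion (hN.abs hu) (IsLocalRing.residue A ⟨x, h⟩)

/-- The place of a norm. -/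
theorem exists_place {A : ValuationSubring L}
    {N : IsLocalRing.ResidueField A → ℝ} {C : ℝ} (hN : QN N C)
    (hu : ∀ x y, N (x + y) ≤ max (N x) (N y)) (hnt : ∃ z, z ≠ 0 ∧ N z < 1) :
    ∃ P : Place L, P.O = A ∧ (∀ (x : L) (h : x ∈ P.O) (h' : x ∈ A),
      ‖P.res ⟨x, h⟩‖ = N (IsLocalRing.residue A ⟨x, h'⟩)) ∧
      (∀ a b : P.F, ‖a + b‖ ≤ max ‖a‖ ‖b‖) ∧ ∀ n : ℕ, ‖(n : P.F)‖ = N n := by
  have hv : (hN.abs hu).IsNontrivial := by
    obtain ⟨z, hz, hz1⟩ := hnt
    exact ⟨z, hz, hz1.ne⟩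
  have hn : ∀ n : ℕ, ‖(n : (plA A hN hu hv).F)‖ = N n := by
    intro n
    have h1 := norm_plA A hN hu hv (n : L) (natCast_mem A n)
    have h2 : (⟨(n : L), natCast_mem A n⟩ : A) = (n : A) := Subtype.ext (by simp)
    have h3 : (⟨(n : L), natCast_mem A n⟩ : (plA A hN hu hv).O) = (n : (plA A hN hu hv).O) :=
      Subtype.ext (by simp)
    rw [h2, map_natCast, h3, map_natCast] at h1
    exact h1
  refine ⟨plA A hN hu hv, rfl, fun x h h' => norm_plA A hN hu hv x h, ?_, hn⟩
  have hone : ∀ n : ℕ, N n ≤ 1 := by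
    intro n
    induction n with
    | zero => simp [hN.zero]
    | succ n ih =>
      rw [Nat.cast_succ]
      exact (hu _ _).trans (max_le ih hN.one.le)
  have := IsUltrametricDist.isUltrametricDist_of_forall_norm_natCast_le_one
    (R := (plA A hN hu hv).F) fun n => by
      rw [hn]
      exact hone n
  exact IsUltrametricDist.norm_add_le_max

end place

section main

/-- The explicit definition of the maximal ideal gives a definable valuation ring of `K`. -/
theorem dfb_of_ss (K : Type) [Field K] [CompatibleRing K] (L : Type) [Field L] [Algebra K L]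
    [FiniteDimensional K L] {P : L → Prop} (hD : D K (fun v : Fin 1 → L => P (v 0)))
    {A : ValuationSubring L} (hAt : A ≠ ⊤) {d : L}
    (hss : ∀ a, SS P d a ↔ A.valuation a < 1) :
    ∃ A : ValuationSubring K, A ≠ ⊤ ∧ Dfb A := by
  refine ⟨A.comap (algebraMap K L), comap_ne_top K L hAt, dfb_of_D K L ?_⟩
  have h1 : D K (fun v : Fin 1 → L => ∀ z : L, z * v 0 = 1 → ¬ SS P d z) := by
    have e1 : D K (fun v : Fin 1 ⊕ Fin 1 → L => MvPolynomial.eval v
      (MvPolynomial.X (Sum.inr 0) * MvPolynomial.X (Sum.inl 0) - 1) = 0) := D_poly DFB _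
    have e2 : D K (fun v : Fin 1 ⊕ Fin 1 → L => ¬ SS P d (MvPolynomial.eval v
      (MvPolynomial.X (Sum.inr 0)))) := D_not DFA (D_app (D_SS hD d) _)
    refine D_congr (fun v => ?_) (D_all1 DFA (D_imp DFA e1 e2))
    simp only [MvPolynomial.eval_X, map_mul, map_sub, map_one, Sum.elim_inr, Sum.elim_inl,
      sub_eq_zero]
  refine D_congr (fun v => ?_) h1
  by_cases hv : v 0 = 0
  · rw [hv]
    simp only [mul_zero, zero_ne_one, false_imp_iff, implies_true, true_iff]
    exact A.zero_mem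
  · constructor
    · intro h
      by_contra hcon
      refine h (v 0)⁻¹ (inv_mul_cancel₀ hv) ((hss _).2 ?_)
      rw [lt_one, inv_inv]
      exact Or.inr hcon
    · intro h z hz hzS
      rw [hss, eq_inv_of_mul_eq_one_left hz, lt_one, inv_inv] at hzS
      rcases hzS with h1 | h1
      · exact inv_ne_zero hv h1
      · exact h1 h

/-- No extension of degree `q`: all elements are `q`-th powers. -/
theorem pow_of_finrank {F : Type} [Field F] {q : ℕ} (hq : q.Prime)
    (h : ∀ (M : Type) [Field M] [Algebra F M] [FiniteDimensional F M], ¬ q ∣ Module.finrank F M)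
    (a : F) : ∃ b : F, b ^ q = a := by
  by_contra hcon
  push Not at hcon
  have hirr : Irreducible (Polynomial.X ^ q - Polynomial.C a : Polynomial F) :=
    X_pow_sub_C_irreducible_of_prime hq hcon
  have : Fact (Irreducible (Polynomial.X ^ q - Polynomial.C a : Polynomial F)) := ⟨hirr⟩
  have hne : (Polynomial.X ^ q - Polynomial.C a : Polynomial F) ≠ 0 := hirr.ne_zero
  have hfin : FiniteDimensional F (AdjoinRoot (Polynomial.X ^ q - Polynomial.C a)) :=
    (AdjoinRoot.powerBasis hne).finite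
  refine h (AdjoinRoot (Polynomial.X ^ q - Polynomial.C a)) ?_
  rw [(AdjoinRoot.powerBasis hne).finrank, AdjoinRoot.powerBasis_dim,
    Polynomial.natDegree_X_pow_sub_C]

/-- **Definable valuation rings from definable subgroups in NIP fields.** Let `L` be a finite
extension of the field `K` which is `NIP_n`, `P` a subset of `L`, definable over `K`, the union of
zero and a subgroup which contains `-1` and all `q`-th powers, and not `L`. If all `1 + x`, `x` in the
maximal ideal of a valuation ring `A₀ ≠ L`, are in `P`, then `K` has a definable valuation ring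
different from `K`. -/
theorem jk2 (K : Type) [Field K] [CompatibleRing K] (n : ℕ) (hn : NIPnField n K)
    (L : Type) [Field L] [Algebra K L]
    [FiniteDimensional K L] {P : L → Prop} (hP : Gr P)
    (hD : D K (fun v : Fin 1 → L => P (v 0))) {q : ℕ} (hq : q.Prime) (hPq : ∀ x : L, P (x ^ q))
    (hm : P (-1)) {A₀ : ValuationSubring L} (hA₀ : Cm P A₀) (hA₀' : A₀ ≠ ⊤)
    {c : L} (hc : ¬ P c) :
    ∃ A : ValuationSubring K, A ≠ ⊤ ∧ Dfb A := by
  by_cases hI : ∃ O : ValuationSubring L, ∀ x : L, O.valuation x = 1 → P x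
  · obtain ⟨O, hO⟩ := hI
    obtain ⟨A, hA, hA'⟩ := explicit hP hO hc
    exact ⟨A.comap (algebraMap K L), comap_ne_top K L hA,
      dfb_of_D K L (D_congr (fun v => (hA' (v 0)).symm) (D_XA hD))⟩
  push Not at hI
  have hcomp : ∀ O₁ O₂ : ValuationSubring L, Cm P O₁ → Cm P O₂ → O₁ ≤ O₂ ∨ O₂ ≤ O₁ :=
    fun O₁ O₂ h₁ h₂ => comparable hP (fun O hO => by
      obtain ⟨x, hx1, hx2⟩ := hI O
      exact absurd (hO x hx1) hx2) hc h₁ h₂
  set A := fin hcomp with hA
  have hAc : Cm P A := fin_cmp hP hcomp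
  have hle : A ≤ A₀ := fin_le hcomp hA₀
  have hAt : A ≠ ⊤ := by
    intro h
    apply hA₀'
    rw [eq_top_iff, ← h]
    exact hle
  obtain ⟨d, hd1, hd2⟩ := hI A
  rcases trichotomy hP hm hPq hAc (fun A' h1 h2 => le_antisymm h1 (fin_le hcomp h2)) hd1 hd2 with
    hss | ⟨N, C, hN, hu, hNq, hnt, ε, hε, hU1, hU2⟩
  · exact dfb_of_ss K L hD hAt hss
  -- the weak case
  obtain ⟨P₂, hO, hnorm, hult, hnat⟩ := exists_place hN hu hnt
  have hU1' : ∀ (x : L) (h : x ∈ P₂.O), ‖P₂.res ⟨x, h⟩‖ ≤ ε → x ∈ {x | UU P d x} := by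
    intro x h hx
    have h' : x ∈ A := by rwa [← hO]
    rw [hnorm x h h'] at hx
    exact hU1 ⟨x, h'⟩ hx
  have hU2' : ∀ x ∈ {x | UU P d x}, ∃ h : x ∈ P₂.O, ‖P₂.res ⟨x, h⟩‖ ≤ 1 / ε := by
    intro x hx
    obtain ⟨h', hx'⟩ := hU2 x hx
    have h : x ∈ P₂.O := by rwa [hO]
    refine ⟨h, ?_⟩
    rw [hnorm x h h']
    exact hx'
  have hUD : D K (fun v : Fin 1 → L => v 0 ∈ {x | UU P d x}) := D_UU hD d
  have hq1 : ‖(q : P₂.F)‖ < 1 := by
    rw [hnat]
    exact hNq
  have hul : IsUltrametricDist P₂.F :=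
    IsUltrametricDist.isUltrametricDist_of_forall_norm_add_le_max_norm hult
  rcases Pool.Agent.T9h43.MC.main P₂.F hq hq1 (fun E _ _ _ _ _ =>
    Pool.Agent.T9h43.TV.Rel.no_pat_rel n hn P₂ _ hUD ε hε hU1' hU2' hq E) with h1 | ⟨-, ⟨π, hπ0, hπ1, hπ⟩, -⟩
  · -- all elements of the completion are `q`-th powers
    exfalso
    apply hd2
    have hdA : d ∈ A := (le_one A).1 hd1.le
    have hdO : d ∈ P₂.O := by rwa [hO]
    have hdr : P₂.res ⟨d, hdO⟩ ≠ 0 := by
      intro h
      have h2 := hnorm d hdO hdA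
      rw [h, norm_zero] at h2
      have h3 := (hN.eq_zero _).1 h2.symm
      rw [residue_zero_iff] at h3
      exact absurd h3 (not_lt.2 hd1.ge)
    obtain ⟨y, hy⟩ := pow_of_finrank hq h1 (P₂.res ⟨d, hdO⟩)
    have hy0 : y ≠ 0 := by
      rintro rfl
      rw [zero_pow hq.ne_zero] at hy
      exact hdr hy.symm
    obtain ⟨z, hz0, hz⟩ := PB_.pick P₂.denseRange (y := y)
      (Q := fun z => z ≠ 0 ∧ ‖y ^ q / z ^ q - 1‖ < ε) (by
        have h1 : ContinuousAt (fun v : P₂.F => ‖y ^ q / v ^ q - 1‖) y := by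
          have h2 : ContinuousAt (fun v : P₂.F => v ^ q) y := (continuous_pow q).continuousAt
          exact ((continuousAt_const.div h2 (pow_ne_zero _ hy0)).sub continuousAt_const).norm
        refine (continuousAt_id.eventually_ne hy0).and (h1.eventually_lt continuousAt_const ?_)
        show ‖y ^ q / y ^ q - 1‖ < ε
        rw [div_self (pow_ne_zero _ hy0), sub_self, norm_zero]
        exact hε)
    obtain ⟨z', hz'⟩ := (P₂.isUnit_of_res_ne_zero z hz0).exists_right_inv
    have hzL : (z : L) * (z' : L) = 1 := congrArg Subtype.val hz'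
    have hzr : P₂.res z * P₂.res z' = 1 := by rw [← map_mul, hz', map_one]
    have h2 : (⟨d * (z' : L) ^ q - 1, sub_mem (P₂.O.mul_mem _ _ hdO
        (pow_mem z'.2 q)) P₂.O.one_mem⟩ : P₂.O) = ⟨d, hdO⟩ * z' ^ q - 1 := rfl
    have h3 : d * (z' : L) ^ q - 1 ∈ {x | UU P d x} := by
      refine hU1' _ (sub_mem (P₂.O.mul_mem _ _ hdO (pow_mem z'.2 q)) P₂.O.one_mem) ?_
      rw [h2, map_sub, map_mul, map_pow, map_one, ← hy]
      have h4 : P₂.res z' = (P₂.res z)⁻¹ := eq_inv_of_mul_eq_one_right hzr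
      rw [h4, inv_pow, ← div_eq_mul_inv]
      exact hz.le
    have h5 : P (d * (z' : L) ^ q) := by
      have := h3.2.1
      rwa [add_sub_cancel] at this
    have h6 : d = (d * (z' : L) ^ q) * (z : L) ^ q := by
      rw [mul_assoc, ← mul_pow, mul_comm (z' : L), hzL, one_pow, mul_one]
    rw [h6]
    exact hP.mul h5 (hPq _)
  · -- the discrete case
    obtain ⟨r, hr, hrq⟩ : ∃ r : ℕ, r.Prime ∧ r ≠ q := by
      by_cases h : q = 2
      · exact ⟨3, Nat.prime_three, by omega⟩
      · exact ⟨2, Nat.prime_two, fun h' => h h'.symm⟩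
    obtain ⟨L', i1, i2, i3, i4, i5, T, B, c', hDT, h0, hmul, hinv, hpow, hc0, hcT, hB, hcm, hBK⟩ :=
      Pool.Agent.T9h43.TV.Rel.ext_E_rel P₂ _ hUD ε hε hU1' hU2' hr.ne_zero
        (Pool.Agent.T9h43.TV.norm_prime hr hq hrq hq1) P₂.F π (fun y hy => by
        have h2 : ‖y‖ ^ r = ‖π‖ := by rw [← norm_pow, hy]
        have h3 : ‖y‖ < 1 := by
          by_contra h
          rw [not_lt] at h
          have := one_le_pow₀ h (n := r)
          rw [h2] at this
          exact absurd hπ1 (not_lt.2 this)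
        have h4 := hπ y h3
        have hπp : 0 < ‖π‖ := norm_pos_iff.2 hπ0
        have h5 : ‖y‖ ^ r ≤ ‖π‖ ^ r := pow_le_pow_left₀ (norm_nonneg _) h4 r
        have h6 : ‖π‖ ^ r < ‖π‖ := pow_lt_self_of_lt_one₀ hπp hπ1 hr.one_lt
        rw [h2] at h5
        exact absurd (h5.trans_lt h6) (lt_irrefl _))
    have hBq : B.valuation (q : L') < 1 := by
      rw [lt_one]
      by_contra hcon
      push Not at hcon
      obtain ⟨hq0, hqi⟩ := hcon
      have hqL : (q : L) ≠ 0 := by
        intro h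
        apply hq0
        rw [← map_natCast (algebraMap L L'), h, map_zero]
      have hqi' : algebraMap L L' (q : L)⁻¹ ∈ B := by
        rw [map_inv₀, map_natCast]
        exact hqi
      obtain ⟨h1, h2⟩ := (hBK _).1 hqi'
      have h3 : (⟨(q : L)⁻¹, h1⟩ : P₂.O) * (q : P₂.O) = 1 := by
        refine Subtype.ext ?_
        show (q : L)⁻¹ * ((q : P₂.O) : L) = 1
        have h7 : ((q : P₂.O) : L) = (q : L) := by simp
        rw [h7]
        exact inv_mul_cancel₀ hqL
      have h4 : ‖P₂.res ⟨(q : L)⁻¹, h1⟩‖ * ‖(q : P₂.F)‖ = 1 := by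
        rw [← map_natCast P₂.res, ← norm_mul, ← map_mul, h3, map_one, norm_one]
      have h5 : ‖P₂.res ⟨(q : L)⁻¹, h1⟩‖ * ‖(q : P₂.F)‖ < 1 := by
        calc ‖P₂.res ⟨(q : L)⁻¹, h1⟩‖ * ‖(q : P₂.F)‖ ≤ 1 * ‖(q : P₂.F)‖ :=
              mul_le_mul_of_nonneg_right h2 (norm_nonneg _)
          _ < 1 := by rwa [one_mul]
      rw [h4] at h5
      exact lt_irrefl _ h5
    have : Fact q.Prime := ⟨hq⟩
    refine jkT K L' (gr_of_T hmul hinv hpow) (D_of_T hDT) (q := r) ?_ q
      ((Nat.coprime_primes hq hr).2 (Ne.symm hrq)) (A₀ := B)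
      (fun x hx => Or.inr (hcm x hx)) hB hBq (c := c') ?_
    · intro x
      by_cases hx : x = 0
      · left
        rw [hx, zero_pow hr.ne_zero]
      · exact Or.inr (hpow x hx)
    · rintro (h | h)
      · exact hc0 h
      · exact hcT h

end main

end Pool.Agent.T9h39.Ne
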