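import Pool.Agent.T9h39.Ne10

set_option autoImplicit false

/-!
# Dependence of the definable valuation rings
-/

namespace Pool.Agent.T9h39.Ne

open FirstOrder FirstOrder.Language FirstOrder.Ring Pool.Agent.W882.Nip3 Pool.Agent.N616.NH
open Pool.Agent.N616.NV Pool.Agent.N616.NH.DJ_ Pool.Agent.N616.NV.Pla_
open Pool.Agent.T9h39.Nd (dfb_of_D comap_ne_top ne_top_iff le_one lt_one
  val_lt_one_of_le val_one_add jn le_jn_left le_jn_right)

/-- Two valuation rings are dependent (they induce the same topology): they lie in a common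
valuation ring which is not the field. -/
def Dep {K : Type} [Field K] (A B : ValuationSubring K) : Prop :=
  ∃ C : ValuationSubring K, C ≠ ⊤ ∧ A ≤ C ∧ B ≤ C

/-- The valuation rings which contain a given one are comparable. -/
theorem cmp_of_le {K : Type} [Field K] {O A B : ValuationSubring K} (hA : O ≤ A) (hB : O ≤ B) :
    A ≤ B ∨ B ≤ A := by
  by_contra hcon
  rw [not_or] at hcon
  obtain ⟨x, hxA, hxB⟩ := Set.not_subset.1 (show ¬ (A : Set K) ⊆ B from hcon.1)
  obtain ⟨y, hyB, hyA⟩ := Set.not_subset.1 (show ¬ (B : Set K) ⊆ A from hcon.2)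
  have hx0 : x ≠ 0 := by
    rintro rfl
    exact hxB B.zero_mem
  have hy0 : y ≠ 0 := by
    rintro rfl
    exact hyA A.zero_mem
  rcases O.mem_or_inv_mem (y / x) with h | h
  · apply hyA
    have := A.mul_mem _ _ (hA h) hxA
    rwa [div_mul_cancel₀ y hx0] at this
  · apply hxB
    rw [inv_div] at h
    have := B.mul_mem _ _ (hB h) hyB
    rwa [div_mul_cancel₀ x hy0] at this

theorem dep_of_le {K : Type} [Field K] {O A B : ValuationSubring K} (hA : O ≤ A) (hB : O ≤ B)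
    (hAt : A ≠ ⊤) (hBt : B ≠ ⊤) : Dep A B := by
  rcases cmp_of_le hA hB with h | h
  · exact ⟨B, hBt, h, le_rfl⟩
  · exact ⟨A, hAt, le_rfl, h⟩

/-- The explicit ring and a compatible ring are dependent. -/
theorem dep_explicit {L : Type} [Field L] {P : L → Prop} (hP : Gr P) {O : ValuationSubring L}
    (hO : ∀ x, O.valuation x = 1 → P x) {c : L} (hc : ¬ P c) {A : ValuationSubring L}
    (hAt : A ≠ ⊤) (hA : ∀ x, x ∈ A ↔ XA P x) {A₀ : ValuationSubring L} (hA₀ : Cm P A₀)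
    (hA₀' : A₀ ≠ ⊤) : Dep A A₀ := by
  have hOA : O ≤ A := by
    intro x hx
    have hx1 : O.valuation x ≤ 1 := (le_one O).2 hx
    rw [hA]
    by_cases hx0 : x = 0
    · exact Or.inl hx0
    by_cases hPx : P x
    · refine Or.inr (Or.inr ⟨hPx, fun z hz => ?_⟩)
      rw [x1_iff hP hO] at hz ⊢
      refine ⟨fun h2 => hz.1 (hP.of_mul_left hPx hx0 h2), ?_⟩
      rw [map_mul, mul_comm]
      exact mul_lt_one_of_nonneg_of_lt_one_left zero_le hz.2 hx1
    · refine Or.inr (Or.inl ((x1_iff hP hO x).2 ⟨hPx, lt_of_le_of_ne hx1 fun h => hPx (hO x h)⟩))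
  by_cases h1 : O ≤ A₀
  · exact dep_of_le hOA h1 hAt hA₀'
  by_cases h2 : A₀ ≤ O
  · exact ⟨A, hAt, le_rfl, h2.trans hOA⟩
  have hOc : Cm P O := fun x hx => hO _ (val_one_add O hx)
  have hJ := unit_jn hP hOc hA₀ h1 h2
  have hJt : jn O A₀ ≠ ⊤ := by
    intro h
    apply hc
    apply hJ
    have hc0 : c ≠ 0 := by
      rintro rfl
      exact hc hP.zero
    have h3 : ∀ y : L, (jn O A₀).valuation y ≤ 1 := fun y => (le_one _).2 (by rw [h]; trivial)
    refine le_antisymm (h3 c) ?_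
    have h4 := h3 c⁻¹
    rw [map_inv₀] at h4
    exact (inv_le_one₀ (zero_lt_iff.2 ((map_ne_zero _).2 hc0))).1 h4
  obtain ⟨C, hC, hC1, hC2⟩ := dep_of_le hOA (le_jn_left O A₀) hAt hJt
  exact ⟨C, hC, hC1, (le_jn_right O A₀).trans hC2⟩

theorem Dep.comap {K L : Type} [Field K] [Field L] [Algebra K L] [FiniteDimensional K L]
    {A B : ValuationSubring L} (h : Dep A B) :
    Dep (A.comap (algebraMap K L)) (B.comap (algebraMap K L)) := by
  obtain ⟨C, hC, h1, h2⟩ := h
  exact ⟨C.comap (algebraMap K L), comap_ne_top K L hC, fun x hx => h1 hx, fun x hx => h2 hx⟩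

/-- The explicit definition of the maximal ideal gives a definable valuation ring of `K`. -/
theorem dfb_of_ss' (K : Type) [Field K] [CompatibleRing K] (L : Type) [Field L] [Algebra K L]
    [FiniteDimensional K L] {P : L → Prop} (hD : D K (fun v : Fin 1 → L => P (v 0)))
    {A : ValuationSubring L} {d : L}
    (hss : ∀ a, SS P d a ↔ A.valuation a < 1) :
    Dfb (A.comap (algebraMap K L)) := by
  refine dfb_of_D K L ?_
  have h1 : D K (fun v : Fin 1 → L => ∀ z : L, z * v 0 = 1 → ¬ SS P d z) := by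
    have e1 : D K (fun v : Fin 1 ⊕ Fin 1 → L => MvPolynomial.eval v
      (MvPolynomial.X (Sum.inr 0) * MvPolynomial.X (Sum.inl 0) - 1) = 0) := D_poly DFB _
    have e2 : D K (fun v : Fin 1 ⊕ Fin 1 → L => ¬ SS P d (MvPolynomial.eval v
      (MvPolynomial.X (Sum.inr 0)))) := D_not DFA (D_app (D_SS hD d) _)
    refine D_congr (fun v => ?_) (D_all1 DFA (D_imp DFA e1 e2))
    simp only [MvPolynomial.eval_X, map_mul, map_sub, map_one, Sum.elim_inr, Sum.elim_inl,
      sub_eq_zero]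
  refine D_congr (fun v => ?_) h1
  by_cases hv : v 0 = 0
  · rw [hv]
    simp only [mul_zero, zero_ne_one, false_imp_iff, implies_true, true_iff]
    exact A.zero_mem
  · constructor
    · intro h
      by_contra hcon
      refine h (v 0)⁻¹ (inv_mul_cancel₀ hv) ((hss _).2 ?_)
      rw [lt_one, inv_inv]
      exact Or.inr hcon
    · intro h z hz hzS
      rw [hss, eq_inv_of_mul_eq_one_left hz, lt_one, inv_inv] at hzS
      rcases hzS with h1 | h1
      · exact inv_ne_zero hv h1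
      · exact h1 h

/-- The theorem `jkT`, with dependence. -/
theorem jkT' (K : Type) [Field K] [CompatibleRing K] (L : Type) [Field L] [Algebra K L]
    [FiniteDimensional K L] {P : L → Prop} (hP : Gr P)
    (hD : D K (fun v : Fin 1 → L => P (v 0))) {q : ℕ} (hPq : ∀ x : L, P (x ^ q)) (p : ℕ)
    [Fact p.Prime] (hpq : p.Coprime q) {A₀ : ValuationSubring L} (hA₀ : Cm P A₀) (hA₀' : A₀ ≠ ⊤)
    (hp : A₀.valuation (p : L) < 1) {c : L} (hc : ¬ P c) :
    ∃ A : ValuationSubring K, A ≠ ⊤ ∧ Dfb A ∧ Dep A (A₀.comap (algebraMap K L)) := by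
  by_cases hI : ∃ O : ValuationSubring L, ∀ x : L, O.valuation x = 1 → P x
  · obtain ⟨O, hO⟩ := hI
    obtain ⟨A, hA, hA'⟩ := explicit hP hO hc
    exact ⟨A.comap (algebraMap K L), comap_ne_top K L hA,
      dfb_of_D K L (D_congr (fun v => (hA' (v 0)).symm) (D_XA hD)),
      (dep_explicit hP hO hc hA hA' hA₀ hA₀').comap⟩
  push Not at hI
  have hcomp : ∀ O₁ O₂ : ValuationSubring L, Cm P O₁ → Cm P O₂ → O₁ ≤ O₂ ∨ O₂ ≤ O₁ :=
    fun O₁ O₂ h₁ h₂ => comparable hP (fun O hO => by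
      obtain ⟨x, hx1, hx2⟩ := hI O
      exact absurd (hO x hx1) hx2) hc h₁ h₂
  set A := fin hcomp with hA
  have hAc : Cm P A := fin_cmp hP hcomp
  have hle : A ≤ A₀ := fin_le hcomp hA₀
  have hAt : A ≠ ⊤ := by
    intro h
    apply hA₀'
    rw [eq_top_iff, ← h]
    exact hle
  obtain ⟨d, hd1, hd2⟩ := hI A
  have hss := ss_iff hP hPq p hpq hAc (val_lt_one_of_le hle hp)
    (fun A' h1 h2 => le_antisymm h1 (fin_le hcomp h2)) hd1 hd2
  exact ⟨A.comap (algebraMap K L), comap_ne_top K L hAt, dfb_of_ss' K L hD hss,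
    Dep.comap ⟨A₀, hA₀', hle, le_rfl⟩⟩

/-- The theorem `jk2`, with dependence. -/
theorem jk2' (K : Type) [Field K] [CompatibleRing K] (n : ℕ) (hn : NIPnField n K)
    (L : Type) [Field L] [Algebra K L]
    [FiniteDimensional K L] {P : L → Prop} (hP : Gr P)
    (hD : D K (fun v : Fin 1 → L => P (v 0))) {q : ℕ} (hq : q.Prime) (hPq : ∀ x : L, P (x ^ q))
    (hm : P (-1)) {A₀ : ValuationSubring L} (hA₀ : Cm P A₀) (hA₀' : A₀ ≠ ⊤)
    {c : L} (hc : ¬ P c) :
    ∃ A : ValuationSubring K, A ≠ ⊤ ∧ Dfb A ∧ Dep A (A₀.comap (algebraMap K L)) := by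
  by_cases hI : ∃ O : ValuationSubring L, ∀ x : L, O.valuation x = 1 → P x
  · obtain ⟨O, hO⟩ := hI
    obtain ⟨A, hA, hA'⟩ := explicit hP hO hc
    exact ⟨A.comap (algebraMap K L), comap_ne_top K L hA,
      dfb_of_D K L (D_congr (fun v => (hA' (v 0)).symm) (D_XA hD)),
      (dep_explicit hP hO hc hA hA' hA₀ hA₀').comap⟩
  push Not at hI
  have hcomp : ∀ O₁ O₂ : ValuationSubring L, Cm P O₁ → Cm P O₂ → O₁ ≤ O₂ ∨ O₂ ≤ O₁ :=
    fun O₁ O₂ h₁ h₂ => comparable hP (fun O hO => by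
      obtain ⟨x, hx1, hx2⟩ := hI O
      exact absurd (hO x hx1) hx2) hc h₁ h₂
  set A := fin hcomp with hA
  have hAc : Cm P A := fin_cmp hP hcomp
  have hle : A ≤ A₀ := fin_le hcomp hA₀
  have hAt : A ≠ ⊤ := by
    intro h
    apply hA₀'
    rw [eq_top_iff, ← h]
    exact hle
  obtain ⟨d, hd1, hd2⟩ := hI A
  rcases trichotomy hP hm hPq hAc (fun A' h1 h2 => le_antisymm h1 (fin_le hcomp h2)) hd1 hd2 with
    hss | ⟨N, C, hN, hu, hNq, hnt, ε, hε, hU1, hU2⟩
  · exact ⟨A.comap (algebraMap K L), comap_ne_top K L hAt, dfb_of_ss' K L hD hss,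
      Dep.comap ⟨A₀, hA₀', hle, le_rfl⟩⟩
  -- the weak case
  obtain ⟨P₂, hO, hnorm, hult, hnat⟩ := exists_place hN hu hnt
  have hU1' : ∀ (x : L) (h : x ∈ P₂.O), ‖P₂.res ⟨x, h⟩‖ ≤ ε → x ∈ {x | UU P d x} := by
    intro x h hx
    have h' : x ∈ A := by rwa [← hO]
    rw [hnorm x h h'] at hx
    exact hU1 ⟨x, h'⟩ hx
  have hU2' : ∀ x ∈ {x | UU P d x}, ∃ h : x ∈ P₂.O, ‖P₂.res ⟨x, h⟩‖ ≤ 1 / ε := by
    intro x hx
    obtain ⟨h', hx'⟩ := hU2 x hx
    have h : x ∈ P₂.O := by rwa [hO]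
    refine ⟨h, ?_⟩
    rw [hnorm x h h']
    exact hx'
  have hUD : D K (fun v : Fin 1 → L => v 0 ∈ {x | UU P d x}) := D_UU hD d
  have hq1 : ‖(q : P₂.F)‖ < 1 := by
    rw [hnat]
    exact hNq
  have hul : IsUltrametricDist P₂.F :=
    IsUltrametricDist.isUltrametricDist_of_forall_norm_add_le_max_norm hult
  rcases Pool.Agent.T9h43.MC.main P₂.F hq hq1 (fun E _ _ _ _ _ =>
    Pool.Agent.T9h43.TV.Rel.no_pat_rel n hn P₂ _ hUD ε hε hU1' hU2' hq E) with h1 | ⟨-, ⟨π, hπ0, hπ1, hπ⟩, -⟩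
  · -- all elements of the completion are `q`-th powers
    exfalso
    apply hd2
    have hdA : d ∈ A := (le_one A).1 hd1.le
    have hdO : d ∈ P₂.O := by rwa [hO]
    have hdr : P₂.res ⟨d, hdO⟩ ≠ 0 := by
      intro h
      have h2 := hnorm d hdO hdA
      rw [h, norm_zero] at h2
      have h3 := (hN.eq_zero _).1 h2.symm
      rw [residue_zero_iff] at h3
      exact absurd h3 (not_lt.2 hd1.ge)
    obtain ⟨y, hy⟩ := pow_of_finrank hq h1 (P₂.res ⟨d, hdO⟩)
    have hy0 : y ≠ 0 := by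
      rintro rfl
      rw [zero_pow hq.ne_zero] at hy
      exact hdr hy.symm
    obtain ⟨z, hz0, hz⟩ := PB_.pick P₂.denseRange (y := y)
      (Q := fun z => z ≠ 0 ∧ ‖y ^ q / z ^ q - 1‖ < ε) (by
        have h1 : ContinuousAt (fun v : P₂.F => ‖y ^ q / v ^ q - 1‖) y := by
          have h2 : ContinuousAt (fun v : P₂.F => v ^ q) y := (continuous_pow q).continuousAt
          exact ((continuousAt_const.div h2 (pow_ne_zero _ hy0)).sub continuousAt_const).norm
        refine (continuousAt_id.eventually_ne hy0).and (h1.eventually_lt continuousAt_const ?_)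
        show ‖y ^ q / y ^ q - 1‖ < ε
        rw [div_self (pow_ne_zero _ hy0), sub_self, norm_zero]
        exact hε)
    obtain ⟨z', hz'⟩ := (P₂.isUnit_of_res_ne_zero z hz0).exists_right_inv
    have hzL : (z : L) * (z' : L) = 1 := congrArg Subtype.val hz'
    have hzr : P₂.res z * P₂.res z' = 1 := by rw [← map_mul, hz', map_one]
    have h2 : (⟨d * (z' : L) ^ q - 1, sub_mem (P₂.O.mul_mem _ _ hdO
        (pow_mem z'.2 q)) P₂.O.one_mem⟩ : P₂.O) = ⟨d, hdO⟩ * z' ^ q - 1 := rfl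
    have h3 : d * (z' : L) ^ q - 1 ∈ {x | UU P d x} := by
      refine hU1' _ (sub_mem (P₂.O.mul_mem _ _ hdO (pow_mem z'.2 q)) P₂.O.one_mem) ?_
      rw [h2, map_sub, map_mul, map_pow, map_one, ← hy]
      have h4 : P₂.res z' = (P₂.res z)⁻¹ := eq_inv_of_mul_eq_one_right hzr
      rw [h4, inv_pow, ← div_eq_mul_inv]
      exact hz.le
    have h5 : P (d * (z' : L) ^ q) := by
      have := h3.2.1
      rwa [add_sub_cancel] at this
    have h6 : d = (d * (z' : L) ^ q) * (z : L) ^ q := by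
      rw [mul_assoc, ← mul_pow, mul_comm (z' : L), hzL, one_pow, mul_one]
    rw [h6]
    exact hP.mul h5 (hPq _)
  · -- the discrete case
    obtain ⟨r, hr, hrq⟩ : ∃ r : ℕ, r.Prime ∧ r ≠ q := by
      by_cases h : q = 2
      · exact ⟨3, Nat.prime_three, by omega⟩
      · exact ⟨2, Nat.prime_two, fun h' => h h'.symm⟩
    obtain ⟨L', i1, i2, i3, i4, i5, T, B, c', hDT, h0, hmul, hinv, hpow, hc0, hcT, hB, hcm, hBK⟩ :=
      Pool.Agent.T9h43.TV.Rel.ext_E_rel P₂ _ hUD ε hε hU1' hU2' hr.ne_zero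
        (Pool.Agent.T9h43.TV.norm_prime hr hq hrq hq1) P₂.F π (fun y hy => by
        have h2 : ‖y‖ ^ r = ‖π‖ := by rw [← norm_pow, hy]
        have h3 : ‖y‖ < 1 := by
          by_contra h
          rw [not_lt] at h
          have := one_le_pow₀ h (n := r)
          rw [h2] at this
          exact absurd hπ1 (not_lt.2 this)
        have h4 := hπ y h3
        have hπp : 0 < ‖π‖ := norm_pos_iff.2 hπ0
        have h5 : ‖y‖ ^ r ≤ ‖π‖ ^ r := pow_le_pow_left₀ (norm_nonneg _) h4 r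
        have h6 : ‖π‖ ^ r < ‖π‖ := pow_lt_self_of_lt_one₀ hπp hπ1 hr.one_lt
        rw [h2] at h5
        exact absurd (h5.trans_lt h6) (lt_irrefl _))
    have hBq : B.valuation (q : L') < 1 := by
      rw [lt_one]
      by_contra hcon
      push Not at hcon
      obtain ⟨hq0, hqi⟩ := hcon
      have hqL : (q : L) ≠ 0 := by
        intro h
        apply hq0
        rw [← map_natCast (algebraMap L L'), h, map_zero]
      have hqi' : algebraMap L L' (q : L)⁻¹ ∈ B := by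
        rw [map_inv₀, map_natCast]
        exact hqi
      obtain ⟨h1, h2⟩ := (hBK _).1 hqi'
      have h3 : (⟨(q : L)⁻¹, h1⟩ : P₂.O) * (q : P₂.O) = 1 := by
        refine Subtype.ext ?_
        show (q : L)⁻¹ * ((q : P₂.O) : L) = 1
        have h7 : ((q : P₂.O) : L) = (q : L) := by simp
        rw [h7]
        exact inv_mul_cancel₀ hqL
      have h4 : ‖P₂.res ⟨(q : L)⁻¹, h1⟩‖ * ‖(q : P₂.F)‖ = 1 := by
        rw [← map_natCast P₂.res, ← norm_mul, ← map_mul, h3, map_one, norm_one]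
      have h5 : ‖P₂.res ⟨(q : L)⁻¹, h1⟩‖ * ‖(q : P₂.F)‖ < 1 := by
        calc ‖P₂.res ⟨(q : L)⁻¹, h1⟩‖ * ‖(q : P₂.F)‖ ≤ 1 * ‖(q : P₂.F)‖ :=
              mul_le_mul_of_nonneg_right h2 (norm_nonneg _)
          _ < 1 := by rwa [one_mul]
      rw [h4] at h5
      exact lt_irrefl _ h5
    have : Fact q.Prime := ⟨hq⟩
    obtain ⟨B', hB', hB'D, C', hC', hB'C, hBC⟩ := jkT' K L' (gr_of_T hmul hinv hpow) (D_of_T hDT)
      (q := r) (fun x => by
        by_cases hx : x = 0
        · left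
          rw [hx, zero_pow hr.ne_zero]
        · exact Or.inr (hpow x hx)) q
      ((Nat.coprime_primes hq hr).2 (Ne.symm hrq)) (A₀ := B)
      (fun x hx => Or.inr (hcm x hx)) hB hBq (c := c') (by
        rintro (h | h)
        · exact hc0 h
        · exact hcT h)
    refine ⟨B', hB', hB'D, ?_⟩
    have hBA : B.comap (algebraMap K L') ≤ A₀.comap (algebraMap K L) := by
      intro x hx
      have h1 : algebraMap L L' (algebraMap K L x) ∈ B := by
        rw [← IsScalarTower.algebraMap_apply]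
        exact hx
      obtain ⟨h2, -⟩ := (hBK _).1 h1
      exact hle (hO ▸ h2)
    obtain ⟨C, hC, h1, h2⟩ := dep_of_le hBC hBA hC' (comap_ne_top K L hA₀')
    exact ⟨C, hC, hB'C.trans h1, h2⟩

end Pool.Agent.T9h39.Ne
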