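import Pool.Agent.T9h39.Nf1

set_option autoImplicit false

/-!
# Nonarchimedean places with a definable topology
-/

namespace Pool.Agent.T9h39.Ne

open FirstOrder FirstOrder.Language FirstOrder.Ring Pool.Agent.W882.Nip3 Pool.Agent.N616.NH
open Pool.Agent.N616.NV Pool.Agent.N616.NH.DJ_ Pool.Agent.N616.NV.Pla_
open Pool.Agent.T9h39.Nd

/-- A field of characteristic zero which is neither separably closed nor real closed has a finite
extension which does not contain all `q`-th roots, for some prime number `q`, and contains a `q`-th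
root of `-1`. -/
theorem exists_pow_ext₂ (F : Type) [Field F] [CharZero F] (h : ¬ IsSepClosed F) :
    (∃ q : ℕ, q.Prime ∧ ∃ (E : Type) (_ : Field E) (_ : Algebra F E) (_ : FiniteDimensional F E)
      (c : E) (i : E), i ^ q = -1 ∧ ∀ y : E, y ^ q ≠ c) ∨
    (¬ IsSumSq (-1 : F) ∧ ∀ a : F, ∃ b : F, a = b ^ 2 ∨ a = -b ^ 2) := by
  classical
  by_cases hj : ∃ j : F, j ^ 2 = -1
  · obtain ⟨j, hj⟩ := hj
    exact Or.inl (exists_pow_ext₁ F h j hj)
  have hirr : Irreducible (Polynomial.X ^ 2 + 1 : Polynomial F) := by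
    have h1 : (Polynomial.X ^ 2 + 1 : Polynomial F) = Polynomial.X ^ 2 - Polynomial.C (-1) := by
      simp
    rw [h1]
    refine X_pow_sub_C_irreducible_of_prime Nat.prime_two fun b hb => hj ⟨b, hb⟩
  have hfact : Fact (Irreducible (Polynomial.X ^ 2 + 1 : Polynomial F)) := ⟨hirr⟩
  let G := AdjoinRoot (Polynomial.X ^ 2 + 1 : Polynomial F)
  let _ : Field G := AdjoinRoot.instField
  have hfin : FiniteDimensional F G := (AdjoinRoot.powerBasis hirr.ne_zero).finite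
  let j : G := AdjoinRoot.root _
  have hj2 : j ^ 2 = -1 := by
    have h1 := AdjoinRoot.eval₂_root (Polynomial.X ^ 2 + 1 : Polynomial F)
    rw [Polynomial.eval₂_add, Polynomial.eval₂_pow, Polynomial.eval₂_X, Polynomial.eval₂_one] at h1
    exact eq_neg_of_add_eq_zero_left h1
  have hchar : CharZero G := charZero_of_injective_algebraMap (algebraMap F G).injective
  by_cases hG : IsSepClosed G
  swap
  · left
    obtain ⟨q, hq, E, _, _, _, c, i, hi, hc⟩ := exists_pow_ext₁ G hG j hj2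
    let _ : Algebra F E := ((algebraMap G E).comp (algebraMap F G)).toAlgebra
    have : IsScalarTower F G E := IsScalarTower.of_algebraMap_eq fun _ => rfl
    exact ⟨q, hq, E, inferInstance, inferInstance, Module.Finite.trans G E, c, i, hi, hc⟩
  right
  -- coordinates
  have hco : ∀ w : G, ∃ u v : F, w = algebraMap F G u + algebraMap F G v * j := by
    intro w
    have hd : (AdjoinRoot.powerBasis hirr.ne_zero).dim = 2 := by
      rw [AdjoinRoot.powerBasis_dim]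
      have h1 : (Polynomial.X ^ 2 + 1 : Polynomial F) = Polynomial.X ^ 2 - Polynomial.C (-1) := by
        simp
      rw [h1, Polynomial.natDegree_X_pow_sub_C]
    obtain ⟨f, hf, hfw⟩ := (AdjoinRoot.powerBasis hirr.ne_zero).exists_eq_aeval w
    rw [hd] at hf
    have h2 : f = Polynomial.C (f.coeff 0) + Polynomial.C (f.coeff 1) * Polynomial.X := by
      rw [add_comm]
      exact Polynomial.eq_X_add_C_of_natDegree_le_one (by omega)
    refine ⟨f.coeff 0, f.coeff 1, ?_⟩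
    rw [hfw, h2]
    simp [AdjoinRoot.powerBasis_gen]
    rfl
  have huniq : ∀ a b u v : F, algebraMap F G a + algebraMap F G b * j =
      algebraMap F G u + algebraMap F G v * j → a = u ∧ b = v := by
    intro a b u v huv
    have hbv : b = v := by
      by_contra hne
      apply hj
      refine ⟨(u - a) / (b - v), (algebraMap F G).injective ?_⟩
      have hb : algebraMap F G b - algebraMap F G v ≠ 0 := by
        rw [← map_sub]
        exact (map_ne_zero _).2 (sub_ne_zero.2 hne)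
      have h1 : j = (algebraMap F G u - algebraMap F G a) /
          (algebraMap F G b - algebraMap F G v) := by
        rw [eq_div_iff hb]
        linear_combination huv
      rw [map_pow, map_div₀, map_sub, map_sub, ← h1, hj2, map_neg, map_one]
    subst hbv
    exact ⟨(algebraMap F G).injective (add_right_cancel huv), rfl⟩
  -- sums of squares
  have hsq : ∀ a b : F, ∃ c : F, a ^ 2 + b ^ 2 = c ^ 2 := by
    intro a b
    obtain ⟨w, hw⟩ : ∃ w : G, w ^ 2 = algebraMap F G a + algebraMap F G b * j :=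
      IsSepClosed.exists_pow_nat_eq _ 2
    obtain ⟨u, v, rfl⟩ := hco w
    have h1 : algebraMap F G (u ^ 2 - v ^ 2) + algebraMap F G (2 * u * v) * j =
        algebraMap F G a + algebraMap F G b * j := by
      rw [← hw, map_sub, map_pow, map_pow, map_mul, map_mul, map_ofNat]
      linear_combination (-(algebraMap F G v) ^ 2) * hj2
    obtain ⟨rfl, rfl⟩ := huniq _ _ _ _ h1
    exact ⟨u ^ 2 + v ^ 2, by ring⟩
  refine ⟨fun hs => ?_, fun a => ?_⟩
  swap
  · obtain ⟨w, hw⟩ : ∃ w : G, w ^ 2 = algebraMap F G a := IsSepClosed.exists_pow_nat_eq _ 2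
    obtain ⟨u, v, rfl⟩ := hco w
    have h1 : algebraMap F G (u ^ 2 - v ^ 2) + algebraMap F G (2 * u * v) * j =
        algebraMap F G a + algebraMap F G 0 * j := by
      rw [map_zero, zero_mul, add_zero, ← hw, map_sub, map_pow, map_pow, map_mul, map_mul, map_ofNat]
      linear_combination (-(algebraMap F G v) ^ 2) * hj2
    obtain ⟨h2, h3⟩ := huniq _ _ _ _ h1
    have h4 : u * v = 0 := by
      have h5 : (2 : F) ≠ 0 := two_ne_zero
      have h6 : 2 * (u * v) = 0 := by rw [← mul_assoc]; exact h3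
      exact (mul_eq_zero.1 h6).resolve_left h5
    rcases mul_eq_zero.1 h4 with h5 | h5
    · exact ⟨v, Or.inr (by rw [← h2, h5]; ring)⟩
    · exact ⟨u, Or.inl (by rw [← h2, h5]; ring)⟩
  have h2 : ∀ s : F, IsSumSq s → ∃ c : F, s = c ^ 2 := by
    intro s hs
    induction hs with
    | zero => exact ⟨0, by ring⟩
    | sq_add a hs ih =>
      obtain ⟨c, hc⟩ := ih
      rw [hc, ← sq]
      exact hsq a c
  obtain ⟨c, hc⟩ := h2 _ hs
  exact hj ⟨c, hc.symm⟩



/-- A definable subgroup from a finite extension of the complete field of a place, and a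
compatible ring. -/
theorem ext_E3 (K : Type) [Field K] [CompatibleRing K] (P : Place K) (U : Set K)
    (hU : D K (fun v : Fin 1 → K => v 0 ∈ U)) (ε : ℝ) (hε : 0 < ε)
    (hU1 : ∀ (x : K) (h : x ∈ P.O), ‖P.res ⟨x, h⟩‖ ≤ ε → x ∈ U)
    (hU2 : ∀ x ∈ U, ∃ h : x ∈ P.O, ‖P.res ⟨x, h⟩‖ ≤ 1 / ε) {q : ℕ} (hq : q ≠ 0)
    (hqn : ‖(q : P.F)‖ = 1)
    (E : Type) [NontriviallyNormedField E] [IsUltrametricDist E] [NormedAlgebra P.F E]
    [FiniteDimensional P.F E] [Algebra.IsSeparable P.F E] [CompleteSpace E]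
    (c0 : E) (hc0 : ∀ y : E, y ^ q ≠ c0) (hi : ∃ i : E, i ^ q = -1) :
    ∃ (L : Type) (_ : Field L) (_ : Algebra K L) (_ : FiniteDimensional K L) (T : Set L)
      (A : ValuationSubring L) (c : L), D K (fun v : Fin 1 → L => v 0 ∈ T) ∧
      (∀ x ∈ T, ∀ y ∈ T, x * y ∈ T) ∧ (∀ x ∈ T, x⁻¹ ∈ T) ∧ (∀ x : L, x ≠ 0 → x ^ q ∈ T) ∧
      c ≠ 0 ∧ c ∉ T ∧ A ≠ ⊤ ∧ (∀ x : L, A.valuation x < 1 → 1 + x ∈ T) ∧ (-1 : L) ∈ T ∧
      ∀ x : K, algebraMap K L x ∈ A ↔ ∃ h : x ∈ P.O, ‖P.res ⟨x, h⟩‖ ≤ 1 := by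
  obtain ⟨L, i1, i2, i3, i4, i5, T, A₀, c', hDT, -, hmul, hinv, hpow, hc0, hcT, hA₀, hcm, hm1, hAK⟩ :=
    Pool.Agent.T9h43.TV.Rel.ext_E_rel2 P U hU ε hε hU1 hU2 hq hqn E c0 hc0
  refine ⟨L, i1, i2, i3, T, A₀, c', hDT, hmul, hinv, hpow, hc0, hcT, hA₀, hcm, hm1 hi, fun x => ?_⟩
  have h1 : @algebraMap K L _ _ i2 x = @algebraMap K L _ _ i4 x := by
    have h2 := @IsScalarTower.algebraMap_apply K K L _ _ _ _ i4 i2 i5 x
    exact h2
  rw [h1]
  exact hAK x

/-- The theorem `dfb_of_top`, with dependence. -/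
theorem dfb_of_top' (K : Type) [Field K] [CompatibleRing K] (n : ℕ) (hn : NIPnField n K)
    (P : Place K) (hult : ∀ a b : P.F, ‖a + b‖ ≤ max ‖a‖ ‖b‖) (U : Set K) (hU : DfS U)
    (ε : ℝ) (hε : 0 < ε) (hU1 : ∀ (x : K) (h : x ∈ P.O), ‖P.res ⟨x, h⟩‖ ≤ ε → x ∈ U)
    (hU2 : ∀ x ∈ U, ∃ h : x ∈ P.O, ‖P.res ⟨x, h⟩‖ ≤ 1 / ε) (hsc : ¬ IsSepClosed P.F)
    (O : ValuationSubring K) (hO : IsRingOf P O) :
    (∃ A : ValuationSubring K, A ≠ ⊤ ∧ Dfb A ∧ Dep A O) ∨
    ((∀ q : ℕ, q.Prime → ‖(q : P.F)‖ = 1) ∧ ¬ IsSumSq (-1 : P.F) ∧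
      ∀ a : P.F, ∃ b : P.F, a = b ^ 2 ∨ a = -b ^ 2) := by
  have hul : IsUltrametricDist P.F :=
    IsUltrametricDist.isUltrametricDist_of_forall_norm_add_le_max_norm hult
  -- the last step for positive residue characteristic
  have key : ∀ {p : ℕ} (_ : p.Prime) {q : ℕ} (_ : q.Prime) (_ : q ≠ p), ‖(p : P.F)‖ < 1 →
      (∃ (L : Type) (_ : Field L) (_ : Algebra K L) (_ : FiniteDimensional K L) (T : Set L)
      (A : ValuationSubring L) (c : L), D K (fun v : Fin 1 → L => v 0 ∈ T) ∧ (0 : L) ∉ T ∧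
      (∀ x ∈ T, ∀ y ∈ T, x * y ∈ T) ∧ (∀ x ∈ T, x⁻¹ ∈ T) ∧ (∀ x : L, x ≠ 0 → x ^ q ∈ T) ∧
      c ≠ 0 ∧ c ∉ T ∧ A ≠ ⊤ ∧ (∀ x : L, A.valuation x < 1 → 1 + x ∈ T) ∧
      ∀ x : K, algebraMap K L x ∈ A ↔ ∃ h : x ∈ P.O, ‖P.res ⟨x, h⟩‖ ≤ 1) →
      ∃ A : ValuationSubring K, A ≠ ⊤ ∧ Dfb A ∧ Dep A O := by
    rintro p hp q hq hqp hpn ⟨L, _, _, _, T, A₀, c, hDT, -, hmul, hinv, hpow, hc0, hcT, hA₀, hcm, hAK⟩
    have : Fact p.Prime := ⟨hp⟩
    have hcO : A₀.comap (algebraMap K L) = O := by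
      ext x
      exact (hAK x).trans (hO x).symm
    rw [← hcO]
    refine jkT' K L (gr_of_T hmul hinv hpow) (D_of_T hDT) (q := q) ?_ p
      ((Nat.coprime_primes hp hq).2 (Ne.symm hqp)) (A₀ := A₀) (fun x hx => Or.inr (hcm x hx)) hA₀
      (val_p P hpn L A₀ hAK) (c := c) ?_
    · intro x
      by_cases hx : x = 0
      · left
        rw [hx, zero_pow hq.ne_zero]
      · exact Or.inr (hpow x hx)
    · rintro (h | h)
      · exact hc0 h
      · exact hcT h
  have harch : ∀ m : ℕ, ‖(m : P.F)‖ ≤ 1 := fun m => Pool.Agent.T9h43.TV.norm_nat_le m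
  by_cases hp : ∃ p : ℕ, p.Prime ∧ ‖(p : P.F)‖ < 1
  · obtain ⟨p, hp, hpn⟩ := hp
    left
    rcases Pool.Agent.T9h43.MC.main P.F hp hpn (fun E _ _ _ _ _ =>
      Pool.Agent.T9h43.MC.no_pat n hn P hult U hU ε hε hU1 hU2 hp E) with
      h1 | ⟨-, ⟨π, hπ0, hπ1, hπ⟩, -⟩
    · obtain ⟨M, _, _, _, _, q, hq, hqM⟩ := exists_prime_degree P.F hsc
      have hqp : q ≠ p := by
        rintro rfl
        exact h1 M hqM
      exact key hp hq hqp hpn (Pool.Agent.T9h43.TV.ext_T P hult U hU ε hε hU1 hU2 hq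
        (Pool.Agent.T9h43.TV.norm_prime hq hp hqp hpn) M hqM)
    · obtain ⟨q, hq, hqp⟩ : ∃ q : ℕ, q.Prime ∧ q ≠ p := by
        by_cases h : p = 2
        · exact ⟨3, Nat.prime_three, by omega⟩
        · exact ⟨2, Nat.prime_two, fun h' => h h'.symm⟩
      refine key hp hq hqp hpn (Pool.Agent.T9h43.TV.ext_E P U hU ε hε hU1 hU2 hq.ne_zero
        (Pool.Agent.T9h43.TV.norm_prime hq hp hqp hpn) P.F π fun y hy => ?_)
      have h2 : ‖y‖ ^ q = ‖π‖ := by rw [← norm_pow, hy]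
      have h3 : ‖y‖ < 1 := by
        by_contra h
        rw [not_lt] at h
        have := one_le_pow₀ h (n := q)
        rw [h2] at this
        exact absurd hπ1 (not_lt.2 this)
      have h4 := hπ y h3
      have hπp : 0 < ‖π‖ := norm_pos_iff.2 hπ0
      have h5 : ‖y‖ ^ q ≤ ‖π‖ ^ q := pow_le_pow_left₀ (norm_nonneg _) h4 q
      have h6 : ‖π‖ ^ q < ‖π‖ := pow_lt_self_of_lt_one₀ hπp hπ1 hq.one_lt
      rw [h2] at h5
      exact absurd (h5.trans_lt h6) (lt_irrefl _)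
  push Not at hp
  have hqn : ∀ q : ℕ, q.Prime → ‖(q : P.F)‖ = 1 := fun q hq => le_antisymm (harch q) (hp q hq)
  have hchar : CharZero P.F := by
    obtain ⟨p, hpc⟩ := CharP.exists P.F
    rcases CharP.char_is_prime_or_zero P.F p with h | h
    · have h1 := hqn p h
      rw [CharP.cast_eq_zero, norm_zero] at h1
      exact absurd h1 zero_ne_one
    · subst h
      exact CharP.charP_to_charZero P.F
  rcases exists_pow_ext₂ P.F hsc with ⟨q, hq, E, _, _, _, c, i, hi, hc⟩ | h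
  swap
  · exact Or.inr ⟨hqn, h⟩
  left
  have hUD : D K (fun v : Fin 1 → K => v 0 ∈ U) := by
    have h1 : D K (fun v : Fin 1 → K => ∃ x ∈ U, algebraMap K K x = v 0) := VD_.dfl_subU hU
    refine D_congr (fun v => ?_) h1
    constructor
    · rintro ⟨x, hx, hxv⟩
      have : x = v 0 := hxv
      rwa [← this]
    · intro h
      exact ⟨v 0, h, rfl⟩
  let _ : NontriviallyNormedField E := spectralNorm.nontriviallyNormedField P.F E
  let _ : NormedAlgebra P.F E := spectralNorm.normedAlgebra P.F E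
  have : IsUltrametricDist E :=
    IsUltrametricDist.isUltrametricDist_of_isNonarchimedean_norm isNonarchimedean_spectralNorm
  have : CompleteSpace E := spectralNorm.completeSpace P.F E
  obtain ⟨L, _, _, _, T, A₀, c', hDT, hmul, hinv, hpow, hc0, hcT, hA₀, hcm, hm1, hAK⟩ :=
    ext_E3 K P U hUD ε hε hU1 hU2 hq.ne_zero (hqn q hq) E c hc ⟨i, hi⟩
  have hcO : A₀.comap (algebraMap K L) = O := by
    ext x
    exact (hAK x).trans (hO x).symm
  rw [← hcO]
  refine jk2' K n hn L (gr_of_T hmul hinv hpow) (D_of_T hDT) hq ?_ (Or.inr hm1)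
    (A₀ := A₀) (fun x hx => Or.inr (hcm x hx)) hA₀ (c := c') ?_
  · intro x
    by_cases hx : x = 0
    · left
      rw [hx, zero_pow hq.ne_zero]
    · exact Or.inr (hpow x hx)
  · rintro (h | h)
    · exact hc0 h
    · exact hcT h


end Pool.Agent.T9h39.Ne
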