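import Pool.Agent.T9h39.Nf2

set_option autoImplicit false

/-!
# Definable topologies of valuation rings
-/

namespace Pool.Agent.T9h39.Ne

open FirstOrder FirstOrder.Language FirstOrder.Ring Pool.Agent.W882.Nip3 Pool.Agent.N616.NH
open Pool.Agent.N616.NV Pool.Agent.N616.NH.DJ_ Pool.Agent.N616.NV.Pla_
open Pool.Agent.T9h39.Nd

/-- The field `K` is dense in its separable closure for the topology of the valuation ring `O` (the
completion of `K` for this topology is separably closed): all monic separable polynomials of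
positive degree have arbitrarily small values. -/
def DenseInSepClosure {K : Type} [Field K] (O : ValuationSubring K) : Prop :=
  ∀ f : Polynomial K, f.Monic → f.Separable → f.natDegree ≠ 0 → ∀ c : K, c ≠ 0 →
    ∃ x : K, O.valuation (f.eval x) ≤ O.valuation c

/-- The topology of the valuation ring `O` is definable: there is a definable bounded neighbourhood of
zero. -/
def DefinableTopology {K : Type} [Field K] [CompatibleRing K] (O : ValuationSubring K) : Prop :=
  ∃ (W : Set K) (a b : K), DfS W ∧ a ≠ 0 ∧ b ≠ 0 ∧ (∀ x ∈ O, a * x ∈ W) ∧ ∀ x ∈ W, b * x ∈ O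

section val

variable {K : Type} [Field K] (O : ValuationSubring K)

/-- Elements which divide finitely many given nonzero elements. -/
theorem exists_small (hO : O ≠ ⊤) (s : Finset K) (hs : ∀ x ∈ s, x ≠ 0) :
    ∃ δ : K, δ ≠ 0 ∧ O.valuation δ < 1 ∧ ∀ x ∈ s, O.valuation δ ≤ O.valuation x := by
  classical
  induction s using Finset.induction_on with
  | empty =>
    obtain ⟨x, hx⟩ := (ne_top_iff O).1 hO
    have hx0 : x ≠ 0 := by
      rintro rfl
      exact hx (O.zero_mem)
    refine ⟨x⁻¹, inv_ne_zero hx0, ?_, fun y hy => absurd hy (Finset.notMem_empty y)⟩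
    rw [map_inv₀]
    have h1 : 1 < O.valuation x := by
      rw [← not_le, O.valuation_le_one_iff]
      exact hx
    exact inv_lt_one_of_one_lt₀ h1
  | insert a s ha ih =>
    obtain ⟨δ, h0, h1, h2⟩ := ih fun x hx => hs x (Finset.mem_insert_of_mem hx)
    rcases le_total (O.valuation δ) (O.valuation a) with h | h
    · refine ⟨δ, h0, h1, fun x hx => ?_⟩
      rcases Finset.mem_insert.1 hx with rfl | hx
      · exact h
      · exact h2 x hx
    · refine ⟨a, hs a (Finset.mem_insert_self _ _), lt_of_le_of_lt h h1, fun x hx => ?_⟩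
      rcases Finset.mem_insert.1 hx with rfl | hx
      · exact le_rfl
      · exact h.trans (h2 x hx)

/-- A nonzero multiple of a polynomial is integral. -/
theorem exists_mul_integral (f : Polynomial K) :
    ∃ t : K, t ≠ 0 ∧ ∀ s : K, O.valuation s ≤ O.valuation t → ∀ i, s * f.coeff i ∈ O := by
  classical
  by_cases hf : f = 0
  · exact ⟨1, one_ne_zero, fun s _ i => by rw [hf, Polynomial.coeff_zero, mul_zero]; exact O.zero_mem⟩
  obtain ⟨i₀, hi₀, hmax⟩ := f.support.exists_max_image (fun i => O.valuation (f.coeff i))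
    (Polynomial.support_nonempty.2 hf)
  have h0 : f.coeff i₀ ≠ 0 := Polynomial.mem_support_iff.1 hi₀
  have hpos : 0 < O.valuation (f.coeff i₀) := zero_lt_iff.2 ((map_ne_zero _).2 h0)
  refine ⟨(f.coeff i₀)⁻¹, inv_ne_zero h0, fun s hs i => ?_⟩
  rw [map_inv₀] at hs
  rw [← le_one, map_mul]
  by_cases hi : i ∈ f.support
  · calc O.valuation s * O.valuation (f.coeff i) ≤
        (O.valuation (f.coeff i₀))⁻¹ * O.valuation (f.coeff i₀) :=
          mul_le_mul' hs (hmax i hi)
      _ = 1 := inv_mul_cancel₀ hpos.ne'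
  · rw [Polynomial.notMem_support_iff.1 hi, map_zero, mul_zero]
    exact zero_le_one

/-- A monic separable polynomial can be scaled to an integral one. -/
theorem exists_scaled_poly₀ (hO : O ≠ ⊤) {f : Polynomial K} (hf : f.Monic) (hs : f.Separable)
    (hn : f.natDegree ≠ 0) :
    ∃ (g : Polynomial O) (u v : Polynomial O) (s t r : K) (hs : s ∈ O), g.Monic ∧ g.natDegree ≠ 0 ∧
      s ≠ 0 ∧ t ≠ 0 ∧ r ≠ 0 ∧ u * g + v * g.derivative = Polynomial.C ⟨s, hs⟩ ∧
      ∀ x : K, (g.map O.subtype).eval (r * x) = t * f.eval x := by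
  classical
  have hinf : Infinite K := infinite_of_ne_top hO
  obtain ⟨t, ht0, ht⟩ := exists_mul_integral O f
  obtain ⟨s, hs0, hs1, hst⟩ := exists_small O hO {t} (by simpa using ht0)
  have hsf := ht s (hst t (Finset.mem_singleton_self t))
  have hsO : s ∈ O := (le_one O).1 hs1.le
  set n := f.natDegree with hn'
  set G := f.scaleRoots s with hG
  have hGm : G.Monic := (Polynomial.monic_scaleRoots_iff s).2 hf
  have hGd : G.natDegree = n := Polynomial.natDegree_scaleRoots f s
  have hGe : ∀ x : K, G.eval (s * x) = s ^ n * f.eval x := fun x => by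
    have := Polynomial.scaleRoots_eval₂_mul (p := f) (RingHom.id K) x s
    simpa [Polynomial.eval₂_id] using this
  have hGc : ∀ i, G.coeff i ∈ Set.range O.subtype := by
    intro i
    rw [Polynomial.coeff_scaleRoots]
    rcases lt_trichotomy i n with hi | hi | hi
    · obtain ⟨k, hk⟩ : ∃ k, n - i = k + 1 := ⟨n - i - 1, by omega⟩
      rw [← hn', hk, pow_succ]
      exact ⟨⟨_, O.mul_mem _ _ (pow_mem hsO k) (hsf i)⟩, by
        show s ^ k * (s * f.coeff i) = _
        ring⟩
    · refine ⟨1, ?_⟩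
      rw [hi, ← hn', Nat.sub_self, pow_zero, mul_one, hn', hf.coeff_natDegree]
      rfl
    · refine ⟨0, ?_⟩
      rw [Polynomial.coeff_eq_zero_of_natDegree_lt hi, zero_mul]
      rfl
  have hlin : G = Polynomial.C (s ^ n) * f.comp (Polynomial.C s⁻¹ * Polynomial.X) := by
    refine Polynomial.funext fun x => ?_
    rw [Polynomial.eval_mul, Polynomial.eval_C, Polynomial.eval_comp, Polynomial.eval_mul,
      Polynomial.eval_C, Polynomial.eval_X, ← hGe, mul_inv_cancel_left₀ hs0]
  have hGs : G.Separable := by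
    have h1 : IsCoprime (f.comp (Polynomial.C s⁻¹ * Polynomial.X))
        (f.derivative.comp (Polynomial.C s⁻¹ * Polynomial.X)) :=
      IsCoprime.map hs (Polynomial.compRingHom (Polynomial.C s⁻¹ * Polynomial.X))
    have h2 : (f.comp (Polynomial.C s⁻¹ * Polynomial.X)).Separable := by
      show IsCoprime _ (Polynomial.derivative _)
      rw [Polynomial.derivative_comp]
      have h3 : Polynomial.derivative (Polynomial.C s⁻¹ * Polynomial.X : Polynomial K) =
          Polynomial.C s⁻¹ := by simp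
      rw [h3]
      have h4 : IsUnit (Polynomial.C s⁻¹ : Polynomial K) :=
        Polynomial.isUnit_C.2 (isUnit_iff_ne_zero.2 (inv_ne_zero hs0))
      exact (isCoprime_mul_unit_left_right h4 _ _).2 h1
    rw [hlin]
    have h4 : IsUnit (Polynomial.C (s ^ n) : Polynomial K) :=
      Polynomial.isUnit_C.2 (isUnit_iff_ne_zero.2 (pow_ne_zero n hs0))
    exact h2.unit_mul h4
  obtain ⟨U, V, hUV⟩ := hGs
  obtain ⟨t1, ht1, hU⟩ := exists_mul_integral O U
  obtain ⟨t2, ht2, hV⟩ := exists_mul_integral O V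
  obtain ⟨r, hr0, hr1, hr⟩ := exists_small O hO {t1, t2} (by
    intro x hx
    rcases Finset.mem_insert.1 hx with rfl | hx
    · exact ht1
    · rw [Finset.mem_singleton] at hx
      rwa [hx])
  have hrU := hU r (hr t1 (by simp))
  have hrV := hV r (hr t2 (by simp))
  have hrO : r ∈ O := (le_one O).1 hr1.le
  obtain ⟨g, hg⟩ := (Polynomial.mem_lifts _).1 ((Polynomial.lifts_iff_coeff_lifts (f := O.subtype) G).2 hGc)
  obtain ⟨u, hu⟩ := (Polynomial.mem_lifts _).1 ((Polynomial.lifts_iff_coeff_lifts (f := O.subtype)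
    (Polynomial.C r * U)).2 fun i => ⟨⟨_, hrU i⟩, by rw [Polynomial.coeff_C_mul]; rfl⟩)
  obtain ⟨v, hv⟩ := (Polynomial.mem_lifts _).1 ((Polynomial.lifts_iff_coeff_lifts (f := O.subtype)
    (Polynomial.C r * V)).2 fun i => ⟨⟨_, hrV i⟩, by rw [Polynomial.coeff_C_mul]; rfl⟩)
  have hinj : Function.Injective (O.subtype) := Subtype.val_injective
  refine ⟨g, u, v, r, s ^ n, s, hrO, ?_, ?_, hr0, pow_ne_zero n hs0, hs0, ?_, ?_⟩
  · have h1 : (g.map O.subtype).Monic := by rw [hg]; exact hGm
    exact Polynomial.monic_of_injective hinj h1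
  · rw [← Polynomial.natDegree_map_eq_of_injective hinj, hg, hGd]
    exact hn
  · apply Polynomial.map_injective _ hinj
    rw [Polynomial.map_add, Polynomial.map_mul, Polynomial.map_mul, hu, hv,
      ← Polynomial.derivative_map, hg, Polynomial.map_C]
    show Polynomial.C r * U * G + Polynomial.C r * V * Polynomial.derivative G = Polynomial.C r
    linear_combination (Polynomial.C r) * hUV
  · intro x
    rw [hg]
    exact hGe x

/-- A monic separable polynomial whose values are not small can be scaled to an integral one. -/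
theorem exists_scaled_poly (hO : O ≠ ⊤) {f : Polynomial K} (hf : f.Monic) (hs : f.Separable)
    (hn : f.natDegree ≠ 0) {c : K} (hc : c ≠ 0)
    (hfc : ∀ x, O.valuation c < O.valuation (f.eval x)) :
    ∃ (g : Polynomial O) (u v : Polynomial O) (s c' : K) (hs : s ∈ O), g.Monic ∧ g.natDegree ≠ 0 ∧
      s ≠ 0 ∧ c' ≠ 0 ∧ u * g + v * g.derivative = Polynomial.C ⟨s, hs⟩ ∧
      ∀ x : K, O.valuation c' < O.valuation ((g.map O.subtype).eval x) := by
  obtain ⟨g, u, v, s, t, r, hs, hg, hgn, hs0, ht0, hr0, huv, hgf⟩ :=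
    exists_scaled_poly₀ O hO hf hs hn
  refine ⟨g, u, v, s, t * c, hs, hg, hgn, hs0, mul_ne_zero ht0 hc, huv, fun x => ?_⟩
  have h1 := hgf (r⁻¹ * x)
  rw [mul_inv_cancel_left₀ hr0] at h1
  rw [h1, map_mul, map_mul]
  exact mul_lt_mul_of_pos_left (hfc _) (zero_lt_iff.2 ((map_ne_zero _).2 ht0))

end val

/-- The place of rank one given by a valuation ring with a definable topology for which the field is
not dense in its separable closure. -/
theorem place_of_topology (K : Type) [Field K] [CompatibleRing K] (O : ValuationSubring K)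
    (hO : O ≠ ⊤) (hdef : DefinableTopology O) (hsc : ¬ DenseInSepClosure O) :
    ∃ P : Place K, (∀ a b : P.F, ‖a + b‖ ≤ max ‖a‖ ‖b‖) ∧ DefTop P ∧ ¬ IsSepClosed P.F ∧
      ∀ x ∈ O, ∃ h : x ∈ P.O, ‖P.res ⟨x, h⟩‖ ≤ 1 := by
  classical
  unfold DenseInSepClosure at hsc
  push Not at hsc
  obtain ⟨f, hfm, hfs, hfn, c, hc, hfc⟩ := hsc
  obtain ⟨g, u, v, s, c', hsO, hgm, hgn, hs0, hc', huv, hgc⟩ :=
    exists_scaled_poly O hO hfm hfs hfn hc hfc
  obtain ⟨W, a, b, hW, ha, hb, haW, hbW⟩ := hdef
  obtain ⟨δ, hδ0, hδ1, hδ⟩ := exists_small O hO {a, b, s, c'} (by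
    intro x hx
    simp only [Finset.mem_insert, Finset.mem_singleton] at hx
    rcases hx with rfl | rfl | rfl | rfl <;> assumption)
  have hδa := hδ a (by simp)
  have hδb := hδ b (by simp)
  have hδs := hδ s (by simp)
  have hδc := hδ c' (by simp)
  obtain ⟨P, w, hPD, hsm, hun⟩ := Pool.Agent.N616.NH.PL K O δ hδ0 hδ1
  obtain ⟨hδP, hδn0⟩ := hun δ le_rfl hδ1.le
  have hδn : 0 < ‖P.res ⟨δ, hδP⟩‖ := norm_pos_iff.2 hδn0
  -- (1) elements of `O` have norm at most one
  have h1 : ∀ x (hx : x ∈ O), ‖P.res ⟨x, hPD.le x hx⟩‖ ≤ 1 := by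
    intro x hx
    by_contra hlt
    rw [not_le] at hlt
    obtain ⟨n, hn⟩ := pow_unbounded_of_one_lt (1 / ‖P.res ⟨δ, hδP⟩‖) hlt
    have hv : O.valuation (x ^ n * δ) ≤ O.valuation δ := by
      rw [map_mul, map_pow]
      have : O.valuation x ^ n ≤ 1 := pow_le_one₀ zero_le ((O.valuation_le_one_iff x).2 hx)
      exact mul_le_of_le_one_left' this
    obtain ⟨hm, hs⟩ := hsm _ hv
    have he : (⟨x ^ n * δ, hm⟩ : P.O) = (⟨x, hPD.le x hx⟩ : P.O) ^ n * ⟨δ, hδP⟩ := rfl
    rw [he, map_mul, map_pow, norm_mul, norm_pow] at hs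
    rw [div_lt_iff₀ hδn] at hn
    linarith
  -- (2) elements of small norm
  have h2 : ∀ y : P.O, ‖P.res y‖ < ‖P.res ⟨δ, hδP⟩‖ → O.valuation (y : K) ≤ O.valuation δ := by
    intro y hy
    by_contra hlt
    rw [not_le] at hlt
    have hy0 : (y : K) ≠ 0 := by
      intro h0
      rw [h0, map_zero] at hlt
      exact not_lt_zero hlt
    have hq : δ / (y : K) ∈ O := by
      rw [← O.valuation_le_one_iff, map_div₀]
      exact div_le_one_of_le₀ hlt.le zero_le
    have he : (⟨δ, hδP⟩ : P.O) = ⟨δ / (y : K), hPD.le _ hq⟩ * y := by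
      apply Subtype.ext
      show δ = δ / (y : K) * y
      field_simp
    rw [he, map_mul, norm_mul] at hy
    have h3 := h1 _ hq
    nlinarith [norm_nonneg (P.res y)]
  refine ⟨P, ?_, ?_, ?_, fun x hx => ⟨hPD.le x hx, h1 x hx⟩⟩
  · have hnat : ∀ n : ℕ, ‖(n : P.F)‖ ≤ 1 := by
      intro n
      have h3 := h1 (n : K) (natCast_mem O n)
      have h4 : (⟨(n : K), hPD.le _ (natCast_mem O n)⟩ : P.O) = (n : P.O) := Subtype.ext (by simp)
      rwa [h4, map_natCast] at h3
    have := IsUltrametricDist.isUltrametricDist_of_forall_norm_natCast_le_one hnat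
    exact IsUltrametricDist.norm_add_le_max
  · refine ⟨W, ‖P.res ⟨δ, hδP⟩‖ / 2, hW, by positivity, fun x hx hxn => ?_, fun x hx => ?_⟩
    · have h3 := h2 ⟨x, hx⟩ (lt_of_le_of_lt hxn (by linarith))
      have h4 : a⁻¹ * x ∈ O := by
        rw [← le_one, map_mul, map_inv₀]
        calc (O.valuation a)⁻¹ * O.valuation x ≤ (O.valuation a)⁻¹ * O.valuation a :=
              mul_le_mul_right (h3.trans hδa) _
          _ = 1 := inv_mul_cancel₀ ((map_ne_zero _).2 ha)
      have h5 := haW _ h4
      rwa [mul_inv_cancel_left₀ ha] at h5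
    · have h3 : x * δ ∈ O := by
        have h4 := hbW x hx
        rw [← le_one, map_mul] at h4 ⊢
        calc O.valuation x * O.valuation δ ≤ O.valuation x * O.valuation b :=
              mul_le_mul_right hδb _
          _ = O.valuation b * O.valuation x := mul_comm _ _
          _ ≤ 1 := h4
      obtain ⟨z, hz⟩ := (P.isUnit_of_res_ne_zero _ hδn0).exists_right_inv
      have hzK : δ * (z : K) = 1 := congrArg Subtype.val hz
      have hzr : ‖P.res ⟨δ, hδP⟩‖ * ‖P.res z‖ = 1 := by
        rw [← norm_mul, ← map_mul, hz, map_one, norm_one]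
      have hxO : x ∈ P.O := by
        have h4 := P.O.mul_mem _ _ (hPD.le _ h3) z.2
        rwa [mul_assoc, hzK, mul_one] at h4
      refine ⟨hxO, ?_⟩
      have h4 := h1 _ h3
      have h5 : (⟨x * δ, hPD.le _ h3⟩ : P.O) = ⟨x, hxO⟩ * ⟨δ, hδP⟩ := rfl
      rw [h5, map_mul, norm_mul] at h4
      have h6 : ‖P.res ⟨x, hxO⟩‖ ≤ 1 / ‖P.res ⟨δ, hδP⟩‖ := (le_div_iff₀ hδn).2 h4
      refine h6.trans (one_div_le_one_div_of_le (by positivity) (by linarith))
  · intro hF
    let ι : O →+* P.O := Subring.inclusion (show O.toSubring ≤ P.O.toSubring from hPD.le)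
    let ρ : O →+* P.F := P.res.comp ι
    have hρs : ρ ⟨s, hsO⟩ ≠ 0 := by
      obtain ⟨h3, h4⟩ := hun s hδs ((le_one O).2 hsO)
      exact h4
    have hsep : (g.map ρ).Separable := by
      have h3 := congrArg (Polynomial.map ρ) huv
      rw [Polynomial.map_add, Polynomial.map_mul, Polynomial.map_mul, ← Polynomial.derivative_map,
        Polynomial.map_C] at h3
      refine ⟨Polynomial.C (ρ ⟨s, hsO⟩)⁻¹ * u.map ρ, Polynomial.C (ρ ⟨s, hsO⟩)⁻¹ * v.map ρ, ?_⟩
      have h4 : Polynomial.C (ρ ⟨s, hsO⟩)⁻¹ * Polynomial.C (ρ ⟨s, hsO⟩) = 1 := by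
        rw [← Polynomial.C_mul, inv_mul_cancel₀ hρs, Polynomial.C_1]
      linear_combination (Polynomial.C (ρ ⟨s, hsO⟩)⁻¹) * h3 + h4
    have hdeg : (g.map ρ).degree ≠ 0 := by
      intro h3
      apply hgn
      rw [← hgm.natDegree_map ρ]
      exact Polynomial.natDegree_eq_of_degree_eq_some h3
    obtain ⟨y, hy⟩ := IsSepClosed.exists_root _ hdeg hsep
    obtain ⟨x, hx⟩ := PB_.pick P.denseRange (y := y)
      (Q := fun z => ‖(g.map ρ).eval z‖ < ‖P.res ⟨δ, hδP⟩‖) (by
        have h3 : Continuous fun z : P.F => ‖(g.map ρ).eval z‖ :=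
          (Polynomial.continuous _).norm
        refine h3.continuousAt.eventually_lt continuousAt_const ?_
        show ‖(g.map ρ).eval y‖ < ‖P.res ⟨δ, hδP⟩‖
        rw [hy.eq_zero, norm_zero]
        exact hδn)
    have h3 : (g.map ρ).eval (P.res x) = P.res ((g.map ι).eval x) := by
      rw [← Polynomial.map_map, Polynomial.eval_map_apply]
    rw [h3] at hx
    have h4 := h2 _ hx
    have h5 : (((g.map ι).eval x : P.O) : K) = (g.map O.subtype).eval (x : K) := by
      have h6 : O.subtype = P.O.subtype.comp ι := rfl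
      rw [h6, ← Polynomial.map_map]
      exact (Polynomial.eval_map_apply P.O.subtype x).symm
    rw [h5] at h4
    exact absurd (h4.trans hδc) (not_le.2 (hgc _))

end Pool.Agent.T9h39.Ne
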