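import Pool.Agent.T9h39.Nf3
import Pool.Agent.T9h43.NF.Main
import Pool.Agent.T9h43.TV.RealCase

set_option autoImplicit false

/-!
# Definable topologies on NIP fields
-/

namespace Pool.Agent.T9h39.Ne

open FirstOrder FirstOrder.Language FirstOrder.Ring Pool.Agent.W882.Nip3 Pool.Agent.N616.NH
open Pool.Agent.N616.NV Pool.Agent.N616.NH.DJ_ Pool.Agent.N616.NV.Pla_
open Pool.Agent.T9h39.Nd

/-- The maximal ideal of the ring of a place. -/
theorem small_of_lt {K : Type} [Field K] (P : Place K) (O : ValuationSubring K)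
    (hO : IsRingOf P O) {x : K} (hx : O.valuation x < 1) :
    ∃ h : x ∈ P.O, ‖P.res ⟨x, h⟩‖ < 1 := by
  obtain ⟨h1, h2⟩ := (hO x).1 ((O.valuation_le_one_iff x).1 hx.le)
  refine ⟨h1, lt_of_le_of_ne h2 fun h3 => ?_⟩
  have h4 : P.res ⟨x, h1⟩ ≠ 0 := by
    intro h5
    rw [h5, norm_zero] at h3
    exact zero_ne_one h3
  obtain ⟨w, hw⟩ := (P.isUnit_of_res_ne_zero _ h4).exists_right_inv
  have h5 : ‖P.res ⟨x, h1⟩‖ * ‖P.res w‖ = 1 := by
    rw [← norm_mul, ← map_mul, hw, map_one, norm_one]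
  rw [h3, one_mul] at h5
  have h6 : (w : K) ∈ O := (hO _).2 ⟨w.2, h5.le⟩
  have h7 : x * (w : K) = 1 := congrArg Subtype.val hw
  have h8 : O.valuation x * O.valuation (w : K) = 1 := by rw [← map_mul, h7, map_one]
  have h9 : O.valuation x * O.valuation (w : K) < 1 :=
    mul_lt_one_of_lt_of_le hx ((O.valuation_le_one_iff _).2 h6)
  rw [h8] at h9
  exact lt_irrefl _ h9

/-- A definable set of the field, as a definable set of the trivial extension. -/
theorem D_self {K : Type} [Field K] [CompatibleRing K] {U : Set K} (hU : DfS U) :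
    D K (fun v : Fin 1 → K => v 0 ∈ U) := by
  have h1 : D K (fun v : Fin 1 → K => ∃ x ∈ U, algebraMap K K x = v 0) := VD_.dfl_subU hU
  refine D_congr (fun v => ?_) h1
  constructor
  · rintro ⟨x, hx, hxv⟩
    have : x = v 0 := hxv
    rwa [← this]
  · intro h
    exact ⟨v 0, h, rfl⟩

/-- Nonarchimedean places with a definable topology of a field which is `NIP_n`. -/
theorem place_top (K : Type) [Field K] [CompatibleRing K] (n : ℕ) (hn : NIPnField n K)
    (P : Place K) (hult : ∀ a b : P.F, ‖a + b‖ ≤ max ‖a‖ ‖b‖) (hdef : DefTop P)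
    (hsc : ¬ IsSepClosed P.F) (O : ValuationSubring K) (hO : IsRingOf P O) (hOt : O ≠ ⊤) :
    (∃ A : ValuationSubring K, A ≠ ⊤ ∧ Dfb A ∧ Dep A O) ∨
    ∃ (_ : LinearOrder K) (_ : IsStrictOrderedRing K), DfS {x : K | 0 ≤ x} ∧
      (∀ (R : Type) [Field R] [LinearOrder R] [IsStrictOrderedRing R] [IsRealClosed R]
        [Algebra K R] [Algebra.IsAlgebraic K R], StrictMono (algebraMap K R) →
        ∀ a b : R, a < b → ∃ x : K, a < algebraMap K R x ∧ algebraMap K R x < b) ∧
      ∀ x y : K, |x| ≤ |y| → y ∈ O → x ∈ O := by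
  obtain ⟨U, ε, hU, hε, hU1, hU2⟩ := hdef
  rcases dfb_of_top' K n hn P hult U hU ε hε hU1 hU2 hsc O hO with h | ⟨hqn, hs, hr⟩
  · exact Or.inl h
  have h2 : ‖(2 : P.F)‖ = 1 := by
    have := hqn 2 Nat.prime_two
    rwa [Nat.cast_ofNat] at this
  obtain ⟨T, hT, h0, hm1, hmul, hinv, hsq, hcm, -, hc | ⟨LO, SO, hpos, hD, hcv⟩⟩ :=
    Pool.Agent.T9h43.TV.real_case K P hult U hU ε hε hU1 hU2 h2 hs (fun a => by
      obtain ⟨b, hb | hb⟩ := hr a
      · exact Or.inl ⟨b, by rw [hb, pow_two]⟩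
      · exact Or.inr ⟨b, by rw [hb, neg_neg, pow_two]⟩)
  · left
    obtain ⟨c, hc0, hcT, hcT'⟩ := hc
    have hDT := D_self hT
    have hgr : Gr (fun x : K => x = 0 ∨ x ∈ T ∨ -x ∈ T) :=
      { zero := Or.inl rfl
        one := Or.inr (Or.inl (by simpa using hsq 1 one_ne_zero))
        mul := by
          rintro x y (rfl | hx | hx) (rfl | hy | hy)
          · exact Or.inl (zero_mul _)
          · exact Or.inl (zero_mul _)
          · exact Or.inl (zero_mul _)
          · exact Or.inl (mul_zero _)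
          · exact Or.inr (Or.inl (hmul _ hx _ hy))
          · exact Or.inr (Or.inr (by rw [← mul_neg]; exact hmul _ hx _ hy))
          · exact Or.inl (mul_zero _)
          · exact Or.inr (Or.inr (by rw [← neg_mul]; exact hmul _ hx _ hy))
          · exact Or.inr (Or.inl (by rw [← neg_mul_neg]; exact hmul _ hx _ hy))
        inv := by
          rintro x (rfl | hx | hx)
          · exact Or.inl inv_zero
          · exact Or.inr (Or.inl (hinv _ hx))
          · exact Or.inr (Or.inr (by rw [← inv_neg]; exact hinv _ hx)) }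
    have hDP : D K (fun v : Fin 1 → K => v 0 = 0 ∨ v 0 ∈ T ∨ -v 0 ∈ T) := by
      have e0 : D K (fun v : Fin 1 → K => MvPolynomial.eval v (MvPolynomial.X 0) = 0) :=
        D_poly DFB _
      have e1 : D K (fun v : Fin 1 → K => MvPolynomial.eval v (-MvPolynomial.X 0) ∈ T) :=
        D_app hDT _
      refine D_congr (fun v => ?_) (D_or e0 (D_or hDT e1))
      rw [map_neg, MvPolynomial.eval_X]
    obtain ⟨A, hA, hAD, hdep⟩ := jk2' K n hn K hgr hDP Nat.prime_two
      (fun x => by
        by_cases hx : x = 0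
        · left
          rw [hx, zero_pow two_ne_zero]
        · exact Or.inr (Or.inl (hsq x hx)))
      (Or.inr (Or.inr (by rw [neg_neg]; simpa using hsq 1 one_ne_zero))) (A₀ := O)
      (fun x hx => by
        obtain ⟨h3, h4⟩ := small_of_lt P O hO hx
        exact Or.inr (Or.inl (hcm x h3 h4))) hOt (c := c) (by
        rintro (h | h | h)
        · exact hc0 h
        · exact hcT h
        · exact hcT' h)
    refine ⟨A, hA, hAD, ?_⟩
    have h3 : O.comap (algebraMap K K) = O := by
      ext x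
      rfl
    rwa [h3] at hdep
  · -- the ordering
    have hconv : ∀ x y : K, |x| ≤ |y| → y ∈ O → x ∈ O := by
      intro x y hxy hy
      have h3 : |y| ∈ O := by
        rcases abs_choice y with h | h
        · rwa [h]
        · rw [h]
          exact O.neg_mem _ hy
      have h4 : |x| ∈ O := (hO _).2 (hcv |x| |y| (abs_nonneg x) hxy ((hO _).1 h3))
      rcases abs_choice x with h | h
      · rwa [h] at h4
      · rw [h] at h4
        simpa using O.neg_mem _ h4
    obtain ⟨V, hV, hV1, hV2⟩ :=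
      (Pool.Agent.Results.MP_3554b5_lc.PlacesOfHigherDimension.result K
        (Or.inr (Or.inl ⟨n, hn⟩))).2.1
    rcases Pool.Agent.T9h43.NF.dichotomy hV hV1 hV2 with ⟨A, hA, hA', hAc⟩ | h3
    · left
      refine ⟨A, hA, hA', ?_⟩
      have hcmp : A ≤ O ∨ O ≤ A := by
        by_contra hcon
        rw [not_or] at hcon
        obtain ⟨x, hxA, hxO⟩ := Set.not_subset.1 (show ¬ (A : Set K) ⊆ O from hcon.1)
        obtain ⟨y, hyO, hyA⟩ := Set.not_subset.1 (show ¬ (O : Set K) ⊆ A from hcon.2)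
        rcases le_total |x| |y| with h | h
        · exact hxO (hconv x y h hyO)
        · exact hyA (hAc y x h hxA)
      rcases hcmp with h | h
      · exact ⟨O, hOt, h, le_rfl⟩
      · exact ⟨A, hA, le_rfl, h⟩
    · exact Or.inr ⟨LO, SO, h3.1, h3.2, hconv⟩

/-- Definable topologies of valuation rings on fields which are `NIP_n`. -/
theorem valuation_top (K : Type) [Field K] [CompatibleRing K] (n : ℕ) (hn : NIPnField n K)
    (O : ValuationSubring K) (hO : O ≠ ⊤) (hdef : DefinableTopology O) :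
    (∃ A : ValuationSubring K, A ≠ ⊤ ∧ Dfb A ∧ Dep A O) ∨
    (∃ (_ : LinearOrder K) (_ : IsStrictOrderedRing K), DfS {x : K | 0 ≤ x} ∧
      (∀ (R : Type) [Field R] [LinearOrder R] [IsStrictOrderedRing R] [IsRealClosed R]
        [Algebra K R] [Algebra.IsAlgebraic K R], StrictMono (algebraMap K R) →
        ∀ a b : R, a < b → ∃ x : K, a < algebraMap K R x ∧ algebraMap K R x < b) ∧
      ∃ C : ValuationSubring K, C ≠ ⊤ ∧ O ≤ C ∧ ∀ x y : K, |x| ≤ |y| → y ∈ C → x ∈ C) ∨
    DenseInSepClosure O := by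
  by_cases hsc : DenseInSepClosure O
  · exact Or.inr (Or.inr hsc)
  obtain ⟨P, hult, hP, hF, hOP⟩ := place_of_topology K O hO hdef hsc
  obtain ⟨O', hO', hO't, -⟩ := PO K P hult
  have hle : O ≤ O' := fun x hx => (hO' x).2 (hOP x hx)
  rcases place_top K n hn P hult hP hF O' hO' hO't with ⟨A, hA, hA', C, hC, h1, h2⟩ |
    ⟨LO, SO, h1, h2, h3⟩
  · exact Or.inl ⟨A, hA, hA', C, hC, h1, hle.trans h2⟩
  · exact Or.inr (Or.inl ⟨LO, SO, h1, h2, O', hO't, hle, h3⟩)

end Pool.Agent.T9h39.Ne
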