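import Pool.Agent.T9h39.Nf4
import Pool.Agent.Results.MP_3554b5_lc.PlacesOfHigherDimension
import Mathlib.RingTheory.Henselian

set_option autoImplicit false

/-!
# Definable topologies in positive characteristic
-/

namespace Pool.Agent.T9h39.Ne

open FirstOrder FirstOrder.Language FirstOrder.Ring Pool.Agent.W882.Nip3 Pool.Agent.N616.NH
open Pool.Agent.N616.NV Pool.Agent.N616.NH.DJ_ Pool.Agent.N616.NV.Pla_
open Pool.Agent.T9h39.Nd

open Polynomial in
/-- Newton's form of Hensel's lemma. -/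
theorem newton_hens {R : Type} [CommRing R] [HenselianLocalRing R] (g : R[X]) (x a : R)
    (ha : a ∈ IsLocalRing.maximalIdeal R)
    (h : g.eval x = (g.derivative.eval x) ^ 2 * a) : ∃ z, g.eval z = 0 := by
  classical
  set d := g.derivative.eval x with hd
  set m := g.natDegree + 1 with hm
  set T := taylor x g with hT
  set Q : R[X] := ∑ k ∈ Finset.range m, C (T.coeff (k + 2) * (d * a) ^ k) * X ^ (m - 1 - k) with hQ
  set S : R[X] := X ^ (m + 1) + (X ^ m + C a * Q) with hS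
  have hQd : Q.natDegree ≤ m - 1 := by
    refine natDegree_sum_le_of_forall_le _ _ fun k _ => ?_
    exact (natDegree_C_mul_X_pow_le _ _).trans (by omega)
  have hSm : S.Monic := by
    refine monic_X_pow_add ?_
    refine lt_of_le_of_lt (degree_add_le _ _) (max_lt ?_ ?_)
    · refine lt_of_le_of_lt (degree_X_pow_le _) ?_
      exact_mod_cast Nat.lt_succ_self m
    · refine lt_of_le_of_lt (degree_le_natDegree) ?_
      have h1 := natDegree_C_mul_le a Q
      exact_mod_cast (show (C a * Q).natDegree < m + 1 by omega)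
  have h1 : S.eval (-1) = a * Q.eval (-1) := by
    rw [hS]
    simp only [eval_add, eval_pow, eval_X, eval_mul, eval_C]
    ring
  have h2 : S.derivative.eval (-1) = (-1) ^ m + a * Q.derivative.eval (-1) := by
    rw [hS]
    simp only [derivative_add, derivative_X_pow, derivative_C_mul, eval_add, eval_mul, eval_C,
      eval_pow, eval_X]
    obtain ⟨j, hj⟩ : ∃ j, m = j + 1 := ⟨m - 1, by omega⟩
    rw [hj]
    simp only [Nat.add_sub_cancel]
    push_cast
    ring
  obtain ⟨z, hz, hz1⟩ := HenselianLocalRing.is_henselian S hSm (-1)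
    (by rw [h1]; exact Ideal.mul_mem_right _ _ ha)
    (by
      rw [h2]
      have h3 : IsUnit ((-1 : R) ^ m) := (isUnit_one.neg).pow m
      have h4 : a * Q.derivative.eval (-1) ∈ IsLocalRing.maximalIdeal R :=
        Ideal.mul_mem_right _ _ ha
      by_contra hcon
      have h5 : (-1 : R) ^ m + a * Q.derivative.eval (-1) ∈ IsLocalRing.maximalIdeal R := by
        rwa [IsLocalRing.mem_maximalIdeal]
      have h6 := Ideal.sub_mem _ h5 h4
      rw [add_sub_cancel_right, IsLocalRing.mem_maximalIdeal] at h6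
      exact h6 h3)
  have hzu : IsUnit z := by
    by_contra hcon
    have h5 : z ∈ IsLocalRing.maximalIdeal R := by rwa [IsLocalRing.mem_maximalIdeal]
    have h6 := Ideal.sub_mem _ hz1 h5
    rw [sub_neg_eq_add, add_sub_cancel_left, IsLocalRing.mem_maximalIdeal] at h6
    exact h6 isUnit_one
  obtain ⟨w, hw⟩ := hzu.exists_right_inv
  refine ⟨x + d * a * w, ?_⟩
  have h3 : g.eval (x + d * a * w) = T.eval (d * a * w) := by
    rw [hT, taylor_eval, add_comm]
  have h4 : T.eval (d * a * w) = ∑ k ∈ Finset.range (m + 2), T.coeff k * (d * a * w) ^ k :=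
    eval_eq_sum_range' (by rw [hT, natDegree_taylor]; omega) _
  rw [h3]
  have h5 : z ^ (m + 1) * T.eval (d * a * w) = g.eval x * S.eval z := by
    rw [h4, Finset.sum_range_succ', Finset.sum_range_succ']
    simp only [hT, taylor_coeff_zero, zero_add, taylor_coeff_one]
    rw [← hd, hS]
    simp only [eval_add, eval_pow, eval_X, eval_mul, eval_C]
    rw [hQ, eval_finsetSum]
    simp only [eval_mul, eval_C, eval_pow, eval_X]
    have h6 : z ^ (m + 1) * (∑ k ∈ Finset.range m, (taylor x g).coeff (k + 1 + 1) *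
        (d * a * w) ^ (k + 1 + 1)) = d ^ 2 * a * (a * ∑ k ∈ Finset.range m,
          (taylor x g).coeff (k + 2) * (d * a) ^ k * z ^ (m - 1 - k)) := by
      rw [Finset.mul_sum, Finset.mul_sum, Finset.mul_sum]
      refine Finset.sum_congr rfl fun k hk => ?_
      have hk' := Finset.mem_range.1 hk
      have h7 : z ^ (m + 1) = z ^ (k + 2) * z ^ (m - 1 - k) := by
        rw [← pow_add]
        congr 1
        omega
      have h8 : z ^ (k + 2) * w ^ (k + 2) = 1 := by rw [← mul_pow, hw, one_pow]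
      rw [h7, show k + 1 + 1 = k + 2 from rfl, mul_pow]
      linear_combination ((taylor x g).coeff (k + 2) * (d * a) ^ (k + 2) * z ^ (m - 1 - k)) * h8
    rw [mul_add, mul_add, h6, h]
    have h9 : z ^ (m + 1) * w = z ^ m := by
      rw [pow_succ, mul_assoc, hw, mul_one]
    linear_combination (d ^ 2 * a) * h9
  rw [show S.eval z = 0 from hz, mul_zero] at h5
  have h6 : IsUnit (z ^ (m + 1)) := hzu.pow _
  exact (h6.mul_right_eq_zero).1 h5

/-- The place of rank one given by a valuation ring with a definable topology. -/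
theorem place_of_topology₀ (K : Type) [Field K] [CompatibleRing K] (O : ValuationSubring K)
    (hO : O ≠ ⊤) (hdef : DefinableTopology O) :
    ∃ P : Place K, (∀ a b : P.F, ‖a + b‖ ≤ max ‖a‖ ‖b‖) ∧ DefTop P ∧
      ∀ x ∈ O, ∃ h : x ∈ P.O, ‖P.res ⟨x, h⟩‖ ≤ 1 := by
  classical
  obtain ⟨W, a, b, hW, ha, hb, haW, hbW⟩ := hdef
  obtain ⟨δ, hδ0, hδ1, hδ⟩ := exists_small O hO {a, b} (by
    intro x hx
    simp only [Finset.mem_insert, Finset.mem_singleton] at hx
    rcases hx with rfl | rfl <;> assumption)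
  have hδa := hδ a (by simp)
  have hδb := hδ b (by simp)
  obtain ⟨P, w, hPD, hsm, hun⟩ := Pool.Agent.N616.NH.PL K O δ hδ0 hδ1
  obtain ⟨hδP, hδn0⟩ := hun δ le_rfl hδ1.le
  have hδn : 0 < ‖P.res ⟨δ, hδP⟩‖ := norm_pos_iff.2 hδn0
  -- (1) elements of `O` have norm at most one
  have h1 : ∀ x (hx : x ∈ O), ‖P.res ⟨x, hPD.le x hx⟩‖ ≤ 1 := by
    intro x hx
    by_contra hlt
    rw [not_le] at hlt
    obtain ⟨n, hn⟩ := pow_unbounded_of_one_lt (1 / ‖P.res ⟨δ, hδP⟩‖) hlt
    have hv : O.valuation (x ^ n * δ) ≤ O.valuation δ := by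
      rw [map_mul, map_pow]
      have : O.valuation x ^ n ≤ 1 := pow_le_one₀ zero_le ((O.valuation_le_one_iff x).2 hx)
      exact mul_le_of_le_one_left' this
    obtain ⟨hm, hs⟩ := hsm _ hv
    have he : (⟨x ^ n * δ, hm⟩ : P.O) = (⟨x, hPD.le x hx⟩ : P.O) ^ n * ⟨δ, hδP⟩ := rfl
    rw [he, map_mul, map_pow, norm_mul, norm_pow] at hs
    rw [div_lt_iff₀ hδn] at hn
    linarith
  -- (2) elements of small norm
  have h2 : ∀ y : P.O, ‖P.res y‖ < ‖P.res ⟨δ, hδP⟩‖ → O.valuation (y : K) ≤ O.valuation δ := by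
    intro y hy
    by_contra hlt
    rw [not_le] at hlt
    have hy0 : (y : K) ≠ 0 := by
      intro h0
      rw [h0, map_zero] at hlt
      exact not_lt_zero hlt
    have hq : δ / (y : K) ∈ O := by
      rw [← O.valuation_le_one_iff, map_div₀]
      exact div_le_one_of_le₀ hlt.le zero_le
    have he : (⟨δ, hδP⟩ : P.O) = ⟨δ / (y : K), hPD.le _ hq⟩ * y := by
      apply Subtype.ext
      show δ = δ / (y : K) * y
      field_simp
    rw [he, map_mul, norm_mul] at hy
    have h3 := h1 _ hq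
    nlinarith [norm_nonneg (P.res y)]
  refine ⟨P, ?_, ?_, fun x hx => ⟨hPD.le x hx, h1 x hx⟩⟩
  · have hnat : ∀ n : ℕ, ‖(n : P.F)‖ ≤ 1 := by
      intro n
      have h3 := h1 (n : K) (natCast_mem O n)
      have h4 : (⟨(n : K), hPD.le _ (natCast_mem O n)⟩ : P.O) = (n : P.O) := Subtype.ext (by simp)
      rwa [h4, map_natCast] at h3
    have := IsUltrametricDist.isUltrametricDist_of_forall_norm_natCast_le_one hnat
    exact IsUltrametricDist.norm_add_le_max
  · refine ⟨W, ‖P.res ⟨δ, hδP⟩‖ / 2, hW, by positivity, fun x hx hxn => ?_, fun x hx => ?_⟩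
    · have h3 := h2 ⟨x, hx⟩ (lt_of_le_of_lt hxn (by linarith))
      have h4 : a⁻¹ * x ∈ O := by
        rw [← le_one, map_mul, map_inv₀]
        calc (O.valuation a)⁻¹ * O.valuation x ≤ (O.valuation a)⁻¹ * O.valuation a :=
              mul_le_mul_right (h3.trans hδa) _
          _ = 1 := inv_mul_cancel₀ ((map_ne_zero _).2 ha)
      have h5 := haW _ h4
      rwa [mul_inv_cancel_left₀ ha] at h5
    · have h3 : x * δ ∈ O := by
        have h4 := hbW x hx
        rw [← le_one, map_mul] at h4 ⊢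
        calc O.valuation x * O.valuation δ ≤ O.valuation x * O.valuation b :=
              mul_le_mul_right hδb _
          _ = O.valuation b * O.valuation x := mul_comm _ _
          _ ≤ 1 := h4
      obtain ⟨z, hz⟩ := (P.isUnit_of_res_ne_zero _ hδn0).exists_right_inv
      have hzK : δ * (z : K) = 1 := congrArg Subtype.val hz
      have hzr : ‖P.res ⟨δ, hδP⟩‖ * ‖P.res z‖ = 1 := by
        rw [← norm_mul, ← map_mul, hz, map_one, norm_one]
      have hxO : x ∈ P.O := by
        have h4 := P.O.mul_mem _ _ (hPD.le _ h3) z.2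
        rwa [mul_assoc, hzK, mul_one] at h4
      refine ⟨hxO, ?_⟩
      have h4 := h1 _ h3
      have h5 : (⟨x * δ, hPD.le _ h3⟩ : P.O) = ⟨x, hxO⟩ * ⟨δ, hδP⟩ := rfl
      rw [h5, map_mul, norm_mul] at h4
      have h6 : ‖P.res ⟨x, hxO⟩‖ ≤ 1 / ‖P.res ⟨δ, hδP⟩‖ := (le_div_iff₀ hδn).2 h4
      refine h6.trans (one_div_le_one_div_of_le (by positivity) (by linarith))

/-- In positive characteristic, definable topologies are topologies of henselian valuation rings. -/
theorem hens_of_topology (K : Type) [Field K] [CompatibleRing K] (p : ℕ) [Fact p.Prime] [CharP K p]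
    (n : ℕ) (hn : NIPnField n K) (O : ValuationSubring K) (hO : O ≠ ⊤)
    (hdef : DefinableTopology O) :
    ∃ A : ValuationSubring K, A ≠ ⊤ ∧ O ≤ A ∧ HenselianLocalRing A := by
  obtain ⟨P, hult, ⟨U, ε, hU, hε, hU1, hU2⟩, hOP⟩ := place_of_topology₀ K O hO hdef
  obtain ⟨A, hA, hAt, hA2⟩ := PO K P hult
  have hmem : ∀ x : K, x ∈ A ↔ ∃ h : x ∈ P.O, ‖P.res ⟨x, h⟩‖ ≤ 1 := hA
  refine ⟨A, hAt, fun x hx => (hA x).2 (hOP x hx), ?_⟩
  have hm0 : 0 < min ε 1 / 2 := by positivity
  obtain ⟨y, hy0, hy⟩ := NormedField.exists_norm_lt P.F hm0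
  obtain ⟨δ, hδ⟩ := Metric.denseRange_iff.1 P.denseRange y ‖y‖ hy0
  rw [dist_eq_norm] at hδ
  have hδn0 : P.res δ ≠ 0 := by
    intro h
    rw [h, sub_zero] at hδ
    exact lt_irrefl _ hδ
  have hδle : ‖P.res δ‖ < min ε 1 := by
    have h1 : ‖P.res δ‖ ≤ ‖y‖ + ‖y - P.res δ‖ := by
      calc ‖P.res δ‖ = ‖y - (y - P.res δ)‖ := by rw [sub_sub_cancel]
        _ ≤ ‖y‖ + ‖y - P.res δ‖ := norm_sub_le _ _
    linarith
  have hδε : ‖P.res δ‖ ≤ ε := hδle.le.trans (min_le_left _ _)
  have hδ1 : ‖P.res δ‖ < 1 := hδle.trans_le (min_le_right _ _)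
  have hδ0 : (δ : K) ≠ 0 := by
    intro h
    apply hδn0
    have : δ = 0 := Subtype.ext h
    rw [this, map_zero]
  have hδA : (δ : K) ∈ A := (hmem _).2 ⟨δ.2, hδ1.le⟩
  have hδv : A.valuation (δ : K) < 1 := by
    refine lt_of_le_of_ne ((A.valuation_le_one_iff _).2 hδA) fun h => ?_
    have h1 : (δ : K)⁻¹ ∈ A := by
      rw [← A.valuation_le_one_iff, map_inv₀, h, inv_one]
    obtain ⟨h2, h3⟩ := (hmem _).1 h1
    have h4 : P.res δ * P.res ⟨(δ : K)⁻¹, h2⟩ = 1 := by
      rw [← map_mul, ← map_one P.res]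
      congr 1
      exact Subtype.ext (mul_inv_cancel₀ hδ0)
    have h5 := congrArg norm h4
    rw [norm_mul, norm_one] at h5
    nlinarith [norm_nonneg (P.res δ), norm_nonneg (P.res ⟨(δ : K)⁻¹, h2⟩)]
  refine HT PAT IDE VD JM K p (infinite_of_ne_top hAt) n hn A δ U hδ0 hδv hU (fun x hx => ?_)
    (fun x hx => ?_) (hA2 δ δ.2 hδn0)
  · have h1 : x / δ ∈ A := by
      rw [← A.valuation_le_one_iff, map_div₀]
      exact div_le_one_of_le₀ hx zero_le
    obtain ⟨h2, h3⟩ := (hmem _).1 h1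
    have h4 : x / δ * δ = x := div_mul_cancel₀ _ hδ0
    have h5 : x ∈ P.O := by
      rw [← h4]
      exact P.O.mul_mem _ _ h2 δ.2
    refine hU1 x h5 ?_
    have h6 : (⟨x, h5⟩ : P.O) = ⟨x / δ, h2⟩ * δ := Subtype.ext h4.symm
    rw [h6, map_mul, norm_mul]
    calc ‖P.res ⟨x / δ, h2⟩‖ * ‖P.res δ‖ ≤ 1 * ε :=
          mul_le_mul h3 hδε (norm_nonneg _) zero_le_one
      _ = ε := one_mul _
  · obtain ⟨h1, h2⟩ := hU2 x hx
    have h3 : x * δ ∈ A := by
      refine (hmem _).2 ⟨P.O.mul_mem _ _ h1 δ.2, ?_⟩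
      have h4 : (⟨x * δ, P.O.mul_mem _ _ h1 δ.2⟩ : P.O) = ⟨x, h1⟩ * δ := rfl
      rw [h4, map_mul, norm_mul]
      calc ‖P.res ⟨x, h1⟩‖ * ‖P.res δ‖ ≤ 1 / ε * ε :=
            mul_le_mul h2 hδε (norm_nonneg _) (by positivity)
        _ = 1 := by field_simp
    have h4 := (A.valuation_le_one_iff _).2 h3
    rwa [map_mul] at h4

/-- A field with a henselian valuation ring which is dense in its separable closure is separably
closed. -/
theorem sepClosed_of_dense (K : Type) [Field K] (A O : ValuationSubring K) (hA : A ≠ ⊤)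
    (hle : O ≤ A) (hh : HenselianLocalRing A) (hd : DenseInSepClosure O) : IsSepClosed K := by
  classical
  refine IsSepClosed.of_exists_root K fun f hfm hfi hfs => ?_
  have hfn : f.natDegree ≠ 0 := hfi.natDegree_pos.ne'
  obtain ⟨g, u, v, s, t, r, hs, hg, hgn, hs0, ht0, hr0, huv, hgf⟩ :=
    exists_scaled_poly₀ A hA hfm hfs hfn
  obtain ⟨π, hπ0, hπ1, -⟩ := exists_small A hA ∅ (fun x hx => absurd hx (Finset.notMem_empty x))
  obtain ⟨x₀, hx₀⟩ := hd f hfm hfs hfn (t⁻¹ * (s ^ 2 * π))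
    (mul_ne_zero (inv_ne_zero ht0) (mul_ne_zero (pow_ne_zero 2 hs0) hπ0))
  set y := r * x₀ with hy
  have hgy : (g.map A.subtype).eval y = t * f.eval x₀ := hgf x₀
  -- the value of `g` at `y` is small
  have h1 : f.eval x₀ / (t⁻¹ * (s ^ 2 * π)) ∈ A := by
    apply hle
    rw [← O.valuation_le_one_iff, map_div₀]
    exact div_le_one_of_le₀ hx₀ zero_le
  set b := f.eval x₀ / (t⁻¹ * (s ^ 2 * π)) with hb
  have hc0 : t⁻¹ * (s ^ 2 * π) ≠ 0 :=
    mul_ne_zero (inv_ne_zero ht0) (mul_ne_zero (pow_ne_zero 2 hs0) hπ0)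
  have hgy2 : (g.map A.subtype).eval y = s ^ 2 * π * b := by
    rw [hgy, hb]
    field_simp
  have hπA : π ∈ A := (le_one A).1 hπ1.le
  have hgyA : (g.map A.subtype).eval y ∈ A := by
    rw [hgy2]
    exact A.mul_mem _ _ (A.mul_mem _ _ (pow_mem hs 2) hπA) h1
  -- `y` is integral
  have hyA : y ∈ A := by
    have h2 : IsIntegral A y := by
      refine ⟨g - Polynomial.C ⟨_, hgyA⟩, ?_, ?_⟩
      · refine hg.sub_of_left ?_
        refine lt_of_le_of_lt Polynomial.degree_C_le ?_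
        rw [Polynomial.degree_eq_natDegree hg.ne_zero]
        exact_mod_cast Nat.pos_of_ne_zero hgn
      · rw [Polynomial.eval₂_sub, Polynomial.eval₂_C, sub_eq_zero]
        show _ = (g.map A.subtype).eval y
        rw [Polynomial.eval_map]
        rfl
    obtain ⟨z, hz⟩ := IsIntegrallyClosed.isIntegral_iff.1 h2
    rw [← hz]
    exact z.2
  let Y : A := ⟨y, hyA⟩
  have hgY : ((g.eval Y : A) : K) = s ^ 2 * π * b := by
    rw [← hgy2]
    exact (Polynomial.eval_map_apply A.subtype Y).symm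
  let s' : A := ⟨s, hs⟩
  have h3 : u.eval Y * g.eval Y + v.eval Y * g.derivative.eval Y = s' := by
    have := congrArg (Polynomial.eval Y) huv
    simpa using this
  -- the derivative divides `s`
  have h4 : g.eval Y = s' * (s' * (⟨π, hπA⟩ * ⟨b, h1⟩)) := by
    apply Subtype.ext
    rw [hgY]
    show _ = s * (s * (π * b))
    ring
  have hπm : (⟨π, hπA⟩ : A) ∈ IsLocalRing.maximalIdeal A :=
    (A.valuation_lt_one_iff ⟨π, hπA⟩).2 hπ1
  have h5 : IsUnit (1 - u.eval Y * (s' * (⟨π, hπA⟩ * ⟨b, h1⟩))) := by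
    by_contra hcon
    have h6 : (1 : A) - u.eval Y * (s' * (⟨π, hπA⟩ * ⟨b, h1⟩)) ∈ IsLocalRing.maximalIdeal A := by
      rwa [IsLocalRing.mem_maximalIdeal]
    have h7 : u.eval Y * (s' * (⟨π, hπA⟩ * ⟨b, h1⟩)) ∈ IsLocalRing.maximalIdeal A :=
      Ideal.mul_mem_left _ _ (Ideal.mul_mem_left _ _ (Ideal.mul_mem_right _ _ hπm))
    have h8 := Ideal.add_mem _ h6 h7
    rw [sub_add_cancel, IsLocalRing.mem_maximalIdeal] at h8
    exact h8 isUnit_one
  obtain ⟨e, he⟩ := h5.exists_right_inv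
  have h6 : s' = g.derivative.eval Y * (v.eval Y * e) := by
    linear_combination (-s') * he - e * h3 + (e * u.eval Y) * h4
  obtain ⟨z, hz⟩ := newton_hens g Y ((v.eval Y * e) ^ 2 * (⟨π, hπA⟩ * ⟨b, h1⟩))
    (Ideal.mul_mem_left _ _ (Ideal.mul_mem_right _ _ hπm)) (by
      rw [h4]
      nth_rewrite 1 [h6]
      nth_rewrite 1 [h6]
      ring)
  refine ⟨r⁻¹ * z, ?_⟩
  have h7 := hgf (r⁻¹ * z)
  rw [mul_inv_cancel_left₀ hr0] at h7
  have h8 : (g.map A.subtype).eval (z : K) = 0 := by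
    have := Polynomial.eval_map_apply A.subtype z (p := g)
    rw [hz, map_zero] at this
    exact this
  rw [h8] at h7
  exact (mul_eq_zero.1 h7.symm).resolve_left ht0

end Pool.Agent.T9h39.Ne
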