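import Mathlib

/-!
# Local operators relative to a representation: definitions
-/

namespace Pool.Agent.T9h39.Rel

open Module

/-- The function `θ` is additive on the multiplicative group: `θ (a b) = θ a + θ b` for nonzero `a`
and `b`. -/
structure IsAdditive {K : Type} [Field K] (θ : K → K) : Prop where
  zero : θ 0 = 0
  mul : ∀ a b, a ≠ 0 → b ≠ 0 → θ (a * b) = θ a + θ b

/-- Every subspace stable under a subgroup of finite index is `0` or `V`. -/
def StronglyIrreducible {K V Γ : Type} [Field K] [AddCommGroup V] [Module K V] [Group Γ]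
    (ρ : Representation K Γ V) : Prop :=
  ∀ Δ : Subgroup Γ, Δ.FiniteIndex → ∀ U : Submodule K V, (∀ g ∈ Δ, ∀ x ∈ U, ρ g x ∈ U) →
    U = ⊥ ∨ U = ⊤

/-- The representations are isomorphic up to scalars. -/
def IsoUpToScalars {K V W Γ : Type} [Field K] [AddCommGroup V] [Module K V] [AddCommGroup W]
    [Module K W] [Group Γ] (ρ : Representation K Γ V) (τ : Representation K Γ W) : Prop :=
  ∃ T : V ≃ₗ[K] W, ∀ g, ∃ c : K, ∀ x, T (ρ g x) = c • τ g (T x)

variable {K Γ : Type} [Field K] [Group Γ] {ι : Type} {V : ι → Type} [∀ i, AddCommGroup (V i)]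
  [∀ i, Module K (V i)] {H : Type} [AddCommGroup H] [Module K H]

/-- The *local operators* on the family `V` relative to the representation `H` are obtained from

* the operators `g - 1`, for elements `g` of the group which act trivially on `H` and on the Tate
  twists and with `(g - 1) ^ 2 = 0` on all `V i`, and
* the slope operators of elements `F` of the group for additive functions `θ` on the multiplicative
  group of the field which vanish on `χ F` and on the eigenvalues of `F` on `H`: multiplication by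
  `θ a` on the generalized eigenspaces of `F` for the eigenvalue `a` on the `V i`

by linear combinations, commutators and conjugation with elements of the group. An operator is given
by its restrictions to the `V i`. -/
inductive IsLocal (χ : Γ →* Kˣ) (ρ : ∀ i, Representation K Γ (V i)) (σ : Representation K Γ H) :
    (∀ i, Module.End K (V i)) → Prop
  | unip (g : Γ) (hχ : χ g = 1) (hσ : σ g = 1)
      (h : ∀ i, (ρ i g - 1) * (ρ i g - 1) = 0) : IsLocal χ ρ σ fun i => ρ i g - 1
  | slope (F : Γ) (θ : K → K) (hθ : IsAdditive θ) (hχ : θ (χ F) = 0)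
      (hσ : ∀ (b : K) (w : H), w ≠ 0 → σ F w = b • w → θ b = 0) (X : ∀ i, Module.End K (V i))
      (hX : ∀ i a, ∀ v ∈ Module.End.maxGenEigenspace (ρ i F) a, X i v = θ a • v) : IsLocal χ ρ σ X
  | add (X Y : ∀ i, Module.End K (V i)) : IsLocal χ ρ σ X → IsLocal χ ρ σ Y →
      IsLocal χ ρ σ (X + Y)
  | smul (c : K) (X : ∀ i, Module.End K (V i)) : IsLocal χ ρ σ X → IsLocal χ ρ σ (c • X)
  | bracket (X Y : ∀ i, Module.End K (V i)) : IsLocal χ ρ σ X → IsLocal χ ρ σ Y →
      IsLocal χ ρ σ (X * Y - Y * X)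
  | conj (g : Γ) (X : ∀ i, Module.End K (V i)) : IsLocal χ ρ σ X →
      IsLocal χ ρ σ fun i => ρ i g * X i * ρ i g⁻¹

/-- The number `d` is a *defect* of the operator `N` on `V i`: the rank of `N` on `V i`, or the
multiplicity on `V i` of a nonzero eigenvalue of `N N'`, for a local operator `N'` with `N' ^ 2 = 0`. -/
def IsDefect (χ : Γ →* Kˣ) (ρ : ∀ i, Representation K Γ (V i)) (σ : Representation K Γ H) (i : ι)
    (N : ∀ i, Module.End K (V i)) (d : ℕ) : Prop :=
  d = finrank K (LinearMap.range (N i)) ∨ ∃ N', IsLocal χ ρ σ N' ∧ N' * N' = 0 ∧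
    ∃ a : K, a ≠ 0 ∧ d = finrank K ((N i * N' i).maxGenEigenspace a)

/-- Only `0` and `V i` are stable under all the conjugates of the operator `N`. -/
def ConjIrreducible (ρ : ∀ i, Representation K Γ (V i)) (i : ι) (N : ∀ i, Module.End K (V i)) :
    Prop :=
  ∀ U : Submodule K (V i), (∀ g, ∀ u ∈ U, (ρ i g * N i * ρ i g⁻¹) u ∈ U) → U = ⊥ ∨ U = ⊤

/-- There is a local operator `N` with `N ^ 2 = 0` whose defects on `V i` have no common prime factor,
or contain the number two; or there is one whose conjugates act irreducibly on `V i`, and the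
defects on `V i` of all the local operators of square zero have no common prime factor. -/
def HasLocalOperator (χ : Γ →* Kˣ) (ρ : ∀ i, Representation K Γ (V i)) (σ : Representation K Γ H)
    (i : ι) : Prop :=
  (∃ N, IsLocal χ ρ σ N ∧ N * N = 0 ∧
    ((∀ p : ℕ, p.Prime → ∃ d, IsDefect χ ρ σ i N d ∧ ¬ p ∣ d) ∨ IsDefect χ ρ σ i N 2)) ∨
  ((∃ N, IsLocal χ ρ σ N ∧ N * N = 0 ∧ ConjIrreducible ρ i N) ∧
    ∀ p : ℕ, p.Prime → ∃ N, IsLocal χ ρ σ N ∧ N * N = 0 ∧ ∃ d, IsDefect χ ρ σ i N d ∧ ¬ p ∣ d)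

/-- The `V i` are strongly irreducible representations with nondegenerate alternating forms `B i`
with values in the twist by `χ ^ (w i)`, no two of them are isomorphic up to scalars, and for every
`i` there is a local operator, relative to `H`, as in `HasLocalOperator`. -/
structure RelativeFamily (χ : Γ →* Kˣ) (w : ι → ℕ) (ρ : ∀ i, Representation K Γ (V i))
    (B : ∀ i, V i →ₗ[K] V i →ₗ[K] K) (σ : Representation K Γ H) : Prop where
  alt : ∀ i v, B i v v = 0
  nondeg : ∀ i v, (∀ u, B i v u = 0) → v = 0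
  act : ∀ i g v u, B i (ρ i g v) (ρ i g u) = (χ g : K) ^ w i * B i v u
  irreducible : ∀ i, StronglyIrreducible (ρ i)
  distinct : ∀ i j, i ≠ j → ¬ IsoUpToScalars (ρ i) (ρ j)
  places : ∀ i, HasLocalOperator χ ρ σ i

/-- The multilinear map `f` on the sum of the `V i` with values in `H` is a *Tate class of codimension
`j`* for the group `Δ`: `f (g x) = χ g ^ j g (f x)` for all `g` in `Δ`. -/
def IsTateMap (χ : Γ →* Kˣ) (ρ : ∀ i, Representation K Γ (V i)) (σ : Representation K Γ H)
    {S : Type} (Δ : Subgroup Γ) (j : ℕ) (f : MultilinearMap K (fun _ : S => ∀ i, V i) H) : Prop :=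
  ∀ g ∈ Δ, ∀ x, f (fun s i => ρ i g (x s i)) = (χ g : K) ^ j • σ g (f x)

/-- `f` is a linear combination of maps of the form
`x ↦ (∏ l, B (c l) (x (e (l, 0)) (c l)) (x (e (l, 1)) (c l))) • w`, where the `e (l, 0)`, `e (l, 1)`
are the pairs of a perfect matching of the set `S`, and `w` is an element of `H` with
`χ g ^ j g w = (∏ l, χ g ^ (w (c l))) w` for the elements `g` of `Δ`. -/
def IsProductOfPairings (χ : Γ →* Kˣ) (wt : ι → ℕ) (B : ∀ i, V i →ₗ[K] V i →ₗ[K] K)
    (σ : Representation K Γ H) {S : Type} (Δ : Subgroup Γ) (j : ℕ)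
    (f : MultilinearMap K (fun _ : S => ∀ i, V i) H) : Prop :=
  f ∈ Submodule.span K {h : MultilinearMap K (fun _ : S => ∀ i, V i) H |
    ∃ (m : ℕ) (e : Fin m × Fin 2 ≃ S) (c : Fin m → ι) (w : H),
      (∀ g ∈ Δ, (χ g : K) ^ j • σ g w = (∏ l, (χ g : K) ^ wt (c l)) • w) ∧
      ∀ x, h x = (∏ l, B (c l) (x (e (l, 0)) (c l)) (x (e (l, 1)) (c l))) • w}

/-- The map `x ↦ (∏ l, B (c l) (x (e (l, 0)) (c l)) (x (e (l, 1)) (c l))) • z`, where the `e (l, 0)`,
`e (l, 1)` are the pairs of a perfect matching of the set `S`, and `z` is an element of `Alg`. -/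
def PairingTimes (B : ∀ i, V i →ₗ[K] V i →ₗ[K] K) (Alg : Submodule K H) {S : Type}
    (f : MultilinearMap K (fun _ : S => ∀ i, V i) H) : Prop :=
  ∃ (m : ℕ) (e : Fin m × Fin 2 ≃ S) (c : Fin m → ι), ∃ z ∈ Alg,
    ∀ x, f x = (∏ l, B (c l) (x (e (l, 0)) (c l)) (x (e (l, 1)) (c l))) • z

end Pool.Agent.T9h39.Rel
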