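import Pool.Agent.T9h39.SbRep
import Pool.Agent.T9h39.RelMain

/-!
# Operators on the source and on the target of equivariant maps
-/

set_option linter.unusedSectionVars false

namespace Pool.Agent.T9h39.Sb

open Module Finset Function Pool.Agent.TH125.Gal Pool.Agent.TH118.SG Pool.Agent.T9h39.Rel

section gen

variable {K : Type} [Field K] [CharZero K] {T : Type} [AddCommGroup T] [Module K T]
  {E : Type} [AddCommGroup E] [Module K E] {S : Type} [Fintype S] [DecidableEq S]
  {G : Type} [Group G] {ρ : G →* (T →ₗ[K] T)} {σ : G →* (E →ₗ[K] E)}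

/-- The operator `Y` on the target corresponds to the operator `X` on the source. -/
def IsComp (S : Type) [Fintype S] [DecidableEq S] (ρ : G →* (T →ₗ[K] T)) (σ : G →* (E →ₗ[K] E))
    (X : T →ₗ[K] T) (Y : E →ₗ[K] E) : Prop :=
  ∀ h : MultilinearMap K (fun _ : S => T) E, Eqv ρ σ h →
    ∀ v : S → T, ∑ s, h (update v s (X (v s))) = Y (h v)

variable {X X' : T →ₗ[K] T} {Y Y' : E →ₗ[K] E}

theorem IsComp.zero : IsComp S ρ σ 0 0 := by
  intro h _ v
  rw [LinearMap.zero_apply]
  refine Finset.sum_eq_zero fun j _ => ?_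
  rw [LinearMap.zero_apply]
  exact h.map_coord_zero j (update_self _ _ _)

theorem IsComp.add (h1 : IsComp S ρ σ X Y) (h2 : IsComp S ρ σ X' Y') :
    IsComp S ρ σ (X + X') (Y + Y') := by
  intro h hh v
  simp only [LinearMap.add_apply, MultilinearMap.map_update_add, Finset.sum_add_distrib]
  rw [h1 h hh, h2 h hh]

theorem IsComp.smul (h1 : IsComp S ρ σ X Y) (c : K) : IsComp S ρ σ (c • X) (c • Y) := by
  intro h hh v
  simp only [LinearMap.smul_apply, MultilinearMap.map_update_smul]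
  rw [← Finset.smul_sum, h1 h hh]

/-- double sums -/
theorem comp_comp {h : MultilinearMap K (fun _ : S => T) E}
    (h1 : ∀ v : S → T, ∑ s, h (update v s (X (v s))) = Y (h v))
    (h2 : ∀ v : S → T, ∑ s, h (update v s (X' (v s))) = Y' (h v))
    (v : S → T) : ∑ i, (h (update v i (X (X' (v i)))) +
      ∑ j ∈ univ.erase i, h (update (update v i (X' (v i))) j (X (v j)))) = Y (Y' (h v)) := by
  rw [← h2, map_sum]
  refine Finset.sum_congr rfl fun i _ => ?_
  have h1 := h1 (update v i (X' (v i)))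
  rw [← Finset.add_sum_erase _ _ (Finset.mem_univ i), update_self, update_idem] at h1
  rw [← h1]
  congr 1
  refine Finset.sum_congr rfl fun j hj => ?_
  rw [update_of_ne (Finset.ne_of_mem_erase hj)]

theorem IsComp.bracket (h1 : IsComp S ρ σ X Y) (h2 : IsComp S ρ σ X' Y') :
    IsComp S ρ σ (X * X' - X' * X) (Y * Y' - Y' * Y) := by
  intro h hh v
  have h1 := h1 h hh
  have h2 := h2 h hh
  have e1 := comp_comp h1 h2 v
  have e2 := comp_comp h2 h1 v
  rw [Finset.sum_add_distrib] at e1 e2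
  have h3 : ∑ i, ∑ j ∈ univ.erase i, h (update (update v i (X' (v i))) j (X (v j))) =
      ∑ i, ∑ j ∈ univ.erase i, h (update (update v i (X (v i))) j (X' (v j))) := by
    rw [Finset.sum_comm' (s' := fun j => univ.erase j) (t' := univ) (by
      intro x y
      simp only [Finset.mem_univ, Finset.mem_erase, ne_eq, and_true, true_and]
      exact ⟨fun h h' => h h'.symm, fun h h' => h h'.symm⟩)]
    refine Finset.sum_congr rfl fun j _ => Finset.sum_congr rfl fun i hi => ?_
    rw [update_comm (Finset.ne_of_mem_erase hi)]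
  have h4 : ∀ j, h (update v j ((X * X' - X' * X) (v j))) = h (update v j (X (X' (v j)))) -
      h (update v j (X' (X (v j)))) := by
    intro j
    rw [LinearMap.sub_apply, MultilinearMap.map_update_sub]
    rfl
  rw [Finset.sum_congr rfl fun j _ => h4 j, Finset.sum_sub_distrib]
  rw [h3] at e1
  change _ = Y (Y' (h v)) - Y' (Y (h v))
  rw [← e1, ← e2]
  abel

theorem IsComp.conj (h1 : IsComp S ρ σ X Y) (γ : G) :
    IsComp S ρ σ (ρ γ * X * ρ γ⁻¹) (σ γ * Y * σ γ⁻¹) := by
  have hinv : ∀ x, ρ γ (ρ γ⁻¹ x) = x := by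
    intro x
    rw [← Module.End.mul_apply, ← map_mul, mul_inv_cancel, map_one]
    rfl
  have hinv' : ∀ x, σ γ (σ γ⁻¹ x) = x := by
    intro x
    rw [← Module.End.mul_apply, ← map_mul, mul_inv_cancel, map_one]
    rfl
  intro h hh v
  have h1 := h1 _ (eqv_twist hh γ) (fun j => ρ γ⁻¹ (v j))
  have h2 : σ γ⁻¹ (∑ j, h (update v j ((ρ γ * X * ρ γ⁻¹) (v j)))) = Y (σ γ⁻¹ (h v)) := by
    have h3 : ((σ γ⁻¹).compMultilinearMap (h.compLinearMap fun _ => ρ γ))
        (fun j => ρ γ⁻¹ (v j)) = σ γ⁻¹ (h v) := by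
      change σ γ⁻¹ (h fun i => ρ γ (ρ γ⁻¹ (v i))) = _
      congr 2
      funext i
      exact hinv _
    rw [← h3, ← h1, map_sum]
    refine Finset.sum_congr rfl fun j _ => ?_
    change _ = σ γ⁻¹ (h fun i => ρ γ (update (fun j => ρ γ⁻¹ (v j)) j (X (ρ γ⁻¹ (v j))) i))
    congr 2
    funext i
    by_cases hi : i = j
    · subst hi
      rw [update_self, update_self]
      rfl
    · rw [update_of_ne hi, update_of_ne hi, hinv]
  have h3 := congrArg (σ γ) h2
  rw [hinv'] at h3
  rw [h3]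
  rfl

/-- A linear map with a given graph. -/
theorem exists_of_graph [FiniteDimensional K E] (P : Submodule K (E × E))
    (hP : ∀ y, ((0 : E), y) ∈ P → y = 0) : ∃ Y : E →ₗ[K] E, ∀ p ∈ P, Y p.1 = p.2 := by
  let π : P →ₗ[K] E := LinearMap.fst K E E ∘ₗ P.subtype
  have hker : LinearMap.ker π = ⊥ := by
    rw [Submodule.eq_bot_iff]
    rintro ⟨⟨z, y⟩, hp⟩ h
    have hz : z = 0 := LinearMap.mem_ker.1 h
    subst hz
    have hy := hP y hp
    subst hy
    rfl
  obtain ⟨r, hr⟩ := LinearMap.exists_leftInverse_of_injective π hker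
  refine ⟨LinearMap.snd K E E ∘ₗ P.subtype ∘ₗ r, fun p hp => ?_⟩
  have h1 : r (π ⟨p, hp⟩) = ⟨p, hp⟩ := congrArg (fun f : P →ₗ[K] P => f ⟨p, hp⟩) hr
  change (P.subtype (r (π ⟨p, hp⟩))).2 = p.2
  rw [h1]
  rfl

/-- Unipotent elements. -/
theorem IsComp.unip [FiniteDimensional K E] {g : G} {N : T →ₗ[K] T}
    (hg : ∀ x, ρ g x = x + N x) (hN : ∀ x, N (N x) = 0) : ∃ Y, IsComp S ρ σ N Y := by
  have hpow : ∀ (n : ℕ) x, ρ (g ^ n) x = x + (n : K) • N x := by
    intro n
    induction n with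
    | zero =>
      intro x
      rw [pow_zero, map_one]
      simp
    | succ n ih =>
      intro x
      rw [pow_succ, map_mul, Module.End.mul_apply, hg, ih, map_add, hN, add_zero]
      push_cast
      module
  -- the property
  let Q : E × E → Prop := fun p => ∃ M : ℕ, 0 < M ∧ ∀ φ : E →ₗ[K] K, ∃ P : Polynomial K,
    P.coeff 1 = φ p.2 ∧ ∀ t : ℕ, P.eval ((M * t : ℕ) : K) = φ (σ (g ^ (M * t)) p.1)
  let GR : Submodule K (E × E) := Submodule.span K {p | ∃ h : MultilinearMap K (fun _ : S => T) E,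
    Eqv ρ σ h ∧ ∃ v : S → T, p = (h v, ∑ s, h (update v s (N (v s))))}
  have hQ : ∀ p ∈ GR, Q p := by
    intro p hp
    induction hp using Submodule.span_induction with
    | mem p hp =>
      obtain ⟨h, ⟨Δ, hΔ, hh⟩, v, rfl⟩ := hp
      obtain ⟨n, hn, hgn⟩ := exists_pow hΔ g
      refine ⟨n, hn, fun φ => ⟨pol h φ v (fun j => N (v j)) 0, pol_coeff h φ _ _ _, fun t => ?_⟩⟩
      have h3 : g ^ (n * t) ∈ Δ := by
        rw [pow_mul]
        exact Subgroup.pow_mem _ hgn t
      rw [pol_eval, ← hh _ h3 v]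
      congr 2
      funext j
      rw [hpow, Pi.zero_apply, smul_zero, add_zero]
    | zero =>
      refine ⟨1, one_pos, fun φ => ⟨0, ?_, fun t => ?_⟩⟩
      · rw [Polynomial.coeff_zero]
        exact (map_zero φ).symm
      · rw [Polynomial.eval_zero]
        change _ = φ (σ (g ^ (1 * t)) 0)
        rw [map_zero, map_zero]
    | add p q _ _ h1 h2 =>
      obtain ⟨M, hM, h1⟩ := h1
      obtain ⟨M', hM', h2⟩ := h2
      refine ⟨M * M', Nat.mul_pos hM hM', fun φ => ?_⟩
      obtain ⟨P, hP, hP'⟩ := h1 φ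
      obtain ⟨P', hQ, hQ'⟩ := h2 φ
      refine ⟨P + P', ?_, fun t => ?_⟩
      · rw [Polynomial.coeff_add, hP, hQ, ← map_add]
        rfl
      · have e1 := hP' (M' * t)
        have e2 := hQ' (M * t)
        have e3 : M * (M' * t) = M * M' * t := by ring
        have e4 : M' * (M * t) = M * M' * t := by ring
        rw [e3] at e1
        rw [e4] at e2
        rw [Polynomial.eval_add, e1, e2, ← map_add, ← map_add]
        rfl
    | smul c p _ h1 =>
      obtain ⟨M, hM, h1⟩ := h1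
      refine ⟨M, hM, fun φ => ?_⟩
      obtain ⟨P, hP, hP'⟩ := h1 φ
      refine ⟨c • P, ?_, fun t => ?_⟩
      · rw [Polynomial.coeff_smul, hP, ← map_smul]
        rfl
      · rw [Polynomial.eval_smul, hP', ← map_smul, ← map_smul]
        rfl
  obtain ⟨Y, hY⟩ := exists_of_graph GR fun y hy => by
    obtain ⟨M, hM, h1⟩ := hQ _ hy
    refine (Module.forall_dual_apply_eq_zero_iff K _).1 fun φ => ?_
    obtain ⟨P, hP, hP'⟩ := h1 φ
    have h0 : P = 0 := by
      refine Polynomial.eq_of_infinite_eval_eq _ _ ?_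
      refine Set.infinite_of_injective_forall_mem (f := fun t : ℕ => ((M * t : ℕ) : K)) ?_ ?_
      · intro l l' hl
        have h3 : ((M * l : ℕ) : K) = ((M * l' : ℕ) : K) := hl
        exact Nat.eq_of_mul_eq_mul_left hM (Nat.cast_injective h3)
      · intro t
        rw [Set.mem_ofPred_eq, hP', Polynomial.eval_zero]
        change φ (σ (g ^ (M * t)) 0) = 0
        rw [map_zero, map_zero]
    rw [h0, Polynomial.coeff_zero] at hP
    exact hP.symm
  exact ⟨Y, fun h hh v => (hY _ (Submodule.subset_span ⟨h, hh, v, rfl⟩)).symm⟩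

/-- Slope operators. -/
theorem IsComp.slope [IsAlgClosed K] [FiniteDimensional K T] [FiniteDimensional K E] {F : G}
    {θ : K → K} (hθ : IsAdditive θ) (hF : Injective (ρ F))
    {X : End K T} (hX : ∀ a, ∀ x ∈ Module.End.maxGenEigenspace (ρ F) a, X x = θ a • x) :
    ∃ Y, IsComp S ρ σ X Y := by
  obtain ⟨Y, hY⟩ := exists_op (σ F) θ
  refine ⟨Y, fun h hh v => ?_⟩
  obtain ⟨Δ, hΔ, h1⟩ := hh
  obtain ⟨M, hM, hFM⟩ := exists_pow hΔ F
  refine deriv_op (homOf hθ) (ρ F) hF (σ F) (fun β x hx => ?_) (fun β z hz => ?_) hM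
    (fun v => ?_) v
  · rw [ext0_homOf]
    exact hX β x hx
  · rw [ext0_homOf]
    exact hY β z hz
  · have h3 := h1 _ hFM v
    rw [map_pow, map_pow] at h3
    exact h3

end gen

end Pool.Agent.T9h39.Sb
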