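import Pool.Agent.T9h39.SbComp
import Pool.Agent.T9h39.CtLie

/-!
# Tate classes with values in small representations
-/

set_option linter.unusedSectionVars false

namespace Pool.Agent.T9h39.Sb

open Module Finset Function Pool.Agent.TH125.Gal Pool.Agent.TH118.SG Pool.Agent.T9h39.Rel
open Pool.Agent.V11219
open Pool.Agent.H204R3.SP (SS SS_apply SS_comm)

variable {K Γ : Type} [Field K] [CharZero K] [IsAlgClosed K] [Group Γ]
  {ι : Type} {V : ι → Type} [∀ i, AddCommGroup (V i)] [∀ i, Module K (V i)]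
  {H : Type} [AddCommGroup H] [Module K H]
  [∀ i, FiniteDimensional K (V i)] [FiniteDimensional K H] [Fintype ι]
  {χ : Γ →* Kˣ} {wt : ι → ℕ} {ρ : ∀ i, Representation K Γ (V i)}
  {B : ∀ i, V i →ₗ[K] V i →ₗ[K] K} {σ : Representation K Γ H} {j : ℕ}
  {S : Type} [Fintype S] [DecidableEq S]

/-- The Lie algebra of the skew families which act on the values of the equivariant maps. -/
noncomputable def ML (S : Type) [Fintype S] [DecidableEq S] (χ : Γ →* Kˣ) (j : ℕ)
    (ρ : ∀ i, Representation K Γ (V i)) (B : ∀ i, V i →ₗ[K] V i →ₗ[K] K)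
    (σ : Representation K Γ H) : Submodule K (∀ i, Module.End K (V i)) where
  carrier := {X | (∀ i, Gk.Sk (B i) (X i)) ∧
    ∃ Y, IsComp S (piRep ρ) (tw χ j σ) (dgl X) Y}
  zero_mem' := by
    refine ⟨fun i x y => ?_, 0, ?_⟩
    · change B i (0 : V i) y + B i x 0 = 0
      simp
    · rw [map_zero]
      exact IsComp.zero
  add_mem' := by
    rintro X Y ⟨h1, Y1, h3⟩ ⟨h1', Y1', h3'⟩
    refine ⟨fun i x y => ?_, Y1 + Y1', ?_⟩
    · change B i (X i x + Y i x) y + B i x (X i y + Y i y) = 0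
      rw [map_add, map_add, LinearMap.add_apply]
      linear_combination h1 i x y + h1' i x y
    · rw [map_add]
      exact h3.add h3'
  smul_mem' := by
    rintro c X ⟨h1, Y1, h3⟩
    refine ⟨fun i x y => ?_, c • Y1, ?_⟩
    · change B i (c • X i x) y + B i x (c • X i y) = 0
      rw [map_smul, map_smul, LinearMap.smul_apply, smul_eq_mul, smul_eq_mul]
      linear_combination c * h1 i x y
    · rw [map_smul]
      exact h3.smul c

theorem sk_bracket {X Y : ∀ i, Module.End K (V i)} (h1 : ∀ i, Gk.Sk (B i) (X i))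
    (h1' : ∀ i, Gk.Sk (B i) (Y i)) (i : ι) : Gk.Sk (B i) ((X * Y - Y * X) i) := by
  intro x y
  change B i (X i (Y i x) - Y i (X i x)) y + B i x (X i (Y i y) - Y i (X i y)) = 0
  rw [map_sub, map_sub, LinearMap.sub_apply]
  linear_combination h1 i (Y i x) y - h1' i (X i x) y + h1 i x (Y i y) - h1' i x (X i y)

theorem dgl_bracket (X Y : ∀ i, Module.End K (V i)) :
    dgl (X * Y - Y * X) = dgl X * dgl Y - dgl Y * dgl X := by
  rw [map_sub, dgl_mul, dgl_mul]

theorem ML_bracket {X Y : ∀ i, Module.End K (V i)} (hX : X ∈ ML S χ j ρ B σ)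
    (hY : Y ∈ ML S χ j ρ B σ) : X * Y - Y * X ∈ ML S χ j ρ B σ := by
  obtain ⟨h1, Y1, h3⟩ := hX
  obtain ⟨h1', Y1', h3'⟩ := hY
  refine ⟨sk_bracket h1 h1', Y1 * Y1' - Y1' * Y1, ?_⟩
  rw [dgl_bracket]
  exact h3.bracket h3'

theorem ML_conj (hact : ∀ i g v u, B i (ρ i g v) (ρ i g u) = (χ g : K) ^ wt i * B i v u)
    {X : ∀ i, Module.End K (V i)} (hX : X ∈ ML S χ j ρ B σ) (g : Γ) :
    (fun i => ρ i g * X i * ρ i g⁻¹) ∈ ML S χ j ρ B σ := by
  obtain ⟨h1, Y1, h3⟩ := hX
  refine ⟨fun i x y => ?_, _, h3.conj g⟩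
  have hinv : ∀ x, ρ i g (ρ i g⁻¹ x) = x := fun x => rinv g x
  have h2 := hact i g (X i (ρ i g⁻¹ x)) (ρ i g⁻¹ y)
  have h4 := hact i g (ρ i g⁻¹ x) (X i (ρ i g⁻¹ y))
  rw [hinv] at h2 h4
  have h5 := h1 i (ρ i g⁻¹ x) (ρ i g⁻¹ y)
  change B i (ρ i g (X i (ρ i g⁻¹ x))) y + B i x (ρ i g (X i (ρ i g⁻¹ y))) = 0
  rw [h2, h4, ← mul_add, h5, mul_zero]

/-- Local operators act on the values. -/
theorem local_comp {X : ∀ i, Module.End K (V i)}
    (hX : IsLocal χ ρ (Representation.trivial K Γ K) X) :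
    ∃ Y, IsComp S (piRep ρ) (tw χ j σ) (dgl X) Y := by
  induction hX with
  | unip g hχ hσ h =>
    refine IsComp.unip (g := g) (fun x => ?_) (fun x => ?_)
    · funext i
      rw [piRep_apply, Pi.add_apply, dgl_apply, LinearMap.sub_apply, Module.End.one_apply]
      abel
    · funext i
      exact congrArg (fun f : Module.End K (V i) => f (x i)) (h i)
  | slope F θ hθ hχ hσ X hX =>
    refine IsComp.slope (F := F) hθ (inj_of_rep (piRep ρ) F) fun β x hx => ?_
    funext i
    rw [dgl_apply, Pi.smul_apply]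
    refine hX i β _ ?_
    obtain ⟨n, hn⟩ := mem_gen.1 hx
    refine mem_gen.2 ⟨n, ?_⟩
    have h4 : ∀ n : ℕ, ∀ x : ∀ i, V i,
        (((piRep ρ F - algebraMap K (End K (∀ i, V i)) β) ^ n) x) i =
          ((ρ i F - algebraMap K (End K (V i)) β) ^ n) (x i) := by
      intro n
      induction n with
      | zero => intro x; rfl
      | succ n ih =>
        intro x
        rw [pow_succ, Module.End.mul_apply, ih, pow_succ, Module.End.mul_apply]
        rfl
    rw [← h4, hn]
    rfl
  | add X Y _ _ h1 h2 =>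
    obtain ⟨Y1, h1⟩ := h1
    obtain ⟨Y2, h2⟩ := h2
    exact ⟨_, by rw [map_add]; exact h1.add h2⟩
  | smul c X _ h1 =>
    obtain ⟨Y1, h1⟩ := h1
    exact ⟨_, by rw [map_smul]; exact h1.smul c⟩
  | bracket X Y _ _ h1 h2 =>
    obtain ⟨Y1, h1⟩ := h1
    obtain ⟨Y2, h2⟩ := h2
    exact ⟨_, by rw [dgl_bracket]; exact h1.bracket h2⟩
  | conj g X _ h1 =>
    obtain ⟨Y1, h1⟩ := h1
    exact ⟨_, h1.conj g⟩

theorem local_mem_ML (hact : ∀ i g v u, B i (ρ i g v) (ρ i g u) = (χ g : K) ^ wt i * B i v u)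
    {X : ∀ i, Module.End K (V i)} (hX : IsLocal χ ρ (Representation.trivial K Γ K) X) :
    X ∈ ML S χ j ρ B σ :=
  ⟨(local_mem (S := S) (j := j) hact hX).1, local_comp hX⟩

/-! ### The action on the values -/

/-- The span of the values of the equivariant maps. -/
noncomputable def US (S : Type) [Fintype S] [DecidableEq S] (χ : Γ →* Kˣ) (j : ℕ)
    (ρ : ∀ i, Representation K Γ (V i)) (σ : Representation K Γ H) : Submodule K H :=
  Submodule.span K {z | ∃ f : MultilinearMap K (fun _ : S => ∀ i, V i) H,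
    Eqv (piRep ρ) (tw χ j σ) f ∧ ∃ v, z = f v}

theorem mem_US {f : MultilinearMap K (fun _ : S => ∀ i, V i) H}
    (hf : Eqv (piRep ρ) (tw χ j σ) f) (v : S → ∀ i, V i) : f v ∈ US S χ j ρ σ :=
  Submodule.subset_span ⟨f, hf, v, rfl⟩

theorem comp_maps {X : Module.End K (∀ i, V i)} {Y : Module.End K H}
    (h : IsComp S (piRep ρ) (tw χ j σ) X Y) : ∀ z ∈ US S χ j ρ σ, Y z ∈ US S χ j ρ σ := by
  intro z hz
  induction hz using Submodule.span_induction with
  | mem z hz =>
    obtain ⟨f, hf, v, rfl⟩ := hz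
    rw [← h f hf v]
    exact Submodule.sum_mem _ fun s _ => mem_US hf _
  | zero => rw [map_zero]; exact zero_mem _
  | add x y _ _ h1 h2 => rw [map_add]; exact add_mem h1 h2
  | smul c x _ h1 => rw [map_smul]; exact Submodule.smul_mem _ _ h1

theorem comp_unique {X : Module.End K (∀ i, V i)} {Y Y' : Module.End K H}
    (h : IsComp S (piRep ρ) (tw χ j σ) X Y) (h' : IsComp S (piRep ρ) (tw χ j σ) X Y') :
    ∀ z ∈ US S χ j ρ σ, Y z = Y' z := by
  intro z hz
  induction hz using Submodule.span_induction with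
  | mem z hz =>
    obtain ⟨f, hf, v, rfl⟩ := hz
    rw [← h f hf v, ← h' f hf v]
  | zero => rw [map_zero, map_zero]
  | add x y _ _ h1 h2 => rw [map_add, map_add, h1, h2]
  | smul c x _ h1 => rw [map_smul, map_smul, h1]

/-- The companion. -/
noncomputable def cp (X : ML S χ j ρ B σ) : Module.End K H := X.2.2.choose

theorem cp_spec (X : ML S χ j ρ B σ) : IsComp S (piRep ρ) (tw χ j σ) (dgl X.1) (cp X) :=
  X.2.2.choose_spec

/-- The action. -/
noncomputable def act : ML S χ j ρ B σ →ₗ[K] Module.End K (US S χ j ρ σ) where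
  toFun X := (cp X).restrict (comp_maps (cp_spec X))
  map_add' X Y := by
    apply LinearMap.ext
    intro z
    apply Subtype.ext
    change cp (X + Y) z = cp X z + cp Y z
    refine comp_unique (cp_spec (X + Y)) (Y' := cp X + cp Y) ?_ z z.2
    have h1 : dgl (X + Y).1 = dgl X.1 + dgl Y.1 := map_add _ _ _
    rw [h1]
    exact (cp_spec X).add (cp_spec Y)
  map_smul' c X := by
    apply LinearMap.ext
    intro z
    apply Subtype.ext
    change cp (c • X) z = c • cp X z
    refine comp_unique (cp_spec (c • X)) (Y' := c • cp X) ?_ z z.2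
    have h1 : dgl (c • X).1 = c • dgl X.1 := map_smul _ _ _
    rw [h1]
    exact (cp_spec X).smul c

theorem act_bracket (X Y : ML S χ j ρ B σ) :
    act X * act Y - act Y * act X =
      act (⟨X.1 * Y.1 - Y.1 * X.1, ML_bracket X.2 Y.2⟩ : ML S χ j ρ B σ) := by
  apply LinearMap.ext
  intro z
  apply Subtype.ext
  change cp X (cp Y z) - cp Y (cp X z) =
    cp (⟨X.1 * Y.1 - Y.1 * X.1, ML_bracket X.2 Y.2⟩ : ML S χ j ρ B σ) z
  refine (comp_unique (cp_spec (⟨X.1 * Y.1 - Y.1 * X.1, ML_bracket X.2 Y.2⟩ : ML S χ j ρ B σ))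
    (Y' := cp X * cp Y - cp Y * cp X) ?_ z z.2).symm
  rw [dgl_bracket]
  exact (cp_spec X).bracket (cp_spec Y)

section full

variable [DecidableEq ι]
  (hfull : ∀ i u v, (Pi.single i (SS (B i) u v) : ∀ i, Module.End K (V i)) ∈ ML S χ j ρ B σ)

theorem single_bracket (i : ι) (X Y : Module.End K (V i)) :
    (Pi.single i X : ∀ i, Module.End K (V i)) * Pi.single i Y - Pi.single i Y * Pi.single i X =
      Pi.single i (X * Y - Y * X) := by
  rw [Pi.single_sub, Pi.single_mul, Pi.single_mul]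

/-- The representation. -/
noncomputable def TT (i : ι) : V i →ₗ[K] V i →ₗ[K] Module.End K (US S χ j ρ σ) :=
  LinearMap.mk₂ K (fun a b => act ⟨_, hfull i a b⟩)
    (fun a a' b => by
      rw [← map_add]
      congr 1
      apply Subtype.ext
      change (Pi.single i (SS (B i) (a + a') b) : ∀ i, Module.End K (V i)) =
        Pi.single i (SS (B i) a b) + Pi.single i (SS (B i) a' b)
      rw [Gk.SS_add_left, Pi.single_add])
    (fun c a b => by
      rw [← map_smul]
      congr 1
      apply Subtype.ext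
      change (Pi.single i (SS (B i) (c • a) b) : ∀ i, Module.End K (V i)) =
        c • (Pi.single i (SS (B i) a b) : ∀ i, Module.End K (V i))
      rw [Gk.SS_smul_left, Pi.single_smul])
    (fun a b b' => by
      rw [← map_add]
      congr 1
      apply Subtype.ext
      change (Pi.single i (SS (B i) a (b + b')) : ∀ i, Module.End K (V i)) =
        Pi.single i (SS (B i) a b) + Pi.single i (SS (B i) a b')
      rw [Gk.SS_add_right, Pi.single_add])
    (fun c a b => by
      rw [← map_smul]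
      congr 1
      apply Subtype.ext
      change (Pi.single i (SS (B i) a (c • b)) : ∀ i, Module.End K (V i)) =
        c • (Pi.single i (SS (B i) a b) : ∀ i, Module.End K (V i))
      rw [Gk.SS_smul_right, Pi.single_smul])

theorem TT_apply (i : ι) (a b : V i) : TT hfull i a b = act ⟨_, hfull i a b⟩ := rfl

include hfull

theorem TT_rep (halt : ∀ i v, B i v v = 0) (i : ι) : IsRep (B i) (TT hfull i) where
  symm a b := by
    rw [TT_apply, TT_apply]
    congr 1
    apply Subtype.ext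
    change (Pi.single i (SS (B i) a b) : ∀ i, Module.End K (V i)) = Pi.single i (SS (B i) b a)
    rw [SS_comm]
  br a b c d := by
    rw [TT_apply, TT_apply, TT_apply, TT_apply, act_bracket, ← map_add]
    congr 1
    apply Subtype.ext
    change (Pi.single i (SS (B i) a b) : ∀ i, Module.End K (V i)) * Pi.single i (SS (B i) c d) -
      Pi.single i (SS (B i) c d) * Pi.single i (SS (B i) a b) =
      Pi.single i (SS (B i) (SS (B i) a b c) d) + Pi.single i (SS (B i) c (SS (B i) a b d))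
    rw [single_bracket, Gk.br_SS (Gk.SS_sk (halt i) a b), Pi.single_add]

/-- **The values are killed by the large symplectic Lie algebras.** -/
theorem kill_small (halt : ∀ i v, B i v v = 0) (hnd : ∀ i v, (∀ u, B i v u = 0) → v = 0) {i : ι}
    (hdim : finrank K H < finrank K (V i)) {f : MultilinearMap K (fun _ : S => ∀ i, V i) H}
    (hf : Eqv (piRep ρ) (tw χ j σ) f) (u v : V i) (z : S → ∀ i, V i) :
    ∑ s, f (update z s (dgl (Pi.single i (SS (B i) u v)) (z s))) = 0 := by
  have h1 : finrank K (US S χ j ρ σ) < finrank K (V i) :=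
    lt_of_le_of_lt (Submodule.finrank_le _) hdim
  have h2 := eq_zero_of_dim (halt i) (TT_rep hfull halt i) (hnd i) h1 u v
  have h3 := congrArg (fun F : Module.End K (US S χ j ρ σ) => ((F ⟨f z, mem_US hf z⟩ : _) : H)) h2
  have h4 : cp (⟨_, hfull i u v⟩ : ML S χ j ρ B σ) (f z) = 0 := h3
  rw [cp_spec (⟨_, hfull i u v⟩ : ML S χ j ρ B σ) f hf z]
  exact h4

omit hfull

/-- The operators which kill the equivariant maps are an ideal. -/
theorem ML_LG {X Z : ∀ i, Module.End K (V i)} (hX : X ∈ ML S χ j ρ B σ)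
    (hZ : Z ∈ LG S χ j ρ B σ) : X * Z - Z * X ∈ LG S χ j ρ B σ := by
  obtain ⟨h1, Y1, h3⟩ := hX
  obtain ⟨h1', h3'⟩ := hZ
  refine ⟨sk_bracket h1 h1', fun x y => by simp, fun f hf v => ?_⟩
  have h4 : IsComp S (piRep ρ) (tw χ j σ) (dgl Z) 0 := fun f hf v => by
    rw [LinearMap.zero_apply]
    exact h3'.2 f hf v
  have h5 := (h3.bracket h4) f hf v
  rw [dgl_bracket, h5]
  simp

include hfull

theorem full_of_rel (halt : ∀ i v, B i v v = 0) (hnd : ∀ i v, (∀ u, B i v u = 0) → v = 0)
    {i : ι} {Z : ∀ i, Module.End K (V i)} (hZ : Z ∈ LG S χ j ρ B σ) (hZi : Z i ≠ 0)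
    (u v : V i) : (Pi.single i (SS (B i) u v) : ∀ i, Module.End K (V i)) ∈ LG S χ j ρ B σ := by
  let L : Submodule K (Module.End K (V i)) :=
    (LG S χ j ρ B σ).comap (LinearMap.single K (fun i => Module.End K (V i)) i)
  have hL : ∀ A, A ∈ L ↔ (Pi.single i A : ∀ i, Module.End K (V i)) ∈ LG S χ j ρ B σ :=
    fun A => Iff.rfl
  have hsk : ∀ A ∈ L, Gk.Sk (B i) A := by
    intro A hA
    have h1 := ((hL A).1 hA).1 i
    rwa [Pi.single_eq_same] at h1
  have hbr : ∀ u v, ∀ A ∈ L, SS (B i) u v * A - A * SS (B i) u v ∈ L := by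
    intro u v A hA
    rw [hL, ← single_bracket]
    exact ML_LG (hfull i u v) ((hL A).1 hA)
  have hstart : ∀ u v, SS (B i) u v * Z i - Z i * SS (B i) u v ∈ L := by
    intro u v
    rw [hL]
    have h1 := ML_LG (hfull i u v) hZ
    have h2 : (Pi.single i (SS (B i) u v) : ∀ i, Module.End K (V i)) * Z -
        Z * Pi.single i (SS (B i) u v) =
          Pi.single i (SS (B i) u v * Z i - Z i * SS (B i) u v) := by
      funext k
      rw [Pi.sub_apply, Pi.mul_apply, Pi.mul_apply]
      by_cases hk : k = i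
      · subst hk
        rw [Pi.single_eq_same, Pi.single_eq_same]
      · rw [Pi.single_eq_of_ne hk, Pi.single_eq_of_ne hk, zero_mul, mul_zero, sub_zero]
    rw [← h2]
    exact h1
  by_cases hc : ∀ u v, SS (B i) u v * Z i - Z i * SS (B i) u v = 0
  · exfalso
    apply hZi
    have hnt : Nontrivial (V i) := by
      by_contra h0
      rw [not_nontrivial_iff_subsingleton] at h0
      exact hZi (LinearMap.ext fun x => Subsingleton.elim _ _)
    obtain ⟨c, hc'⟩ := Gk.comm_scalar (halt i) (hnd i) (Q := Z i)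
      fun a => (sub_eq_zero.1 (hc a a)).symm
    obtain ⟨x, hx⟩ := exists_ne (0 : V i)
    obtain ⟨a, ha⟩ := Gk.exists_one (halt i) (hnd i) hx
    have h1 := hZ.1 i a x
    rw [hc', hc', map_smul, map_smul, LinearMap.smul_apply, ha, smul_eq_mul, mul_one] at h1
    have h2 : c = 0 := by
      have h3 : (2 : K) * c = 0 := by linear_combination h1
      exact (mul_eq_zero.1 h3).resolve_left two_ne_zero
    ext y
    rw [hc', h2, zero_smul, LinearMap.zero_apply]
  · push Not at hc
    obtain ⟨a, b, hab⟩ := hc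
    exact (hL _).1 (Gk.ideal_full (halt i) (hnd i) hsk hbr (hstart a b) hab u v)

end full

end Pool.Agent.T9h39.Sb
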