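import Mathlib
import Pool.Agent.V11219.GkSp

/-!
# Representations of the symplectic Lie algebra: the minimal dimension
-/

set_option linter.unusedSectionVars false

namespace Pool.Agent.T9h39.Sb

open Module Pool.Agent.V11219
open Pool.Agent.H204R3.SP (SS SS_apply SS_comm)

variable {K V U : Type} [Field K] [CharZero K] [IsAlgClosed K] [AddCommGroup V] [Module K V]
  [FiniteDimensional K V] [AddCommGroup U] [Module K U] [FiniteDimensional K U]

/-- A representation of the symplectic Lie algebra. -/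
structure IsRep (B : V →ₗ[K] V →ₗ[K] K) (T : V →ₗ[K] V →ₗ[K] Module.End K U) : Prop where
  symm : ∀ a b, T a b = T b a
  br : ∀ a b c d, T a b * T c d - T c d * T a b = T (SS B a b c) d + T c (SS B a b d)

/-- Shifts of generalized eigenspaces. -/
theorem shift {h C : Module.End K U} {ν μ : K} (hC : h * C - C * h = ν • C) {u : U}
    (hu : u ∈ h.maxGenEigenspace μ) : C u ∈ h.maxGenEigenspace (μ + ν) := by
  rw [Module.End.mem_maxGenEigenspace] at hu ⊢
  obtain ⟨k, hk⟩ := hu
  refine ⟨k, ?_⟩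
  have h1 : (h - (μ + ν) • (1 : Module.End K U)) * C = C * (h - μ • (1 : Module.End K U)) := by
    rw [sub_mul, mul_sub, sub_eq_iff_eq_add.1 hC, smul_mul_assoc, mul_smul_comm, one_mul, mul_one]
    module
  have h2 : ∀ k : ℕ, (h - (μ + ν) • (1 : Module.End K U)) ^ k * C =
      C * (h - μ • (1 : Module.End K U)) ^ k := by
    intro k
    induction k with
    | zero => rw [pow_zero, pow_zero, one_mul, mul_one]
    | succ k ih => rw [pow_succ, mul_assoc, h1, ← mul_assoc, ih, mul_assoc, ← pow_succ]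
  have h3 := congrArg (fun f : Module.End K U => f u) (h2 k)
  change ((h - (μ + ν) • (1 : Module.End K U)) ^ k) (C u) =
    C (((h - μ • (1 : Module.End K U)) ^ k) u) at h3
  rw [h3, hk, map_zero]

theorem disj {h : Module.End K U} {μ ν : K} (hμν : μ ≠ ν) {p q : Submodule K U}
    (hp : p ≤ h.maxGenEigenspace μ) (hq : q ≤ h.maxGenEigenspace ν) : Disjoint p q :=
  (h.disjoint_genEigenspace hμν ⊤ ⊤).mono hp hq

theorem dim_two {h : Module.End K U} {μ ν : K} (hμν : μ ≠ ν) {p q W : Submodule K U}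
    (hp : p ≤ h.maxGenEigenspace μ) (hq : q ≤ h.maxGenEigenspace ν) (hpW : p ≤ W) (hqW : q ≤ W) :
    finrank K p + finrank K q ≤ finrank K W := by
  have h1 := Submodule.finrank_sup_add_finrank_inf_eq p q
  rw [(disj hμν hp hq).eq_bot, finrank_bot, add_zero] at h1
  rw [← h1]
  exact Submodule.finrank_mono (sup_le hpW hqW)

theorem dim_three {h : Module.End K U} {μ ν ξ : K} (h12 : μ ≠ ν) (h13 : μ ≠ ξ) (h23 : ν ≠ ξ)
    {p q r W : Submodule K U} (hp : p ≤ h.maxGenEigenspace μ) (hq : q ≤ h.maxGenEigenspace ν)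
    (hr : r ≤ h.maxGenEigenspace ξ) (hpW : p ≤ W) (hqW : q ≤ W) (hrW : r ≤ W) :
    finrank K p + finrank K q + finrank K r ≤ finrank K W := by
  have h1 := Submodule.finrank_sup_add_finrank_inf_eq p q
  rw [(disj h12 hp hq).eq_bot, finrank_bot, add_zero] at h1
  have h2 := Submodule.finrank_sup_add_finrank_inf_eq r (p ⊔ q)
  have h3 : Disjoint r (p ⊔ q) := by
    refine (h.independent_maxGenEigenspace ξ).mono hr (sup_le ?_ ?_)
    · exact hp.trans (le_iSup₂_of_le μ h13 le_rfl)
    · exact hq.trans (le_iSup₂_of_le ν h23 le_rfl)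
  rw [h3.eq_bot, finrank_bot, add_zero] at h2
  have h4 : finrank K p + finrank K q + finrank K r = finrank K ↥(r ⊔ (p ⊔ q)) := by
    rw [h2, h1]
    ring
  rw [h4]
  exact Submodule.finrank_mono (sup_le hrW (sup_le hpW hqW))

/-- Hyperplane sections. -/
theorem dim_ker (W : Submodule K V) (φ : V →ₗ[K] K) :
    finrank K W ≤ finrank K ↥(W ⊓ LinearMap.ker φ) + 1 := by
  have h1 := (φ.domRestrict W).finrank_range_add_finrank_ker
  have h2 : finrank K (LinearMap.range (φ.domRestrict W)) ≤ 1 := by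
    have := Submodule.finrank_le (LinearMap.range (φ.domRestrict W))
    rwa [finrank_self] at this
  have h3 : finrank K (LinearMap.ker (φ.domRestrict W)) ≤ finrank K ↥(W ⊓ LinearMap.ker φ) := by
    have h4 : (LinearMap.ker (φ.domRestrict W)).map W.subtype ≤ W ⊓ LinearMap.ker φ := by
      rintro _ ⟨x, hx, rfl⟩
      exact ⟨x.2, hx⟩
    rw [← Submodule.finrank_map_subtype_eq W (LinearMap.ker (φ.domRestrict W))]
    exact Submodule.finrank_mono h4
  omega

section

variable {B : V →ₗ[K] V →ₗ[K] K} {T : V →ₗ[K] V →ₗ[K] Module.End K U}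

/-- The orthogonal complement of a hyperbolic pair. -/
def orth (B : V →ₗ[K] V →ₗ[K] K) (W : Submodule K V) (a b : V) : Submodule K V :=
  (W ⊓ LinearMap.ker (B a)) ⊓ LinearMap.ker (B b)

theorem mem_orth {W : Submodule K V} {a b x : V} :
    x ∈ orth B W a b ↔ (x ∈ W ∧ B a x = 0) ∧ B b x = 0 := Iff.rfl

theorem orth_dim (W : Submodule K V) (a b : V) :
    finrank K W ≤ finrank K (orth B W a b) + 2 := by
  have h1 := dim_ker W (B a)
  have h2 := dim_ker (W ⊓ LinearMap.ker (B a)) (B b)
  rw [orth]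
  omega

variable (halt : ∀ v, B v v = 0)

include halt

theorem orth_nondeg {W : Submodule K V} (hW : ∀ x ∈ W, (∀ y ∈ W, B x y = 0) → x = 0) {a b : V}
    (ha : a ∈ W) (hb : b ∈ W) (hab : B a b = 1) :
    ∀ x ∈ orth B W a b, (∀ y ∈ orth B W a b, B x y = 0) → x = 0 := by
  intro x hx h
  have hba : B b a = -1 := by rw [Gk.swap halt, hab]
  refine hW x hx.1.1 fun y hy => ?_
  have h1 : y + (B b y) • a - (B a y) • b ∈ orth B W a b := by
    refine mem_orth.2 ⟨⟨W.sub_mem (W.add_mem hy (W.smul_mem _ ha)) (W.smul_mem _ hb), ?_⟩, ?_⟩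
    · simp only [map_sub, map_add, map_smul, halt, hab, smul_eq_mul]
      ring
    · simp only [map_sub, map_add, map_smul, halt, hba, smul_eq_mul]
      ring
  have h2 := h _ h1
  have hxa : B x a = 0 := by rw [Gk.swap halt, (mem_orth.1 hx).1.2, neg_zero]
  have hxb : B x b = 0 := by rw [Gk.swap halt, (mem_orth.1 hx).2, neg_zero]
  simp only [map_sub, map_add, map_smul, hxa, hxb, smul_eq_mul, mul_zero, add_zero,
    sub_zero] at h2
  exact h2

/-- In a nondegenerate subspace there are dual vectors. -/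
theorem exists_dual {W : Submodule K V} (hW : ∀ x ∈ W, (∀ y ∈ W, B x y = 0) → x = 0) {a : V}
    (ha : a ∈ W) (ha0 : a ≠ 0) : ∃ b ∈ W, B a b = 1 := by
  have h1 : ∃ y ∈ W, B a y ≠ 0 := by
    by_contra hcon
    push Not at hcon
    exact ha0 (hW a ha hcon)
  obtain ⟨y, hy, hay⟩ := h1
  exact ⟨(B a y)⁻¹ • y, W.smul_mem _ hy, by rw [map_smul, smul_eq_mul, inv_mul_cancel₀ hay]⟩

/-- The dimension of a nonzero nondegenerate subspace. -/
theorem two_le {W : Submodule K V} {c d : V} (hc : c ∈ W) (hd : d ∈ W) (hcd : B c d = 1) :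
    2 ≤ finrank K W := by
  have hli : LinearIndependent K ![(⟨c, hc⟩ : W), ⟨d, hd⟩] := by
    rw [LinearIndependent.pair_iff]
    intro s t hst
    have h1 : s • c + t • d = 0 := congrArg Subtype.val hst
    have h2 := congrArg (B c) h1
    have h3 := congrArg (B d) h1
    simp only [map_add, map_smul, halt, hcd, map_zero, smul_eq_mul] at h2 h3
    rw [Gk.swap halt d c, hcd] at h3
    exact ⟨by linear_combination -h3, by linear_combination h2⟩
  have h2 := hli.fintype_card_le_finrank
  rwa [Fintype.card_fin] at h2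

variable (hT : IsRep B T)

include hT

variable {a b : V} (hab : B a b = 1)

include hab

theorem br_he : T a b * T b b - T b b * T a b = (2 : K) • T b b := by
  have hs : SS B a b b = b := by rw [SS_apply, hab, halt]; simp
  rw [hT.br, hs, two_smul]

theorem br_hf : T a b * T a a - T a a * T a b = (-2 : K) • T a a := by
  have hs : SS B a b a = -a := by rw [SS_apply, Gk.swap halt b a, hab, halt]; simp
  rw [hT.br, hs, map_neg, LinearMap.neg_apply, map_neg]
  module

theorem br_ef : T b b * T a a - T a a * T b b = (-4 : K) • T a b := by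
  have hs : SS B b b a = (-2 : K) • b := by
    rw [SS_apply, Gk.swap halt b a, hab]
    module
  rw [hT.br, hs, map_smul, LinearMap.smul_apply, map_smul, hT.symm b a]
  module

theorem br_hbc {c : V} (hac : B a c = 0) (hbc : B b c = 0) :
    T a b * T b c - T b c * T a b = (1 : K) • T b c := by
  have hs : SS B a b b = b := by rw [SS_apply, hab, halt]; simp
  have hs' : SS B a b c = 0 := by rw [SS_apply, hac, hbc]; simp
  rw [hT.br, hs, hs', map_zero, add_zero, one_smul]

theorem br_hac {c : V} (hac : B a c = 0) (hbc : B b c = 0) :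
    T a b * T a c - T a c * T a b = (-1 : K) • T a c := by
  have hs : SS B a b a = -a := by rw [SS_apply, Gk.swap halt b a, hab, halt]; simp
  have hs' : SS B a b c = 0 := by rw [SS_apply, hac, hbc]; simp
  rw [hT.br, hs, hs', map_zero, add_zero, map_neg, LinearMap.neg_apply]
  module

omit hab

theorem br_hcd {c d : V} (hac : B a c = 0) (hbc : B b c = 0) (had : B a d = 0)
    (hbd : B b d = 0) : T a b * T c d - T c d * T a b = (0 : K) • T c d := by
  have hs : SS B a b c = 0 := by rw [SS_apply, hac, hbc]; simp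
  have hs' : SS B a b d = 0 := by rw [SS_apply, had, hbd]; simp
  rw [hT.br, hs, hs', map_zero, map_zero, LinearMap.zero_apply, add_zero, zero_smul]

theorem comm_cd {c d : V} (hac : B a c = 0) (hbc : B b c = 0) (had : B a d = 0)
    (hbd : B b d = 0) (u : U) : T a b (T c d u) = T c d (T a b u) := by
  have h1 := br_hcd halt hT hac hbc had hbd
  rw [zero_smul, sub_eq_zero] at h1
  exact congrArg (fun f : Module.End K U => f u) h1

/-- A vector killed by all the `T b c` is killed by `T b b`. -/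
theorem kill_b {b c d : V} (hbc : B b c = 0) (hbd : B b d = 0) (hcd : B c d = 1) {u : U}
    (hc : T b c u = 0) (hd : T b d u = 0) : T b b u = 0 := by
  have hs : SS B b c b = 0 := by
    rw [SS_apply, halt, Gk.swap halt c b, hbc]
    simp
  have hs' : SS B b c d = b := by rw [SS_apply, hbd, hcd]; simp
  have h1 := congrArg (fun f : Module.End K U => f u) (hT.br b c b d)
  simp only [hs, hs', map_zero, LinearMap.zero_apply, zero_add, LinearMap.sub_apply,
    Module.End.mul_apply, hc, hd] at h1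
  rw [← h1, sub_self]

/-- The action on `T b c u`. -/
theorem act_bc {b c d c' : V} (hbc : B b c = 0) (hbd : B b d = 0) {u : U}
    (hu : T c d u = 0) : T c d (T b c' u) = T b (SS B c d c') u := by
  have hs : SS B c d b = 0 := by
    rw [SS_apply, Gk.swap halt c b, Gk.swap halt d b, hbc, hbd]
    simp
  have h1 := congrArg (fun f : Module.End K U => f u) (hT.br c d b c')
  simp only [hs, map_zero, LinearMap.zero_apply, zero_add, LinearMap.sub_apply,
    Module.End.mul_apply, hu, sub_zero] at h1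
  exact h1

/-- If `u` is killed by the symplectic Lie algebra of the complement and one `T b c` kills `u`, then
`T b b` kills `u`. -/
theorem kill_of_one {b : V} {W : Submodule K V} (hb : ∀ x ∈ W, B b x = 0)
    (hW : ∀ x ∈ W, (∀ y ∈ W, B x y = 0) → x = 0) {u : U} (hu : ∀ c ∈ W, ∀ d ∈ W, T c d u = 0)
    {c : V} (hc : c ∈ W) (hc0 : c ≠ 0) (hcu : T b c u = 0) : T b b u = 0 := by
  obtain ⟨d, hd, hcd⟩ := exists_dual halt hW hc hc0
  have hdc : B d c = -1 := by rw [Gk.swap halt, hcd]
  have h1 := act_bc halt hT (c' := c) (hb d hd) (hb d hd) (hu d hd d hd)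
  rw [hcu, map_zero] at h1
  have hs : SS B d d c = (-2 : K) • d := by
    rw [SS_apply, hdc]
    module
  rw [hs, map_smul, LinearMap.smul_apply] at h1
  have h2 : T b d u = 0 := (smul_eq_zero.1 h1.symm).resolve_left (by norm_num)
  exact kill_b halt hT (hb c hc) (hb d hd) hcd hcu h2

/-- If all the `T b c u` are killed by the symplectic Lie algebra of the complement, then `T b b`
kills `u`. -/
theorem kill_of_inv {b : V} {W : Submodule K V} (hb : ∀ x ∈ W, B b x = 0)
    (hW : ∀ x ∈ W, (∀ y ∈ W, B x y = 0) → x = 0) {u : U} (hu : ∀ c ∈ W, ∀ d ∈ W, T c d u = 0)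
    (h : ∀ c ∈ W, ∀ d ∈ W, ∀ e ∈ W, T c d (T b e u) = 0) {c : V} (hc : c ∈ W) (hc0 : c ≠ 0) :
    T b b u = 0 := by
  obtain ⟨d, hd, hcd⟩ := exists_dual halt hW hc hc0
  have h1 := act_bc halt hT (c' := d) (hb c hc) (hb c hc) (hu c hc c hc)
  rw [h c hc c hc d hd] at h1
  have hs : SS B c c d = (2 : K) • c := by
    rw [SS_apply, hcd]
    module
  rw [hs, map_smul, LinearMap.smul_apply] at h1
  have h2 : T b c u = 0 := (smul_eq_zero.1 h1.symm).resolve_left (by norm_num)
  exact kill_of_one halt hT hb hW hu hc hc0 h2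

/-- The map `c ↦ T a c u` is injective. -/
theorem inj_dim {a : V} {W : Submodule K V} (ha : ∀ x ∈ W, B a x = 0)
    (hW : ∀ x ∈ W, (∀ y ∈ W, B x y = 0) → x = 0) {u : U} (hu : ∀ c ∈ W, ∀ d ∈ W, T c d u = 0)
    (hau : T a a u ≠ 0) {G : Submodule K U} (hG : ∀ c ∈ W, T a c u ∈ G) :
    finrank K W ≤ finrank K G := by
  let φ : W →ₗ[K] G := LinearMap.codRestrict G
    ((LinearMap.applyₗ u : Module.End K U →ₗ[K] U) ∘ₗ (T a) ∘ₗ W.subtype) fun c => hG c c.2
  refine LinearMap.finrank_le_finrank_of_injective (f := φ) ?_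
  rw [← LinearMap.ker_eq_bot, Submodule.eq_bot_iff]
  intro c hc
  by_contra hc0
  have h1 : T a c u = 0 := congrArg Subtype.val (LinearMap.mem_ker.1 hc)
  exact hau (kill_of_one halt hT ha hW hu c.2 (fun h => hc0 (Subtype.ext h)) h1)

/-- **The minimal dimension of the nonzero representations.** -/
theorem dim_le : ∀ (n : ℕ) (W : Submodule K V), finrank K W = n →
    (∀ x ∈ W, (∀ y ∈ W, B x y = 0) → x = 0) →
    ∀ U' : Submodule K U, (∀ a ∈ W, ∀ b ∈ W, ∀ u ∈ U', T a b u ∈ U') →
    (∃ a ∈ W, ∃ b ∈ W, ∃ u ∈ U', T a b u ≠ 0) → finrank K W ≤ finrank K U' := by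
  intro n
  induction n using Nat.strong_induction_on with
  | _ n ih =>
  intro W hn hW U' hst hne
  -- a vector `a` with `T a a ≠ 0`
  obtain ⟨a, ha, u0, hu0, hau0⟩ : ∃ a ∈ W, ∃ u ∈ U', T a a u ≠ 0 := by
    by_contra hcon
    push Not at hcon
    obtain ⟨a, ha, b, hb, u, hu, h0⟩ := hne
    apply h0
    have h1 := hcon (a + b) (W.add_mem ha hb) u hu
    simp only [map_add, LinearMap.add_apply, hcon a ha u hu, hcon b hb u hu] at h1
    rw [hT.symm b a] at h1
    have h2 : (2 : K) • T a b u = 0 := by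
      rw [two_smul]
      simpa using h1
    exact (smul_eq_zero.1 h2).resolve_left two_ne_zero
  have ha0 : a ≠ 0 := by
    rintro rfl
    apply hau0
    simp
  obtain ⟨b, hb, hab⟩ := exists_dual halt hW ha ha0
  -- the pieces
  let G : K → Submodule K U := fun μ => U' ⊓ (T a b).maxGenEigenspace μ
  have hG : ∀ μ x, x ∈ G μ ↔ x ∈ U' ∧ x ∈ (T a b).maxGenEigenspace μ := fun μ x => Iff.rfl
  have hGU : ∀ μ, G μ ≤ U' := fun μ => inf_le_left
  have hGm : ∀ μ, G μ ≤ (T a b).maxGenEigenspace μ := fun μ => inf_le_right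
  have hshift : ∀ (C : Module.End K U) (ν μ : K), T a b * C - C * T a b = ν • C →
      (∀ u ∈ U', C u ∈ U') → ∀ u ∈ G μ, C u ∈ G (μ + ν) :=
    fun C ν μ hC hC' u hu => ⟨hC' u hu.1, shift hC hu.2⟩
  have hb2 : ∀ μ, ∀ u ∈ G μ, T b b u ∈ G (μ + 2) := fun μ =>
    hshift _ _ _ (br_he halt hT hab) (fun u hu => hst b hb b hb u hu)
  have ha2 : ∀ μ, ∀ u ∈ G μ, T a a u ∈ G (μ + -2) := fun μ =>
    hshift _ _ _ (br_hf halt hT hab) (fun u hu => hst a ha a ha u hu)
  have hinj : ∀ μ, μ ≠ 0 → ∀ u ∈ G μ, T a b u = 0 → u = 0 := by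
    intro μ hμ u hu h0
    have h1 : u ∈ (T a b).maxGenEigenspace 0 := by
      rw [Module.End.mem_maxGenEigenspace]
      exact ⟨1, by simpa using h0⟩
    exact Submodule.disjoint_def.1 ((T a b).disjoint_genEigenspace hμ ⊤ ⊤) u hu.2 h1
  -- a nonzero eigenvalue
  obtain ⟨μ, hμ0, u, hu, huz⟩ : ∃ μ : K, μ ≠ 0 ∧ ∃ u ∈ G μ, u ≠ 0 := by
    by_contra hcon
    push Not at hcon
    have h1 : U' = ⨆ μ, U' ⊓ (T a b).genEigenspace μ ⊤ :=
      Submodule.eq_iSup_inf_genEigenspace ⊤ (fun x hx => hst a ha b hb x hx)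
        (Module.End.iSup_maxGenEigenspace_eq_top (T a b))
    have h2 : (⨆ μ, U' ⊓ (T a b).genEigenspace μ ⊤) ≤ G 0 := by
      refine iSup_le fun μ => ?_
      by_cases hμ : μ = 0
      · subst hμ
        exact le_rfl
      · intro x hx
        rw [hcon μ hμ x hx]
        exact zero_mem _
    rw [← h1] at h2
    exact hau0 (hcon _ (by norm_num) _ (ha2 0 u0 (h2 hu0)))
  have hef : ∀ μ, μ ≠ 0 → ∀ z ∈ G μ, z ≠ 0 → T b b z ≠ 0 ∨ T a a z ≠ 0 := by
    intro μ hμ z hz hz0
    by_contra hcon
    push Not at hcon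
    obtain ⟨h1, h2⟩ := hcon
    have h3 := congrArg (fun f : Module.End K U => f z) (br_ef halt hT hab)
    simp only [LinearMap.sub_apply, Module.End.mul_apply, h1, h2, map_zero, sub_zero,
      LinearMap.smul_apply] at h3
    exact hz0 (hinj μ hμ z hz ((smul_eq_zero.1 h3.symm).resolve_left (by norm_num)))
  have hne0 : ∀ {μ : K} {z : U}, z ∈ G μ → z ≠ 0 → 1 ≤ finrank K (G μ) := by
    intro μ z hz hz0
    rw [Nat.one_le_iff_ne_zero]
    intro h0
    rw [Submodule.finrank_eq_zero] at h0
    rw [h0, Submodule.mem_bot] at hz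
    exact hz0 hz
  have hW' := orth_nondeg halt hW ha hb hab
  have hdim := orth_dim (B := B) W a b
  have hoa : ∀ x ∈ orth B W a b, B a x = 0 := fun x hx => hx.1.2
  have hob : ∀ x ∈ orth B W a b, B b x = 0 := fun x hx => hx.2
  have hoW : ∀ x ∈ orth B W a b, x ∈ W := fun x hx => hx.1.1
  by_cases hW0 : ∃ c ∈ orth B W a b, c ≠ 0
  swap
  · -- the complement is zero
    push Not at hW0
    have h0 : finrank K (orth B W a b) = 0 := by
      rw [Submodule.finrank_eq_zero, Submodule.eq_bot_iff]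
      exact hW0
    have h2 : 2 ≤ finrank K U' := by
      rcases hef μ hμ0 u hu huz with h1 | h1
      · have h3 := dim_two (h := T a b) (μ := μ) (ν := μ + 2) (by simp) (hGm μ) (hGm (μ + 2))
          (hGU μ) (hGU _)
        have h4 := hne0 hu huz
        have h5 := hne0 (hb2 μ u hu) h1
        omega
      · have h3 := dim_two (h := T a b) (μ := μ) (ν := μ + -2) (by simp) (hGm μ) (hGm (μ + -2))
          (hGU μ) (hGU _)
        have h4 := hne0 hu huz
        have h5 := hne0 (ha2 μ u hu) h1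
        omega
    omega
  · obtain ⟨c0, hc0, hc00⟩ := hW0
    obtain ⟨d0, hd0, hcd0⟩ := exists_dual halt hW' hc0 hc00
    have hW'2 := two_le halt hc0 hd0 hcd0
    have hlt : finrank K (orth B W a b) < n := by
      rw [← hn]
      refine Submodule.finrank_lt_finrank_of_lt (lt_of_le_of_ne (fun x hx => hoW x hx) ?_)
      intro h0
      have h1 : b ∈ orth B W a b := by rw [h0]; exact hb
      have h2 := hoa b h1
      rw [hab] at h2
      exact one_ne_zero h2
    have hstG : ∀ μ, ∀ c ∈ orth B W a b, ∀ d ∈ orth B W a b, ∀ x ∈ G μ, T c d x ∈ G μ := by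
      intro μ c hc d hd x hx
      have h1 := hshift (T c d) 0 μ (br_hcd halt hT (hoa c hc) (hob c hc) (hoa d hd) (hob d hd))
        (fun u hu => hst c (hoW c hc) d (hoW d hd) u hu) x hx
      rwa [add_zero] at h1
    by_cases hA : ∃ μ : K, μ ≠ 0 ∧ ∃ c ∈ orth B W a b, ∃ d ∈ orth B W a b, ∃ x ∈ G μ,
        T c d x ≠ 0
    · obtain ⟨μ, hμ, c, hc, d, hd, x, hx, hnz⟩ := hA
      have h1 := ih _ hlt (orth B W a b) rfl hW' (G μ) (hstG μ) ⟨c, hc, d, hd, x, hx, hnz⟩
      rcases hef μ hμ _ (hstG μ c hc d hd x hx) hnz with h2 | h2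
      · have h3 := ih _ hlt (orth B W a b) rfl hW' (G (μ + 2)) (hstG _)
          ⟨c, hc, d, hd, T b b x, hb2 μ x hx, by
            rw [comm_cd halt hT (a := c) (b := d)]
            · exact h2
            · rw [Gk.swap halt, hob c hc, neg_zero]
            · rw [Gk.swap halt, hob d hd, neg_zero]
            · rw [Gk.swap halt, hob c hc, neg_zero]
            · rw [Gk.swap halt, hob d hd, neg_zero]⟩
        have h4 := dim_two (h := T a b) (μ := μ) (ν := μ + 2) (by simp) (hGm μ) (hGm (μ + 2))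
          (hGU μ) (hGU _)
        omega
      · have h3 := ih _ hlt (orth B W a b) rfl hW' (G (μ + -2)) (hstG _)
          ⟨c, hc, d, hd, T a a x, ha2 μ x hx, by
            rw [comm_cd halt hT (a := c) (b := d)]
            · exact h2
            · rw [Gk.swap halt, hoa c hc, neg_zero]
            · rw [Gk.swap halt, hoa d hd, neg_zero]
            · rw [Gk.swap halt, hoa c hc, neg_zero]
            · rw [Gk.swap halt, hoa d hd, neg_zero]⟩
        have h4 := dim_two (h := T a b) (μ := μ) (ν := μ + -2) (by simp) (hGm μ)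
          (hGm (μ + -2)) (hGU μ) (hGU _)
        omega
    · push Not at hA
      have hbc : ∀ μ, ∀ x ∈ G μ, ∀ c ∈ orth B W a b, T b c x ∈ G (μ + 1) := fun μ x hx c hc =>
        hshift _ _ _ (br_hbc halt hT hab (hoa c hc) (hob c hc))
          (fun u hu => hst b hb c (hoW c hc) u hu) x hx
      have hac : ∀ μ, ∀ x ∈ G μ, ∀ c ∈ orth B W a b, T a c x ∈ G (μ + -1) := fun μ x hx c hc =>
        hshift _ _ _ (br_hac halt hT hab (hoa c hc) (hob c hc))
          (fun u hu => hst a ha c (hoW c hc) u hu) x hx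
      have hkb : ∀ μ, μ ≠ 0 → μ + 1 ≠ 0 → ∀ x ∈ G μ, T b b x = 0 := fun μ hμ hμ1 x hx =>
        kill_of_inv halt hT hob hW' (fun c hc d hd => hA μ hμ c hc d hd x hx)
          (fun c hc d hd e he => hA (μ + 1) hμ1 c hc d hd _ (hbc μ x hx e he)) hc0 hc00
      have hka : ∀ μ, μ ≠ 0 → μ + -1 ≠ 0 → ∀ x ∈ G μ, T a a x = 0 := fun μ hμ hμ1 x hx =>
        kill_of_inv halt hT hoa hW' (fun c hc d hd => hA μ hμ c hc d hd x hx)
          (fun c hc d hd e he => hA (μ + -1) hμ1 c hc d hd _ (hac μ x hx e he)) hc0 hc00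
      have hμ1 : μ = 1 ∨ μ = -1 := by
        by_contra hcon
        push Not at hcon
        have h1 := hkb μ hμ0 (fun h => hcon.2 (eq_neg_of_add_eq_zero_left h)) u hu
        have h2 := hka μ hμ0 (fun h => hcon.1 (by linear_combination h)) u hu
        rcases hef μ hμ0 u hu huz with h3 | h3
        · exact h3 h1
        · exact h3 h2
      rcases hμ1 with rfl | rfl
      · have h1 := hkb 1 one_ne_zero (by norm_num) u hu
        have h2 : T a a u ≠ 0 := (hef 1 one_ne_zero u hu huz).resolve_left fun h => h h1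
        have h3 := ha2 1 u hu
        have h4 := inj_dim halt hT (G := G (1 + -1)) hoa hW'
          (fun c hc d hd => hA 1 one_ne_zero c hc d hd u hu) h2
          (fun c hc => hac 1 u hu c hc)
        have h5 := hne0 hu huz
        have h6 := hne0 h3 h2
        have h7 := dim_three (h := T a b) (μ := 1) (ν := 1 + -2) (ξ := 1 + -1) (by norm_num)
          (by norm_num) (by norm_num) (hGm 1) (hGm _) (hGm _) (hGU 1) (hGU _) (hGU _)
        omega
      · have h1 := hka (-1) (by norm_num) (by norm_num) u hu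
        have h2 : T b b u ≠ 0 := (hef (-1) (by norm_num) u hu huz).resolve_right fun h => h h1
        have h3 := hb2 (-1) u hu
        have h4 := inj_dim halt hT (G := G (-1 + 1)) hob hW'
          (fun c hc d hd => hA (-1) (by norm_num) c hc d hd u hu) h2
          (fun c hc => hbc (-1) u hu c hc)
        have h5 := hne0 hu huz
        have h6 := hne0 h3 h2
        have h7 := dim_three (h := T a b) (μ := -1) (ν := -1 + 2) (ξ := -1 + 1) (by norm_num)
          (by norm_num) (by norm_num) (hGm _) (hGm _) (hGm _) (hGU _) (hGU _) (hGU _)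
        omega

/-- The representations of smaller dimension are zero. -/
theorem eq_zero_of_dim (hnd : ∀ u, (∀ v, B u v = 0) → u = 0) (h : finrank K U < finrank K V)
    (a b : V) : T a b = 0 := by
  by_contra h0
  obtain ⟨u, hu⟩ : ∃ u, T a b u ≠ 0 := by
    by_contra hcon
    push Not at hcon
    exact h0 (LinearMap.ext hcon)
  have h1 := dim_le halt hT _ (⊤ : Submodule K V) rfl (fun x _ hx => hnd x fun v => hx v trivial)
    (⊤ : Submodule K U) (fun _ _ _ _ _ _ => trivial) ⟨a, trivial, b, trivial, u, trivial, hu⟩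
  rw [finrank_top, finrank_top] at h1
  omega

end

end Pool.Agent.T9h39.Sb
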