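import Pool.Agent.T9h39.SbMain

/-!
# Tate classes with values in small representations, or separated by a local operator
-/

set_option linter.unusedSectionVars false

namespace Pool.Agent.T9h39.Sb

open Module Finset Function Pool.Agent.TH125.Gal Pool.Agent.TH118.SG Pool.Agent.T9h39.Rel
open Pool.Agent.V11219 Pool.Agent.T9h39.Ct
open Pool.Agent.H204R3.SP (SS SS_apply SS_comm)

variable {K Γ : Type} [Field K] [CharZero K] [IsAlgClosed K] [Group Γ]
  {ι : Type} {V : ι → Type} [∀ i, AddCommGroup (V i)] [∀ i, Module K (V i)]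
  {H : Type} [AddCommGroup H] [Module K H]
  [∀ i, FiniteDimensional K (V i)] [FiniteDimensional K H] [Fintype ι]
  {χ : Γ →* Kˣ} {wt : ι → ℕ} {ρ : ∀ i, Representation K Γ (V i)}
  {B : ∀ i, V i →ₗ[K] V i →ₗ[K] K} {σ : Representation K Γ H} {j : ℕ}
  {S : Type} [Fintype S] [DecidableEq S]

theorem fdefect (h : RelativeFamily χ wt ρ B (Representation.trivial K Γ K)) {i : ι}
    {N : ∀ i, Module.End K (V i)} {d : ℕ}
    (hd : IsDefect χ ρ (Representation.trivial K Γ K) i N d) :
    Gk.FDefect (ML S χ j ρ B σ) i N d := by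
  rcases hd with hd | ⟨N', hN', hN2, a, ha, hd⟩
  · exact Or.inl hd
  · exact Or.inr ⟨N', local_mem_ML h.act hN', hN2, a, ha, hd⟩

theorem lieFam (h : RelativeFamily χ wt ρ B (Representation.trivial K Γ K)) :
    Gk.LieFam (fun i => mul' χ (wt i)) ρ B (ML S χ j ρ B σ) where
  alt := h.alt
  nondeg := h.nondeg
  act i g v u := by rw [mul'_apply]; exact h.act i g v u
  irreducible := h.irreducible
  distinct := h.distinct
  br _ hX _ hY := ML_bracket hX hY
  conj g _ hX := ML_conj h.act hX g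
  sk _ hX i := hX.1 i
  small i := by
    rcases h.places i with ⟨N, hN, hN2, hd⟩ | ⟨⟨N, hN, hN2, hc⟩, hd⟩
    · refine Or.inl ⟨N, local_mem_ML h.act hN, hN2, ?_⟩
      rcases hd with hd | hd
      · left
        intro p hp
        obtain ⟨d, hd, hpd⟩ := hd p hp
        exact ⟨d, fdefect h hd, hpd⟩
      · exact Or.inr (fdefect h hd)
    · refine Or.inr ⟨N, local_mem_ML h.act hN, hN2, hc, fun p hp => ?_⟩
      obtain ⟨N', hN', hN2', d, hd, hpd⟩ := hd p hp
      exact ⟨N', local_mem_ML h.act hN', hN2', d, fdefect h hd, hpd⟩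

/-- All skew families act on the values. -/
def Full (S : Type) [Fintype S] [DecidableEq S] (χ : Γ →* Kˣ) (j : ℕ)
    (ρ : ∀ i, Representation K Γ (V i)) (B : ∀ i, V i →ₗ[K] V i →ₗ[K] K)
    (σ : Representation K Γ H) : Prop :=
  ∀ [DecidableEq ι], ∀ i u v,
    (Pi.single i (SS (B i) u v) : ∀ i, Module.End K (V i)) ∈ ML S χ j ρ B σ

theorem full_of_defects (h : RelativeFamily χ wt ρ B (Representation.trivial K Γ K)) :
    Full S χ j ρ B σ := by
  intro _ i u v
  exact (lieFam h).single_mem i u v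

theorem full_of_quartic (h : PolarizedFamily χ wt ρ B (Representation.trivial K Γ K))
    (hQ : QuarticTate χ wt ρ B) : Full S χ j ρ B σ := by
  intro _ i u v
  have hb : Ct.Base χ wt ρ B := ⟨h.alt, h.nondeg, h.act, h.irreducible, hQ⟩
  refine lie_full hb (fun X hX Y hY => ML_bracket hX hY) (fun g X hX => ML_conj h.act hX g)
    (fun X hX i => hX.1 i) (fun i => ?_) fun k => ?_
  · obtain ⟨X, hX, hXi⟩ := h.moves i
    exact ⟨X, local_mem_ML h.act hX, hXi⟩
  · by_cases hk : k = i
    · subst hk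
      rw [Pi.single_eq_same]
      exact Gk.SS_sk (h.alt k) u v
    · rw [Pi.single_eq_of_ne hk]
      intro x y
      simp

section tate

variable (halt : ∀ i v, B i v v = 0) (hnd : ∀ i v, (∀ u, B i v u = 0) → v = 0)
  (hact : ∀ i g v u, B i (ρ i g v) (ρ i g u) = (χ g : K) ^ wt i * B i v u)
  (hZ : ∀ i, finrank K H < finrank K (V i) ∨ ∃ X, IsLocal χ ρ σ X ∧ X i ≠ 0)

include halt hnd hact hZ

/-- The symplectic Lie algebras kill the Tate classes. -/
theorem killAll [DecidableEq ι] (hfull : Full S χ j ρ B σ) {Δ : Subgroup Γ}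
    (hΔ : Δ.FiniteIndex) {f : MultilinearMap K (fun _ : S => ∀ i, V i) H}
    (hf : IsTateMap χ ρ σ Δ j f) : Gk.KillAll B f := by
  intro i u v z
  have hE : Eqv (piRep ρ) (tw χ j σ) f := ⟨Δ, hΔ, fun g hg x => hf g hg x⟩
  have h2 : ∑ s, f (update z s (dgl (Pi.single i (SS (B i) u v)) (z s))) = 0 := by
    rcases hZ i with hd | ⟨Z, hZ, hZi⟩
    · exact kill_small (fun i u v => hfull i u v) halt hnd hd hE u v z
    · exact (full_of_rel (fun i u v => hfull i u v) halt hnd (local_mem hact hZ) hZi u v).2.2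
        f hE z
  refine Eq.trans (Finset.sum_congr rfl fun s _ => ?_) h2
  congr 2
  funext k
  rw [dgl_apply]
  by_cases hk : k = i
  · subst hk
    rw [Pi.single_eq_same, Pi.single_eq_same]
  · rw [Pi.single_eq_of_ne hk, Pi.single_eq_of_ne hk]
    rfl

/-- **The structure of the Tate classes.** -/
theorem tate_iff (hfull : Full S χ j ρ B σ) {Δ : Subgroup Γ}
    (hΔ : Δ.FiniteIndex) (f : MultilinearMap K (fun _ : S => ∀ i, V i) H) :
    IsTateMap χ ρ σ Δ j f ↔ IsProductOfPairings χ wt B σ Δ j f := by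
  classical
  have hB : Gk.Base (fun i => mul' χ (wt i)) ρ B :=
    ⟨halt, hnd, fun i g v u => by rw [mul'_apply]; exact hact i g v u⟩
  have hconv : Sm.ClassesSplit (fun i => mul' χ (wt i)) B (tw χ j σ) Δ f ↔
      IsProductOfPairings χ wt B σ Δ j f := by
    rw [Sm.ClassesSplit, IsProductOfPairings]
    simp only [mul'_apply, tw_apply]
  exact ⟨fun hf => hconv.1 (hB.split (killAll halt hnd hact hZ hfull hΔ hf)
    fun g hg x => hf g hg x), products halt hnd hact⟩

/-- Algebraic classes. -/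
theorem algebraic_of (hfull : Full S χ j ρ B σ) {Δ : Subgroup Γ}
    (hΔ : Δ.FiniteIndex) {f : MultilinearMap K (fun _ : S => ∀ i, V i) H} {Alg : Submodule K H}
    (hAlg : ∀ (m : ℕ) (z : H), (∀ g ∈ Δ, (χ g : K) ^ j • σ g z = (χ g : K) ^ m • z) → z ∈ Alg)
    (hf : IsTateMap χ ρ σ Δ j f) : f ∈ Submodule.span K {u | PairingTimes B Alg u} := by
  refine Submodule.span_mono ?_ ((tate_iff halt hnd hact hZ hfull hΔ f).1 hf)
  rintro u ⟨m, e, c, z, hz, hx⟩
  refine ⟨m, e, c, z, hAlg (∑ l, wt (c l)) z fun g hg => ?_, hx⟩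
  rw [hz g hg, Finset.prod_pow_eq_pow_sum]

end tate

end Pool.Agent.T9h39.Sb
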