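import Pool.Agent.T9h39.TDRep

/-!
# Operators of prime order with rational trace
-/

open Module Polynomial

namespace Pool.Agent.T9h39.TD

section order

variable {K : Type} [Field K] [CharZero K] {W : Type} [AddCommGroup W] [Module K W]
  [FiniteDimensional K W]

lemma ker_eq {f : End K W} {r : ℕ} (hr : r ≠ 0) (hf : f ^ r = 1) :
    End.maxGenEigenspace f 1 = LinearMap.ker (f - 1) := by
  apply le_antisymm
  · intro x hx
    rw [End.mem_maxGenEigenspace] at hx
    obtain ⟨k, hk⟩ := hx
    rw [one_smul] at hk
    set Ψ : K[X] := ∑ i ∈ Finset.range r, X ^ i with hΨ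
    have hgeom : Ψ * (X - 1) = X ^ r - 1 := geom_sum_mul X r
    have hcop : IsCoprime ((X - 1 : K[X]) ^ k) Ψ := by
      have hirr : Irreducible (X - 1 : K[X]) := by rw [← C_1]; exact irreducible_X_sub_C 1
      refine ((hirr.coprime_iff_not_dvd).2 ?_).pow_left
      rw [← C_1, dvd_iff_isRoot]
      intro h
      have h1 : Ψ.eval 1 = (r : K) := by simp [hΨ, eval_finset_sum]
      rw [IsRoot, h1] at h
      exact hr (by exact_mod_cast h)
    obtain ⟨a, b, hab⟩ := hcop
    have hX : aeval f (X - 1 : K[X]) = f - 1 := by rw [map_sub, aeval_X, map_one]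
    have e1 : (f - 1) * (f - 1) ^ k = (f - 1) ^ k * (f - 1) := by
      rw [← pow_succ', ← pow_succ]
    have e2 : ((f - 1) ^ k) ((f - 1) x) = 0 := by
      rw [← Module.End.mul_apply, ← e1, Module.End.mul_apply, hk, map_zero]
    have e3 : aeval f Ψ ((f - 1) x) = 0 := by
      rw [← Module.End.mul_apply, ← hX, ← map_mul, hgeom, map_sub, map_pow, aeval_X, map_one, hf,
        sub_self]
      rfl
    have h1 := congrArg (fun p : K[X] => aeval f p ((f - 1) x)) hab
    simp only [map_add, map_mul, map_one, map_pow] at h1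
    rw [LinearMap.add_apply, Module.End.mul_apply, Module.End.mul_apply, hX, e2, e3, map_zero,
      map_zero, add_zero] at h1
    exact h1.symm
  · intro x hx
    rw [End.mem_maxGenEigenspace]
    refine ⟨1, ?_⟩
    rw [pow_one, one_smul]
    exact hx

/-- An operator of prime order `r` with rational trace: `r - 1` divides the codimension of the
space of the fixed vectors. -/
theorem congr_aux (L : Type) [Field L] [CharZero L] [Algebra K L] [IsAlgClosed L] {f : End K W}
    {r : ℕ} (hr : r.Prime) (hf : f ^ r = 1) (htr : IsRat (LinearMap.trace K W f)) :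
    ∃ m : ℕ, finrank K W = finrank K (LinearMap.ker (f - 1)) + m * (r - 1) := by
  classical
  have : Fact r.Prime := ⟨hr⟩
  let g : End L (TensorProduct K L W) := f.baseChange L
  have hg : g ^ r = 1 := by
    have h1 : ∀ n : ℕ, g ^ n = (f ^ n).baseChange L := by
      intro n
      induction n with
      | zero => rw [pow_zero, pow_zero]; exact LinearMap.baseChange_id.symm
      | succ n ih =>
        rw [pow_succ, pow_succ, ih]
        exact (LinearMap.baseChange_comp _ _).symm
    rw [h1, hf]
    exact LinearMap.baseChange_id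
  obtain ⟨q, hq⟩ := htr
  have hgt : LinearMap.trace L _ g = (q : L) := by
    have h1 : LinearMap.trace L _ g = algebraMap K L (LinearMap.trace K W f) :=
      LinearMap.trace_baseChange f L
    rw [h1, hq, map_ratCast]
  set R := g.charpoly.roots with hR
  have hsplit : g.charpoly.Splits := IsAlgClosed.splits _
  have hsum : R.sum = (q : L) := by
    rw [← hgt, Module.End.trace_eq_sum_roots_charpoly_of_splits hsplit]
  have hcard : Multiset.card R = finrank K W := by
    rw [hR, hsplit.natDegree_eq_card_roots.symm, LinearMap.charpoly_natDegree]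
    exact Module.finrank_baseChange
  have hroot : ∀ z ∈ R, z ^ r = 1 := by
    intro z hz
    have h1 : g.charpoly.IsRoot z := isRoot_of_mem_roots hz
    rw [← Module.End.hasEigenvalue_iff_isRoot_charpoly] at h1
    obtain ⟨v, hv⟩ := h1.exists_hasEigenvector
    have h3 : (X ^ r - 1 : L[X]).eval z • v = 0 := by
      rw [← End.aeval_apply_of_hasEigenvector hv, map_sub, map_pow, aeval_X, map_one, hg,
        sub_self]
      rfl
    rcases smul_eq_zero.1 h3 with h | h
    · rw [eval_sub, eval_pow, eval_X, eval_one] at h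
      exact sub_eq_zero.1 h
    · exact absurd h hv.2
  have : NeZero (r : L) := ⟨by exact_mod_cast hr.ne_zero⟩
  obtain ⟨ζ, hζ⟩ := IsAlgClosed.exists_root (cyclotomic r L)
    (by rw [degree_cyclotomic]; exact_mod_cast (Nat.totient_pos.2 hr.pos).ne')
  rw [isRoot_cyclotomic_iff] at hζ
  have hinj : Set.InjOn (fun j => ζ ^ j) (Finset.range r : Set ℕ) := by
    intro a ha b hb hab
    exact hζ.pow_inj (Finset.mem_range.1 ha) (Finset.mem_range.1 hb) hab
  set s := (Finset.range r).image (fun j => ζ ^ j) with hs
  have hsub : R.toFinset ⊆ s := by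
    intro z hz
    obtain ⟨i, hi, hz'⟩ := hζ.eq_pow_of_pow_eq_one (hroot z (Multiset.mem_toFinset.1 hz))
    exact Finset.mem_image.2 ⟨i, Finset.mem_range.2 hi, hz'⟩
  set c : ℕ → ℕ := fun j => R.count (ζ ^ j) with hc
  have hsum2 : R.sum = ∑ j ∈ Finset.range r, (c j : L) * ζ ^ j := by
    rw [Finset.sum_multiset_count_of_subset R s hsub, hs, Finset.sum_image hinj]
    exact Finset.sum_congr rfl fun j _ => nsmul_eq_mul _ _
  have hcard2 : Multiset.card R = ∑ j ∈ Finset.range r, c j := by
    rw [← Multiset.sum_count_eq_card (s := s) (fun z hz => hsub (Multiset.mem_toFinset.2 hz)), hs,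
      Finset.sum_image hinj]
  -- the rational polynomial
  set P : ℚ[X] := (∑ j ∈ Finset.range r, C (c j : ℚ) * X ^ j) - C q with hP
  have hPζ : aeval ζ P = 0 := by
    rw [hP, map_sub, map_sum, aeval_C, sub_eq_zero]
    have h1 : ∀ j ∈ Finset.range r, aeval ζ (C (c j : ℚ) * X ^ j) = (c j : L) * ζ ^ j := by
      intro j _
      rw [map_mul, aeval_C, map_pow, aeval_X, map_natCast]
    rw [Finset.sum_congr rfl h1, ← hsum2, hsum]
    rfl
  have hdvd : cyclotomic r ℚ ∣ P := by
    rw [cyclotomic_eq_minpoly_rat hζ hr.pos]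
    exact minpoly.dvd ℚ ζ hPζ
  have hcoeff : ∀ j, 1 ≤ j → j < r → P.coeff j = c j := by
    intro j hj hjr
    rw [hP, coeff_sub, finsetSum_coeff, coeff_C_of_ne_zero (by omega), sub_zero,
      Finset.sum_eq_single j]
    · rw [coeff_C_mul, coeff_X_pow_self, mul_one]
    · intro i _ hij
      rw [coeff_C_mul, coeff_X_pow, if_neg (fun h => hij h.symm), mul_zero]
    · intro h
      exact absurd (Finset.mem_range.2 hjr) h
  have hPdeg : P.natDegree < r := by
    rw [hP]
    refine lt_of_le_of_lt (natDegree_sub_le _ _) (max_lt ?_ ?_)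
    · refine lt_of_le_of_lt (natDegree_sum_le_of_forall_le (n := r - 1) _ _ fun j hj => ?_) ?_
      · refine (natDegree_C_mul_X_pow_le _ _).trans ?_
        have := Finset.mem_range.1 hj
        omega
      · have := hr.pos
        omega
    · rw [natDegree_C]
      exact hr.pos
  obtain ⟨u, hu⟩ := hdvd
  have hconst : ∃ d : ℚ, P = cyclotomic r ℚ * C d := by
    by_cases hu0 : u = 0
    · exact ⟨0, by rw [hu, hu0, C_0]⟩
    · have h1 : P.natDegree = (r - 1) + u.natDegree := by
        rw [hu, natDegree_mul (cyclotomic_ne_zero r ℚ) hu0, natDegree_cyclotomic,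
          Nat.totient_prime hr]
      have h2 : u.natDegree = 0 := by omega
      exact ⟨u.coeff 0, by rw [hu]; congr 1; exact eq_C_of_natDegree_eq_zero h2⟩
  obtain ⟨d, hd⟩ := hconst
  have hcc : ∀ j, 1 ≤ j → j < r → (c j : ℚ) = d := by
    intro j hj hjr
    rw [← hcoeff j hj hjr, hd, coeff_mul_C, cyclotomic_prime, finsetSum_coeff,
      Finset.sum_eq_single j]
    · rw [coeff_X_pow_self, one_mul]
    · intro i _ hij
      rw [coeff_X_pow, if_neg (fun h => hij h.symm)]
    · intro h
      exact absurd (Finset.mem_range.2 hjr) h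
  have hc1 : ∀ j ∈ Finset.Ico 1 r, c j = c 1 := by
    intro j hj
    rw [Finset.mem_Ico] at hj
    have h1 := hcc j hj.1 hj.2
    have h2 := hcc 1 le_rfl hr.one_lt
    rw [← h2] at h1
    exact_mod_cast h1
  have hfix : c 0 = finrank K (LinearMap.ker (f - 1)) := by
    rw [← ker_eq hr.ne_zero hf, LinearMap.finrank_maxGenEigenspace_eq, hc]
    change R.count (ζ ^ 0) = _
    rw [pow_zero, hR, count_roots]
    have h1 : g.charpoly = f.charpoly.map (algebraMap K L) := LinearMap.charpoly_baseChange f L
    rw [h1, ← map_one (algebraMap K L)]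
    exact (eq_rootMultiplicity_map (algebraMap K L).injective 1).symm
  refine ⟨c 1, ?_⟩
  rw [← hcard, hcard2, ← hfix, Finset.range_eq_Ico, Finset.sum_eq_sum_Ico_succ_bot hr.pos,
    Finset.sum_congr rfl hc1, Finset.sum_const, Nat.card_Ico, smul_eq_mul, mul_comm]

theorem congr {f : End K W} {r : ℕ} (hr : r.Prime) (hf : f ^ r = 1)
    (htr : IsRat (LinearMap.trace K W f)) :
    ∃ m : ℕ, finrank K W = finrank K (LinearMap.ker (f - 1)) + m * (r - 1) :=
  have : CharZero (AlgebraicClosure K) :=
    charZero_of_injective_algebraMap (algebraMap K (AlgebraicClosure K)).injective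
  congr_aux (AlgebraicClosure K) hr hf htr

end order

section partition

variable {K G W : Type} [Field K] [CharZero K] [Group G] [Finite G] [AddCommGroup W] [Module K W]
  (τ : Rep K G W)

/-- A representation of a group with a partition in which no member of the partition has fixed
vectors is zero. -/
lemma eq_zero_of_partition [Nontrivial G] {P : Set (Subgroup G)} (hP : IsPartition P)
    (h : ∀ S ∈ P, ∀ x ∈ fixed τ S, x = 0) (x : W) : x = 0 := by
  classical
  have := Fintype.ofFinite G
  have := Fintype.ofFinite (Subgroup G)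
  -- the sums over the subgroups
  have hsum : ∀ S ∈ P, ∑ g ∈ Finset.univ.filter (fun g => g ∈ S), τ.act g x = 0 := by
    intro S hS
    apply h S hS
    intro a ha
    rw [map_sum]
    refine Finset.sum_nbij' (fun g => a * g) (fun g => a⁻¹ * g) ?_ ?_ ?_ ?_ ?_
    · intro g hg
      simp only [Finset.mem_filter, Finset.mem_univ, true_and] at hg ⊢
      exact S.mul_mem ha hg
    · intro g hg
      simp only [Finset.mem_filter, Finset.mem_univ, true_and] at hg ⊢
      exact S.mul_mem (S.inv_mem ha) hg
    · intro g _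
      exact inv_mul_cancel_left a g
    · intro g _
      exact mul_inv_cancel_left a g
    · intro g _
      rw [τ.mul]
  obtain ⟨g₀, hg₀⟩ := exists_ne (1 : G)
  obtain ⟨S₀, ⟨hS₀, hgS₀⟩, -⟩ := hP.cover g₀ hg₀
  -- the sum over the group
  have htot : ∑ g : G, τ.act g x = 0 := by
    apply h S₀ hS₀
    intro a _
    rw [map_sum]
    refine Fintype.sum_equiv (Equiv.mulLeft a) _ _ fun g => ?_
    rw [Equiv.coe_mulLeft, τ.mul]
  -- another member
  obtain ⟨g₁, hg₁⟩ : ∃ g, g ∉ S₀ := by
    by_contra hcon
    push Not at hcon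
    exact hP.top S₀ hS₀ (by rw [Subgroup.eq_top_iff']; exact hcon)
  have hg₁' : g₁ ≠ 1 := by
    rintro rfl
    exact hg₁ S₀.one_mem
  obtain ⟨S₁, ⟨hS₁, hgS₁⟩, -⟩ := hP.cover g₁ hg₁'
  set Q : Finset (Subgroup G) := Finset.univ.filter (fun S => S ∈ P) with hQ
  have hcard : 1 < Q.card := by
    rw [Finset.one_lt_card]
    refine ⟨S₀, by simpa [hQ] using hS₀, S₁, by simpa [hQ] using hS₁, ?_⟩
    rintro rfl
    exact hg₁ hgS₁
  have key : ∑ S ∈ Q, ∑ g ∈ Finset.univ.filter (fun g => g ∈ S), τ.act g x =
      (∑ g : G, τ.act g x) + (Q.card - 1 : ℕ) • x := by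
    have h1 : ∀ S ∈ Q, ∑ g ∈ Finset.univ.filter (fun g => g ∈ S), τ.act g x =
        x + ∑ g ∈ Finset.univ.filter (fun g => g ∈ S ∧ g ≠ 1), τ.act g x := by
      intro S _
      have h2 : Finset.univ.filter (fun g => g ∈ S) =
          insert 1 (Finset.univ.filter (fun g => g ∈ S ∧ g ≠ 1)) := by
        ext g
        simp only [Finset.mem_filter, Finset.mem_univ, true_and, Finset.mem_insert]
        constructor
        · intro hg
          by_cases h3 : g = 1
          · exact Or.inl h3
          · exact Or.inr ⟨hg, h3⟩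
        · rintro (rfl | hg)
          · exact S.one_mem
          · exact hg.1
      rw [h2, Finset.sum_insert (by simp), τ.one]
    rw [Finset.sum_congr rfl h1, Finset.sum_add_distrib, Finset.sum_const]
    have h3 : ∑ S ∈ Q, ∑ g ∈ Finset.univ.filter (fun g => g ∈ S ∧ g ≠ 1), τ.act g x =
        ∑ g ∈ Finset.univ.filter (fun g : G => g ≠ 1), τ.act g x := by
      rw [Finset.sum_comm' (t' := Finset.univ.filter (fun g : G => g ≠ 1))
        (s' := fun g => Q.filter (fun S => g ∈ S))]
      · refine Finset.sum_congr rfl fun g hg => ?_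
        simp only [Finset.mem_filter, Finset.mem_univ, true_and] at hg
        obtain ⟨S, ⟨hS, hgS⟩, hu⟩ := hP.cover g hg
        have h4 : Q.filter (fun S => g ∈ S) = {S} := by
          ext T
          simp only [hQ, Finset.mem_filter, Finset.mem_univ, true_and, Finset.mem_singleton]
          constructor
          · intro hT
            exact hu T hT
          · rintro rfl
            exact ⟨hS, hgS⟩
        rw [h4, Finset.sum_singleton]
      · intro S g
        simp only [Finset.mem_filter, Finset.mem_univ, true_and]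
        tauto
    have h5 : ∑ g : G, τ.act g x = x + ∑ g ∈ Finset.univ.filter (fun g : G => g ≠ 1), τ.act g x := by
      have h6 : (Finset.univ : Finset G) = insert 1 (Finset.univ.filter (fun g : G => g ≠ 1)) := by
        ext g
        simp only [Finset.mem_filter, Finset.mem_univ, true_and, Finset.mem_insert]
        exact (em (g = 1)).imp id id |>.elim (fun h => by simp [h]) (fun h => by simp [h])
      conv_lhs => rw [h6]
      rw [Finset.sum_insert (by simp), τ.one]
    rw [h3, h5]
    have h7 : Q.card = (Q.card - 1) + 1 := by omega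
    conv_lhs => rw [h7, succ_nsmul]
    abel
  rw [Finset.sum_eq_zero (fun S hS => hsum S (by simpa [hQ] using hS)), htot, zero_add] at key
  rw [← Nat.cast_smul_eq_nsmul K] at key
  rcases smul_eq_zero.1 key.symm with h8 | h8
  · exfalso
    have h9 : (Q.card - 1 : ℕ) = 0 := by exact_mod_cast h8
    omega
  · exact h8

end partition

end Pool.Agent.T9h39.TD
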