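import Mathlib

/-!
# The Tate conjecture for divisors and finite group actions: definitions
-/

open Module Polynomial

namespace Pool.Agent.T9h39.TD

/-- The data of the question for a variety `Y` over a finite field with `q` elements, with coefficients
in the field `K` (the field of `ℓ`-adic numbers). -/
structure Var (K : Type) [Field K] where
  /-- the cohomology `H²(1)` of `Y` over the algebraic closure -/
  H : Type
  [ab : AddCommGroup H]
  [mod : Module K H]
  [fin : FiniteDimensional K H]
  /-- the Frobenius endomorphism `F^* / q` -/
  F : H →ₗ[K] H
  /-- the divisors on `Y` up to homological equivalence, with rational coefficients -/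
  N : Type
  [abN : AddCommGroup N]
  [modN : Module ℚ N]
  [finN : FiniteDimensional ℚ N]
  /-- the class map -/
  cl : N →+ H
  fix : ∀ x, F (cl x) = cl x
  indep : ∀ (n : ℕ) (x : Fin n → N), LinearIndependent ℚ x → LinearIndependent K (cl ∘ x)

attribute [instance] Var.ab Var.mod Var.fin Var.abN Var.modN Var.finN

section basic

variable {K : Type} [Field K]

/-- The space spanned by the classes of the divisors. -/
def Var.divisors (Y : Var K) : Submodule K Y.H := Submodule.span K (Set.range Y.cl)

/-- The classes which are invariant under the Galois group. -/
def Var.invariants (Y : Var K) : Submodule K Y.H := LinearMap.ker (Y.F - 1)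

/-- The multiplicity of `1` as a root of the characteristic polynomial of `F^* / q` (the multiplicity of
`q` as a root of `Q_2(Y, T)`). -/
noncomputable def Var.mult (Y : Var K) : ℕ := Y.F.charpoly.rootMultiplicity 1

/-- The Tate conjecture for the divisors on `Y`, both equalities. -/
def Var.Tate (Y : Var K) : Prop :=
  Y.divisors = Y.invariants ∧ finrank K Y.divisors = Y.mult

/-- The defect of the Tate conjecture: the difference of the multiplicity of `q` as a root of
`Q_2(Y, T)` and of the dimension of the space spanned by the classes of divisors. -/
noncomputable def Var.defect (Y : Var K) : ℕ := Y.mult - finrank K Y.divisors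

end basic

/-- A linear representation of the group `G` on the vector space `W`. -/
structure Rep (K G W : Type) [Field K] [Group G] [AddCommGroup W] [Module K W] where
  /-- the action of a group element -/
  act : G → W →ₗ[K] W
  one : ∀ x, act 1 x = x
  mul : ∀ g h x, act (g * h) x = act g (act h x)

/-- The vectors which are fixed by the subgroup `S`. -/
def fixed {K G W : Type} [Field K] [Group G] [AddCommGroup W] [Module K W]
    (τ : Rep K G W) (S : Subgroup G) : Submodule K W where
  carrier := {x | ∀ g ∈ S, τ.act g x = x}
  zero_mem' := fun g _ => map_zero _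
  add_mem' := fun ha hb g hg => by rw [map_add, ha g hg, hb g hg]
  smul_mem' := fun c x hx g hg => by rw [map_smul, hx g hg]

section inv

variable {K G W : Type} [Field K] [Group G] [AddCommGroup W] [Module K W]

/-- The space of the vectors which are fixed by the subgroup `S`, as a type. -/
def Inv (τ : Rep K G W) (S : Subgroup G) : Type := fixed τ S

noncomputable instance (τ : Rep K G W) (S : Subgroup G) : AddCommGroup (Inv τ S) :=
  inferInstanceAs (AddCommGroup (fixed τ S))
noncomputable instance (τ : Rep K G W) (S : Subgroup G) : Module K (Inv τ S) :=
  inferInstanceAs (Module K (fixed τ S))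
instance [FiniteDimensional K W] (τ : Rep K G W) (S : Subgroup G) :
    FiniteDimensional K (Inv τ S) := inferInstanceAs (FiniteDimensional K (fixed τ S))

/-- The inclusion of the invariants. -/
noncomputable def Inv.val (τ : Rep K G W) (S : Subgroup G) : Inv τ S →ₗ[K] W := (fixed τ S).subtype

end inv

/-- An action of the group `G` on `Y` (over the finite field). -/
structure Action {K : Type} [Field K] (Y : Var K) (G : Type) [Group G] where
  /-- the action on the cohomology -/
  ρ : Rep K G Y.H
  /-- the action on the divisors -/
  ν : Rep ℚ G Y.N
  comm : ∀ g x, Y.F (ρ.act g x) = ρ.act g (Y.F x)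
  cl : ∀ g n, Y.cl (ν.act g n) = ρ.act g (Y.cl n)

/-- The number is rational. -/
def IsRat {K : Type} [Field K] (x : K) : Prop := ∃ q : ℚ, x = q

/-- The trace of `f F ^ n`. -/
noncomputable def twistedTrace {K W : Type} [Field K] [AddCommGroup W] [Module K W]
    (f F : W →ₗ[K] W) (n : ℕ) : K := LinearMap.trace K W (f * F ^ n)

/-- The characteristic polynomial of `f` has rational coefficients. -/
def HasRationalCharpoly {K W : Type} [Field K] [CharZero K] [AddCommGroup W] [Module K W]
    [FiniteDimensional K W] (f : W →ₗ[K] W) : Prop :=
  ∃ P : ℚ[X], P.map (Rat.castHom K) = f.charpoly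

section action

variable {K G : Type} [Field K] [CharZero K] [Group G] {Y : Var K}

/-- The class map for the divisors which are fixed by the subgroup `S`. -/
noncomputable def Action.clS (A : Action Y G) (S : Subgroup G) : Inv A.ν S →+ Inv A.ρ S where
  toFun x := ⟨Y.cl x.1, fun g hg => by rw [← A.cl, x.2 g hg]⟩
  map_zero' := Subtype.ext (map_zero _)
  map_add' x y := Subtype.ext (map_add _ _ _)

/-- The Frobenius endomorphism on the `S`-invariant cohomology. -/
noncomputable def Action.FS (A : Action Y G) (S : Subgroup G) : Inv A.ρ S →ₗ[K] Inv A.ρ S where
  toFun x := ⟨Y.F x.1, fun g hg => by rw [← A.comm, x.2 g hg]⟩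
  map_add' x y := Subtype.ext (map_add _ _ _)
  map_smul' c x := Subtype.ext (map_smul _ _ _)

/-- The quotient of `Y` by the subgroup `S`: its cohomology and its divisors are the `S`-invariants. -/
noncomputable def Action.quot (A : Action Y G) (S : Subgroup G) : Var K where
  H := Inv A.ρ S
  F := A.FS S
  N := Inv A.ν S
  cl := A.clS S
  fix x := Subtype.ext (Y.fix x.1)
  indep n x hx := by
    have h1 : LinearIndependent ℚ ((fixed A.ν S).subtype ∘ x) :=
      hx.map' (Inv.val A.ν S) (Submodule.ker_subtype _)
    have h2 := Y.indep n _ h1
    have h3 : Y.cl ∘ (fixed A.ν S).subtype ∘ x = Inv.val A.ρ S ∘ (A.clS S ∘ x) := rfl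
    rw [h3] at h2
    exact LinearIndependent.of_comp _ h2

/-- The theorems of Weil, Deligne, Katz and Messing: the characteristic polynomial of the
Frobenius endomorphism and the traces of `g F ^ n` are rational. -/
structure Action.IsRational (A : Action Y G) : Prop where
  charpoly : HasRationalCharpoly Y.F
  trace : ∀ (g : G) (n : ℕ), IsRat (twistedTrace (A.ρ.act g) Y.F n)

end action

/-- A finite-dimensional representation. -/
structure FinRep (K G : Type) [Field K] [Group G] where
  /-- the vector space -/
  W : Type
  [ab : AddCommGroup W]
  [mod : Module K W]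
  [fin : FiniteDimensional K W]
  /-- the representation -/
  τ : Rep K G W

attribute [instance] FinRep.ab FinRep.mod FinRep.fin

/-- The dimension of the representation. -/
noncomputable def FinRep.dim {K G : Type} [Field K] [Group G] (R : FinRep K G) : ℕ := finrank K R.W

/-- The dimension of the space of the invariants of the subgroup `S`. -/
noncomputable def FinRep.fixedDim {K G : Type} [Field K] [Group G] (R : FinRep K G)
    (S : Subgroup G) : ℕ := finrank K (fixed R.τ S)

/-- The character has rational values. -/
def FinRep.HasRationalCharacter {K G : Type} [Field K] [Group G] (R : FinRep K G) : Prop :=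
  ∀ g, IsRat (LinearMap.trace K R.W (R.τ.act g))

/-- The subgroups in `P` are proper and nontrivial, and every `g ≠ 1` is contained in exactly one of
them. -/
structure IsPartition {G : Type} [Group G] (P : Set (Subgroup G)) : Prop where
  bot : ∀ S ∈ P, S ≠ ⊥
  top : ∀ S ∈ P, S ≠ ⊤
  cover : ∀ g : G, g ≠ 1 → ∃! S : Subgroup G, S ∈ P ∧ g ∈ S

end Pool.Agent.T9h39.TD
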