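import Pool.Agent.T9h39.TDDefs

/-!
# The Tate conjecture for divisors and finite group actions
-/

open Module Polynomial

namespace Pool.Agent.T9h39.TD

section basic

variable {K : Type} [Field K] (Y : Var K)

lemma divisors_le : Y.divisors ≤ Y.invariants := by
  rw [Var.divisors, Submodule.span_le]
  rintro _ ⟨n, rfl⟩
  change (Y.F - 1) (Y.cl n) = 0
  rw [LinearMap.sub_apply, Y.fix]
  exact sub_self _

lemma invariants_le : Y.invariants ≤ End.maxGenEigenspace Y.F 1 := by
  intro x hx
  have h1 : (Y.F - 1) x = 0 := hx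
  rw [End.mem_maxGenEigenspace]
  refine ⟨1, ?_⟩
  rw [pow_one, one_smul]
  exact h1

lemma mult_eq : Y.mult = finrank K (End.maxGenEigenspace Y.F 1) :=
  (LinearMap.finrank_maxGenEigenspace_eq Y.F 1).symm

lemma finrank_divisors_le : finrank K Y.divisors ≤ Y.mult := by
  rw [mult_eq]
  exact Submodule.finrank_mono ((divisors_le Y).trans (invariants_le Y))

lemma tate_iff : Y.Tate ↔ Y.defect = 0 := by
  have h1 := finrank_divisors_le Y
  have h2 := Submodule.finrank_mono (divisors_le Y)
  have h3 := Submodule.finrank_mono (invariants_le Y)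
  rw [← mult_eq] at h3
  unfold Var.Tate Var.defect
  constructor
  · rintro ⟨-, h⟩
    omega
  · intro h
    have h4 : finrank K Y.divisors = Y.mult := by omega
    exact ⟨Submodule.eq_of_le_of_finrank_eq (divisors_le Y) (by omega), h4⟩

end basic

section average

variable {k G W : Type} [Field k] [CharZero k] [Group G] [Finite G] [AddCommGroup W] [Module k W]
  (τ : Rep k G W)

/-- The average over the subgroup `S`. -/
noncomputable def avg (S : Subgroup G) : W →ₗ[k] W :=
  (Nat.card S : k)⁻¹ • ∑ᶠ s : S, τ.act s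

lemma card_ne (S : Subgroup G) : (Nat.card S : k) ≠ 0 := by
  have : Nat.card S ≠ 0 := Nat.card_pos.ne'
  exact_mod_cast this

omit [CharZero k] in
lemma avg_apply (S : Subgroup G) (x : W) :
    avg τ S x = (Nat.card S : k)⁻¹ • ∑ᶠ s : S, τ.act s x := by
  have := Fintype.ofFinite S
  rw [avg, LinearMap.smul_apply, finsum_eq_sum_of_fintype, finsum_eq_sum_of_fintype,
    LinearMap.sum_apply]

omit [CharZero k] in
lemma avg_mem (S : Subgroup G) (x : W) : avg τ S x ∈ fixed τ S := by
  have := Fintype.ofFinite S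
  intro g hg
  rw [avg_apply, map_smul, finsum_eq_sum_of_fintype, map_sum]
  congr 1
  refine Fintype.sum_equiv (Equiv.mulLeft (⟨g, hg⟩ : S)) _ _ fun s => ?_
  rw [← τ.mul]
  rfl

lemma avg_fixed (S : Subgroup G) {x : W} (hx : x ∈ fixed τ S) : avg τ S x = x := by
  have := Fintype.ofFinite S
  rw [avg_apply, finsum_eq_sum_of_fintype]
  have h1 : ∀ s : S, τ.act s x = x := fun s => hx s s.2
  rw [Finset.sum_congr rfl fun s _ => h1 s, Finset.sum_const, Finset.card_univ,
    ← Nat.card_eq_fintype_card, ← Nat.cast_smul_eq_nsmul k, smul_smul,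
    inv_mul_cancel₀ (card_ne S), one_smul]

end average


section proj

variable {K G : Type} [Field K] [CharZero K] [Group G] {Y : Var K} (A : Action Y G)

omit [CharZero K] in
lemma rho_divisors (g : G) {x : Y.H} (hx : x ∈ Y.divisors) : A.ρ.act g x ∈ Y.divisors := by
  have h1 : Y.divisors ≤ Y.divisors.comap (A.ρ.act g) := by
    conv_lhs => rw [Var.divisors]
    rw [Submodule.span_le]
    rintro _ ⟨n, rfl⟩
    change A.ρ.act g (Y.cl n) ∈ Y.divisors
    rw [← A.cl]
    exact Submodule.subset_span ⟨_, rfl⟩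
  exact h1 hx

/-- An equivariant projection to the space of the divisor classes. -/
lemma exists_proj [Finite G] : ∃ P : End K Y.H, (∀ x, P x ∈ Y.divisors) ∧
    (∀ x ∈ Y.divisors, P x = x) ∧ ∀ g, P * A.ρ.act g = A.ρ.act g * P := by
  have := Fintype.ofFinite G
  have hmul : ∀ g h, A.ρ.act (g * h) = A.ρ.act g * A.ρ.act h := fun g h =>
    LinearMap.ext (A.ρ.mul g h)
  have hone : A.ρ.act 1 = 1 := LinearMap.ext A.ρ.one
  obtain ⟨C, hC⟩ := Y.divisors.exists_isCompl
  set π : End K Y.H := Y.divisors.subtype ∘ₗ Submodule.projectionOnto _ _ hC with hπ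
  have hπ1 : ∀ x, π x ∈ Y.divisors := fun x => (Submodule.projectionOnto _ _ hC x).2
  have hπ2 : ∀ x ∈ Y.divisors, π x = x := fun x hx => by
    rw [hπ, LinearMap.comp_apply, Submodule.subtype_apply]
    exact congrArg Subtype.val (Submodule.projectionOnto_apply_left hC ⟨x, hx⟩)
  have hc : (Fintype.card G : K) ≠ 0 := by exact_mod_cast Fintype.card_ne_zero
  refine ⟨(Fintype.card G : K)⁻¹ • ∑ g : G, A.ρ.act g * π * A.ρ.act g⁻¹, fun x => ?_, fun x hx => ?_,
    fun h => ?_⟩
  · rw [LinearMap.smul_apply, LinearMap.sum_apply]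
    refine Submodule.smul_mem _ _ (Submodule.sum_mem _ fun g _ => ?_)
    rw [Module.End.mul_apply, Module.End.mul_apply]
    exact rho_divisors A g (hπ1 _)
  · rw [LinearMap.smul_apply, LinearMap.sum_apply]
    have h1 : ∀ g : G, (A.ρ.act g * π * A.ρ.act g⁻¹) x = x := fun g => by
      rw [Module.End.mul_apply, Module.End.mul_apply, hπ2 _ (rho_divisors A _ hx),
        ← A.ρ.mul, mul_inv_cancel, A.ρ.one]
    rw [Finset.sum_congr rfl fun g _ => h1 g, Finset.sum_const, Finset.card_univ,
      ← Nat.cast_smul_eq_nsmul K, smul_smul, inv_mul_cancel₀ hc, one_smul]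
  · rw [smul_mul_assoc, mul_smul_comm, Finset.sum_mul, Finset.mul_sum]
    congr 1
    refine Fintype.sum_equiv (Equiv.mulLeft h⁻¹) _ _ fun g => ?_
    rw [Equiv.coe_mulLeft, mul_inv_rev, inv_inv, hmul, hmul]
    have h1 : A.ρ.act h * A.ρ.act h⁻¹ = 1 := by rw [← hmul, mul_inv_cancel, hone]
    calc A.ρ.act g * π * A.ρ.act g⁻¹ * A.ρ.act h = 1 * (A.ρ.act g * π * A.ρ.act g⁻¹ * A.ρ.act h) := (one_mul _).symm
      _ = A.ρ.act h * A.ρ.act h⁻¹ * (A.ρ.act g * π * A.ρ.act g⁻¹ * A.ρ.act h) := by rw [h1]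
      _ = _ := by simp only [mul_assoc]

omit [CharZero K] in
lemma rho_comm (g : G) : A.ρ.act g * Y.F = Y.F * A.ρ.act g :=
  LinearMap.ext fun x => (A.comm g x).symm

end proj

section poly

variable {K : Type} [Field K] [CharZero K] {H : Type} [AddCommGroup H] [Module K H]
  [FiniteDimensional K H]

/-- The projection to the generalized eigenspace for the eigenvalue `1` is a rational polynomial. -/
lemma exists_e (F : End K H) (hF : HasRationalCharpoly F) :
    ∃ e : ℚ[X], (∀ x, aeval F (e.map (Rat.castHom K)) x ∈ End.maxGenEigenspace F 1) ∧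
      ∀ x ∈ End.maxGenEigenspace F 1, aeval F (e.map (Rat.castHom K)) x = x := by
  obtain ⟨P, hP⟩ := hF
  have hP0 : P ≠ 0 := by
    rintro rfl
    rw [Polynomial.map_zero] at hP
    exact F.charpoly_monic.ne_zero hP.symm
  obtain ⟨h, hh, hnd⟩ := P.exists_eq_pow_rootMultiplicity_mul_and_not_dvd hP0 1
  set m := P.rootMultiplicity 1
  rw [C_1] at hh hnd
  have hirr : Irreducible (X - 1 : ℚ[X]) := by rw [← C_1]; exact irreducible_X_sub_C 1
  have hcop : IsCoprime ((X - 1) ^ m) h :=
    ((hirr.coprime_iff_not_dvd).2 hnd).pow_left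
  have hcopk : ∀ k : ℕ, IsCoprime ((X - 1) ^ k) h := fun k =>
    ((hirr.coprime_iff_not_dvd).2 hnd).pow_left
  obtain ⟨a, b, hab⟩ := hcop
  have hX : ∀ k : ℕ, aeval F (((X - 1 : ℚ[X]) ^ k).map (Rat.castHom K)) = (F - 1) ^ k := by
    intro k
    rw [Polynomial.map_pow, Polynomial.map_sub, map_X, Polynomial.map_one, map_pow, map_sub,
      aeval_X, map_one]
  have hCH : (F - 1) ^ m * aeval F (h.map (Rat.castHom K)) = 0 := by
    rw [← hX, ← map_mul, ← Polynomial.map_mul, ← hh, hP, F.aeval_self_charpoly]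
  refine ⟨b * h, fun x => ?_, fun x hx => ?_⟩
  · rw [End.mem_maxGenEigenspace]
    refine ⟨m, ?_⟩
    rw [one_smul, Polynomial.map_mul, map_mul, ← Module.End.mul_apply, ← mul_assoc]
    have h1 : (F - 1) ^ m * aeval F (b.map (Rat.castHom K)) =
        aeval F (b.map (Rat.castHom K)) * (F - 1) ^ m := by
      rw [← hX, ← map_mul, ← map_mul, mul_comm]
    rw [h1, mul_assoc, hCH, mul_zero]
    rfl
  · rw [End.mem_maxGenEigenspace] at hx
    obtain ⟨k, hk⟩ := hx
    rw [one_smul] at hk
    -- `(F - 1) ^ m x = 0`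
    obtain ⟨a', b', hab'⟩ := hcopk k
    set y := ((F - 1) ^ m) x with hy
    have hy1 : ((F - 1) ^ k) y = 0 := by
      rw [hy, ← Module.End.mul_apply, ← pow_add, add_comm, pow_add, Module.End.mul_apply, hk,
        map_zero]
    have hy2 : aeval F (h.map (Rat.castHom K)) y = 0 := by
      have h1 : aeval F (h.map (Rat.castHom K)) * (F - 1) ^ m = 0 := by
        rw [← hCH, ← hX, ← map_mul, ← map_mul, mul_comm]
      rw [hy, ← Module.End.mul_apply, h1]
      rfl
    have hy0 : y = 0 := by
      have h1 := congrArg (fun r : ℚ[X] => aeval F (r.map (Rat.castHom K)) y) hab'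
      simp only [Polynomial.map_add, Polynomial.map_mul, map_add, map_mul, Polynomial.map_one,
        map_one] at h1
      rw [LinearMap.add_apply, Module.End.mul_apply, Module.End.mul_apply, hX, hy1, hy2, map_zero,
        map_zero, add_zero] at h1
      exact h1.symm
    have h1 := congrArg (fun r : ℚ[X] => aeval F (r.map (Rat.castHom K)) x) hab
    simp only [Polynomial.map_add, Polynomial.map_mul, map_add, map_mul, Polynomial.map_one,
      map_one] at h1
    rw [LinearMap.add_apply, Module.End.mul_apply, hX, ← hy, hy0, map_zero, zero_add] at h1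
    rw [Polynomial.map_mul, map_mul]
    exact h1

end poly

end Pool.Agent.T9h39.TD
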