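import Pool.Agent.T9h39.TDMain

/-!
# The representation which measures the defects of the quotients
-/

open Module Polynomial

namespace Pool.Agent.T9h39.TD

variable {K G : Type} [Field K] [CharZero K] [Group G] {Y : Var K} (A : Action Y G)

omit [Group G] in
lemma IsRat.sub {x y : K} (hx : IsRat x) (hy : IsRat y) : IsRat (x - y) := by
  obtain ⟨a, rfl⟩ := hx
  obtain ⟨b, rfl⟩ := hy
  exact ⟨a - b, by push_cast; rfl⟩

lemma trace_poly (hA : A.IsRational) (g : G) (e : ℚ[X]) :
    IsRat (LinearMap.trace K Y.H (A.ρ.act g * aeval Y.F (e.map (Rat.castHom K)))) := by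
  induction e using Polynomial.induction_on' with
  | add p q hp hq =>
    obtain ⟨a, ha⟩ := hp
    obtain ⟨b, hb⟩ := hq
    refine ⟨a + b, ?_⟩
    rw [Polynomial.map_add, map_add, mul_add, map_add, ha, hb]
    push_cast
    rfl
  | monomial n c =>
    obtain ⟨q, hq⟩ := hA.trace g n
    refine ⟨c * q, ?_⟩
    rw [Polynomial.map_monomial, aeval_monomial, Module.algebraMap_end_eq_smul_id,
      smul_mul_assoc, mul_smul_comm, map_smul]
    have h1 : (LinearMap.id * Y.F ^ n : End K Y.H) = Y.F ^ n := rfl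
    rw [twistedTrace] at hq
    rw [h1, hq, smul_eq_mul]
    push_cast
    rfl

/-- The basis of the space of the divisor classes. -/
noncomputable def divBasis {n : ℕ} (b : Basis (Fin n) ℚ Y.N) :
    Basis (Fin n) K Y.divisors :=
  Basis.span (Y.indep n b b.linearIndependent) |>.map (LinearEquiv.ofEq _ _ (by
    rw [Var.divisors]
    apply le_antisymm
    · rw [Submodule.span_le]
      rintro _ ⟨i, rfl⟩
      exact Submodule.subset_span ⟨_, rfl⟩
    · rw [Submodule.span_le]
      rintro _ ⟨x, rfl⟩
      rw [← b.sum_repr x, map_sum]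
      refine Submodule.sum_mem _ fun i _ => ?_
      have h1 := map_ratCast_smul Y.cl ℚ K (b.repr x i) (b i)
      rw [Rat.cast_id] at h1
      rw [h1]
      exact Submodule.smul_mem _ _ (Submodule.subset_span ⟨i, rfl⟩)))

lemma divBasis_apply {n : ℕ} (b : Basis (Fin n) ℚ Y.N) (i : Fin n) :
    (divBasis b i : Y.H) = Y.cl (b i) := by
  rw [divBasis, Basis.map_apply, LinearEquiv.coe_ofEq_apply]
  exact congrArg Subtype.val (Basis.span_apply (Y.indep n b b.linearIndependent) i)

/-- The trace on the space of the divisor classes is rational. -/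
lemma trace_divisors (g : G) : IsRat (LinearMap.trace K Y.divisors
    ((A.ρ.act g).restrict fun _ hx => rho_divisors A g hx)) := by
  classical
  let b : Basis (Fin (finrank ℚ Y.N)) ℚ Y.N := finBasis ℚ Y.N
  refine ⟨∑ i, b.repr (A.ν.act g (b i)) i, ?_⟩
  rw [LinearMap.trace_eq_matrix_trace K (divBasis b), Matrix.trace]
  push_cast
  refine Finset.sum_congr rfl fun i _ => ?_
  rw [Matrix.diag_apply, LinearMap.toMatrix_apply]
  have h1 : (A.ρ.act g).restrict (fun _ hx => rho_divisors A g hx) (divBasis b i) =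
      ∑ j, ((b.repr (A.ν.act g (b i)) j : ℚ) : K) • divBasis b j := by
    apply Subtype.ext
    rw [LinearMap.coe_restrict_apply, divBasis_apply, ← A.cl]
    conv_lhs => rw [← b.sum_repr (A.ν.act g (b i)), map_sum]
    rw [Submodule.coe_sum]
    refine Finset.sum_congr rfl fun j _ => ?_
    have h1 := map_ratCast_smul Y.cl ℚ K (b.repr (A.ν.act g (b i)) j) (b j)
    rw [Rat.cast_id] at h1
    rw [h1, Submodule.coe_smul, divBasis_apply]
  rw [h1, map_sum, Finsupp.finsetSum_apply]
  rw [Finset.sum_eq_single i]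
  · rw [map_smul, Finsupp.smul_apply, Basis.repr_self, Finsupp.single_eq_same, smul_eq_mul,
      mul_one]
  · intro j _ hj
    rw [map_smul, Finsupp.smul_apply, Basis.repr_self, Finsupp.single_eq_of_ne hj.symm,
      smul_zero]
  · intro h
    exact absurd (Finset.mem_univ i) h

omit [CharZero K] in
lemma commute_aeval {H : Type} [AddCommGroup H] [Module K H] {f F : End K H} (h : f * F = F * f)
    (p : K[X]) : f * aeval F p = aeval F p * f := by
  have hpow : ∀ n : ℕ, f * F ^ n = F ^ n * f := fun n => (show Commute f F from h).pow_right n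
  induction p using Polynomial.induction_on' with
  | add p q hp hq => rw [map_add, mul_add, add_mul, hp, hq]
  | monomial n c =>
    rw [aeval_monomial, Module.algebraMap_end_eq_smul_id, smul_mul_assoc, mul_smul_comm,
      smul_mul_assoc]
    have h1 : (LinearMap.id * F ^ n : End K H) = F ^ n := rfl
    rw [h1, hpow]

omit [CharZero K] in
/-- The trace on a stable subspace is the trace of the composition with a projection. -/
lemma trace_proj {H : Type} [AddCommGroup H] [Module K H] [FiniteDimensional K H]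
    (p : Submodule K H) (Q f : End K H) (hQ : ∀ x, Q x ∈ p) (hQ' : ∀ x ∈ p, Q x = x)
    (hf : ∀ x ∈ p, f x ∈ p) :
    LinearMap.trace K p (f.restrict hf) = LinearMap.trace K H (f * Q) := by
  rw [← LinearMap.trace_restrict_eq_of_forall_mem p (f * Q) (fun x => hf _ (hQ x))]
  congr 1
  ext x
  rw [LinearMap.coe_restrict_apply, LinearMap.coe_restrict_apply, Module.End.mul_apply,
    hQ' _ x.2]

/-- The complement `W` of the space of the divisor classes in the generalized eigenspace. -/
structure Compl where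
  /-- the complement -/
  W : Submodule K Y.H
  stable : ∀ g, ∀ x ∈ W, A.ρ.act g x ∈ W
  le : W ≤ End.maxGenEigenspace Y.F 1
  disj : ∀ x ∈ W, x ∈ Y.divisors → x = 0
  /-- the projection to the divisor classes -/
  P : End K Y.H
  PV : ∀ x, P x ∈ Y.divisors
  PV' : ∀ x ∈ Y.divisors, P x = x
  Pcomm : ∀ g, P * A.ρ.act g = A.ρ.act g * P
  sub : ∀ x ∈ End.maxGenEigenspace Y.F 1, x - P x ∈ W
  rat : ∀ g, IsRat (LinearMap.trace K W ((A.ρ.act g).restrict (stable g)))

lemma exists_compl [Finite G] (hA : A.IsRational) : Nonempty (Compl A) := by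
  obtain ⟨P, hP1, hP2, hP3⟩ := exists_proj A
  obtain ⟨e, he1, he2⟩ := exists_e Y.F hA.charpoly
  set E := aeval Y.F (e.map (Rat.castHom K)) with hE
  have hgE : ∀ g, ∀ x ∈ End.maxGenEigenspace Y.F 1, A.ρ.act g x ∈ End.maxGenEigenspace Y.F 1 := by
    intro g x hx
    exact End.mapsTo_maxGenEigenspace_of_comm (rho_comm A g).symm 1 hx
  have hVE : Y.divisors ≤ End.maxGenEigenspace Y.F 1 := (divisors_le Y).trans (invariants_le Y)
  have hst : ∀ g, ∀ x ∈ End.maxGenEigenspace Y.F 1 ⊓ LinearMap.ker P,
      A.ρ.act g x ∈ End.maxGenEigenspace Y.F 1 ⊓ LinearMap.ker P := by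
    rintro g x ⟨hx1, hx2⟩
    refine ⟨hgE g x hx1, ?_⟩
    have h1 : P x = 0 := hx2
    change P (A.ρ.act g x) = 0
    rw [← Module.End.mul_apply, hP3, Module.End.mul_apply, h1, map_zero]
  refine ⟨⟨End.maxGenEigenspace Y.F 1 ⊓ LinearMap.ker P, hst, inf_le_left, ?_, P, hP1, hP2, hP3,
    ?_, ?_⟩⟩
  · rintro x ⟨-, hx⟩ hxV
    rw [← hP2 x hxV]
    exact hx
  · intro x hx
    refine ⟨Submodule.sub_mem _ hx (hVE (hP1 x)), ?_⟩
    change P (x - P x) = 0
    rw [map_sub, hP2 _ (hP1 x), sub_self]
  · intro g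
    have hEP : E * P = P := LinearMap.ext fun x => he2 _ (hVE (hP1 x))
    rw [trace_proj _ (E - P * E) (A.ρ.act g) ?_ ?_ (hst g), mul_sub, map_sub]
    · refine (trace_poly A hA g e).sub ?_
      have h1 : LinearMap.trace K Y.H (A.ρ.act g * (P * E)) = LinearMap.trace K Y.H (A.ρ.act g * P) := by
        rw [← mul_assoc, LinearMap.trace_mul_comm, ← mul_assoc]
        have h2 : E * A.ρ.act g = A.ρ.act g * E := (commute_aeval (rho_comm A g) _).symm
        rw [h2, mul_assoc, hEP]
      rw [h1, ← trace_proj Y.divisors P (A.ρ.act g) hP1 hP2 (fun x hx => rho_divisors A g hx)]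
      exact trace_divisors A g
    · intro x
      refine ⟨Submodule.sub_mem _ (he1 x) (hVE (hP1 _)), ?_⟩
      change P (E x - P (E x)) = 0
      rw [map_sub, hP2 _ (hP1 _), sub_self]
    · rintro x ⟨hx1, hx2⟩
      have h3 : P x = 0 := hx2
      change E x - P (E x) = x
      rw [he2 x hx1, h3, sub_zero]


/-- The fixed vectors of a subgroup in the subspace `p`. -/
lemma finrank_inf_fixed (C : Compl A) (S : Subgroup G) :
    finrank K ↥(fixed A.ρ S ⊓ End.maxGenEigenspace Y.F 1) =
      finrank K ↥(fixed A.ρ S ⊓ Y.divisors) + finrank K ↥(fixed A.ρ S ⊓ C.W) := by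
  have hVE : Y.divisors ≤ End.maxGenEigenspace Y.F 1 := (divisors_le Y).trans (invariants_le Y)
  have h1 : fixed A.ρ S ⊓ End.maxGenEigenspace Y.F 1 =
      (fixed A.ρ S ⊓ Y.divisors) ⊔ (fixed A.ρ S ⊓ C.W) := by
    apply le_antisymm
    · rintro x ⟨hx, hxE⟩
      have h2 : C.P x ∈ fixed A.ρ S := fun g hg => by
        rw [← Module.End.mul_apply, ← C.Pcomm, Module.End.mul_apply, hx g hg]
      refine Submodule.mem_sup.2 ⟨C.P x, ⟨h2, C.PV x⟩, x - C.P x,
        ⟨Submodule.sub_mem _ hx h2, C.sub x hxE⟩, by abel⟩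
    · exact sup_le (inf_le_inf_left _ hVE) (inf_le_inf_left _ C.le)
  have h3 : (fixed A.ρ S ⊓ Y.divisors) ⊓ (fixed A.ρ S ⊓ C.W) = ⊥ := by
    rw [eq_bot_iff]
    rintro x ⟨⟨-, hx⟩, -, hx'⟩
    exact C.disj x hx' hx
  have h4 := Submodule.finrank_sup_add_finrank_inf_eq (fixed A.ρ S ⊓ Y.divisors)
    (fixed A.ρ S ⊓ C.W)
  rw [h3, finrank_bot, add_zero] at h4
  rw [h1, h4]

omit [CharZero K] in
lemma finrank_comap {V : Type} [AddCommGroup V] [Module K V] (p q : Submodule K V) :
    finrank K (q.comap p.subtype) = finrank K ↥(p ⊓ q) := by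
  rw [← Submodule.map_comap_subtype]
  exact (Submodule.finrank_map_subtype_eq p _).symm

lemma quot_mult (S : Subgroup G) : (A.quot S).mult =
    finrank K ↥(fixed A.ρ S ⊓ End.maxGenEigenspace Y.F 1) := by
  rw [mult_eq]
  have hst : ∀ x ∈ fixed A.ρ S, Y.F x ∈ fixed A.ρ S := fun x hx g hg => by
    rw [← A.comm, hx g hg]
  change finrank K (End.maxGenEigenspace (Y.F.restrict hst) 1) = _
  have h1 : End.maxGenEigenspace (Y.F.restrict hst) 1 =
      (End.maxGenEigenspace Y.F 1).comap (fixed A.ρ S).subtype := by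
    rw [End.maxGenEigenspace, End.maxGenEigenspace]
    exact End.genEigenspace_restrict _ _ _ _ _
  rw [h1, finrank_comap]

/-- The space of the divisor classes of the quotient. -/
def divS (S : Subgroup G) : Submodule K (fixed A.ρ S) :=
  Submodule.span K (Set.range fun n : fixed A.ν S => (A.clS S n : fixed A.ρ S))

lemma quot_divisors [Finite G] (S : Subgroup G) :
    divS A S = Y.divisors.comap (fixed A.ρ S).subtype := by
  apply le_antisymm
  · rw [divS, Submodule.span_le]
    rintro _ ⟨n, rfl⟩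
    exact Submodule.subset_span ⟨n.1, rfl⟩
  · -- the average of a divisor
    have key : ∀ x ∈ Y.divisors, avg A.ρ S x ∈ (divS A S).map (fixed A.ρ S).subtype := by
      intro x hx
      have h1 : Y.divisors ≤
          ((divS A S).map (fixed A.ρ S).subtype).comap (avg A.ρ S) := by
        conv_lhs => rw [Var.divisors]
        rw [Submodule.span_le]
        rintro _ ⟨n, rfl⟩
        have hn := avg_mem A.ν S n
        refine ⟨A.clS S ⟨avg A.ν S n, hn⟩, Submodule.subset_span ⟨_, rfl⟩, ?_⟩
        change Y.cl (avg A.ν S n) = avg A.ρ S (Y.cl n)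
        have := Fintype.ofFinite S
        rw [avg_apply, avg_apply, finsum_eq_sum_of_fintype, finsum_eq_sum_of_fintype]
        have h2 := map_ratCast_smul Y.cl ℚ K ((Nat.card S : ℚ)⁻¹) (∑ s : S, A.ν.act s n)
        rw [Rat.cast_id] at h2
        rw [h2, map_sum]
        push_cast
        congr 1
        exact Finset.sum_congr rfl fun s _ => A.cl s n
      exact h1 hx
    intro x hx
    obtain ⟨y, hy, hyx⟩ := key x.1 hx
    rw [avg_fixed A.ρ S x.2] at hyx
    have : y = x := Subtype.ext hyx
    rwa [← this]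

variable {A} in
/-- The representation on the complement. -/
def Compl.τ (C : Compl A) : Rep K G C.W where
  act g := (A.ρ.act g).restrict (C.stable g)
  one x := Subtype.ext (A.ρ.one x.1)
  mul g h x := Subtype.ext (A.ρ.mul g h x.1)

lemma finrank_fixed (C : Compl A) (S : Subgroup G) :
    finrank K (fixed C.τ S) = finrank K ↥(fixed A.ρ S ⊓ C.W) := by
  rw [inf_comm, ← finrank_comap]
  have h : fixed C.τ S = (fixed A.ρ S).comap C.W.subtype := by
    ext x
    constructor
    · intro hx g hg
      exact congrArg Subtype.val (hx g hg)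
    · intro hx g hg
      exact Subtype.ext (hx g hg)
  rw [h]

/-- **The defects of the quotients.** -/
theorem quot_defect [Finite G] (C : Compl A) (S : Subgroup G) :
    (A.quot S).defect = finrank K (fixed C.τ S) := by
  have h1 : finrank K (divS A S) = finrank K ↥(fixed A.ρ S ⊓ Y.divisors) := by
    rw [quot_divisors]
    exact finrank_comap _ _
  have h2 := finrank_inf_fixed A C S
  have h3 := finrank_fixed A C S
  have h4 := quot_mult A S
  change (A.quot S).mult - finrank K (divS A S) = _
  omega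

lemma defect_eq [Finite G] (C : Compl A) : Y.defect = finrank K C.W := by
  have h1 := finrank_inf_fixed A C ⊥
  have h2 : fixed A.ρ ⊥ = ⊤ := by
    rw [eq_top_iff]
    intro x _ g hg
    rw [Subgroup.mem_bot] at hg
    rw [hg, A.ρ.one]
  rw [h2, top_inf_eq, top_inf_eq, top_inf_eq] at h1
  rw [Var.defect, mult_eq, h1]
  omega

end Pool.Agent.T9h39.TD
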