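import Pool.Agent.T9h39.TDMain

/-!
# Twisted forms by an automorphism of prime order: definitions
-/

open Module Polynomial

namespace Pool.Agent.T9h39.Tw

open Pool.Agent.T9h39.TD

/-- The subspace `p` as a type. -/
def Sb {k W : Type} [Field k] [AddCommGroup W] [Module k W] (p : Submodule k W) : Type := p

noncomputable instance {k W : Type} [Field k] [AddCommGroup W] [Module k W]
    (p : Submodule k W) : AddCommGroup (Sb p) := inferInstanceAs (AddCommGroup p)
noncomputable instance {k W : Type} [Field k] [AddCommGroup W] [Module k W]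
    (p : Submodule k W) : Module k (Sb p) := inferInstanceAs (Module k p)
instance {k W : Type} [Field k] [AddCommGroup W] [Module k W] [FiniteDimensional k W]
    (p : Submodule k W) : FiniteDimensional k (Sb p) := inferInstanceAs (FiniteDimensional k p)

/-- A variety `Y` over a finite field with `q` elements and an automorphism `σ` of `Y`, with
coefficients in the field `K` (an algebraic closure of the field of `ℓ`-adic numbers). -/
structure VarAut (K : Type) [Field K] where
  /-- the cohomology `H²(1)` of `Y` over the algebraic closure -/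
  H : Type
  [ab : AddCommGroup H]
  [mod : Module K H]
  [fin : FiniteDimensional K H]
  /-- the Frobenius endomorphism `F^* / q` -/
  F : H →ₗ[K] H
  /-- the action of the automorphism on the cohomology -/
  σ : H →ₗ[K] H
  /-- the divisors on `Y` over the algebraic closure up to homological equivalence, with rational
  coefficients -/
  N : Type
  [abN : AddCommGroup N]
  [modN : Module ℚ N]
  [finN : FiniteDimensional ℚ N]
  /-- the action of the Frobenius endomorphism on the divisors -/
  φ : N →ₗ[ℚ] N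
  /-- the action of the automorphism on the divisors -/
  s : N →ₗ[ℚ] N
  /-- the class map -/
  cl : N →+ H
  comm : ∀ x, F (σ x) = σ (F x)
  cl_F : ∀ x, F (cl x) = cl (φ x)
  cl_σ : ∀ x, σ (cl x) = cl (s x)
  indep : ∀ (n : ℕ) (x : Fin n → N), LinearIndependent ℚ x → LinearIndependent K (cl ∘ x)

attribute [instance] VarAut.ab VarAut.mod VarAut.fin VarAut.abN VarAut.modN VarAut.finN

variable {K : Type} [Field K] (Y : VarAut K)

/-- The divisors over the algebraic closure which are fixed by `f`. -/
def fixedDivisors (f : Y.N →ₗ[ℚ] Y.N) : Submodule ℚ Y.N := LinearMap.ker (f - 1)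

theorem mem_fixedDivisors {f : Y.N →ₗ[ℚ] Y.N} {x : Y.N} :
    x ∈ fixedDivisors Y f ↔ f x = x := by
  rw [fixedDivisors, LinearMap.mem_ker, LinearMap.sub_apply, sub_eq_zero]
  rfl

/-- The divisors which are fixed by `f` and by `g`. -/
def fixedBoth (f g : Y.N →ₗ[ℚ] Y.N) : Submodule ℚ Y.N := fixedDivisors Y f ⊓ fixedDivisors Y g

/-- The product of the endomorphisms `f` and `g`. -/
def mulEnd {k W : Type} [Field k] [AddCommGroup W] [Module k W] (f g : W →ₗ[k] W) : W →ₗ[k] W :=
  f ∘ₗ g

/-- The power `f ^ n` of the endomorphism `f`. -/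
def powEnd {k W : Type} [Field k] [AddCommGroup W] [Module k W] (f : W →ₗ[k] W) (n : ℕ) :
    W →ₗ[k] W := f ^ n

/-- The Frobenius endomorphism `(σ ^ i F) ^ n` of the twisted form `Y_i` over the extension of degree
`n`, on the cohomology. -/
def VarAut.frob (i n : ℕ) : Y.H →ₗ[K] Y.H := powEnd (mulEnd (powEnd Y.σ i) Y.F) n

/-- The Frobenius endomorphism `(σ ^ i F) ^ n` of the twisted form `Y_i` over the extension of degree
`n`, on the divisors. -/
def VarAut.frobN (i n : ℕ) : Y.N →ₗ[ℚ] Y.N := powEnd (mulEnd (powEnd Y.s i) Y.φ) n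

theorem cl_twist (i n : ℕ) (x : Y.N) :
    ((Y.σ ^ i * Y.F) ^ n) (Y.cl x) = Y.cl (((Y.s ^ i * Y.φ) ^ n) x) := by
  have h1 : ∀ (j : ℕ) (y : Y.N), (Y.σ ^ j) (Y.cl y) = Y.cl ((Y.s ^ j) y) := by
    intro j
    induction j with
    | zero => intro y; rfl
    | succ j ih =>
      intro y
      rw [pow_succ, pow_succ, Module.End.mul_apply, Module.End.mul_apply, Y.cl_σ, ih]
  induction n generalizing x with
  | zero => rfl
  | succ n ih =>
    rw [pow_succ, pow_succ, Module.End.mul_apply, Module.End.mul_apply, Module.End.mul_apply,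
      Module.End.mul_apply, Y.cl_F, h1, ih]

/-- The class map for the divisors which are fixed by `f`. -/
noncomputable def VarAut.clFix (f : Y.N →ₗ[ℚ] Y.N) : Sb (fixedDivisors Y f) →+ Y.H where
  toFun x := Y.cl x.1
  map_zero' := map_zero Y.cl
  map_add' x y := map_add Y.cl x.1 y.1

/-- The twisted form `Y_i` of `Y` by the power `σ ^ i`, over the extension of degree `n`: its Frobenius
endomorphism is `(σ ^ i F) ^ n`. -/
noncomputable def VarAut.twist (i n : ℕ) : Var K where
  H := Y.H
  F := Y.frob i n
  N := Sb (fixedDivisors Y (Y.frobN i n))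
  cl := Y.clFix (Y.frobN i n)
  fix x := by
    have h : ((Y.s ^ i * Y.φ) ^ n) x.1 = x.1 := (mem_fixedDivisors Y).1 x.2
    change ((Y.σ ^ i * Y.F) ^ n) (Y.cl x.1) = Y.cl x.1
    rw [cl_twist, h]
  indep m x hx := by
    have h1 : LinearIndependent ℚ ((fixedDivisors Y (Y.frobN i n)).subtype ∘ x) :=
      hx.map' _ (Submodule.ker_subtype _)
    exact Y.indep m _ h1

/-- The `σ`-invariant cohomology. -/
def VarAut.inv : Submodule K Y.H := LinearMap.ker (Y.σ - 1)

theorem mem_inv {x : Y.H} : x ∈ Y.inv ↔ Y.σ x = x := by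
  rw [VarAut.inv, LinearMap.mem_ker, LinearMap.sub_apply, sub_eq_zero]
  rfl

/-- The Frobenius endomorphism on the `σ`-invariant cohomology. -/
noncomputable def VarAut.FI : Sb Y.inv →ₗ[K] Sb Y.inv where
  toFun x := ⟨Y.F x.1, (mem_inv Y).2 (by rw [← Y.comm, (mem_inv Y).1 x.2])⟩
  map_add' x y := Subtype.ext (map_add Y.F x.1 y.1)
  map_smul' c x := Subtype.ext (map_smul Y.F c x.1)

theorem FI_pow (n : ℕ) (x : Sb Y.inv) : ((Y.FI ^ n) x).1 = (Y.F ^ n) x.1 := by
  induction n generalizing x with
  | zero => rfl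
  | succ n ih =>
    rw [pow_succ, pow_succ, Module.End.mul_apply, Module.End.mul_apply, ih]
    rfl

/-- The class map for the divisors on `Y / σ` which are fixed by `g`. -/
noncomputable def VarAut.clQ (g : Y.N →ₗ[ℚ] Y.N) : Sb (fixedBoth Y Y.s g) →+ Sb Y.inv where
  toFun x := ⟨Y.cl x.1, (mem_inv Y).2 (by rw [Y.cl_σ, (mem_fixedDivisors Y).1 x.2.1])⟩
  map_zero' := Subtype.ext (map_zero Y.cl)
  map_add' x y := Subtype.ext (map_add Y.cl x.1 y.1)

/-- The quotient `Y / σ` over the extension of degree `n`: its cohomology and its divisors are the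
invariants. -/
noncomputable def VarAut.quot (n : ℕ) : Var K where
  H := Sb Y.inv
  F := powEnd Y.FI n
  N := Sb (fixedBoth Y Y.s (powEnd Y.φ n))
  cl := Y.clQ (powEnd Y.φ n)
  fix x := by
    apply Subtype.ext
    change ((Y.FI ^ n) _).1 = _
    rw [FI_pow]
    change (Y.F ^ n) (Y.cl x.1) = Y.cl x.1
    have h := cl_twist Y 0 n x.1
    rw [pow_zero, pow_zero, one_mul, one_mul] at h
    have h2 : (Y.φ ^ n) x.1 = x.1 := (mem_fixedDivisors Y).1 x.2.2
    rw [h, h2]
  indep m x hx := by
    have h1 : LinearIndependent ℚ ((fixedBoth Y Y.s (powEnd Y.φ n)).subtype ∘ x) :=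
      hx.map' _ (Submodule.ker_subtype _)
    have h2 := Y.indep m _ h1
    refine LinearIndependent.of_comp (Y.inv.subtype) ?_
    exact h2

/-- The trace of `σ ^ j F ^ n`. -/
noncomputable def VarAut.tr (j n : ℕ) : K :=
  LinearMap.trace K Y.H (mulEnd (powEnd Y.σ j) (powEnd Y.F n))

/-- The theorems of Weil, Deligne, Katz and Messing: the traces of `σ ^ j F ^ n` and the
characteristic polynomials of the Frobenius endomorphisms of the twisted forms are rational. -/
structure VarAut.IsRational [CharZero K] (Y : VarAut K) : Prop where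
  trace : ∀ j n : ℕ, IsRat (Y.tr j n)
  charpoly : ∀ i n : ℕ, HasRationalCharpoly (Y.frob i n)

end Pool.Agent.T9h39.Tw
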