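import Pool.Agent.T9h39.TwDefs
import Pool.Agent.T9h39.TDCongr

/-!
# Twisted forms by an automorphism of prime order
-/

open Module Polynomial

namespace Pool.Agent.T9h39.Tw

open Pool.Agent.T9h39.TD

section order

variable {K : Type} [Field K] [CharZero K] {W : Type} [AddCommGroup W] [Module K W]
  [FiniteDimensional K W]

/-- An operator of prime order `r` with rational trace: all the primitive `r`-th roots of unity are
eigenvalues of the same multiplicity. -/
theorem congr_prim [IsAlgClosed K] {f : End K W} {r : ℕ} (hr : r.Prime) (hf : f ^ r = 1)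
    (htr : IsRat (LinearMap.trace K W f)) {ζ : K} (hζ : IsPrimitiveRoot ζ r) :
    finrank K W = finrank K (LinearMap.ker (f - 1)) +
      finrank K (End.maxGenEigenspace f ζ) * (r - 1) := by
  classical
  have : Fact r.Prime := ⟨hr⟩
  obtain ⟨q, hq⟩ := htr
  set R := f.charpoly.roots with hR
  have hsplit : f.charpoly.Splits := IsAlgClosed.splits _
  have hsum : R.sum = (q : K) := by
    rw [← hq, Module.End.trace_eq_sum_roots_charpoly_of_splits hsplit]
  have hcard : Multiset.card R = finrank K W := by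
    rw [hR, hsplit.natDegree_eq_card_roots.symm, LinearMap.charpoly_natDegree]
  have hroot : ∀ z ∈ R, z ^ r = 1 := by
    intro z hz
    have h1 : f.charpoly.IsRoot z := isRoot_of_mem_roots hz
    rw [← Module.End.hasEigenvalue_iff_isRoot_charpoly] at h1
    obtain ⟨v, hv⟩ := h1.exists_hasEigenvector
    have h3 : (X ^ r - 1 : K[X]).eval z • v = 0 := by
      rw [← End.aeval_apply_of_hasEigenvector hv, map_sub, map_pow, aeval_X, map_one, hf,
        sub_self]
      rfl
    rcases smul_eq_zero.1 h3 with h | h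
    · rw [eval_sub, eval_pow, eval_X, eval_one] at h
      exact sub_eq_zero.1 h
    · exact absurd h hv.2
  have hinj : Set.InjOn (fun j => ζ ^ j) (Finset.range r : Set ℕ) := by
    intro a ha b hb hab
    exact hζ.pow_inj (Finset.mem_range.1 ha) (Finset.mem_range.1 hb) hab
  set s := (Finset.range r).image (fun j => ζ ^ j) with hs
  have : NeZero r := ⟨hr.ne_zero⟩
  have hsub : R.toFinset ⊆ s := by
    intro z hz
    obtain ⟨i, hi, hz'⟩ := hζ.eq_pow_of_pow_eq_one (hroot z (Multiset.mem_toFinset.1 hz))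
    exact Finset.mem_image.2 ⟨i, Finset.mem_range.2 hi, hz'⟩
  set c : ℕ → ℕ := fun j => R.count (ζ ^ j) with hc
  have hsum2 : R.sum = ∑ j ∈ Finset.range r, (c j : K) * ζ ^ j := by
    rw [Finset.sum_multiset_count_of_subset R s hsub, hs, Finset.sum_image hinj]
    exact Finset.sum_congr rfl fun j _ => nsmul_eq_mul _ _
  have hcard2 : Multiset.card R = ∑ j ∈ Finset.range r, c j := by
    rw [← Multiset.sum_count_eq_card (s := s) (fun z hz => hsub (Multiset.mem_toFinset.2 hz)), hs,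
      Finset.sum_image hinj]
  set P : ℚ[X] := (∑ j ∈ Finset.range r, C (c j : ℚ) * X ^ j) - C q with hP
  have hPζ : aeval ζ P = 0 := by
    rw [hP, map_sub, map_sum, aeval_C, sub_eq_zero]
    have h1 : ∀ j ∈ Finset.range r, aeval ζ (C (c j : ℚ) * X ^ j) = (c j : K) * ζ ^ j := by
      intro j _
      rw [map_mul, aeval_C, map_pow, aeval_X, map_natCast]
    rw [Finset.sum_congr rfl h1, ← hsum2, hsum]
    rfl
  have hdvd : cyclotomic r ℚ ∣ P := by
    rw [cyclotomic_eq_minpoly_rat hζ hr.pos]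
    exact minpoly.dvd ℚ ζ hPζ
  have hcoeff : ∀ j, 1 ≤ j → j < r → P.coeff j = c j := by
    intro j hj hjr
    rw [hP, coeff_sub, finsetSum_coeff, coeff_C_of_ne_zero (by omega), sub_zero,
      Finset.sum_eq_single j]
    · rw [coeff_C_mul, coeff_X_pow_self, mul_one]
    · intro i _ hij
      rw [coeff_C_mul, coeff_X_pow, if_neg (fun h => hij h.symm), mul_zero]
    · intro h
      exact absurd (Finset.mem_range.2 hjr) h
  have hPdeg : P.natDegree < r := by
    rw [hP]
    refine lt_of_le_of_lt (natDegree_sub_le _ _) (max_lt ?_ ?_)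
    · refine lt_of_le_of_lt (natDegree_sum_le_of_forall_le (n := r - 1) _ _ fun j hj => ?_) ?_
      · refine (natDegree_C_mul_X_pow_le _ _).trans ?_
        have := Finset.mem_range.1 hj
        omega
      · have := hr.pos
        omega
    · rw [natDegree_C]
      exact hr.pos
  obtain ⟨u, hu⟩ := hdvd
  have hconst : ∃ d : ℚ, P = cyclotomic r ℚ * C d := by
    by_cases hu0 : u = 0
    · exact ⟨0, by rw [hu, hu0, C_0]⟩
    · have h1 : P.natDegree = (r - 1) + u.natDegree := by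
        rw [hu, natDegree_mul (cyclotomic_ne_zero r ℚ) hu0, natDegree_cyclotomic,
          Nat.totient_prime hr]
      have h2 : u.natDegree = 0 := by omega
      exact ⟨u.coeff 0, by rw [hu]; congr 1; exact eq_C_of_natDegree_eq_zero h2⟩
  obtain ⟨d, hd⟩ := hconst
  have hcc : ∀ j, 1 ≤ j → j < r → (c j : ℚ) = d := by
    intro j hj hjr
    rw [← hcoeff j hj hjr, hd, coeff_mul_C, cyclotomic_prime, finsetSum_coeff,
      Finset.sum_eq_single j]
    · rw [coeff_X_pow_self, one_mul]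
    · intro i _ hij
      rw [coeff_X_pow, if_neg (fun h => hij h.symm)]
    · intro h
      exact absurd (Finset.mem_range.2 hjr) h
  have hc1 : ∀ j ∈ Finset.Ico 1 r, c j = c 1 := by
    intro j hj
    rw [Finset.mem_Ico] at hj
    have h1 := hcc j hj.1 hj.2
    have h2 := hcc 1 le_rfl hr.one_lt
    rw [← h2] at h1
    exact_mod_cast h1
  have hfix : c 0 = finrank K (LinearMap.ker (f - 1)) := by
    rw [← ker_eq hr.ne_zero hf, LinearMap.finrank_maxGenEigenspace_eq, hc]
    change R.count (ζ ^ 0) = _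
    rw [pow_zero, hR, count_roots]
  have hone : c 1 = finrank K (End.maxGenEigenspace f ζ) := by
    rw [LinearMap.finrank_maxGenEigenspace_eq, hc]
    change R.count (ζ ^ 1) = _
    rw [pow_one, hR, count_roots]
  rw [← hcard, hcard2, ← hfix, ← hone, Finset.range_eq_Ico, Finset.sum_eq_sum_Ico_succ_bot hr.pos,
    Finset.sum_congr rfl hc1, Finset.sum_const, Nat.card_Ico, smul_eq_mul, mul_comm]

end order

variable {K : Type} [Field K] [CharZero K] (Y : VarAut K)

omit [CharZero K] in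
theorem comm_mul : Y.F * Y.σ = Y.σ * Y.F := LinearMap.ext Y.comm

omit [CharZero K] in
/-- `(σ ^ i F) ^ n = σ ^ (i n) F ^ n` -/
theorem twist_pow (i n : ℕ) : (Y.σ ^ i * Y.F) ^ n = Y.σ ^ (i * n) * Y.F ^ n := by
  have h : Commute (Y.σ ^ i) Y.F := ((show Commute Y.F Y.σ from comm_mul Y).symm).pow_left i
  rw [h.mul_pow, pow_mul]

/-- rational traces of `σ` times a rational polynomial in `(σ ^ i F) ^ n` -/
theorem trace_poly' (hY : Y.IsRational) (i n : ℕ) (e : ℚ[X]) :
    IsRat (LinearMap.trace K Y.H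
      (Y.σ * aeval ((Y.σ ^ i * Y.F) ^ n) (e.map (Rat.castHom K)))) := by
  induction e using Polynomial.induction_on' with
  | add p q hp hq =>
    obtain ⟨a, ha⟩ := hp
    obtain ⟨b, hb⟩ := hq
    refine ⟨a + b, ?_⟩
    rw [Polynomial.map_add, map_add, mul_add, map_add, ha, hb]
    push_cast
    rfl
  | monomial k c =>
    have hq0 : IsRat (LinearMap.trace K Y.H
        (Y.σ ^ (1 + i * (n * k)) * Y.F ^ (n * k))) := hY.trace (1 + i * (n * k)) (n * k)
    obtain ⟨q, hq⟩ := hq0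
    refine ⟨c * q, ?_⟩
    rw [Polynomial.map_monomial, aeval_monomial, Module.algebraMap_end_eq_smul_id,
      smul_mul_assoc, mul_smul_comm, map_smul]
    have h1 : (LinearMap.id * ((Y.σ ^ i * Y.F) ^ n) ^ k : End K Y.H) =
        Y.σ ^ (i * (n * k)) * Y.F ^ (n * k) := by
      rw [← pow_mul, twist_pow]
      rfl
    rw [h1, ← mul_assoc, ← pow_succ', add_comm (i * (n * k)) 1, hq, smul_eq_mul]
    push_cast
    rfl

omit [CharZero K] in
theorem mem_gen {A : End K Y.H} {μ : K} {x : Y.H} :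
    x ∈ End.maxGenEigenspace A μ ↔ ∃ k : ℕ, ((A - μ • (1 : End K Y.H)) ^ k) x = 0 :=
  End.mem_maxGenEigenspace A μ x

omit [CharZero K] in
/-- the generalized eigenspace is stable under commuting operators -/
theorem gen_stable {A B : End K Y.H} (h : Commute A B) (μ : K) {x : Y.H}
    (hx : x ∈ End.maxGenEigenspace A μ) : B x ∈ End.maxGenEigenspace A μ := by
  rw [mem_gen] at hx ⊢
  obtain ⟨k, hk⟩ := hx
  refine ⟨k, ?_⟩
  have h1 : Commute ((A - μ • (1 : End K Y.H)) ^ k) B :=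
    ((h.sub_left ((Commute.one_left B).smul_left μ))).pow_left k
  rw [← Module.End.mul_apply, h1.eq, Module.End.mul_apply, hk, map_zero]

/-- the exceptional twists -/
def exc (ζ : K) (n : ℕ) (i : ℕ) : Prop :=
  ∃ x : Y.H, x ≠ 0 ∧ Y.σ x = ζ • x ∧ x ∈ End.maxGenEigenspace ((Y.σ ^ i * Y.F) ^ n) 1

omit [CharZero K] in
theorem gen_mono {A : End K Y.H} (c : ℕ) {x : Y.H} (h3 : x ∈ End.maxGenEigenspace A 1) :
    x ∈ End.maxGenEigenspace (A ^ c) 1 := by
  rw [mem_gen] at h3 ⊢
  obtain ⟨k, hk⟩ := h3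
  refine ⟨k, ?_⟩
  rw [one_smul] at hk ⊢
  have hB : (∑ j ∈ Finset.range c, A ^ j) * (A - 1) = A ^ c - 1 := geom_sum_mul A c
  have hc : Commute (∑ j ∈ Finset.range c, A ^ j) (A - 1) := by
    apply Commute.sum_left
    intro j _
    exact (((Commute.refl A).pow_left j).sub_right (Commute.one_right _))
  rw [← hB, hc.mul_pow, Module.End.mul_apply, hk, map_zero]

omit [CharZero K] in
theorem exc_mono {ζ : K} {n n' i : ℕ} (h : n ∣ n') (hi : exc Y ζ n i) : exc Y ζ n' i := by
  obtain ⟨x, h1, h2, h3⟩ := hi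
  obtain ⟨c, rfl⟩ := h
  refine ⟨x, h1, h2, ?_⟩
  rw [pow_mul]
  exact gen_mono Y c h3

omit [CharZero K] in
/-- on the eigenspace of `σ` the twist is a multiple of `F` -/
theorem pow_eigen {ζ : K} (i n k : ℕ) (x : Y.H) (hx : Y.σ x = ζ • x) :
    (((Y.σ ^ i * Y.F) ^ n - 1) ^ k) x = ((ζ ^ (i * n) • Y.F ^ n - 1) ^ k) x := by
  have h1 : ∀ (j : ℕ) (y : Y.H), Y.σ y = ζ • y → (Y.σ ^ j) y = ζ ^ j • y := by
    intro j y hy
    induction j with
    | zero => rw [pow_zero, pow_zero, one_smul]; rfl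
    | succ j ih => rw [pow_succ, Module.End.mul_apply, hy, map_smul, ih, smul_smul, ← pow_succ']
  have h2 : ∀ (j : ℕ) (y : Y.H), Y.σ y = ζ • y → Y.σ ((Y.F ^ j) y) = ζ • (Y.F ^ j) y := by
    intro j y hy
    have hc : Commute Y.σ (Y.F ^ j) :=
      ((show Commute Y.F Y.σ from comm_mul Y).symm).pow_right j
    rw [← Module.End.mul_apply, hc.eq, Module.End.mul_apply, hy, map_smul]
  induction k generalizing x with
  | zero => rfl
  | succ k ih =>
    have h3 : ((Y.σ ^ i * Y.F) ^ n - 1) x = (ζ ^ (i * n) • Y.F ^ n - 1) x := by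
      rw [twist_pow, LinearMap.sub_apply, LinearMap.sub_apply, Module.End.mul_apply,
        h1 _ _ (h2 n x hx), LinearMap.smul_apply]
    have h4 : Y.σ ((ζ ^ (i * n) • Y.F ^ n - 1) x) = ζ • (ζ ^ (i * n) • Y.F ^ n - 1) x := by
      rw [LinearMap.sub_apply, LinearMap.smul_apply, map_sub, map_smul, h2 n x hx, smul_sub]
      change _ - Y.σ x = _ - ζ • x
      rw [hx, smul_comm]
    rw [pow_succ, pow_succ, Module.End.mul_apply, Module.End.mul_apply, h3, ih _ h4]

omit [CharZero K] in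
theorem exists_li {ζ : K} {r n : ℕ} (hr0 : 0 < r) (hζ : IsPrimitiveRoot ζ r) (hn : n.Coprime r)
    (T : Finset ℕ) (hT : ∀ i ∈ T, i < r ∧ exc Y ζ n i) : ∃ x : T → Y.H, LinearIndependent K x ∧
      ∀ i, Y.σ (x i) = ζ • x i ∧ x i ∈ End.maxGenEigenspace ((Y.σ ^ i.1 * Y.F) ^ n) 1 := by
  classical
  choose! x hx0 hxσ hxE using fun i (hi : i ∈ T) => (hT i hi).2
  have hζ0 : ζ ≠ 0 := hζ.ne_zero hr0.ne'
  set μ : T → K := fun i => (ζ ^ (i.1 * n))⁻¹ with hμ
  have hinj : Function.Injective μ := by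
    intro a b hab
    have h1 : ζ ^ (a.1 * n) = ζ ^ (b.1 * n) := inv_injective hab
    have h3 : a.1 * n ≡ b.1 * n [MOD r] := by
      refine hζ.pow_inj (Nat.mod_lt _ hr0) (Nat.mod_lt _ hr0) ?_
      rw [hζ.eq_orderOf, pow_mod_orderOf, pow_mod_orderOf]
      exact h1
    have h2 : a.1 ≡ b.1 [MOD r] := Nat.ModEq.cancel_right_of_coprime hn.symm h3
    exact Subtype.ext (Nat.ModEq.eq_of_lt_of_lt h2 (hT a.1 a.2).1 (hT b.1 b.2).1)
  have hmem : ∀ i : T, x i.1 ∈ End.maxGenEigenspace (Y.F ^ n) (μ i) := by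
    intro i
    have h1 := hxE i.1 i.2
    rw [mem_gen] at h1 ⊢
    obtain ⟨k, hk⟩ := h1
    refine ⟨k, ?_⟩
    rw [one_smul, pow_eigen Y i.1 n k _ (hxσ i.1 i.2)] at hk
    have hne : ζ ^ (i.1 * n) ≠ 0 := pow_ne_zero _ hζ0
    have h2 : (ζ ^ (i.1 * n) • Y.F ^ n - 1 : End K Y.H) =
        ζ ^ (i.1 * n) • (Y.F ^ n - μ i • (1 : End K Y.H)) := by
      rw [smul_sub, smul_smul, hμ]
      dsimp only
      rw [mul_inv_cancel₀ hne, one_smul]
    rw [h2, _root_.smul_pow, LinearMap.smul_apply] at hk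
    rcases smul_eq_zero.1 hk with h3 | h3
    · exact absurd h3 (pow_ne_zero _ hne)
    · exact h3
  exact ⟨fun i => x i.1, ((Module.End.independent_maxGenEigenspace (Y.F ^ n)).comp
    hinj).linearIndependent _ (fun i => hmem i) (fun i => hx0 i.1 i.2),
    fun i => ⟨hxσ i.1 i.2, hxE i.1 i.2⟩⟩

omit [CharZero K] in
theorem exists_set {ζ : K} (r : ℕ) : ∃ T : Finset ℕ,
    (∃ N : ℕ, N.Coprime r ∧ ∀ i ∈ T, i < r ∧ exc Y ζ N i) ∧
      ∀ i < r, i ∉ T → ∀ n : ℕ, n.Coprime r → ¬ exc Y ζ n i := by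
  classical
  set T : Finset ℕ := (Finset.range r).filter fun i => ∃ n : ℕ, n.Coprime r ∧ exc Y ζ n i with hT
  have h1 : ∀ i ∈ T, ∃ n : ℕ, n.Coprime r ∧ exc Y ζ n i := fun i hi => (Finset.mem_filter.1 hi).2
  choose! n hn1 hn2 using h1
  refine ⟨T, ⟨∏ i ∈ T, n i, Nat.Coprime.prod_left fun i hi => hn1 i hi, fun i hi =>
    ⟨Finset.mem_range.1 (Finset.mem_filter.1 hi).1, ?_⟩⟩, ?_⟩
  · exact exc_mono Y (Finset.dvd_prod_of_mem n hi) (hn2 i hi)
  · intro i hi hiT m hm he
    exact hiT (Finset.mem_filter.2 ⟨Finset.mem_range.2 hi, m, hm, he⟩)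

omit [CharZero K] in
theorem gen_σ (i n : ℕ) (μ : K) : ∀ y ∈ End.maxGenEigenspace ((Y.σ ^ i * Y.F) ^ n) μ,
    Y.σ y ∈ End.maxGenEigenspace ((Y.σ ^ i * Y.F) ^ n) μ := fun y hy => by
  have h0 : Commute Y.F Y.σ := comm_mul Y
  exact gen_stable Y ((((Commute.refl Y.σ).pow_left i).mul_left h0).pow_left n) μ hy

/-- the automorphism on the generalized eigenspace -/
noncomputable def sE (i n : ℕ) : End K (End.maxGenEigenspace ((Y.σ ^ i * Y.F) ^ n) (1 : K)) :=
  Y.σ.restrict (gen_σ Y i n 1)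

theorem congr_gen [IsAlgClosed K] (hY : Y.IsRational) {ζ : K} {r : ℕ} (hr : r.Prime)
    (hζ : IsPrimitiveRoot ζ r) (hσ : Y.σ ^ r = 1) (i n : ℕ) :
    finrank K (End.maxGenEigenspace ((Y.σ ^ i * Y.F) ^ n) (1 : K)) =
      finrank K (LinearMap.ker (sE Y i n - 1)) +
        finrank K (End.maxGenEigenspace (sE Y i n) ζ) * (r - 1) := by
  obtain ⟨e, he1, he2⟩ := exists_e ((Y.σ ^ i * Y.F) ^ n) (hY.charpoly i n)
  have hfp : ∀ (j : ℕ) (y : End.maxGenEigenspace ((Y.σ ^ i * Y.F) ^ n) (1 : K)),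
      ((sE Y i n ^ j) y : Y.H) = (Y.σ ^ j) (y : Y.H) := by
    intro j
    induction j with
    | zero => intro y; rfl
    | succ j ih =>
      intro y
      rw [pow_succ, pow_succ, Module.End.mul_apply, Module.End.mul_apply, ih]
      rfl
  have hfr : sE Y i n ^ r = 1 := by
    ext y
    rw [hfp, hσ]
    rfl
  have htr : IsRat (LinearMap.trace K _ (sE Y i n)) := by
    rw [sE, trace_proj _ (aeval ((Y.σ ^ i * Y.F) ^ n) (e.map (Rat.castHom K))) Y.σ he1 he2
      (gen_σ Y i n 1)]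
    exact trace_poly' Y hY i n e
  exact congr_prim hr hfr htr hζ

/-- For a twist which is not exceptional the generalized eigenspace consists of `σ`-invariant
classes. -/
theorem fixed_of_not_exc [IsAlgClosed K] (hY : Y.IsRational) {ζ : K} {r : ℕ} (hr : r.Prime)
    (hζ : IsPrimitiveRoot ζ r) (hσ : Y.σ ^ r = 1) {n i : ℕ} (hi : ¬ exc Y ζ n i) {x : Y.H}
    (hx : x ∈ End.maxGenEigenspace ((Y.σ ^ i * Y.F) ^ n) 1) : Y.σ x = x := by
  have hcongr := congr_gen Y hY hr hζ hσ i n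
  have hzero : finrank K (End.maxGenEigenspace (sE Y i n) ζ) = 0 := by
    rw [LinearMap.finrank_maxGenEigenspace_eq]
    by_contra hne
    have h1 : (sE Y i n).charpoly.IsRoot ζ := by
      rw [← rootMultiplicity_pos (sE Y i n).charpoly_monic.ne_zero]
      exact Nat.pos_of_ne_zero hne
    rw [← Module.End.hasEigenvalue_iff_isRoot_charpoly] at h1
    obtain ⟨v, hv⟩ := h1.exists_hasEigenvector
    refine hi ⟨v.1, fun h => hv.2 (Subtype.ext h), ?_, v.2⟩
    exact congrArg (Subtype.val) hv.apply_eq_smul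
  rw [hzero, zero_mul, add_zero] at hcongr
  have htop : LinearMap.ker (sE Y i n - 1) = ⊤ := Submodule.eq_top_of_finrank_eq hcongr.symm
  have h1 : (⟨x, hx⟩ : End.maxGenEigenspace ((Y.σ ^ i * Y.F) ^ n) (1 : K)) ∈
      LinearMap.ker (sE Y i n - 1) := by rw [htop]; trivial
  rw [LinearMap.mem_ker, LinearMap.sub_apply, sub_eq_zero] at h1
  exact congrArg Subtype.val h1

/-! ### Comparison with the quotient -/

omit [CharZero K] in
theorem cl_inj {x : Y.N} (h : Y.cl x = 0) : x = 0 := by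
  by_contra hx
  have h1 : LinearIndependent ℚ (fun _ : Fin 1 => x) := by
    rw [linearIndependent_unique_iff]
    exact hx
  have h2 := Y.indep 1 _ h1
  rw [linearIndependent_unique_iff] at h2
  exact h2 h

omit [CharZero K] in
theorem cl_inj' {x y : Y.N} (h : Y.cl x = Y.cl y) : x = y := by
  rw [← sub_eq_zero]
  apply cl_inj Y
  rw [map_sub, h, sub_self]

omit [CharZero K] in
theorem FI_sub_pow (n k : ℕ) (y : Sb Y.inv) :
    (((Y.FI ^ n - 1) ^ k) y).1 = ((Y.F ^ n - 1) ^ k) y.1 := by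
  induction k generalizing y with
  | zero => rfl
  | succ k ih =>
    rw [pow_succ, pow_succ, Module.End.mul_apply, Module.End.mul_apply, ih]
    congr 1
    rw [LinearMap.sub_apply, LinearMap.sub_apply, ← FI_pow]
    rfl

omit [CharZero K] in
theorem pow_fixed (i n k : ℕ) (x : Y.H) (hx : Y.σ x = x) :
    (((Y.σ ^ i * Y.F) ^ n - 1) ^ k) x = ((Y.F ^ n - 1) ^ k) x := by
  have h := pow_eigen Y (ζ := 1) i n k x (by rw [one_smul, hx])
  rwa [one_pow, one_smul] at h

omit [CharZero K] in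
theorem pow_fixed' (i n : ℕ) (x : Y.H) (hx : Y.σ x = x) :
    ((Y.σ ^ i * Y.F) ^ n) x = (Y.F ^ n) x := by
  have h := pow_fixed Y i n 1 x hx
  rw [pow_one, pow_one, LinearMap.sub_apply, LinearMap.sub_apply] at h
  exact sub_left_injective h

/-- the inclusion of the invariant cohomology -/
noncomputable def iv : Sb Y.inv →ₗ[K] Y.H where
  toFun x := x.1
  map_add' _ _ := rfl
  map_smul' _ _ := rfl

omit [CharZero K] in
theorem iv_inj : Function.Injective (iv Y) := fun _ _ h => Subtype.ext h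

omit [CharZero K] in
theorem quot_mult (i n : ℕ) :
    (Y.quot n).mult = finrank K (LinearMap.ker (sE Y i n - 1)) := by
  have h0 : (End.maxGenEigenspace (Y.FI ^ n : End K (Sb Y.inv)) 1).map (iv Y) =
      (LinearMap.ker (sE Y i n - 1)).map
        (End.maxGenEigenspace ((Y.σ ^ i * Y.F) ^ n) (1 : K)).subtype := by
    ext x
    rw [Submodule.mem_map, Submodule.mem_map]
    constructor
    · rintro ⟨y, hy, rfl⟩
      have h3 := (mem_inv Y).1 y.2
      refine ⟨⟨y.1, ?_⟩, ?_, rfl⟩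
      · rw [End.mem_maxGenEigenspace] at hy ⊢
        obtain ⟨k, hk⟩ := hy
        refine ⟨k, ?_⟩
        rw [one_smul] at hk ⊢
        have h4 := FI_sub_pow Y n k y
        rw [hk] at h4
        exact (pow_fixed Y i n k y.1 h3).trans h4.symm
      · rw [LinearMap.mem_ker, LinearMap.sub_apply, sub_eq_zero]
        exact Subtype.ext h3
    · rintro ⟨y, hy, rfl⟩
      rw [LinearMap.mem_ker, LinearMap.sub_apply, sub_eq_zero] at hy
      have h3 : Y.σ y.1 = y.1 := congrArg Subtype.val hy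
      obtain ⟨z, hz⟩ : ∃ z : Sb Y.inv, z.1 = y.1 := ⟨⟨y.1, (mem_inv Y).2 h3⟩, rfl⟩
      refine ⟨z, ?_, hz⟩
      have h5 := y.2
      rw [End.mem_maxGenEigenspace] at h5 ⊢
      obtain ⟨k, hk⟩ := h5
      refine ⟨k, Subtype.ext ?_⟩
      rw [one_smul] at hk ⊢
      rw [FI_sub_pow, hz, ← pow_fixed Y i n k y.1 h3, hk]
      rfl
  have h1 := (Submodule.equivMapOfInjective (iv Y) (iv_inj Y)
    (End.maxGenEigenspace (Y.FI ^ n : End K (Sb Y.inv)) 1)).finrank_eq
  have h2 := Submodule.finrank_map_subtype_eq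
    (End.maxGenEigenspace ((Y.σ ^ i * Y.F) ^ n) (1 : K)) (LinearMap.ker (sE Y i n - 1))
  rw [h0] at h1
  exact (mult_eq (Y.quot n)).trans (h1.trans h2)

omit [CharZero K] in
theorem compare (i n : ℕ)
    (hfix : ∀ x ∈ End.maxGenEigenspace ((Y.σ ^ i * Y.F) ^ n) 1, Y.σ x = x) :
    (Y.twist i n).mult = (Y.quot n).mult ∧
      finrank K (Y.twist i n).divisors = finrank K (Y.quot n).divisors := by
  constructor
  · rw [quot_mult Y i n, mult_eq]
    have htop : LinearMap.ker (sE Y i n - 1) = ⊤ := by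
      rw [eq_top_iff]
      intro y _
      rw [LinearMap.mem_ker, LinearMap.sub_apply, sub_eq_zero]
      exact Subtype.ext (hfix y.1 y.2)
    rw [htop, finrank_top]
    rfl
  · have hle : (Y.twist i n).divisors ≤ End.maxGenEigenspace ((Y.σ ^ i * Y.F) ^ n) 1 :=
      (divisors_le (Y.twist i n)).trans (invariants_le (Y.twist i n))
    let clq : ↥(fixedDivisors Y Y.s ⊓ fixedDivisors Y (Y.φ ^ n)) → Y.inv :=
      fun x => (Y.quot n).cl x
    let clt : ↥(fixedDivisors Y ((Y.s ^ i * Y.φ) ^ n)) → Y.H := fun x => Y.cl x.1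
    change finrank K (Submodule.span K (Set.range clt)) =
      finrank K (Submodule.span K (Set.range clq))
    have hmap : Submodule.span K (Set.range clt) =
        (Submodule.span K (Set.range clq)).map Y.inv.subtype := by
      rw [Submodule.map_span]
      congr 1
      ext z
      constructor
      · rintro ⟨x, rfl⟩
        have h1 : Y.σ (Y.cl x.1) = Y.cl x.1 :=
          hfix _ (hle (Submodule.subset_span ⟨x, rfl⟩))
        have h2 : Y.s x.1 = x.1 := cl_inj' Y (by rw [← Y.cl_σ, h1])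
        have h3 : (Y.φ ^ n) x.1 = x.1 := by
          apply cl_inj' Y
          have h4 := cl_twist Y 0 n x.1
          rw [pow_zero, pow_zero, one_mul, one_mul] at h4
          rw [← h4, ← pow_fixed' Y i n _ h1, cl_twist, (mem_fixedDivisors Y).1 x.2]
        exact ⟨_, ⟨⟨x.1, (mem_fixedDivisors Y).2 h2, (mem_fixedDivisors Y).2 h3⟩, rfl⟩, rfl⟩
      · rintro ⟨_, ⟨x, rfl⟩, rfl⟩
        have h2 := (mem_fixedDivisors Y).1 x.2.1
        have h3 := (mem_fixedDivisors Y).1 x.2.2
        have h1 : Y.σ (Y.cl x.1) = Y.cl x.1 := by rw [Y.cl_σ, h2]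
        have h5 : ((Y.s ^ i * Y.φ) ^ n) x.1 = x.1 := by
          apply cl_inj' Y
          have h4 := cl_twist Y 0 n x.1
          rw [pow_zero, pow_zero, one_mul, one_mul] at h4
          rw [← cl_twist, pow_fixed' Y i n _ h1, h4, h3]
        exact ⟨⟨x.1, (mem_fixedDivisors Y).2 h5⟩, rfl⟩
    rw [hmap]
    exact Submodule.finrank_map_subtype_eq Y.inv (Submodule.span K (Set.range clq))

/-- the number of the exceptional twists -/
theorem card_le [IsAlgClosed K] (hY : Y.IsRational) {ζ : K} {r n : ℕ} (hr : r.Prime)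
    (hζ : IsPrimitiveRoot ζ r) (hσ : Y.σ ^ r = 1) (hn : n.Coprime r) (T : Finset ℕ)
    (hT : ∀ i ∈ T, i < r ∧ exc Y ζ n i) :
    T.card * (r - 1) + (Y.quot (n * r)).mult ≤ (Y.twist 0 (n * r)).mult := by
  obtain ⟨x, hx, hx'⟩ := exists_li Y hr.pos hζ hn T hT
  have hmem : ∀ i : T, x i ∈ End.maxGenEigenspace ((Y.σ ^ 0 * Y.F) ^ (n * r)) (1 : K) := by
    intro i
    have h1 := gen_mono Y r (hx' i).2
    have h2 : ((Y.σ ^ i.1 * Y.F) ^ n) ^ r = (Y.σ ^ 0 * Y.F) ^ (n * r) := by
      rw [← pow_mul, twist_pow, twist_pow, ← mul_assoc, mul_comm (i.1 * n) r, pow_mul, hσ,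
        one_pow, zero_mul, pow_zero]
    rwa [h2] at h1
  have hmem2 : ∀ i : T, (⟨x i, hmem i⟩ :
      End.maxGenEigenspace ((Y.σ ^ 0 * Y.F) ^ (n * r)) (1 : K)) ∈
        End.maxGenEigenspace (sE Y 0 (n * r)) ζ := by
    intro i
    rw [End.mem_maxGenEigenspace]
    refine ⟨1, ?_⟩
    rw [pow_one, LinearMap.sub_apply, sub_eq_zero]
    exact Subtype.ext (hx' i).1
  have hli : LinearIndependent K (fun i : T =>
      (⟨⟨x i, hmem i⟩, hmem2 i⟩ : End.maxGenEigenspace (sE Y 0 (n * r)) ζ)) := by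
    refine LinearIndependent.of_comp (End.maxGenEigenspace (sE Y 0 (n * r)) ζ).subtype ?_
    exact LinearIndependent.of_comp
      (End.maxGenEigenspace ((Y.σ ^ 0 * Y.F) ^ (n * r)) (1 : K)).subtype hx
  have h1 := hli.fintype_card_le_finrank
  rw [Fintype.card_coe] at h1
  have h2 := congr_gen Y hY hr hζ hσ 0 (n * r)
  have h3 : (Y.twist 0 (n * r)).mult =
      finrank K (End.maxGenEigenspace ((Y.σ ^ 0 * Y.F) ^ (n * r)) (1 : K)) := mult_eq _
  rw [h3, h2, quot_mult Y 0 (n * r), add_comm]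
  exact Nat.add_le_add_left (Nat.mul_le_mul_right _ h1) _

/-- **Most twisted forms.** -/
theorem most_twists [IsAlgClosed K] (hY : Y.IsRational) {r : ℕ} (hr : r.Prime)
    (hσ : Y.σ ^ r = 1) : ∃ (T : Finset ℕ) (N : ℕ), (∀ i ∈ T, i < r) ∧ N.Coprime r ∧
      T.card * (r - 1) + (Y.quot (N * r)).mult ≤ (Y.twist 0 (N * r)).mult ∧
      T.card * (r - 1) + finrank K Y.inv ≤ finrank K Y.H ∧
      ∀ i < r, i ∉ T → ∀ n : ℕ, n.Coprime r →
        (Y.twist i n).mult = (Y.quot n).mult ∧ (Y.twist i n).defect = (Y.quot n).defect ∧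
          ((Y.twist i n).Tate ↔ (Y.quot n).Tate) := by
  have : NeZero (r : K) := ⟨by exact_mod_cast hr.ne_zero⟩
  obtain ⟨ζ, hζ⟩ := IsAlgClosed.exists_root (cyclotomic r K)
    (by rw [degree_cyclotomic]; exact_mod_cast (Nat.totient_pos.2 hr.pos).ne')
  rw [isRoot_cyclotomic_iff] at hζ
  obtain ⟨T, ⟨N, hN, hTN⟩, hT3⟩ := exists_set Y (ζ := ζ) r
  refine ⟨T, N, fun i hi => (hTN i hi).1, hN, card_le Y hY hr hζ hσ hN T hTN, ?_, ?_⟩
  · have htr : IsRat (LinearMap.trace K Y.H Y.σ) := by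
      have h : IsRat (LinearMap.trace K Y.H (Y.σ ^ 1 * Y.F ^ 0)) := hY.trace 1 0
      rwa [pow_one, pow_zero, mul_one] at h
    have h1 := congr_prim hr hσ htr hζ
    obtain ⟨x, hx, hx'⟩ := exists_li Y hr.pos hζ hN T hTN
    have hmem2 : ∀ i : T, x i ∈ End.maxGenEigenspace Y.σ ζ := by
      intro i
      rw [mem_gen]
      refine ⟨1, ?_⟩
      rw [pow_one, LinearMap.sub_apply, (hx' i).1]
      exact sub_self _
    have hli2 : LinearIndependent K
        (fun i : T => (⟨x i, hmem2 i⟩ : End.maxGenEigenspace Y.σ ζ)) :=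
      LinearIndependent.of_comp (End.maxGenEigenspace Y.σ ζ).subtype hx
    have h4 := hli2.fintype_card_le_finrank
    rw [Fintype.card_coe] at h4
    have h2 := Nat.mul_le_mul_right (r - 1) h4
    refine (Nat.add_le_add_right h2 _).trans ?_
    rw [add_comm]
    exact h1.ge
  · intro i hi hiT n hn
    obtain ⟨h1, h2⟩ := compare Y i n fun x hx =>
      fixed_of_not_exc Y hY hr hζ hσ (hT3 i hi hiT n hn) hx
    have h3 : (Y.twist i n).defect = (Y.quot n).defect := by
      unfold Var.defect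
      rw [h1, h2]
    exact ⟨h1, h3, by rw [tate_iff, tate_iff, h3]⟩

end Pool.Agent.T9h39.Tw
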